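import Pool.Agent.Lib.MP_e8be47_lc.Defs

/-!
# Barely independent families and the splitting and reaping numbers
-/

open Cardinal

namespace Pool.Agent.Lib.MP_e8be47_lc

/-- The set of points whose membership pattern on `a` is `e`. -/
def cyl {X : Type} (A : ℕ → Set X) (a : Set ℕ) (e : ℕ → Prop) : Set X :=
  {x | ∀ n ∈ a, (x ∈ A n ↔ e n)}

/-- Reformulation of a (countable) barely independent family. -/
structure IsBSeq {X : Type} (A : ℕ → Set X) : Prop where
  fin : ∀ (a : Finset ℕ) (e : ℕ → Prop), #(cyl A a e) = #X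
  inf : ∀ (a : Set ℕ) (e : ℕ → Prop), a.Infinite → #(cyl A a e) < #X

theorem IsBarelyIndependent.exists_seq {X : Type} {I : Set (Set X)} (hI : IsBarelyIndependent I) :
    ∃ A : ℕ → Set X, IsBSeq A := by
  classical
  have hinf : Infinite I := Cardinal.infinite_iff.mpr hI.infinite
  have g : ℕ ↪ I := Infinite.natEmbedding I
  have hinj : Function.Injective (fun n => (g n).1) := fun m n h => g.injective (Subtype.ext h)
  refine ⟨fun n => (g n).1, ?_, ?_⟩
  · intro a e
    set 𝒜 : Set (Set X) := (fun n => (g n).1) '' a with h𝒜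
    have hsub : 𝒜 ⊆ I := by
      rintro _ ⟨n, _, rfl⟩
      exact (g n).2
    have hfin : 𝒜.Finite := a.finite_toSet.image _
    have := hI.finite_inter 𝒜 hsub hfin
      (fun B => if ∃ n, (g n).1 = B.1 ∧ e n then 0 else 1)
    rw [← this]
    congr 2
    ext x
    simp only [cyl, boolInter, Set.mem_ofPred_eq, Set.mem_iInter]
    have key : ∀ n, (∃ m, (g m).1 = (g n).1 ∧ e m) ↔ e n := by
      intro n
      constructor
      · rintro ⟨m, hm, he⟩
        rwa [hinj hm] at he
      · intro he; exact ⟨n, rfl, he⟩
    constructor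
    · rintro h ⟨B, n, hn, rfl⟩
      have := h n hn
      by_cases he : e n
      · simp only [side, key, he, if_true]
        exact this.mpr he
      · simp only [side, key, he, if_false]
        simp only [Fin.isValue, one_ne_zero, if_false]
        intro hx
        exact he (this.mp hx)
    · intro h n hn
      have := h ⟨(g n).1, n, hn, rfl⟩
      by_cases he : e n
      · simp only [side, key, he, if_true] at this
        exact ⟨fun _ => he, fun _ => this⟩
      · simp only [side, key, he, if_false, Fin.isValue, one_ne_zero] at this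
        exact ⟨fun hx => absurd hx this, fun h' => absurd h' he⟩
  · intro a e ha
    set 𝒜 : Set (Set X) := (fun n => (g n).1) '' a with h𝒜
    have hsub : 𝒜 ⊆ I := by
      rintro _ ⟨n, _, rfl⟩
      exact (g n).2
    have hcard : #𝒜 = ℵ₀ := by
      have h1 : 𝒜.Infinite := ha.image (hinj.injOn)
      have h2 : 𝒜.Countable := (Set.to_countable a).image _
      have := h1.to_subtype
      have := h2.to_subtype
      exact Cardinal.mk_eq_aleph0 _
    have := hI.countable_inter 𝒜 hsub hcard
      (fun B => if ∃ n, (g n).1 = B.1 ∧ e n then 0 else 1)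
    refine lt_of_le_of_lt (le_of_eq ?_) this
    congr 2
    ext x
    simp only [cyl, boolInter, Set.mem_ofPred_eq, Set.mem_iInter]
    have key : ∀ n, (∃ m, (g m).1 = (g n).1 ∧ e m) ↔ e n := by
      intro n
      constructor
      · rintro ⟨m, hm, he⟩
        rwa [hinj hm] at he
      · intro he; exact ⟨n, rfl, he⟩
    constructor
    · rintro h ⟨B, n, hn, rfl⟩
      have := h n hn
      by_cases he : e n
      · simp only [side, key, he, if_true]
        exact this.mpr he
      · simp only [side, key, he, if_false]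
        simp only [Fin.isValue, one_ne_zero, if_false]
        intro hx
        exact he (this.mp hx)
    · intro h n hn
      have := h ⟨(g n).1, n, hn, rfl⟩
      by_cases he : e n
      · simp only [side, key, he, if_true] at this
        exact ⟨fun _ => he, fun _ => this⟩
      · simp only [side, key, he, if_false, Fin.isValue, one_ne_zero] at this
        exact ⟨fun hx => absurd hx this, fun h' => absurd h' he⟩

theorem IsBSeq.isBarelyIndependent {X : Type} [Infinite X] {A : ℕ → Set X} (hA : IsBSeq A) :
    IsBarelyIndependent (Set.range A) := by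
  classical
  have hX : #X ≠ 0 := by
    rw [Cardinal.mk_ne_zero_iff]; infer_instance
  have hinj : Function.Injective A := by
    intro m n hmn
    by_contra hne
    have h1 := hA.fin {m, n} (fun k => k = m)
    have h2 : cyl A ({m, n} : Finset ℕ) (fun k => k = m) = ∅ := by
      ext x
      simp only [cyl, Finset.coe_insert, Finset.coe_singleton, Set.mem_ofPred_eq,
        Set.mem_empty_iff_false, iff_false]
      intro h
      have e1 := (h m (by simp)).mpr rfl
      have e2 := h n (by simp)
      rw [hmn] at e1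
      exact hne (e2.mp e1).symm
    rw [h2] at h1
    simp only [Cardinal.mk_eq_zero] at h1
    exact hX h1.symm
  -- translate patterns
  have key : ∀ (𝒜 : Set (Set X)), 𝒜 ⊆ Set.range A → ∀ h : 𝒜 → Fin 2,
      boolInter 𝒜 h = cyl A (A ⁻¹' 𝒜) (fun n => ∃ hn : A n ∈ 𝒜, h ⟨A n, hn⟩ = 0) := by
    intro 𝒜 h𝒜 h
    ext x
    simp only [cyl, boolInter, Set.mem_ofPred_eq, Set.mem_iInter, Set.mem_preimage]
    constructor
    · intro hx n hn
      have := hx ⟨A n, hn⟩
      unfold side at this
      by_cases h0 : h ⟨A n, hn⟩ = 0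
      · rw [if_pos h0] at this
        exact ⟨fun _ => ⟨hn, h0⟩, fun _ => this⟩
      · rw [if_neg h0] at this
        exact ⟨fun hx' => absurd hx' this, fun ⟨_, h0'⟩ => absurd h0' h0⟩
    · rintro hx ⟨B, hB⟩
      obtain ⟨n, rfl⟩ := h𝒜 hB
      have := hx n hB
      unfold side
      by_cases h0 : h ⟨A n, hB⟩ = 0
      · rw [if_pos h0]
        exact this.mpr ⟨hB, h0⟩
      · rw [if_neg h0]
        intro hx'
        obtain ⟨_, h0'⟩ := this.mp hx'
        exact h0 h0'
  constructor
  · rw [Cardinal.mk_range_eq A hinj]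
    simp
  · rintro _ ⟨n, rfl⟩
    have := hA.fin {n} (fun _ => True)
    rw [← this]
    congr 2
    ext x
    simp [cyl]
  · intro 𝒜 h𝒜 hfin h
    rw [key 𝒜 h𝒜 h]
    have hfin' : (A ⁻¹' 𝒜).Finite := hfin.preimage hinj.injOn
    have := hA.fin hfin'.toFinset (fun n => ∃ hn : A n ∈ 𝒜, h ⟨A n, hn⟩ = 0)
    rwa [Set.Finite.coe_toFinset] at this
  · intro 𝒜 h𝒜 hcard h
    rw [key 𝒜 h𝒜 h]
    refine hA.inf _ _ ?_
    intro hfin
    have h1 : 𝒜 = A '' (A ⁻¹' 𝒜) := (Set.image_preimage_eq_of_subset h𝒜).symm
    have h2 : 𝒜.Finite := by rw [h1]; exact hfin.image A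
    have h3 := Cardinal.lt_aleph0_iff_set_finite.mpr h2
    rw [hcard] at h3
    exact lt_irrefl _ h3

/-- A subfamily indexed by an injective reindexing. -/
theorem IsBSeq.mk_cyl_mono {X : Type} {A : ℕ → Set X} {a b : Set ℕ} {e : ℕ → Prop} (h : a ⊆ b) :
    cyl A b e ⊆ cyl A a e := fun _ hx n hn => hx n (h hn)

end Pool.Agent.Lib.MP_e8be47_lc
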