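import Pool.Agent.Lib.MP_e8be47_lc.CGlue

/-!
# limits, adding a coordinate
-/

open Set Classical

set_option linter.unusedSectionVars false

namespace E8

variable {L : Type} [LinearOrder L] [WellFoundedLT L]

private theorem CG3_le_one {R : QC} (h : IsQ R) : QLe R QC.one := by
  refine ⟨subset_univ _, 0, fun c hc _ => ?_⟩
  obtain ⟨k, hk⟩ := h.large.1 c hc
  exact ⟨{k}, ⟨k, rfl⟩, Finset.singleton_subset_iff.2 hk⟩

namespace Cond

private theorem CG3_lt_val (p : Cond L) {β ξ : L} (h : ξ < β) (x : Pt L) :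
    (p.lt β).val ξ x = p.val ξ x := restr_val (hΛ := isLowerSet_Iio β) p (show ξ ∈ Iio β from h) x

private theorem CG3_lt_val_off (p : Cond L) {β ξ : L} (h : ¬ ξ < β) (x : Pt L) :
    (p.lt β).val ξ x = QC.one := restr_val_off (hΛ := isLowerSet_Iio β) p (show ξ ∉ Iio β from h) x

private theorem CG3_lt_supp (p : Cond L) (β : L) : (p.lt β).supp = p.supp ∩ Iio β := rfl

private theorem CG3_tower {b : ℕ → L} (hb : Monotone b) (q : ℕ → Cond L)
    (hq : ∀ n, (q n).In (Iio (b n))) (hqq : ∀ n, (q (n + 1)).lt (b n) = q n) (n k : ℕ) :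
    (q (n + k)).lt (b n) = q n := by
  induction k with
  | zero => exact restr_eq (hΛ := isLowerSet_Iio (b n)) (hq n)
  | succ k ih =>
    have h1 : ((q (n + k + 1)).lt (b (n + k))).lt (b n) = (q (n + k + 1)).lt (b n) :=
      restr_restr (hΛ := isLowerSet_Iio (b (n + k))) (hΛ' := isLowerSet_Iio (b n))
        (Iio_subset_Iio (hb (Nat.le_add_right n k))) (q (n + k + 1))
    rw [hqq (n + k)] at h1
    rw [show n + (k + 1) = n + k + 1 from rfl, ← h1]
    exact ih

private theorem CG3_val_eq {b : ℕ → L} (hb : Monotone b) (q : ℕ → Cond L)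
    (hq : ∀ n, (q n).In (Iio (b n))) (hqq : ∀ n, (q (n + 1)).lt (b n) = q n) {n m : ℕ} {ξ : L}
    (hn : ξ < b n) (hm : ξ < b m) (x : Pt L) : (q n).val ξ x = (q m).val ξ x := by
  have key : ∀ n m : ℕ, n ≤ m → ξ < b n → (q n).val ξ x = (q m).val ξ x := by
    intro n m hnm hn
    obtain ⟨k, rfl⟩ := Nat.exists_eq_add_of_le hnm
    have h := CG3_tower hb q hq hqq n k
    rw [← CG3_lt_val (q (n + k)) hn x, h]
  rcases le_total n m with h | h
  · exact key n m h hn
  · exact (key m n h hm).symm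

/-- LIMITS of conditions -/
theorem exists_limit {b : ℕ → L} (hb : Monotone b) (q : ℕ → Cond L)
    (hq : ∀ n, (q n).In (Iio (b n))) (hqq : ∀ n, (q (n + 1)).lt (b n) = q n) :
    ∃ r : Cond L, r.supp = ⋃ n, (q n).supp ∧ ∀ n, r.lt (b n) = q n := by
  classical
  let V : L → Pt L → QC := fun ξ x => if h : ∃ n, ξ < b n then (q (Nat.find h)).val ξ x else QC.one
  have hV : ∀ (n : ℕ) (ξ : L), ξ < b n → ∀ x, V ξ x = (q n).val ξ x := by
    intro n ξ hn x
    have h : ∃ n, ξ < b n := ⟨n, hn⟩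
    show (if h : ∃ n, ξ < b n then (q (Nat.find h)).val ξ x else QC.one) = _
    rw [dif_pos h]
    exact CG3_val_eq hb q hq hqq (Nat.find_spec h) hn x
  have hV0 : ∀ ξ : L, (¬ ∃ n, ξ < b n) → ∀ x, V ξ x = QC.one := by
    intro ξ h x
    show (if h : ∃ n, ξ < b n then (q (Nat.find h)).val ξ x else QC.one) = _
    rw [dif_neg h]
  have hbr : ∀ (n : ℕ) (ξ : L), ξ < b n → ∀ x : Pt L, (∀ η < ξ, x η ∈ br (V η x).T) →
      ∀ η < ξ, x η ∈ br ((q n).val η x).T := by
    intro n ξ hn x hx η hη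
    rw [← hV n η (hη.trans hn) x]
    exact hx η hη
  let r : Cond L :=
    { val := V
      supp := ⋃ n, (q n).supp
      csupp := countable_iUnion fun n => (q n).csupp
      off := by
        intro ξ hξ x
        by_cases h : ∃ n, ξ < b n
        · obtain ⟨n, hn⟩ := h
          rw [hV n ξ hn x]
          exact (q n).off ξ (fun h' => hξ (mem_iUnion.2 ⟨n, h'⟩)) x
        · exact hV0 ξ h x
      dep := by
        intro ξ x y hxy
        by_cases h : ∃ n, ξ < b n
        · obtain ⟨n, hn⟩ := h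
          rw [hV n ξ hn x, hV n ξ hn y]
          exact (q n).dep ξ x y fun η hη => hxy η (mem_iUnion.2 ⟨n, hη⟩)
        · rw [hV0 ξ h x, hV0 ξ h y]
      isQ := by
        intro ξ x hx
        by_cases h : ∃ n, ξ < b n
        · obtain ⟨n, hn⟩ := h
          rw [hV n ξ hn x]
          exact (q n).isQ ξ x (hbr n ξ hn x hx)
        · rw [hV0 ξ h x]
          exact isQ_one
      cont := by
        intro ξ x hx s
        by_cases h : ∃ n, ξ < b n
        · obtain ⟨n, hn⟩ := h
          obtain ⟨F, k, hF⟩ := (q n).cont ξ x (hbr n ξ hn x hx) s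
          refine ⟨F, k, fun y hy hxy => ?_⟩
          rw [hV n ξ hn x, hV n ξ hn y]
          exact hF y (hbr n ξ hn y hy) hxy
        · refine ⟨∅, 0, fun y _ _ => ?_⟩
          rw [hV0 ξ h x, hV0 ξ h y]
          exact ⟨Iff.rfl, Iff.rfl⟩ }
  refine ⟨r, rfl, fun n => ?_⟩
  apply Cond.ext
  · funext ξ x
    by_cases h : ξ < b n
    · rw [CG3_lt_val r h x]
      exact hV n ξ h x
    · rw [CG3_lt_val_off r h x]
      exact ((q n).off ξ (fun h' => h (hq n h')) x).symm
  · rw [CG3_lt_supp]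
    show (⋃ n, (q n).supp) ∩ Iio (b n) = (q n).supp
    apply Subset.antisymm
    · rintro ξ ⟨hξ, hξb⟩
      obtain ⟨m, hm⟩ := mem_iUnion.1 hξ
      obtain ⟨k, hk⟩ := Nat.exists_eq_add_of_le (le_max_left n m)
      obtain ⟨l, hl⟩ := Nat.exists_eq_add_of_le (le_max_right n m)
      have h1 := CG3_tower hb q hq hqq n k
      have h2 := CG3_tower hb q hq hqq m l
      rw [← hk] at h1
      rw [← hl] at h2
      have h3 : ξ ∈ (q (max n m)).supp := by
        rw [← h2, CG3_lt_supp] at hm
        exact hm.1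
      rw [← h1, CG3_lt_supp]
      exact ⟨h3, hξb⟩
    · intro ξ hξ
      exact ⟨mem_iUnion.2 ⟨n, hξ⟩, hq n hξ⟩

private theorem CG3_fix {β : L} {q : Cond L} (hq : q.In (Iio β)) {x : Pt L}
    (hx : ∀ η < β, x η ∈ br (q.val η x).T) :
    (fun ξ => if ξ ∈ q.supp then x ξ else univ) ∈ q.pts := by
  classical
  intro ζ
  have hd : q.val ζ (fun ξ => if ξ ∈ q.supp then x ξ else univ) = q.val ζ x := by
    apply q.dep
    intro η hη _
    simp [hη]
  rw [hd]
  by_cases h : ζ ∈ q.supp
  · simp only [h, if_true]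
    exact hx ζ (hq h)
  · simp only [h, if_false]
    rw [q.off ζ h x]
    exact br_one.2 infinite_univ

/-- ADDING A COORDINATE: `q` lives on `(-∞, β)` and `R : q.pts → Q` is continuous. -/
theorem exists_add {β : L} {q : Cond L} (hq : q.In (Iio β)) (R : Pt L → QC)
    (hR : CQ q R) (hQ : ∀ x ∈ q.pts, IsQ (R x)) :
    ∃ r : Cond L, r.lt β = q ∧ r.supp = insert β q.supp ∧ ∀ x ∈ q.pts, r.val β x = R x := by
  classical
  let fix : Pt L → Pt L := fun x ξ => if ξ ∈ q.supp then x ξ else univ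
  have hfix : ∀ x : Pt L, (∀ η < β, x η ∈ br (q.val η x).T) → fix x ∈ q.pts := fun x hx => CG3_fix hq hx
  let R' : Pt L → QC := fun x => if fix x ∈ q.pts then R (fix x) else QC.one
  let V : L → Pt L → QC := fun ξ x => if ξ = β then R' x else q.val ξ x
  have hVβ : ∀ x, V β x = R' x := fun x => if_pos rfl
  have hVn : ∀ ξ x, ξ ≠ β → V ξ x = q.val ξ x := fun ξ x h => if_neg h
  have hR1 : ∀ x, fix x ∈ q.pts → R' x = R (fix x) := fun x h => if_pos h
  have hbr : ∀ (ξ : L) (x : Pt L), ξ ≤ β → (∀ η < ξ, x η ∈ br (V η x).T) →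
      ∀ η < ξ, x η ∈ br (q.val η x).T := by
    intro ξ x hξ hx η hη
    rw [← hVn η x (hη.trans_le hξ).ne]
    exact hx η hη
  let r : Cond L :=
    { val := V
      supp := insert β q.supp
      csupp := q.csupp.insert β
      off := by
        intro ξ hξ x
        rw [mem_insert_iff, not_or] at hξ
        rw [hVn ξ x hξ.1]
        exact q.off ξ hξ.2 x
      dep := by
        intro ξ x y hxy
        by_cases h : ξ = β
        · subst h
          rw [hVβ, hVβ]
          have hf : fix x = fix y := by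
            funext η
            show (if η ∈ q.supp then x η else univ) = (if η ∈ q.supp then y η else univ)
            by_cases hη : η ∈ q.supp
            · rw [if_pos hη, if_pos hη]
              exact hxy η (mem_insert_of_mem _ hη) (hq hη)
            · rw [if_neg hη, if_neg hη]
          show (if fix x ∈ q.pts then R (fix x) else QC.one) = (if fix y ∈ q.pts then R (fix y) else QC.one)
          rw [hf]
        · rw [hVn ξ x h, hVn ξ y h]
          exact q.dep ξ x y fun η hη => hxy η (mem_insert_of_mem _ hη)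
      isQ := by
        intro ξ x hx
        by_cases h : ξ = β
        · subst h
          rw [hVβ]
          have h1 := hfix x (hbr ξ x le_rfl hx)
          rw [hR1 x h1]
          exact hQ _ h1
        · rw [hVn ξ x h]
          rcases lt_or_gt_of_ne h with h1 | h1
          · exact q.isQ ξ x (hbr ξ x h1.le hx)
          · rw [q.off ξ (fun h2 => lt_asymm h1 (hq h2)) x]
            exact isQ_one
      cont := by
        intro ξ x hx s
        by_cases h : ξ = β
        · subst h
          have h1 := hfix x (hbr ξ x le_rfl hx)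
          obtain ⟨F1, m1, hl1, hF1⟩ := (hR s).1 (fix x) h1
          obtain ⟨F2, m2, hl2, hF2⟩ := (hR s).2 (fix x) h1
          refine ⟨F1 ∪ F2, F1.sup m1 ⊔ F2.sup m2, fun y hy hxy => ?_⟩
          have h2 := hfix y (hbr ξ y le_rfl hy)
          have hcut : ∀ (F : Finset L) (m : L → ℕ), ↑F ⊆ q.supp → (∀ ζ ∈ F, ζ ∈ F1 ∪ F2) →
              (∀ ζ ∈ F, m ζ ≤ F1.sup m1 ⊔ F2.sup m2) →
              ∀ ζ ∈ F, cut (fix y ζ) (m ζ) = cut (fix x ζ) (m ζ) := by
            intro F m hF hFF hm ζ hζ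
            have hs : ζ ∈ q.supp := hF hζ
            have e1 : fix y ζ = y ζ := if_pos hs
            have e2 : fix x ζ = x ζ := if_pos hs
            rw [e1, e2]
            ext k
            rw [mem_cut, mem_cut]
            constructor
            · rintro ⟨hk, hk'⟩
              exact ⟨hk, (hxy ζ (hFF ζ hζ) k (hk.trans_le (hm ζ hζ))).2 hk'⟩
            · rintro ⟨hk, hk'⟩
              exact ⟨hk, (hxy ζ (hFF ζ hζ) k (hk.trans_le (hm ζ hζ))).1 hk'⟩
          have g1 := hF1 (fix y) ((mem_at hl1).2 ⟨h2, hcut F1 m1 hl1.sub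
            (fun ζ hζ => Finset.mem_union_left _ hζ) (fun ζ hζ => (Finset.le_sup hζ).trans le_sup_left)⟩)
          have g2 := hF2 (fix y) ((mem_at hl2).2 ⟨h2, hcut F2 m2 hl2.sub
            (fun ζ hζ => Finset.mem_union_right _ hζ) (fun ζ hζ => (Finset.le_sup hζ).trans le_sup_right)⟩)
          rw [hVβ, hVβ, hR1 x h1, hR1 y h2]
          exact ⟨iff_of_eq g1, iff_of_eq g2⟩
        · rcases lt_or_gt_of_ne h with h1 | h1
          · obtain ⟨F, k, hF⟩ := q.cont ξ x (hbr ξ x h1.le hx) s
            refine ⟨F, k, fun y hy hxy => ?_⟩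
            rw [hVn ξ x h, hVn ξ y h]
            exact hF y (hbr ξ y h1.le hy) hxy
          · refine ⟨∅, 0, fun y _ _ => ?_⟩
            have h2 : ξ ∉ q.supp := fun h2 => lt_asymm h1 (hq h2)
            rw [hVn ξ x h, hVn ξ y h, q.off ξ h2 x, q.off ξ h2 y]
            exact ⟨Iff.rfl, Iff.rfl⟩ }
  refine ⟨r, ?_, rfl, ?_⟩
  · apply Cond.ext
    · funext ξ x
      by_cases h : ξ < β
      · rw [CG3_lt_val r h x]
        exact hVn ξ x h.ne
      · rw [CG3_lt_val_off r h x]
        exact (q.off ξ (fun h' => h (hq h')) x).symm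
    · rw [CG3_lt_supp]
      show insert β q.supp ∩ Iio β = q.supp
      apply Subset.antisymm
      · rintro ξ ⟨hξ, hξb⟩
        rcases mem_insert_iff.1 hξ with h | h
        · subst h
          exact absurd hξb (lt_irrefl _)
        · exact h
      · intro ξ hξ
        exact ⟨mem_insert_of_mem _ hξ, hq hξ⟩
  · intro x hx
    have h1 := hfix x fun η _ => hx η
    show V β x = R x
    rw [hVβ, hR1 x h1]
    have hagree : ∀ ξ ∈ q.supp, fix x ξ = x ξ := fun ξ hξ => if_pos hξ
    apply QC.ext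
    · ext s
      exact iff_of_eq (LC.dep (hR s).1 hx h1 hagree)
    · ext s
      exact iff_of_eq (LC.dep (hR s).2 hx h1 hagree)

/-- two conditions on `(-∞, β]`: how to check `≤` -/
theorem le_of_lt_val {β : L} {r w : Cond L} (hw : w.In (Iic β)) (hs : w.supp ⊆ r.supp)
    (h : r.lt β ≤ w.lt β) (h' : ∀ x ∈ r.pts, QLe (r.val β x) (w.val β x)) : r ≤ w := by
  refine ⟨hs, fun x hx ξ => ?_⟩
  have hx' : x ∈ (r.lt β).pts := pts_mono (le_restr (hΛ := isLowerSet_Iio β) r) hx
  rcases lt_trichotomy ξ β with h1 | h1 | h1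
  · have h2 := h.2 x hx' ξ
    rw [CG3_lt_val r h1 x, CG3_lt_val w h1 x] at h2
    exact h2
  · subst h1
    exact h' x hx
  · rw [w.off ξ (fun h2 => not_le_of_gt h1 (hw h2)) x]
    exact CG3_le_one (r.isQ' hx ξ)

/-- points of a condition on `(-∞, β]` -/
theorem pts_add {β : L} {r : Cond L} (hr : r.In (Iic β)) {x : Pt L} :
    x ∈ r.pts ↔ x ∈ (r.lt β).pts ∧ x β ∈ br (r.val β x).T := by
  constructor
  · intro hx
    exact ⟨pts_mono (le_restr (hΛ := isLowerSet_Iio β) r) hx, hx β⟩
  · rintro ⟨h1, h2⟩ ξ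
    have h3 := (pts_restr (hΛ := isLowerSet_Iio β)).1 h1
    rcases lt_trichotomy ξ β with h4 | h4 | h4
    · exact h3.1 ξ h4
    · subst h4
      exact h2
    · rw [r.off ξ (fun h5 => not_le_of_gt h4 (hr h5)) x]
      exact br_one.2 (h3.2 ξ)

end Cond

end E8
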