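import Pool.Agent.Lib.MP_e8be47_lc.CNode

/-!
# points, the base lemma
-/

open Set Classical

set_option linter.unusedSectionVars false

namespace E8

variable {L : Type} [LinearOrder L] [WellFoundedLT L]

namespace Cond

/-- a partial point (good on the lower set `Λ`) extends to a point -/
theorem exists_pts_of_lower (p : Cond L) {Λ : Set L} (hΛ : IsLowerSet Λ) (x : Pt L)
    (hx : ∀ η ∈ Λ, x η ∈ br (p.val η x).T) : ∃ y ∈ p.pts, ∀ η ∈ Λ, y η = x η := by
  let step : (ξ : L) → ((η : L) → η < ξ → Set ℕ) → Set ℕ := fun ξ ih =>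
    if ξ ∈ Λ then x ξ else
      if h : (br (p.val ξ (fun ζ => if h : ζ < ξ then ih ζ h else ∅)).T).Nonempty then h.some
      else ∅
  let y : Pt L := (wellFounded_lt (α := L)).fix step
  have hy : ∀ ξ, y ξ = step ξ (fun η _ => y η) := fun ξ => WellFounded.fix_eq _ _ _
  have hyΛ : ∀ ξ ∈ Λ, y ξ = x ξ := by
    intro ξ hξ
    rw [hy ξ]
    simp only [step]
    rw [if_pos hξ]
  have hyn : ∀ ξ, ξ ∉ Λ → (br (p.val ξ y).T).Nonempty → y ξ ∈ br (p.val ξ y).T := by
    intro ξ hξ hne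
    have h1 : p.val ξ (fun ζ => if _ : ζ < ξ then y ζ else ∅) = p.val ξ y := by
      refine p.dep ξ _ _ fun η _ hη => ?_
      simp only [dif_pos hη]
    have h2 : (br (p.val ξ (fun ζ => if _ : ζ < ξ then y ζ else ∅)).T).Nonempty := by
      rw [h1]
      exact hne
    have h3 : y ξ = h2.some := by
      rw [hy ξ]
      simp only [step]
      rw [if_neg hξ, dif_pos h2]
    have h4 := h2.some_mem
    rw [← h3, h1] at h4
    exact h4
  refine ⟨y, fun ξ => ?_, hyΛ⟩
  induction ξ using (wellFounded_lt (α := L)).induction with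
  | _ ξ ih =>
    by_cases hξ : ξ ∈ Λ
    · have h1 : p.val ξ y = p.val ξ x :=
        p.dep ξ _ _ fun η _ hη => hyΛ η (hΛ hη.le hξ)
      rw [h1, hyΛ ξ hξ]
      exact hx ξ hξ
    · refine hyn ξ hξ ?_
      have h1 : IsQ (p.val ξ y) := p.isQ ξ y ih
      obtain ⟨s, hs, _⟩ := h1.root
      obtain ⟨z, hz, _⟩ := exists_branch' h1 hs
      exact ⟨z, hz⟩

/-- a partial point (good below `ξ`) extends to a point -/
theorem exists_pts (p : Cond L) (ξ : L) (x : Pt L) (hx : ∀ η < ξ, x η ∈ br (p.val η x).T) :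
    ∃ y ∈ p.pts, ∀ η < ξ, y η = x η :=
  exists_pts_of_lower p (isLowerSet_Iio ξ) x hx

theorem pts_nonempty (p : Cond L) : p.pts.Nonempty := by
  obtain ⟨y, hy, _⟩ := exists_pts_of_lower p (isLowerSet_empty) (fun _ => ∅)
    (fun η hη => absurd hη (Set.notMem_empty η))
  exact ⟨y, hy⟩

/-- a point can be changed at the coordinate `β` (to any branch) and then above `β` -/
theorem exists_pts_update (p : Cond L) {x : Pt L} (hx : x ∈ p.pts) (β : L) {z : Set ℕ}
    (hz : z ∈ br (p.val β x).T) : ∃ y ∈ p.pts, (∀ η < β, y η = x η) ∧ y β = z := by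
  have hv : ∀ η ≤ β, p.val η (Function.update x β z) = p.val η x := fun η hη =>
    p.dep η _ _ fun ζ _ hζ => Function.update_of_ne (lt_of_lt_of_le hζ hη).ne _ _
  obtain ⟨y, hy, hyx⟩ := exists_pts_of_lower p (isLowerSet_Iic β) (Function.update x β z) (by
    intro η hη
    rw [hv η hη]
    rcases (show η ≤ β from hη).lt_or_eq with h | h
    · rw [Function.update_of_ne h.ne]
      exact hx η
    · subst h
      rw [Function.update_self]
      exact hz)
  refine ⟨y, hy, fun η hη => ?_, ?_⟩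
  · rw [hyx η hη.le, Function.update_of_ne hη.ne]
  · rw [hyx β le_rfl, Function.update_self]

/-- for points, `val` is a condition of `Q` -/
theorem isQ' (p : Cond L) {x : Pt L} (hx : x ∈ p.pts) (ξ : L) : IsQ (p.val ξ x) :=
  p.isQ ξ x fun η _ => hx η

/-- the coordinates off the support can be changed arbitrarily to infinite sets -/
theorem pts_congr (p : Cond L) {x y : Pt L} (hx : x ∈ p.pts) (h : ∀ ξ ∈ p.supp, y ξ = x ξ)
    (h' : ∀ ξ, (y ξ).Infinite) : y ∈ p.pts := by
  intro ξ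
  have h1 : p.val ξ y = p.val ξ x := p.dep ξ _ _ fun η hη _ => h η hη
  rw [h1]
  by_cases hξ : ξ ∈ p.supp
  · rw [h ξ hξ]
    exact hx ξ
  · rw [p.off ξ hξ x]
    exact br_one.2 (h' ξ)

/-- continuity with witnesses in the support below `ξ` -/
theorem cont' (p : Cond L) {x : Pt L} (hx : x ∈ p.pts) (ξ : L) (s : Fs) :
    ∃ F : Finset L, ∃ n, ↑F ⊆ p.supp ∩ Iio ξ ∧ ∀ y ∈ p.pts, Near F n x y →
      ((s ∈ (p.val ξ y).T ↔ s ∈ (p.val ξ x).T) ∧ (s ∈ (p.val ξ y).C ↔ s ∈ (p.val ξ x).C)) := by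
  obtain ⟨F0, n, h0⟩ := p.cont ξ x (fun η _ => hx η) s
  refine ⟨F0.filter (· ∈ p.supp ∩ Iio ξ), n, ?_, fun y hy hn => ?_⟩
  · intro η hη
    exact (Finset.mem_filter.1 (Finset.mem_coe.1 hη)).2
  · set y' : Pt L := fun η => if η ∈ p.supp ∩ Iio ξ then y η else x η with hy'
    have h1 : ∀ η ≤ ξ, p.val η y' = p.val η y := fun η hη =>
      p.dep η _ _ fun ζ hζ hζη => if_pos ⟨hζ, lt_of_lt_of_le hζη hη⟩
    have h2 : ∀ η < ξ, y' η ∈ br (p.val η y').T := by
      intro η hη
      rw [h1 η hη.le]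
      by_cases hs : η ∈ p.supp
      · have h3 : y' η = y η := if_pos ⟨hs, hη⟩
        rw [h3]
        exact hy η
      · have h3 : y' η = x η := if_neg fun h => hs h.1
        rw [h3, p.off η hs y]
        exact br_one.2 (br_infinite (hx η))
    have h3 : Near F0 n x y' := by
      intro ζ hζ k hk
      by_cases hs : ζ ∈ p.supp ∩ Iio ξ
      · have h4 : y' ζ = y ζ := if_pos hs
        rw [h4]
        exact hn ζ (Finset.mem_filter.2 ⟨hζ, hs⟩) k hk
      · have h4 : y' ζ = x ζ := if_neg hs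
        rw [h4]
    have h4 := h0 y' h2 h3
    rw [h1 ξ le_rfl] at h4
    exact h4

theorem CN2_base_aux (p : Cond L) {x : Pt L} (hx : x ∈ p.pts) (β : L) : β ∈ p.supp → ∀ (k : ℕ),
    cut (x β) k ∈ (p.val β x).T → ∀ (F : Finset L), ↑F ⊆ p.supp ∩ Iio β → ∀ (n : ℕ),
    ∃ F' : Finset L, ∃ m : L → ℕ, F ⊆ F' ∧ (∀ ξ ∈ F', ξ < β → n ≤ m ξ) ∧ β ∈ F' ∧ m β = k ∧
      Leg p x F' m ∧ ∀ ξ ∈ F', ξ ≤ β := by
  induction β using (wellFounded_lt (α := L)).induction with
  | _ β ih =>
    intro hβ k hk F hF n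
    obtain ⟨F1, n1, hF1, h1⟩ := cont' p hx β (cut (x β) k)
    -- the condition at the coordinate `β`
    have key : ∀ (F3 : Finset L) (m3 : L → ℕ), F1 ⊆ F3 → (∀ ξ ∈ F1, n1 ≤ m3 ξ) →
        ∀ x' : Pt L, (∀ η < β, x' η ∈ br (p.val η x').T ∧
          (η ∈ F3 → cut (x' η) (m3 η) = cut (x η) (m3 η))) →
        cut (x β) k ∈ (p.val β x').T := by
      intro F3 m3 hF13 hm3 x' hx'
      obtain ⟨y, hy, hyx⟩ := exists_pts p β x' (fun η hη => (hx' η hη).1)
      have h2 : p.val β y = p.val β x' := p.dep β _ _ fun η _ hη => hyx η hη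
      have h3 : Near F1 n1 x y := by
        intro ζ hζ j hj
        have hζβ : ζ < β := (hF1 (Finset.mem_coe.2 hζ)).2
        have h4 := (hx' ζ hζβ).2 (hF13 hζ)
        have hj' : j < m3 ζ := lt_of_lt_of_le hj (hm3 ζ hζ)
        rw [hyx ζ hζβ]
        have h5 : j ∈ cut (x' ζ) (m3 ζ) ↔ j ∈ cut (x ζ) (m3 ζ) := by rw [h4]
        rw [mem_cut, mem_cut] at h5
        constructor
        · intro h6
          exact (h5.2 ⟨hj', h6⟩).2
        · intro h6
          exact (h5.1 ⟨hj', h6⟩).2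
      rw [← h2]
      exact (h1 y hy h3).1.2 hk
    by_cases hne : (F ∪ F1).Nonempty
    · set β2 := (F ∪ F1).max' hne with hβ2
      have hβ2m : β2 ∈ F ∪ F1 := Finset.max'_mem _ _
      have hsub : ∀ ζ ∈ F ∪ F1, ζ ∈ p.supp ∧ ζ < β := by
        intro ζ hζ
        rcases Finset.mem_union.1 hζ with h | h
        · exact hF (Finset.mem_coe.2 h)
        · exact hF1 (Finset.mem_coe.2 h)
      obtain ⟨hβ2s, hβ2β⟩ := hsub β2 hβ2m
      obtain ⟨k2, hk2, hk2'⟩ := exists_cut_mem (hx β2) (max n n1)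
      obtain ⟨F3, m3, hF3, hm3, hβF3, hmβ, hleg, hle⟩ := ih β2 hβ2β hβ2s k2 hk2'
        ((F ∪ F1).erase β2) (by
          intro ζ hζ
          obtain ⟨hne', hζ'⟩ := Finset.mem_erase.1 (Finset.mem_coe.1 hζ)
          exact ⟨(hsub ζ hζ').1, lt_of_le_of_ne (Finset.le_max' _ _ hζ') hne'⟩) (max n n1)
      have hsub3 : ∀ ζ ∈ F ∪ F1, ζ ∈ F3 := by
        intro ζ hζ
        by_cases h : ζ = β2
        · rw [h]
          exact hβF3
        · exact hF3 (Finset.mem_erase.2 ⟨h, hζ⟩)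
      have hm3' : ∀ ζ ∈ F3, max n n1 ≤ m3 ζ := by
        intro ζ hζ
        rcases (hle ζ hζ).lt_or_eq with h | h
        · exact hm3 ζ hζ h
        · rw [h, hmβ]
          exact hk2
      have hlt : ∀ ζ ∈ F3, ζ < β := fun ζ hζ => lt_of_le_of_lt (hle ζ hζ) hβ2β
      have hup : ∀ ζ < β, Function.update m3 β k ζ = m3 ζ := fun ζ hζ =>
        Function.update_of_ne hζ.ne _ _
      refine ⟨insert β F3, Function.update m3 β k, ?_, ?_, Finset.mem_insert_self _ _,
        Function.update_self _ _ _, ⟨?_, ?_, ?_⟩, ?_⟩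
      · intro ζ hζ
        exact Finset.mem_insert_of_mem (hsub3 ζ (Finset.mem_union_left _ hζ))
      · intro ζ hζ hζβ
        rw [hup ζ hζβ]
        rcases Finset.mem_insert.1 hζ with h | h
        · exact absurd h hζβ.ne
        · exact le_trans (le_max_left _ _) (hm3' ζ h)
      · intro ζ hζ
        rcases Finset.mem_insert.1 (Finset.mem_coe.1 hζ) with h | h
        · rw [h]
          exact hβ
        · exact hleg.sub (Finset.mem_coe.2 h)
      · intro ζ _ j hj
        exact (mem_cut.1 hj).1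
      · intro ζ hζ x' hx'
        rcases Finset.mem_insert.1 hζ with h | h
        · subst h
          simp only [Function.update_self]
          refine key F3 m3 (fun η hη => hsub3 η (Finset.mem_union_right _ hη))
            (fun η hη => le_trans (le_max_right _ _)
              (hm3' η (hsub3 η (Finset.mem_union_right _ hη)))) x' fun η hη => ?_
          refine ⟨(hx' η hη).1, fun hη3 => ?_⟩
          have h2 := (hx' η hη).2 (Finset.mem_insert_of_mem hη3)
          rw [hup η hη] at h2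
          exact h2
        · have hζβ := hlt ζ h
          simp only [hup ζ hζβ]
          refine hleg.mem ζ h x' fun η hη => ⟨(hx' η hη).1, fun hη3 => ?_⟩
          have h2 := (hx' η hη).2 (Finset.mem_insert_of_mem hη3)
          rw [hup η (lt_trans hη hζβ)] at h2
          exact h2
      · intro ζ hζ
        rcases Finset.mem_insert.1 hζ with h | h
        · exact h.le
        · exact (hlt ζ h).le
    · rw [Finset.not_nonempty_iff_eq_empty] at hne
      have hFe : ∀ ζ, ζ ∉ F := fun ζ hζ => by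
        have := Finset.mem_union_left F1 hζ
        rw [hne] at this
        exact absurd this (Finset.notMem_empty _)
      have hF1e : ∀ ζ, ζ ∉ F1 := fun ζ hζ => by
        have := Finset.mem_union_right F hζ
        rw [hne] at this
        exact absurd this (Finset.notMem_empty _)
      refine ⟨{β}, fun _ => k, fun ζ hζ => absurd hζ (hFe ζ), ?_, Finset.mem_singleton_self _,
        rfl, ⟨?_, ?_, ?_⟩, ?_⟩
      · intro ζ hζ hζβ
        exact absurd (Finset.mem_singleton.1 hζ) hζβ.ne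
      · intro ζ hζ
        rw [Finset.mem_singleton.1 (Finset.mem_coe.1 hζ)]
        exact hβ
      · intro ζ _ j hj
        exact (mem_cut.1 hj).1
      · intro ζ hζ x' hx'
        rw [Finset.mem_singleton.1 hζ] at hx' ⊢
        refine key ∅ (fun _ => k) (fun η hη => absurd hη (hF1e η))
          (fun η hη => absurd hη (hF1e η)) x' fun η hη => ⟨(hx' η hη).1, fun h => ?_⟩
        exact absurd h (Finset.notMem_empty _)
      · intro ζ hζ
        exact (Finset.mem_singleton.1 hζ).le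

/-- BASE LEMMA: the legal restrictions at `x` form a base: we can have `F ⊆ F'`, `n ≤ m ξ` for all
`ξ ∈ F'`, and if `F ⊆ Iic β` then `F' ⊆ Iic β` (used with `F ⊆ Iio β` too). -/
theorem base (p : Cond L) {x : Pt L} (hx : x ∈ p.pts) (F : Finset L) (hF : ↑F ⊆ p.supp) (n : ℕ) :
    ∃ F' : Finset L, ∃ m : L → ℕ, F ⊆ F' ∧ (∀ ξ ∈ F', n ≤ m ξ) ∧ Leg p x F' m ∧
      ∀ ξ ∈ F', ∃ η ∈ F, ξ ≤ η := by
  by_cases hne : F.Nonempty
  · set β := F.max' hne with hβ
    have hβF : β ∈ F := Finset.max'_mem _ _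
    obtain ⟨k, hk, hk'⟩ := exists_cut_mem (hx β) n
    obtain ⟨F', m, h1, h2, h3, h4, h5, h6⟩ := CN2_base_aux p hx β (hF (Finset.mem_coe.2 hβF)) k
      hk' (F.erase β) (by
        intro ζ hζ
        obtain ⟨hne', hζ'⟩ := Finset.mem_erase.1 (Finset.mem_coe.1 hζ)
        exact ⟨hF (Finset.mem_coe.2 hζ'), lt_of_le_of_ne (Finset.le_max' _ _ hζ') hne'⟩) n
    refine ⟨F', m, fun ζ hζ => ?_, fun ζ hζ => ?_, h5, fun ζ hζ => ⟨β, hβF, h6 ζ hζ⟩⟩
    · by_cases h : ζ = β
      · rw [h]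
        exact h3
      · exact h1 (Finset.mem_erase.2 ⟨h, hζ⟩)
    · rcases (h6 ζ hζ).lt_or_eq with h | h
      · exact h2 ζ hζ h
      · rw [h, h4]
        exact hk
  · rw [Finset.not_nonempty_iff_eq_empty] at hne
    subst hne
    refine ⟨∅, fun _ => 0, fun _ h => h, fun _ h => absurd h (Finset.notMem_empty _),
      legal_empty p _ _, fun _ h => absurd h (Finset.notMem_empty _)⟩

/-- the same where `m β` is prescribed at the largest coordinate `β` -/
theorem base' (p : Cond L) {x : Pt L} (hx : x ∈ p.pts) (β : L) (hβ : β ∈ p.supp) (k : ℕ)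
    (hk : cut (x β) k ∈ (p.val β x).T) (F : Finset L) (hF : ↑F ⊆ p.supp ∩ Iio β) (n : ℕ) :
    ∃ F' : Finset L, ∃ m : L → ℕ, F ⊆ F' ∧ (∀ ξ ∈ F', ξ < β → n ≤ m ξ) ∧ β ∈ F' ∧ m β = k ∧
      Leg p x F' m ∧ ∀ ξ ∈ F', ξ ≤ β :=
  CN2_base_aux p hx β hβ k hk F hF n

end Cond

end E8
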