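import Pool.Agent.Lib.MP_e8be47_lc.QLim

/-!
# The explicit countable support iteration: definitions

`L` is a well-order.  A point is a sequence of sets of natural numbers indexed by `L`.
A condition `p` assigns to `ξ : L` and a point `x` a pair `p.val ξ x : QC`, which depends only on the
coordinates of `x` in `supp ∩ (-∞, ξ)`, is trivial off the countable set `supp`, is a condition of `Q`
whenever the coordinates `x η` (`η < ξ`) are branches of `p.val η x`, and is continuous there.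
`p.pts` is the set of all points all of whose coordinates are branches.
-/

open Set Classical

namespace E8

variable {L : Type} [LinearOrder L]

abbrev Pt (L : Type) := L → Set ℕ

/-- the points agree on the coordinates in `F` up to `n` -/
def Near (F : Finset L) (n : ℕ) (x y : Pt L) : Prop := ∀ ξ ∈ F, ∀ k < n, (k ∈ x ξ ↔ k ∈ y ξ)

variable (L) in
/-- conditions of the iteration -/
@[ext] structure Cond where
  val : L → Pt L → QC
  supp : Set L
  csupp : supp.Countable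
  off : ∀ ξ, ξ ∉ supp → ∀ x, val ξ x = QC.one
  dep : ∀ ξ x y, (∀ η ∈ supp, η < ξ → x η = y η) → val ξ x = val ξ y
  isQ : ∀ ξ x, (∀ η < ξ, x η ∈ br (val η x).T) → IsQ (val ξ x)
  cont : ∀ ξ x, (∀ η < ξ, x η ∈ br (val η x).T) → ∀ s : Fs, ∃ F n, ∀ y,
    (∀ η < ξ, y η ∈ br (val η y).T) → Near F n x y →
      ((s ∈ (val ξ y).T ↔ s ∈ (val ξ x).T) ∧ (s ∈ (val ξ y).C ↔ s ∈ (val ξ x).C))

namespace Cond

/-- the points of `p` -/
def pts (p : Cond L) : Set (Pt L) := {x | ∀ ξ, x ξ ∈ br (p.val ξ x).T}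

/-- `p` lives on `Λ` -/
def In (p : Cond L) (Λ : Set L) : Prop := p.supp ⊆ Λ

/-- `p' ≤ p` -/
instance : LE (Cond L) :=
  ⟨fun p' p => p.supp ⊆ p'.supp ∧ ∀ x ∈ p'.pts, ∀ ξ, QLe (p'.val ξ x) (p.val ξ x)⟩

theorem le_def {p' p : Cond L} :
    p' ≤ p ↔ p.supp ⊆ p'.supp ∧ ∀ x ∈ p'.pts, ∀ ξ, QLe (p'.val ξ x) (p.val ξ x) := Iff.rfl

theorem pts_mono {p' p : Cond L} (h : p' ≤ p) : p'.pts ⊆ p.pts :=
  fun x hx ξ => (h.2 x hx ξ).br (hx ξ)

instance : Preorder (Cond L) where
  le_refl p := ⟨subset_rfl, fun _ _ _ => QLe.refl _⟩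
  le_trans p q r h h' := ⟨h'.1.trans h.1, fun x hx ξ =>
    (h.2 x hx ξ).trans (h'.2 x (pts_mono h hx) ξ)⟩

/-- `F, s, m` is a legal finite restriction of `p`: on the coordinates `ξ ∈ F` we restrict to the
branches `z` with `cut z (m ξ) = s ξ`, where `s ξ` is a node of `p.val ξ x` for all relevant `x` -/
structure Legal (p : Cond L) (F : Finset L) (s : L → Fs) (m : L → ℕ) : Prop where
  sub : ↑F ⊆ p.supp
  lt : ∀ ξ ∈ F, ∀ k ∈ s ξ, k < m ξ
  mem : ∀ ξ ∈ F, ∀ x : Pt L,
    (∀ η < ξ, x η ∈ br (p.val η x).T ∧ (η ∈ F → cut (x η) (m η) = s η)) → s ξ ∈ (p.val ξ x).T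

/-- `(F, m)` is a legal finite restriction of `p` at the point `x` -/
def Leg (p : Cond L) (x : Pt L) (F : Finset L) (m : L → ℕ) : Prop :=
  Legal p F (fun ξ => cut (x ξ) (m ξ)) m

end Cond

end E8
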