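import Pool.Agent.Lib.MP_e8be47_lc.CRestr

/-!
# amalgamation and gluing
-/

open Set Classical

set_option linter.unusedSectionVars false

namespace E8

variable {L : Type} [LinearOrder L] [WellFoundedLT L]

namespace Cond

private theorem CG2_lower {Λ : Set L} (hΛ : IsLowerSet Λ) {ξ : L} (hξ : ξ ∉ Λ) {η : L}
    (hη : η ∈ Λ) : η < ξ := by
  by_contra h
  push Not at h
  exact hξ (hΛ h hη)

/-- a point good for `u` on `Λ` is good for `p` on `Λ` if `u ≤ p|Λ` -/
private theorem CG2_good {Λ : Set L} (hΛ : IsLowerSet Λ) {u p : Cond L}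
    (h : u ≤ p.restr Λ hΛ) {x : Pt L} (hx : ∀ η ∈ Λ, x η ∈ br (u.val η x).T) :
    ∀ η ∈ Λ, QLe (u.val η x) (p.val η x) := by
  intro η hη
  obtain ⟨x', hx', hxx⟩ := exists_pts_of_lower u hΛ x hx
  have h1 : u.val η x' = u.val η x := u.dep η x' x fun ζ _ hζ => hxx ζ (hΛ (le_of_lt hζ) hη)
  have h2 : p.val η x' = p.val η x := p.dep η x' x fun ζ _ hζ => hxx ζ (hΛ (le_of_lt hζ) hη)
  have h3 := h.2 x' hx' η
  rw [restr_val p hη, h1, h2] at h3
  exact h3

/-- `u` lives on `Λ` and `u ≤ p|Λ`: the condition `u` on `Λ`, `p` off `Λ` -/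
theorem exists_amalg {Λ : Set L} (hΛ : IsLowerSet Λ) {u p : Cond L} (hu : u.In Λ)
    (h : u ≤ p.restr Λ hΛ) : ∃ r : Cond L, r ≤ p ∧ r.restr Λ hΛ = u ∧ r.supp = u.supp ∪ p.supp ∧
      ∀ ξ ∉ Λ, ∀ x, r.val ξ x = p.val ξ x := by
  have hpt : ∀ ξ ∉ Λ, ∀ x : Pt L,
      (∀ η < ξ, x η ∈ br (if η ∈ Λ then u.val η x else p.val η x).T) →
      ∀ η < ξ, x η ∈ br (p.val η x).T := by
    intro ξ hξ x hx η hη
    by_cases hηΛ : η ∈ Λ
    · have h1 : ∀ ζ ∈ Λ, x ζ ∈ br (u.val ζ x).T := by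
        intro ζ hζ
        have h2 := hx ζ (CG2_lower hΛ hξ hζ)
        rwa [if_pos hζ] at h2
      exact (CG2_good hΛ h h1 η hηΛ).br (h1 η hηΛ)
    · have h2 := hx η hη
      rwa [if_neg hηΛ] at h2
  have hpu : ∀ ξ ∈ Λ, ∀ x : Pt L,
      (∀ η < ξ, x η ∈ br (if η ∈ Λ then u.val η x else p.val η x).T) →
      ∀ η < ξ, x η ∈ br (u.val η x).T := by
    intro ξ hξ x hx η hη
    have h2 := hx η hη
    rwa [if_pos (hΛ (le_of_lt hη) hξ)] at h2
  let r : Cond L :=
    { val := fun ξ x => if ξ ∈ Λ then u.val ξ x else p.val ξ x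
      supp := u.supp ∪ p.supp
      csupp := u.csupp.union p.csupp
      off := by
        intro ξ hξ x
        by_cases hξΛ : ξ ∈ Λ
        · rw [if_pos hξΛ]
          exact u.off ξ (fun h' => hξ (Or.inl h')) x
        · rw [if_neg hξΛ]
          exact p.off ξ (fun h' => hξ (Or.inr h')) x
      dep := by
        intro ξ x y hxy
        by_cases hξΛ : ξ ∈ Λ
        · rw [if_pos hξΛ, if_pos hξΛ]
          exact u.dep ξ x y fun η hη => hxy η (Or.inl hη)
        · rw [if_neg hξΛ, if_neg hξΛ]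
          exact p.dep ξ x y fun η hη => hxy η (Or.inr hη)
      isQ := by
        intro ξ x hx
        by_cases hξΛ : ξ ∈ Λ
        · rw [if_pos hξΛ]
          exact u.isQ ξ x (hpu ξ hξΛ x hx)
        · rw [if_neg hξΛ]
          exact p.isQ ξ x (hpt ξ hξΛ x hx)
      cont := by
        intro ξ x hx s
        by_cases hξΛ : ξ ∈ Λ
        · obtain ⟨F, n, hF⟩ := u.cont ξ x (hpu ξ hξΛ x hx) s
          refine ⟨F, n, fun y hy hn => ?_⟩
          rw [if_pos hξΛ, if_pos hξΛ]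
          exact hF y (hpu ξ hξΛ y hy) hn
        · obtain ⟨F, n, hF⟩ := p.cont ξ x (hpt ξ hξΛ x hx) s
          refine ⟨F, n, fun y hy hn => ?_⟩
          rw [if_neg hξΛ, if_neg hξΛ]
          exact hF y (hpt ξ hξΛ y hy) hn }
  refine ⟨r, ⟨subset_union_right, fun x hx ξ => ?_⟩, ?_, rfl, fun ξ hξ x => if_neg hξ⟩
  · by_cases hξΛ : ξ ∈ Λ
    · have h1 : ∀ ζ ∈ Λ, x ζ ∈ br (u.val ζ x).T := by
        intro ζ hζ
        have h2 := hx ζ
        have h3 : r.val ζ x = u.val ζ x := if_pos hζ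
        rwa [h3] at h2
      have h3 : r.val ξ x = u.val ξ x := if_pos hξΛ
      rw [h3]
      exact CG2_good hΛ h h1 ξ hξΛ
    · have h3 : r.val ξ x = p.val ξ x := if_neg hξΛ
      rw [h3]
      exact QLe.refl _
  · refine Cond.ext ?_ ?_
    · funext ξ x
      by_cases hξΛ : ξ ∈ Λ
      · rw [restr_val r hξΛ]
        exact if_pos hξΛ
      · rw [restr_val_off r hξΛ]
        exact (u.off ξ (fun h' => hξΛ (hu h')) x).symm
    · show (u.supp ∪ p.supp) ∩ Λ = u.supp
      ext ξ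
      constructor
      · rintro ⟨h1 | h1, h2⟩
        · exact h1
        · exact h.1 ⟨h1, h2⟩
      · intro h1
        exact ⟨Or.inl h1, hu h1⟩

/-- GLUING: `v` lives on `Λ`, `w` is locally constant on `v.pts`, and `w x | Λ` is in the filter
of `(v, x)`. Then there is `r` with `r|Λ = v` and `r.val ξ x = (w x).val ξ x` for `ξ ∉ Λ`. -/
theorem exists_glue {Λ : Set L} (hΛ : IsLowerSet Λ) {v : Cond L} (hv : v.In Λ)
    (w : Pt L → Cond L) (hw : LC v w) (hm : ∀ x ∈ v.pts, Meets v x ((w x).restr Λ hΛ)) :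
    ∃ r : Cond L, r.restr Λ hΛ = v ∧ (∀ x ∈ r.pts, ∀ ξ ∉ Λ, r.val ξ x = (w x).val ξ x) ∧
      (∀ x ∈ v.pts, (w x).supp \ Λ ⊆ r.supp) ∧
      (∀ Λ' : Set L, Λ ⊆ Λ' → (∀ x ∈ v.pts, (w x).In Λ') → r.In Λ') ∧
      ∀ x ∈ r.pts, Meets r x (w x) := by
  let fx : Pt L → Pt L := fun x ξ => if ξ ∈ v.supp then x ξ else univ
  let w' : Pt L → Cond L := fun x => if fx x ∈ v.pts then w (fx x) else one L
  have hfx : ∀ x, ∀ ξ ∈ v.supp, fx x ξ = x ξ := fun x ξ hξ => if_pos hξ
  have hfval : ∀ x ξ, v.val ξ (fx x) = v.val ξ x := fun x ξ =>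
    v.dep ξ _ _ fun η hη _ => hfx x η hη
  have hfmem : ∀ x : Pt L, (∀ η ∈ Λ, x η ∈ br (v.val η x).T) → fx x ∈ v.pts := by
    intro x hx ξ
    rw [hfval]
    by_cases hξ : ξ ∈ v.supp
    · rw [hfx x ξ hξ]
      exact hx ξ (hv hξ)
    · rw [v.off ξ hξ, br_one]
      have : fx x ξ = univ := if_neg hξ
      rw [this]
      exact infinite_univ
  have hfcongr : ∀ x y : Pt L, (∀ η ∈ v.supp, x η = y η) → fx x = fx y := by
    intro x y h
    funext ξ
    by_cases hξ : ξ ∈ v.supp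
    · rw [hfx x ξ hξ, hfx y ξ hξ, h ξ hξ]
    · show (if ξ ∈ v.supp then x ξ else univ) = if ξ ∈ v.supp then y ξ else univ
      rw [if_neg hξ, if_neg hξ]
  have hsup : ∀ y ∈ v.pts, ∀ ξ ∈ (w y).supp, ξ ∈ Λ → ξ ∈ v.supp := by
    intro y hy ξ hξ hξΛ
    obtain ⟨F, m, h, hle⟩ := hm y hy
    exact hle.1 ⟨hξ, hξΛ⟩
  let S : Set L := v.supp ∪ ⋃ c ∈ w '' v.pts, (c.supp \ Λ)
  have hScount : S.Countable := by
    refine v.csupp.union ((LC.countable_range hw).biUnion fun c _ => ?_)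
    exact c.csupp.mono sdiff_subset
  have hS1 : ∀ x, ∀ ξ ∈ (w' x).supp, ξ ∉ Λ → ξ ∈ S := by
    intro x ξ hξ hξΛ
    by_cases hx : fx x ∈ v.pts
    · have h1 : w' x = w (fx x) := if_pos hx
      rw [h1] at hξ
      exact Or.inr (mem_biUnion (mem_image_of_mem w hx) ⟨hξ, hξΛ⟩)
    · have h1 : w' x = one L := if_neg hx
      rw [h1] at hξ
      exact absurd hξ (notMem_empty ξ)
  have hS2 : ∀ x, ∀ ξ ∈ (w' x).supp, ξ ∈ Λ → ξ ∈ v.supp := by
    intro x ξ hξ hξΛ
    by_cases hx : fx x ∈ v.pts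
    · have h1 : w' x = w (fx x) := if_pos hx
      rw [h1] at hξ
      exact hsup _ hx ξ hξ hξΛ
    · have h1 : w' x = one L := if_neg hx
      rw [h1] at hξ
      exact absurd hξ (notMem_empty ξ)
  have hgood : ∀ ξ ∉ Λ, ∀ x : Pt L,
      (∀ η < ξ, x η ∈ br (if η ∈ Λ then v.val η x else (w' x).val η x).T) →
      fx x ∈ v.pts ∧ w' x = w (fx x) ∧ ∀ η < ξ, x η ∈ br ((w' x).val η x).T := by
    intro ξ hξ x hx
    have h1 : ∀ η ∈ Λ, x η ∈ br (v.val η x).T := by
      intro η hη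
      have h2 := hx η (CG2_lower hΛ hξ hη)
      rwa [if_pos hη] at h2
    have h2 := hfmem x h1
    have h3 : w' x = w (fx x) := if_pos h2
    refine ⟨h2, h3, fun η hη => ?_⟩
    by_cases hηΛ : η ∈ Λ
    · by_cases hηv : η ∈ v.supp
      · have h4 := Meets.mem h2 (hm (fx x) h2) η
        rw [restr_val _ hηΛ, hfx x η hηv] at h4
        have h5 : (w (fx x)).val η (fx x) = (w (fx x)).val η x :=
          (w (fx x)).dep η _ _ fun ζ hζ hζη =>
            hfx x ζ (hsup _ h2 ζ hζ (hΛ (le_of_lt hζη) hηΛ))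
        rw [h3, ← h5]
        exact h4
      · have h4 : η ∉ (w' x).supp := fun h' => hηv (hS2 x η h' hηΛ)
        rw [(w' x).off η h4, br_one]
        exact br_infinite (h1 η hηΛ)
    · have h4 := hx η hη
      rwa [if_neg hηΛ] at h4
  have hpv : ∀ ξ ∈ Λ, ∀ x : Pt L,
      (∀ η < ξ, x η ∈ br (if η ∈ Λ then v.val η x else (w' x).val η x).T) →
      ∀ η < ξ, x η ∈ br (v.val η x).T := by
    intro ξ hξ x hx η hη
    have h2 := hx η hη
    rwa [if_pos (hΛ (le_of_lt hη) hξ)] at h2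
  let r : Cond L :=
    { val := fun ξ x => if ξ ∈ Λ then v.val ξ x else (w' x).val ξ x
      supp := S
      csupp := hScount
      off := by
        intro ξ hξ x
        by_cases hξΛ : ξ ∈ Λ
        · rw [if_pos hξΛ]
          exact v.off ξ (fun h' => hξ (Or.inl h')) x
        · rw [if_neg hξΛ]
          exact (w' x).off ξ (fun h' => hξ (hS1 x ξ h' hξΛ)) x
      dep := by
        intro ξ x y hxy
        by_cases hξΛ : ξ ∈ Λ
        · rw [if_pos hξΛ, if_pos hξΛ]
          exact v.dep ξ x y fun η hη => hxy η (Or.inl hη)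
        · rw [if_neg hξΛ, if_neg hξΛ]
          have h1 : fx x = fx y := hfcongr x y fun η hη =>
            hxy η (Or.inl hη) (CG2_lower hΛ hξΛ (hv hη))
          have h2 : w' x = w' y := by
            show (if fx x ∈ v.pts then w (fx x) else one L) =
              if fx y ∈ v.pts then w (fx y) else one L
            rw [h1]
          rw [← h2]
          refine (w' x).dep ξ x y fun η hη hηξ => hxy η ?_ hηξ
          by_cases hηΛ : η ∈ Λ
          · exact Or.inl (hS2 x η hη hηΛ)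
          · exact hS1 x η hη hηΛ
      isQ := by
        intro ξ x hx
        by_cases hξΛ : ξ ∈ Λ
        · rw [if_pos hξΛ]
          exact v.isQ ξ x (hpv ξ hξΛ x hx)
        · rw [if_neg hξΛ]
          exact (w' x).isQ ξ x (hgood ξ hξΛ x hx).2.2
      cont := by
        intro ξ x hx s
        by_cases hξΛ : ξ ∈ Λ
        · obtain ⟨F, n, hF⟩ := v.cont ξ x (hpv ξ hξΛ x hx) s
          refine ⟨F, n, fun y hy hn => ?_⟩
          rw [if_pos hξΛ, if_pos hξΛ]
          exact hF y (hpv ξ hξΛ y hy) hn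
        · obtain ⟨h1, h2, h3⟩ := hgood ξ hξΛ x hx
          obtain ⟨F0, m0, hl0, hc0⟩ := hw (fx x) h1
          obtain ⟨F1, n1, hF1⟩ := (w' x).cont ξ x h3 s
          refine ⟨F0 ∪ F1, max (F0.sup m0) n1, fun y hy hn => ?_⟩
          obtain ⟨h4, h5, h6⟩ := hgood ξ hξΛ y hy
          have h7 : fx y ∈ (v.at' (fx x) F0 m0 hl0).pts := by
            rw [mem_at hl0]
            refine ⟨h4, fun η hη => ?_⟩
            have hηv : η ∈ v.supp := hl0.sub hη
            rw [hfx y η hηv, hfx x η hηv]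
            ext k
            rw [mem_cut, mem_cut]
            refine and_congr_right fun hk => ?_
            exact (hn η (Finset.mem_union_left _ hη) k (lt_of_lt_of_le hk
              ((Finset.le_sup hη).trans (le_max_left _ _)))).symm
          have h8 : w' y = w' x := by
            rw [h5, h2]
            exact hc0 (fx y) h7
          rw [if_neg hξΛ, if_neg hξΛ, h8]
          rw [h8] at h6
          exact hF1 y h6 fun η hη k hk => hn η (Finset.mem_union_right _ hη) k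
            (lt_of_lt_of_le hk (le_max_right _ _)) }
  have hrv : r.restr Λ hΛ = v := by
    refine Cond.ext ?_ ?_
    · funext ξ x
      by_cases hξΛ : ξ ∈ Λ
      · rw [restr_val r hξΛ]
        exact if_pos hξΛ
      · rw [restr_val_off r hξΛ]
        exact (v.off ξ (fun h' => hξΛ (hv h')) x).symm
    · show S ∩ Λ = v.supp
      ext ξ
      constructor
      · rintro ⟨h1 | h1, h2⟩
        · exact h1
        · rw [mem_iUnion₂] at h1
          obtain ⟨c, _, hc⟩ := h1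
          exact absurd h2 hc.2
      · intro h1
        exact ⟨Or.inl h1, hv h1⟩
  have hrpts : ∀ x ∈ r.pts, x ∈ v.pts := by
    intro x hx
    rw [← hrv]
    exact pts_mono (le_restr r) hx
  have hwx : ∀ x ∈ r.pts, w' x = w x := by
    intro x hx
    have h1 := hrpts x hx
    have h2 : fx x ∈ v.pts := hfmem x fun η _ => h1 η
    have h3 : w' x = w (fx x) := if_pos h2
    rw [h3]
    exact LC.dep hw h1 h2 fun ξ hξ => hfx x ξ hξ
  have hrval : ∀ x ∈ r.pts, ∀ ξ ∉ Λ, r.val ξ x = (w x).val ξ x := by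
    intro x hx ξ hξ
    have h1 : r.val ξ x = (w' x).val ξ x := if_neg hξ
    rw [h1, hwx x hx]
  have hrsupp : ∀ x ∈ v.pts, (w x).supp \ Λ ⊆ r.supp := fun x hx ξ hξ =>
    Or.inr (mem_biUnion (mem_image_of_mem w hx) hξ)
  refine ⟨r, hrv, hrval, hrsupp, ?_, ?_⟩
  · intro Λ' hΛΛ' hIn ξ hξ
    rcases hξ with h1 | h1
    · exact hΛΛ' (hv h1)
    · rw [mem_iUnion₂] at h1
      obtain ⟨c, ⟨x, hx, rfl⟩, hc⟩ := h1
      exact hIn x hx hc.1
  · intro x hx
    have hxv := hrpts x hx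
    obtain ⟨F0, m0, hl0, hc0⟩ := hw x hxv
    have hM0 : Meets v x (v.at' x F0 m0 hl0) := ⟨F0, m0, hl0, le_rfl⟩
    obtain ⟨F, m, hl, hle0, hle1⟩ := Meets.inter hxv hM0 (hm x hxv)
    have hFΛ : ↑F ⊆ Λ := fun ξ hξ => hv (hl.sub hξ)
    have hlr : r.Leg x F m := by
      rw [← leg_restr (Λ := Λ) (hΛ := hΛ) hFΛ, hrv]
      exact hl
    refine ⟨F, m, hlr, ?_⟩
    have hr1 : (r.at' x F m hlr).restr Λ hΛ = v.at' x F m hl := by
      have h1 : (r.restr Λ hΛ).Leg x F m := (leg_restr hFΛ).2 hlr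
      rw [restr_at hFΛ hlr h1]
      congr 1
    refine ⟨fun ξ hξ => ?_, fun y hy ξ => ?_⟩
    · show ξ ∈ S
      by_cases hξΛ : ξ ∈ Λ
      · exact Or.inl (hsup x hxv ξ hξ hξΛ)
      · exact hrsupp x hxv ⟨hξ, hξΛ⟩
    · have hyr : y ∈ r.pts := pts_mono (at_le hlr) hy
      have hy1 : y ∈ (v.at' x F m hl).pts := by
        rw [← hr1]
        exact pts_mono (le_restr _) hy
      by_cases hξΛ : ξ ∈ Λ
      · have h2 := hle1.2 y hy1 ξ
        rw [restr_val _ hξΛ] at h2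
        have h3 : (r.at' x F m hlr).val ξ y = (v.at' x F m hl).val ξ y := by
          rw [← hr1, restr_val _ hξΛ]
        rw [h3]
        exact h2
      · have h2 : (r.at' x F m hlr).val ξ y = r.val ξ y := by
          unfold at'
          rw [node_val, if_neg (fun h' : ξ ∈ F => hξΛ (hFΛ h'))]
        have h3 : w y = w x := hc0 y (pts_mono hle0 hy1)
        rw [h2, hrval y hyr ξ hξΛ, h3]
        exact QLe.refl _

end Cond

end E8
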