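import Pool.Agent.Lib.MP_e8be47_lc.CBase

/-!
# the filter `{p | Meets q x p}`, locally constant functions
-/

open Set Classical

set_option linter.unusedSectionVars false

namespace E8

variable {L : Type} [LinearOrder L] [WellFoundedLT L]

open Cond

/-- the restrictions at two points with the same cuts are comparable -/
private theorem CM1_at_le_at_of_cut {q : Cond L} {x y : Pt L} {F : Finset L} {m : L → ℕ}
    (h : q.Leg x F m) (h' : q.Leg y F m) (hy : ∀ ξ ∈ F, cut (y ξ) (m ξ) = cut (x ξ) (m ξ)) :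
    q.at' y F m h' ≤ q.at' x F m h := by
  refine ⟨subset_rfl, fun z _ ξ => ?_⟩
  show QLe ((q.node F (fun ξ => cut (y ξ) (m ξ)) m h').val ξ z)
    ((q.node F (fun ξ => cut (x ξ) (m ξ)) m h).val ξ z)
  rw [node_val, node_val]
  by_cases hF : ξ ∈ F
  · rw [if_pos hF, if_pos hF, hy ξ hF]
    exact QLe.refl _
  · rw [if_neg hF, if_neg hF]
    exact QLe.refl _

theorem Meets.self (q : Cond L) (x : Pt L) : Meets q x q :=
  ⟨∅, fun _ => 0, legal_empty q _ _, at_le _⟩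

theorem Meets.of_le {q : Cond L} {x : Pt L} {p : Cond L} (h : q ≤ p) : Meets q x p :=
  ⟨∅, fun _ => 0, legal_empty q _ _, le_trans (at_le _) h⟩

theorem Meets.mono {q : Cond L} {x : Pt L} {p p' : Cond L} (h : Meets q x p) (hp : p ≤ p') :
    Meets q x p' := by
  obtain ⟨F, m, hl, hle⟩ := h
  exact ⟨F, m, hl, le_trans hle hp⟩

theorem Meets.mem {q : Cond L} {x : Pt L} (hx : x ∈ q.pts) {p : Cond L} (h : Meets q x p) :
    x ∈ p.pts := by
  obtain ⟨F, m, hl, hle⟩ := h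
  exact pts_mono hle (self_mem_at hx hl)

/-- a finite restriction of `q` below both -/
theorem Meets.inter {q : Cond L} {x : Pt L} (hx : x ∈ q.pts) {p p' : Cond L} (h : Meets q x p)
    (h' : Meets q x p') : ∃ F m, ∃ hl : q.Leg x F m, q.at' x F m hl ≤ p ∧ q.at' x F m hl ≤ p' := by
  obtain ⟨F1, m1, hl1, hle1⟩ := h
  obtain ⟨F2, m2, hl2, hle2⟩ := h'
  have hF : (↑(F1 ∪ F2) : Set L) ⊆ q.supp := by
    rw [Finset.coe_union]
    exact union_subset hl1.sub hl2.sub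
  obtain ⟨F', m', hFF', hm', hl', -⟩ :=
    q.base hx (F1 ∪ F2) hF ((F1 ∪ F2).sup fun ξ => max (m1 ξ) (m2 ξ))
  have hm : ∀ ξ ∈ F1 ∪ F2, max (m1 ξ) (m2 ξ) ≤ m' ξ := fun ξ hξ =>
    le_trans (Finset.le_sup (f := fun ξ => max (m1 ξ) (m2 ξ)) hξ) (hm' ξ (hFF' hξ))
  refine ⟨F', m', hl', le_trans (at_le_at hl1 hl' (Finset.union_subset_left hFF') ?_) hle1,
    le_trans (at_le_at hl2 hl' (Finset.union_subset_right hFF') ?_) hle2⟩
  · exact fun ξ hξ => le_trans (le_max_left _ _) (hm ξ (Finset.mem_union_left _ hξ))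
  · exact fun ξ hξ => le_trans (le_max_right _ _) (hm ξ (Finset.mem_union_right _ hξ))

/-- restrictions of members of the filter to nodes containing `x` are in the filter -/
theorem Meets.node {q : Cond L} {x : Pt L} (hx : x ∈ q.pts) {p : Cond L} (h : Meets q x p)
    {F : Finset L} {s : L → Fs} {m : L → ℕ} (hl : Legal p F s m) (hs : ∀ ξ ∈ F, cut (x ξ) (m ξ) = s ξ) :
    Meets q x (p.node F s m hl) := by
  obtain ⟨F0, m0, hl0, hle0⟩ := h
  have hF : (↑(F0 ∪ F) : Set L) ⊆ q.supp := by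
    rw [Finset.coe_union]
    exact union_subset hl0.sub (subset_trans hl.sub hle0.1)
  obtain ⟨F', m', hFF', hm', hl', -⟩ :=
    q.base hx (F0 ∪ F) hF ((F0 ∪ F).sup fun ξ => max (m0 ξ) (m ξ))
  have hm : ∀ ξ ∈ F0 ∪ F, max (m0 ξ) (m ξ) ≤ m' ξ := fun ξ hξ =>
    le_trans (Finset.le_sup (f := fun ξ => max (m0 ξ) (m ξ)) hξ) (hm' ξ (hFF' hξ))
  have hle : q.at' x F' m' hl' ≤ p :=
    le_trans (at_le_at hl0 hl' (Finset.union_subset_left hFF')
      fun ξ hξ => le_trans (le_max_left _ _) (hm ξ (Finset.mem_union_left _ hξ))) hle0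
  refine ⟨F', m', hl', hle.1, fun y hy ξ => ?_⟩
  have h1 := hle.2 y hy ξ
  rw [node_val]
  by_cases hξ : ξ ∈ F
  · rw [if_pos hξ]
    have hξ' : ξ ∈ F' := hFF' (Finset.mem_union_right _ hξ)
    have h2 : (q.at' x F' m' hl').val ξ y = (q.val ξ y).sub (cut (x ξ) (m' ξ)) (m' ξ) := by
      show (q.node F' (fun ξ => cut (x ξ) (m' ξ)) m' hl').val ξ y = _
      rw [node_val, if_pos hξ']
    have hmm : m ξ ≤ m' ξ := le_trans (le_max_right _ _) (hm ξ (Finset.mem_union_right _ hξ))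
    refine ⟨fun t ht => ⟨h1.1 ht, ?_⟩, h1.2⟩
    rw [h2] at ht
    have h3 : cutF t (m' ξ) = cut (x ξ) (m' ξ) := ht.2
    rw [← cutF_cutF hmm, h3, cutF_cut hmm, hs ξ hξ]
  · rw [if_neg hξ]
    exact h1

theorem Meets.at {q : Cond L} {x : Pt L} (hx : x ∈ q.pts) {p : Cond L} (h : Meets q x p)
    {F : Finset L} {m : L → ℕ} (hl : p.Leg x F m) : Meets q x (p.at' x F m hl) :=
  Meets.node hx h hl fun _ _ => rfl

/-- transitivity: `Meets q' x q → Meets q x p → Meets q' x p` -/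
theorem Meets.trans {q' q : Cond L} {x : Pt L} (hx : x ∈ q'.pts) {p : Cond L} (h : Meets q' x q)
    (h' : Meets q x p) : Meets q' x p := by
  obtain ⟨F, m, hl, hle⟩ := h'
  exact (Meets.at hx h hl).mono hle

/-- `Meets q x p` is an open condition on `x` -/
theorem Meets.opn (q p : Cond L) : Opn q {x | Meets q x p} := by
  rintro x hx ⟨F, m, hl, hle⟩
  refine ⟨F, m, hl, fun y hy => ?_⟩
  have hy' := ((mem_at hl).1 hy).2
  exact ⟨F, m, Leg.congr hl hy', le_trans (CM1_at_le_at_of_cut hl (Leg.congr hl hy') hy') hle⟩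

/-- `Meets` is witnessed by the same restriction at all points of it -/
theorem Meets.congr {q : Cond L} {x y : Pt L} {F : Finset L} {m : L → ℕ} (h : q.Leg x F m)
    (hy : y ∈ (q.at' x F m h).pts) {p : Cond L} (hp : q.at' x F m h ≤ p) : Meets q y p := by
  have hy' := ((mem_at h).1 hy).2
  exact ⟨F, m, Leg.congr h hy', le_trans (CM1_at_le_at_of_cut h (Leg.congr h hy') hy') hp⟩

/-! ### Openness and continuity when `q` becomes stronger -/

theorem Opn.mono {q q' : Cond L} (h : q' ≤ q) {O : Set (Pt L)} (hO : Opn q O) : Opn q' O := by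
  intro x hx hxO
  obtain ⟨F, m, hl, hsub⟩ := hO x (pts_mono h hx) hxO
  obtain ⟨F', m', hl', hle⟩ := Meets.at hx (Meets.of_le h) hl
  exact ⟨F', m', hl', subset_trans (pts_mono hle) hsub⟩

theorem Opn.inter {q : Cond L} {O O' : Set (Pt L)} (hO : Opn q O) (hO' : Opn q O') :
    Opn q (O ∩ O') := by
  rintro x hx ⟨h, h'⟩
  obtain ⟨F1, m1, hl1, hs1⟩ := hO x hx h
  obtain ⟨F2, m2, hl2, hs2⟩ := hO' x hx h'
  obtain ⟨F, m, hl, hle1, hle2⟩ :=
    Meets.inter hx ⟨F1, m1, hl1, le_refl _⟩ ⟨F2, m2, hl2, le_refl _⟩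
  exact ⟨F, m, hl, fun y hy => ⟨hs1 (pts_mono hle1 hy), hs2 (pts_mono hle2 hy)⟩⟩

theorem LC.mono {W : Type*} {q q' : Cond L} (h : q' ≤ q) {w : Pt L → W} (hw : LC q w) :
    LC q' w := by
  intro x hx
  obtain ⟨F, m, hl, hc⟩ := hw x (pts_mono h hx)
  obtain ⟨F', m', hl', hle⟩ := Meets.at hx (Meets.of_le h) hl
  exact ⟨F', m', hl', fun y hy => hc y (pts_mono hle hy)⟩

theorem LC.const {W : Type*} (q : Cond L) (w : W) : LC q fun _ => w :=
  fun _ _ => ⟨∅, fun _ => 0, legal_empty q _ _, fun _ _ => rfl⟩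

theorem LC.comp {W W' : Type*} {q : Cond L} {w : Pt L → W} (hw : LC q w) (f : W → W') :
    LC q fun x => f (w x) := by
  intro x hx
  obtain ⟨F, m, hl, hc⟩ := hw x hx
  exact ⟨F, m, hl, fun y hy => congrArg f (hc y hy)⟩

theorem LC.comp₂ {W W' W'' : Type*} {q : Cond L} {w : Pt L → W} {w' : Pt L → W'} (hw : LC q w)
    (hw' : LC q w') (f : W → W' → W'') : LC q fun x => f (w x) (w' x) := by
  intro x hx
  obtain ⟨F1, m1, hl1, hc1⟩ := hw x hx
  obtain ⟨F2, m2, hl2, hc2⟩ := hw' x hx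
  obtain ⟨F, m, hl, hle1, hle2⟩ :=
    Meets.inter hx ⟨F1, m1, hl1, le_refl _⟩ ⟨F2, m2, hl2, le_refl _⟩
  exact ⟨F, m, hl, fun y hy => congrArg₂ f (hc1 y (pts_mono hle1 hy)) (hc2 y (pts_mono hle2 hy))⟩

/-- finitely many locally constant functions are constant on one restriction -/
theorem LC.finite {ι : Type*} {W : Type*} {q : Cond L} (w : ι → Pt L → W) (hw : ∀ i, LC q (w i))
    (I : Finset ι) {x : Pt L} (hx : x ∈ q.pts) :
    ∃ F m, ∃ h : q.Leg x F m, ∀ i ∈ I, ∀ y ∈ (q.at' x F m h).pts, w i y = w i x := by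
  induction I using Finset.induction_on with
  | empty =>
    exact ⟨∅, fun _ => 0, legal_empty q _ _, fun i hi => absurd hi (Finset.notMem_empty i)⟩
  | insert a I _ ih =>
    obtain ⟨F1, m1, hl1, hc1⟩ := ih
    obtain ⟨F2, m2, hl2, hc2⟩ := hw a x hx
    obtain ⟨F, m, hl, hle1, hle2⟩ :=
      Meets.inter hx ⟨F1, m1, hl1, le_refl _⟩ ⟨F2, m2, hl2, le_refl _⟩
    refine ⟨F, m, hl, fun i hi y hy => ?_⟩
    rcases Finset.mem_insert.1 hi with rfl | hi'
    · exact hc2 y (pts_mono hle2 hy)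
    · exact hc1 i hi' y (pts_mono hle1 hy)

/-- a locally constant function of locally constant data -/
theorem LC.bind {W W' : Type*} {q : Cond L} {w : Pt L → W} (hw : LC q w) (f : W → Pt L → W')
    (hf : ∀ a, LC q (f a)) : LC q fun x => f (w x) x := by
  intro x hx
  obtain ⟨F1, m1, hl1, hc1⟩ := hw x hx
  obtain ⟨F2, m2, hl2, hc2⟩ := hf (w x) x hx
  obtain ⟨F, m, hl, hle1, hle2⟩ :=
    Meets.inter hx ⟨F1, m1, hl1, le_refl _⟩ ⟨F2, m2, hl2, le_refl _⟩
  refine ⟨F, m, hl, fun y hy => ?_⟩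
  show f (w y) y = f (w x) x
  rw [hc1 y (pts_mono hle1 hy)]
  exact hc2 y (pts_mono hle2 hy)

theorem LC.opn {W : Type*} {q : Cond L} {w : Pt L → W} (hw : LC q w) (S : Set W) :
    Opn q {x | w x ∈ S} := by
  intro x hx hxS
  obtain ⟨F, m, hl, hc⟩ := hw x hx
  refine ⟨F, m, hl, fun y hy => ?_⟩
  show w y ∈ S
  rw [hc y hy]
  exact hxS

/-- `val` of a condition is continuous -/
theorem CQ.val (q : Cond L) (ξ : L) : CQ q (q.val ξ) := by
  have key : ∀ s : Fs, ∀ x ∈ q.pts, ∃ F m, ∃ _h : q.Leg x F m,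
      ∀ y ∈ (q.at' x F m _h).pts, ((s ∈ (q.val ξ y).T ↔ s ∈ (q.val ξ x).T) ∧
        (s ∈ (q.val ξ y).C ↔ s ∈ (q.val ξ x).C)) := by
    intro s x hx
    obtain ⟨F, n, hF, hc⟩ := q.cont' hx ξ s
    obtain ⟨F', m', hFF', hm', hl', -⟩ := q.base hx F (subset_trans hF inter_subset_left) n
    refine ⟨F', m', hl', fun y hy => ?_⟩
    obtain ⟨hy1, hy2⟩ := (mem_at hl').1 hy
    refine hc y hy1 fun η hη k hk => ?_
    have hk' : k < m' η := lt_of_lt_of_le hk (hm' η (hFF' hη))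
    have h1 := hy2 η (hFF' hη)
    have h2 : k ∈ cut (y η) (m' η) ↔ k ∈ cut (x η) (m' η) := by rw [h1]
    rw [mem_cut, mem_cut] at h2
    exact ⟨fun h => (h2.2 ⟨hk', h⟩).2, fun h => (h2.1 ⟨hk', h⟩).2⟩
  intro s
  refine ⟨fun x hx => ?_, fun x hx => ?_⟩
  · obtain ⟨F, m, hl, hc⟩ := key s x hx
    exact ⟨F, m, hl, fun y hy => propext (hc y hy).1⟩
  · obtain ⟨F, m, hl, hc⟩ := key s x hx
    exact ⟨F, m, hl, fun y hy => propext (hc y hy).2⟩

end E8
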