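import Pool.Agent.Lib.MP_e8be47_lc.CDef

/-!
# restrictions
-/

open Set Classical

set_option linter.unusedSectionVars false

namespace E8

variable {L : Type} [LinearOrder L]

namespace Cond

/-- the trivial condition -/
def one (L : Type) [LinearOrder L] : Cond L where
  val _ _ := QC.one
  supp := ∅
  csupp := countable_empty
  off _ _ _ := rfl
  dep _ _ _ _ := rfl
  isQ _ _ _ := isQ_one
  cont _ _ _ _ := ⟨∅, 0, fun _ _ _ => ⟨Iff.rfl, Iff.rfl⟩⟩

instance : Inhabited (Cond L) := ⟨one L⟩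

theorem supp_one : (one L).supp = ∅ := rfl

theorem pts_one {x : Pt L} : x ∈ (one L).pts ↔ ∀ ξ, (x ξ).Infinite :=
  forall_congr' fun _ => br_one

/-- the finite restriction -/
noncomputable def node (p : Cond L) (F : Finset L) (s : L → Fs) (m : L → ℕ)
    (h : Legal p F s m) : Cond L where
  val ξ x := if ξ ∈ F then (p.val ξ x).sub (s ξ) (m ξ) else p.val ξ x
  supp := p.supp
  csupp := p.csupp
  off ξ hξ x := by
    have : ξ ∉ F := fun hF => hξ (h.sub hF)
    simp [this, p.off ξ hξ x]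
  dep ξ x y hxy := by
    simp only [p.dep ξ x y hxy]
  isQ := by
    intro ξ x hx
    have hx' : ∀ η < ξ, x η ∈ br (p.val η x).T ∧ (η ∈ F → cut (x η) (m η) = s η) := by
      intro η hη
      have h1 := hx η hη
      by_cases hF : η ∈ F
      · rw [if_pos hF, br_sub] at h1
        exact ⟨h1.1, fun _ => h1.2⟩
      · rw [if_neg hF] at h1
        exact ⟨h1, fun h2 => absurd h2 hF⟩
    have hq := p.isQ ξ x fun η hη => (hx' η hη).1
    by_cases hF : ξ ∈ F
    · rw [if_pos hF]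
      exact (isQ_sub hq (h.mem ξ hF x hx') (h.lt ξ hF)).1
    · rw [if_neg hF]
      exact hq
  cont := by
    intro ξ x hx t
    have key : ∀ y : Pt L, (∀ η < ξ, y η ∈
        br (if η ∈ F then (p.val η y).sub (s η) (m η) else p.val η y).T) →
        ∀ η < ξ, y η ∈ br (p.val η y).T := by
      intro y hy η hη
      have h1 := hy η hη
      by_cases hF : η ∈ F
      · rw [if_pos hF, br_sub] at h1
        exact h1.1
      · rw [if_neg hF] at h1
        exact h1
    obtain ⟨F', n, hF'⟩ := p.cont ξ x (key x hx) t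
    refine ⟨F', n, fun y hy hn => ?_⟩
    obtain ⟨hT, hC⟩ := hF' y (key y hy) hn
    by_cases hF : ξ ∈ F
    · simp only [if_pos hF]
      refine ⟨?_, hC⟩
      simp only [QC.sub, Set.mem_ofPred_eq]
      rw [hT]
    · simp only [if_neg hF]
      exact ⟨hT, hC⟩

theorem node_val {p : Cond L} {F : Finset L} {s : L → Fs} {m : L → ℕ} (h : Legal p F s m) (ξ : L)
    (x : Pt L) : (p.node F s m h).val ξ x =
      if ξ ∈ F then (p.val ξ x).sub (s ξ) (m ξ) else p.val ξ x := rfl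

theorem node_supp {p : Cond L} {F : Finset L} {s : L → Fs} {m : L → ℕ} (h : Legal p F s m) :
    (p.node F s m h).supp = p.supp := rfl

theorem mem_node {p : Cond L} {F : Finset L} {s : L → Fs} {m : L → ℕ} (h : Legal p F s m)
    {x : Pt L} : x ∈ (p.node F s m h).pts ↔ x ∈ p.pts ∧ ∀ ξ ∈ F, cut (x ξ) (m ξ) = s ξ := by
  constructor
  · intro hx
    refine ⟨fun ξ => ?_, fun ξ hF => ?_⟩
    · have h1 := hx ξ
      rw [node_val] at h1
      by_cases hF : ξ ∈ F
      · rw [if_pos hF, br_sub] at h1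
        exact h1.1
      · rw [if_neg hF] at h1
        exact h1
    · have h1 := hx ξ
      rw [node_val, if_pos hF, br_sub] at h1
      exact h1.2
  · rintro ⟨hx, hc⟩ ξ
    rw [node_val]
    by_cases hF : ξ ∈ F
    · rw [if_pos hF, br_sub]
      exact ⟨hx ξ, hc ξ hF⟩
    · rw [if_neg hF]
      exact hx ξ

theorem node_le {p : Cond L} {F : Finset L} {s : L → Fs} {m : L → ℕ} (h : Legal p F s m) :
    p.node F s m h ≤ p := by
  refine ⟨subset_rfl, fun x _ ξ => ?_⟩
  rw [node_val]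
  by_cases hF : ξ ∈ F
  · rw [if_pos hF]
    exact sub_le _ _ _
  · rw [if_neg hF]
    exact QLe.refl _

theorem legal_empty (p : Cond L) (s : L → Fs) (m : L → ℕ) : Legal p ∅ s m := by
  refine ⟨by simp, fun ξ hξ => ?_, fun ξ hξ => ?_⟩
  · simp at hξ
  · simp at hξ

/-- the finite restriction at a point -/
noncomputable def at' (p : Cond L) (x : Pt L) (F : Finset L) (m : L → ℕ) (h : Leg p x F m) :
    Cond L := p.node F (fun ξ => cut (x ξ) (m ξ)) m h

theorem mem_at {p : Cond L} {x : Pt L} {F : Finset L} {m : L → ℕ} (h : Leg p x F m) {y : Pt L} :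
    y ∈ (p.at' x F m h).pts ↔ y ∈ p.pts ∧ ∀ ξ ∈ F, cut (y ξ) (m ξ) = cut (x ξ) (m ξ) :=
  mem_node h

theorem at_le {p : Cond L} {x : Pt L} {F : Finset L} {m : L → ℕ} (h : Leg p x F m) :
    p.at' x F m h ≤ p := node_le h

theorem self_mem_at {p : Cond L} {x : Pt L} (hx : x ∈ p.pts) {F : Finset L} {m : L → ℕ}
    (h : Leg p x F m) : x ∈ (p.at' x F m h).pts := (mem_at h).2 ⟨hx, fun _ _ => rfl⟩

/-- being legal at `x` and at another point of the restriction is the same -/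
theorem Leg.congr {p : Cond L} {x y : Pt L} {F : Finset L} {m : L → ℕ} (h : Leg p x F m)
    (hy : ∀ ξ ∈ F, cut (y ξ) (m ξ) = cut (x ξ) (m ξ)) : Leg p y F m := by
  refine ⟨h.sub, fun ξ hξ k hk => ?_, fun ξ hξ z hz => ?_⟩
  · exact (mem_cut.1 hk).1
  · show cut (y ξ) (m ξ) ∈ (p.val ξ z).T
    rw [hy ξ hξ]
    refine h.mem ξ hξ z fun η hη => ⟨(hz η hη).1, fun hF => ?_⟩
    rw [(hz η hη).2 hF]
    exact hy η hF

/-- a finer restriction is stronger -/
theorem at_le_at {p : Cond L} {x : Pt L} {F F' : Finset L} {m m' : L → ℕ} (h : Leg p x F m)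
    (h' : Leg p x F' m') (hF : F ⊆ F') (hm : ∀ ξ ∈ F, m ξ ≤ m' ξ) :
    p.at' x F' m' h' ≤ p.at' x F m h := by
  refine ⟨subset_rfl, fun y _ ξ => ?_⟩
  show QLe (if ξ ∈ F' then (p.val ξ y).sub (cut (x ξ) (m' ξ)) (m' ξ) else p.val ξ y)
    (if ξ ∈ F then (p.val ξ y).sub (cut (x ξ) (m ξ)) (m ξ) else p.val ξ y)
  by_cases h1 : ξ ∈ F
  · rw [if_pos h1, if_pos (hF h1)]
    exact sub_sub_le _ (hm ξ h1) (cutF_cut (hm ξ h1))
  · rw [if_neg h1]
    by_cases h2 : ξ ∈ F'
    · rw [if_pos h2]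
      exact sub_le _ _ _
    · rw [if_neg h2]
      exact QLe.refl _

end Cond

/-- `p` belongs to the filter given by `q` and `x ∈ q.pts` -/
def Meets (q : Cond L) (x : Pt L) (p : Cond L) : Prop :=
  ∃ F m, ∃ h : q.Leg x F m, q.at' x F m h ≤ p

/-- `w` is locally constant on `q.pts` -/
def LC {W : Type*} (q : Cond L) (w : Pt L → W) : Prop :=
  ∀ x ∈ q.pts, ∃ F m, ∃ h : q.Leg x F m, ∀ y ∈ (q.at' x F m h).pts, w y = w x

/-- `O` is open relative to `q.pts` -/
def Opn (q : Cond L) (O : Set (Pt L)) : Prop :=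
  ∀ x ∈ q.pts, x ∈ O → ∃ F m, ∃ h : q.Leg x F m, (q.at' x F m h).pts ⊆ O

/-- `Y : points → subsets of ℕ` is continuous on `q.pts` -/
def CR (q : Cond L) (Y : Pt L → Set ℕ) : Prop := ∀ j, LC q fun x => (j ∈ Y x)

/-- `R : points → QC` is continuous on `q.pts` -/
def CQ (q : Cond L) (R : Pt L → QC) : Prop :=
  ∀ s : Fs, LC q (fun x => (s ∈ (R x).T)) ∧ LC q (fun x => (s ∈ (R x).C))

end E8
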