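import Pool.Agent.Lib.MP_e8be47_lc.CSel

/-!
# restriction to a lower set
-/

open Set Classical

set_option linter.unusedSectionVars false

namespace E8

variable {L : Type} [LinearOrder L]

namespace Cond

/-- restriction of `p` to the lower set `Λ` -/
noncomputable def restr (p : Cond L) (Λ : Set L) (hΛ : IsLowerSet Λ) : Cond L where
  val ξ x := if ξ ∈ Λ then p.val ξ x else QC.one
  supp := p.supp ∩ Λ
  csupp := p.csupp.mono inter_subset_left
  off ξ hξ x := by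
    by_cases h : ξ ∈ Λ
    · rw [if_pos h]
      exact p.off ξ (fun h' => hξ ⟨h', h⟩) x
    · rw [if_neg h]
  dep := by
    intro ξ x y h
    by_cases hξ : ξ ∈ Λ
    · rw [if_pos hξ, if_pos hξ]
      exact p.dep ξ x y fun η hη hlt => h η ⟨hη, hΛ hlt.le hξ⟩ hlt
    · rw [if_neg hξ, if_neg hξ]
  isQ := by
    intro ξ x h
    by_cases hξ : ξ ∈ Λ
    · rw [if_pos hξ]
      refine p.isQ ξ x fun η hη => ?_
      have := h η hη
      rwa [if_pos (hΛ hη.le hξ)] at this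
    · rw [if_neg hξ]
      exact isQ_one
  cont := by
    intro ξ x h s
    by_cases hξ : ξ ∈ Λ
    · have h1 : ∀ y : Pt L, (∀ η < ξ, y η ∈ br (if η ∈ Λ then p.val η y else QC.one).T) →
          ∀ η < ξ, y η ∈ br (p.val η y).T := by
        intro y hy η hη
        have := hy η hη
        rwa [if_pos (hΛ hη.le hξ)] at this
      obtain ⟨F, n, hF⟩ := p.cont ξ x (h1 x h) s
      refine ⟨F, n, fun y hy hn => ?_⟩
      rw [if_pos hξ, if_pos hξ]
      exact hF y (h1 y hy) hn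
    · refine ⟨∅, 0, fun y _ _ => ?_⟩
      rw [if_neg hξ, if_neg hξ]
      exact ⟨Iff.rfl, Iff.rfl⟩

/-- `p` restricted to `(-∞, β)` -/
noncomputable def lt (p : Cond L) (β : L) : Cond L := p.restr (Iio β) (isLowerSet_Iio β)

/-- `p` restricted to `(-∞, β]` -/
noncomputable def le (p : Cond L) (β : L) : Cond L := p.restr (Iic β) (isLowerSet_Iic β)

/-- the same condition with `β` added to the support -/
def pad (p : Cond L) (β : L) : Cond L where
  val := p.val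
  supp := insert β p.supp
  csupp := p.csupp.insert β
  off ξ hξ x := p.off ξ (fun h => hξ (mem_insert_of_mem _ h)) x
  dep ξ x y h := p.dep ξ x y fun η hη => h η (mem_insert_of_mem _ hη)
  isQ := p.isQ
  cont := p.cont

theorem pad_le (p : Cond L) (β : L) : p.pad β ≤ p :=
  ⟨subset_insert _ _, fun _ _ _ => QLe.refl _⟩

theorem pad_lt (p : Cond L) (β : L) : (p.pad β).lt β = p.lt β := by
  refine Cond.ext rfl ?_
  show insert β p.supp ∩ Iio β = p.supp ∩ Iio β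
  rw [insert_inter_of_notMem (by simp)]

private theorem CG1_one {R : QC} (h : IsQ R) : QLe R QC.one := by
  refine ⟨subset_univ _, 0, fun c hc _ => ?_⟩
  obtain ⟨k, hk⟩ := h.large.1 c hc
  exact ⟨{k}, ⟨k, rfl⟩, Finset.singleton_subset_iff.2 hk⟩

section

variable {Λ : Set L} {hΛ : IsLowerSet Λ}

theorem restr_val (p : Cond L) {ξ : L} (h : ξ ∈ Λ) (x : Pt L) :
    (p.restr Λ hΛ).val ξ x = p.val ξ x := if_pos h

theorem restr_val_off (p : Cond L) {ξ : L} (h : ξ ∉ Λ) (x : Pt L) :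
    (p.restr Λ hΛ).val ξ x = QC.one := if_neg h

theorem restr_supp (p : Cond L) : (p.restr Λ hΛ).supp = p.supp ∩ Λ := rfl

theorem restr_in (p : Cond L) : (p.restr Λ hΛ).In Λ := inter_subset_right

theorem restr_eq {p : Cond L} (h : p.In Λ) : p.restr Λ hΛ = p := by
  refine Cond.ext ?_ (inter_eq_left.2 h)
  funext ξ x
  by_cases hξ : ξ ∈ Λ
  · exact restr_val p hξ x
  · rw [restr_val_off p hξ x]
    exact (p.off ξ (fun h' => hξ (h h')) x).symm

theorem restr_restr {Λ' : Set L} {hΛ' : IsLowerSet Λ'} (h : Λ' ⊆ Λ) (p : Cond L) :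
    (p.restr Λ hΛ).restr Λ' hΛ' = p.restr Λ' hΛ' := by
  refine Cond.ext ?_ ?_
  · funext ξ x
    by_cases hξ : ξ ∈ Λ'
    · rw [restr_val _ hξ, restr_val _ hξ, restr_val _ (h hξ)]
    · rw [restr_val_off _ hξ, restr_val_off _ hξ]
  · show (p.supp ∩ Λ) ∩ Λ' = p.supp ∩ Λ'
    rw [inter_assoc, inter_eq_right.2 h]

private theorem CG1_val (p : Cond L) {x y : Pt L} (hΛ : IsLowerSet Λ) (h : ∀ η ∈ Λ, y η = x η)
    {ξ : L} (hξ : ξ ∈ Λ) : p.val ξ y = p.val ξ x :=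
  p.dep ξ y x fun η _ hlt => h η (hΛ hlt.le hξ)

variable [WellFoundedLT L]

theorem le_restr (p : Cond L) : p ≤ p.restr Λ hΛ := by
  refine ⟨inter_subset_left, fun x hx ξ => ?_⟩
  by_cases hξ : ξ ∈ Λ
  · rw [restr_val p hξ]
    exact QLe.refl _
  · rw [restr_val_off p hξ]
    exact CG1_one (p.isQ' hx ξ)

private theorem CG1_pts {p : Cond L} {x : Pt L} (h : x ∈ (p.restr Λ hΛ).pts) {ξ : L} (hξ : ξ ∈ Λ) :
    x ξ ∈ br (p.val ξ x).T := by
  have := h ξ
  rwa [restr_val p hξ] at this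

private theorem CG1_exists {p : Cond L} {x : Pt L} (h : x ∈ (p.restr Λ hΛ).pts) :
    ∃ y ∈ p.pts, ∀ ξ ∈ Λ, y ξ = x ξ :=
  p.exists_pts_of_lower hΛ x fun _ hη => CG1_pts h hη

theorem restr_mono {p q : Cond L} (h : p ≤ q) : p.restr Λ hΛ ≤ q.restr Λ hΛ := by
  refine ⟨inter_subset_inter_left _ h.1, fun x hx ξ => ?_⟩
  by_cases hξ : ξ ∈ Λ
  · rw [restr_val p hξ, restr_val q hξ]
    obtain ⟨y, hy, hyx⟩ := CG1_exists hx
    have h1 := h.2 y hy ξ
    rwa [CG1_val p hΛ hyx hξ, CG1_val q hΛ hyx hξ] at h1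
  · rw [restr_val_off p hξ, restr_val_off q hξ]
    exact QLe.refl _

theorem restr_le_of_le {p q : Cond L} (h : p ≤ q) (hq : q.In Λ) : p.restr Λ hΛ ≤ q := by
  have h1 := restr_mono (hΛ := hΛ) h
  rwa [restr_eq hq] at h1

theorem pts_restr {p : Cond L} {x : Pt L} :
    x ∈ (p.restr Λ hΛ).pts ↔ (∀ ξ ∈ Λ, x ξ ∈ br (p.val ξ x).T) ∧ ∀ ξ, (x ξ).Infinite := by
  refine ⟨fun h => ⟨fun ξ hξ => CG1_pts h hξ, fun ξ => br_infinite (h ξ)⟩, fun h ξ => ?_⟩
  by_cases hξ : ξ ∈ Λ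
  · rw [restr_val p hξ]
    exact h.1 ξ hξ
  · rw [restr_val_off p hξ]
    exact br_one.2 (h.2 ξ)

/-- a point of `p|Λ` can be changed off `Λ` to a point of `p` -/
theorem exists_pts_of_restr {p : Cond L} {x : Pt L} (h : x ∈ (p.restr Λ hΛ).pts) :
    ∃ y ∈ p.pts, ∀ ξ ∈ Λ, y ξ = x ξ := CG1_exists h

end

variable [WellFoundedLT L]

theorem leg_restr {Λ : Set L} {hΛ : IsLowerSet Λ} {p : Cond L} {x : Pt L} {F : Finset L}
    {m : L → ℕ} (hF : ↑F ⊆ Λ) : (p.restr Λ hΛ).Leg x F m ↔ p.Leg x F m := by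
  constructor
  · intro h
    refine ⟨fun ξ hξ => (h.sub hξ).1, h.lt, fun ξ hξ y hy => ?_⟩
    have h1 := h.mem ξ hξ y fun η hη => by
      rw [restr_val p (hΛ hη.le (hF hξ))]
      exact hy η hη
    rwa [restr_val p (hF hξ)] at h1
  · intro h
    refine ⟨fun ξ hξ => ⟨h.sub hξ, hF hξ⟩, h.lt, fun ξ hξ y hy => ?_⟩
    rw [restr_val p (hF hξ)]
    refine h.mem ξ hξ y fun η hη => ?_
    have h1 := hy η hη
    rwa [restr_val p (hΛ hη.le (hF hξ))] at h1

theorem restr_at {Λ : Set L} {hΛ : IsLowerSet Λ} {p : Cond L} {x : Pt L} {F : Finset L}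
    {m : L → ℕ} (hF : ↑F ⊆ Λ) (h : p.Leg x F m) (h' : (p.restr Λ hΛ).Leg x F m) :
    (p.at' x F m h).restr Λ hΛ = (p.restr Λ hΛ).at' x F m h' := by
  refine Cond.ext ?_ rfl
  funext ξ y
  show (if ξ ∈ Λ then (if ξ ∈ F then (p.val ξ y).sub (cut (x ξ) (m ξ)) (m ξ) else p.val ξ y)
      else QC.one) = if ξ ∈ F then (if ξ ∈ Λ then p.val ξ y else QC.one).sub (cut (x ξ) (m ξ)) (m ξ)
      else (if ξ ∈ Λ then p.val ξ y else QC.one)
  by_cases hξ : ξ ∈ Λ
  · simp only [if_pos hξ]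
  · have : ξ ∉ F := fun h1 => hξ (hF h1)
    simp only [if_neg hξ, if_neg this]

/-- `Meets` passes to restrictions of the target -/
theorem Meets_restr {Λ : Set L} {hΛ : IsLowerSet Λ} {q p : Cond L} {x : Pt L} (h : Meets q x p) :
    Meets q x (p.restr Λ hΛ) := h.mono (le_restr p)

/-- if `r|Λ = q` then `Meets q x p → Meets r x p` -/
theorem Meets_of_restr {Λ : Set L} {hΛ : IsLowerSet Λ} {r p : Cond L} {x : Pt L}
    (hx : x ∈ r.pts) (h : Meets (r.restr Λ hΛ) x p) : Meets r x p := by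
  obtain ⟨F, m, hl, hle⟩ := h
  have hF : (F : Set L) ⊆ Λ := fun ξ hξ => (hl.sub hξ).2
  have h1 : r.Leg x F m := (leg_restr hF).1 hl
  refine ⟨F, m, h1, ?_⟩
  refine le_trans (le_restr (hΛ := hΛ) _) ?_
  rw [restr_at hF h1 hl]
  exact hle

/-- if `p` lives on `Λ` then `Meets r x p → Meets (r|Λ) x p` -/
theorem Meets_restr_of {Λ : Set L} {hΛ : IsLowerSet Λ} {r p : Cond L} {x : Pt L}
    (hx : x ∈ r.pts) (hp : p.In Λ) (h : Meets r x p) : Meets (r.restr Λ hΛ) x p := by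
  obtain ⟨F, m, hl, hle⟩ := h
  have h1 : (r.restr Λ hΛ).Leg x (F.filter (· ∈ Λ)) m := by
    refine ⟨fun ξ hξ => ?_, fun ξ hξ => hl.lt ξ (Finset.mem_filter.1 hξ).1, fun ξ hξ y hy => ?_⟩
    · obtain ⟨h2, h3⟩ := Finset.mem_filter.1 (Finset.mem_coe.1 hξ)
      exact ⟨hl.sub h2, h3⟩
    · obtain ⟨h2, h3⟩ := Finset.mem_filter.1 hξ
      rw [restr_val r h3]
      refine hl.mem ξ h2 y fun η hη => ?_
      have h4 := hy η hη
      rw [restr_val r (hΛ hη.le h3)] at h4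
      exact ⟨h4.1, fun h5 => h4.2 (Finset.mem_filter.2 ⟨h5, hΛ hη.le h3⟩)⟩
  refine ⟨F.filter (· ∈ Λ), m, h1, ?_⟩
  have h2 : (r.at' x F m hl).restr Λ hΛ = (r.restr Λ hΛ).at' x (F.filter (· ∈ Λ)) m h1 := by
    refine Cond.ext ?_ rfl
    funext ξ y
    show (if ξ ∈ Λ then (if ξ ∈ F then (r.val ξ y).sub (cut (x ξ) (m ξ)) (m ξ) else r.val ξ y)
        else QC.one) = if ξ ∈ F.filter (· ∈ Λ) then
          (if ξ ∈ Λ then r.val ξ y else QC.one).sub (cut (x ξ) (m ξ)) (m ξ)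
        else (if ξ ∈ Λ then r.val ξ y else QC.one)
    by_cases hξ : ξ ∈ Λ
    · by_cases hF : ξ ∈ F
      · have h3 : ξ ∈ F.filter (· ∈ Λ) := Finset.mem_filter.2 ⟨hF, hξ⟩
        simp only [if_pos hξ, if_pos hF, if_pos h3]
      · have h3 : ξ ∉ F.filter (· ∈ Λ) := fun h4 => hF (Finset.mem_filter.1 h4).1
        simp only [if_pos hξ, if_neg hF, if_neg h3]
    · have h3 : ξ ∉ F.filter (· ∈ Λ) := fun h4 => hξ (Finset.mem_filter.1 h4).2
      simp only [if_neg hξ, if_neg h3]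
  rw [← h2]
  exact restr_le_of_le hle hp

end Cond

end E8
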