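import Pool.Agent.Lib.MP_e8be47_lc.CMeets

/-!
# selection
-/

open Set Classical

set_option linter.unusedSectionVars false

namespace E8

variable {L : Type} [LinearOrder L] [WellFoundedLT L]

open Cond

/-- codes of finite restrictions of `q` -/
private abbrev CM2_Code (q : Cond L) : Type := List (↥q.supp × Fs × ℕ)

/-- the set of the code -/
private def CM2_V (q : Cond L) (c : CM2_Code q) : Set (Pt L) :=
  {y | y ∈ q.pts ∧ ∀ e ∈ c, cut (y e.1) e.2.2 = e.2.1}

private theorem CM2_countable (q : Cond L) : Countable (CM2_Code q) := by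
  haveI := q.csupp.to_subtype
  infer_instance

/-- every restriction has a code -/
private theorem CM2_exists (q : Cond L) {x : Pt L} {F : Finset L} {m : L → ℕ} (h : q.Leg x F m) :
    ∃ c : CM2_Code q, CM2_V q c = (q.at' x F m h).pts := by
  refine ⟨F.attach.toList.map fun ξ => (⟨ξ.1, h.sub ξ.2⟩, cut (x ξ.1) (m ξ.1), m ξ.1), ?_⟩
  ext y
  rw [mem_at h]
  constructor
  · rintro ⟨h1, h2⟩
    refine ⟨h1, fun ξ hξ => ?_⟩
    exact h2 (⟨ξ, h.sub hξ⟩, cut (x ξ) (m ξ), m ξ)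
      (List.mem_map.mpr ⟨⟨ξ, hξ⟩, by simp, rfl⟩)
  · rintro ⟨h1, h2⟩
    refine ⟨h1, fun e he => ?_⟩
    obtain ⟨ξ, -, rfl⟩ := List.mem_map.mp he
    exact h2 ξ.1 ξ.2

private theorem CM2_cut_eq {y x : Set ℕ} {m k : ℕ} (h : cut y m = cut x m) (hk : k ≤ m) :
    cut y k = cut x k := by
  ext a
  have ha := Finset.ext_iff.mp h a
  rw [mem_cut, mem_cut] at ha ⊢
  constructor
  · rintro ⟨h1, h2⟩
    exact ⟨h1, (ha.mp ⟨by omega, h2⟩).2⟩
  · rintro ⟨h1, h2⟩
    exact ⟨h1, (ha.mpr ⟨by omega, h2⟩).2⟩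

private theorem CM2_lc (q : Cond L) (c : CM2_Code q) : LC q fun x => (x ∈ CM2_V q c) := by
  intro x hx
  obtain ⟨F', m, h1, h2, h3, -⟩ := base q hx (c.map fun e => (e.1 : L)).toFinset
    (by
      intro ξ hξ
      simp only [List.coe_toFinset, List.mem_map, mem_setOf_eq] at hξ
      obtain ⟨e, -, rfl⟩ := hξ
      exact e.1.2) ((c.map fun e => e.2.2).sum)
  refine ⟨F', m, h3, fun y hy => ?_⟩
  rw [mem_at h3] at hy
  have hcut : ∀ e ∈ c, cut (y e.1) e.2.2 = cut (x e.1) e.2.2 := by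
    intro e he
    have hF : (e.1 : L) ∈ F' := h1 (by
      rw [List.mem_toFinset, List.mem_map]
      exact ⟨e, he, rfl⟩)
    refine CM2_cut_eq (hy.2 _ hF) (le_trans ?_ (h2 _ hF))
    exact List.single_le_sum (fun _ _ => Nat.zero_le _) _ (List.mem_map.mpr ⟨e, he, rfl⟩)
  refine propext ?_
  constructor
  · rintro ⟨-, h⟩
    exact ⟨hx, fun e he => by rw [← hcut e he]; exact h e he⟩
  · rintro ⟨-, h⟩
    exact ⟨hy.1, fun e he => by rw [hcut e he]; exact h e he⟩

private theorem CM2_find {q : Cond L} (φ : ℕ → Pt L → Prop) (hφ : ∀ n, LC q (φ n))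
    (h : ∀ x ∈ q.pts, ∃ n, φ n x) :
    ∃ f : Pt L → ℕ, LC q f ∧ (∀ x ∈ q.pts, φ (f x) x) ∧
      ∀ x, (∃ n, φ n x) → ∀ n < f x, ¬ φ n x := by
  refine ⟨fun x => if hx : ∃ n, φ n x then Nat.find hx else 0, ?_, ?_, ?_⟩
  · intro x hx
    obtain ⟨F, m, hl, h1⟩ := LC.finite φ hφ (Finset.range (Nat.find (h x hx) + 1)) hx
    refine ⟨F, m, hl, fun y hy => ?_⟩
    have hy' : y ∈ q.pts := pts_mono (at_le hl) hy
    have e1 : (∃ n, φ n y) := h y hy'
    have e2 : (∃ n, φ n x) := h x hx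
    simp only [dif_pos e1, dif_pos e2]
    have h2 : ∀ i ≤ Nat.find e2, (φ i y ↔ φ i x) := fun i hi =>
      iff_of_eq (h1 i (Finset.mem_range.mpr (by omega)) y hy)
    have h3 : φ (Nat.find e2) y := (h2 _ le_rfl).mpr (Nat.find_spec e2)
    refine le_antisymm (Nat.find_min' e1 h3) ?_
    by_contra hlt
    push Not at hlt
    exact Nat.find_min e2 hlt ((h2 _ hlt.le).mp (Nat.find_spec e1))
  · intro x hx
    simp only [dif_pos (h x hx)]
    exact Nat.find_spec (h x hx)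
  · intro x hx n hn
    simp only [dif_pos hx] at hn
    exact Nat.find_min hx hn

/-- SELECTION: countably many open sets cover `q.pts`; choose one of them in a locally constant
way (enumerate the countably many legal restrictions of `q`). -/
theorem selection (q : Cond L) {J : Type*} [Countable J] [Nonempty J] (O : J → Set (Pt L))
    (hO : ∀ j, Opn q (O j)) (hc : ∀ x ∈ q.pts, ∃ j, x ∈ O j) :
    ∃ f : Pt L → J, LC q f ∧ ∀ x ∈ q.pts, x ∈ O (f x) := by
  haveI := CM2_countable q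
  obtain ⟨e, he⟩ := exists_surjective_nat (CM2_Code q)
  obtain ⟨f, hf, hf1, -⟩ := CM2_find (q := q)
    (fun n x => (∃ j, CM2_V q (e n) ⊆ O j) ∧ x ∈ CM2_V q (e n))
    (fun n => (CM2_lc q (e n)).comp fun P => (∃ j, CM2_V q (e n) ⊆ O j) ∧ P) (by
      intro x hx
      obtain ⟨j, hj⟩ := hc x hx
      obtain ⟨F, m, hl, h1⟩ := hO j x hx hj
      obtain ⟨c, hcode⟩ := CM2_exists q hl
      obtain ⟨n, rfl⟩ := he c
      refine ⟨n, ⟨j, ?_⟩, ?_⟩
      · rw [hcode]
        exact h1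
      · rw [hcode]
        exact self_mem_at hx hl)
  refine ⟨fun x => if hj : ∃ j, CM2_V q (e (f x)) ⊆ O j then hj.choose else Classical.arbitrary J,
    hf.comp fun n => if hj : ∃ j, CM2_V q (e n) ⊆ O j then hj.choose else Classical.arbitrary J, ?_⟩
  intro x hx
  obtain ⟨h1, h2⟩ := hf1 x hx
  simp only [dif_pos h1]
  exact h1.choose_spec h2

/-- the first index in an enumeration with a decidable (locally constant) property -/
theorem LC.find {q : Cond L} (φ : ℕ → Pt L → Prop) (hφ : ∀ n, LC q (φ n))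
    (h : ∀ x ∈ q.pts, ∃ n, φ n x) :
    ∃ f : Pt L → ℕ, LC q f ∧ (∀ x ∈ q.pts, φ (f x) x) ∧
      ∀ x, (∃ n, φ n x) → ∀ n < f x, ¬ φ n x :=
  CM2_find φ hφ h

/-- a locally constant function has countable range on `q.pts` -/
theorem LC.countable_range {W : Type*} {q : Cond L} {w : Pt L → W} (hw : LC q w) :
    (w '' q.pts).Countable := by
  haveI := CM2_countable q
  have h1 : w '' q.pts ⊆ ⋃ c : CM2_Code q, {a | (CM2_V q c).Nonempty ∧ ∀ y ∈ CM2_V q c, w y = a} := by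
    rintro _ ⟨x, hx, rfl⟩
    obtain ⟨F, m, hl, h2⟩ := hw x hx
    obtain ⟨c, hc⟩ := CM2_exists q hl
    refine mem_iUnion.mpr ⟨c, ⟨x, ?_⟩, fun y hy => ?_⟩
    · rw [hc]
      exact self_mem_at hx hl
    · rw [hc] at hy
      exact h2 y hy
  refine Countable.mono h1 (countable_iUnion fun c => Set.Subsingleton.countable ?_)
  rintro a ⟨⟨y, hy⟩, h2⟩ b ⟨-, h3⟩
  rw [← h2 y hy, ← h3 y hy]

/-- a locally constant function depends only on the coordinates in the support -/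
theorem LC.dep {W : Type*} {q : Cond L} {w : Pt L → W} (hw : LC q w) {x y : Pt L} (hx : x ∈ q.pts)
    (hy : y ∈ q.pts) (h : ∀ ξ ∈ q.supp, y ξ = x ξ) : w y = w x := by
  obtain ⟨F, m, hl, h1⟩ := hw x hx
  refine h1 y ((mem_at hl).mpr ⟨hy, fun ξ hξ => ?_⟩)
  rw [h ξ (hl.sub hξ)]

end E8
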