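import Pool.Agent.Lib.MP_e8be47_lc.DDef

/-!
# elementary facts on dense sets and fronts
-/

open Set Classical

set_option linter.unusedSectionVars false

namespace E8

variable {𝔸 : Type} [Tow 𝔸] {L : Type} [LinearOrder L] [WellFoundedLT L]

open Cond

theorem DOL.inter {Λ : Set L} {hΛ : IsLowerSet Λ} {D D' : DSet 𝔸 L} (h : DOL Λ hΛ D)
    (h' : DOL Λ hΛ D') : DOL Λ hΛ (D ∩ D') := by
  refine ⟨?_, ?_, ?_⟩
  · intro a p
    obtain ⟨a1, ha1, p1, hp1, h1⟩ := h.dns a p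
    obtain ⟨a2, ha2, p2, hp2, h2⟩ := h'.dns a1 p1
    exact ⟨a2, ha2.trans ha1, p2, hp2.trans hp1, h.opd a1 p1 h1 a2 ha2 p2 hp2, h2⟩
  · intro a p hap a' ha p' hp
    exact ⟨h.opd a p hap.1 a' ha p' hp, h'.opd a p hap.2 a' ha p' hp⟩
  · intro a p
    exact and_congr (h.loc a p) (h'.loc a p)

theorem DOL.mono {Λ Λ' : Set L} {hΛ : IsLowerSet Λ} {hΛ' : IsLowerSet Λ'} {D : DSet 𝔸 L}
    (h : DOL Λ hΛ D) (hs : Λ ⊆ Λ') : DOL Λ' hΛ' D := by
  refine ⟨h.dns, h.opd, ?_⟩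
  intro a p
  rw [h.loc a p, h.loc a (p.restr Λ' hΛ'), restr_restr hs]

/-- the projection is dense, open, and lives on `Λ` (for `D` dense and open) -/
theorem DOL_lift {Λ Λ' : Set L} {hΛ : IsLowerSet Λ} {hΛ' : IsLowerSet Λ'} {D : DSet 𝔸 L}
    (h : DOL Λ' hΛ' D) (w : Cond L) : DOL Λ hΛ (Lift D w Λ hΛ) := by
  refine ⟨?_, ?_, ?_⟩
  · intro a p
    by_cases hc : Cpt (p.restr Λ hΛ) (w.restr Λ hΛ)
    · obtain ⟨r, hr1, hr2⟩ := hc
      have h1 : r.restr Λ hΛ ≤ p.restr Λ hΛ := by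
        have := restr_mono (Λ := Λ) (hΛ := hΛ) hr1
        rwa [restr_restr subset_rfl] at this
      have h2 : r.restr Λ hΛ ≤ w.restr Λ hΛ := by
        have := restr_mono (Λ := Λ) (hΛ := hΛ) hr2
        rwa [restr_restr subset_rfl] at this
      obtain ⟨w', hw', hwr, -, -⟩ := exists_amalg hΛ (restr_in r) h2
      obtain ⟨a', ha', e, he, hD⟩ := h.dns a w'
      have h3 : e.restr Λ hΛ ≤ p.restr Λ hΛ := by
        have := restr_mono (Λ := Λ) (hΛ := hΛ) he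
        rw [hwr] at this
        exact this.trans h1
      obtain ⟨p', hp', hpr, -, -⟩ := exists_amalg hΛ (restr_in e) h3
      exact ⟨a', ha', p', hp', Or.inr ⟨e, he.trans hw', hD, hpr.le⟩⟩
    · exact ⟨a, le_rfl, p, le_rfl, Or.inl hc⟩
  · intro a p hap a' ha p' hp
    have h1 : p'.restr Λ hΛ ≤ p.restr Λ hΛ := restr_mono hp
    rcases hap with hc | ⟨e, he, heD, hpe⟩
    · left
      rintro ⟨r, hr1, hr2⟩
      exact hc ⟨r, hr1.trans h1, hr2⟩
    · right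
      exact ⟨e, he, h.opd a e heD a' ha e le_rfl, h1.trans hpe⟩
  · intro a p
    simp only [Lift, mem_ofPred_eq, restr_restr (subset_refl Λ)]

/-- compatibility of members of a filter -/
theorem Meets.cpt {q : Cond L} {x : Pt L} (hx : x ∈ q.pts) {p p' : Cond L} (h : Meets q x p)
    (h' : Meets q x p') : Cpt p p' := by
  obtain ⟨F, m, hl, h1, h2⟩ := Meets.inter hx h h'
  exact ⟨_, h1, h2⟩

theorem Front.mono {D : DSet 𝔸 L} (hD : Opd D) {a a' : 𝔸} {w w' : Cond L} (h : Front D a w)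
    (ha : a' ≤ a) (hw : w' ≤ w) : Front D a' w' := by
  intro x hx
  obtain ⟨F, m, hl, h1⟩ := h x (pts_mono hw hx)
  obtain ⟨F', m', hl', h2⟩ := Meets.at hx (Meets.of_le hw) hl
  exact ⟨F', m', hl', hD a _ h1 a' ha _ h2⟩

/-- fronts are local -/
theorem Front.of_local {D : DSet 𝔸 L} {a : 𝔸} {w : Cond L}
    (h : ∀ x ∈ w.pts, ∃ F m, ∃ h : w.Leg x F m, Front D a (w.at' x F m h)) (hD : Opd D) :
    Front D a w := by
  intro x hx
  obtain ⟨F, m, hl, h1⟩ := h x hx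
  obtain ⟨F2, m2, hl2, h2⟩ := h1 x (self_mem_at hx hl)
  obtain ⟨F3, m3, hl3, h3⟩ := Meets.at hx (Meets.at hx (Meets.self w x) hl) hl2
  exact ⟨F3, m3, hl3, hD a _ h2 a le_rfl _ h3⟩

theorem Front.of_mem {D : DSet 𝔸 L} (hD : Opd D) {a : 𝔸} {w : Cond L} (h : (a, w) ∈ D) :
    Front D a w := by
  intro x _
  obtain ⟨F, m, hl, h1⟩ := Meets.self w x
  exact ⟨F, m, hl, hD a w h a le_rfl _ h1⟩

/-- `StageD` is dense, open and lives on `(-∞, β)`, if the stages exist -/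
theorem DOL_stageD {β : L} {k : ℕ} {D : DSet 𝔸 L} {s0 : Fs} {w : Cond L} {S : Finset Fs} {m : ℕ}
    (hD : Opd D) (hw : w.In (Iic β))
    (h : ∀ a, ∀ u ≤ w.lt β, u.In (Iio β) → ∃ a' ≤ a, ∃ w' S' m' E,
      Stage β k D a' s0 w S m E w' S' m' ∧ w'.lt β ≤ u) :
    DOL (Iio β) (isLowerSet_Iio β) (StageD β k D s0 w S m) := by
  have hid : ∀ p : Cond L, (p.restr (Iio β) (isLowerSet_Iio β)).lt β = p.lt β :=
    fun p => restr_restr (subset_refl (Iio β)) p
  have hmono : ∀ {p q : Cond L}, p ≤ q → p.lt β ≤ q.lt β := fun h => restr_mono h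
  refine ⟨?_, ?_, ?_⟩
  · intro a p
    by_cases hc : Cpt (p.lt β) (w.lt β)
    · obtain ⟨r, hr1, hr2⟩ := hc
      have h1 : r.lt β ≤ p.lt β := by
        have := hmono hr1
        rwa [show (p.lt β).lt β = p.lt β from hid p] at this
      have h2 : r.lt β ≤ w.lt β := by
        have := hmono hr2
        rwa [show (w.lt β).lt β = w.lt β from hid w] at this
      obtain ⟨a', ha', w', S', m', E, hst, hu⟩ := h a (r.lt β) h2 (restr_in r)
      have h3 : w'.lt β ≤ p.restr (Iio β) (isLowerSet_Iio β) := hu.trans h1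
      obtain ⟨p', hp', hpr, -, -⟩ := exists_amalg (isLowerSet_Iio β)
        (show (w'.lt β).In (Iio β) from restr_in w') h3
      exact ⟨a', ha', p', hp', Or.inr ⟨w', S', m', E, hst, le_of_eq hpr⟩⟩
    · exact ⟨a, le_rfl, p, le_rfl, Or.inl hc⟩
  · intro a p hap a' ha p' hp
    have h1 : p'.lt β ≤ p.lt β := hmono hp
    rcases hap with hc | ⟨w', S', m', E, hst, hpw⟩
    · left
      rintro ⟨r, hr1, hr2⟩
      exact hc ⟨r, hr1.trans h1, hr2⟩
    · right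
      exact ⟨w', S', m', E, ⟨hst.le, hst.at', hst.step, hst.front.mono hD ha le_rfl⟩,
        h1.trans hpw⟩
  · intro a p
    simp only [StageD, mem_ofPred_eq, hid]

end E8
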