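import Pool.Agent.Lib.MP_e8be47_lc.DExt

/-!
# dependent choice
-/

open Set Classical

set_option linter.unusedSectionVars false

namespace E8

variable {𝔸 : Type} [Tow 𝔸] {L : Type} [LinearOrder L] [WellFoundedLT L]

open Cond

variable [OrderBot L]

/-- the dense sets -/
private def e4D {St : Type} (Λ : Set L) (hΛ : IsLowerSet Λ) (pa : St → 𝔸) (pc : St → Cond L)
    (R : ℕ → St → St → Prop) (n : ℕ) (s : St) : DSet 𝔸 L :=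
  {d | (¬ ∃ c ≤ d.1, c ≤ pa s ∧ ∃ r ≤ d.2.restr Λ hΛ, r ≤ pc s) ∨
    ∃ s', R n s s' ∧ d.1 ≤ pa s' ∧ d.2.restr Λ hΛ ≤ pc s'}

private theorem e4D_dol {St : Type} {Λ : Set L} {hΛ : IsLowerSet Λ} {pa : St → 𝔸}
    {pc : St → Cond L} {R : ℕ → St → St → Prop} (hIn : ∀ s, (pc s).In Λ)
    (hstep : ∀ n s, ∀ a ≤ pa s, ∀ p ≤ pc s, p.In Λ → ∃ s', R n s s' ∧ pa s' ≤ a ∧ pc s' ≤ p)
    (n : ℕ) (s : St) : DOL Λ hΛ (e4D Λ hΛ pa pc R n s) := by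
  refine ⟨?_, ?_, ?_⟩
  · intro b v
    by_cases h : ∃ c ≤ b, c ≤ pa s ∧ ∃ r ≤ v.restr Λ hΛ, r ≤ pc s
    · obtain ⟨c, hcb, hcs, r, hrv, hrs⟩ := h
      have h1 : r.restr Λ hΛ ≤ v.restr Λ hΛ := by
        have h2 := restr_mono (hΛ := hΛ) hrv
        rw [restr_restr subset_rfl] at h2
        exact h2
      have h3 : r.restr Λ hΛ ≤ pc s := restr_le_of_le hrs (hIn s)
      obtain ⟨s', hR, hpa, hpc⟩ := hstep n s c hcs (r.restr Λ hΛ) h3 (restr_in r)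
      obtain ⟨r3, hr3, hr3e, -, -⟩ := exists_amalg hΛ (hIn s') (le_trans hpc h1)
      exact ⟨pa s', le_trans hpa hcb, r3, hr3, Or.inr ⟨s', hR, le_rfl, le_of_eq hr3e⟩⟩
    · exact ⟨b, le_rfl, v, le_rfl, Or.inl h⟩
  · intro b v hbv b' hb' v' hv'
    rcases hbv with h | ⟨s', hR, hpa, hpc⟩
    · refine Or.inl ?_
      rintro ⟨c, hcb, hcs, r, hrv, hrs⟩
      exact h ⟨c, le_trans hcb hb', hcs, r, le_trans hrv (restr_mono hv'), hrs⟩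
    · exact Or.inr ⟨s', hR, le_trans hb' hpa, le_trans (restr_mono hv') hpc⟩
  · intro b v
    have h : (v.restr Λ hΛ).restr Λ hΛ = v.restr Λ hΛ := restr_restr subset_rfl v
    unfold e4D
    simp only [mem_ofPred_eq, h]

/-- one step of the construction of the locally constant functions -/
private theorem e4_step {St : Type} {Λ : Set L} {hΛ : IsLowerSet Λ} {pa : St → 𝔸}
    {pc : St → Cond L} {R : ℕ → St → St → Prop} (hIn : ∀ s, (pc s).In Λ)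
    (hstep : ∀ n s, ∀ a ≤ pa s, ∀ p ≤ pc s, p.In Λ → ∃ s', R n s s' ∧ pa s' ≤ a ∧ pc s' ≤ p)
    (𝔖 : Sys 𝔸 L) (NS : Set St) (hNS : NS.Countable) {s0 : St} (hs0 : s0 ∈ NS)
    (g : ℕ → St → 𝔸 → Cond L → St)
    (hg : ∀ n s b v, (∃ s', R n s s' ∧ b ≤ pa s' ∧ v.restr Λ hΛ ≤ pc s') →
      R n s (g n s b v) ∧ b ≤ pa (g n s b v) ∧ v.restr Λ hΛ ≤ pc (g n s b v))
    (hgN : ∀ n, ∀ s ∈ NS, ∀ a ∈ 𝔖.NA, ∀ v ∈ 𝔖.NP, g n s a v ∈ NS)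
    (hd : ∀ n, ∀ s ∈ NS, e4D Λ hΛ pa pc R n s ∈ 𝔖.DD) {r : Cond L}
    (hgen : ∀ x ∈ r.pts, 𝔖.Gen Λ hΛ r x) {a' : 𝔸} (ha' : ∀ n, a' ≤ 𝔖.hs n) (n : ℕ)
    (σ : Pt L → St) (hσ : LC r σ)
    (h : ∀ x ∈ r.pts, σ x ∈ NS ∧ a' ≤ pa (σ x) ∧ Meets r x (pc (σ x))) :
    ∃ σ' : Pt L → St, LC r σ' ∧
      (∀ x ∈ r.pts, σ' x ∈ NS ∧ a' ≤ pa (σ' x) ∧ Meets r x (pc (σ' x))) ∧
      ∀ x ∈ r.pts, R n (σ x) (σ' x) := by
  have : Countable NS := hNS.to_subtype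
  have : Nonempty NS := ⟨⟨s0, hs0⟩⟩
  obtain ⟨f, hf, hfO⟩ := selection r (J := NS)
    (fun s' => {x | σ x ∈ {s | R n s s'.1 ∧ a' ≤ pa s'.1}} ∩ {x | Meets r x (pc s'.1)})
    (fun s' => (hσ.opn _).inter (Meets.opn r (pc s'.1)))
    (by
      intro x hx
      obtain ⟨hs, has, hms⟩ := h x hx
      obtain ⟨k, v, hv, hD, hmv⟩ := hgen x hx _ (hd n (σ x) hs) (e4D_dol hIn hstep n (σ x))
      have h2 : ∃ s', R n (σ x) s' ∧ 𝔖.hs k ≤ pa s' ∧ v.restr Λ hΛ ≤ pc s' := by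
        rcases hD with hD | hD
        · exfalso
          apply hD
          obtain ⟨F, m, hl, hl1, hl2⟩ := Meets.inter hx (Meets_restr (hΛ := hΛ) hmv) hms
          exact ⟨a', ha' k, has, _, hl1, hl2⟩
        · exact hD
      obtain ⟨hR, hpa, hpc⟩ := hg n (σ x) (𝔖.hs k) v h2
      exact ⟨⟨g n (σ x) (𝔖.hs k) v, hgN n (σ x) hs _ (𝔖.hsN k) v hv⟩,
        ⟨hR, le_trans (ha' k) hpa⟩, Meets.mono (Meets_restr hmv) hpc⟩)
  refine ⟨fun x => (f x).1, hf.comp Subtype.val, ?_, ?_⟩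
  · intro x hx
    obtain ⟨⟨_, h2⟩, h3⟩ := hfO x hx
    exact ⟨(f x).2, h2, h3⟩
  · intro x hx
    exact (hfO x hx).1.1

/-- dependent choice from the extension theorem -/
theorem dcp_of_front (γ : WithTop L) (hF : ∀ b : L, (b : WithTop L) < γ → FrontP 𝔸 b) :
    DCP 𝔸 (Lam γ) := by
  intro St pa pc R hIn hstep s0 a ha p hp hpI
  set g : ℕ → St → 𝔸 → Cond L → St := fun n s b v =>
    if h : ∃ s', R n s s' ∧ b ≤ pa s' ∧ v.restr (Lam γ) (Lam_lower γ) ≤ pc s' then h.choose else s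
    with hgdef
  have hg : ∀ n s b v, (∃ s', R n s s' ∧ b ≤ pa s' ∧ v.restr (Lam γ) (Lam_lower γ) ≤ pc s') →
      R n s (g n s b v) ∧ b ≤ pa (g n s b v) ∧
        v.restr (Lam γ) (Lam_lower γ) ≤ pc (g n s b v) := by
    intro n s b v h
    have h1 : g n s b v = h.choose := by
      rw [hgdef]
      exact dif_pos h
    rw [h1]
    exact h.choose_spec
  obtain ⟨B0, hB0, hB0γ⟩ : ∃ B0 : Set L, B0.Countable ∧
      (γ = ⊤ ∨ ∃ b ∈ B0, γ = (b : WithTop L)) := by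
    induction γ using WithTop.recTopCoe with
    | top => exact ⟨∅, countable_empty, Or.inl rfl⟩
    | coe b => exact ⟨{b}, countable_singleton b, Or.inr ⟨b, rfl, rfl⟩⟩
  obtain ⟨𝔖, NS, hNS, hs0, hpN, hB, hhs, hgN, hd, -⟩ :=
    exists_sys g (e4D (Lam γ) (Lam_lower γ) pa pc R) pc s0 a p B0 hB0
  have hγ : γ = ⊤ ∨ ∃ b ∈ 𝔖.B, γ = (b : WithTop L) := by
    rcases hB0γ with h | ⟨b, hb, h⟩
    · exact Or.inl h
    · exact Or.inr ⟨b, hB hb, h⟩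
  have hbot : ((⊥ : L) : WithTop L) ≤ γ := by
    rcases hγ with h | ⟨b, -, h⟩
    · rw [h]
      exact le_top
    · rw [h]
      exact WithTop.coe_le_coe.2 bot_le
  have hE := ext 𝔖 γ hγ (fun b _ hb => hF b hb) 𝔖.bot hbot
  have hone : Cond.one L ≤ p.lt ⊥ := by
    refine ⟨?_, ?_⟩
    · rintro ξ ⟨-, hξ⟩
      exact absurd hξ not_lt_bot
    · intro x _ ξ
      have h1 : (p.lt ⊥).val ξ x = QC.one := restr_val_off p (fun h : ξ ∈ Iio (⊥ : L) => not_lt_bot h) x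
      rw [h1]
      exact QLe.refl _
  obtain ⟨r, hrI, -, hgen, hQ, hsupp⟩ := hE (Cond.one L)
    (by
      intro ξ hξ
      rw [supp_one] at hξ
      exact absurd hξ (notMem_empty ξ))
    (fun x hx => gen_one 𝔖 x hx) (fun _ => p) (LC.const _ _)
    (fun x _ => ⟨hpN, hpI, Meets.of_le hone⟩)
  have hrp : r ≤ p := by
    refine ⟨?_, fun x hx ξ => hQ x hx ξ bot_le⟩
    intro ξ hξ
    obtain ⟨x, hx⟩ := pts_nonempty (Cond.one L)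
    exact hsupp x hx ⟨hξ, fun h => not_lt_bot h⟩
  obtain ⟨a', ha'⟩ := Tow.closed 𝔖.hs 𝔖.anti
  have ha'a : a' ≤ a := le_trans (ha' 0) hhs
  have hnext : ∀ (n : ℕ) (σ : {σ : Pt L → St // LC r σ ∧
      ∀ x ∈ r.pts, σ x ∈ NS ∧ a' ≤ pa (σ x) ∧ Meets r x (pc (σ x))}),
      ∃ σ' : {σ : Pt L → St // LC r σ ∧
        ∀ x ∈ r.pts, σ x ∈ NS ∧ a' ≤ pa (σ x) ∧ Meets r x (pc (σ x))},
        ∀ x ∈ r.pts, R n (σ.1 x) (σ'.1 x) := by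
    rintro n ⟨σ, hσ, h⟩
    obtain ⟨σ', hσ', h', hR⟩ :=
      e4_step hIn hstep 𝔖 NS hNS hs0 g hg hgN hd hgen ha' n σ hσ h
    exact ⟨⟨σ', hσ', h'⟩, hR⟩
  choose nxt hnxt using hnext
  set seq : ℕ → {σ : Pt L → St // LC r σ ∧
      ∀ x ∈ r.pts, σ x ∈ NS ∧ a' ≤ pa (σ x) ∧ Meets r x (pc (σ x))} := fun n =>
    Nat.rec ⟨fun _ => s0, LC.const _ _, fun x _ =>
      ⟨hs0, le_trans ha'a ha, Meets.of_le (le_trans hrp hp)⟩⟩ (fun n σ => nxt n σ) n with hseq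
  refine ⟨a', ha'a, r, hrp, hrI, fun n => (seq n).1, fun x _ => rfl, fun n => (seq n).2.1, ?_⟩
  intro x hx n
  exact ⟨hnxt n (seq n) x hx, ((seq n).2.2 x hx).2.1, ((seq n).2.2 x hx).2.2⟩

end E8
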