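import Pool.Agent.Lib.MP_e8be47_lc.CAdd

/-!
# Dense sets of `𝔸 × P`, fronts, closed systems: definitions
-/

open Set Classical

set_option linter.unusedSectionVars false

namespace E8

/-- the `σ`-closed forcing `𝔸` with its generic tower -/
class Tow (𝔸 : Type) extends Preorder 𝔸 where
  top : 𝔸 → Set ℕ
  top_inf : ∀ a, (top a).Infinite
  top_mono : ∀ a a', a' ≤ a → (top a' \ top a).Finite
  shrink : ∀ a, ∀ W ⊆ top a, W.Infinite → ∃ a' ≤ a, (top a' \ W).Finite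
  closed : ∀ f : ℕ → 𝔸, Antitone f → ∃ a, ∀ n, a ≤ f n
  start : ∀ W : Set ℕ, W.Infinite → ∃ a, (top a \ W).Finite

variable {𝔸 : Type} [Tow 𝔸] {L : Type} [LinearOrder L]

open Cond

abbrev DSet (𝔸 L : Type) [LinearOrder L] := Set (𝔸 × Cond L)

/-- density -/
def Dns (D : DSet 𝔸 L) : Prop := ∀ a p, ∃ a' ≤ a, ∃ p' ≤ p, (a', p') ∈ D

/-- openness -/
def Opd (D : DSet 𝔸 L) : Prop := ∀ a p, (a, p) ∈ D → ∀ a' ≤ a, ∀ p' ≤ p, (a', p') ∈ D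

/-- `D` depends only on `p | Λ` -/
def Loc (Λ : Set L) (hΛ : IsLowerSet Λ) (D : DSet 𝔸 L) : Prop :=
  ∀ a p, (a, p) ∈ D ↔ (a, p.restr Λ hΛ) ∈ D

/-- `D` is dense, open and depends only on `p | Λ` -/
structure DOL (Λ : Set L) (hΛ : IsLowerSet Λ) (D : DSet 𝔸 L) : Prop where
  dns : Dns D
  opd : Opd D
  loc : Loc Λ hΛ D

/-- compatibility -/
def Cpt (p q : Cond L) : Prop := ∃ r, r ≤ p ∧ r ≤ q

/-- the projection of `D` below `w` to `Λ` -/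
def Lift (D : DSet 𝔸 L) (w : Cond L) (Λ : Set L) (hΛ : IsLowerSet Λ) : DSet 𝔸 L :=
  {d | ¬ Cpt (d.2.restr Λ hΛ) (w.restr Λ hΛ) ∨
    ∃ e ≤ w, (d.1, e) ∈ D ∧ d.2.restr Λ hΛ ≤ e.restr Λ hΛ}

/-- `w` lives on `(-∞, β]` and `β` is in its support -/
structure At (β : L) (w : Cond L) : Prop where
  le : w.In (Iic β)
  mem : β ∈ w.supp

/-- all the values at `β` have root `t` -/
def Root (β : L) (w : Cond L) (t : Fs) : Prop := ∀ x ∈ w.pts, IsRoot (w.val β x).T t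

/-- every point of `w` is in a finite restriction `v` of `w` with `(a, v) ∈ D` -/
def Front (D : DSet 𝔸 L) (a : 𝔸) (w : Cond L) : Prop :=
  ∀ x ∈ w.pts, ∃ F m, ∃ h : w.Leg x F m, (a, w.at' x F m h) ∈ D

/-- one stage of the fusion at the coordinate `β` -/
structure Stage (β : L) (k : ℕ) (D : DSet 𝔸 L) (a : 𝔸) (s0 : Fs) (w : Cond L) (S : Finset Fs)
    (m : ℕ) (E : Finset Fs) (w' : Cond L) (S' : Finset Fs) (m' : ℕ) : Prop where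
  le : w' ≤ w
  at' : At β w'
  step : ∀ x ∈ w'.pts, Step k s0 (w.val β x) S m E (w'.val β x) S' m'
  front : Front D a w'

/-- the conditions which force (on `(-∞, β)`) that the stage from `(w, S, m)` is done -/
def StageD (β : L) (k : ℕ) (D : DSet 𝔸 L) (s0 : Fs) (w : Cond L) (S : Finset Fs) (m : ℕ) :
    DSet 𝔸 L :=
  {d | ¬ Cpt (d.2.lt β) (w.lt β) ∨
    ∃ w' S' m' E, Stage β k D d.1 s0 w S m E w' S' m' ∧ d.2.lt β ≤ w'.lt β}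

/-- FRONT PROPERTY at `β`: below every condition with constant root there is a condition with
the same root and front for `D` -/
def FrontP (𝔸 : Type) [Tow 𝔸] (β : L) : Prop :=
  ∀ D : DSet 𝔸 L, DOL (Iic β) (isLowerSet_Iic β) D → ∀ a w t, At β w → Root β w t →
    ∃ a' ≤ a, ∃ w' ≤ w, At β w' ∧ Root β w' t ∧ Front D a' w'

/-- the levels: `Lam γ = {ξ | ξ < γ}` -/
def Lam (γ : WithTop L) : Set L := {ξ | (ξ : WithTop L) < γ}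

theorem Lam_lower (γ : WithTop L) : IsLowerSet (Lam γ) :=
  fun _ _ h h' => lt_of_le_of_lt (WithTop.coe_le_coe.2 h) h'

theorem Lam_coe (β : L) : Lam (β : WithTop L) = Iio β := by
  ext ξ
  simp [Lam]

theorem Lam_top : Lam (⊤ : WithTop L) = univ := by
  ext ξ
  simp [Lam]

/-- closed systems -/
structure Sys (𝔸 L : Type) [Tow 𝔸] [LinearOrder L] [OrderBot L] where
  NA : Set 𝔸
  NP : Set (Cond L)
  B : Set L
  DD : Set (DSet 𝔸 L)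
  cNA : NA.Countable
  cNP : NP.Countable
  cB : B.Countable
  cDD : DD.Countable
  one : Cond.one L ∈ NP
  bot : ⊥ ∈ B
  supp : ∀ p ∈ NP, p.supp ⊆ B
  lt : ∀ p ∈ NP, ∀ β ∈ B, p.lt β ∈ NP
  le : ∀ p ∈ NP, ∀ β ∈ B, p.le β ∈ NP
  node : ∀ p ∈ NP, ∀ F s m, ∀ h : p.Legal F s m, p.node F s m h ∈ NP
  pad : ∀ p ∈ NP, ∀ β ∈ B, p.pad β ∈ NP
  top : (univ : DSet 𝔸 L) ∈ DD
  inter : ∀ D ∈ DD, ∀ D' ∈ DD, D ∩ D' ∈ DD
  /-- closure under projections, with witnesses -/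
  lift_lt : ∀ D ∈ DD, ∀ w ∈ NP, ∀ β ∈ B, Lift D w (Iio β) (isLowerSet_Iio β) ∈ DD
  lift_le : ∀ D ∈ DD, ∀ w ∈ NP, ∀ β ∈ B, Lift D w (Iic β) (isLowerSet_Iic β) ∈ DD
  wit_lt : ∀ D ∈ DD, ∀ w ∈ NP, ∀ β ∈ B, ∀ a ∈ NA, ∀ v ∈ NP,
    (∃ e ≤ w, (a, e) ∈ D ∧ v.lt β ≤ e.lt β) → ∃ e ∈ NP, e ≤ w ∧ (a, e) ∈ D ∧ v.lt β ≤ e.lt β
  wit_le : ∀ D ∈ DD, ∀ w ∈ NP, ∀ β ∈ B, ∀ a ∈ NA, ∀ v ∈ NP,
    (∃ e ≤ w, (a, e) ∈ D ∧ v.le β ≤ e.le β) → ∃ e ∈ NP, e ≤ w ∧ (a, e) ∈ D ∧ v.le β ≤ e.le β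
  /-- closure under stages, with witnesses -/
  stage : ∀ D ∈ DD, ∀ w ∈ NP, ∀ β ∈ B, ∀ k s0 S m, StageD β k D s0 w S m ∈ DD
  wit_stage : ∀ D ∈ DD, ∀ w ∈ NP, ∀ β ∈ B, ∀ k s0 S m, ∀ a ∈ NA, ∀ v ∈ NP,
    (∃ w' S' m' E, Stage β k D a s0 w S m E w' S' m' ∧ v.lt β ≤ w'.lt β) →
      ∃ w' ∈ NP, ∃ S' m' E, Stage β k D a s0 w S m E w' S' m' ∧ v.lt β ≤ w'.lt β
  /-- the generic sequence of `𝔸` -/
  hs : ℕ → 𝔸
  anti : Antitone hs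
  hsN : ∀ n, hs n ∈ NA
  gen : ∀ D ∈ DD, DOL (∅ : Set L) isLowerSet_empty D → ∃ n, (hs n, Cond.one L) ∈ D

/-- dependent choice over `𝔸 × P_Λ`: `pa s, pc s` is the condition of the state `s`; if every state
has an `R n`-successor below every extension of its condition, then below every condition there is
`(a', p')` and locally constant functions `σ n` with `R n (σ n x) (σ (n+1) x)`. -/
def DCP (𝔸 : Type) [Tow 𝔸] (Λ : Set L) : Prop :=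
  ∀ (St : Type) (pa : St → 𝔸) (pc : St → Cond L) (R : ℕ → St → St → Prop),
    (∀ s, (pc s).In Λ) →
    (∀ n s, ∀ a ≤ pa s, ∀ p ≤ pc s, p.In Λ → ∃ s', R n s s' ∧ pa s' ≤ a ∧ pc s' ≤ p) →
    ∀ s0, ∀ a ≤ pa s0, ∀ p ≤ pc s0, p.In Λ → ∃ a' ≤ a, ∃ p' ≤ p, p'.In Λ ∧
      ∃ σ : ℕ → Pt L → St, (∀ x ∈ p'.pts, σ 0 x = s0) ∧ (∀ n, LC p' (σ n)) ∧
        ∀ x ∈ p'.pts, ∀ n, R n (σ n x) (σ (n + 1) x) ∧ a' ≤ pa (σ n x) ∧ Meets p' x (pc (σ n x))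

/-- `P_Λ` adds no splitting reals -/
def SSP (Λ : Set L) : Prop :=
  ∀ u : Cond L, u.In Λ → ∀ Y, CR u Y → ∀ W : Set ℕ, W.Infinite →
    ∃ u' ≤ u, u'.In Λ ∧ ∃ W' ⊆ W, W'.Infinite ∧ ∃ i : Bool, ∀ x ∈ u'.pts, ∀ j ∈ W',
      (j ∈ Y x ↔ i = true)

namespace Sys

variable [OrderBot L]

/-- `x` is generic on `Λ` for `q` -/
def Gen (𝔖 : Sys 𝔸 L) (Λ : Set L) (hΛ : IsLowerSet Λ) (q : Cond L) (x : Pt L) : Prop :=
  ∀ D ∈ 𝔖.DD, DOL Λ hΛ D → ∃ n, ∃ v ∈ 𝔖.NP, (𝔖.hs n, v) ∈ D ∧ Meets q x v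

end Sys

end E8
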