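import Pool.Agent.Lib.MP_e8be47_lc.DExt0

/-!
# the limit step of the extension theorem
-/

open Set Classical

set_option linter.unusedSectionVars false

namespace E8

variable {𝔸 : Type} [Tow 𝔸] {L : Type} [LinearOrder L] [WellFoundedLT L]

open Cond

variable [OrderBot L]

/-! Auxiliary lemmas. -/

/-- a cofinal sequence in `B ∩ Lam γ` -/
private theorem E2_cofinal (𝔖 : Sys 𝔸 L) {γ : WithTop L} {β : L} (hβ : β ∈ 𝔖.B)
    (hβγ : (β : WithTop L) < γ)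
    (hlim : ∀ b ∈ 𝔖.B, (b : WithTop L) < γ → ∃ b' ∈ 𝔖.B, b < b' ∧ (b' : WithTop L) < γ) :
    ∃ b : ℕ → L, b 0 = β ∧ (∀ n, b n ∈ 𝔖.B) ∧ (∀ n, (b n : WithTop L) < γ) ∧
      (∀ n, b n < b (n + 1)) ∧ ∀ c ∈ 𝔖.B, (c : WithTop L) < γ → ∃ n, c < b n := by
  have hcS : ({c | c ∈ 𝔖.B ∧ (c : WithTop L) < γ} : Set L).Countable :=
    𝔖.cB.mono fun c hc => hc.1
  obtain ⟨e, he⟩ := hcS.exists_eq_range ⟨β, hβ, hβγ⟩
  have heS : ∀ n, e n ∈ 𝔖.B ∧ (e n : WithTop L) < γ := by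
    intro n
    have : e n ∈ ({c | c ∈ 𝔖.B ∧ (c : WithTop L) < γ} : Set L) := by
      rw [he]
      exact mem_range_self n
    exact this
  have key : ∀ (n : ℕ) (s : L), ∃ s' : L, (s ∈ 𝔖.B ∧ (s : WithTop L) < γ) →
      ((s' ∈ 𝔖.B ∧ (s' : WithTop L) < γ) ∧ s < s' ∧ e n < s') := by
    intro n s
    by_cases hs : s ∈ 𝔖.B ∧ (s : WithTop L) < γ
    · have hm : max s (e n) ∈ 𝔖.B ∧ ((max s (e n) : L) : WithTop L) < γ := by
        rcases max_choice s (e n) with h | h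
        · rw [h]
          exact hs
        · rw [h]
          exact heS n
      obtain ⟨b', hb', hlt, hb'γ⟩ := hlim _ hm.1 hm.2
      exact ⟨b', fun _ => ⟨⟨hb', hb'γ⟩, lt_of_le_of_lt (le_max_left _ _) hlt,
        lt_of_le_of_lt (le_max_right _ _) hlt⟩⟩
    · exact ⟨s, fun h => absurd h hs⟩
  choose F hF using key
  obtain ⟨b, hb0, hbs⟩ : ∃ b : ℕ → L, b 0 = β ∧ ∀ n, b (n + 1) = F n (b n) :=
    ⟨fun n => Nat.rec β (fun n s => F n s) n, rfl, fun _ => rfl⟩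
  have hb : ∀ n, b n ∈ 𝔖.B ∧ (b n : WithTop L) < γ := by
    intro n
    induction n with
    | zero => rw [hb0]; exact ⟨hβ, hβγ⟩
    | succ n ih => rw [hbs]; exact (hF n (b n) ih).1
  refine ⟨b, hb0, fun n => (hb n).1, fun n => (hb n).2, fun n => ?_, ?_⟩
  · rw [hbs]
    exact (hF n (b n) (hb n)).2.1
  · intro c hc hcγ
    have : c ∈ range e := by
      rw [← he]
      exact ⟨hc, hcγ⟩
    obtain ⟨n, rfl⟩ := this
    refine ⟨n + 1, ?_⟩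
    rw [hbs]
    exact (hF n (b n) (hb n)).2.2

/-- the whole space is dense, open and local -/
private theorem E2_DOL_univ {Λ : Set L} {hΛ : IsLowerSet Λ} : DOL Λ hΛ (univ : DSet 𝔸 L) :=
  ⟨fun a p => ⟨a, le_refl a, p, le_refl p, trivial⟩, fun _ _ _ _ _ _ _ => trivial,
    fun _ _ => ⟨fun _ => trivial, fun _ => trivial⟩⟩

/-- an enumeration of the dense sets on `Lam γ` -/
private theorem E2_enum (𝔖 : Sys 𝔸 L) (Λ : Set L) (hΛ : IsLowerSet Λ) :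
    ∃ D : ℕ → DSet 𝔸 L, (∀ n, D n ∈ 𝔖.DD ∧ DOL Λ hΛ (D n)) ∧
      ∀ E ∈ 𝔖.DD, DOL Λ hΛ E → ∃ n, D n = E := by
  have hc : ({E | E ∈ 𝔖.DD ∧ DOL Λ hΛ E} : Set (DSet 𝔸 L)).Countable :=
    𝔖.cDD.mono fun c hc => hc.1
  obtain ⟨D, hD⟩ := hc.exists_eq_range ⟨univ, 𝔖.top, E2_DOL_univ⟩
  refine ⟨D, fun n => ?_, fun E hE hE' => ?_⟩
  · have : D n ∈ ({E | E ∈ 𝔖.DD ∧ DOL Λ hΛ E} : Set (DSet 𝔸 L)) := by
      rw [hD]
      exact mem_range_self n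
    exact this
  · have : E ∈ range D := by
      rw [← hD]
      exact ⟨hE, hE'⟩
    exact this

/-- the conditions in `NP` restricted to `Lam γ` are in `NP` -/
private theorem E2_restr_mem (𝔖 : Sys 𝔸 L) {γ : WithTop L}
    (hγ : γ = ⊤ ∨ ∃ b ∈ 𝔖.B, γ = (b : WithTop L)) {e : Cond L} (he : e ∈ 𝔖.NP) :
    e.restr (Lam γ) (Lam_lower γ) ∈ 𝔖.NP := by
  rcases hγ with rfl | ⟨b, hb, rfl⟩
  · have : e.restr (Lam (⊤ : WithTop L)) (Lam_lower _) = e := by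
      apply Cond.restr_eq
      intro ξ _
      rw [Lam_top]
      trivial
    rw [this]
    exact he
  · have hcongr : ∀ (Λ : Set L) (hΛ : IsLowerSet Λ) (Λ' : Set L) (hΛ' : IsLowerSet Λ'),
        Λ = Λ' → e.restr Λ hΛ = e.restr Λ' hΛ' := by
      intro Λ hΛ Λ' hΛ' h
      subst h
      rfl
    rw [hcongr _ _ (Iio b) (isLowerSet_Iio b) (Lam_coe b)]
    exact 𝔖.lt e he b hb

/-- the invariant of the construction -/
private structure E2_Inv (𝔖 : Sys 𝔸 L) (γ : WithTop L) (b : L) (q : Cond L)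
    (w : Pt L → Cond L) : Prop where
  In : q.In (Iio b)
  gen : ∀ x ∈ q.pts, 𝔖.Gen (Iio b) (isLowerSet_Iio b) q x
  lc : LC q w
  np : ∀ x ∈ q.pts, w x ∈ 𝔖.NP
  wIn : ∀ x ∈ q.pts, (w x).In (Lam γ)
  meets : ∀ x ∈ q.pts, Meets q x ((w x).lt b)

/-- the relation of two successive steps of the construction -/
private structure E2_Step (𝔖 : Sys 𝔸 L) (D : DSet 𝔸 L) (b b' : L) (q : Cond L)
    (w : Pt L → Cond L) (q' : Cond L) (w' : Pt L → Cond L) : Prop where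
  lt : q'.lt b = q
  le : ∀ x ∈ q.pts, w' x ≤ w x
  mem : ∀ x ∈ q.pts, ∃ k, (𝔖.hs k, w' x) ∈ D
  val : ∀ x ∈ q'.pts, ∀ ξ, b ≤ ξ → QLe (q'.val ξ x) (((w' x).lt b').val ξ x)
  supp : ∀ x ∈ q.pts, ((w' x).lt b').supp \ Iio b ⊆ q'.supp

/-- one step -/
private theorem E2_step (𝔖 : Sys 𝔸 L) {γ : WithTop L}
    (hγ : γ = ⊤ ∨ ∃ b ∈ 𝔖.B, γ = (b : WithTop L)) {D : DSet 𝔸 L} (hD : D ∈ 𝔖.DD)
    (hDL : DOL (Lam γ) (Lam_lower γ) D) {b b' : L} (hb : b ∈ 𝔖.B) (hb' : b' ∈ 𝔖.B)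
    (hbb' : b ≤ b') (hbγ : (b : WithTop L) < γ)
    (hext : ExtS 𝔖 b (Iio b') (isLowerSet_Iio b')) {q : Cond L} {w : Pt L → Cond L}
    (hI : E2_Inv 𝔖 γ b q w) :
    ∃ q' w', E2_Inv 𝔖 γ b' q' w' ∧ E2_Step 𝔖 D b b' q w q' w' := by
  -- pointwise choice
  have hpt : ∀ x ∈ q.pts, ∃ e : Cond L, e ∈ 𝔖.NP ∧ e.In (Lam γ) ∧ (∃ k, (𝔖.hs k, e) ∈ D) ∧
      e ≤ w x ∧ Meets q x (e.lt b) := by
    intro x hx
    obtain ⟨k, v, hv, hvL, hmv⟩ := hI.gen x hx _ (𝔖.lift_lt D hD (w x) (hI.np x hx) b hb)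
      (DOL_lift hDL (w x))
    have hex : ∃ e ≤ w x, (𝔖.hs k, e) ∈ D ∧ v.lt b ≤ e.lt b := by
      rcases hvL with h | h
      · exfalso
        exact h (Meets.cpt hx (Cond.Meets_restr hmv) (hI.meets x hx))
      · exact h
    obtain ⟨e, heN, hew, heD, hve⟩ := 𝔖.wit_lt D hD (w x) (hI.np x hx) b hb (𝔖.hs k) (𝔖.hsN k)
      v hv hex
    have hsub : Iio b ⊆ Lam γ := fun ξ hξ => lt_trans (WithTop.coe_lt_coe.2 hξ) hbγ
    refine ⟨e.restr (Lam γ) (Lam_lower γ), E2_restr_mem 𝔖 hγ heN, Cond.restr_in e, ⟨k, ?_⟩,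
      Cond.restr_le_of_le hew (hI.wIn x hx), ?_⟩
    · exact (hDL.loc _ _).1 heD
    · have h1 : (e.restr (Lam γ) (Lam_lower γ)).lt b = e.lt b := Cond.restr_restr hsub e
      rw [h1]
      exact Meets.mono (Cond.Meets_restr hmv) hve
  -- selection
  let J : Type := {e : Cond L // e ∈ 𝔖.NP ∧ e.In (Lam γ) ∧ ∃ k, (𝔖.hs k, e) ∈ D}
  have hJc : Countable J := by
    have h1 : ({e | e ∈ 𝔖.NP ∧ e.In (Lam γ) ∧ ∃ k, (𝔖.hs k, e) ∈ D} : Set (Cond L)).Countable :=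
      𝔖.cNP.mono fun e he => he.1
    exact h1.to_subtype
  obtain ⟨x0, hx0⟩ := Cond.pts_nonempty q
  have hJn : Nonempty J := by
    obtain ⟨e, h1, h2, h3, _⟩ := hpt x0 hx0
    exact ⟨⟨e, h1, h2, h3⟩⟩
  obtain ⟨f, hf, hfO⟩ := selection q (J := J)
    (fun j => {x | j.1 ≤ w x} ∩ {x | Meets q x (j.1.lt b)})
    (fun j => Opn.inter (LC.opn hI.lc {c | j.1 ≤ c}) (Meets.opn q (j.1.lt b)))
    (fun x hx => by
      obtain ⟨e, h1, h2, h3, h4, h5⟩ := hpt x hx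
      exact ⟨⟨e, h1, h2, h3⟩, h4, h5⟩)
  have hlc : LC q (fun x => (f x).1) := LC.comp hf fun j => j.1
  have hlc' : LC q (fun x => (f x).1.lt b') := LC.comp hf fun j => j.1.lt b'
  have hlt : ∀ x, ((f x).1.lt b').lt b = (f x).1.lt b := fun x => Cond.lt_lt hbb'
  obtain ⟨r, hrI, hrb, hrG, hrv, hrs⟩ := hext q hI.In hI.gen (fun x => (f x).1.lt b') hlc'
    (fun x hx => ⟨𝔖.lt _ (f x).2.1 b' hb', Cond.lt_in _ _, by
      rw [hlt x]
      exact (hfO x hx).2⟩)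
  have hrq : r ≤ q := by
    rw [← hrb]
    exact Cond.le_restr r
  refine ⟨r, fun x => (f x).1, ⟨hrI, hrG, LC.mono hrq hlc, fun x _ => (f x).2.1,
    fun x _ => (f x).2.2.1, ?_⟩, ⟨hrb, fun x hx => (hfO x hx).1, fun x _ => (f x).2.2.2, hrv,
    hrs⟩⟩
  intro x hx
  exact meets_of_ext hrb hlc' (fun y hy => by
    rw [hlt y]
    exact (hfO y hy).2) hrv hrs hx

/-- the sequence of conditions -/
private theorem E2_seq (𝔖 : Sys 𝔸 L) {γ : WithTop L}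
    (hγ : γ = ⊤ ∨ ∃ b ∈ 𝔖.B, γ = (b : WithTop L)) {D : ℕ → DSet 𝔸 L}
    (hD : ∀ n, D n ∈ 𝔖.DD ∧ DOL (Lam γ) (Lam_lower γ) (D n)) {b : ℕ → L}
    (hb : ∀ n, b n ∈ 𝔖.B) (hbb : ∀ n, b n < b (n + 1)) (hbγ : ∀ n, (b n : WithTop L) < γ)
    (hext : ∀ n, ExtS 𝔖 (b n) (Iio (b (n + 1))) (isLowerSet_Iio (b (n + 1)))) {q : Cond L}
    {w : Pt L → Cond L} (hI : E2_Inv 𝔖 γ (b 0) q w) :
    ∃ (Q : ℕ → Cond L) (W : ℕ → Pt L → Cond L), Q 0 = q ∧ W 0 = w ∧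
      (∀ n, E2_Inv 𝔖 γ (b n) (Q n) (W n)) ∧
      ∀ n, E2_Step 𝔖 (D n) (b n) (b (n + 1)) (Q n) (W n) (Q (n + 1)) (W (n + 1)) := by
  have key : ∀ (n : ℕ) (s : Cond L × (Pt L → Cond L)), ∃ s' : Cond L × (Pt L → Cond L),
      E2_Inv 𝔖 γ (b n) s.1 s.2 → (E2_Inv 𝔖 γ (b (n + 1)) s'.1 s'.2 ∧
        E2_Step 𝔖 (D n) (b n) (b (n + 1)) s.1 s.2 s'.1 s'.2) := by
    intro n s
    by_cases hs : E2_Inv 𝔖 γ (b n) s.1 s.2
    · obtain ⟨q', w', h1, h2⟩ := E2_step 𝔖 hγ (hD n).1 (hD n).2 (hb n) (hb (n + 1))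
        (hbb n).le (hbγ n) (hext n) hs
      exact ⟨(q', w'), fun _ => ⟨h1, h2⟩⟩
    · exact ⟨s, fun h => absurd h hs⟩
  choose F hF using key
  let s : ℕ → Cond L × (Pt L → Cond L) := fun n => Nat.rec (q, w) (fun n s => F n s) n
  have hss : ∀ n, s (n + 1) = F n (s n) := fun n => rfl
  have hs : ∀ n, E2_Inv 𝔖 γ (b n) (s n).1 (s n).2 := by
    intro n
    induction n with
    | zero => exact hI
    | succ n ih => rw [hss]; exact (hF n (s n) ih).1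
  refine ⟨fun n => (s n).1, fun n => (s n).2, rfl, rfl, hs, fun n => ?_⟩
  have := (hF n (s n) (hs n)).2
  rw [← hss] at this
  exact this

/-- the least index -/
private theorem E2_index {b : ℕ → L} (hbm : Monotone b) {n : ℕ} {ξ : L} (hn : b n ≤ ξ)
    (h : ∃ m, ξ < b m) : ∃ m, n ≤ m ∧ b m ≤ ξ ∧ ξ < b (m + 1) := by
  have h1 : ξ < b (Nat.find h) := Nat.find_spec h
  have h2 : Nat.find h ≠ 0 := by
    intro h0
    rw [h0] at h1
    exact absurd (lt_of_lt_of_le h1 (hbm (Nat.zero_le n))) (not_lt.2 hn)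
  obtain ⟨m, hm⟩ := Nat.exists_eq_succ_of_ne_zero h2
  have h3 : ¬ ξ < b m := Nat.find_min h (by omega)
  rw [hm] at h1
  refine ⟨m, ?_, not_lt.1 h3, h1⟩
  by_contra hlt
  have : m + 1 ≤ n := by omega
  exact absurd (lt_of_lt_of_le h1 (hbm this)) (not_lt.2 hn)

/-- the limit step: `γ` is not the successor of an element of `B` -/
theorem ext_limit (𝔖 : Sys 𝔸 L) {γ : WithTop L} (hγ : γ = ⊤ ∨ ∃ b ∈ 𝔖.B, γ = (b : WithTop L))
    {β : L} (hβ : β ∈ 𝔖.B) (hβγ : (β : WithTop L) < γ)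
    (hlim : ∀ b ∈ 𝔖.B, (b : WithTop L) < γ → ∃ b' ∈ 𝔖.B, b < b' ∧ (b' : WithTop L) < γ)
    (ih : ∀ b ∈ 𝔖.B, ∀ b' ∈ 𝔖.B, b ≤ b' → (b' : WithTop L) < γ →
      ExtS 𝔖 b (Iio b') (isLowerSet_Iio b')) :
    ExtS 𝔖 β (Lam γ) (Lam_lower γ) := by
  intro q hqI hqG w hw hwx
  obtain ⟨b, hb0, hbB, hbγ, hbb, hbc⟩ := E2_cofinal 𝔖 hβ hβγ hlim
  obtain ⟨D, hD, hDs⟩ := E2_enum 𝔖 (Lam γ) (Lam_lower γ)
  have hbm : Monotone b := monotone_nat_of_le_succ fun n => (hbb n).le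
  have hI0 : E2_Inv 𝔖 γ (b 0) q w := by
    rw [hb0]
    exact ⟨hqI, hqG, hw, fun x hx => (hwx x hx).1, fun x hx => (hwx x hx).2.1,
      fun x hx => (hwx x hx).2.2⟩
  obtain ⟨Q, W, hQ0, hW0, hInv, hStep⟩ := E2_seq 𝔖 hγ hD hbB hbb hbγ
    (fun n => ih (b n) (hbB n) (b (n + 1)) (hbB (n + 1)) (hbb n).le (hbγ (n + 1))) hI0
  obtain ⟨r, hrs, hrQ⟩ := Cond.exists_limit hbm Q (fun n => (hInv n).In) (fun n => (hStep n).lt)
  -- points of `r`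
  have hpt : ∀ x ∈ r.pts, ∀ n, x ∈ (Q n).pts := by
    intro x hx n
    rw [← hrQ n]
    exact Cond.mem_lt hx (b n)
  -- monotonicity of `W`
  have hWle : ∀ x ∈ r.pts, ∀ n m, n ≤ m → W m x ≤ W n x := by
    intro x hx n m hnm
    induction m, hnm using Nat.le_induction with
    | base => exact le_refl _
    | succ m _ ihm => exact le_trans ((hStep m).le x (hpt x hx m)) ihm
  -- the supports
  have hsuppB : ∀ x ∈ r.pts, ∀ n, ∀ ξ ∈ (W n x).supp, ∃ m, ξ < b m := by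
    intro x hx n ξ hξ
    exact hbc ξ (𝔖.supp _ ((hInv n).np x (hpt x hx n)) hξ) ((hInv n).wIn x (hpt x hx n) hξ)
  -- values
  have hval : ∀ n, ∀ x ∈ r.pts, ∀ ξ, b n ≤ ξ → QLe (r.val ξ x) ((W n x).val ξ x) := by
    intro n x hx ξ hξ
    by_cases hex : ∃ m, ξ < b m
    · obtain ⟨m, hnm, hm1, hm2⟩ := E2_index hbm hξ hex
      have h1 : r.val ξ x = (Q (m + 1)).val ξ x := by
        rw [← hrQ (m + 1)]
        exact (Cond.restr_val r (show ξ ∈ Iio (b (m + 1)) from hm2) x).symm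
      have h2 : ((W (m + 1) x).lt (b (m + 1))).val ξ x = (W (m + 1) x).val ξ x :=
        Cond.restr_val _ (show ξ ∈ Iio (b (m + 1)) from hm2) x
      have h3 : QLe (r.val ξ x) ((W (m + 1) x).val ξ x) := by
        rw [h1, ← h2]
        exact (hStep m).val x (hpt x hx (m + 1)) ξ hm1
      have h4 : x ∈ ((W (m + 1) x).lt (b (m + 1))).pts :=
        Meets.mem (hpt x hx (m + 1)) ((hInv (m + 1)).meets x (hpt x hx (m + 1)))
      have h5 : x ∈ ((W (m + 1) x).lt ξ).pts := by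
        have := Cond.mem_lt h4 ξ
        rwa [Cond.lt_lt hm2.le] at this
      exact h3.trans (Cond.QLe_lt (hWle x hx n (m + 1) (by omega)) h5)
    · have h1 : ξ ∉ (W n x).supp := fun h => hex (hsuppB x hx n ξ h)
      rw [(W n x).off ξ h1 x]
      exact (Cond.le_one r).2 x hx ξ
  -- supports
  have hsup : ∀ n, ∀ x ∈ r.pts, (W n x).supp \ Iio (b n) ⊆ r.supp := by
    intro n x hx ξ hξ
    obtain ⟨m, hnm, hm1, hm2⟩ := E2_index hbm (not_lt.1 hξ.2) (hsuppB x hx n ξ hξ.1)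
    have h1 : ξ ∈ (W (m + 1) x).supp := (hWle x hx n (m + 1) (by omega)).1 hξ.1
    have h2 : ξ ∈ (Q (m + 1)).supp :=
      (hStep m).supp x (hpt x hx m) ⟨⟨h1, hm2⟩, not_lt.2 hm1⟩
    rw [hrs]
    exact mem_iUnion.2 ⟨m + 1, h2⟩
  -- supports over the points of `Q n`
  have hsup' : ∀ n, ∀ x ∈ (Q n).pts, (W n x).supp \ Iio (b n) ⊆ r.supp := by
    intro n x hx
    have hx' : x ∈ (r.lt (b n)).pts := by
      rw [hrQ n]
      exact hx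
    obtain ⟨y, hy, hyx⟩ := Cond.exists_point hx'
    have h1 : W n y = W n x := LC.dep (hInv n).lc hx (hpt y hy n)
      fun ξ hξ => hyx ξ ((hInv n).In hξ)
    rw [← h1]
    exact hsup n y hy
  have hmeets : ∀ n, ∀ x ∈ r.pts, Meets r x (W n x) := fun n x hx =>
    meets_of_ext (hrQ n) (hInv n).lc (hInv n).meets (hval n) (hsup' n) hx
  refine ⟨r, ?_, ?_, ?_, ?_, ?_⟩
  · intro ξ hξ
    rw [hrs] at hξ
    obtain ⟨n, hn⟩ := mem_iUnion.1 hξ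
    exact lt_trans (WithTop.coe_lt_coe.2 ((hInv n).In hn)) (hbγ n)
  · rw [← hb0, hrQ 0, hQ0]
  · intro x hx E hE hEL
    obtain ⟨n, rfl⟩ := hDs E hE hEL
    obtain ⟨k, hk⟩ := (hStep n).mem x (hpt x hx n)
    exact ⟨k, W (n + 1) x, (hInv (n + 1)).np x (hpt x hx (n + 1)), hk, hmeets (n + 1) x hx⟩
  · intro x hx ξ hξ
    have := hval 0 x hx ξ (by rw [hb0]; exact hξ)
    rwa [hW0] at this
  · intro x hx
    have := hsup' 0 x (by rw [hQ0]; exact hx)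
    rwa [hW0, hb0] at this

end E8
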