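import Pool.Agent.Lib.MP_e8be47_lc.DSucc
import Pool.Agent.Lib.MP_e8be47_lc.DLim

/-!
# the extension theorem
-/

open Set Classical

set_option linter.unusedSectionVars false

namespace E8

variable {𝔸 : Type} [Tow 𝔸] {L : Type} [LinearOrder L] [WellFoundedLT L]

open Cond

variable [OrderBot L]

private theorem E3_congr {𝔖 : Sys 𝔸 L} {β : L} {Λ Λ' : Set L} {hΛ : IsLowerSet Λ}
    {hΛ' : IsLowerSet Λ'} (h : Λ = Λ') (hE : ExtS 𝔖 β Λ hΛ) : ExtS 𝔖 β Λ' hΛ' := by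
  subst h
  exact hE

/-- the case `β = γ` -/
private theorem E3_refl (𝔖 : Sys 𝔸 L) (β : L) : ExtS 𝔖 β (Iio β) (isLowerSet_Iio β) := by
  intro q hq hgen w _ hw
  refine ⟨q, hq, restr_eq (hΛ := isLowerSet_Iio β) hq, hgen, ?_, ?_⟩
  · intro x hx ξ hξ
    have h1 : ξ ∉ (w x).supp := fun h => absurd ((hw x hx).2.1 h) (not_lt.2 hξ)
    have h2 : ξ ∉ q.supp := fun h => absurd (hq h) (not_lt.2 hξ)
    rw [(w x).off ξ h1, q.off ξ h2]
    exact QLe.refl _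
  · intro x hx ξ hξ
    exact absurd ((hw x hx).2.1 hξ.1) hξ.2

/-- the successor step, with the next level `γ` -/
private theorem E3_succ (𝔖 : Sys 𝔸 L) {γ : WithTop L}
    (hγ : γ = ⊤ ∨ ∃ b ∈ 𝔖.B, γ = (b : WithTop L)) {δ : L} (hδ : δ ∈ 𝔖.B)
    (hδγ : (δ : WithTop L) < γ) (hF : FrontP 𝔸 δ)
    (hno : ∀ b ∈ 𝔖.B, (b : WithTop L) < γ → b ≤ δ) :
    ExtS 𝔖 δ (Lam γ) (Lam_lower γ) := by
  intro q hq hgen w hLC hw
  have hIic : Iic δ ⊆ Lam γ := fun ξ hξ =>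
    lt_of_le_of_lt (WithTop.coe_le_coe.2 hξ) hδγ
  obtain ⟨r, hr, hrq, hrgen, hrval, hrsupp⟩ := succ_step 𝔖 hδ hF q hq hgen w hLC
    (fun x hx => ⟨(hw x hx).1, fun ξ hξ =>
      hno ξ (𝔖.supp _ (hw x hx).1 hξ) ((hw x hx).2.1 hξ), (hw x hx).2.2⟩)
  exact ⟨r, fun ξ hξ => hIic (hr hξ), hrq,
    fun x hx => gen_next 𝔖 hδ hδγ hγ hno hr hx (hrgen x hx), hrval, hrsupp⟩

/-- THE EXTENSION THEOREM -/
theorem ext (𝔖 : Sys 𝔸 L) (γ : WithTop L) (hγ : γ = ⊤ ∨ ∃ b ∈ 𝔖.B, γ = (b : WithTop L))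
    (hF : ∀ b ∈ 𝔖.B, (b : WithTop L) < γ → FrontP 𝔸 b) {β : L} (hβ : β ∈ 𝔖.B)
    (hβγ : (β : WithTop L) ≤ γ) : ExtS 𝔖 β (Lam γ) (Lam_lower γ) := by
  induction γ using WellFoundedLT.induction generalizing β with
  | ind γ IH =>
    rcases hβγ.eq_or_lt with h | h
    · subst h
      exact E3_congr (Lam_coe β).symm (E3_refl 𝔖 β)
    · -- the induction hypothesis, for elements of `B`
      have IH' : ∀ b ∈ 𝔖.B, ∀ b' ∈ 𝔖.B, b ≤ b' → (b' : WithTop L) < γ →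
          ExtS 𝔖 b (Iio b') (isLowerSet_Iio b') := by
        intro b hb b' hb' hbb' hb'γ
        exact E3_congr (Lam_coe b') (IH (b' : WithTop L) hb'γ (Or.inr ⟨b', hb', rfl⟩)
          (fun c hc hcb => hF c hc (hcb.trans hb'γ)) hb (WithTop.coe_le_coe.2 hbb'))
      by_cases hmax : ∃ δ ∈ 𝔖.B, (δ : WithTop L) < γ ∧ ∀ b ∈ 𝔖.B, (b : WithTop L) < γ → b ≤ δ
      · obtain ⟨δ, hδ, hδγ, hno⟩ := hmax
        have hβδ : β ≤ δ := hno β hβ h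
        refine ExtS.trans hβδ hδ ?_ (IH' β hβ δ hδ hβδ hδγ)
          (E3_succ 𝔖 hγ hδ hδγ (hF δ hδ hδγ) hno)
        intro ξ hξ
        exact lt_trans (WithTop.coe_lt_coe.2 hξ) hδγ
      · refine ext_limit 𝔖 hγ hβ h ?_ IH'
        intro b hb hbγ
        by_contra hcon
        push Not at hcon
        refine hmax ⟨b, hb, hbγ, fun c hc hcγ => ?_⟩
        by_contra hcb
        exact absurd hcγ (not_lt.2 (hcon c hc (not_le.1 hcb)))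

end E8
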