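import Pool.Agent.Lib.MP_e8be47_lc.DRep

/-!
# one step of a fusion
-/

open Set Classical

set_option linter.unusedSectionVars false

namespace E8

variable {𝔸 : Type} [Tow 𝔸] {L : Type} [LinearOrder L] [WellFoundedLT L]

open Cond

/-- a property of the values at `β` passes to the points of `w|β` -/
private theorem es_val_pts {β : L} {w : Cond L} {P : QC → Prop}
    (h : ∀ x ∈ w.pts, P (w.val β x)) {x : Pt L} (hx : x ∈ (w.lt β).pts) : P (w.val β x) := by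
  obtain ⟨y, hy, hyx⟩ := exists_point hx
  have h1 := h y hy
  rwa [val_congr hyx] at h1

/-- the root is in `S` -/
private theorem es_root_mem {T : Set Fs} {s0 : Fs} {S : Finset Fs} {m : ℕ}
    (h : Inv T s0 S m) : s0 ∈ S := by
  have h1 := h.cut s0 h.root.1
  have h2 := (h.mem _).1 h1
  have h3 := h.root.2 _ h2.1
  have h4 : cutF s0 m = s0 :=
    Finset.Subset.antisymm (Finset.filter_subset _ _) h3.1
  rwa [h4] at h1

/-- a common bound for the nodes in a finite set -/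
private theorem es_bound {R : QC} (hR : IsQ R) (S : Finset Fs) (hS : ∀ s ∈ S, s ∈ R.T) (m : ℕ) :
    ∃ n, m ≤ n ∧ ∀ s ∈ S, ∀ c ∈ R.C, (∀ k ∈ c, n ≤ k) →
      ∃ f ⊆ c, Above s f ∧ s ∪ f ∈ R.T := by
  induction S using Finset.induction_on with
  | empty => exact ⟨m, le_rfl, fun s hs => absurd hs (Finset.notMem_empty s)⟩
  | insert s S hs ih =>
    obtain ⟨n, hn, h⟩ := ih (fun t ht => hS t (Finset.mem_insert_of_mem ht))
    obtain ⟨n', h'⟩ := hR.cp s (hS s (Finset.mem_insert_self _ _))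
    refine ⟨max n n', le_trans hn (le_max_left _ _), ?_⟩
    intro t ht c hc hk
    rcases Finset.mem_insert.1 ht with rfl | ht
    · exact h' c hc (fun k hk' => le_trans (le_max_right _ _) (hk k hk'))
    · exact h t ht c hc (fun k hk' => le_trans (le_max_left _ _) (hk k hk'))

/-- the new nodes and the finite large family -/
private theorem es_choose {R : QC} (hR : IsQ R) {S : Finset Fs} (hS : ∀ s ∈ S, s ∈ R.T)
    (m k : ℕ) :
    ∃ (S' : Finset Fs) (m' : ℕ) (E : Finset Fs), S ⊆ S' ∧ m < m' ∧ FL k E ∧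
      (∀ s ∈ S', s ∈ R.T) ∧ (∀ s ∈ S', ∀ j ∈ s, j < m') ∧ (∀ c ∈ E, c ∈ R.C) ∧
      (∀ c ∈ E, ∀ j ∈ c, m ≤ j ∧ j < m') ∧
      ∀ s ∈ S, ∀ c ∈ E, ∃ f ⊆ c, Above s f ∧ s ∪ f ∈ S' := by
  obtain ⟨n, hmn, hn⟩ := es_bound hR S hS m
  obtain ⟨E, hE, hEC⟩ := hR.large.exists_finite k n
  have hch : ∀ p : Fs × Fs, p.1 ∈ S ∧ p.2 ∈ E →
      ∃ f ⊆ p.2, Above p.1 f ∧ p.1 ∪ f ∈ R.T :=
    fun p hp => hn p.1 hp.1 p.2 (hEC p.2 hp.2).1 (hEC p.2 hp.2).2
  choose! f hf using hch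
  let S' : Finset Fs := S ∪ (S ×ˢ E).image (fun p => p.1 ∪ f p)
  have hS' : ∀ s ∈ S', s ∈ R.T := by
    intro s hs
    rcases Finset.mem_union.1 hs with h | h
    · exact hS s h
    · obtain ⟨p, hp, rfl⟩ := Finset.mem_image.1 h
      exact (hf p (Finset.mem_product.1 hp)).2.2
  let M : ℕ := max (m + 1) (max (S'.sup (fun t => t.sup Nat.succ)) (E.sup (fun t => t.sup Nat.succ)))
  have hM1 : ∀ s ∈ S', ∀ j ∈ s, j < M := by
    intro s hs j hj
    have h1 : j < s.sup Nat.succ := lt_sup hj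
    have h2 : s.sup Nat.succ ≤ S'.sup (fun t => t.sup Nat.succ) :=
      Finset.le_sup (f := fun t : Fs => t.sup Nat.succ) hs
    exact lt_of_lt_of_le h1 (le_trans h2 (le_trans (le_max_left _ _) (le_max_right _ _)))
  have hM2 : ∀ s ∈ E, ∀ j ∈ s, j < M := by
    intro s hs j hj
    have h1 : j < s.sup Nat.succ := lt_sup hj
    have h2 : s.sup Nat.succ ≤ E.sup (fun t => t.sup Nat.succ) :=
      Finset.le_sup (f := fun t : Fs => t.sup Nat.succ) hs
    exact lt_of_lt_of_le h1 (le_trans h2 (le_trans (le_max_right _ _) (le_max_right _ _)))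
  refine ⟨S', M, E, Finset.subset_union_left, ?_, hE, hS', hM1, fun c hc => (hEC c hc).1, ?_, ?_⟩
  · exact lt_of_lt_of_le (Nat.lt_succ_self m) (le_max_left _ _)
  · intro c hc j hj
    exact ⟨le_trans hmn ((hEC c hc).2 j hj), hM2 c hc j hj⟩
  · intro s hs c hc
    obtain ⟨h1, h2, h3⟩ := hf (s, c) ⟨hs, hc⟩
    refine ⟨f (s, c), h1, h2, Finset.mem_union_right _ ?_⟩
    exact Finset.mem_image.2 ⟨(s, c), Finset.mem_product.2 ⟨hs, hc⟩, rfl⟩

/-- the pair with the nodes above `S'` only -/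
private theorem es_isQ {R : QC} (hR : IsQ R) {s0 : Fs} {S S' : Finset Fs} {m m' : ℕ}
    (hI : Inv R.T s0 S m) (hSS : S ⊆ S') (hST : ∀ s ∈ S', s ∈ R.T)
    (hSm : ∀ s ∈ S', ∀ j ∈ s, j < m') :
    IsQ ⟨{t ∈ R.T | cutF t m' ∈ S'}, R.C⟩ ∧ Inv {t ∈ R.T | cutF t m' ∈ S'} s0 S' m' := by
  have hcut : ∀ t : Fs, (∀ j ∈ t, j < m') → cutF t m' = t := fun t ht =>
    Finset.filter_true_of_mem ht
  have hs0 : s0 ∈ S' := hSS (es_root_mem hI)
  have hroot : IsRoot {t ∈ R.T | cutF t m' ∈ S'} s0 := by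
    refine ⟨⟨hST s0 hs0, ?_⟩, fun t ht => hI.root.2 t ht.1⟩
    rw [hcut s0 (hSm s0 hs0)]
    exact hs0
  constructor
  · refine ⟨⟨s0, hroot⟩, hR.large, ?_⟩
    rintro t ⟨ht, htS⟩
    obtain ⟨n, hn⟩ := hR.cp t ht
    refine ⟨max n m', fun c hc hk => ?_⟩
    obtain ⟨f, hfc, hfa, hfT⟩ := hn c hc (fun k hk' => le_trans (le_max_left _ _) (hk k hk'))
    refine ⟨f, hfc, hfa, hfT, ?_⟩
    have h1 : cutF (t ∪ f) m' = cutF t m' := by
      ext j
      simp only [mem_cutF, Finset.mem_union]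
      constructor
      · rintro ⟨h1 | h1, h2⟩
        · exact ⟨h1, h2⟩
        · have h3 := le_trans (le_max_right _ _) (hk j (hfc h1))
          omega
      · rintro ⟨h1, h2⟩
        exact ⟨Or.inl h1, h2⟩
    rw [h1]
    exact htS
  · refine ⟨hroot, ?_, fun t ht => ht.2⟩
    intro t
    constructor
    · intro ht
      refine ⟨⟨hST t ht, ?_⟩, hSm t ht⟩
      rw [hcut t (hSm t ht)]
      exact ht
    · rintro ⟨⟨_, h2⟩, h3⟩
      rwa [hcut t h3] at h2

/-- one step of a fusion: the pieces above the nodes `s ∈ S'` satisfy `Φ` -/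
theorem fusion_step {β : L} (Φ : 𝔸 → Cond L → Prop)
    (hmono : ∀ a a' w w' t, a' ≤ a → w' ≤ w → At β w → At β w' → Root β w t → Root β w' t →
      Φ a w → Φ a' w')
    {w : Cond L} (hw : At β w) {s0 : Fs} {S : Finset Fs}
    {m : ℕ} (hinv : ∀ x ∈ w.pts, Inv (w.val β x).T s0 S m) (k : ℕ) (a : 𝔸)
    (hdense : ∀ a' ≤ a, ∀ v ≤ w, ∀ t, At β v → Root β v t →
      ∃ a'' ≤ a', ∃ v' ≤ v, At β v' ∧ Root β v' t ∧ Φ a'' v')
    {u : Cond L} (hu : u ≤ w.lt β) (huI : u.In (Iio β)) :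
    ∃ a' ≤ a, ∃ w' ≤ w, ∃ S' m' E, At β w' ∧ w'.lt β ≤ u ∧
      (∀ x ∈ w'.pts, Step k s0 (w.val β x) S m E (w'.val β x) S' m') ∧
      ∀ s ∈ S', ∃ h : Legal w' {β} (fun _ => s) (fun _ => m'),
        Φ a' (w'.node {β} (fun _ => s) (fun _ => m') h) := by
  obtain ⟨x0, hx0⟩ := pts_nonempty u
  have hx0w : x0 ∈ (w.lt β).pts := pts_mono hu hx0
  have hinvl : ∀ x ∈ (w.lt β).pts, Inv (w.val β x).T s0 S m := fun x hx =>
    es_val_pts (P := fun R => Inv R.T s0 S m) hinv hx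
  have hI0 := hinvl x0 hx0w
  obtain ⟨S', m', E, hSS, hmm, hFL, hST, hSm, hEC, hEm, hext⟩ :=
    es_choose (isQ_lt hx0w) (fun s hs => ((hI0.mem s).1 hs).1) m k
  have hCQ : CQ u (w.val β) := fun s =>
    ⟨((CQ_val_lt w β) s).1.mono hu, ((CQ_val_lt w β) s).2.mono hu⟩
  obtain ⟨F, μ, hl, hF⟩ := LC.finite (q := u)
    (fun (s : Fs) (x : Pt L) => ((s ∈ (w.val β x).T), (s ∈ (w.val β x).C)))
    (fun s => LC.comp₂ (hCQ s).1 (hCQ s).2 Prod.mk) (S' ∪ E) hx0
  have hu1 : ∀ x ∈ (u.at' x0 F μ hl).pts, (∀ s ∈ S', s ∈ (w.val β x).T) ∧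
      ∀ c ∈ E, c ∈ (w.val β x).C := by
    intro x hx
    constructor
    · intro s hs
      have h1 := (Prod.mk.inj (hF s (Finset.mem_union_left _ hs) x hx)).1
      exact h1.mpr (hST s hs)
    · intro c hc
      have h1 := (Prod.mk.inj (hF c (Finset.mem_union_right _ hc) x hx)).2
      exact h1.mpr (hEC c hc)
  have hu1w : u.at' x0 F μ hl ≤ w.lt β := le_trans (at_le hl) hu
  have hu1R : CQ (u.at' x0 F μ hl)
      (fun x => (⟨{t ∈ (w.val β x).T | cutF t m' ∈ S'}, (w.val β x).C⟩ : QC)) := by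
    intro s
    exact ⟨((hCQ s).1.mono (at_le hl)).comp (fun P : Prop => (P ∧ cutF s m' ∈ S')),
      (hCQ s).2.mono (at_le hl)⟩
  have hu1Q : ∀ x ∈ (u.at' x0 F μ hl).pts,
      IsQ ⟨{t ∈ (w.val β x).T | cutF t m' ∈ S'}, (w.val β x).C⟩ ∧
        Inv {t ∈ (w.val β x).T | cutF t m' ∈ S'} s0 S' m' := by
    intro x hx
    have hxw := pts_mono hu1w hx
    exact es_isQ (isQ_lt hxw) (hinvl x hxw) hSS (hu1 x hx).1 hSm
  obtain ⟨w1, hw1w, hw1A, hw1lt, hw1v⟩ := exists_val hw hu1w (at_in huI hl)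
    (fun x => (⟨{t ∈ (w.val β x).T | cutF t m' ∈ S'}, (w.val β x).C⟩ : QC)) hu1R
    (fun x hx => (hu1Q x hx).1)
    (fun x _ => ⟨fun t ht => ht.1, 0, fun c hc _ => ⟨c, hc, Finset.Subset.refl c⟩⟩)
  have key : ∀ A : Finset Fs, A ⊆ S' → ∃ a1 ≤ a, ∃ w2 ≤ w1, At β w2 ∧
      (∀ x ∈ w2.pts, Inv (w2.val β x).T s0 S' m' ∧
        ∀ c ∈ (w2.val β x).C, ∃ c' ∈ (w.val β x).C, c' ⊆ c) ∧
      ∀ s ∈ A, ∃ h : Legal w2 {β} (fun _ => s) (fun _ => m'),
        Φ a1 (w2.node {β} (fun _ => s) (fun _ => m') h) := by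
    intro A
    induction A using Finset.induction_on with
    | empty =>
      intro _
      refine ⟨a, le_rfl, w1, le_rfl, hw1A, ?_, fun s hs => absurd hs (Finset.notMem_empty s)⟩
      intro x hx
      have hxu : x ∈ (u.at' x0 F μ hl).pts := by
        have h1 := mem_lt hx β
        rwa [hw1lt] at h1
      rw [hw1v x hxu]
      exact ⟨(hu1Q x hxu).2, fun c hc => ⟨c, hc, Finset.Subset.refl c⟩⟩
    | insert s A hs ih =>
      intro hA
      obtain ⟨a1, ha1, w2, hw2, hw2A, hw2I, hw2Φ⟩ :=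
        ih (fun t ht => hA (Finset.mem_insert_of_mem ht))
      have hsS : s ∈ S' := hA (Finset.mem_insert_self _ _)
      have hleg : Legal w2 {β} (fun _ => s) (fun _ => m') := by
        refine legal_single hw2A (hSm s hsS) ?_
        intro x hx
        exact es_val_pts (P := fun R => s ∈ R.T)
          (fun y hy => (((hw2I y hy).1.mem s).1 hsS).1) hx
      obtain ⟨hvA, hvR, _, hvv⟩ := node_single hw2A hleg
      obtain ⟨a2, ha2, v', hv', hv'A, hv'R, hv'Φ⟩ := hdense a1 ha1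
        (w2.node {β} (fun _ => s) (fun _ => m') hleg)
        (le_trans (node_le hleg) (le_trans hw2 hw1w)) s hvA hvR
      obtain ⟨w3, hw3, hw3A, _, hw3I, hleg3, hw3v⟩ := exists_replace hw2A
        (fun x hx => (hw2I x hx).1) hsS (le_trans hv' (node_le hleg)) hv'A hv'R (by
          intro x hx t ht
          have h1 := (hv'.2 x hx β).1 ht
          rw [hvv x] at h1
          exact h1.2)
      refine ⟨a2, le_trans ha2 ha1, w3, le_trans hw3 hw2, hw3A, ?_, ?_⟩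
      · intro x hx
        refine ⟨(hw3I x hx).1, fun c hc => ?_⟩
        obtain ⟨c1, hc1, hc1c⟩ := (hw3I x hx).2.1 c hc
        obtain ⟨c2, hc2, hc2c⟩ := (hw2I x (pts_mono hw3 hx)).2 c1 hc1
        exact ⟨c2, hc2, hc2c.trans hc1c⟩
      · intro t ht
        rcases Finset.mem_insert.1 ht with rfl | htA
        · obtain ⟨h1, h2, _, _⟩ := node_single hw3A hleg3
          exact ⟨hleg3, hmono a2 a2 v' _ t le_rfl hw3v hv'A h1 hv'R h2 hv'Φ⟩
        · have htS : t ∈ S' := hA ht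
          have hleg4 : Legal w3 {β} (fun _ => t) (fun _ => m') := by
            refine legal_single hw3A (hSm t htS) ?_
            intro x hx
            exact es_val_pts (P := fun R => t ∈ R.T)
              (fun y hy => (((hw3I y hy).1.mem t).1 htS).1) hx
          obtain ⟨hleg5, h5⟩ := hw2Φ t htA
          obtain ⟨h1, h2, _, _⟩ := node_single hw3A hleg4
          obtain ⟨h3, h4, _, _⟩ := node_single hw2A hleg5
          exact ⟨hleg4, hmono a1 a2 _ _ t ha2 (node_mono hw3 hleg4 hleg5) h3 h1 h4 h2 h5⟩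
  obtain ⟨a1, ha1, w2, hw2, hw2A, hw2I, hw2Φ⟩ := key S' (Finset.Subset.refl S')
  have hlt : w2.lt β ≤ u.at' x0 F μ hl := by
    have h1 : w2.lt β ≤ w1.lt β := restr_mono hw2
    rwa [hw1lt] at h1
  refine ⟨a1, ha1, w2, le_trans hw2 hw1w, S', m', E, hw2A, le_trans hlt (at_le hl), ?_, hw2Φ⟩
  intro x hx
  have hxu : x ∈ (u.at' x0 F μ hl).pts := pts_mono hlt (mem_lt hx β)
  exact
    { sub := ((le_trans hw2 hw1w).2 x hx β).1
      ref := (hw2I x hx).2
      inv := (hw2I x hx).1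
      SS := hSS
      lt := hmm
      fl := hFL
      EC := fun c hc => ⟨c, (hu1 x hxu).2 c hc, Finset.Subset.refl c⟩
      Em := hEm
      ext := hext }

end E8
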