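import Pool.Agent.Lib.MP_e8be47_lc.DSys
import Pool.Agent.Lib.MP_e8be47_lc.DStep

/-!
# small facts for the extension theorem
-/

open Set Classical

set_option linter.unusedSectionVars false

namespace E8

variable {𝔸 : Type} [Tow 𝔸] {L : Type} [LinearOrder L] [WellFoundedLT L]

open Cond

/-- existence of stages -/
theorem stage_exists {β : L} (hF : FrontP 𝔸 β) {D : DSet 𝔸 L}
    (hD : DOL (Iic β) (isLowerSet_Iic β) D) {w : Cond L} (hw : At β w) {s0 : Fs} {S : Finset Fs}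
    {m : ℕ} (hinv : ∀ x ∈ w.pts, Inv (w.val β x).T s0 S m) (k : ℕ) (a : 𝔸) {u : Cond L}
    (hu : u ≤ w.lt β) (huI : u.In (Iio β)) :
    ∃ a' ≤ a, ∃ w' S' m' E, Stage β k D a' s0 w S m E w' S' m' ∧ w'.lt β ≤ u := by
  obtain ⟨a', ha', w', hw', S', m', E, hA, hlt, hstep, hfr⟩ :=
    fusion_step (β := β) (Front D)
      (fun a a' w w' t ha hww _ _ _ _ h => Front.mono hD.opd h ha hww) hw hinv k a
      (fun a' _ v _ t hv ht => hF D hD a' v t hv ht) hu huI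
  refine ⟨a', ha', w', S', m', E, ⟨hw', hA, hstep, ?_⟩, hlt⟩
  refine Front.of_local ?_ hD.opd
  intro x hx
  have hxT : x β ∈ br (w'.val β x).T := hx β
  have hinv' := (hstep x hx).inv
  obtain ⟨n, hn, hcut⟩ := exists_cut_mem hxT m'
  have hs : cut (x β) m' ∈ S' := by
    have h1 := hinv'.cut _ hcut
    rwa [cutF_cut hn] at h1
  obtain ⟨h, hf⟩ := hfr _ hs
  obtain ⟨h', he⟩ := node_congr h (s' := fun ξ => cut (x ξ) m') (m' := fun _ => m')
    (by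
      intro ξ hξ
      rw [Finset.mem_singleton] at hξ
      rw [hξ])
    (fun _ _ => rfl)
  refine ⟨{β}, fun _ => m', h', ?_⟩
  have he' : w'.at' x {β} (fun _ => m') h' =
      w'.node {β} (fun _ => cut (x β) m') (fun _ => m') h := he
  rw [he']
  exact hf

variable [OrderBot L]

/-- the conclusion of the extension theorem from `β` to the lower set `Λ` -/
def ExtS (𝔖 : Sys 𝔸 L) (β : L) (Λ : Set L) (hΛ : IsLowerSet Λ) : Prop :=
  ∀ q : Cond L, q.In (Iio β) → (∀ x ∈ q.pts, 𝔖.Gen (Iio β) (isLowerSet_Iio β) q x) →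
    ∀ w : Pt L → Cond L, LC q w →
      (∀ x ∈ q.pts, w x ∈ 𝔖.NP ∧ (w x).In Λ ∧ Meets q x ((w x).lt β)) →
      ∃ r : Cond L, r.In Λ ∧ r.lt β = q ∧ (∀ x ∈ r.pts, 𝔖.Gen Λ hΛ r x) ∧
        (∀ x ∈ r.pts, ∀ ξ, β ≤ ξ → QLe (r.val ξ x) ((w x).val ξ x)) ∧
        ∀ x ∈ q.pts, (w x).supp \ Iio β ⊆ r.supp

/-- consequence of the conclusion -/
theorem meets_of_ext {β : L} {q r : Cond L} (hr : r.lt β = q) {w : Pt L → Cond L} (hw : LC q w)
    (hm : ∀ x ∈ q.pts, Meets q x ((w x).lt β))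
    (h : ∀ x ∈ r.pts, ∀ ξ, β ≤ ξ → QLe (r.val ξ x) ((w x).val ξ x))
    (hs : ∀ x ∈ q.pts, (w x).supp \ Iio β ⊆ r.supp) {x : Pt L} (hx : x ∈ r.pts) :
    Meets r x (w x) := by
  subst hr
  have hxq : x ∈ (r.lt β).pts := mem_lt hx β
  obtain ⟨F1, μ1, hl1, hc1⟩ := hw x hxq
  obtain ⟨F, μ, hl, hle1, hle2⟩ := Meets.inter hxq (⟨F1, μ1, hl1, le_refl _⟩ :
    Meets (r.lt β) x ((r.lt β).at' x F1 μ1 hl1)) (hm x hxq)
  obtain ⟨hlr, hFβ⟩ := leg_lt hl
  have hat : (r.at' x F μ hlr).lt β = (r.lt β).at' x F μ hl := restr_at hFβ hlr hl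
  refine ⟨F, μ, hlr, ?_, ?_⟩
  · intro ξ hξ
    by_cases hlt : ξ < β
    · have h1 : ξ ∈ ((w x).lt β).supp := ⟨hξ, hlt⟩
      have h2 := hle2.1 h1
      exact h2.1
    · exact hs x hxq ⟨hξ, hlt⟩
  · intro y hy ξ
    have hy1 : y ∈ ((r.lt β).at' x F μ hl).pts := by
      rw [← hat]
      exact mem_lt hy β
    by_cases hlt : ξ < β
    · have h1 := hle2.2 y hy1 ξ
      have e1 : ((r.lt β).at' x F μ hl).val ξ y = (r.at' x F μ hlr).val ξ y := by
        rw [← hat]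
        exact restr_val (Λ := Iio β) (hΛ := isLowerSet_Iio β) _ hlt y
      have e2 : ((w x).lt β).val ξ y = (w x).val ξ y :=
        restr_val (Λ := Iio β) (hΛ := isLowerSet_Iio β) _ hlt y
      rwa [e1, e2] at h1
    · have hξF : ξ ∉ F := fun hF => hlt (hFβ hF)
      have e1 : (r.at' x F μ hlr).val ξ y = r.val ξ y :=
        (node_val hlr ξ y).trans (if_neg hξF)
      have hyr : y ∈ r.pts := pts_mono (at_le hlr) hy
      have h1 := h y hyr ξ (not_lt.1 hlt)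
      have e2 : w y = w x := hc1 y (pts_mono hle1 hy1)
      rw [e2] at h1
      rw [e1]
      exact h1

/-- the start: the trivial condition is generic on `∅` -/
theorem gen_one (𝔖 : Sys 𝔸 L) (x : Pt L) (hx : x ∈ (Cond.one L).pts) :
    𝔖.Gen (Iio ⊥) (isLowerSet_Iio ⊥) (Cond.one L) x := by
  intro D hD hDOL
  have h1 : DOL (∅ : Set L) isLowerSet_empty D :=
    hDOL.mono (fun ξ hξ => absurd hξ not_lt_bot)
  obtain ⟨n, hn⟩ := 𝔖.gen D hD h1
  exact ⟨n, Cond.one L, 𝔖.one, hn, Meets.self _ _⟩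

/-- from `(-∞, β]` to `(-∞, β')` when no element of `B` is strictly between -/
theorem gen_next (𝔖 : Sys 𝔸 L) {β : L} (hβ : β ∈ 𝔖.B) {γ : WithTop L} (hβγ : (β : WithTop L) < γ)
    (hγ : γ = ⊤ ∨ ∃ b ∈ 𝔖.B, γ = (b : WithTop L))
    (hno : ∀ b ∈ 𝔖.B, (b : WithTop L) < γ → b ≤ β) {r : Cond L} (hr : r.In (Iic β)) {x : Pt L}
    (hx : x ∈ r.pts) (h : 𝔖.Gen (Iic β) (isLowerSet_Iic β) r x) :
    𝔖.Gen (Lam γ) (Lam_lower γ) r x := by
  intro D hD hDOL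
  obtain ⟨n, v, hv, hvL, hm⟩ := h _ (𝔖.lift_le D hD _ 𝔖.one β hβ) (DOL_lift hDOL (Cond.one L))
  have hv1 : v.restr (Iic β) (isLowerSet_Iic β) ≤
      (Cond.one L).restr (Iic β) (isLowerSet_Iic β) := restr_mono (le_one v)
  have hex : ∃ e ≤ Cond.one L, (𝔖.hs n, e) ∈ D ∧ v.le β ≤ e.le β := by
    rcases hvL with hvL | hvL
    · exact absurd ⟨_, le_refl _, hv1⟩ hvL
    · exact hvL
  obtain ⟨e, he, -, heD, hle⟩ := 𝔖.wit_le D hD _ 𝔖.one β hβ _ (𝔖.hsN n) v hv hex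
  have hB := 𝔖.supp e he
  have hmem : ∀ ξ ∈ e.supp, (ξ ∈ Lam γ ↔ ξ ∈ Iic β) := by
    intro ξ hξ
    constructor
    · intro h1
      exact hno ξ (hB hξ) h1
    · intro h1
      exact lt_of_le_of_lt (WithTop.coe_le_coe.2 h1) hβγ
  have heq : e.restr (Lam γ) (Lam_lower γ) = e.le β := by
    apply Cond.ext
    · funext ξ y
      by_cases hξ : ξ ∈ e.supp
      · by_cases h2 : ξ ∈ Iic β
        · exact (restr_val e ((hmem ξ hξ).2 h2) y).trans
            (restr_val (Λ := Iic β) (hΛ := isLowerSet_Iic β) e h2 y).symm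
        · exact (restr_val_off e (fun h3 => h2 ((hmem ξ hξ).1 h3)) y).trans
            (restr_val_off (Λ := Iic β) (hΛ := isLowerSet_Iic β) e h2 y).symm
      · exact ((e.restr (Lam γ) (Lam_lower γ)).off ξ (fun h3 => hξ h3.1) y).trans
          ((e.le β).off ξ (fun h3 => hξ h3.1) y).symm
    · show e.supp ∩ Lam γ = e.supp ∩ Iic β
      ext ξ
      constructor
      · rintro ⟨h1, h2⟩
        exact ⟨h1, (hmem ξ h1).1 h2⟩
      · rintro ⟨h1, h2⟩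
        exact ⟨h1, (hmem ξ h1).2 h2⟩
  refine ⟨n, e.le β, 𝔖.le e he β hβ, ?_, ?_⟩
  · rw [← heq]
    exact (hDOL.loc _ _).1 heD
  · exact Meets.mono (Meets_restr hm) hle

/-- composition -/
theorem ExtS.trans {𝔖 : Sys 𝔸 L} {β β' : L} (hββ' : β ≤ β') (hβ' : β' ∈ 𝔖.B)
    {Λ : Set L} {hΛ : IsLowerSet Λ} (hΛ' : Iio β' ⊆ Λ)
    (h : ExtS 𝔖 β (Iio β') (isLowerSet_Iio β')) (h' : ExtS 𝔖 β' Λ hΛ) : ExtS 𝔖 β Λ hΛ := by
  intro q hqI hqG w hLC hw
  have hm1 : ∀ x ∈ q.pts, Meets q x (((w x).lt β').lt β) := by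
    intro x hx
    rw [lt_lt hββ']
    exact (hw x hx).2.2
  have hLC1 : LC q (fun x => (w x).lt β') := LC.comp hLC (fun p => p.lt β')
  obtain ⟨r1, hr1I, hr1q, hr1G, hr1v, hr1s⟩ := h q hqI hqG (fun x => (w x).lt β') hLC1
    (fun x hx => ⟨𝔖.lt _ (hw x hx).1 β' hβ', lt_in _ _, hm1 x hx⟩)
  have hle : r1 ≤ q := by
    rw [← hr1q]
    exact le_restr r1
  have hM1 : ∀ x ∈ r1.pts, Meets r1 x ((w x).lt β') := fun x hx =>
    meets_of_ext hr1q hLC1 hm1 hr1v hr1s hx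
  obtain ⟨r, hrI, hrr, hrG, hrv, hrs⟩ := h' r1 hr1I hr1G w (LC.mono hle hLC)
    (fun x hx => ⟨(hw x (pts_mono hle hx)).1, (hw x (pts_mono hle hx)).2.1, hM1 x hx⟩)
  refine ⟨r, hrI, ?_, hrG, ?_, ?_⟩
  · rw [← lt_lt hββ', hrr, hr1q]
  · intro x hx ξ hξ
    by_cases hlt : ξ < β'
    · have hx1 : x ∈ r1.pts := by
        rw [← hrr]
        exact mem_lt hx β'
      have h1 := hr1v x hx1 ξ hξ
      have e1 : r1.val ξ x = r.val ξ x := by
        rw [← hrr]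
        exact restr_val (Λ := Iio β') (hΛ := isLowerSet_Iio β') _ hlt x
      have e2 : ((w x).lt β').val ξ x = (w x).val ξ x :=
        restr_val (Λ := Iio β') (hΛ := isLowerSet_Iio β') _ hlt x
      rw [e1] at h1
      rw [← e2]
      exact h1
    · exact hrv x hx ξ (not_lt.1 hlt)
  · intro x hx ξ hξ
    by_cases hlt : ξ < β'
    · have h1 : ξ ∈ r1.supp := hr1s x hx ⟨⟨hξ.1, hlt⟩, hξ.2⟩
      rw [← hrr] at h1
      exact h1.1
    · have hx' : x ∈ (r1.lt β).pts := by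
        rw [hr1q]
        exact hx
      obtain ⟨x1, hx1, hxx⟩ := exists_point hx'
      have hx1q : x1 ∈ q.pts := pts_mono hle hx1
      have e : w x1 = w x := LC.dep hLC hx hx1q fun ξ hξ => hxx ξ (hqI hξ)
      have h1 := hrs x1 hx1
      rw [e] at h1
      exact h1 ⟨hξ.1, hlt⟩

end E8
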