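import Pool.Agent.Lib.MP_e8be47_lc.DUtil
import Pool.Agent.Lib.MP_e8be47_lc.DBasic

/-!
# replace the part above one node
-/

open Set Classical

set_option linter.unusedSectionVars false

namespace E8

variable {𝔸 : Type} [Tow 𝔸] {L : Type} [LinearOrder L] [WellFoundedLT L]

open Cond

/-- the value at `β` of the replacement -/
private def erR (Rw Rv : QC) (s : Fs) (m : ℕ) : QC :=
  ⟨{t | (t ∈ Rw.T ∧ cutF t m ≠ s) ∨ t ∈ Rv.T}, {c | c ∈ Rv.C ∧ ∃ c' ∈ Rw.C, c' ⊆ c}⟩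

private theorem er_root {Rw Rv : QC} {s0 s : Fs} {S : Finset Fs} {m : ℕ}
    (hinv : Inv Rw.T s0 S m) (hTT : Rv.T ⊆ Rw.T) (hroot : IsRoot Rv.T s) :
    IsRoot (erR Rw Rv s m).T s0 := by
  refine ⟨?_, ?_⟩
  · have h1 := hinv.cut s0 hinv.root.1
    have h2 := (hinv.root.2 _ (((hinv.mem _).1 h1).1)).1
    have h3 : cutF s0 m = s0 :=
      Finset.Subset.antisymm (Finset.filter_subset _ _) h2
    by_cases h4 : s0 = s
    · right
      rw [h4]
      exact hroot.1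
    · left
      refine ⟨hinv.root.1, ?_⟩
      rw [h3]
      exact h4
  · rintro t (⟨ht, _⟩ | ht)
    · exact hinv.root.2 t ht
    · exact hinv.root.2 t (hTT ht)

private theorem er_sub {Rw Rv : QC} {s : Fs} {m : ℕ} (hTT : Rv.T ⊆ Rw.T) :
    (erR Rw Rv s m).T ⊆ Rw.T := by
  rintro t (⟨ht, _⟩ | ht)
  · exact ht
  · exact hTT ht

private theorem er_isQ {Rw Rv : QC} {s0 s : Fs} {S : Finset Fs} {m : ℕ} (hw : IsQ Rw)
    (hv : IsQ Rv) (hle : QLe Rv Rw) (hinv : Inv Rw.T s0 S m) (hroot : IsRoot Rv.T s) :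
    IsQ (erR Rw Rv s m) := by
  refine ⟨⟨s0, er_root hinv hle.1 hroot⟩, ?_, ?_⟩
  · refine Large.almost hv.large (fun c hc => hv.large.1 c hc.1) ?_
    obtain ⟨n, hn⟩ := hle.2
    exact ⟨n, fun c hc hcn => ⟨hc, hn c hc hcn⟩⟩
  · rintro t (⟨ht, htm⟩ | ht)
    · obtain ⟨n, hn⟩ := hw.cp t ht
      refine ⟨max n m, ?_⟩
      rintro c ⟨hc, c', hc', hcc⟩ hcn
      obtain ⟨f, hf, hab, htf⟩ := hn c' hc' fun k hk =>
        (le_max_left n m).trans (hcn k (hcc hk))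
      refine ⟨f, hf.trans hcc, hab, Or.inl ⟨htf, ?_⟩⟩
      have : cutF (t ∪ f) m = cutF t m := by
        ext k
        simp only [mem_cutF, Finset.mem_union]
        constructor
        · rintro ⟨hk | hk, hkm⟩
          · exact ⟨hk, hkm⟩
          · have h1 := hcn k (hcc (hf hk))
            have h2 := le_max_right n m
            omega
        · rintro ⟨hk, hkm⟩
          exact ⟨Or.inl hk, hkm⟩
      rw [this]
      exact htm
    · obtain ⟨n, hn⟩ := hv.cp t ht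
      refine ⟨n, ?_⟩
      rintro c ⟨hc, _⟩ hcn
      obtain ⟨f, hf, hab, htf⟩ := hn c hc hcn
      exact ⟨f, hf, hab, Or.inr htf⟩

private theorem er_QLe {Rw Rv : QC} {s : Fs} {m : ℕ} (hTT : Rv.T ⊆ Rw.T) :
    QLe (erR Rw Rv s m) Rw :=
  ⟨er_sub hTT, 0, fun _ hc _ => hc.2⟩

private theorem er_Inv {Rw Rv : QC} {s0 s : Fs} {S : Finset Fs} {m : ℕ}
    (hinv : Inv Rw.T s0 S m) (hTT : Rv.T ⊆ Rw.T) (hroot : IsRoot Rv.T s) :
    Inv (erR Rw Rv s m).T s0 S m := by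
  refine ⟨er_root hinv hTT hroot, ?_, fun t ht => hinv.cut t (er_sub hTT ht)⟩
  intro t
  constructor
  · intro ht
    have h1 := (hinv.mem t).1 ht
    refine ⟨?_, h1.2⟩
    by_cases h2 : t = s
    · right
      rw [h2]
      exact hroot.1
    · left
      refine ⟨h1.1, ?_⟩
      have : cutF t m = t := by
        ext k
        simp only [mem_cutF]
        exact ⟨fun h => h.1, fun h => ⟨h, h1.2 k h⟩⟩
      rw [this]
      exact h2
  · rintro ⟨ht, hk⟩
    exact (hinv.mem t).2 ⟨er_sub hTT ht, hk⟩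

private theorem er_CQ {q : Cond L} {Rw Rv : Pt L → QC} (hw : CQ q Rw) (hv : CQ q Rv) (s : Fs)
    (m : ℕ) : CQ q fun x => erR (Rw x) (Rv x) s m := by
  intro t
  refine ⟨LC.comp₂ (hw t).1 (hv t).1 fun P Q => (P ∧ cutF t m ≠ s) ∨ Q, ?_⟩
  refine LC.comp₂ (w := fun x => t ∈ (Rv x).C) (w' := fun x => ∃ c' ∈ (Rw x).C, c' ⊆ t)
    (hv t).2 ?_ fun P Q => P ∧ Q
  intro x hx
  obtain ⟨F, μ, h, hF⟩ := LC.finite (q := q) (fun (c' : Fs) x => c' ∈ (Rw x).C)
    (fun c' => (hw c').2) t.powerset hx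
  refine ⟨F, μ, h, fun y hy => ?_⟩
  apply propext
  constructor
  · rintro ⟨c', hc', hct⟩
    have := hF c' (Finset.mem_powerset.2 hct) y hy
    exact ⟨c', this.mp hc', hct⟩
  · rintro ⟨c', hc', hct⟩
    have := hF c' (Finset.mem_powerset.2 hct) y hy
    exact ⟨c', this.mpr hc', hct⟩

/-- replace the part of `w` above the node `s` by `v` -/
theorem exists_replace {β : L} {w : Cond L} (hw : At β w) {s0 : Fs} {S : Finset Fs} {m : ℕ}
    (hinv : ∀ x ∈ w.pts, Inv (w.val β x).T s0 S m) {s : Fs} (hs : s ∈ S) {v : Cond L} (hv : v ≤ w)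
    (hvA : At β v) (hr : Root β v s) (hc : ∀ x ∈ v.pts, ∀ t ∈ (v.val β x).T, cutF t m = s) :
    ∃ w' ≤ w, At β w' ∧ w'.lt β = v.lt β ∧
      (∀ x ∈ w'.pts, Inv (w'.val β x).T s0 S m ∧
        (∀ c ∈ (w'.val β x).C, ∃ c' ∈ (w.val β x).C, c' ⊆ c) ∧
        ∀ t, cutF t m ≠ s → (t ∈ (w'.val β x).T ↔ t ∈ (w.val β x).T)) ∧
      ∃ h : Legal w' {β} (fun _ => s) (fun _ => m), w'.node {β} (fun _ => s) (fun _ => m) h ≤ v := by
  have hq : v.lt β ≤ w.lt β := restr_mono hv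
  have hqI : (v.lt β).In (Iio β) := lt_in v β
  have hm : ∀ k ∈ s, k < m := by
    obtain ⟨x, hx⟩ := pts_nonempty w
    exact (((hinv x hx).mem s).1 hs).2
  have hI : ∀ x ∈ (v.lt β).pts, Inv (w.val β x).T s0 S m := by
    intro x hx
    obtain ⟨y, hy, hyx⟩ := exists_point (pts_mono hq hx)
    rw [← val_congr (p := w) hyx]
    exact hinv y hy
  have hR : ∀ x ∈ (v.lt β).pts, IsRoot (v.val β x).T s := by
    intro x hx
    obtain ⟨y, hy, hyx⟩ := exists_point hx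
    rw [← val_congr (p := v) hyx]
    exact hr y hy
  have hC : ∀ x ∈ (v.lt β).pts, ∀ t ∈ (v.val β x).T, cutF t m = s := by
    intro x hx
    obtain ⟨y, hy, hyx⟩ := exists_point hx
    rw [← val_congr (p := v) hyx]
    exact hc y hy
  have hT : ∀ x ∈ (v.lt β).pts, (v.val β x).T ⊆ (w.val β x).T := fun x hx =>
    (QLe_lt hv hx).1
  obtain ⟨w', hw'w, hw'A, hw'q, hw'v⟩ := exists_val hw hq hqI
    (fun x => erR (w.val β x) (v.val β x) s m)
    (er_CQ (fun t => ⟨LC.mono hq (CQ_val_lt w β t).1, LC.mono hq (CQ_val_lt w β t).2⟩)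
      (CQ_val_lt v β) s m)
    (fun x hx => er_isQ (isQ_lt (pts_mono hq hx)) (isQ_lt hx) (QLe_lt hv hx) (hI x hx) (hR x hx))
    (fun x hx => er_QLe (hT x hx))
  have hpt : ∀ x ∈ w'.pts, x ∈ (v.lt β).pts := by
    intro x hx
    rw [← hw'q]
    exact mem_lt hx β
  refine ⟨w', hw'w, hw'A, hw'q, ?_, ?_⟩
  · intro x hx
    have hx' := hpt x hx
    rw [hw'v x hx']
    refine ⟨er_Inv (hI x hx') (hT x hx') (hR x hx'), fun c hc => hc.2, fun t ht => ⟨?_, ?_⟩⟩
    · exact fun h => er_sub (hT x hx') h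
    · exact fun h => Or.inl ⟨h, ht⟩
  · have hleg : Legal w' {β} (fun _ => s) (fun _ => m) := by
      refine legal_single hw'A hm ?_
      intro x hx
      rw [hw'q] at hx
      rw [hw'v x hx]
      exact Or.inr (hR x hx).1
    refine ⟨hleg, ?_⟩
    obtain ⟨_, _, hn3, hn4⟩ := node_single hw'A hleg
    refine le_of_lt_val hvA.le ?_ ?_ ?_
    · rw [node_supp]
      intro ξ hξ
      rcases lt_or_eq_of_le (hvA.le hξ : ξ ≤ β) with h1 | h1
      · have h2 : ξ ∈ (v.lt β).supp := ⟨hξ, h1⟩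
        rw [← hw'q] at h2
        exact h2.1
      · rw [h1]
        exact hw'A.mem
    · rw [hn3, hw'q]
    · intro x hx
      have hx' := hpt x (pts_mono (node_le hleg) hx)
      rw [hn4 x, hw'v x hx']
      refine ⟨?_, 0, fun c hc _ => ⟨c, hc.1, Finset.Subset.refl _⟩⟩
      rintro t ⟨⟨_, ht1⟩ | ht, htm⟩
      · exact absurd htm ht1
      · exact ht

end E8
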