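import Pool.Agent.Lib.MP_e8be47_lc.DExt0

/-!
# the successor step of the extension theorem
-/

open Set Classical

set_option linter.unusedSectionVars false

namespace E8

variable {𝔸 : Type} [Tow 𝔸] {L : Type} [LinearOrder L] [WellFoundedLT L]

open Cond

variable [OrderBot L]

/-- the states of the construction -/
structure e1_St (𝔖 : Sys 𝔸 L) where
  w : Cond L
  hw : w ∈ 𝔖.NP
  s0 : Fs
  S : Finset Fs
  m : ℕ
  E : Finset Fs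
  n : ℕ

theorem e1_countable (𝔖 : Sys 𝔸 L) : Countable (e1_St 𝔖) := by
  have h := 𝔖.cNP.to_subtype
  refine Function.Injective.countable
    (f := fun j : e1_St 𝔖 => ((⟨j.w, j.hw⟩ : 𝔖.NP), j.s0, j.S, j.m, j.E, j.n)) ?_
  rintro ⟨w, hw, s0, S, m, E, n⟩ ⟨w', hw', s0', S', m', E', n'⟩ h
  simp only [Prod.mk.injEq, Subtype.mk.injEq] at h
  obtain ⟨rfl, rfl, rfl, rfl, rfl, rfl⟩ := h
  rfl

/-- the state `j` is good at `x` -/
structure e1_Good (𝔖 : Sys 𝔸 L) (β : L) (q : Cond L) (x : Pt L) (j : e1_St 𝔖) : Prop where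
  at' : At β j.w
  inv : ∀ y ∈ j.w.pts, Inv (j.w.val β y).T j.s0 j.S j.m
  meets : Meets q x (j.w.lt β)

/-- the successor relation -/
structure e1_Next (𝔖 : Sys 𝔸 L) (β : L) (D : DSet 𝔸 L) (k : ℕ) (j j' : e1_St 𝔖) : Prop where
  eq : j'.s0 = j.s0
  stage : Stage β k D (𝔖.hs j'.n) j.s0 j.w j.S j.m j'.E j'.w j'.S j'.m

theorem e1_good_next {𝔖 : Sys 𝔸 L} {β : L} {q : Cond L} {x : Pt L} {D : DSet 𝔸 L} {k : ℕ}
    {j j' : e1_St 𝔖} (h : e1_Next 𝔖 β D k j j') (hm : Meets q x (j'.w.lt β)) :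
    e1_Good 𝔖 β q x j' :=
  ⟨h.stage.at', fun y hy => by rw [h.eq]; exact (h.stage.step y hy).inv, hm⟩

/-- one step at one point -/
theorem e1_step (𝔖 : Sys 𝔸 L) {β : L} (hβ : β ∈ 𝔖.B) (hF : FrontP 𝔸 β) {q : Cond L}
    {D : DSet 𝔸 L} (hD : D ∈ 𝔖.DD) (hDO : DOL (Iic β) (isLowerSet_Iic β) D) (k : ℕ) {x : Pt L}
    (hx : x ∈ q.pts) (hg : 𝔖.Gen (Iio β) (isLowerSet_Iio β) q x) (j : e1_St 𝔖)
    (hj : e1_Good 𝔖 β q x j) :
    ∃ j' : e1_St 𝔖, e1_Next 𝔖 β D k j j' ∧ Meets q x (j'.w.lt β) := by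
  have h1 : DOL (Iio β) (isLowerSet_Iio β) (StageD β k D j.s0 j.w j.S j.m) :=
    DOL_stageD hDO.opd hj.at'.le fun a u hu huI => stage_exists hF hDO hj.at' hj.inv k a hu huI
  obtain ⟨n, v, hv, hvD, hvm⟩ := hg _ (𝔖.stage D hD j.w j.hw β hβ k j.s0 j.S j.m) h1
  have hvm' : Meets q x (v.lt β) := Meets_restr hvm
  rcases hvD with h2 | h2
  · exact absurd (Meets.cpt hx hvm' hj.meets) h2
  · obtain ⟨w', hw', S', m', E, hst, hle⟩ :=
      𝔖.wit_stage D hD j.w j.hw β hβ k j.s0 j.S j.m (𝔖.hs n) (𝔖.hsN n) v hv h2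
    exact ⟨⟨w', hw', j.s0, S', m', E, n⟩, ⟨rfl, hst⟩, hvm'.mono hle⟩

/-- one step -/
theorem e1_step' (𝔖 : Sys 𝔸 L) {β : L} (hβ : β ∈ 𝔖.B) (hF : FrontP 𝔸 β) {q : Cond L}
    {D : DSet 𝔸 L} (hD : D ∈ 𝔖.DD) (hDO : DOL (Iic β) (isLowerSet_Iic β) D) (k : ℕ)
    (hg : ∀ x ∈ q.pts, 𝔖.Gen (Iio β) (isLowerSet_Iio β) q x) (f : Pt L → e1_St 𝔖) (hf : LC q f)
    (hj : ∀ x ∈ q.pts, e1_Good 𝔖 β q x (f x)) :
    ∃ f' : Pt L → e1_St 𝔖, LC q f' ∧ (∀ x ∈ q.pts, e1_Good 𝔖 β q x (f' x)) ∧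
      ∀ x ∈ q.pts, e1_Next 𝔖 β D k (f x) (f' x) := by
  have hc := e1_countable 𝔖
  obtain ⟨x0, hx0⟩ := q.pts_nonempty
  have hne : Nonempty (e1_St 𝔖) := ⟨f x0⟩
  obtain ⟨f', hf', h⟩ := selection q
    (fun j' : e1_St 𝔖 => {x | f x ∈ {j | e1_Next 𝔖 β D k j j'}} ∩ {x | Meets q x (j'.w.lt β)})
    (fun j' => (LC.opn hf _).inter (Meets.opn q _))
    (fun x hx => by
      obtain ⟨j', h1, h2⟩ := e1_step 𝔖 hβ hF hD hDO k hx (hg x hx) (f x) (hj x hx)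
      exact ⟨j', h1, h2⟩)
  exact ⟨f', hf', fun x hx => e1_good_next (h x hx).1 (h x hx).2, fun x hx => (h x hx).1⟩

theorem e1_inv_root {T : Set Fs} {s : Fs} (h : IsRoot T s) : Inv T s {s} (s.sup Nat.succ) := by
  refine ⟨h, fun t => ?_, fun t ht => ?_⟩
  · rw [Finset.mem_singleton]
    constructor
    · rintro rfl
      exact ⟨h.1, fun k hk => lt_sup hk⟩
    · rintro ⟨ht, hlt⟩
      have h1 := cutF_root h ht
      rw [← h1]
      ext k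
      rw [mem_cutF]
      exact ⟨fun hk => ⟨hk, hlt k hk⟩, fun hk => hk.1⟩
  · rw [Finset.mem_singleton]
    exact cutF_root h ht

/-- the start -/
theorem e1_start (𝔖 : Sys 𝔸 L) {β : L} (hβ : β ∈ 𝔖.B) {q : Cond L} (w : Pt L → Cond L)
    (hw : LC q w)
    (h : ∀ x ∈ q.pts, w x ∈ 𝔖.NP ∧ (w x).In (Iic β) ∧ Meets q x ((w x).lt β)) :
    ∃ f : Pt L → e1_St 𝔖, LC q f ∧ (∀ x ∈ q.pts, e1_Good 𝔖 β q x (f x)) ∧
      ∀ x ∈ q.pts, (f x).w ≤ w x := by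
  have hc := e1_countable 𝔖
  have hpt : ∀ x ∈ q.pts, ∃ j : e1_St 𝔖, e1_Good 𝔖 β q x j ∧ j.w ≤ w x := by
    intro x hx
    obtain ⟨h1, h2, h3⟩ := h x hx
    have hA : At β ((w x).pad β) := by
      refine ⟨?_, mem_insert _ _⟩
      intro ξ hξ
      rcases hξ with rfl | hξ
      · exact le_rfl
      · exact h2 hξ
    have h3' : Meets q x (((w x).pad β).lt β) := by rw [pad_lt]; exact h3
    obtain ⟨y, hy, hyx, F, μ, hl, s, hβF, hR, -⟩ := exists_root hA (h3'.mem hx)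
    obtain ⟨hl', e⟩ := leg_filter (β := β) hl
    have hm : Meets q x ((((w x).pad β).at' y F μ hl).lt β) := by
      rw [e]
      refine Meets.node hx h3' hl' ?_
      intro ξ hξ
      rw [hyx ξ (Finset.mem_filter.1 hξ).2]
    refine ⟨⟨((w x).pad β).at' y F μ hl, 𝔖.node _ (𝔖.pad _ h1 β hβ) _ _ _ _, s, {s}, s.sup Nat.succ, ∅, 0⟩,
      ⟨(at_root hA hl hβF).1, fun z hz => e1_inv_root (hR z hz), hm⟩, (at_le hl).trans (pad_le _ _)⟩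
  obtain ⟨x0, hx0⟩ := q.pts_nonempty
  obtain ⟨j0, -⟩ := hpt x0 hx0
  have hne : Nonempty (e1_St 𝔖) := ⟨j0⟩
  obtain ⟨f, hf, h'⟩ := selection q
    (fun j : e1_St 𝔖 => {x | w x ∈ {u | At β j.w ∧ (∀ y ∈ j.w.pts, Inv (j.w.val β y).T j.s0 j.S j.m) ∧ j.w ≤ u}} ∩
      {x | Meets q x (j.w.lt β)})
    (fun j => (LC.opn hw _).inter (Meets.opn q _))
    (fun x hx => by
      obtain ⟨j, h1, h2⟩ := hpt x hx
      exact ⟨j, ⟨h1.at', h1.inv, h2⟩, h1.meets⟩)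
  exact ⟨f, hf, fun x hx => ⟨(h' x hx).1.1, (h' x hx).1.2.1, (h' x hx).2⟩, fun x hx => (h' x hx).1.2.2⟩

theorem e1_LC_congr {W : Type*} {q : Cond L} {w w' : Pt L → W} (h : LC q w)
    (he : ∀ x ∈ q.pts, w' x = w x) : LC q w' := by
  intro x hx
  obtain ⟨F, m, hl, h1⟩ := h x hx
  refine ⟨F, m, hl, fun y hy => ?_⟩
  rw [he x hx, he y (pts_mono (at_le hl) hy), h1 y hy]

theorem e1_off {p : Cond L} {β ξ : L} (hp : p.In (Iic β)) (h : β < ξ) (x : Pt L) :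
    p.val ξ x = QC.one :=
  p.off ξ (fun hξ => absurd (hp hξ) (not_le.2 h)) x

theorem succ_step (𝔖 : Sys 𝔸 L) {β : L} (hβ : β ∈ 𝔖.B) (hF : FrontP 𝔸 β) :
    ExtS 𝔖 β (Iic β) (isLowerSet_Iic β) := by
  intro q hqI hgen w hw hwx
  -- the dense sets
  have hc : {D | D ∈ 𝔖.DD ∧ DOL (Iic β) (isLowerSet_Iic β) D}.Countable :=
    𝔖.cDD.mono fun D hD => hD.1
  have huniv : DOL (Iic β) (isLowerSet_Iic β) (univ : DSet 𝔸 L) :=
    ⟨fun a p => ⟨a, le_rfl, p, le_rfl, mem_univ _⟩, fun _ _ _ _ _ _ _ => mem_univ _,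
      fun _ _ => ⟨fun _ => mem_univ _, fun _ => mem_univ _⟩⟩
  obtain ⟨D, hDr⟩ := hc.exists_eq_range ⟨univ, 𝔖.top, huniv⟩
  have hDk : ∀ k, D k ∈ 𝔖.DD ∧ DOL (Iic β) (isLowerSet_Iic β) (D k) := by
    intro k
    have : D k ∈ range D := ⟨k, rfl⟩
    rw [← hDr] at this
    exact this
  obtain ⟨D', hD'⟩ : ∃ D' : ℕ → DSet 𝔸 L, ∀ k, D' k ∈ 𝔖.DD ∧
      DOL (Iic β) (isLowerSet_Iic β) (D' k) ∧ D' k ⊆ D k :=
    ⟨D, fun k => ⟨(hDk k).1, (hDk k).2, subset_rfl⟩⟩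
  -- the functions
  obtain ⟨f0, hf0, hg0, hle0⟩ := e1_start 𝔖 hβ w hw hwx
  let X := {f : Pt L → e1_St 𝔖 // LC q f ∧ ∀ x ∈ q.pts, e1_Good 𝔖 β q x (f x)}
  have hnext : ∀ (k : ℕ) (f : X), ∃ f' : X, ∀ x ∈ q.pts, e1_Next 𝔖 β (D' k) k (f.1 x) (f'.1 x) := by
    intro k f
    obtain ⟨f', h1, h2, h3⟩ := e1_step' 𝔖 hβ hF (hD' k).1 (hD' k).2.1 k hgen f.1 f.2.1 f.2.2
    exact ⟨⟨f', h1, h2⟩, h3⟩
  choose nx hnx using hnext
  obtain ⟨G, hG0, hGs⟩ : ∃ G : ℕ → X, G 0 = ⟨f0, hf0, hg0⟩ ∧ ∀ k, G (k + 1) = nx k (G k) :=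
    ⟨fun k => Nat.rec ⟨f0, hf0, hg0⟩ (fun k f => nx k f) k, rfl, fun _ => rfl⟩
  have hstep : ∀ k, ∀ x ∈ q.pts, e1_Next 𝔖 β (D' k) k ((G k).1 x) ((G (k + 1)).1 x) := by
    intro k x hx
    rw [hGs]
    exact hnx k (G k) x hx
  have hgood : ∀ k, ∀ x ∈ q.pts, e1_Good 𝔖 β q x ((G k).1 x) := fun k => (G k).2.2
  have hLC : ∀ k, LC q (G k).1 := fun k => (G k).2.1
  have hs0 : ∀ k, ∀ x ∈ q.pts, ((G k).1 x).s0 = ((G 0).1 x).s0 := by
    intro k x hx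
    induction k with
    | zero => rfl
    | succ k ih => rw [(hstep k x hx).eq, ih]
  -- pointwise fusion
  have hmem : ∀ k, ∀ x ∈ q.pts, x ∈ (((G k).1 x).w.lt β).pts := fun k x hx =>
    (hgood k x hx).meets.mem hx
  have hinv0 : ∀ x ∈ q.pts, Inv (((G 0).1 x).w.val β x).T ((G 0).1 x).s0 ((G 0).1 x).S ((G 0).1 x).m := by
    intro x hx
    obtain ⟨y, hy, hyx⟩ := exists_point (hmem 0 x hx)
    have := (hgood 0 x hx).inv y hy
    rwa [val_congr hyx] at this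
  have hQ : ∀ x ∈ q.pts, ∀ k, IsQ (((G k).1 x).w.val β x) := fun x hx k => isQ_lt (hmem k x hx)
  have hfs : ∀ x ∈ q.pts, ∀ k, Step k ((G 0).1 x).s0 (((G k).1 x).w.val β x) ((G k).1 x).S
      ((G k).1 x).m ((G (k + 1)).1 x).E (((G (k + 1)).1 x).w.val β x) ((G (k + 1)).1 x).S
      ((G (k + 1)).1 x).m := by
    intro x hx k
    obtain ⟨y, hy, hyx⟩ := exists_point (hmem (k + 1) x hx)
    have := (hstep k x hx).stage.step y hy
    rw [val_congr hyx, val_congr hyx, hs0 k x hx] at this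
    exact this
  set R : Pt L → QC := fun x => ⟨⋃ k, (((G k).1 x).S : Set Fs), ⋃ k, (((G (k + 1)).1 x).E : Set Fs)⟩ with hR
  have hlim : ∀ x ∈ q.pts, IsQ (R x) ∧ ∀ k, QLe (R x) (((G k).1 x).w.val β x) := by
    intro x hx
    have := fusion_limit ((G 0).1 x).s0 (fun k => ((G k).1 x).w.val β x) (fun k => ((G k).1 x).S)
      (fun k => ((G k).1 x).m) (fun k => ((G (k + 1)).1 x).E) (hinv0 x hx) (hQ x hx) (hfs x hx)
    exact ⟨this.1, this.2.2.1⟩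
  have hmemR : ∀ x ∈ q.pts, ∀ (t : Fs) (k : ℕ), (∀ j ∈ t, j < k) →
      ((t ∈ (R x).T) ↔ t ∈ ((G k).1 x).S) ∧ ((t ∈ (R x).C) ↔ ∃ i < k, t ∈ ((G (i + 1)).1 x).E) :=
    fun x hx t k hk => fusion_limit_mem ((G 0).1 x).s0 (fun k => ((G k).1 x).w.val β x)
      (fun k => ((G k).1 x).S) (fun k => ((G k).1 x).m) (fun k => ((G (k + 1)).1 x).E)
      (hinv0 x hx) (hfs x hx) t k hk
  have hCQ : CQ q R := by
    intro t
    have hk : ∀ j ∈ t, j < t.sup Nat.succ := fun j hj => lt_sup hj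
    constructor
    · refine e1_LC_congr ((hLC (t.sup Nat.succ)).comp fun j => t ∈ j.S) fun x hx => ?_
      exact propext (hmemR x hx t _ hk).1
    · refine e1_LC_congr (w := fun x => ∃ i < t.sup Nat.succ, t ∈ ((G (i + 1)).1 x).E) ?_ fun x hx =>
        propext (hmemR x hx t _ hk).2
      intro x hx
      obtain ⟨F, m, hl, h1⟩ := LC.finite (fun (i : ℕ) x => t ∈ ((G (i + 1)).1 x).E)
        (fun i => (hLC (i + 1)).comp fun j => t ∈ j.E) (Finset.range (t.sup Nat.succ)) hx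
      refine ⟨F, m, hl, fun y hy => propext ?_⟩
      constructor
      · rintro ⟨i, hi, h⟩
        exact ⟨i, hi, (h1 i (Finset.mem_range.2 hi) y hy).mp h⟩
      · rintro ⟨i, hi, h⟩
        exact ⟨i, hi, (h1 i (Finset.mem_range.2 hi) y hy).mpr h⟩
  obtain ⟨r, hrq, hrs, hrv⟩ := exists_add hqI R hCQ fun x hx => (hlim x hx).1
  have hrI : r.In (Iic β) := by
    intro ξ hξ
    rw [hrs] at hξ
    rcases hξ with rfl | hξ
    · exact le_rfl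
    · exact le_of_lt (hqI hξ)
  have hβr : β ∈ r.supp := by rw [hrs]; exact mem_insert _ _
  have hrq' : ∀ x ∈ r.pts, x ∈ q.pts := fun x hx => by rw [← hrq]; exact mem_lt hx β
  have hdiff : ∀ u : Cond L, u.In (Iic β) → u.supp \ Iio β ⊆ r.supp := by
    intro u hu ξ hξ
    have h1 : ξ ≤ β := hu hξ.1
    have h2 : ¬ ξ < β := hξ.2
    rw [le_antisymm h1 (not_lt.1 h2)]
    exact hβr
  have hQLe : ∀ k, ∀ x ∈ r.pts, ∀ ξ, β ≤ ξ → QLe (r.val ξ x) (((G k).1 x).w.val ξ x) := by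
    intro k x hx ξ hξ
    rcases hξ.eq_or_lt with rfl | hξ
    · rw [hrv x (hrq' x hx)]
      exact (hlim x (hrq' x hx)).2 k
    · rw [e1_off hrI hξ, e1_off (hgood k x (hrq' x hx)).at'.le hξ]
      exact QLe.refl _
  have hmeets : ∀ k, ∀ x ∈ r.pts, Meets r x (((G k).1 x).w) := fun k x hx =>
    meets_of_ext (w := fun x => ((G k).1 x).w) hrq ((hLC k).comp fun j => j.w)
      (fun x hx => (hgood k x hx).meets) (hQLe k) (fun x hx => hdiff _ (hgood k x hx).at'.le) hx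
  refine ⟨r, hrI, hrq, ?_, ?_, fun x hx => hdiff _ (hwx x hx).2.1⟩
  · intro x hx E hE hEO
    have : E ∈ {D | D ∈ 𝔖.DD ∧ DOL (Iic β) (isLowerSet_Iic β) D} := ⟨hE, hEO⟩
    rw [hDr] at this
    obtain ⟨k, rfl⟩ := this
    have hxq := hrq' x hx
    have hm := hmeets (k + 1) x hx
    obtain ⟨F, m, hl, hd⟩ := (hstep k x hxq).stage.front x (hm.mem hx)
    exact ⟨_, _, 𝔖.node _ ((G (k + 1)).1 x).hw _ _ _ hl, (hD' k).2.2 hd, hm.at hx hl⟩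
  · intro x hx ξ hξ
    have hxq := hrq' x hx
    rcases hξ.eq_or_lt with rfl | hξ'
    · have h1 := hQLe 0 x hx β le_rfl
      refine h1.trans (QLe_lt ?_ (hmem 0 x hxq))
      rw [hG0]
      exact hle0 x hxq
    · rw [e1_off hrI hξ', e1_off (hwx x hxq).2.1 hξ']
      exact QLe.refl _

end E8
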