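import Pool.Agent.Lib.MP_e8be47_lc.DBasic

/-!
# existence of closed systems
-/

open Set Classical

set_option linter.unusedSectionVars false

namespace E8

private theorem DS_closure {Ω : Type*} (F : List Ω → Set Ω) (hF : ∀ l, (F l).Countable) {A : Set Ω}
    (hA : A.Countable) :
    ∃ N : Set Ω, A ⊆ N ∧ N.Countable ∧ ∀ l : List Ω, (∀ a ∈ l, a ∈ N) → F l ⊆ N := by
  let stp : Set Ω → Set Ω := fun M => M ∪ ⋃ l ∈ {l : List Ω | ∀ a ∈ l, a ∈ M}, F l
  let M : ℕ → Set Ω := fun n => Nat.rec A (fun _ X => stp X) n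
  have hM0 : M 0 = A := rfl
  have hMs : ∀ n, M (n + 1) = M n ∪ ⋃ l ∈ {l : List Ω | ∀ a ∈ l, a ∈ M n}, F l := fun n => rfl
  have hlist : ∀ X : Set Ω, X.Countable → {l : List Ω | ∀ a ∈ l, a ∈ X}.Countable := by
    intro X hX
    haveI := hX.to_subtype
    refine (Set.countable_range (fun l : List X => l.map Subtype.val)).mono ?_
    intro l hl
    refine ⟨l.attach.map (fun a => ⟨a.1, hl a.1 a.2⟩), ?_⟩
    simp only [List.map_map]
    exact List.attach_map_subtype_val l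
  have hMc : ∀ n, (M n).Countable := by
    intro n
    induction n with
    | zero => exact hA
    | succ n ih =>
      rw [hMs]
      exact ih.union ((hlist _ ih).biUnion (fun l _ => hF l))
  have hmono : Monotone M := by
    apply monotone_nat_of_le_succ
    intro n
    rw [hMs]
    exact subset_union_left
  refine ⟨⋃ n, M n, ?_, Set.countable_iUnion hMc, ?_⟩
  · rw [← hM0]
    exact subset_iUnion M 0
  · intro l hl
    have h1 : ∃ n, ∀ a ∈ l, a ∈ M n := by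
      induction l with
      | nil => exact ⟨0, fun a ha => absurd ha List.not_mem_nil⟩
      | cons b l ih =>
        obtain ⟨n, hn⟩ := ih (fun a ha => hl a (List.mem_cons_of_mem _ ha))
        obtain ⟨k, hk⟩ := mem_iUnion.1 (hl b List.mem_cons_self)
        refine ⟨max n k, ?_⟩
        intro a ha
        rcases List.mem_cons.1 ha with rfl | ha
        · exact hmono (le_max_right _ _) hk
        · exact hmono (le_max_left _ _) (hn a ha)
    obtain ⟨n, hn⟩ := h1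
    intro o ho
    refine mem_iUnion.2 ⟨n + 1, ?_⟩
    rw [hMs]
    exact Or.inr (mem_biUnion (show l ∈ {l : List Ω | ∀ a ∈ l, a ∈ M n} from hn) ho)

/-- closure of a countable set under countably many finitary functions -/
theorem exists_closure {Ω : Type*} (f : ℕ → List Ω → Ω) {A : Set Ω} (hA : A.Countable) :
    ∃ N : Set Ω, A ⊆ N ∧ N.Countable ∧ ∀ n, ∀ l : List Ω, (∀ a ∈ l, a ∈ N) → f n l ∈ N := by
  obtain ⟨N, h1, h2, h3⟩ := DS_closure (fun l => range fun n => f n l)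
    (fun l => countable_range _) hA
  exact ⟨N, h1, h2, fun n l hl => h3 l hl ⟨n, rfl⟩⟩

variable {𝔸 : Type} [Tow 𝔸] {L : Type} [LinearOrder L] [WellFoundedLT L] [OrderBot L]

open Cond

/-- all finite restrictions -/
private def DS_nodes (p : Cond L) : Set (Cond L) :=
  {v | ∃ F s m, ∃ h : p.Legal F s m, v = p.node F s m h}

private theorem DS_nodes_countable (p : Cond L) : (DS_nodes p).Countable := by
  have h1 : {F : Finset L | (F : Set L) ⊆ p.supp}.Countable := by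
    haveI := p.csupp.to_subtype
    refine (Set.countable_range (fun F : Finset p.supp => F.map (Function.Embedding.subtype _))).mono ?_
    intro F hF
    refine ⟨F.subtype (· ∈ p.supp), ?_⟩
    exact Finset.subtype_map_of_mem hF
  let e : (F : Finset L) → (F → Fs × ℕ) → L → Fs × ℕ := fun F f ξ =>
    if h : ξ ∈ F then f ⟨ξ, h⟩ else (∅, 0)
  let T : Finset L → Set (Cond L) := fun F => range fun f : F → Fs × ℕ =>
    if h : p.Legal F (fun ξ => (e F f ξ).1) (fun ξ => (e F f ξ).2) then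
      p.node F (fun ξ => (e F f ξ).1) (fun ξ => (e F f ξ).2) h else p
  have h2 : (⋃ F ∈ {F : Finset L | (F : Set L) ⊆ p.supp}, T F).Countable :=
    h1.biUnion (fun F _ => countable_range _)
  refine h2.mono ?_
  rintro v ⟨F, s, m, h, rfl⟩
  refine mem_biUnion (show F ∈ {F : Finset L | (F : Set L) ⊆ p.supp} from h.sub) ?_
  have he : ∀ ξ ∈ F, e F (fun ξ => (s ξ, m ξ)) ξ = (s ξ, m ξ) := fun ξ hξ => dif_pos hξ
  have hL : p.Legal F (fun ξ => (e F (fun ξ => (s ξ, m ξ)) ξ).1)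
      (fun ξ => (e F (fun ξ => (s ξ, m ξ)) ξ).2) := by
    refine ⟨h.sub, ?_, ?_⟩
    · intro ξ hξ k hk
      simp only [he ξ hξ] at hk ⊢
      exact h.lt ξ hξ k hk
    · intro ξ hξ x hx
      simp only [he ξ hξ]
      refine h.mem ξ hξ x (fun η hη => ⟨(hx η hη).1, fun hηF => ?_⟩)
      have := (hx η hη).2 hηF
      simp only [he η hηF] at this
      exact this
  refine ⟨fun ξ => (s ξ, m ξ), ?_⟩
  simp only [dif_pos hL]
  ext1
  · funext ξ x
    rw [node_val, node_val]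
    by_cases hξ : ξ ∈ F
    · simp only [if_pos hξ, he ξ hξ]
    · simp only [if_neg hξ]
  · rfl

private inductive DS_Obj (𝔸 L St : Type) [LinearOrder L]
  | A (a : 𝔸)
  | P (p : Cond L)
  | B (β : L)
  | D (D : DSet 𝔸 L)
  | S (s : St)

private instance : Nonempty (Cond L) := ⟨Cond.one L⟩

private noncomputable def DS_wit_lt (D : DSet 𝔸 L) (w : Cond L) (β : L) (a : 𝔸) (v : Cond L) : Cond L :=
  epsilon fun e => e ≤ w ∧ (a, e) ∈ D ∧ v.lt β ≤ e.lt β

private noncomputable def DS_wit_le (D : DSet 𝔸 L) (w : Cond L) (β : L) (a : 𝔸) (v : Cond L) : Cond L :=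
  epsilon fun e => e ≤ w ∧ (a, e) ∈ D ∧ v.le β ≤ e.le β

private noncomputable def DS_wit_st (D : DSet 𝔸 L) (w : Cond L) (β : L) (a : 𝔸) (v : Cond L)
    (t : ℕ × Fs × Finset Fs × ℕ) : Cond L :=
  epsilon fun w' => ∃ S' m' E, Stage β t.1 D a t.2.1 w t.2.2.1 t.2.2.2 E w' S' m' ∧ v.lt β ≤ w'.lt β

private noncomputable def DS_nxt (D : DSet 𝔸 L) (a : 𝔸) : 𝔸 :=
  if h : ∃ a' ≤ a, (a', Cond.one L) ∈ D then h.choose else a

private theorem DS_nxt_le (D : DSet 𝔸 L) (a : 𝔸) : DS_nxt D a ≤ a := by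
  unfold DS_nxt
  split
  · next h => exact h.choose_spec.1
  · exact le_rfl

private theorem DS_nxt_mem {D : DSet 𝔸 L} {a : 𝔸} (h : ∃ a' ≤ a, (a', Cond.one L) ∈ D) :
    (DS_nxt D a, Cond.one L) ∈ D := by
  unfold DS_nxt
  rw [dif_pos h]
  exact h.choose_spec.2

private noncomputable def DS_F {St : Type} (g : ℕ → St → 𝔸 → Cond L → St) (d : ℕ → St → DSet 𝔸 L)
    (pc : St → Cond L) : List (DS_Obj 𝔸 L St) → Set (DS_Obj 𝔸 L St)
  | [.P p] => (DS_Obj.B '' p.supp) ∪ (DS_Obj.P '' DS_nodes p)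
  | [.P p, .B β] => {.P (p.lt β), .P (p.le β), .P (p.pad β)}
  | [.D D1, .D D2] => {.D (D1 ∩ D2)}
  | [.D D1, .P w, .B β] =>
      {.D (Lift D1 w (Iio β) (isLowerSet_Iio β)), .D (Lift D1 w (Iic β) (isLowerSet_Iic β))} ∪
        range (fun t : ℕ × Fs × Finset Fs × ℕ => DS_Obj.D (StageD β t.1 D1 t.2.1 w t.2.2.1 t.2.2.2))
  | [.D D1, .P w, .B β, .A a, .P v] =>
      {.P (DS_wit_lt D1 w β a v), .P (DS_wit_le D1 w β a v)} ∪
        range (fun t : ℕ × Fs × Finset Fs × ℕ => DS_Obj.P (DS_wit_st D1 w β a v t))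
  | [.S s] => range (fun n => DS_Obj.D (d n s)) ∪ {.P (pc s)}
  | [.S s, .A a, .P v] => range (fun n => DS_Obj.S (g n s a v))
  | [.D D1, .A a] => {.A (DS_nxt D1 a)}
  | _ => ∅

private theorem DS_F_countable {St : Type} (g : ℕ → St → 𝔸 → Cond L → St) (d : ℕ → St → DSet 𝔸 L)
    (pc : St → Cond L) (l : List (DS_Obj 𝔸 L St)) : (DS_F g d pc l).Countable := by
  unfold DS_F
  split
  · next p => exact (p.csupp.image _).union ((DS_nodes_countable p).image _)
  · exact ((countable_singleton _).insert _).insert _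
  · exact countable_singleton _
  · exact ((countable_singleton _).insert _).union (countable_range _)
  · exact ((countable_singleton _).insert _).union (countable_range _)
  · exact (countable_range _).union (countable_singleton _)
  · exact countable_range _
  · exact countable_singleton _
  · exact countable_empty

/-- Existence of closed systems containing `a0, p0`, together with a countable set `NS` of states
closed under given functions `g`, whose dense sets `d n s` are in the system. -/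
theorem exists_sys {St : Type} (g : ℕ → St → 𝔸 → Cond L → St) (d : ℕ → St → DSet 𝔸 L)
    (pc : St → Cond L) (s0 : St) (a0 : 𝔸) (p0 : Cond L) (B0 : Set L) (hB0 : B0.Countable) :
    ∃ 𝔖 : Sys 𝔸 L, ∃ NS : Set St, NS.Countable ∧ s0 ∈ NS ∧ p0 ∈ 𝔖.NP ∧ B0 ⊆ 𝔖.B ∧
      𝔖.hs 0 ≤ a0 ∧
      (∀ n, ∀ s ∈ NS, ∀ a ∈ 𝔖.NA, ∀ v ∈ 𝔖.NP, g n s a v ∈ NS) ∧
      (∀ n, ∀ s ∈ NS, d n s ∈ 𝔖.DD) ∧ (∀ s ∈ NS, pc s ∈ 𝔖.NP) := by
  have hA0 : (({.A a0, .P (Cond.one L), .P p0, .B ⊥, .D univ, .S s0} : Set (DS_Obj 𝔸 L St)) ∪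
      DS_Obj.B '' B0).Countable := by
    refine Set.Countable.union ?_ (hB0.image _)
    exact (Set.toFinite _).countable
  obtain ⟨N, hAN, hN, hcl⟩ := DS_closure (DS_F g d pc) (DS_F_countable g d pc) hA0
  have hA : (DS_Obj.A a0 : DS_Obj 𝔸 L St) ∈ N := hAN (Or.inl (by simp))
  have hone : (DS_Obj.P (Cond.one L) : DS_Obj 𝔸 L St) ∈ N := hAN (Or.inl (by simp))
  have hp0 : (DS_Obj.P p0 : DS_Obj 𝔸 L St) ∈ N := hAN (Or.inl (by simp))
  have hbot : (DS_Obj.B ⊥ : DS_Obj 𝔸 L St) ∈ N := hAN (Or.inl (by simp))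
  have huniv : (DS_Obj.D univ : DS_Obj 𝔸 L St) ∈ N := hAN (Or.inl (by simp))
  have hs0 : (DS_Obj.S s0 : DS_Obj 𝔸 L St) ∈ N := hAN (Or.inl (by simp))
  have k1 : ∀ p : Cond L, (DS_Obj.P p : DS_Obj 𝔸 L St) ∈ N →
      (∀ β ∈ p.supp, (DS_Obj.B β : DS_Obj 𝔸 L St) ∈ N) ∧
      ∀ v ∈ DS_nodes p, (DS_Obj.P v : DS_Obj 𝔸 L St) ∈ N := by
    intro p hp
    have h1 := hcl [.P p] (by
      intro o ho
      rw [List.mem_singleton.1 ho]
      exact hp)
    exact ⟨fun β hβ => h1 (Or.inl ⟨β, hβ, rfl⟩), fun v hv => h1 (Or.inr ⟨v, hv, rfl⟩)⟩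
  have k2 : ∀ p : Cond L, (DS_Obj.P p : DS_Obj 𝔸 L St) ∈ N → ∀ β, (DS_Obj.B β : DS_Obj 𝔸 L St) ∈ N →
      (DS_Obj.P (p.lt β) : DS_Obj 𝔸 L St) ∈ N ∧ (DS_Obj.P (p.le β) : DS_Obj 𝔸 L St) ∈ N ∧
      (DS_Obj.P (p.pad β) : DS_Obj 𝔸 L St) ∈ N := by
    intro p hp β hβ
    have h1 := hcl [.P p, .B β] (by
      intro o ho
      simp only [List.mem_cons, List.not_mem_nil, or_false] at ho
      rcases ho with rfl | rfl
      · exact hp
      · exact hβ)
    exact ⟨h1 (Or.inl rfl), h1 (Or.inr (Or.inl rfl)), h1 (Or.inr (Or.inr rfl))⟩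
  have k3 : ∀ D1 : DSet 𝔸 L, (DS_Obj.D D1 : DS_Obj 𝔸 L St) ∈ N → ∀ D2 : DSet 𝔸 L,
      (DS_Obj.D D2 : DS_Obj 𝔸 L St) ∈ N → (DS_Obj.D (D1 ∩ D2) : DS_Obj 𝔸 L St) ∈ N := by
    intro D1 h1 D2 h2
    exact hcl [.D D1, .D D2] (by
      intro o ho
      simp only [List.mem_cons, List.not_mem_nil, or_false] at ho
      rcases ho with rfl | rfl
      · exact h1
      · exact h2) rfl
  have k4 : ∀ D1 : DSet 𝔸 L, (DS_Obj.D D1 : DS_Obj 𝔸 L St) ∈ N → ∀ w : Cond L,
      (DS_Obj.P w : DS_Obj 𝔸 L St) ∈ N → ∀ β, (DS_Obj.B β : DS_Obj 𝔸 L St) ∈ N →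
      (DS_Obj.D (Lift D1 w (Iio β) (isLowerSet_Iio β)) : DS_Obj 𝔸 L St) ∈ N ∧
      (DS_Obj.D (Lift D1 w (Iic β) (isLowerSet_Iic β)) : DS_Obj 𝔸 L St) ∈ N ∧
      ∀ k s1 S m, (DS_Obj.D (StageD β k D1 s1 w S m) : DS_Obj 𝔸 L St) ∈ N := by
    intro D1 h1 w hw β hβ
    have h2 := hcl [.D D1, .P w, .B β] (by
      intro o ho
      simp only [List.mem_cons, List.not_mem_nil, or_false] at ho
      rcases ho with rfl | rfl | rfl
      · exact h1
      · exact hw
      · exact hβ)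
    exact ⟨h2 (Or.inl (Or.inl rfl)), h2 (Or.inl (Or.inr rfl)), fun k s1 S m =>
      h2 (Or.inr ⟨(k, s1, S, m), rfl⟩)⟩
  have k5 : ∀ D1 : DSet 𝔸 L, (DS_Obj.D D1 : DS_Obj 𝔸 L St) ∈ N → ∀ w : Cond L,
      (DS_Obj.P w : DS_Obj 𝔸 L St) ∈ N → ∀ β, (DS_Obj.B β : DS_Obj 𝔸 L St) ∈ N →
      ∀ a, (DS_Obj.A a : DS_Obj 𝔸 L St) ∈ N → ∀ v : Cond L, (DS_Obj.P v : DS_Obj 𝔸 L St) ∈ N →
      (DS_Obj.P (DS_wit_lt D1 w β a v) : DS_Obj 𝔸 L St) ∈ N ∧
      (DS_Obj.P (DS_wit_le D1 w β a v) : DS_Obj 𝔸 L St) ∈ N ∧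
      ∀ t, (DS_Obj.P (DS_wit_st D1 w β a v t) : DS_Obj 𝔸 L St) ∈ N := by
    intro D1 h1 w hw β hβ a ha v hv
    have h2 := hcl [.D D1, .P w, .B β, .A a, .P v] (by
      intro o ho
      simp only [List.mem_cons, List.not_mem_nil, or_false] at ho
      rcases ho with rfl | rfl | rfl | rfl | rfl
      · exact h1
      · exact hw
      · exact hβ
      · exact ha
      · exact hv)
    exact ⟨h2 (Or.inl (Or.inl rfl)), h2 (Or.inl (Or.inr rfl)), fun t => h2 (Or.inr ⟨t, rfl⟩)⟩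
  have k6 : ∀ s, (DS_Obj.S s : DS_Obj 𝔸 L St) ∈ N →
      (∀ n, (DS_Obj.D (d n s) : DS_Obj 𝔸 L St) ∈ N) ∧ (DS_Obj.P (pc s) : DS_Obj 𝔸 L St) ∈ N := by
    intro s hs
    have h1 := hcl [.S s] (by
      intro o ho
      rw [List.mem_singleton.1 ho]
      exact hs)
    exact ⟨fun n => h1 (Or.inl ⟨n, rfl⟩), h1 (Or.inr rfl)⟩
  have k7 : ∀ s, (DS_Obj.S s : DS_Obj 𝔸 L St) ∈ N → ∀ a, (DS_Obj.A a : DS_Obj 𝔸 L St) ∈ N →
      ∀ v, (DS_Obj.P v : DS_Obj 𝔸 L St) ∈ N → ∀ n, (DS_Obj.S (g n s a v) : DS_Obj 𝔸 L St) ∈ N := by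
    intro s hs a ha v hv n
    exact hcl [.S s, .A a, .P v] (by
      intro o ho
      simp only [List.mem_cons, List.not_mem_nil, or_false] at ho
      rcases ho with rfl | rfl | rfl
      · exact hs
      · exact ha
      · exact hv) ⟨n, rfl⟩
  have k8 : ∀ D1 : DSet 𝔸 L, (DS_Obj.D D1 : DS_Obj 𝔸 L St) ∈ N → ∀ a,
      (DS_Obj.A a : DS_Obj 𝔸 L St) ∈ N → (DS_Obj.A (DS_nxt D1 a) : DS_Obj 𝔸 L St) ∈ N := by
    intro D1 h1 a ha
    exact hcl [.D D1, .A a] (by
      intro o ho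
      simp only [List.mem_cons, List.not_mem_nil, or_false] at ho
      rcases ho with rfl | rfl
      · exact h1
      · exact ha) rfl
  have cA : {a | (DS_Obj.A a : DS_Obj 𝔸 L St) ∈ N}.Countable :=
    hN.preimage_of_injOn (f := fun a => (DS_Obj.A a : DS_Obj 𝔸 L St))
      (fun a _ b _ h => by injection h)
  have cP : {p | (DS_Obj.P p : DS_Obj 𝔸 L St) ∈ N}.Countable :=
    hN.preimage_of_injOn (f := fun a => (DS_Obj.P a : DS_Obj 𝔸 L St))
      (fun a _ b _ h => by injection h)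
  have cB : {p | (DS_Obj.B p : DS_Obj 𝔸 L St) ∈ N}.Countable :=
    hN.preimage_of_injOn (f := fun a => (DS_Obj.B a : DS_Obj 𝔸 L St))
      (fun a _ b _ h => by injection h)
  have cD : {p | (DS_Obj.D p : DS_Obj 𝔸 L St) ∈ N}.Countable :=
    hN.preimage_of_injOn (f := fun a => (DS_Obj.D a : DS_Obj 𝔸 L St))
      (fun a _ b _ h => by injection h)
  have cS : {p | (DS_Obj.S p : DS_Obj 𝔸 L St) ∈ N}.Countable :=
    hN.preimage_of_injOn (f := fun a => (DS_Obj.S a : DS_Obj 𝔸 L St))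
      (fun a _ b _ h => by injection h)
  obtain ⟨en, hen⟩ := cD.exists_eq_range ⟨univ, huniv⟩
  have henN : ∀ n, (DS_Obj.D (en n) : DS_Obj 𝔸 L St) ∈ N := by
    intro n
    have : en n ∈ {p | (DS_Obj.D p : DS_Obj 𝔸 L St) ∈ N} := by rw [hen]; exact ⟨n, rfl⟩
    exact this
  let hs : ℕ → 𝔸 := fun n => Nat.rec a0 (fun n a => DS_nxt (en n) a) n
  have hss : ∀ n, hs (n + 1) = DS_nxt (en n) (hs n) := fun n => rfl
  have hsN : ∀ n, (DS_Obj.A (hs n) : DS_Obj 𝔸 L St) ∈ N := by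
    intro n
    induction n with
    | zero => exact hA
    | succ n ih => rw [hss]; exact k8 _ (henN n) _ ih
  refine ⟨{ NA := {a | (DS_Obj.A a : DS_Obj 𝔸 L St) ∈ N}
            NP := {p | (DS_Obj.P p : DS_Obj 𝔸 L St) ∈ N}
            B := {p | (DS_Obj.B p : DS_Obj 𝔸 L St) ∈ N}
            DD := {p | (DS_Obj.D p : DS_Obj 𝔸 L St) ∈ N}
            cNA := cA
            cNP := cP
            cB := cB
            cDD := cD
            one := hone
            bot := hbot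
            supp := fun p hp β hβ => (k1 p hp).1 β hβ
            lt := fun p hp β hβ => (k2 p hp β hβ).1
            le := fun p hp β hβ => (k2 p hp β hβ).2.1
            node := fun p hp F s m h => (k1 p hp).2 _ ⟨F, s, m, h, rfl⟩
            pad := fun p hp β hβ => (k2 p hp β hβ).2.2
            top := huniv
            inter := fun D hD D' hD' => k3 D hD D' hD'
            lift_lt := fun D hD w hw β hβ => (k4 D hD w hw β hβ).1
            lift_le := fun D hD w hw β hβ => (k4 D hD w hw β hβ).2.1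
            wit_lt := ?_
            wit_le := ?_
            stage := fun D hD w hw β hβ k s0 S m => (k4 D hD w hw β hβ).2.2 k s0 S m
            wit_stage := ?_
            hs := hs
            anti := antitone_nat_of_succ_le (fun n => by rw [hss]; exact DS_nxt_le _ _)
            hsN := hsN
            gen := ?_ }, {s | (DS_Obj.S s : DS_Obj 𝔸 L St) ∈ N}, cS, hs0, hp0, ?_, le_refl a0,
            fun n s hs a ha v hv => k7 s hs a ha v hv n, fun n s hs => (k6 s hs).1 n,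
            fun s hs => (k6 s hs).2⟩
  · rintro D hD w hw β hβ a ha v hv h
    exact ⟨DS_wit_lt D w β a v, (k5 D hD w hw β hβ a ha v hv).1, epsilon_spec h⟩
  · rintro D hD w hw β hβ a ha v hv h
    exact ⟨DS_wit_le D w β a v, (k5 D hD w hw β hβ a ha v hv).2.1, epsilon_spec h⟩
  · rintro D hD w hw β hβ k s1 S m a ha v hv h
    exact ⟨DS_wit_st D w β a v (k, s1, S, m), (k5 D hD w hw β hβ a ha v hv).2.2 (k, s1, S, m),
      epsilon_spec (p := fun w' => ∃ S' m' E, Stage β k D a s1 w S m E w' S' m' ∧ v.lt β ≤ w'.lt β) h⟩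
  · intro D hD hDOL
    have hD' : D ∈ range en := by rw [← hen]; exact hD
    obtain ⟨n, rfl⟩ := hD'
    refine ⟨n + 1, ?_⟩
    rw [hss]
    apply DS_nxt_mem
    obtain ⟨a', ha', p', hp', h1⟩ := hDOL.dns (hs n) (Cond.one L)
    refine ⟨a', ha', ?_⟩
    have h2 := (hDOL.loc a' p').1 h1
    have h3 : p'.restr (∅ : Set L) isLowerSet_empty = Cond.one L := by
      ext1
      · funext ξ x
        rw [restr_val_off p' (Set.notMem_empty ξ)]
        rfl
      · rw [restr_supp, Set.inter_empty]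
        rfl
    rw [h3] at h2
    exact h2
  · intro β hβ
    exact hAN (Or.inr ⟨β, hβ, rfl⟩)

end E8
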