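import Pool.Agent.Lib.MP_e8be47_lc.DDef

/-!
# auxiliary lemmas used in all later rows (each a few lines)
-/

open Set Classical

set_option linter.unusedSectionVars false

namespace E8

variable {L : Type} [LinearOrder L] [WellFoundedLT L]

open Cond

namespace Cond

theorem le_one (p : Cond L) : p ≤ one L := by
  refine ⟨empty_subset _, fun x hx ξ => ⟨subset_univ _, 0, fun c hc _ => ?_⟩⟩
  obtain ⟨k, hk⟩ := (p.isQ' hx ξ).large.1 c hc
  exact ⟨{k}, ⟨k, rfl⟩, Finset.singleton_subset_iff.2 hk⟩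

theorem node_congr {p : Cond L} {F : Finset L} {s s' : L → Fs} {m m' : L → ℕ}
    (h : Legal p F s m) (hs : ∀ ξ ∈ F, s ξ = s' ξ) (hm : ∀ ξ ∈ F, m ξ = m' ξ) :
    ∃ h' : Legal p F s' m', p.node F s' m' h' = p.node F s m h := by
  refine ⟨⟨h.sub, fun ξ hξ k hk => ?_, fun ξ hξ x hx => ?_⟩, ?_⟩
  · rw [← hs ξ hξ] at hk
    rw [← hm ξ hξ]
    exact h.lt ξ hξ k hk
  · rw [← hs ξ hξ]
    refine h.mem ξ hξ x fun η hη => ⟨(hx η hη).1, fun hF => ?_⟩
    rw [hs η hF, hm η hF]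
    exact (hx η hη).2 hF
  · refine Cond.ext ?_ rfl
    funext ξ x
    simp only [node_val]
    by_cases hξ : ξ ∈ F
    · rw [if_pos hξ, if_pos hξ, hs ξ hξ, hm ξ hξ]
    · rw [if_neg hξ, if_neg hξ]

theorem node_mono {p q : Cond L} (h : p ≤ q) {F : Finset L} {s : L → Fs} {m : L → ℕ}
    (hp : Legal p F s m) (hq : Legal q F s m) : p.node F s m hp ≤ q.node F s m hq := by
  refine ⟨h.1, fun x hx ξ => ?_⟩
  have hxp : x ∈ p.pts := pts_mono (node_le hp) hx
  rw [node_val, node_val]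
  by_cases hξ : ξ ∈ F
  · rw [if_pos hξ, if_pos hξ]
    exact (h.2 x hxp ξ).sub
  · rw [if_neg hξ, if_neg hξ]
    exact h.2 x hxp ξ

theorem node_in {p : Cond L} {Λ : Set L} (hp : p.In Λ) {F : Finset L} {s : L → Fs} {m : L → ℕ}
    (h : Legal p F s m) : (p.node F s m h).In Λ := hp

theorem at_in {p : Cond L} {Λ : Set L} (hp : p.In Λ) {x : Pt L} {F : Finset L} {m : L → ℕ}
    (h : Leg p x F m) : (p.at' x F m h).In Λ := hp

theorem mem_lt {p : Cond L} {x : Pt L} (hx : x ∈ p.pts) (β : L) : x ∈ (p.lt β).pts :=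
  pts_mono (le_restr p) hx

theorem mem_lt_congr {p : Cond L} {β : L} {x y : Pt L} (hx : x ∈ (p.lt β).pts)
    (h : ∀ η < β, y η = x η) (hy : ∀ ξ, (y ξ).Infinite) : y ∈ (p.lt β).pts := by
  rw [Cond.lt, pts_restr] at hx ⊢
  refine ⟨fun ξ hξ => ?_, hy⟩
  have h1 : p.val ξ y = p.val ξ x := p.dep ξ y x fun η _ hη => h η (lt_trans hη hξ)
  rw [h ξ hξ, h1]
  exact hx.1 ξ hξ

/-- a point of `p|β` extends to a point of `p` -/
theorem exists_point {p : Cond L} {β : L} {x : Pt L} (hx : x ∈ (p.lt β).pts) :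
    ∃ y ∈ p.pts, ∀ η < β, y η = x η := by
  exact exists_pts_of_restr hx

/-- ... with prescribed branch at `β` -/
theorem exists_point' {p : Cond L} {β : L} {x : Pt L} (hx : x ∈ (p.lt β).pts) {z : Set ℕ}
    (hz : z ∈ br (p.val β x).T) : ∃ y ∈ p.pts, (∀ η < β, y η = x η) ∧ y β = z := by
  obtain ⟨y, hy, hyx⟩ := exists_point hx
  have h1 : p.val β y = p.val β x := p.dep β y x fun η _ hη => hyx η hη
  rw [← h1] at hz
  obtain ⟨y', hy', hyy, hyβ⟩ := exists_pts_update p hy β hz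
  exact ⟨y', hy', fun η hη => (hyy η hη).trans (hyx η hη), hyβ⟩

theorem isQ_lt {p : Cond L} {β : L} {x : Pt L} (hx : x ∈ (p.lt β).pts) : IsQ (p.val β x) := by
  obtain ⟨y, hy, hyx⟩ := exists_point hx
  have h1 : p.val β y = p.val β x := p.dep β y x fun η _ hη => hyx η hη
  rw [← h1]
  exact p.isQ' hy β

theorem QLe_lt {p q : Cond L} (h : p ≤ q) {β : L} {x : Pt L} (hx : x ∈ (p.lt β).pts) :
    QLe (p.val β x) (q.val β x) := by
  obtain ⟨y, hy, hyx⟩ := exists_point hx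
  have h1 : p.val β y = p.val β x := p.dep β y x fun η _ hη => hyx η hη
  have h2 : q.val β y = q.val β x := q.dep β y x fun η _ hη => hyx η hη
  rw [← h1, ← h2]
  exact h.2 y hy β

theorem CQ_val_lt (p : Cond L) (β : L) : CQ (p.lt β) (p.val β) := by
  have key : ∀ s : Fs, ∀ x ∈ (p.lt β).pts, ∃ F m, ∃ h : (p.lt β).Leg x F m,
      ∀ y ∈ ((p.lt β).at' x F m h).pts,
        ((s ∈ (p.val β y).T ↔ s ∈ (p.val β x).T) ∧ (s ∈ (p.val β y).C ↔ s ∈ (p.val β x).C)) := by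
    intro s x hx
    obtain ⟨x', hx', hxx⟩ := exists_point hx
    obtain ⟨F, n, hF, hc⟩ := cont' p hx' β s
    obtain ⟨F', m, hFF, hm, hl, -⟩ := base (p.lt β) hx F hF n
    refine ⟨F', m, hl, fun y hy => ?_⟩
    rw [mem_at hl] at hy
    obtain ⟨y', hy', hyy⟩ := exists_point hy.1
    have h1 : p.val β y' = p.val β y := p.dep β y' y fun η _ hη => hyy η hη
    have h2 : p.val β x' = p.val β x := p.dep β x' x fun η _ hη => hxx η hη
    have h3 := hc y' hy' fun ξ hξ k hk => by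
      have hξβ : ξ < β := (hF hξ).2
      rw [hyy ξ hξβ, hxx ξ hξβ]
      have h4 := hy.2 ξ (hFF hξ)
      have hkm : k < m ξ := lt_of_lt_of_le hk (hm ξ (hFF hξ))
      have h5 : (k ∈ cut (y ξ) (m ξ) ↔ k ∈ cut (x ξ) (m ξ)) := by rw [h4]
      rw [mem_cut, mem_cut] at h5
      constructor
      · intro h
        exact (h5.2 ⟨hkm, h⟩).2
      · intro h
        exact (h5.1 ⟨hkm, h⟩).2
    rw [h1, h2] at h3
    exact h3
  intro s
  constructor
  · intro x hx
    obtain ⟨F, m, h, hc⟩ := key s x hx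
    exact ⟨F, m, h, fun y hy => propext (hc y hy).1⟩
  · intro x hx
    obtain ⟨F, m, h, hc⟩ := key s x hx
    exact ⟨F, m, h, fun y hy => propext (hc y hy).2⟩

theorem val_congr {p : Cond L} {β : L} {x y : Pt L} (h : ∀ η < β, y η = x η) :
    p.val β y = p.val β x := p.dep β y x fun η _ hη => h η hη

theorem lt_lt {p : Cond L} {β β' : L} (h : β ≤ β') : (p.lt β').lt β = p.lt β := by
  exact restr_restr (Iio_subset_Iio h) p

theorem lt_in (p : Cond L) (β : L) : (p.lt β).In (Iio β) := by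
  exact restr_in p

/-- a restriction of `p|β` as a restriction of `p`, and conversely -/
theorem leg_lt {p : Cond L} {β : L} {x : Pt L} {F : Finset L} {m : L → ℕ}
    (h : (p.lt β).Leg x F m) : p.Leg x F m ∧ ↑F ⊆ Iio β := by
  have hF : ↑F ⊆ Iio β := fun ξ hξ => (h.sub hξ).2
  exact ⟨(leg_restr hF).1 h, hF⟩

/-- the part below `β` of a restriction -/
theorem leg_filter {p : Cond L} {β : L} {x : Pt L} {F : Finset L} {m : L → ℕ}
    (h : p.Leg x F m) : ∃ h' : (p.lt β).Leg x (F.filter (· < β)) m,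
      (p.at' x F m h).lt β = (p.lt β).at' x (F.filter (· < β)) m h' := by
  have hmem : ∀ ξ, ξ ∈ F.filter (· < β) ↔ ξ ∈ F ∧ ξ < β := fun ξ => by simp
  have hl : (p.lt β).Leg x (F.filter (· < β)) m := by
    refine ⟨fun ξ hξ => ?_, fun ξ hξ k hk => ?_, fun ξ hξ y hy => ?_⟩
    · have h1 := (hmem ξ).1 hξ
      exact ⟨h.sub h1.1, h1.2⟩
    · exact h.lt ξ ((hmem ξ).1 hξ).1 k hk
    · have h1 := (hmem ξ).1 hξ
      rw [Cond.lt, restr_val p (show ξ ∈ Iio β from h1.2)]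
      refine h.mem ξ h1.1 y fun η hη => ?_
      have h2 := hy η hη
      have hηβ : η ∈ Iio β := lt_trans hη h1.2
      rw [Cond.lt, restr_val p hηβ] at h2
      exact ⟨h2.1, fun hF => h2.2 ((hmem η).2 ⟨hF, hηβ⟩)⟩
  refine ⟨hl, Cond.ext ?_ rfl⟩
  funext ξ y
  by_cases hξ : ξ ∈ Iio β
  · rw [Cond.lt, restr_val _ hξ]
    unfold at'
    rw [node_val, node_val, Cond.lt, restr_val p hξ]
    by_cases hF : ξ ∈ F
    · rw [if_pos hF, if_pos ((hmem ξ).2 ⟨hF, hξ⟩)]
    · rw [if_neg hF, if_neg fun h' => hF ((hmem ξ).1 h').1]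
  · rw [Cond.lt, restr_val_off _ hξ]
    unfold at'
    rw [node_val, if_neg fun h' => hξ ((hmem ξ).1 h').2, Cond.lt, restr_val_off _ hξ]

end Cond

/-- the basic way to define extensions of `w` -/
theorem exists_val {β : L} {w : Cond L} (hw : At β w) {q : Cond L} (hq : q ≤ w.lt β)
    (hqI : q.In (Iio β)) (R : Pt L → QC) (hR : CQ q R) (hQ : ∀ x ∈ q.pts, IsQ (R x))
    (hle : ∀ x ∈ q.pts, QLe (R x) (w.val β x)) :
    ∃ w' ≤ w, At β w' ∧ w'.lt β = q ∧ ∀ x ∈ q.pts, w'.val β x = R x := by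
  obtain ⟨r, hrq, hrs, hrv⟩ := exists_add hqI R hR hQ
  have hrI : r.In (Iic β) := by
    intro ξ hξ
    rw [hrs] at hξ
    rcases hξ with rfl | h
    · exact le_refl _
    · exact le_of_lt (hqI h)
  refine ⟨r, ?_, ⟨hrI, hrs ▸ mem_insert _ _⟩, hrq, hrv⟩
  refine le_of_lt_val hw.le ?_ ?_ ?_
  · intro ξ hξ
    rw [hrs]
    rcases eq_or_lt_of_le (hw.le hξ : ξ ≤ β) with h | h
    · exact Or.inl h
    · exact Or.inr (hq.1 ⟨hξ, h⟩)
  · rw [hrq]
    exact hq
  · intro x hx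
    have hxq : x ∈ q.pts := by
      rw [← hrq]
      exact mem_lt hx β
    rw [hrv x hxq]
    exact hle x hxq

theorem exists_over {β : L} {w : Cond L} (hw : At β w) {q : Cond L} (hq : q ≤ w.lt β)
    (hqI : q.In (Iio β)) :
    ∃ w' ≤ w, At β w' ∧ w'.lt β = q ∧ ∀ x, w'.val β x = w.val β x := by
  obtain ⟨r, hr, hrq, hrs, hrv⟩ := exists_amalg (isLowerSet_Iio β) hqI hq
  refine ⟨r, hr, ⟨?_, ?_⟩, hrq, fun x => hrv β (lt_irrefl β) x⟩
  · intro ξ hξ
    rw [hrs] at hξ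
    rcases hξ with h | h
    · exact le_of_lt (hqI h)
    · exact hw.le h
  · exact hr.1 hw.mem

theorem Root.over {β : L} {w w' : Cond L} (h : w' ≤ w) {t : Fs} (ht : Root β w t)
    (hv : ∀ x ∈ w'.pts, w'.val β x = w.val β x) : Root β w' t := by
  intro x hx
  rw [hv x hx]
  exact ht x (pts_mono h hx)

/-- nodes at `β` -/
theorem legal_single {β : L} {w : Cond L} (hw : At β w) {s : Fs} {m : ℕ} (hm : ∀ k ∈ s, k < m)
    (h : ∀ x ∈ (w.lt β).pts, s ∈ (w.val β x).T) :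
    Legal w {β} (fun _ => s) (fun _ => m) := by
  refine ⟨?_, fun ξ _ k hk => hm k hk, fun ξ hξ x hx => ?_⟩
  · intro ξ hξ
    rw [Finset.coe_singleton, mem_singleton_iff] at hξ
    rw [hξ]
    exact hw.mem
  · rw [Finset.mem_singleton] at hξ
    subst hξ
    let y : Pt L := fun η => if η < ξ then x η else univ
    have hyx : ∀ η < ξ, y η = x η := fun η hη => if_pos hη
    have hy : y ∈ (w.lt ξ).pts := by
      rw [Cond.lt, pts_restr]
      have h1 : ∀ η ∈ Iio ξ, y η ∈ br (w.val η y).T := by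
        intro η hη
        have h2 : w.val η y = w.val η x := w.dep η y x fun ζ _ hζ => hyx ζ (lt_trans hζ hη)
        rw [h2, hyx η hη]
        exact (hx η hη).1
      refine ⟨h1, fun η => ?_⟩
      by_cases hη : η < ξ
      · exact br_infinite (h1 η hη)
      · have : y η = univ := if_neg hη
        rw [this]
        exact infinite_univ
    have h3 : w.val ξ y = w.val ξ x := val_congr hyx
    have h4 := h y hy
    rwa [h3] at h4

theorem node_single {β : L} {w : Cond L} (hw : At β w) {s : Fs} {m : ℕ}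
    (h : Legal w {β} (fun _ => s) (fun _ => m)) :
    At β (w.node {β} (fun _ => s) (fun _ => m) h) ∧
      Root β (w.node {β} (fun _ => s) (fun _ => m) h) s ∧
      (w.node {β} (fun _ => s) (fun _ => m) h).lt β = w.lt β ∧
      ∀ x, (w.node {β} (fun _ => s) (fun _ => m) h).val β x = (w.val β x).sub s m := by
  have hval : ∀ x, (w.node {β} (fun _ => s) (fun _ => m) h).val β x = (w.val β x).sub s m := by
    intro x
    rw [node_val, if_pos (Finset.mem_singleton_self β)]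
  refine ⟨⟨hw.le, hw.mem⟩, fun x hx => ?_, ?_, hval⟩
  · have hxw : x ∈ w.pts := pts_mono (node_le h) hx
    rw [hval x]
    refine (isQ_sub (w.isQ' hxw β) ?_ ?_).2
    · refine h.mem β (Finset.mem_singleton_self β) x fun η hη => ⟨hxw η, fun hF => ?_⟩
      rw [Finset.mem_singleton] at hF
      exact absurd hη (by rw [hF]; exact lt_irrefl _)
    · exact h.lt β (Finset.mem_singleton_self β)
  · refine Cond.ext ?_ rfl
    funext ξ x
    by_cases hξ : ξ ∈ Iio β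
    · rw [Cond.lt, Cond.lt, restr_val _ hξ, restr_val _ hξ, node_val, if_neg]
      rw [Finset.mem_singleton]
      exact ne_of_lt hξ
    · rw [Cond.lt, Cond.lt, restr_val_off _ hξ, restr_val_off _ hξ]

/-- restrictions at a point: the root at `β` is the cut -/
theorem at_root {β : L} {w : Cond L} (hw : At β w) {x : Pt L} {F : Finset L} {μ : L → ℕ}
    (h : w.Leg x F μ) (hβ : β ∈ F) :
    At β (w.at' x F μ h) ∧ Root β (w.at' x F μ h) (cut (x β) (μ β)) := by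
  refine ⟨⟨hw.le, hw.mem⟩, fun y hy => ?_⟩
  have hyw : y ∈ w.pts := pts_mono (at_le h) hy
  have hyc := ((mem_at h).1 hy).2
  unfold at'
  rw [node_val, if_pos hβ]
  refine (isQ_sub (w.isQ' hyw β) ?_ ?_).2
  · exact h.mem β hβ y fun η _ => ⟨hyw η, fun hF => hyc η hF⟩
  · exact h.lt β hβ

/-- a member of the filter contains a restriction with `β ∈ F` -/
theorem exists_at_le {β : L} {v w : Cond L} (hv : At β v) {x : Pt L} (hx : x ∈ v.pts)
    (h : Meets v x w) : ∃ F μ, ∃ hl : v.Leg x F μ, β ∈ F ∧ v.at' x F μ hl ≤ w := by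
  obtain ⟨F0, m0, hl0, h0⟩ := h
  have hsub : ↑(insert β F0) ⊆ v.supp := by
    intro ξ hξ
    rw [Finset.coe_insert] at hξ
    rcases hξ with rfl | h'
    · exact hv.mem
    · exact hl0.sub h'
  obtain ⟨F, μ, hFF, hμ, hl, -⟩ := base v hx (insert β F0) hsub (F0.sup m0)
  refine ⟨F, μ, hl, hFF (Finset.mem_insert_self _ _), ?_⟩
  refine (at_le_at hl0 hl (fun ξ hξ => hFF (Finset.mem_insert_of_mem hξ)) fun ξ hξ => ?_).trans h0
  exact (Finset.le_sup hξ).trans (hμ ξ (hFF (Finset.mem_insert_of_mem hξ)))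

/-- restriction of `v` at `x` below a finite restriction of `w`, with prescribed cut `k` at `β` -/
theorem exists_at_node {β : L} {v w : Cond L} (hv : At β v) (hvw : v ≤ w) (hw : At β w)
    {F0 : Finset L} {σ : L → Fs} {μ0 : L → ℕ} (h0 : Legal w F0 σ μ0) (hβ : β ∈ F0) {x : Pt L}
    (hx : x ∈ v.pts) (hcut : ∀ ξ ∈ F0, ξ < β → cut (x ξ) (μ0 ξ) = σ ξ) {k : ℕ} (hk : μ0 β ≤ k)
    (hs : cut (x β) k = σ β) (hT : σ β ∈ (v.val β x).T) :
    ∃ F μ, ∃ h : v.Leg x F μ, β ∈ F ∧ μ β = k ∧ v.at' x F μ h ≤ w.node F0 σ μ0 h0 := by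
  have hsupp : ∀ ξ ∈ F0, ξ ∈ v.supp := fun ξ hξ => hvw.1 (h0.sub hξ)
  have hle : ∀ ξ ∈ F0, ξ ≤ β := fun ξ hξ => hw.le (h0.sub hξ)
  obtain ⟨F, μ, hFF, hμ, hβF, hμβ, hl, hFle⟩ := base' v hx β hv.mem k (by rw [hs]; exact hT)
    (F0.erase β) (by
      intro ξ hξ
      rw [Finset.coe_erase] at hξ
      exact ⟨hsupp ξ hξ.1, lt_of_le_of_ne (hle ξ hξ.1) hξ.2⟩) (F0.sup μ0)
  refine ⟨F, μ, hl, hβF, hμβ, ?_⟩
  refine ⟨hvw.1, fun y hy ξ => ?_⟩
  have hyv : y ∈ v.pts := pts_mono (at_le hl) hy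
  have hq := hvw.2 y hyv ξ
  unfold at'
  rw [node_val, node_val]
  by_cases hξ : ξ ∈ F0
  · rw [if_pos hξ]
    by_cases hξβ : ξ = β
    · subst hξβ
      rw [if_pos hβF]
      have h1 : QLe ((v.val ξ y).sub (cut (x ξ) (μ ξ)) (μ ξ))
          ((v.val ξ y).sub (σ ξ) (μ0 ξ)) := by
        rw [hμβ, hs]
        refine sub_sub_le _ hk ?_
        ext j
        rw [mem_cutF]
        exact ⟨fun h => h.1, fun h => ⟨h, h0.lt ξ hξ j h⟩⟩
      exact h1.trans hq.sub
    · have hlt : ξ < β := lt_of_le_of_ne (hle ξ hξ) hξβ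
      have hξF : ξ ∈ F := hFF (Finset.mem_erase.2 ⟨hξβ, hξ⟩)
      rw [if_pos hξF]
      have h1 : QLe ((v.val ξ y).sub (cut (x ξ) (μ ξ)) (μ ξ))
          ((v.val ξ y).sub (σ ξ) (μ0 ξ)) := by
        have h2 : μ0 ξ ≤ μ ξ := (Finset.le_sup hξ).trans (hμ ξ hξF hlt)
        refine sub_sub_le _ h2 ?_
        rw [cutF_cut h2]
        exact hcut ξ hξ hlt
      exact h1.trans hq.sub
  · rw [if_neg hξ]
    by_cases hξF : ξ ∈ F
    · rw [if_pos hξF]
      exact (sub_le _ _ _).trans hq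
    · rw [if_neg hξF]
      exact hq

/-- a restriction of `w` with constant root below every point of `w|β` -/
theorem exists_root {β : L} {w : Cond L} (hw : At β w) {x : Pt L} (hx : x ∈ (w.lt β).pts) :
    ∃ y ∈ w.pts, (∀ η < β, y η = x η) ∧ ∃ F μ, ∃ h : w.Leg y F μ, ∃ s, β ∈ F ∧
      Root β (w.at' y F μ h) s ∧ IsRoot (w.val β x).T s := by
  have hQ := isQ_lt hx
  obtain ⟨s, hs⟩ := hQ.root
  obtain ⟨z, hz, hzs⟩ := exists_branch' hQ hs.1
  obtain ⟨y, hy, hyx, hyβ⟩ := exists_point' hx hz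
  have h1 : w.val β y = w.val β x := val_congr hyx
  obtain ⟨F, μ, -, -, hβF, hμβ, hl, -⟩ := base' w hy β hw.mem (s.sup Nat.succ) (by
    rw [hyβ, hzs, h1]
    exact hs.1) ∅ (by simp) 0
  have h2 := (at_root hw hl hβF).2
  rw [hμβ, hyβ, hzs] at h2
  exact ⟨y, hy, hyx, F, μ, hl, s, hβF, h2, hs⟩

end E8
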