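import Mathlib

/-!
# Definitions for MP_e8be47_lc: barely independent families, splitting and reaping numbers
-/

open Cardinal

namespace Pool.Agent.Lib.MP_e8be47_lc

/-- `A⁰ = A` and `A¹ = X \ A`. -/
def side {X : Type} (A : Set X) (e : Fin 2) : Set X := if e = 0 then A else Aᶜ

/-- `⋂ 𝒜^h`, for a family `𝒜` of subsets of `X` and `h : 𝒜 → 2`. -/
def boolInter {X : Type} (𝒜 : Set (Set X)) (h : 𝒜 → Fin 2) : Set X :=
  ⋂ A : 𝒜, side A.1 (h A)

/-- `I` is a barely independent family of subsets of `X` (over the cardinal `#X`). -/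
structure IsBarelyIndependent {X : Type} (I : Set (Set X)) : Prop where
  infinite : ℵ₀ ≤ #I
  card_mem : ∀ A ∈ I, #A = #X
  finite_inter : ∀ 𝒜 ⊆ I, 𝒜.Finite → ∀ h : 𝒜 → Fin 2, #(boolInter 𝒜 h) = #X
  countable_inter : ∀ 𝒜 ⊆ I, #𝒜 = ℵ₀ → ∀ h : 𝒜 → Fin 2, #(boolInter 𝒜 h) < #X

/-- There is a barely independent family over the cardinal `κ` (a family of subsets of the
initial ordinal of `κ`). -/
def ExistsBIF (κ : Cardinal.{0}) : Prop :=
  ∃ I : Set (Set κ.ord.ToType), IsBarelyIndependent I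

/-- `S` splits `A`. -/
def Splits (S A : Set ℕ) : Prop := (A ∩ S).Infinite ∧ (A \ S).Infinite

/-- The splitting number `𝔰`. -/
noncomputable def splittingNumber : Cardinal.{0} :=
  sInf {κ | ∃ 𝒮 : Set (Set ℕ), #𝒮 = κ ∧ ∀ A : Set ℕ, A.Infinite → ∃ S ∈ 𝒮, Splits S A}

/-- The reaping number `𝔯`. -/
noncomputable def reapingNumber : Cardinal.{0} :=
  sInf {κ | ∃ ℛ : Set (Set ℕ), #ℛ = κ ∧ (∀ R ∈ ℛ, R.Infinite) ∧
    ∀ S : Set ℕ, ∃ R ∈ ℛ, ¬ Splits S R}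

end Pool.Agent.Lib.MP_e8be47_lc
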