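import Pool.Agent.Lib.MP_e8be47_lc.QDef

/-!
# elementary facts on `Q` (all proofs are a few lines)
-/

open Set Classical

namespace E8

theorem mem_cut {z : Set ℕ} {m k : ℕ} : k ∈ cut z m ↔ k < m ∧ k ∈ z := by
  simp [cut]

theorem mem_cutF {t : Fs} {m k : ℕ} : k ∈ cutF t m ↔ k ∈ t ∧ k < m := by
  simp [cutF]

theorem cutF_cut {z : Set ℕ} {m n : ℕ} (h : n ≤ m) : cutF (cut z m) n = cut z n := by
  ext k
  simp only [mem_cutF, mem_cut]
  constructor
  · rintro ⟨⟨h1, h2⟩, h3⟩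
    exact ⟨h3, h2⟩
  · rintro ⟨h1, h2⟩
    exact ⟨⟨by omega, h2⟩, h1⟩

theorem cutF_cutF {t : Fs} {m n : ℕ} (h : n ≤ m) : cutF (cutF t m) n = cutF t n := by
  ext k
  simp only [mem_cutF]
  constructor
  · rintro ⟨⟨h1, h2⟩, h3⟩
    exact ⟨h1, h3⟩
  · rintro ⟨h1, h2⟩
    exact ⟨⟨h1, by omega⟩, h2⟩

theorem EE.refl (s : Fs) : EE s s := by
  exact ⟨subset_rfl, fun j _ k hk hk' => absurd hk hk'⟩

theorem EE.trans {s t u : Fs} (h : EE s t) (h' : EE t u) : EE s u := by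
  refine ⟨h.1.trans h'.1, fun j hj k hk hks => ?_⟩
  by_cases hkt : k ∈ t
  · exact h.2 j hj k hkt hks
  · exact h'.2 j (h.1 hj) k hk hkt

theorem EE.union {s f : Fs} (h : ∀ j ∈ s, ∀ k ∈ f, j < k) : EE s (s ∪ f) := by
  refine ⟨Finset.subset_union_left, fun j hj k hk hks => ?_⟩
  rcases Finset.mem_union.1 hk with hk | hk
  · exact absurd hk hks
  · exact h j hj k hk

theorem IsRoot.unique {T : Set Fs} {s t : Fs} (h : IsRoot T s) (h' : IsRoot T t) : s = t := by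
  exact Finset.Subset.antisymm (h.2 t h'.1).1 (h'.2 s h.1).1

theorem QLe.refl (R : QC) : QLe R R := by
  exact ⟨subset_rfl, 0, fun c hc _ => ⟨c, hc, subset_rfl⟩⟩

theorem QLe.trans {R R' R'' : QC} (h : QLe R'' R') (h' : QLe R' R) : QLe R'' R := by
  obtain ⟨h1, n, hn⟩ := h
  obtain ⟨h1', n', hn'⟩ := h'
  refine ⟨h1.trans h1', max n n', fun c hc hk => ?_⟩
  obtain ⟨c', hc', hcc⟩ := hn c hc (fun k hkc => (le_max_left _ _).trans (hk k hkc))
  obtain ⟨c'', hc'', hcc'⟩ := hn' c' hc' (fun k hkc => (le_max_right _ _).trans (hk k (hcc hkc)))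
  exact ⟨c'', hc'', hcc'.trans hcc⟩

theorem br_mono {T T' : Set Fs} (h : T' ⊆ T) : br T' ⊆ br T := by
  intro z hz n
  obtain ⟨m, hm, hk⟩ := hz n
  exact ⟨m, h hm, hk⟩

theorem QLe.br {R R' : QC} (h : QLe R' R) : br R'.T ⊆ br R.T := br_mono h.1

theorem br_infinite {T : Set Fs} {z : Set ℕ} (h : z ∈ br T) : z.Infinite := by
  rw [Set.infinite_iff_frequently_cofinite, Nat.cofinite_eq_atTop, Filter.frequently_atTop]
  intro n
  obtain ⟨m, _, k, hk, hnk⟩ := h n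
  exact ⟨k, hnk, (mem_cut.1 hk).2⟩

theorem br_one {z : Set ℕ} : z ∈ br QC.one.T ↔ z.Infinite := by
  refine ⟨br_infinite, fun h n => ?_⟩
  obtain ⟨k, hk, hnk⟩ := h.exists_gt n
  exact ⟨k + 1, mem_univ _, k, mem_cut.2 ⟨Nat.lt_succ_self k, hk⟩, hnk.le⟩

theorem br_sub {R : QC} {s : Fs} {m : ℕ} {z : Set ℕ} :
    z ∈ br (R.sub s m).T ↔ z ∈ br R.T ∧ cut z m = s := by
  constructor
  · intro h
    refine ⟨br_mono (fun t ht => ht.1) h, ?_⟩
    obtain ⟨m', hm', k, hk, hmk⟩ := h m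
    have h1 : cutF (cut z m') m = s := hm'.2
    rw [← h1, cutF_cut]
    exact hmk.trans (mem_cut.1 hk).1.le
  · rintro ⟨h, hs⟩ n
    obtain ⟨m', hm', k, hk, hmk⟩ := h (max n m)
    refine ⟨m', ⟨hm', ?_⟩, k, hk, (le_max_left _ _).trans hmk⟩
    rw [cutF_cut, hs]
    exact (le_max_right n m).trans (hmk.trans (mem_cut.1 hk).1.le)

theorem isQ_one : IsQ QC.one := by
  refine ⟨⟨∅, mem_univ _, fun t _ => ⟨Finset.empty_subset t, fun j hj => ?_⟩⟩, ⟨?_, ?_⟩, ?_⟩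
  · exact absurd hj (Finset.notMem_empty j)
  · rintro c ⟨k, rfl⟩
    exact Finset.singleton_nonempty k
  · intro m n χ _
    refine ⟨{n}, ⟨n, rfl⟩, ?_, χ n, ?_⟩
    · intro k hk
      rw [Finset.mem_singleton.1 hk]
    · intro k hk
      rw [Finset.mem_singleton.1 hk]
  · intro s _
    refine ⟨s.sup Nat.succ, ?_⟩
    rintro c ⟨k, rfl⟩ hk
    refine ⟨{k}, subset_rfl, ⟨Finset.singleton_nonempty k, fun j hj i hi => ?_⟩, mem_univ _⟩
    rw [Finset.mem_singleton.1 hi]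
    exact lt_of_lt_of_le (Nat.lt_succ_self j)
      ((Finset.le_sup (f := Nat.succ) hj).trans (hk k (Finset.mem_singleton_self k)))

/-- the root lies on every branch (`s.sup Nat.succ` is `max s + 1`, and `0` for `s = ∅`) -/
theorem root_cut {T : Set Fs} {s : Fs} (h : IsRoot T s) {z : Set ℕ} (hz : z ∈ br T) :
    cut z (s.sup Nat.succ) = s := by
  obtain ⟨m, hm, k, hk, hsk⟩ := hz (s.sup Nat.succ)
  have hEE := h.2 _ hm
  ext i
  rw [mem_cut]
  constructor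
  · rintro ⟨hi, hiz⟩
    by_contra his
    have him : i ∈ cut z m := mem_cut.2 ⟨by have := (mem_cut.1 hk).1; omega, hiz⟩
    have h1 : s.sup Nat.succ ≤ i := Finset.sup_le fun j hj => hEE.2 j hj i him his
    omega
  · intro hi
    exact ⟨lt_of_lt_of_le (Nat.lt_succ_self i) (Finset.le_sup (f := Nat.succ) hi),
      (mem_cut.1 (hEE.1 hi)).2⟩

theorem lt_sup {s : Fs} {k : ℕ} (h : k ∈ s) : k < s.sup Nat.succ := by
  exact lt_of_lt_of_le (Nat.lt_succ_self k) (Finset.le_sup (f := Nat.succ) h)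

private theorem QB_step {R : QC} (h : IsQ R) (m : ℕ) (s : {s : Fs // s ∈ R.T}) (i : ℕ) :
    ∃ t : {s : Fs // s ∈ R.T}, s.1 ⊆ t.1 ∧ (∃ k ∈ t.1, k ∉ s.1) ∧
      ∀ k ∈ t.1, k ∉ s.1 → m ≤ k ∧ i ≤ k ∧ ∀ j ∈ s.1, j < k := by
  obtain ⟨n, hn⟩ := h.cp s.1 s.2
  obtain ⟨c, hc, hck, -⟩ := h.large.2 1 (max n (max m i)) (fun _ => 0) (fun _ => one_pos)
  obtain ⟨f, hfc, ⟨hfne, hf⟩, hsf⟩ := hn c hc (fun k hk => (le_max_left _ _).trans (hck k hk))
  refine ⟨⟨s.1 ∪ f, hsf⟩, Finset.subset_union_left, ?_, ?_⟩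
  · obtain ⟨k, hk⟩ := hfne
    exact ⟨k, Finset.mem_union_right _ hk, fun hks => lt_irrefl k (hf k hks k hk)⟩
  · intro k hk hks
    have hkf : k ∈ f := by
      rcases Finset.mem_union.1 hk with hk | hk
      · exact absurd hk hks
      · exact hk
    have h1 := hck k (hfc hkf)
    exact ⟨(le_max_left m i).trans ((le_max_right n _).trans h1),
      (le_max_right m i).trans ((le_max_right n _).trans h1), fun j hj => hf j hj k hkf⟩

private theorem QB_branch {R : QC} (h : IsQ R) {s : Fs} (hs : s ∈ R.T) (m : ℕ)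
    (hm : ∀ k ∈ s, k < m) : ∃ z ∈ br R.T, cut z m = s := by
  choose g hg1 hg2 hg3 using QB_step h m
  let S : ℕ → {s : Fs // s ∈ R.T} := fun n => Nat.rec ⟨s, hs⟩ (fun i t => g t i) n
  have hS0 : (S 0).1 = s := rfl
  have hSs : ∀ n, S (n + 1) = g (S n) n := fun n => rfl
  have hmono : ∀ a b, a ≤ b → (S a).1 ⊆ (S b).1 := by
    intro a b hab
    induction b, hab using Nat.le_induction with
    | base => exact subset_rfl
    | succ b _ ih =>
      rw [hSs]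
      exact ih.trans (hg1 _ _)
  -- every element of a later stage not in stage `a` is large
  have hnew : ∀ a b, ∀ k ∈ (S b).1, k ∉ (S a).1 → m ≤ k ∧ a ≤ k ∧ ∀ j ∈ (S a).1, j < k := by
    intro a b
    induction b with
    | zero =>
      intro k hk hka
      exact absurd (hmono 0 a (Nat.zero_le _) hk) hka
    | succ b ih =>
      intro k hk hka
      by_cases hkb : k ∈ (S b).1
      · exact ih k hkb hka
      · rw [hSs] at hk
        obtain ⟨h1, h2, h3⟩ := hg3 (S b) b k hk hkb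
        have hab : a ≤ b := by
          by_contra hab
          push Not at hab
          exact hka (hmono (b + 1) a hab (by rw [hSs]; exact hk))
        exact ⟨h1, hab.trans h2, fun j hj => h3 j (hmono a b hab hj)⟩
  let z : Set ℕ := {k | ∃ n, k ∈ (S n).1}
  have hcut : ∀ a m', (∀ k ∈ (S a).1, k < m') → (∀ b, ∀ k ∈ (S b).1, k ∉ (S a).1 → m' ≤ k) →
      cut z m' = (S a).1 := by
    intro a m' h1 h2
    ext k
    rw [mem_cut]
    constructor
    · rintro ⟨hk, b, hkb⟩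
      by_contra hka
      have := h2 b k hkb hka
      omega
    · intro hk
      exact ⟨h1 k hk, a, hk⟩
  refine ⟨z, ?_, ?_⟩
  · intro n
    refine ⟨(S (n + 1)).1.sup Nat.succ, ?_, ?_⟩
    · rw [hcut (n + 1) _ (fun k hk => lt_sup hk) (fun b k hk hka => ?_)]
      · exact (S (n + 1)).2
      · exact Finset.sup_le fun j hj => (hnew (n + 1) b k hk hka).2.2 j hj
    · obtain ⟨k, hk, hks⟩ := hg2 (S n) n
      have hk' : k ∈ (S (n + 1)).1 := by rw [hSs]; exact hk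
      exact ⟨k, mem_cut.2 ⟨lt_sup hk', n + 1, hk'⟩, (hg3 (S n) n k hk hks).2.1⟩
  · exact hcut 0 m hm (fun b k hk hka => (hnew 0 b k hk hka).1)

/-- every node of `T` is the cut of a branch -/
theorem exists_branch' {R : QC} (h : IsQ R) {s : Fs} (hs : s ∈ R.T) :
    ∃ z ∈ br R.T, cut z (s.sup Nat.succ) = s := by
  exact QB_branch h hs _ (fun k hk => lt_sup hk)

/-- `max root + 1` and the singleton of the root satisfy the fusion invariant -/
theorem cutF_root {T : Set Fs} {s : Fs} (h : IsRoot T s) {t : Fs} (ht : t ∈ T) :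
    cutF t (s.sup Nat.succ) = s := by
  have hEE := h.2 t ht
  ext i
  rw [mem_cutF]
  constructor
  · rintro ⟨hit, hi⟩
    by_contra his
    have h1 : s.sup Nat.succ ≤ i := Finset.sup_le fun j hj => hEE.2 j hj i hit his
    omega
  · intro hi
    exact ⟨hEE.1 hi, lt_sup hi⟩

theorem sub_le (R : QC) (s : Fs) (m : ℕ) : QLe (R.sub s m) R := by
  exact ⟨fun t ht => ht.1, 0, fun c hc _ => ⟨c, hc, subset_rfl⟩⟩

theorem isQ_sub {R : QC} (h : IsQ R) {s : Fs} {m : ℕ} (hs : s ∈ R.T) (hm : ∀ k ∈ s, k < m) :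
    IsQ (R.sub s m) ∧ IsRoot (R.sub s m).T s := by
  have hss : cutF s m = s := by
    ext k
    rw [mem_cutF]
    exact ⟨fun hk => hk.1, fun hk => ⟨hk, hm k hk⟩⟩
  have hroot : IsRoot (R.sub s m).T s := by
    refine ⟨⟨hs, hss⟩, fun t ht => ⟨fun k hk => ?_, fun j hj k hk hks => ?_⟩⟩
    · rw [← ht.2] at hk
      exact (mem_cutF.1 hk).1
    · have h1 : m ≤ k := by
        by_contra hkm
        push Not at hkm
        apply hks
        rw [← ht.2]
        exact mem_cutF.2 ⟨hk, hkm⟩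
      exact (hm j hj).trans_le h1
  refine ⟨⟨⟨s, hroot⟩, h.large, fun t ht => ?_⟩, hroot⟩
  obtain ⟨n, hn⟩ := h.cp t ht.1
  refine ⟨max n m, fun c hc hk => ?_⟩
  obtain ⟨f, hfc, hf, htf⟩ := hn c hc (fun k hkc => (le_max_left _ _).trans (hk k hkc))
  refine ⟨f, hfc, hf, htf, ?_⟩
  rw [← ht.2]
  ext k
  rw [mem_cutF, mem_cutF, Finset.mem_union]
  constructor
  · rintro ⟨hk1 | hk1, hk2⟩
    · exact ⟨hk1, hk2⟩
    · have := (le_max_right n m).trans (hk k (hfc hk1))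
      omega
  · rintro ⟨hk1, hk2⟩
    exact ⟨Or.inl hk1, hk2⟩

theorem QLe.sub {R R' : QC} (h : QLe R' R) {s : Fs} {m : ℕ} : QLe (R'.sub s m) (R.sub s m) := by
  exact ⟨fun t ht => ⟨h.1 ht.1, ht.2⟩, h.2⟩

/-- `R.sub s m ≤ R.sub s' m'` if `m' ≤ m` and `s' = s ∩ m'` -/
theorem sub_sub_le (R : QC) {s s' : Fs} {m m' : ℕ} (hm : m' ≤ m) (hs : cutF s m' = s') :
    QLe (R.sub s m) (R.sub s' m') := by
  refine ⟨fun t ht => ⟨ht.1, ?_⟩, 0, fun c hc _ => ⟨c, hc, subset_rfl⟩⟩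
  rw [← hs, ← ht.2, cutF_cutF hm]

/-- branches through any node; the next element can be chosen beyond any `m` -/
theorem exists_branch {R : QC} (h : IsQ R) {s : Fs} (hs : s ∈ R.T) (m : ℕ) (hm : ∀ k ∈ s, k < m) :
    ∃ z ∈ br R.T, cut z m = s := by
  exact QB_branch h hs m hm

/-- every branch has long initial parts in `T`: for every `n` there is `m ≥ n` with
`cut z m ∈ T` -/
theorem exists_cut_mem {T : Set Fs} {z : Set ℕ} (h : z ∈ br T) (n : ℕ) :
    ∃ m, n ≤ m ∧ cut z m ∈ T := by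
  obtain ⟨m, hm, k, hk, hnk⟩ := h n
  exact ⟨m, hnk.trans (mem_cut.1 hk).1.le, hm⟩

end E8
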