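import Mathlib

/-!
# The single step forcing: definitions

`Fs` = finite subsets of `ℕ`.  A condition of `Q` is a pair `(T, C)`: `T` a set of finite sets with a
root (all members end-extend the root), `C` a large family, and every node `s ∈ T` can be extended
inside every member `c` of `C` beyond some `n`.  A branch of `T` is a set `z ⊆ ℕ` with infinitely
many initial parts in `T`.
-/

open Set Classical

namespace E8

abbrev Fs := Finset ℕ

/-- the part of `z` below `m` -/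
noncomputable def cut (z : Set ℕ) (m : ℕ) : Fs := (Finset.range m).filter (· ∈ z)

/-- the part of the finite set `t` below `m` -/
def cutF (t : Fs) (m : ℕ) : Fs := t.filter (· < m)

/-- raw pairs `(T, C)` -/
@[ext] structure QC where
  T : Set Fs
  C : Set Fs

/-- for every colouring of `ℕ` with `m` colours some member of `C` beyond `n` is monochromatic -/
def MN (C : Set Fs) (m n : ℕ) : Prop :=
  ∀ χ : ℕ → ℕ, (∀ k, χ k < m) → ∃ c ∈ C, (∀ k ∈ c, n ≤ k) ∧ ∃ i, ∀ k ∈ c, χ k = i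

/-- `C` is large -/
def Large (C : Set Fs) : Prop := (∀ c ∈ C, c.Nonempty) ∧ ∀ m n, MN C m n

/-- the finite family `E` is `m`-large -/
def FL (m : ℕ) (E : Finset Fs) : Prop :=
  (∀ c ∈ E, c.Nonempty) ∧ ∀ χ : ℕ → ℕ, (∀ k, χ k < m) → ∃ c ∈ E, ∃ i, ∀ k ∈ c, χ k = i

/-- `f` is nonempty and above `s` -/
def Above (s f : Fs) : Prop := f.Nonempty ∧ ∀ j ∈ s, ∀ k ∈ f, j < k

/-- `t` end-extends `s` -/
def EE (s t : Fs) : Prop := s ⊆ t ∧ ∀ j ∈ s, ∀ k ∈ t, k ∉ s → j < k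

/-- `s` is the root of `T` -/
def IsRoot (T : Set Fs) (s : Fs) : Prop := s ∈ T ∧ ∀ t ∈ T, EE s t

/-- the node `s` can be extended inside all members of `C` beyond some `n` -/
def Cp (T C : Set Fs) (s : Fs) : Prop :=
  ∃ n, ∀ c ∈ C, (∀ k ∈ c, n ≤ k) → ∃ f ⊆ c, Above s f ∧ s ∪ f ∈ T

/-- conditions of `Q` -/
structure IsQ (R : QC) : Prop where
  root : ∃ s, IsRoot R.T s
  large : Large R.C
  cp : ∀ s ∈ R.T, Cp R.T R.C s

/-- order of `Q` -/
def QLe (R' R : QC) : Prop :=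
  R'.T ⊆ R.T ∧ ∃ n, ∀ c ∈ R'.C, (∀ k ∈ c, n ≤ k) → ∃ c' ∈ R.C, c' ⊆ c

/-- branches -/
def br (T : Set Fs) : Set (Set ℕ) := {z | ∀ n, ∃ m, cut z m ∈ T ∧ ∃ k ∈ cut z m, n ≤ k}

/-- the part of `R` given by the node `s` and `m`: all `t ∈ T` with `t ∩ m = s` -/
def QC.sub (R : QC) (s : Fs) (m : ℕ) : QC := ⟨{t ∈ R.T | cutF t m = s}, R.C⟩

/-- the trivial condition -/
def QC.one : QC := ⟨univ, {c | ∃ k, c = {k}}⟩

end E8
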