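import Pool.Agent.Lib.MP_e8be47_lc.QBase

/-!
# large families
-/

open Set Classical

namespace E8

theorem QL_exists_finite {C : Set Fs} (hne : ∀ c ∈ C, c.Nonempty) {m n : ℕ} (hC : MN C m n) :
    ∃ E : Finset Fs, FL m E ∧ ∀ c ∈ E, c ∈ C ∧ ∀ k ∈ c, n ≤ k := by
  by_contra hcon
  push Not at hcon
  let E : ℕ → Finset Fs := fun N => ((Finset.range N).powerset).filter (fun c => c ∈ C ∧ ∀ k ∈ c, n ≤ k)
  have h1 : ∀ N, ∃ χ : ℕ → ℕ, (∀ k, χ k < m) ∧ ∀ c ∈ E N, ∀ i, ∃ k ∈ c, χ k ≠ i := by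
    intro N
    have h2 : ¬ FL m (E N) := by
      intro hF
      obtain ⟨c, hc, h3⟩ := hcon (E N) hF
      have h4 := (Finset.mem_filter.1 hc).2
      obtain ⟨k, hk, h5⟩ := h3 h4.1
      exact absurd (h4.2 k hk) (not_le.2 h5)
    unfold FL at h2
    push Not at h2
    exact h2 (fun c hc => hne c (Finset.mem_filter.1 hc).2.1)
  choose χ hχ hbad using h1
  let U : Ultrafilter ℕ := Filter.hyperfilter ℕ
  have h2 : ∀ k, ∃ i, i < m ∧ ∀ᶠ N in (U : Filter ℕ), χ N k = i := by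
    intro k
    obtain ⟨i, hi, hU⟩ := Ultrafilter.eq_pure_of_finite_mem (f := U.map (fun N => χ N k)) (s := {i | i < m})
      (Set.finite_lt_nat m) (by
        rw [Ultrafilter.mem_map]
        exact Filter.Eventually.of_forall (fun N => hχ N k))
    refine ⟨i, hi, ?_⟩
    have h3 : {j | j = i} ∈ U.map (fun N => χ N k) := by
      rw [hU]
      exact rfl
    exact h3
  choose ψ hψ hev using h2
  obtain ⟨c, hc, hcn, i, hi⟩ := hC ψ hψ
  have h3 : ∀ᶠ N in (U : Filter ℕ), ∀ k ∈ c, χ N k = ψ k :=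
    (Filter.eventually_all_finset c).2 (fun k _ => hev k)
  have h4 : ∀ᶠ N in (U : Filter ℕ), c.sup Nat.succ ≤ N :=
    Nat.hyperfilter_le_atTop (Filter.eventually_ge_atTop _)
  obtain ⟨N, hN1, hN2⟩ := (h3.and h4).exists
  have hcE : c ∈ E N := by
    refine Finset.mem_filter.2 ⟨Finset.mem_powerset.2 ?_, hc, hcn⟩
    intro k hk
    have := Finset.le_sup (f := Nat.succ) hk
    exact Finset.mem_range.2 (by omega)
  obtain ⟨k, hk, hne'⟩ := hbad N c hcE i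
  exact hne' (by rw [hN1 k hk, hi k hk])

/-- partition regularity: if `C` is large and is covered by finitely many families, one of them
is large (restrict `D i` to `C`, refine the bad colourings to one colouring with
`∏ m_i` colours). -/
theorem Large.exists_large {C : Set Fs} (hC : Large C) {ι : Type} [Fintype ι] (D : ι → Set Fs)
    (h : C ⊆ ⋃ i, D i) : ∃ i, Large (D i ∩ C) := by
  by_contra hcon
  push Not at hcon
  have h1 : ∀ i, ∃ (m n : ℕ) (χ : ℕ → ℕ), (∀ k, χ k < m) ∧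
      ∀ c ∈ D i ∩ C, (∀ k ∈ c, n ≤ k) → ∀ j, ∃ k ∈ c, χ k ≠ j := by
    intro i
    have h2 := hcon i
    unfold Large at h2
    push Not at h2
    obtain ⟨m, n, hmn⟩ := h2 (fun c hc => hC.1 c hc.2)
    unfold MN at hmn
    push Not at hmn
    obtain ⟨χ, hχ, hbad⟩ := hmn
    exact ⟨m, n, χ, hχ, hbad⟩
  choose m n χ hχ hbad using h1
  let e := Fintype.equivFin (∀ i, Fin (m i))
  obtain ⟨c, hc, hcn, j, hj⟩ := hC.2 (Fintype.card (∀ i, Fin (m i))) (Finset.univ.sup n)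
    (fun k => (e (fun i => ⟨χ i k, hχ i k⟩) : ℕ)) (fun k => (e _).2)
  obtain ⟨i, hi⟩ := mem_iUnion.1 (h hc)
  obtain ⟨k0, hk0⟩ := hC.1 c hc
  obtain ⟨k, hk, hne⟩ := hbad i c ⟨hi, hc⟩
    (fun k hk => le_trans (Finset.le_sup (f := n) (Finset.mem_univ i)) (hcn k hk)) (χ i k0)
  apply hne
  have h3 : e (fun i => ⟨χ i k, hχ i k⟩) = e (fun i => ⟨χ i k0, hχ i k0⟩) := by
    apply Fin.ext
    rw [hj k hk, hj k0 hk0]
  have h4 := e.injective h3
  have h5 := congrFun h4 i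
  exact congrArg Fin.val h5

theorem Large.mono {C D : Set Fs} (hC : Large C) (hD : ∀ c ∈ D, c.Nonempty) (h : C ⊆ D) :
    Large D := by
  refine ⟨hD, fun m n χ hχ => ?_⟩
  obtain ⟨c, hc, h1, h2⟩ := hC.2 m n χ hχ
  exact ⟨c, h hc, h1, h2⟩

/-- omitting the members not beyond `n` does not matter -/
theorem Large.beyond {C : Set Fs} (hC : Large C) (n : ℕ) : Large {c ∈ C | ∀ k ∈ c, n ≤ k} := by
  refine ⟨fun c hc => hC.1 c hc.1, fun m n' χ hχ => ?_⟩
  obtain ⟨c, hc, h1, h2⟩ := hC.2 m (max n n') χ hχ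
  exact ⟨c, ⟨hc, fun k hk => le_trans (le_max_left _ _) (h1 k hk)⟩,
    fun k hk => le_trans (le_max_right _ _) (h1 k hk), h2⟩

/-- a family that contains almost all of a large family -/
theorem Large.almost {C D : Set Fs} (hC : Large C) (hD : ∀ c ∈ D, c.Nonempty)
    (h : ∃ n, ∀ c ∈ C, (∀ k ∈ c, n ≤ k) → c ∈ D) : Large D := by
  obtain ⟨n, hn⟩ := h
  refine ⟨hD, fun m n' χ hχ => ?_⟩
  obtain ⟨c, hc, h1, h2⟩ := hC.2 m (max n n') χ hχ
  exact ⟨c, hn c hc (fun k hk => le_trans (le_max_left _ _) (h1 k hk)),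
    fun k hk => le_trans (le_max_right _ _) (h1 k hk), h2⟩

/-- compactness -/
theorem Large.exists_finite {C : Set Fs} (hC : Large C) (m n : ℕ) :
    ∃ E : Finset Fs, FL m E ∧ ∀ c ∈ E, c ∈ C ∧ ∀ k ∈ c, n ≤ k := by
  exact QL_exists_finite hC.1 (hC.2 m n)

theorem MN.exists_finite {C : Set Fs} (hne : ∀ c ∈ C, c.Nonempty) {m n : ℕ} (hC : MN C m n) :
    ∃ E : Finset Fs, FL m E ∧ ∀ c ∈ E, c ∈ C ∧ ∀ k ∈ c, n ≤ k := by
  exact QL_exists_finite hne hC

theorem MN.of_finite {C : Set Fs} {m n : ℕ} {E : Finset Fs} (hE : FL m E)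
    (h : ∀ c ∈ E, c ∈ C ∧ ∀ k ∈ c, n ≤ k) : MN C m n := by
  intro χ hχ
  obtain ⟨c, hc, h1⟩ := hE.2 χ hχ
  exact ⟨c, (h c hc).1, (h c hc).2, h1⟩

/-- converse: if for all `m, n` there is a finite `m`-large `E ⊆ C` beyond `n` -/
theorem large_of_finite {C : Set Fs} (hC : ∀ c ∈ C, c.Nonempty)
    (h : ∀ m n, ∃ E : Finset Fs, FL m E ∧ ∀ c ∈ E, c ∈ C ∧ ∀ k ∈ c, n ≤ k) : Large C := by
  refine ⟨hC, fun m n => ?_⟩
  obtain ⟨E, hE, h1⟩ := h m n
  intro χ hχ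
  obtain ⟨c, hc, h2⟩ := hE.2 χ hχ
  exact ⟨c, (h1 c hc).1, (h1 c hc).2, h2⟩

theorem FL.mono {m m' : ℕ} {E : Finset Fs} (h : FL m E) (hm : m' ≤ m) : FL m' E := by
  exact ⟨h.1, fun χ hχ => h.2 χ (fun k => lt_of_lt_of_le (hχ k) hm)⟩

/-- `C` can be shrunk to the members inside one class of a finite colouring -/
theorem Large.colour {C : Set Fs} (hC : Large C) (m : ℕ) (χ : ℕ → ℕ) (hχ : ∀ k, χ k < m) :
    ∃ i < m, Large {c ∈ C | ∀ k ∈ c, χ k = i} := by
  have h1 : Large {c ∈ C | ∃ i, ∀ k ∈ c, χ k = i} := by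
    refine ⟨fun c hc => hC.1 c hc.1, fun m' n χ' hχ' => ?_⟩
    obtain ⟨c, hc, hcn, j, hj⟩ := hC.2 (m * m') n (fun k => χ k * m' + χ' k) (fun k => by
      have a1 := hχ k
      have a2 := hχ' k
      calc χ k * m' + χ' k < χ k * m' + m' := by omega
        _ = (χ k + 1) * m' := by ring
        _ ≤ m * m' := Nat.mul_le_mul_right _ a1)
    have hdiv : ∀ k ∈ c, χ k = j / m' ∧ χ' k = j % m' := by
      intro k hk
      have a2 := hχ' k
      have hm' : 0 < m' := by omega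
      have a3 : χ k * m' + χ' k = j := hj k hk
      constructor
      · rw [← a3, Nat.mul_comm, Nat.mul_add_div hm', Nat.div_eq_of_lt a2, add_zero]
      · rw [← a3, Nat.mul_comm, Nat.mul_add_mod, Nat.mod_eq_of_lt a2]
    exact ⟨c, ⟨hc, j / m', fun k hk => (hdiv k hk).1⟩, hcn, j % m', fun k hk => (hdiv k hk).2⟩
  obtain ⟨i, hi⟩ := h1.exists_large (fun i : Fin m => {c | ∀ k ∈ c, χ k = i}) (by
    rintro c ⟨hc, i, hi⟩
    obtain ⟨k0, hk0⟩ := hC.1 c hc
    have him : i < m := by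
      have := hχ k0
      rw [hi k0 hk0] at this
      exact this
    exact mem_iUnion.2 ⟨⟨i, him⟩, hi⟩)
  refine ⟨i, i.2, hi.mono (fun c hc => hC.1 c hc.1) ?_⟩
  rintro c ⟨h2, h3, -⟩
  exact ⟨h3, h2⟩

/-- the failure of largeness of a family, in finitary form: if all `c ∈ C` are nonempty and `C`
is not large there are `m, n` such that no finite `E ⊆ C` beyond `n` is `m`-large -/
theorem not_large {C : Set Fs} (hC : ∀ c ∈ C, c.Nonempty) (h : ¬ Large C) :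
    ∃ m n, ¬ MN C m n := by
  by_contra hcon
  push Not at hcon
  exact h ⟨hC, hcon⟩

end E8
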