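import Pool.Agent.Lib.MP_e8be47_lc.QLarge

/-!
# the limit of a fusion sequence (pointwise)
-/

open Set Classical

namespace E8

/-- `S` is the set of all nodes of `T` below `m`, and every node cut at `m` is in `S`;
`s0` is the root -/
structure Inv (T : Set Fs) (s0 : Fs) (S : Finset Fs) (m : ℕ) : Prop where
  root : IsRoot T s0
  mem : ∀ t, t ∈ S ↔ t ∈ T ∧ ∀ k ∈ t, k < m
  cut : ∀ t ∈ T, cutF t m ∈ S

/-- one step of a fusion sequence (pointwise): from `(R, S, m)` to `(R', S', m')` with the finite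
family `E` in `[m, m')` -/
structure Step (k : ℕ) (s0 : Fs) (R : QC) (S : Finset Fs) (m : ℕ) (E : Finset Fs)
    (R' : QC) (S' : Finset Fs) (m' : ℕ) : Prop where
  sub : R'.T ⊆ R.T
  ref : ∀ c ∈ R'.C, ∃ c' ∈ R.C, c' ⊆ c
  inv : Inv R'.T s0 S' m'
  SS : S ⊆ S'
  lt : m < m'
  fl : FL k E
  EC : ∀ c ∈ E, ∃ c' ∈ R.C, c' ⊆ c
  Em : ∀ c ∈ E, ∀ k ∈ c, m ≤ k ∧ k < m'
  ext : ∀ s ∈ S, ∀ c ∈ E, ∃ f ⊆ c, Above s f ∧ s ∪ f ∈ S'

private theorem qm_mono {s0 : Fs} {R : ℕ → QC} {S : ℕ → Finset Fs} {m : ℕ → ℕ}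
    {E : ℕ → Finset Fs}
    (h : ∀ k, Step k s0 (R k) (S k) (m k) (E k) (R (k + 1)) (S (k + 1)) (m (k + 1))) :
    StrictMono m := strictMono_nat_of_lt_succ fun k => (h k).lt

private theorem qm_Inv {s0 : Fs} {R : ℕ → QC} {S : ℕ → Finset Fs} {m : ℕ → ℕ}
    {E : ℕ → Finset Fs} (h0 : Inv (R 0).T s0 (S 0) (m 0))
    (h : ∀ k, Step k s0 (R k) (S k) (m k) (E k) (R (k + 1)) (S (k + 1)) (m (k + 1))) :
    ∀ k, Inv (R k).T s0 (S k) (m k)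
  | 0 => h0
  | k + 1 => (h k).inv

private theorem qm_T {s0 : Fs} {R : ℕ → QC} {S : ℕ → Finset Fs} {m : ℕ → ℕ}
    {E : ℕ → Finset Fs}
    (h : ∀ k, Step k s0 (R k) (S k) (m k) (E k) (R (k + 1)) (S (k + 1)) (m (k + 1)))
    {k l : ℕ} (hkl : k ≤ l) : (R l).T ⊆ (R k).T := by
  induction l, hkl using Nat.le_induction with
  | base => exact Subset.rfl
  | succ l _ ih => exact (h l).sub.trans ih

private theorem qm_SS {s0 : Fs} {R : ℕ → QC} {S : ℕ → Finset Fs} {m : ℕ → ℕ}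
    {E : ℕ → Finset Fs}
    (h : ∀ k, Step k s0 (R k) (S k) (m k) (E k) (R (k + 1)) (S (k + 1)) (m (k + 1)))
    {k l : ℕ} (hkl : k ≤ l) : S k ⊆ S l := by
  induction l, hkl using Nat.le_induction with
  | base => exact Finset.Subset.refl _
  | succ l _ ih => exact ih.trans (h l).SS

private theorem qm_ref {s0 : Fs} {R : ℕ → QC} {S : ℕ → Finset Fs} {m : ℕ → ℕ}
    {E : ℕ → Finset Fs}
    (h : ∀ k, Step k s0 (R k) (S k) (m k) (E k) (R (k + 1)) (S (k + 1)) (m (k + 1)))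
    {k l : ℕ} (hkl : k ≤ l) : ∀ c ∈ (R l).C, ∃ c' ∈ (R k).C, c' ⊆ c := by
  induction l, hkl using Nat.le_induction with
  | base => exact fun c hc => ⟨c, hc, Finset.Subset.refl _⟩
  | succ l _ ih =>
    intro c hc
    obtain ⟨c1, hc1, hs1⟩ := (h l).ref c hc
    obtain ⟨c2, hc2, hs2⟩ := ih c1 hc1
    exact ⟨c2, hc2, hs2.trans hs1⟩

private theorem qm_le {s0 : Fs} {R : ℕ → QC} {S : ℕ → Finset Fs} {m : ℕ → ℕ}
    {E : ℕ → Finset Fs}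
    (h : ∀ k, Step k s0 (R k) (S k) (m k) (E k) (R (k + 1)) (S (k + 1)) (m (k + 1)))
    {k l : ℕ} {c : Fs} (hc : c ∈ E l) (hj : ∃ j ∈ c, m k ≤ j) : k ≤ l := by
  obtain ⟨j, hj, hmj⟩ := hj
  have h1 := ((h l).Em c hc j hj).2
  have h2 : m k < m (l + 1) := lt_of_le_of_lt hmj h1
  have h3 : k < l + 1 := (qm_mono h).lt_iff_lt.1 h2
  omega

private theorem qm_WT {s0 : Fs} {R : ℕ → QC} {S : ℕ → Finset Fs} {m : ℕ → ℕ}
    {E : ℕ → Finset Fs} (h0 : Inv (R 0).T s0 (S 0) (m 0))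
    (h : ∀ k, Step k s0 (R k) (S k) (m k) (E k) (R (k + 1)) (S (k + 1)) (m (k + 1))) (k : ℕ) :
    (⋃ k, (S k : Set Fs)) ⊆ (R k).T := by
  intro t ht
  obtain ⟨l, hl⟩ := mem_iUnion.1 ht
  have hl' : t ∈ S l := hl
  rcases le_total k l with hkl | hlk
  · exact qm_T h hkl (((qm_Inv h0 h l).mem t).1 hl').1
  · exact (((qm_Inv h0 h k).mem t).1 (qm_SS h hlk hl')).1

private theorem qm_root {s0 : Fs} {R : ℕ → QC} {S : ℕ → Finset Fs} {m : ℕ → ℕ}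
    {E : ℕ → Finset Fs} (h0 : Inv (R 0).T s0 (S 0) (m 0))
    (h : ∀ k, Step k s0 (R k) (S k) (m k) (E k) (R (k + 1)) (S (k + 1)) (m (k + 1))) :
    IsRoot (⋃ k, (S k : Set Fs)) s0 := by
  refine ⟨?_, fun t ht => h0.root.2 t (qm_WT h0 h 0 ht)⟩
  have h1 := h0.cut s0 h0.root.1
  have h2 := (h0.root.2 _ (((h0.mem _).1 h1).1)).1
  have h3 : cutF s0 (m 0) = s0 :=
    Finset.Subset.antisymm (Finset.filter_subset _ _) h2
  rw [h3] at h1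
  exact mem_iUnion.2 ⟨0, h1⟩

private theorem qm_inv {s0 : Fs} {R : ℕ → QC} {S : ℕ → Finset Fs} {m : ℕ → ℕ}
    {E : ℕ → Finset Fs} (h0 : Inv (R 0).T s0 (S 0) (m 0))
    (h : ∀ k, Step k s0 (R k) (S k) (m k) (E k) (R (k + 1)) (S (k + 1)) (m (k + 1))) (k : ℕ) :
    Inv (⋃ k, (S k : Set Fs)) s0 (S k) (m k) := by
  refine ⟨qm_root h0 h, ?_, ?_⟩
  · intro t
    constructor
    · intro ht
      exact ⟨mem_iUnion.2 ⟨k, ht⟩, (((qm_Inv h0 h k).mem t).1 ht).2⟩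
    · rintro ⟨ht, hk⟩
      exact ((qm_Inv h0 h k).mem t).2 ⟨qm_WT h0 h k ht, hk⟩
  · intro t ht
    exact (qm_Inv h0 h k).cut t (qm_WT h0 h k ht)

/-- the limit of a fusion sequence -/
theorem fusion_limit (s0 : Fs) (R : ℕ → QC) (S : ℕ → Finset Fs) (m : ℕ → ℕ) (E : ℕ → Finset Fs)
    (h0 : Inv (R 0).T s0 (S 0) (m 0)) (hQ : ∀ k, IsQ (R k))
    (h : ∀ k, Step k s0 (R k) (S k) (m k) (E k) (R (k + 1)) (S (k + 1)) (m (k + 1))) :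
    let W : QC := ⟨⋃ k, (S k : Set Fs), ⋃ k, (E k : Set Fs)⟩
    IsQ W ∧ IsRoot W.T s0 ∧ (∀ k, QLe W (R k)) ∧ (∀ k, Inv W.T s0 (S k) (m k)) ∧
      (∀ k, ∀ c ∈ W.C, (∃ j ∈ c, m k ≤ j) → ∃ c' ∈ (R k).C, c' ⊆ c) ∧
      (∀ z ∈ br W.T, ∀ k, cut z (m k) ∈ S k) := by
  intro W
  have hroot : IsRoot W.T s0 := qm_root h0 h
  have hinv : ∀ k, Inv W.T s0 (S k) (m k) := qm_inv h0 h
  have hclause : ∀ k, ∀ c ∈ W.C, (∃ j ∈ c, m k ≤ j) → ∃ c' ∈ (R k).C, c' ⊆ c := by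
    intro k c hc hj
    obtain ⟨l, hl⟩ := mem_iUnion.1 hc
    have hkl : k ≤ l := qm_le h hl hj
    obtain ⟨c1, hc1, hs1⟩ := (h l).EC c hl
    obtain ⟨c2, hc2, hs2⟩ := qm_ref h hkl c1 hc1
    exact ⟨c2, hc2, hs2.trans hs1⟩
  have hne : ∀ c ∈ W.C, c.Nonempty := by
    intro c hc
    obtain ⟨l, hl⟩ := mem_iUnion.1 hc
    exact (h l).fl.1 c hl
  refine ⟨⟨⟨s0, hroot⟩, ?_, ?_⟩, hroot, ?_, hinv, hclause, ?_⟩
  · refine large_of_finite hne ?_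
    intro m' n
    refine ⟨E (max m' n), FL.mono (h _).fl (le_max_left _ _), ?_⟩
    intro c hc
    refine ⟨mem_iUnion.2 ⟨_, hc⟩, ?_⟩
    intro k hk
    have h1 := ((h (max m' n)).Em c hc k hk).1
    have h2 := (qm_mono h).le_apply (x := max m' n)
    have h3 := le_max_right m' n
    omega
  · intro s hs
    obtain ⟨k, hk⟩ := mem_iUnion.1 hs
    refine ⟨m k, ?_⟩
    intro c hc hck
    obtain ⟨l, hl⟩ := mem_iUnion.1 hc
    obtain ⟨j, hj⟩ := hne c hc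
    have hkl : k ≤ l := qm_le h hl ⟨j, hj, hck j hj⟩
    obtain ⟨f, hf, hab, hsf⟩ := (h l).ext s (qm_SS h hkl hk) c hl
    exact ⟨f, hf, hab, mem_iUnion.2 ⟨l + 1, hsf⟩⟩
  · intro k
    refine ⟨qm_WT h0 h k, m k, ?_⟩
    intro c hc hck
    obtain ⟨j, hj⟩ := hne c hc
    exact hclause k c hc ⟨j, hj, hck j hj⟩
  · intro z hz k
    obtain ⟨m', hm', hcut⟩ := exists_cut_mem hz (m k)
    have := (hinv k).cut _ hcut
    rwa [cutF_cut hm'] at this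

/-- membership in the limit is decided at a finite stage -/
theorem fusion_limit_mem (s0 : Fs) (R : ℕ → QC) (S : ℕ → Finset Fs) (m : ℕ → ℕ)
    (E : ℕ → Finset Fs) (h0 : Inv (R 0).T s0 (S 0) (m 0))
    (h : ∀ k, Step k s0 (R k) (S k) (m k) (E k) (R (k + 1)) (S (k + 1)) (m (k + 1)))
    (t : Fs) (k : ℕ) (hk : ∀ j ∈ t, j < k) :
    ((t ∈ ⋃ k, (S k : Set Fs)) ↔ t ∈ S k) ∧ ((t ∈ ⋃ k, (E k : Set Fs)) ↔ ∃ i < k, t ∈ E i) := by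
  have hkm : ∀ i, i ≤ m i := fun i => (qm_mono h).le_apply
  refine ⟨⟨fun ht => ((qm_inv h0 h k).mem t).2 ⟨ht, fun j hj => ?_⟩,
    fun ht => mem_iUnion.2 ⟨k, ht⟩⟩, ⟨fun ht => ?_, ?_⟩⟩
  · exact lt_of_lt_of_le (hk j hj) (hkm k)
  · obtain ⟨i, hi⟩ := mem_iUnion.1 ht
    have hi' : t ∈ E i := hi
    obtain ⟨j, hj⟩ := (h i).fl.1 t hi'
    have h1 := ((h i).Em t hi' j hj).1
    exact ⟨i, lt_of_le_of_lt ((hkm i).trans h1) (hk j hj), hi'⟩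
  · rintro ⟨i, _, hi⟩
    exact mem_iUnion.2 ⟨i, hi⟩

end E8
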