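import Pool.Agent.Lib.MP_e8be47_lc.Basic

/-!
# Barely independent families and the reaping number
-/

open Cardinal

namespace Pool.Agent.Lib.MP_e8be47_lc

/-- Countably many infinite sets can be split by one set. -/
theorem exists_splits_seq (R : ℕ → Set ℕ) (hR : ∀ n, (R n).Infinite) :
    ∃ S : Set ℕ, ∀ n, Splits S (R n) := by
  classical
  have hstep : ∀ (k m : ℕ), ∃ x ∈ R ((k / 2).unpair.1), m < x := fun k m =>
    (Set.infinite_iff_exists_gt.mp (hR _)) m
  choose g hg hlt using hstep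
  let x : ℕ → ℕ := fun n => Nat.rec (motive := fun _ => ℕ) (g 0 0) (fun k m => g (k + 1) m) n
  have hxs : ∀ k, x (k + 1) = g (k + 1) (x k) := fun k => rfl
  have hxR : ∀ k, x k ∈ R ((k / 2).unpair.1) := by
    intro k
    cases k with
    | zero => exact hg 0 0
    | succ k => rw [hxs]; exact hg _ _
  have hmono : StrictMono x := strictMono_nat_of_lt_succ fun k => by rw [hxs]; exact hlt _ _
  refine ⟨Set.range fun j => x (2 * j), fun n => ⟨?_, ?_⟩⟩
  · rw [Set.infinite_iff_exists_gt]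
    intro N
    refine ⟨x (2 * Nat.pair n N), ⟨?_, ⟨_, rfl⟩⟩, ?_⟩
    · have := hxR (2 * Nat.pair n N)
      rwa [Nat.mul_div_cancel_left _ (by norm_num), Nat.unpair_pair] at this
    · have h1 : N ≤ Nat.pair n N := Nat.right_le_pair _ _
      have h2 : 2 * Nat.pair n N ≤ x (2 * Nat.pair n N) := hmono.le_apply
      rcases Nat.eq_zero_or_pos (Nat.pair n N) with h0 | h0
      · -- N = 0
        have hN : N = 0 := by omega
        rw [hN] at h0 ⊢
        rw [h0]
        have : (0 : ℕ) < x 0 := by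
          have := hlt 0 0
          exact this
        simpa using this
      · omega
  · rw [Set.infinite_iff_exists_gt]
    intro N
    refine ⟨x (2 * Nat.pair n N + 1), ⟨?_, ?_⟩, ?_⟩
    · have := hxR (2 * Nat.pair n N + 1)
      rwa [show (2 * Nat.pair n N + 1) / 2 = Nat.pair n N by omega, Nat.unpair_pair] at this
    · rintro ⟨j, hj⟩
      have hj' : x (2 * j) = x (2 * Nat.pair n N + 1) := hj
      have := hmono.injective (a₁ := 2 * j) (a₂ := 2 * Nat.pair n N + 1) hj'
      omega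
    · have h1 : N ≤ Nat.pair n N := Nat.right_le_pair _ _
      have h2 : 2 * Nat.pair n N + 1 ≤ x (2 * Nat.pair n N + 1) := hmono.le_apply
      omega

theorem exists_reaping :
    ∃ ℛ : Set (Set ℕ), #ℛ = reapingNumber ∧ (∀ R ∈ ℛ, R.Infinite) ∧
      ∀ S : Set ℕ, ∃ R ∈ ℛ, ¬ Splits S R := by
  have hne : {κ : Cardinal.{0} | ∃ ℛ : Set (Set ℕ), #ℛ = κ ∧ (∀ R ∈ ℛ, R.Infinite) ∧
      ∀ S : Set ℕ, ∃ R ∈ ℛ, ¬ Splits S R}.Nonempty := by
    refine ⟨_, {R | R.Infinite}, rfl, fun R hR => hR, ?_⟩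
    intro S
    by_cases hS : S.Infinite
    · refine ⟨S, hS, ?_⟩
      rintro ⟨_, h⟩
      simp at h
    · refine ⟨Sᶜ, (Set.not_infinite.mp hS).infinite_compl, ?_⟩
      rintro ⟨h, _⟩
      simp at h
  exact csInf_mem hne

theorem aleph0_lt_reapingNumber : ℵ₀ < reapingNumber := by
  obtain ⟨ℛ, hcard, hinf, hreap⟩ := exists_reaping
  rw [← hcard]
  by_contra hcon
  push Not at hcon
  have hcount : ℛ.Countable := Cardinal.le_aleph0_iff_set_countable.mp hcon
  have hne : ℛ.Nonempty := by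
    obtain ⟨R, hR, _⟩ := hreap ∅
    exact ⟨R, hR⟩
  obtain ⟨f, hf⟩ := hcount.exists_eq_range hne
  have hfi : ∀ n, (f n).Infinite := by
    intro n
    apply hinf
    rw [hf]
    exact ⟨n, rfl⟩
  obtain ⟨S, hS⟩ := exists_splits_seq f hfi
  obtain ⟨R, hR, hns⟩ := hreap S
  rw [hf] at hR
  obtain ⟨n, rfl⟩ := hR
  exact hns (hS n)

theorem not_isBSeq_of_reapingNumber_lt_cof {X : Type} [Infinite X]
    (h : reapingNumber < (#X).ord.cof) (A : ℕ → Set X) : ¬ IsBSeq A := by
  classical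
  intro hA
  obtain ⟨ℛ, hcard, hinf, hreap⟩ := exists_reaping
  have hXinf : ℵ₀ ≤ #X := Cardinal.infinite_iff.mp inferInstance
  set ι := ℛ × (ℕ × Bool)
  set Z : ι → Set X := fun i => cyl A {n | n ∈ i.1.1 ∧ i.2.1 ≤ n} (fun _ => i.2.2 = true) with hZ
  have hZlt : ∀ i, #(Z i) < #X := by
    rintro ⟨⟨R, hR⟩, N, b⟩
    refine hA.inf _ _ ?_
    rw [Set.infinite_iff_exists_gt]
    intro M
    obtain ⟨n, hn, hMn⟩ := (Set.infinite_iff_exists_gt.mp (hinf R hR)) (max M N)
    exact ⟨n, ⟨hn, ((le_max_right M N).trans_lt hMn).le⟩, (le_max_left M N).trans_lt hMn⟩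
  have hcover : (⋃ i, Z i) = Set.univ := by
    rw [Set.eq_univ_iff_forall]
    intro x
    obtain ⟨R, hR, hns⟩ := hreap {n | x ∈ A n}
    unfold Splits at hns
    rw [not_and_or, Set.not_infinite, Set.not_infinite] at hns
    rcases hns with h1 | h1
    · obtain ⟨N, hN⟩ := h1.bddAbove
      refine Set.mem_iUnion.mpr ⟨(⟨R, hR⟩, N + 1, false), ?_⟩
      intro n hn
      simp only [Bool.false_eq_true, iff_false]
      intro hx
      have := hN ⟨hn.1, hx⟩
      have := hn.2
      simp only at this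
      omega
    · obtain ⟨N, hN⟩ := h1.bddAbove
      refine Set.mem_iUnion.mpr ⟨(⟨R, hR⟩, N + 1, true), ?_⟩
      intro n hn
      simp only [iff_true]
      by_contra hx
      have := hN ⟨hn.1, hx⟩
      have := hn.2
      simp only at this
      omega
  have hι : #ι = reapingNumber := by
    simp only [ι, Cardinal.mk_prod, Cardinal.lift_id, hcard, Cardinal.mk_nat, Cardinal.mk_bool]
    have h1 : (ℵ₀ : Cardinal.{0}) * 2 = ℵ₀ := by
      exact Cardinal.aleph0_mul_ofNat
    rw [h1]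
    exact Cardinal.mul_aleph0_eq aleph0_lt_reapingNumber.le
  have h1 : #X ≤ #ι * ⨆ i, #(Z i) := by
    have := Cardinal.mk_iUnion_le Z
    rwa [hcover, Cardinal.mk_univ] at this
  have h2 : (⨆ i, #(Z i)) < #X := by
    apply Cardinal.iSup_lt_of_lt_cof_ord _ hZlt
    rwa [hι]
  have h3 : #ι < #X := by
    rw [hι]
    exact h.trans_le (Ordinal.cof_ord_le _)
  exact absurd (Cardinal.mul_lt_of_lt hXinf h3 h2) (not_lt.mpr h1)

/-- If `𝔯 = 𝔠` there is a barely independent sequence over `𝔠`. -/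
theorem exists_isBSeq_of_reapingNumber_eq (h : reapingNumber = 𝔠) :
    ∃ A : ℕ → Set (Cardinal.continuum.{0}).ord.ToType, IsBSeq A := by
  classical
  set X := (Cardinal.continuum.{0}).ord.ToType with hXdef
  have hX : #X = 𝔠 := by simp [X]
  have hXinf : ℵ₀ ≤ #X := by rw [hX]; exact Cardinal.aleph0_le_continuum
  have hXi : Infinite X := Cardinal.infinite_iff.mpr hXinf
  have hseg : ∀ α : X, #(Set.Iio α) < #X := by
    intro α
    exact Cardinal.mk_Iio_lt α (by simp [X])
  -- enumeration of infinite partial functions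
  obtain ⟨H, hH⟩ : ∃ H : X → Set ℕ × Set ℕ, Function.Surjective H := by
    have h1 : #(Set ℕ × Set ℕ) = #X := by
      rw [hX, Cardinal.mk_prod, Cardinal.lift_id, Cardinal.mk_set, Cardinal.mk_nat,
        Cardinal.two_power_aleph0, Cardinal.continuum_mul_self]
    obtain ⟨e⟩ := Cardinal.eq.mp h1
    exact ⟨e.symm, e.symm.surjective⟩
  obtain ⟨t, ht⟩ : ∃ t : X → Finset ℕ × Finset ℕ, ∀ τ, #{α | t α = τ} = #X := by
    have h1 : #(X × (Finset ℕ × Finset ℕ)) = #X := by
      rw [Cardinal.mk_prod, Cardinal.lift_id, Cardinal.lift_id,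
        Cardinal.mk_eq_aleph0 (Finset ℕ × Finset ℕ)]
      exact Cardinal.mul_aleph0_eq hXinf
    obtain ⟨e⟩ := Cardinal.eq.mp h1
    refine ⟨fun α => (e.symm α).2, fun τ => le_antisymm (Cardinal.mk_set_le _) ?_⟩
    refine Cardinal.mk_le_of_injective (f := fun β : X => (⟨e (β, τ), by simp⟩ :
      {α | (e.symm α).2 = τ})) ?_
    intro β γ hβγ
    have := congrArg Subtype.val hβγ
    simpa using this
  -- choice of the reals
  have hchoose : ∀ α : X, ∃ x : Set ℕ, (∀ n ∈ (t α).1, (n ∈ x ↔ n ∈ (t α).2)) ∧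
      ∀ β < α, (H β).1.Infinite → ¬ ∀ n ∈ (H β).1, (n ∈ x ↔ n ∈ (H β).2) := by
    intro α
    set F := (t α).1
    set G := (t α).2
    set ℛ : Set (Set ℕ) := {R | R.Infinite ∧ ∃ β < α, R = ((H β).1 ∩ (H β).2) \ F ∨
      R = ((H β).1 \ (H β).2) \ F} with hℛ
    have hℛcard : #ℛ < reapingNumber := by
      have hsub : ℛ ⊆ (fun β => ((H β).1 ∩ (H β).2) \ (F : Set ℕ)) '' (Set.Iio α) ∪
          (fun β => ((H β).1 \ (H β).2) \ (F : Set ℕ)) '' (Set.Iio α) := by
        rintro R ⟨_, β, hβ, h1 | h1⟩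
        · exact Or.inl ⟨β, hβ, h1.symm⟩
        · exact Or.inr ⟨β, hβ, h1.symm⟩
      refine (Cardinal.mk_le_mk_of_subset hsub).trans_lt ?_
      refine (Cardinal.mk_union_le _ _).trans_lt ?_
      rw [h]
      exact lt_of_lt_of_eq (Cardinal.add_lt_of_lt hXinf
        (Cardinal.mk_image_le.trans_lt (hseg α))
        (Cardinal.mk_image_le.trans_lt (hseg α))) hX
    obtain ⟨S, hS⟩ : ∃ S : Set ℕ, ∀ R ∈ ℛ, Splits S R := by
      by_contra hcon
      push Not at hcon
      have : reapingNumber ≤ #ℛ := csInf_le' ⟨ℛ, rfl, fun R hR => hR.1, hcon⟩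
      exact absurd hℛcard (not_lt.mpr this)
    refine ⟨(S \ F) ∪ (G ∩ F), ?_, ?_⟩
    · intro n hn
      simp only [Set.mem_union, Set.mem_sdiff, Set.mem_inter_iff, Finset.mem_coe]
      tauto
    · intro β hβ hinf hall
      have hsplit : Set.Infinite ((((H β).1 ∩ (H β).2) \ (F : Set ℕ)) ∪
          (((H β).1 \ (H β).2) \ (F : Set ℕ))) := by
        refine (hinf.sdiff F.finite_toSet).mono ?_
        intro n hn
        by_cases h2 : n ∈ (H β).2
        · exact Or.inl ⟨⟨hn.1, h2⟩, hn.2⟩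
        · exact Or.inr ⟨⟨hn.1, h2⟩, hn.2⟩
      rw [Set.infinite_union] at hsplit
      rcases hsplit with h1 | h1
      · have h1' : (((H β).1 ∩ (H β).2) \ (F : Set ℕ)).Infinite := by
          exact h1
        have h2 := (hS _ ⟨h1', β, hβ, Or.inl rfl⟩).2
        obtain ⟨n, hn⟩ := h2.nonempty
        have h3 := (hall n hn.1.1.1).mpr hn.1.1.2
        rcases h3 with h3 | h3
        · exact hn.2 h3.1
        · exact hn.1.2 h3.2
      · have h2 := (hS _ ⟨h1, β, hβ, Or.inr rfl⟩).1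
        obtain ⟨n, hn⟩ := h2.nonempty
        have h3 := (hall n hn.1.1.1).mp (Or.inl ⟨hn.2, hn.1.2⟩)
        exact hn.1.1.2 h3
  choose x hx1 hx2 using hchoose
  refine ⟨fun n => {α | n ∈ x α}, ?_, ?_⟩
  · intro a e
    refine le_antisymm (Cardinal.mk_set_le _) ?_
    rw [← ht (a, a.filter e)]
    refine Cardinal.mk_le_mk_of_subset ?_
    intro α hα n hn
    have hα' : t α = (a, a.filter e) := hα
    have := hx1 α n (by rw [hα']; exact hn)
    rw [hα'] at this
    simp only [Finset.mem_filter] at this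
    have hn' : n ∈ a := Finset.mem_coe.mp hn
    simp only [Set.mem_ofPred_eq]
    tauto
  · intro a e ha
    obtain ⟨β, hβ⟩ := hH (a, {n | e n})
    have hsub : cyl (fun n => {α | n ∈ x α}) a e ⊆ insert β (Set.Iio β) := by
      intro α hα
      by_contra hcon
      simp only [Set.mem_insert_iff, Set.mem_Iio, not_or, not_lt] at hcon
      have hlt : β < α := lt_of_le_of_ne hcon.2 (Ne.symm hcon.1)
      refine hx2 α β hlt (by rw [hβ]; exact ha) ?_
      intro n hn
      rw [hβ] at hn ⊢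
      exact hα n hn
    refine (Cardinal.mk_le_mk_of_subset hsub).trans_lt ?_
    refine (Cardinal.mk_insert_le).trans_lt ?_
    exact Cardinal.add_lt_of_lt hXinf (hseg β) (Cardinal.one_lt_aleph0.trans_le hXinf)

end Pool.Agent.Lib.MP_e8be47_lc
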