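import Pool.Agent.Lib.MP_e8be47_lc.Basic

/-!
# No barely independent family over a cardinal below the splitting number
-/

open Cardinal

namespace Pool.Agent.Lib.MP_e8be47_lc

/-- An increasing countable union of size `#X` has arbitrarily large pieces. -/
theorem exists_large_piece {X : Type} [Infinite X] (Z : ℕ → Set X) (hZ : Monotone Z)
    (hU : #(⋃ N, Z N : Set X) = #X) {μ : Cardinal.{0}} (hμ : μ < #X) : ∃ N, μ < #(Z N) := by
  by_contra hcon
  push Not at hcon
  rcases lt_or_ge μ ℵ₀ with hfin | hinf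
  · obtain ⟨k, rfl⟩ := Cardinal.lt_aleph0.mp hfin
    have h1 : ((k + 1 : ℕ) : Cardinal.{0}) ≤ #(⋃ N, Z N : Set X) := by
      rw [hU]
      exact (Cardinal.natCast_lt_aleph0).le.trans (Cardinal.infinite_iff.mp inferInstance)
    obtain ⟨t, ht, hcard⟩ : ∃ t : Finset X, (t : Set X) ⊆ ⋃ N, Z N ∧ t.card = k + 1 := by
      obtain ⟨p, hp⟩ := Cardinal.le_mk_iff_exists_subset.mp h1
      have hfin : p.Finite := by
        rw [← Cardinal.lt_aleph0_iff_set_finite, hp.2]
        exact Cardinal.natCast_lt_aleph0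
      refine ⟨hfin.toFinset, by simpa using hp.1, ?_⟩
      have h2 : #p = ((hfin.toFinset.card : ℕ) : Cardinal.{0}) := by
        have h3 : #p = #(hfin.toFinset : Set X) := by rw [Set.Finite.coe_toFinset]
        exact h3.trans Cardinal.mk_coe_finset
      rw [h2] at hp
      exact_mod_cast hp.2
    have hN : ∃ N, (t : Set X) ⊆ Z N := by
      have : ∀ x ∈ t, ∃ N, x ∈ Z N := fun x hx => Set.mem_iUnion.mp (ht hx)
      choose! n hn using this
      refine ⟨t.sup n, fun x hx => hZ (Finset.le_sup (Finset.mem_coe.mp hx)) (hn x hx)⟩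
    obtain ⟨N, hN⟩ := hN
    have h3 : ((k + 1 : ℕ) : Cardinal.{0}) ≤ #(Z N) := by
      rw [← hcard, ← Cardinal.mk_coe_finset]
      exact Cardinal.mk_le_mk_of_subset hN
    have h4 := h3.trans (hcon N)
    have : k + 1 ≤ k := by exact_mod_cast h4
    omega
  · have h1 : #(⋃ N, Z N : Set X) ≤ #ℕ * ⨆ N, #(Z N) := Cardinal.mk_iUnion_le Z
    have h2 : (⨆ N, #(Z N)) ≤ μ := ciSup_le' hcon
    have h3 : #(⋃ N, Z N : Set X) ≤ ℵ₀ * μ := h1.trans (by
      rw [Cardinal.mk_nat]
      exact mul_le_mul_right h2 _)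
    rw [Cardinal.aleph0_mul_eq hinf, hU] at h3
    exact absurd hμ (not_lt.mpr h3)

theorem no_bseq_of_lt_splittingNumber {X : Type} [Infinite X] (hX : #X < splittingNumber)
    (A : ℕ → Set X) : ¬ IsBSeq A := by
  classical
  intro hA
  -- an infinite set unsplit by all traces
  obtain ⟨a, ha, hunsplit⟩ : ∃ a : Set ℕ, a.Infinite ∧ ∀ x : X, ¬ Splits {n | x ∈ A n} a := by
    by_contra hcon
    push Not at hcon
    have h1 : splittingNumber ≤ #(Set.range fun x : X => {n | x ∈ A n}) := by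
      refine csInf_le' ⟨_, rfl, ?_⟩
      intro B hB
      obtain ⟨x, hx⟩ := hcon B hB
      exact ⟨_, ⟨x, rfl⟩, hx⟩
    have h2 : #(Set.range fun x : X => {n | x ∈ A n}) ≤ #X := Cardinal.mk_range_le
    exact absurd hX (not_lt.mpr (h1.trans h2))
  -- eventual behaviour
  set Y : Prop → ℕ → Set X := fun e N => {x | ∀ n ∈ a, N ≤ n → (x ∈ A n ↔ e)} with hY
  have hYmono : ∀ e, Monotone (Y e) := fun e M N hMN x hx n hn hNn => hx n hn (hMN.trans hNn)
  have hYlt : ∀ e N, #(Y e N) < #X := by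
    intro e N
    have hinf : {n ∈ a | N ≤ n}.Infinite := by
      rw [Set.infinite_iff_exists_gt]
      intro M
      obtain ⟨n, hn, hMn⟩ := (Set.infinite_iff_exists_gt.mp ha) (max M N)
      exact ⟨n, ⟨hn, ((le_max_right M N).trans_lt hMn).le⟩, (le_max_left M N).trans_lt hMn⟩
    refine lt_of_le_of_lt (le_of_eq ?_) (hA.inf {n ∈ a | N ≤ n} (fun _ => e) hinf)
    congr 2
    ext x
    simp only [hY, cyl, Set.mem_ofPred_eq, and_imp]
  set D : Prop → Set X := fun e => ⋃ N, Y e N with hD
  have hcover : ∀ x : X, x ∈ D True ∨ x ∈ D False := by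
    intro x
    have := hunsplit x
    unfold Splits at this
    rw [not_and_or, Set.not_infinite, Set.not_infinite] at this
    rcases this with h | h
    · right
      obtain ⟨N, hN⟩ := h.bddAbove
      refine Set.mem_iUnion.mpr ⟨N + 1, ?_⟩
      intro n hn hNn
      constructor
      · intro hx
        have := hN ⟨hn, hx⟩
        omega
      · exact False.elim
    · left
      obtain ⟨N, hN⟩ := h.bddAbove
      refine Set.mem_iUnion.mpr ⟨N + 1, ?_⟩
      intro n hn hNn
      refine ⟨fun _ => trivial, fun _ => ?_⟩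
      by_contra hx
      have := hN ⟨hn, hx⟩
      omega
  -- choose the dominating value
  obtain ⟨e, a', ha'a, ha', hbig⟩ : ∃ (e : Prop) (a' : Set ℕ), a' ⊆ a ∧ a'.Infinite ∧
      ∀ F : Finset ℕ, (F : Set ℕ) ⊆ a' →
        #(({x | ∀ m ∈ F, (x ∈ A m ↔ e)} ∩ D e : Set X)) = #X := by
    by_cases h : ∀ F : Finset ℕ, (F : Set ℕ) ⊆ a →
        #(({x | ∀ m ∈ F, (x ∈ A m ↔ True)} ∩ D True : Set X)) = #X
    · exact ⟨True, a, subset_rfl, ha, h⟩
    · push Not at h
      obtain ⟨F₀, hF₀, hne⟩ := h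
      have hlt : #(({x | ∀ m ∈ F₀, (x ∈ A m ↔ True)} ∩ D True : Set X)) < #X :=
        lt_of_le_of_ne (Cardinal.mk_set_le _) hne
      refine ⟨False, a \ F₀, Set.sdiff_subset, ha.sdiff F₀.finite_toSet, ?_⟩
      intro F hF
      have h1 := hA.fin (F₀ ∪ F) (fun n => n ∈ F₀)
      have h2 : cyl A ((F₀ ∪ F : Finset ℕ) : Set ℕ) (fun n => n ∈ F₀) ⊆
          ({x | ∀ m ∈ F₀, (x ∈ A m ↔ True)} ∩ D True) ∪
          ({x | ∀ m ∈ F, (x ∈ A m ↔ False)} ∩ D False) := by
        intro x hx
        rcases hcover x with hxT | hxF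
        · left
          refine ⟨fun m hm => ?_, hxT⟩
          have := hx m (by simp [hm])
          simpa [hm] using this
        · right
          refine ⟨fun m hm => ?_, hxF⟩
          have h3 := hx m (by simp [hm])
          have h4 : m ∉ F₀ := (hF (Finset.mem_coe.mpr hm)).2
          simpa [h4] using h3
      have h3 : #X ≤ #(({x | ∀ m ∈ F₀, (x ∈ A m ↔ True)} ∩ D True : Set X)) +
          #(({x | ∀ m ∈ F, (x ∈ A m ↔ False)} ∩ D False : Set X)) := by
        rw [← h1]
        exact (Cardinal.mk_le_mk_of_subset h2).trans (Cardinal.mk_union_le _ _)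
      refine le_antisymm (Cardinal.mk_set_le _) ?_
      by_contra hcon
      have h5 := Cardinal.add_lt_of_lt (Cardinal.infinite_iff.mp inferInstance) hlt
        (not_le.mp hcon)
      exact absurd h5 (not_lt.mpr h3)
  -- the recursion step
  have hstep : ∀ (i : ℕ) (F : Finset ℕ), (F : Set ℕ) ⊆ a' → ∃ m ∈ a', (∀ x ∈ F, x < m) ∧
      ∃ N ≤ m, #(Y e i) < #(({x | ∀ m ∈ F, (x ∈ A m ↔ e)} ∩ Y e N : Set X)) := by
    intro i F hF
    have hU : #(⋃ N, ({x | ∀ m ∈ F, (x ∈ A m ↔ e)} ∩ Y e N) : Set X) = #X := by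
      rw [← Set.inter_iUnion]
      exact hbig F hF
    obtain ⟨N, hN⟩ := exists_large_piece _
      (fun M N hMN => Set.inter_subset_inter_right _ (hYmono e hMN)) hU (hYlt e i)
    obtain ⟨m, hm, hmN⟩ := (Set.infinite_iff_exists_gt.mp ha') (max N (F.sup id))
    refine ⟨m, hm, fun x hx => ?_, N, ((le_max_left _ _).trans_lt hmN).le, hN⟩
    exact (Finset.le_sup (f := id) hx).trans_lt ((le_max_right _ _).trans_lt hmN)
  choose! g hga hglt N hNle hNlt using hstep
  let Fs : ℕ → Finset ℕ := fun n =>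
    Nat.rec (motive := fun _ => Finset ℕ) ∅ (fun i F => insert (g i F) F) n
  have hFs : ∀ i, Fs (i + 1) = insert (g i (Fs i)) (Fs i) := fun i => rfl
  have hFsub : ∀ i, ((Fs i : Finset ℕ) : Set ℕ) ⊆ a' := by
    intro i
    induction i with
    | zero => intro x hx; exact absurd hx (by simp [Fs])
    | succ i ih =>
      rw [hFs]
      intro x hx
      rcases Finset.mem_insert.mp (Finset.mem_coe.mp hx) with rfl | hx
      · exact hga i _ ih
      · exact ih (Finset.mem_coe.mpr hx)
  set m : ℕ → ℕ := fun i => g i (Fs i) with hm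
  have hmF : ∀ i j, i < j → m i ∈ Fs j := by
    intro i j hij
    induction j, hij using Nat.le_induction with
    | base => rw [hFs]; exact Finset.mem_insert_self _ _
    | succ j _ ih => rw [hFs]; exact Finset.mem_insert_of_mem ih
  have hmmono : StrictMono m := by
    intro i j hij
    exact hglt j (Fs j) (hFsub j) _ (hmF i j hij)
  have hinfm : (Set.range m).Infinite := Set.infinite_range_of_injective hmmono.injective
  have hfinal := hA.inf (Set.range m) (fun _ => e) hinfm
  have hlower : ∀ i, #(Y e i) < #(cyl A (Set.range m) (fun _ => e)) := by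
    intro i
    refine (hNlt i (Fs i) (hFsub i)).trans_le (Cardinal.mk_le_mk_of_subset ?_)
    rintro x ⟨hx1, hx2⟩ _ ⟨j, rfl⟩
    rcases lt_or_ge j i with hji | hji
    · exact hx1 _ (hmF j i hji)
    · exact hx2 _ (ha'a (hga j _ (hFsub j)))
        ((hNle i (Fs i) (hFsub i)).trans (hmmono.monotone hji))
  -- contradiction: the pieces `Y e i` exhaust a set of size `#X`
  have hU : #(⋃ N, Y e N : Set X) = #X := by
    have := hbig ∅ (by simp)
    simpa using this
  obtain ⟨i, hi⟩ := exists_large_piece _ (hYmono e) hU hfinal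
  exact absurd (hlower i) (not_lt.mpr hi.le)

end Pool.Agent.Lib.MP_e8be47_lc
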