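import Pool.Agent.Lib.MP_e8be47_lc.DStep

/-!
# clopen sets, large families at nodes
-/

open Set Classical

set_option linter.unusedSectionVars false

namespace E8

variable {𝔸 : Type} [Tow 𝔸] {L : Type} [LinearOrder L] [WellFoundedLT L]

open Cond

/-- countably many open sets become clopen -/
theorem clopen_of_dc {Λ : Set L} (hD : DCP 𝔸 Λ) (a : 𝔸) {p : Cond L} (hp : p.In Λ)
    (O : ℕ → Set (Pt L)) (hO : ∀ n, Opn p (O n)) :
    ∃ a' ≤ a, ∃ p' ≤ p, p'.In Λ ∧ ∀ n, LC p' fun x => (x ∈ O n) := by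
  obtain ⟨a', ha', p', hp', hpI, σ, -, -, hσ⟩ :=
    hD {d : 𝔸 × Cond L // d.2.In Λ ∧ d.2 ≤ p} (fun s => s.1.1) (fun s => s.1.2)
      (fun n _ s' => s'.1.2.pts ⊆ O n ∨ Disjoint s'.1.2.pts (O n))
      (fun s => s.2.1)
      (by
        intro n s b _ v hv hvI
        have hvp : v ≤ p := le_trans hv s.2.2
        by_cases hx : ∃ x ∈ v.pts, x ∈ O n
        · obtain ⟨x, hx, hxO⟩ := hx
          obtain ⟨F, m, h, hs⟩ := Opn.mono hvp (hO n) x hx hxO
          exact ⟨⟨(b, v.at' x F m h), at_in hvI h, le_trans (at_le h) hvp⟩, Or.inl hs, le_rfl,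
            at_le h⟩
        · refine ⟨⟨(b, v), hvI, hvp⟩, Or.inr ?_, le_rfl, le_rfl⟩
          rw [Set.disjoint_left]
          intro x hxv hxO
          exact hx ⟨x, hxv, hxO⟩)
      ⟨(a, p), hp, le_rfl⟩ a le_rfl p le_rfl hp
  refine ⟨a', ha', p', hp', hpI, ?_⟩
  intro n x hx
  obtain ⟨hR, -, -⟩ := hσ x hx n
  obtain ⟨-, -, F, m, h, hle⟩ := hσ x hx (n + 1)
  refine ⟨F, m, h, ?_⟩
  intro y hy
  have hy' := pts_mono hle hy
  have hx' := pts_mono hle (self_mem_at hx h)
  rcases hR with hR | hR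
  · exact propext ⟨fun _ => hR hx', fun _ => hR hy'⟩
  · rw [Set.disjoint_left] at hR
    exact propext ⟨fun h1 => absurd h1 (hR hy'), fun h1 => absurd h1 (hR hx')⟩

/-- a continuous large family covered by finitely many continuous families (whose finite degrees
of largeness are decided): one of them is large at all points of a restriction -/
theorem exists_large_node {q : Cond L} {C : Pt L → Set Fs} (hC : ∀ x ∈ q.pts, Large (C x))
    {ι : Type} [Fintype ι] (D : ι → Pt L → Set Fs) (h : ∀ x ∈ q.pts, C x ⊆ ⋃ i, D i x)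
    (hD : ∀ i m n, LC q fun x => MN (D i x ∩ C x) m n) :
    ∃ i, ∃ x ∈ q.pts, ∃ F m, ∃ h : q.Leg x F m, ∀ y ∈ (q.at' x F m h).pts,
      Large (D i y ∩ C y) := by
  by_contra hcon
  push Not at hcon
  have key : ∀ I : Finset ι, ∃ x ∈ q.pts, ∃ F m, ∃ hl : q.Leg x F m, ∀ i ∈ I,
      ∀ y ∈ (q.at' x F m hl).pts, ¬ Large (D i y ∩ C y) := by
    intro I
    induction I using Finset.induction_on with
    | empty =>
      obtain ⟨x, hx⟩ := pts_nonempty q
      exact ⟨x, hx, ∅, fun _ => 0, legal_empty _ _ _, fun i hi => absurd hi (Finset.notMem_empty i)⟩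
    | insert i I _ ih =>
      obtain ⟨x, hx, F, m, hl, hI⟩ := ih
      obtain ⟨y, hy, hyL⟩ := hcon i x hx F m hl
      have hyq : y ∈ q.pts := ((mem_at hl).1 hy).1
      obtain ⟨m', n', hMN⟩ := not_large (fun c hc => (hC y hyq).1 c hc.2) hyL
      obtain ⟨F', m'', hl', hconst⟩ := hD i m' n' y hyq
      obtain ⟨F3, m3, hl3, hle1, hle2⟩ := Meets.inter hyq (Meets.congr hl hy le_rfl)
        (⟨F', m'', hl', le_rfl⟩ : Meets q y (q.at' y F' m'' hl'))
      refine ⟨y, hyq, F3, m3, hl3, ?_⟩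
      intro j hj z hz
      rcases Finset.mem_insert.1 hj with rfl | hj
      · intro hlarge
        have h1 : MN (D j z ∩ C z) m' n' = MN (D j y ∩ C y) m' n' := hconst z (pts_mono hle2 hz)
        apply hMN
        rw [← h1]
        exact hlarge.2 m' n'
      · exact hI j hj z (pts_mono hle1 hz)
  obtain ⟨x, hx, F, m, hl, hI⟩ := key Finset.univ
  obtain ⟨i, hi⟩ := (hC x hx).exists_large (fun i => D i x) (h x hx)
  exact hI i (Finset.mem_univ i) x (self_mem_at hx hl) hi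

/-- finite degrees of largeness of a continuous family are open -/
theorem MN_opn {q : Cond L} {C : Pt L → Set Fs} (hC : ∀ s, LC q fun x => (s ∈ C x))
    (hne : ∀ x ∈ q.pts, ∀ c ∈ C x, c.Nonempty) (m n : ℕ) : Opn q {x | MN (C x) m n} := by
  intro x hx hMN
  obtain ⟨E, hE, hEC⟩ := MN.exists_finite (hne x hx) hMN
  obtain ⟨F, m', h, hc⟩ := LC.finite (fun (s : Fs) (x : Pt L) => (s ∈ C x)) hC E hx
  refine ⟨F, m', h, ?_⟩
  intro y hy
  refine MN.of_finite hE ?_
  intro c hcE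
  refine ⟨?_, (hEC c hcE).2⟩
  have h1 : (c ∈ C y) = (c ∈ C x) := hc c hcE y hy
  rw [h1]
  exact (hEC c hcE).1

end E8
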