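import Pool.Agent.Lib.MP_e8be47_lc.VClop

/-!
# one set decides countably many reals
-/

open Set Classical

set_option linter.unusedSectionVars false

namespace E8

variable {𝔸 : Type} [Tow 𝔸] {L : Type} [LinearOrder L] [WellFoundedLT L]

open Cond

private theorem R4_bound (A : Set ℕ) (hA : A.Finite) : ∃ N : ℕ, ∀ j ∈ A, j < N := by
  obtain ⟨N, hN⟩ := hA.bddAbove
  exact ⟨N + 1, fun j hj => Nat.lt_succ_of_le (hN hj)⟩

/-- one set decides countably many reals of `V[G_Λ]` -/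
theorem decide_all {Λ : Set L} (hD : DCP 𝔸 Λ) (hS : SSP Λ) (a : 𝔸) {p : Cond L} (hp : p.In Λ)
    (Y : ℕ → Pt L → Set ℕ) (hY : ∀ i, CR p (Y i)) :
    ∃ a' ≤ a, ∃ p' ≤ p, p'.In Λ ∧ ∃ col : ℕ → Pt L → Bool, ∃ g : ℕ → Pt L → ℕ,
      (∀ i, LC p' (col i)) ∧ (∀ i, LC p' (g i)) ∧
      ∀ x ∈ p'.pts, ∀ i, ∀ j ∈ Tow.top a', g i x ≤ j → (j ∈ Y i x ↔ col i x = true) := by
  obtain ⟨a', ha', p', hp', hpI, σ, -, hσL, hσ⟩ :=
    hD {s : (𝔸 × Cond L) × (Bool × ℕ) // s.1.2.In Λ ∧ s.1.2 ≤ p}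
      (fun s => s.1.1.1) (fun s => s.1.1.2)
      (fun n _ s' => ∀ x ∈ s'.1.1.2.pts, ∀ j ∈ Tow.top s'.1.1.1, s'.1.2.2 ≤ j →
        (j ∈ Y n x ↔ s'.1.2.1 = true))
      (fun s => s.2.1)
      (by
        intro n s b hb v hv hvI
        have hvp : v ≤ p := le_trans hv s.2.2
        obtain ⟨v', hv', hv'I, W', hW', hWi, i, hi⟩ :=
          hS v hvI (Y n) (fun j => (hY n j).mono hvp) (Tow.top b) (Tow.top_inf b)
        obtain ⟨b', hb', hfin⟩ := Tow.shrink b W' hW' hWi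
        obtain ⟨N, hN⟩ := R4_bound _ hfin
        refine ⟨⟨((b', v'), (i, N)), hv'I, le_trans hv' hvp⟩, ?_, hb', hv'⟩
        intro x hx j hj hNj
        refine hi x hx j ?_
        by_contra hjW
        exact absurd (hN j ⟨hj, hjW⟩) (not_lt.2 hNj))
      ⟨((a, p), (true, 0)), hp, le_refl p⟩ a (le_refl a) p (le_refl p) hp
  have hb : ∀ b : 𝔸, ∃ N : ℕ, a' ≤ b → ∀ j ∈ Tow.top a' \ Tow.top b, j < N := by
    intro b
    by_cases h : a' ≤ b
    · obtain ⟨N, hN⟩ := R4_bound _ (Tow.top_mono b a' h)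
      exact ⟨N, fun _ => hN⟩
    · exact ⟨0, fun h' => absurd h' h⟩
  choose B hB using hb
  refine ⟨a', ha', p', hp', hpI, fun i x => (σ (i + 1) x).1.2.1,
    fun i x => max (σ (i + 1) x).1.2.2 (B (σ (i + 1) x).1.1.1), ?_, ?_, ?_⟩
  · intro i
    exact (hσL (i + 1)).comp (fun s => s.1.2.1)
  · intro i
    exact (hσL (i + 1)).comp (fun s => max s.1.2.2 (B s.1.1.1))
  · intro x hx i j hj hg
    have h1 := hσ x hx (i + 1)
    have h2 := (hσ x hx i).1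
    have hj' : j ∈ Tow.top (σ (i + 1) x).1.1.1 := by
      by_contra hn
      exact absurd (hB _ h1.2.1 j ⟨hj, hn⟩) (not_lt.2 (le_trans (le_max_right _ _) hg))
    exact h2 x (h1.2.2.mem hx) j hj' (le_trans (le_max_left _ _) hg)

end E8
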