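import Pool.Agent.Lib.MP_e8be47_lc.VHom

/-!
# the end of the successor step
-/

open Set Classical

set_option linter.unusedSectionVars false

namespace E8

variable {𝔸 : Type} [Tow 𝔸] {L : Type} [LinearOrder L] [WellFoundedLT L]

open Cond

theorem S2_unique {m : ℕ → ℕ} (hm : StrictMono m) {j k l : ℕ} (h : m k ≤ j ∧ j < m (k + 1))
    (h' : m l ≤ j ∧ j < m (l + 1)) : k = l := by
  rcases lt_trichotomy k l with hkl | hkl | hkl
  · have h1 : m (k + 1) ≤ m l := hm.monotone hkl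
    omega
  · exact hkl
  · have h1 : m (l + 1) ≤ m k := hm.monotone hkl
    omega

theorem S2_exists {m : ℕ → ℕ} (hm : StrictMono m) {j k1 : ℕ} (h : m k1 ≤ j) :
    ∃ k, k1 ≤ k ∧ m k ≤ j ∧ j < m (k + 1) := by
  have hk1 : k1 ≤ j := (hm.id_le k1).trans h
  have h1 : m (Nat.findGreatest (fun k => m k ≤ j) j) ≤ j :=
    Nat.findGreatest_spec (P := fun k => m k ≤ j) hk1 h
  refine ⟨_, Nat.le_findGreatest hk1 h, h1, ?_⟩
  by_contra hcon
  push Not at hcon
  have h2 : Nat.findGreatest (fun k => m k ≤ j) j + 1 ≤ j := (hm.id_le _).trans hcon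
  have h3 := Nat.le_findGreatest (P := fun k => m k ≤ j) h2 hcon
  omega

theorem S2_LC {q : Cond L} {A : Type*} (W : ℕ → Pt L → A) (hW : ∀ k, LC q (W k)) (N : ℕ)
    (Q : Pt L → Prop)
    (hQ : ∀ x ∈ q.pts, ∀ y ∈ q.pts, (∀ k < N, W k y = W k x) → (Q x ↔ Q y)) : LC q Q := by
  intro x hx
  obtain ⟨F, m, h, hF⟩ := LC.finite W hW (Finset.range N) hx
  refine ⟨F, m, h, fun y hy => propext ?_⟩
  exact (hQ x hx y (pts_mono (at_le h) hy) fun k hk => hF k (Finset.mem_range.2 hk) y hy).symm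

theorem S2_parity (ε : Bool) (N : ℕ) : ∃ k, N ≤ k ∧ ¬ (Even k ↔ ε = true) := by
  by_cases h : (Even N ↔ ε = true)
  · refine ⟨N + 1, Nat.le_succ N, fun h' => ?_⟩
    rw [Nat.even_add_one] at h'
    by_cases hN : Even N
    · exact (h'.2 (h.1 hN)) hN
    · exact hN (h.2 (h'.1 hN))
  · exact ⟨N, le_rfl, h⟩

/-- the end of the successor step: `w` with interpretations `Ys` of `Y`, all of which are decided
by `V0` with colour `col`, `g`; `SelOK` for colour `i`. -/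
theorem end_succ {β : L} (hS : SSP (Iio β)) {w : Cond L} (hw : At β w) {t : Fs}
    (ht : Root β w t) {Y : Pt L → Set ℕ} {M : ℕ → Pt L → ℕ} {Ys : Fs → Pt L → Set ℕ}
    (hM : ∀ k, LC (w.lt β) (M k)) (hMm : ∀ x ∈ w.pts, StrictMono (fun k => M k x))
    (hY : ∀ x ∈ w.pts, ∀ k, ∀ j < k, (j ∈ Y x ↔ j ∈ Ys (cut (x β) (M k x)) x))
    {col : Fs → Pt L → Bool} (hcol : ∀ s, LC (w.lt β) (col s))
    {g : Fs → Pt L → ℕ} (hg : ∀ s, LC (w.lt β) (g s)) {V : Set ℕ} (hV : V.Infinite)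
    (hdec : ∀ x ∈ w.pts, ∀ s ∈ (w.val β x).T, ∀ j ∈ V, g s x ≤ j →
      (j ∈ Ys s x ↔ col s x = true))
    {i : Bool} (hi : SelOK β w t fun s x => (col s x = i)) :
    ∃ w' ≤ w, At β w' ∧ ∃ V' ⊆ V, V'.Infinite ∧ ∀ x ∈ w'.pts, ∀ j ∈ V', (j ∈ Y x ↔ i = true) := by
  classical
  -- the selection fusion
  obtain ⟨w1, hw1, hAt1, hR1, hlt1, m, S, E, hm, hSS, hE, hsel⟩ := selection_fusion hw ht
    (fun s x => (col s x = i)) (fun s => (hcol s).comp fun b => (b = i)) M hM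
    (fun x hx => (hMm x hx).monotone) g hg hi
  -- the facts below `β`
  have hSO : ∀ x ∈ (w1.lt β).pts, ∃ (R0 : QC) (G' : Fs → Prop) (nb' : ℕ → ℕ) (g' : Fs → ℕ),
      SelOut R0 (w1.val β x) t G' nb' g' (fun k => m k x) (fun k => S k x) (fun k => E k x) := by
    intro x hx
    obtain ⟨y, hy, hyx⟩ := exists_point hx
    have hy1 : y ∈ (w.lt β).pts := by
      rw [← hlt1]
      exact mem_lt hy β
    have hx1 : x ∈ (w.lt β).pts := by
      rw [← hlt1]
      exact hx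
    have hdep : ∀ ξ ∈ (w.lt β).supp, y ξ = x ξ := fun ξ hξ => hyx ξ (lt_in w β hξ)
    have h1 : (fun k => m k y) = fun k => m k x := funext fun k => (hm k).dep hx1 hy1 hdep
    have h2 : (fun k => S k y) = fun k => S k x := funext fun k => (hSS k).dep hx1 hy1 hdep
    have h3 : (fun k => E k y) = fun k => E k x := funext fun k => (hE k).dep hx1 hy1 hdep
    have h4 := hsel y hy
    rw [h1, h2, h3, val_congr (p := w1) hyx] at h4
    exact ⟨_, _, _, _, h4⟩
  -- the parity real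
  obtain ⟨X, hX⟩ : ∃ X : Pt L → Set ℕ, ∀ x j, j ∈ X x ↔ ∃ k, Even k ∧ m k x ≤ j ∧
      j < m (k + 1) x := ⟨fun x => {j | ∃ k, Even k ∧ m k x ≤ j ∧ j < m (k + 1) x}, fun _ _ => Iff.rfl⟩
  have hCR : CR (w1.lt β) X := by
    intro j
    refine S2_LC m (fun k => by rw [hlt1]; exact hm k) (j + 2) _ ?_
    have key : ∀ x ∈ (w1.lt β).pts, ∀ y : Pt L, (∀ k < j + 2, m k y = m k x) → j ∈ X x →
        j ∈ X y := by
      intro x hx y hxy hj
      obtain ⟨_, _, _, _, hs⟩ := hSO x hx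
      rw [hX] at hj ⊢
      obtain ⟨k, hk, h1, h2⟩ := hj
      have h3 : k ≤ m k x := hs.mono.id_le k
      exact ⟨k, hk, by rw [hxy k (by omega)]; exact h1, by rw [hxy (k + 1) (by omega)]; exact h2⟩
    intro x hx y hy hxy
    exact ⟨key x hx y hxy, key y hy x fun k hk => (hxy k hk).symm⟩
  obtain ⟨u, hu, huI, V0, hV0, hV0i, ε, hε⟩ := hS (w1.lt β) (lt_in w1 β) X hCR V hV
  have hpar : ∀ x ∈ u.pts, ∀ j ∈ V0, ∀ k, m k x ≤ j → j < m (k + 1) x → (Even k ↔ ε = true) := by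
    intro x hx j hj k h1 h2
    obtain ⟨_, _, _, _, hs⟩ := hSO x (pts_mono hu hx)
    rw [← hε x hx j hj, hX]
    constructor
    · intro hk
      exact ⟨k, hk, h1, h2⟩
    · rintro ⟨l, hl, h3, h4⟩
      rwa [S2_unique hs.mono ⟨h1, h2⟩ ⟨h3, h4⟩]
  -- a node different from the root
  obtain ⟨x0, hx0⟩ := pts_nonempty u
  have hx01 : x0 ∈ (w1.lt β).pts := pts_mono hu hx0
  obtain ⟨s1, k1, hs1k, a1, ha1, ha1t⟩ : ∃ s1 k1, s1 ∈ S k1 x0 ∧ ∃ a1 ∈ s1, a1 ∉ t := by
    have hQ0 : IsQ (w1.val β x0) := isQ_lt hx01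
    obtain ⟨_, _, _, _, hs⟩ := hSO x0 hx01
    have htT : t ∈ (w1.val β x0).T := (hs.inv 0).root.1
    obtain ⟨n, hn⟩ := hQ0.cp t htT
    obtain ⟨c, hc, hcn, -⟩ := hQ0.large.2 1 n (fun _ => 0) (fun _ => Nat.zero_lt_one)
    obtain ⟨f, hf, ⟨⟨a, ha⟩, hab⟩, hfT⟩ := hn c hc hcn
    rw [hs.T, mem_iUnion] at hfT
    obtain ⟨k1, hk1⟩ := hfT
    exact ⟨t ∪ f, k1, hk1, a, Finset.mem_union_right _ ha, fun hat => lt_irrefl a (hab a hat a ha)⟩
  -- restriction at `x0`
  have hpairLC : LC u fun x => (S k1 x, m k1 x) := by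
    have h1 : LC u (S k1) := LC.mono hu (by rw [hlt1]; exact hSS k1)
    have h2 : LC u (m k1) := LC.mono hu (by rw [hlt1]; exact hm k1)
    exact h1.comp₂ h2 fun a b => (a, b)
  obtain ⟨F, μ', hF, hconst⟩ := hpairLC x0 hx0
  obtain ⟨u1, hu1d⟩ : ∃ u1, u1 = u.at' x0 F μ' hF := ⟨_, rfl⟩
  rw [← hu1d] at hconst
  have hu1 : u1 ≤ u := by
    rw [hu1d]
    exact at_le hF
  have hu1I : u1.In (Iio β) := by
    rw [hu1d]
    exact at_in huI hF
  obtain ⟨μ, hμ⟩ : ∃ μ, μ = m k1 x0 := ⟨_, rfl⟩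
  have hmk : ∀ x ∈ u1.pts, m k1 x = μ := by
    intro x hx
    rw [hμ]
    exact congrArg Prod.snd (hconst x hx)
  have hSk : ∀ x ∈ u1.pts, s1 ∈ S k1 x := by
    intro x hx
    have h1 : S k1 x = S k1 x0 := congrArg Prod.fst (hconst x hx)
    rw [h1]
    exact hs1k
  have hu1w : u1 ≤ w1.lt β := hu1.trans hu
  -- the new value
  obtain ⟨R, hRT, hRC⟩ : ∃ R : Pt L → QC,
      (∀ x v, v ∈ (R x).T ↔ v ∈ (w1.val β x).T ∧ cutF v μ = s1 ∧ ∀ j ∈ v, μ ≤ j →
        ∃ k, ¬ (Even k ↔ ε = true) ∧ m k x ≤ j ∧ j < m (k + 1) x) ∧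
      (∀ x c, c ∈ (R x).C ↔ ∃ k, k1 ≤ k ∧ ¬ (Even k ↔ ε = true) ∧ c ∈ E k x) :=
    ⟨fun x => ⟨{v | v ∈ (w1.val β x).T ∧ cutF v μ = s1 ∧ ∀ j ∈ v, μ ≤ j →
        ∃ k, ¬ (Even k ↔ ε = true) ∧ m k x ≤ j ∧ j < m (k + 1) x},
        {c | ∃ k, k1 ≤ k ∧ ¬ (Even k ↔ ε = true) ∧ c ∈ E k x}⟩,
      fun _ _ => Iff.rfl, fun _ _ => Iff.rfl⟩
  have hSmono : ∀ x ∈ (w1.lt β).pts, ∀ v l l', l ≤ l' → v ∈ S l x → v ∈ S l' x := by
    intro x hx v l l' hl hv
    obtain ⟨_, _, _, _, hs⟩ := hSO x hx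
    obtain ⟨h1, h2⟩ := ((hs.inv l).mem v).1 hv
    exact ((hs.inv l').mem v).2 ⟨h1, fun k hk => (h2 k hk).trans_le (hs.mono.monotone hl)⟩
  have hQ : ∀ x ∈ u1.pts, IsQ (R x) := by
    intro x hx
    have hx1 := pts_mono hu1w hx
    obtain ⟨_, _, _, _, hs⟩ := hSO x hx1
    have hmx := hmk x hx
    have hs1 := ((hs.inv k1).mem s1).1 (hSk x hx)
    rw [hmx] at hs1
    refine ⟨⟨s1, ?_, ?_⟩, ?_, ?_⟩
    · rw [hRT]
      refine ⟨hs1.1, ?_, fun j hj hj' => absurd (hs1.2 j hj) (not_lt.2 hj')⟩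
      ext j
      rw [mem_cutF]
      exact ⟨fun h => h.1, fun h => ⟨h, hs1.2 j h⟩⟩
    · intro v hv
      rw [hRT] at hv
      obtain ⟨-, h2, -⟩ := hv
      constructor
      · intro j hj
        rw [← h2, mem_cutF] at hj
        exact hj.1
      · intro j hj k hk hk'
        have h3 := hs1.2 j hj
        have h4 : ¬ k < μ := fun h => hk' (by rw [← h2, mem_cutF]; exact ⟨hk, h⟩)
        omega
    · refine large_of_finite ?_ ?_
      · intro c hc
        rw [hRC] at hc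
        obtain ⟨k, -, -, hk⟩ := hc
        exact (hs.fl k).1 c hk
      · intro m' n
        obtain ⟨k, hk, hk'⟩ := S2_parity ε (max k1 (max m' n))
        refine ⟨E k x, (hs.fl k).mono (by omega), fun c hc => ⟨?_, fun j hj => ?_⟩⟩
        · rw [hRC]
          exact ⟨k, by omega, hk', hc⟩
        · have h3 := (hs.Em k c hc j hj).1
          have h4 : k ≤ m k x := hs.mono.id_le k
          omega
    · intro v hv
      rw [hRT] at hv
      obtain ⟨hvT, hvc, hvi⟩ := hv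
      obtain ⟨l0, hl0⟩ : ∃ l0, v ∈ S l0 x := by
        have h3 := hvT
        rw [hs.T, mem_iUnion] at h3
        exact h3
      obtain ⟨l, hl⟩ : ∃ l, l = max l0 k1 := ⟨_, rfl⟩
      have hvl : v ∈ S l x := hSmono x hx1 v l0 l (by omega) hl0
      refine ⟨m l x, fun c hc hcl => ?_⟩
      rw [hRC] at hc
      obtain ⟨k, hk1, hkp, hcE⟩ := hc
      obtain ⟨j, hj⟩ := (hs.fl k).1 c hcE
      have hEm := hs.Em k c hcE
      have hlk : l ≤ k := by
        by_contra hcon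
        have h3 : m (k + 1) x ≤ m l x := hs.mono.monotone (by omega)
        have h4 := hcl j hj
        have h5 := (hEm j hj).2
        omega
      obtain ⟨f, hf, hab, hfS⟩ := hs.ext k v (hSmono x hx1 v l k hlk hvl) c hcE
      refine ⟨f, hf, hab, ?_⟩
      rw [hRT]
      refine ⟨(((hs.inv (k + 1)).mem _).1 hfS).1, ?_, ?_⟩
      · rw [← hvc]
        ext a
        rw [mem_cutF, mem_cutF, Finset.mem_union]
        constructor
        · rintro ⟨h3 | h3, h4⟩
          · exact ⟨h3, h4⟩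
          · exfalso
            have h5 := (hEm a (hf h3)).1
            have h6 : m k1 x ≤ m k x := hs.mono.monotone hk1
            omega
        · rintro ⟨h3, h4⟩
          exact ⟨Or.inl h3, h4⟩
      · intro a ha ha'
        rcases Finset.mem_union.1 ha with h3 | h3
        · exact hvi a h3 ha'
        · exact ⟨k, hkp, (hEm a (hf h3)).1, (hEm a (hf h3)).2⟩
  have hCQ : CQ u1 R := by
    intro v
    obtain ⟨N, hN⟩ : ∃ N, N = v.sup Nat.succ := ⟨_, rfl⟩
    have hvN : ∀ j ∈ v, j < N := fun j hj => by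
      rw [hN]
      exact lt_sup hj
    have hWLC : ∀ k, LC u1 fun x => ((m k x, S k x), E k x) := by
      intro k
      have h1 : LC u1 (S k) := LC.mono hu1w (by rw [hlt1]; exact hSS k)
      have h2 : LC u1 (m k) := LC.mono hu1w (by rw [hlt1]; exact hm k)
      have h3 : LC u1 (E k) := LC.mono hu1w (by rw [hlt1]; exact hE k)
      exact (h2.comp₂ h1 fun a b => (a, b)).comp₂ h3 fun a b => (a, b)
    constructor
    · refine S2_LC _ hWLC (N + 2) _ ?_
      have key : ∀ x ∈ u1.pts, ∀ y ∈ u1.pts,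
          (∀ k < N + 2, ((m k y, S k y), E k y) = ((m k x, S k x), E k x)) →
            v ∈ (R x).T → v ∈ (R y).T := by
        intro x hx y hy hxy hv
        obtain ⟨_, _, _, _, hs⟩ := hSO x (pts_mono hu1w hx)
        obtain ⟨_, _, _, _, hsy⟩ := hSO y (pts_mono hu1w hy)
        rw [hRT] at hv ⊢
        obtain ⟨h1, h2, h3⟩ := hv
        refine ⟨?_, h2, fun j hj hj' => ?_⟩
        · have h4 : v ∈ S N x := ((hs.inv N).mem v).2 ⟨h1, fun j hj =>
            (hvN j hj).trans_le (hs.mono.id_le N)⟩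
          have h5 : S N y = S N x := congrArg (fun q => q.1.2) (hxy N (by omega))
          rw [← h5] at h4
          exact (((hsy.inv N).mem v).1 h4).1
        · obtain ⟨k, hk, h4, h5⟩ := h3 j hj hj'
          have h6 : k ≤ m k x := hs.mono.id_le k
          have h7 := hvN j hj
          have h8 : m k y = m k x := congrArg (fun q => q.1.1) (hxy k (by omega))
          have h9 : m (k + 1) y = m (k + 1) x := congrArg (fun q => q.1.1) (hxy (k + 1) (by omega))
          exact ⟨k, hk, by rw [h8]; exact h4, by rw [h9]; exact h5⟩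
      intro x hx y hy hxy
      exact ⟨key x hx y hy hxy, key y hy x hx fun k hk => (hxy k hk).symm⟩
    · refine S2_LC _ hWLC (N + 2) _ ?_
      have key : ∀ x ∈ u1.pts, ∀ y ∈ u1.pts,
          (∀ k < N + 2, ((m k y, S k y), E k y) = ((m k x, S k x), E k x)) →
            v ∈ (R x).C → v ∈ (R y).C := by
        intro x hx y hy hxy hv
        obtain ⟨_, _, _, _, hs⟩ := hSO x (pts_mono hu1w hx)
        rw [hRC] at hv ⊢
        obtain ⟨k, hk1, hk2, hk3⟩ := hv
        obtain ⟨j, hj⟩ := (hs.fl k).1 v hk3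
        have h1 := (hs.Em k v hk3 j hj).1
        have h2 : k ≤ m k x := hs.mono.id_le k
        have h3 := hvN j hj
        have h4 : E k y = E k x := congrArg (fun q => q.2) (hxy k (by omega))
        exact ⟨k, hk1, hk2, by rw [h4]; exact hk3⟩
      intro x hx y hy hxy
      exact ⟨key x hx y hy hxy, key y hy x hx fun k hk => (hxy k hk).symm⟩
  have hle : ∀ x ∈ u1.pts, QLe (R x) (w1.val β x) := by
    intro x hx
    obtain ⟨_, _, _, _, hs⟩ := hSO x (pts_mono hu1w hx)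
    refine ⟨fun v hv => ((hRT x v).1 hv).1, 0, fun c hc _ => ⟨c, ?_, Finset.Subset.refl c⟩⟩
    rw [hRC] at hc
    obtain ⟨k, -, -, hk⟩ := hc
    rw [hs.C, mem_iUnion]
    exact ⟨k, hk⟩
  obtain ⟨w', hw', hAt', hlt', hval'⟩ := exists_val hAt1 hu1w hu1I R hCQ hQ hle
  refine ⟨w', hw'.trans hw1, hAt', {j ∈ V0 | μ ≤ j}, fun j hj => hV0 hj.1, ?_, ?_⟩
  · have h1 : V0 ⊆ {j ∈ V0 | μ ≤ j} ∪ {j | j < μ} := by
      intro j hj
      by_cases h : μ ≤ j
      · exact Or.inl ⟨hj, h⟩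
      · exact Or.inr (not_le.1 h)
    intro hfin
    exact hV0i ((hfin.union (Set.finite_lt_nat μ)).subset h1)
  · rintro x hx j ⟨hj, hjμ⟩
    have hxu1 : x ∈ u1.pts := by
      rw [← hlt']
      exact mem_lt hx β
    have hxw1 : x ∈ w1.pts := pts_mono hw' hx
    have hxw : x ∈ w.pts := pts_mono hw1 hxw1
    have hs := hsel x hxw1
    have hzR : x β ∈ br (R x).T := by
      have h1 := hx β
      rwa [hval' x hxu1] at h1
    have hz1 : x β ∈ br (w1.val β x).T := hxw1 β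
    have hmx := hmk x hxu1
    obtain ⟨k, hk1, hkj, hjk⟩ := S2_exists hs.mono (j := j) (k1 := k1) (by
      rw [hmx]
      exact hjμ)
    have hP := hpar x (pts_mono hu1 hxu1) j hj k hkj hjk
    have hμk : μ ≤ m k x := by
      rw [← hmx]
      exact hs.mono.monotone hk1
    -- no element in the interval of `k`
    have hgap : ∀ a ∈ x β, m k x ≤ a → m (k + 1) x ≤ a := by
      intro a ha hka
      by_contra hcon
      push Not at hcon
      obtain ⟨m', hm', b, hb, hab⟩ := hzR (a + 1)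
      rw [mem_cut] at hb
      have h1 : a ∈ cut (x β) m' := mem_cut.2 ⟨by omega, ha⟩
      rw [hRT] at hm'
      obtain ⟨k', hk', h2, h3⟩ := hm'.2.2 a h1 (hμk.trans hka)
      have h4 : k = k' := S2_unique hs.mono ⟨hka, hcon⟩ ⟨h2, h3⟩
      rw [← h4] at hk'
      exact hk' hP
    have hMj : j + 1 ≤ M (j + 1) x := (hMm x hxw).id_le (j + 1)
    have hcut : cut (x β) (M (j + 1) x) = cut (x β) (m k x) := by
      ext a
      rw [mem_cut, mem_cut]
      constructor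
      · rintro ⟨h1, h2⟩
        refine ⟨?_, h2⟩
        by_contra hcon
        push Not at hcon
        have h3 := hgap a h2 hcon
        have h4 : M (m (k + 1) x) x ≤ a := hs.nb (x β) hz1 (k + 1) a h2 h3
        have h5 : M (j + 1) x ≤ M (m (k + 1) x) x := (hMm x hxw).monotone hjk
        omega
      · rintro ⟨h1, h2⟩
        exact ⟨by omega, h2⟩
    obtain ⟨s, hsd⟩ : ∃ s, s = cut (x β) (m k x) := ⟨_, rfl⟩
    have hsS : s ∈ S k x := by
      obtain ⟨m', hm', hcm⟩ := exists_cut_mem hz1 (m k x)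
      have h1 := (hs.inv k).cut _ hcm
      rw [cutF_cut hm'] at h1
      rw [hsd]
      exact h1
    have hsT : s ∈ (w1.val β x).T := (((hs.inv k).mem s).1 hsS).1
    have hst : s ≠ t := by
      intro h
      obtain ⟨m', hm', hcm⟩ := exists_cut_mem hzR μ
      rw [hRT] at hcm
      have h1 := hcm.2.1
      rw [cutF_cut hm'] at h1
      rw [← h1, mem_cut] at ha1
      apply ha1t
      rw [← h, hsd, mem_cut]
      exact ⟨by omega, ha1.2⟩
    have hcoli : col s x = i := hs.allowed s hsT hst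
    have hgs : g s x ≤ j := (hs.g k s hsS).trans hkj
    have h1 := hY x hxw (j + 1) j (Nat.lt_succ_self j)
    rw [hcut, ← hsd] at h1
    rw [h1, hdec x hxw s ((hw1.2 x hxw1 β).1 hsT) j (hV0 hj) hgs, hcoli]

end E8
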