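import Pool.Agent.Lib.MP_e8be47_lc.VSel

/-!
# the fusion lemma
-/

open Set Classical

set_option linter.unusedSectionVars false

namespace E8

variable {𝔸 : Type} [Tow 𝔸] {L : Type} [LinearOrder L] [WellFoundedLT L]

open Cond

/-- states of the fusion -/
private structure V4St (𝔸 : Type) [Tow 𝔸] (L : Type) [LinearOrder L] (β : L) (a : 𝔸) (w : Cond L)
    (t : Fs) where
  b : 𝔸
  v : Cond L
  S : Finset Fs
  m : ℕ
  E : Finset Fs
  hb : b ≤ a
  hv : v ≤ w
  hat : At β v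
  hinv : ∀ x ∈ v.pts, Inv (v.val β x).T t S m

/-- the successor relation of the fusion -/
private structure V4R {𝔸 : Type} [Tow 𝔸] {L : Type} [LinearOrder L] {β : L} {a : 𝔸} {w : Cond L}
    {t : Fs} (Φ : ℕ → 𝔸 → Cond L → Prop) (k : ℕ) (s s' : V4St 𝔸 L β a w t) : Prop where
  step : ∀ x ∈ s'.v.pts, Step k t (s.v.val β x) s.S s.m s'.E (s'.v.val β x) s'.S s'.m
  phi : ∀ r ∈ s'.S, ∃ h : Legal s'.v {β} (fun _ => r) (fun _ => s'.m),
    Φ k s'.b (s'.v.node {β} (fun _ => r) (fun _ => s'.m) h)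

/-- FUSION LEMMA -/
theorem fusion_lemma {β : L} (hD : DCP 𝔸 (Iio β)) (Φ : ℕ → 𝔸 → Cond L → Prop)
    (hmono : ∀ k a a' w w' t, a' ≤ a → w' ≤ w → At β w → At β w' → Root β w t → Root β w' t →
      Φ k a w → Φ k a' w')
    (a : 𝔸) {w : Cond L} (hw : At β w) {t : Fs} (ht : Root β w t)
    (hdense : ∀ k, ∀ a' ≤ a, ∀ v ≤ w, ∀ t, At β v → Root β v t →
      ∃ a'' ≤ a', ∃ v' ≤ v, At β v' ∧ Root β v' t ∧ Φ k a'' v') :
    ∃ a' ≤ a, ∃ w' ≤ w, At β w' ∧ Root β w' t ∧ ∃ m : ℕ → Pt L → ℕ, (∀ k, LC (w'.lt β) (m k)) ∧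
      ∀ x ∈ w'.pts, StrictMono (fun k => m k x) ∧
        (∀ k, ∀ s ∈ (w'.val β x).T, cutF s (m k x) ∈ (w'.val β x).T) ∧
        ∀ k, ∃ F μ, ∃ h : w'.Leg x F μ, β ∈ F ∧ μ β = m k x ∧ Φ k a' (w'.at' x F μ h) := by
  -- the start
  have hinv0 : ∀ x ∈ w.pts, Inv (w.val β x).T t {t} (t.sup Nat.succ) := by
    intro x hx
    refine ⟨ht x hx, ?_, ?_⟩
    · intro r
      rw [Finset.mem_singleton]
      constructor
      · rintro rfl
        exact ⟨(ht x hx).1, fun k hk => lt_sup hk⟩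
      · rintro ⟨hr, hk⟩
        have h1 := cutF_root (ht x hx) hr
        rw [← h1]
        ext j
        rw [mem_cutF]
        exact ⟨fun hj => ⟨hj, hk j hj⟩, fun hj => hj.1⟩
    · intro r hr
      rw [Finset.mem_singleton]
      exact cutF_root (ht x hx) hr
  let s0 : V4St 𝔸 L β a w t := ⟨a, w, {t}, t.sup Nat.succ, ∅, le_refl _, le_refl _, hw, hinv0⟩
  obtain ⟨a', ha', q, hq, hqI, σ, hσ0, hσL, hσ⟩ := hD (V4St 𝔸 L β a w t) (fun s => s.b)
    (fun s => s.v.lt β) (V4R Φ) (fun s => lt_in s.v β)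
    (by
      intro k s a1 ha1 u hu huI
      obtain ⟨a2, ha2, w2, hw2, S2, m2, E2, hat2, hlt2, hst2, hph2⟩ := fusion_step (Φ k)
        (hmono k) s.hat s.hinv k a1
        (fun a3 ha3 v hv r hvA hvR => hdense k a3 (ha3.trans (ha1.trans s.hb)) v
          (hv.trans s.hv) r hvA hvR) hu huI
      exact ⟨⟨a2, w2, S2, m2, E2, ha2.trans (ha1.trans s.hb), hw2.trans s.hv, hat2,
        fun x hx => (hst2 x hx).inv⟩, ⟨hst2, hph2⟩, ha2, hlt2⟩)
    s0 a (le_refl _) (w.lt β) (le_refl _) (lt_in w β)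
  -- facts at points of `q`
  have hmem : ∀ x ∈ q.pts, ∀ k, x ∈ ((σ k x).v.lt β).pts := fun x hx k =>
    Meets.mem hx (hσ x hx k).2.2
  have hstep : ∀ x ∈ q.pts, ∀ k, Step k t ((σ k x).v.val β x) (σ k x).S (σ k x).m
      (σ (k + 1) x).E ((σ (k + 1) x).v.val β x) (σ (k + 1) x).S (σ (k + 1) x).m := by
    intro x hx k
    obtain ⟨y, hy, hyx⟩ := exists_point (hmem x hx (k + 1))
    have h1 := (hσ x hx k).1.step y hy
    rw [val_congr hyx, val_congr hyx] at h1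
    exact h1
  have hinv : ∀ x ∈ q.pts, Inv ((σ 0 x).v.val β x).T t (σ 0 x).S (σ 0 x).m := by
    intro x hx
    obtain ⟨y, hy, hyx⟩ := exists_point (hmem x hx 0)
    have h1 := (σ 0 x).hinv y hy
    rw [val_congr hyx] at h1
    exact h1
  have hisQ : ∀ x ∈ q.pts, ∀ k, IsQ ((σ k x).v.val β x) := fun x hx k => isQ_lt (hmem x hx k)
  let R : Pt L → QC := fun x => ⟨⋃ k, ((σ k x).S : Set Fs), ⋃ k, ((σ (k + 1) x).E : Set Fs)⟩
  have hlim : ∀ x ∈ q.pts, IsQ (R x) ∧ IsRoot (R x).T t ∧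
      (∀ k, QLe (R x) ((σ k x).v.val β x)) ∧ (∀ k, Inv (R x).T t (σ k x).S (σ k x).m) ∧
      (∀ k, ∀ c ∈ (R x).C, (∃ j ∈ c, (σ k x).m ≤ j) → ∃ c' ∈ ((σ k x).v.val β x).C, c' ⊆ c) ∧
      (∀ z ∈ br (R x).T, ∀ k, cut z (σ k x).m ∈ (σ k x).S) := fun x hx =>
    fusion_limit t (fun k => (σ k x).v.val β x) (fun k => (σ k x).S) (fun k => (σ k x).m)
      (fun k => (σ (k + 1) x).E) (hinv x hx) (hisQ x hx) (hstep x hx)
  have hCQ : CQ q R := by
    intro s
    have hm : ∀ x ∈ q.pts, ((s ∈ (R x).T) ↔ s ∈ (σ (s.sup Nat.succ) x).S) ∧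
        ((s ∈ (R x).C) ↔ ∃ i < s.sup Nat.succ, s ∈ (σ (i + 1) x).E) := fun x hx =>
      fusion_limit_mem t (fun k => (σ k x).v.val β x) (fun k => (σ k x).S) (fun k => (σ k x).m)
        (fun k => (σ (k + 1) x).E) (hinv x hx) (hstep x hx) s (s.sup Nat.succ)
        (fun j hj => lt_sup hj)
    constructor
    · intro x hx
      obtain ⟨F, m, h, hF⟩ := hσL (s.sup Nat.succ) x hx
      refine ⟨F, m, h, fun y hy => ?_⟩
      have hyq : y ∈ q.pts := ((mem_at h).1 hy).1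
      show (s ∈ (R y).T) = (s ∈ (R x).T)
      rw [propext (hm x hx).1, propext (hm y hyq).1, hF y hy]
    · intro x hx
      obtain ⟨F, m, h, hF⟩ := LC.finite (fun i => σ (i + 1)) (fun i => hσL (i + 1))
        (Finset.range (s.sup Nat.succ)) hx
      refine ⟨F, m, h, fun y hy => ?_⟩
      have hyq : y ∈ q.pts := ((mem_at h).1 hy).1
      show (s ∈ (R y).C) = (s ∈ (R x).C)
      rw [propext (hm x hx).2, propext (hm y hyq).2]
      apply propext
      constructor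
      · rintro ⟨i, hi, hs⟩
        refine ⟨i, hi, ?_⟩
        rw [← hF i (Finset.mem_range.2 hi) y hy]
        exact hs
      · rintro ⟨i, hi, hs⟩
        refine ⟨i, hi, ?_⟩
        rw [hF i (Finset.mem_range.2 hi) y hy]
        exact hs
  obtain ⟨w', hw', hat, hlt, hval⟩ := exists_val hw hq hqI R hCQ (fun x hx => (hlim x hx).1)
    (by
      intro x hx
      have h1 := (hlim x hx).2.2.1 0
      rw [hσ0 x hx] at h1
      exact h1)
  have hpts : ∀ x ∈ w'.pts, x ∈ q.pts := by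
    intro x hx
    rw [← hlt]
    exact mem_lt hx β
  refine ⟨a', ha', w', hw', hat, ?_, fun k x => (σ (k + 1) x).m, ?_, ?_⟩
  · intro x hx
    rw [hval x (hpts x hx)]
    exact (hlim x (hpts x hx)).2.1
  · intro k
    rw [hlt]
    exact LC.comp (hσL (k + 1)) (fun s => s.m)
  intro x hx
  have hxq := hpts x hx
  obtain ⟨hRQ, hRr, hRle, hRinv, hRc, hRbr⟩ := hlim x hxq
  refine ⟨?_, ?_, ?_⟩
  · apply strictMono_nat_of_lt_succ
    intro k
    exact (hstep x hxq (k + 1)).lt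
  · intro k s hs
    rw [hval x hxq] at hs ⊢
    exact (((hRinv (k + 1)).mem _).1 ((hRinv (k + 1)).cut s hs)).1
  intro k
  -- the node
  have hxb : x β ∈ br (R x).T := by
    rw [← hval x hxq]
    exact hx β
  have hsS : cut (x β) (σ (k + 1) x).m ∈ (σ (k + 1) x).S := hRbr (x β) hxb (k + 1)
  have hsT : cut (x β) (σ (k + 1) x).m ∈ (w'.val β x).T := by
    rw [hval x hxq]
    exact (((hRinv (k + 1)).mem _).1 hsS).1
  obtain ⟨hleg, hphi⟩ := (hσ x hxq k).1.phi _ hsS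
  -- the restriction of `q`
  obtain ⟨F1, μ1, h1, hF1⟩ := hσL (k + 1) x hxq
  obtain ⟨F2, μ2, h2, hF2⟩ := (hσ x hxq (k + 1)).2.2
  have hsub1 : ((F1 ∪ F2 : Finset L) : Set L) ⊆ w'.supp ∩ Iio β := by
    intro ξ hξ
    rw [Finset.coe_union] at hξ
    have hq' : ξ ∈ q.supp := by
      rcases hξ with hξ | hξ
      · exact h1.sub hξ
      · exact h2.sub hξ
    rw [← hlt] at hq'
    exact hq'
  obtain ⟨F, μ, hFF, hn, hβF, hμβ, hL, hFle⟩ := base' w' hx β hat.mem (σ (k + 1) x).m hsT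
    (F1 ∪ F2) hsub1 (max (F1.sup μ1) (F2.sup μ2))
  refine ⟨F, μ, hL, hβF, hμβ, ?_⟩
  obtain ⟨hL', hlt'⟩ := leg_filter (β := β) hL
  have hLq : q.Leg x (F.filter (· < β)) μ := by
    rw [← hlt]
    exact hL'
  have hltq : (w'.at' x F μ hL).lt β = q.at' x (F.filter (· < β)) μ hLq := by
    rw [hlt']
    congr 1
  have hle1 : q.at' x (F.filter (· < β)) μ hLq ≤ q.at' x F1 μ1 h1 := by
    apply at_le_at
    · intro ξ hξ
      rw [Finset.mem_filter]
      exact ⟨hFF (Finset.mem_union_left _ hξ), (hsub1 (Finset.mem_union_left _ hξ)).2⟩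
    · intro ξ hξ
      exact (Finset.le_sup hξ).trans ((le_max_left _ _).trans
        (hn ξ (hFF (Finset.mem_union_left _ hξ)) (hsub1 (Finset.mem_union_left _ hξ)).2))
  have hle2 : q.at' x (F.filter (· < β)) μ hLq ≤ q.at' x F2 μ2 h2 := by
    apply at_le_at
    · intro ξ hξ
      rw [Finset.mem_filter]
      exact ⟨hFF (Finset.mem_union_right _ hξ), (hsub1 (Finset.mem_union_right _ hξ)).2⟩
    · intro ξ hξ
      exact (Finset.le_sup hξ).trans ((le_max_right _ _).trans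
        (hn ξ (hFF (Finset.mem_union_right _ hξ)) (hsub1 (Finset.mem_union_right _ hξ)).2))
  obtain ⟨hnA, hnR, hnlt, hnval⟩ := node_single (σ (k + 1) x).hat hleg
  obtain ⟨haA, haR⟩ := at_root hat hL hβF
  rw [hμβ] at haR
  have hle : w'.at' x F μ hL ≤
      (σ (k + 1) x).v.node {β} (fun _ => cut (x β) (σ (k + 1) x).m) (fun _ => (σ (k + 1) x).m)
        hleg := by
    apply le_of_lt_val hnA.le
    · intro ξ hξ
      rw [node_supp] at hξ
      show ξ ∈ w'.supp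
      rcases lt_or_eq_of_le ((σ (k + 1) x).hat.le hξ : ξ ≤ β) with h | h
      · have h3 : ξ ∈ ((σ (k + 1) x).v.lt β).supp := ⟨hξ, h⟩
        have h4 : ξ ∈ q.supp := (hF2.1 h3)
        rw [← hlt] at h4
        exact h4.1
      · rw [h]
        exact hat.mem
    · rw [hltq, hnlt]
      exact hle2.trans hF2
    · intro y hy
      have hyw : y ∈ w'.pts := ((mem_at hL).1 hy).1
      have hyq := hpts y hyw
      have hy1 : y ∈ (q.at' x F1 μ1 h1).pts := by
        apply pts_mono hle1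
        rw [← hltq]
        exact mem_lt hy β
      have hσy : σ (k + 1) y = σ (k + 1) x := hF1 y hy1
      have hv1 : (w'.at' x F μ hL).val β y =
          (R y).sub (cut (x β) (σ (k + 1) x).m) (σ (k + 1) x).m := by
        show (w'.node F (fun ξ => cut (x ξ) (μ ξ)) μ hL).val β y = _
        rw [node_val, if_pos hβF, hval y hyq, hμβ]
      rw [hv1, hnval]
      apply QLe.sub
      have h5 := (hlim y hyq).2.2.1 (k + 1)
      rw [hσy] at h5
      exact h5
  exact hmono k _ _ _ _ _ (hσ x hxq (k + 1)).2.1 hle hnA haA hnR haR hphi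

end E8
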