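import Pool.Agent.Lib.MP_e8be47_lc.VHom0

/-!
# the dichotomy
-/

open Set Classical

set_option linter.unusedSectionVars false

namespace E8

variable {𝔸 : Type} [Tow 𝔸] {L : Type} [LinearOrder L] [WellFoundedLT L]

open Cond

/-- the extension below every `S` (allowed nodes: colour `i`, or the root) -/
def SelOK (β : L) (w : Cond L) (t0 : Fs) (G : Fs → Pt L → Prop) : Prop :=
  ∀ x ∈ w.pts, ∀ S : Finset Fs, (∀ s ∈ S, s ∈ (w.val β x).T ∧ (s = t0 ∨ G s x)) →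
    Large (Sel (w.val β x) (fun s => G s x) S)

private theorem S1_fin {q : Cond L} {ι W W' : Type*} (w : ι → Pt L → W) (hw : ∀ i, LC q (w i))
    (I : Finset ι) {φ : Pt L → W'} (h : ∀ x y, (∀ i ∈ I, w i y = w i x) → φ y = φ x) :
    LC q φ := by
  intro x hx
  obtain ⟨F, m, hl, hI⟩ := LC.finite w hw I hx
  exact ⟨F, m, hl, fun y hy => h x y fun i hi => hI i hi y hy⟩

private theorem S1_and {q : Cond L} {P Q : Pt L → Prop} (hP : LC q P) (hQ : LC q Q) :
    LC q fun x => (P x ∧ Q x) := LC.comp₂ hP hQ fun a b => a ∧ b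

private theorem S1_all {q : Cond L} {ι : Type*} (I : Finset ι) {P : ι → Pt L → Prop}
    (h : ∀ i, LC q (P i)) : LC q fun x => (∀ i ∈ I, P i x) := by
  refine S1_fin P h I fun x y hxy => propext ?_
  exact forall₂_congr fun i hi => by rw [hxy i hi]

private theorem S1_ex {q : Cond L} {ι : Type*} (I : Finset ι) {P : ι → Pt L → Prop}
    (h : ∀ i, LC q (P i)) : LC q fun x => (∃ i ∈ I, P i x) := by
  refine S1_fin P h I fun x y hxy => propext ?_
  constructor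
  · rintro ⟨i, hi, hP⟩
    exact ⟨i, hi, by rw [← hxy i hi]; exact hP⟩
  · rintro ⟨i, hi, hP⟩
    exact ⟨i, hi, by rw [hxy i hi]; exact hP⟩

/-- membership in `Sel` is locally constant -/
private theorem S1_sel {q : Cond L} {R : Pt L → QC} (hR : CQ q R) {col : Fs → Pt L → Bool}
    (hcol : ∀ s, LC q (col s)) (S : Finset Fs) (c : Fs) :
    LC q fun x => (c ∈ Sel (R x) (fun s => col s x = false) S) := by
  have e : (fun x => (c ∈ Sel (R x) (fun s => col s x = false) S)) =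
      fun x => ((c.Nonempty ∧ ∃ c0 ∈ c.powerset, c0 ∈ (R x).C) ∧ ∀ s ∈ S, ∃ f ∈ c.powerset,
        (Above s f ∧ (s ∪ f ∈ (R x).T ∧ col (s ∪ f) x = false))) := by
    funext x
    apply propext
    constructor
    · rintro ⟨h1, ⟨c0, h2, h3⟩, h4⟩
      refine ⟨⟨h1, c0, Finset.mem_powerset.2 h3, h2⟩, fun s hs => ?_⟩
      obtain ⟨f, h5, h6⟩ := h4 s hs
      exact ⟨f, Finset.mem_powerset.2 h5, h6⟩
    · rintro ⟨⟨h1, c0, h3, h2⟩, h4⟩
      refine ⟨h1, ⟨c0, h2, Finset.mem_powerset.1 h3⟩, fun s hs => ?_⟩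
      obtain ⟨f, h5, h6⟩ := h4 s hs
      exact ⟨f, Finset.mem_powerset.1 h5, h6⟩
  rw [e]
  refine S1_and (S1_and (LC.const q _) (S1_ex _ fun c0 => (hR c0).2)) (S1_all _ fun s => ?_)
  refine S1_ex _ fun f => S1_and (LC.const q _) (S1_and (hR _).1 ?_)
  exact (hcol (s ∪ f)).comp fun b => b = false

private theorem S1_mono_at {q : Cond L} {x : Pt L} {F : Finset L} {m : L → ℕ}
    (h : q.Leg x F m) : (q.at' x F m h).pts ⊆ q.pts := pts_mono (at_le h)

/-- the induction over the nodes of `S` (step (2)) -/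
private theorem S1_step {β : L} {w : Cond L} {col : Fs → Pt L → Bool}
    (hcol : ∀ s, LC (w.lt β) (col s)) {q : Cond L} (hq : q ≤ w.lt β) (hqI : q.In (Iio β))
    {n i : ℕ} {χ : ℕ → Pt L → ℕ} (hχ : ∀ k, LC q (χ k)) (S : Finset Fs) :
    (∃ s0 ∈ S, ∃ q' ≤ q, q'.In (Iio β) ∧ ∀ x ∈ q'.pts, ¬ ∃ f : Fs, Above s0 f ∧
        (∀ k ∈ f, n ≤ k ∧ χ k x = i) ∧ s0 ∪ f ∈ (w.val β x).T ∧ col (s0 ∪ f) x = false) ∨
    (∃ q' ≤ q, q'.In (Iio β) ∧ ∀ s ∈ S, ∃ f : Fs, ∀ x ∈ q'.pts, Above s f ∧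
        (∀ k ∈ f, n ≤ k ∧ χ k x = i) ∧ s ∪ f ∈ (w.val β x).T ∧ col (s ∪ f) x = false) := by
  induction S using Finset.induction_on with
  | empty => exact Or.inr ⟨q, le_rfl, hqI, fun s hs => absurd hs (Finset.notMem_empty s)⟩
  | insert s S hs ih =>
    rcases ih with ⟨s0, hs0, h⟩ | ⟨q', hq', hq'I, h⟩
    · exact Or.inl ⟨s0, Finset.mem_insert_of_mem hs0, h⟩
    · by_cases hf : ∀ x ∈ q'.pts, ¬ ∃ f : Fs, Above s f ∧
        (∀ k ∈ f, n ≤ k ∧ χ k x = i) ∧ s ∪ f ∈ (w.val β x).T ∧ col (s ∪ f) x = false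
      · exact Or.inl ⟨s, Finset.mem_insert_self _ _, q', hq', hq'I, hf⟩
      · push Not at hf
        obtain ⟨x, hx, f, hf⟩ := hf
        have hL : LC q' fun y => (Above s f ∧
            ((∀ k ∈ f, (n ≤ k ∧ χ k y = i)) ∧ (s ∪ f ∈ (w.val β y).T ∧
              col (s ∪ f) y = false))) := by
          refine S1_and (LC.const _ _) (S1_and (S1_all _ fun k => S1_and (LC.const _ _) ?_)
            (S1_and ?_ ?_))
          · exact ((hχ k).mono hq').comp fun a => a = i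
          · exact (CQ_val_lt w β (s ∪ f)).1.mono (hq'.trans hq)
          · exact ((hcol (s ∪ f)).mono (hq'.trans hq)).comp fun b => b = false
        obtain ⟨F, m, hl, hc⟩ := hL x hx
        refine Or.inr ⟨q'.at' x F m hl, (at_le hl).trans hq', at_in hq'I hl, fun s' hs' => ?_⟩
        rcases Finset.mem_insert.1 hs' with rfl | hs'
        · exact ⟨f, fun y hy => (iff_of_eq (hc y hy)).2 hf⟩
        · obtain ⟨f', hf'⟩ := h s' hs'
          exact ⟨f', fun y hy => hf' y (S1_mono_at hl hy)⟩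

/-- from a continuous bad colouring for the nodes of colour `false` -/
theorem homog_tree {β : L} (hD : DCP 𝔸 (Iio β)) (a : 𝔸) {w : Cond L} (hw : At β w)
    (col : Fs → Pt L → Bool) (hcol : ∀ s, LC (w.lt β) (col s)) {q : Cond L} (hq : q ≤ w.lt β)
    (hqI : q.In (Iio β)) {S : Finset Fs} (hS : ∀ x ∈ q.pts, ∀ s ∈ S, s ∈ (w.val β x).T)
    {m n : ℕ} {χ : ℕ → Pt L → ℕ} (hχ : ∀ k, LC q (χ k)) (hm : ∀ x ∈ q.pts, ∀ k, χ k x < m)
    (hb : ∀ x ∈ q.pts, ∀ c ∈ Sel (w.val β x) (fun s => col s x = false) S, (∀ k ∈ c, n ≤ k) →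
      ¬ ∃ i, ∀ k ∈ c, χ k x = i) :
    ∃ a' ≤ a, ∃ w' ≤ w, At β w' ∧ ∃ t', Root β w' t' ∧ SelOK β w' t' fun s x => (col s x = true) := by
  classical
  have hQ : ∀ x ∈ q.pts, IsQ (w.val β x) := fun x hx => isQ_lt (pts_mono hq hx)
  have hR : CQ q (w.val β) := fun s =>
    ⟨(CQ_val_lt w β s).1.mono hq, (CQ_val_lt w β s).2.mono hq⟩
  -- step (1)
  set C' : Pt L → Set Fs := fun x => {c | c ∈ (w.val β x).C ∧ (∀ k ∈ c, n ≤ k) ∧
    ∃ i, ∀ k ∈ c, χ k x = i} with hC'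
  set D : ℕ → Pt L → Set Fs := fun i x => {c | ∀ k ∈ c, χ k x = i} with hDdef
  have hDC : ∀ i c, LC q fun x => (c ∈ D i x ∩ C' x) := by
    intro i c
    refine S1_and (S1_all c fun k => (hχ k).comp fun a => a = i) (S1_and (hR c).2
      (S1_and (LC.const _ _) ?_))
    refine S1_fin χ hχ c fun x y hxy => propext ?_
    exact exists_congr fun i => forall₂_congr fun k hk => by rw [hxy k hk]
  have hne : ∀ i, ∀ x ∈ q.pts, ∀ c ∈ D i x ∩ C' x, c.Nonempty :=
    fun i x hx c hc => (hQ x hx).large.1 c hc.2.1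
  obtain ⟨a1, ha1, q1, hq1, hq1I, hLC1⟩ := clopen_of_dc hD a hqI
    (fun N => {x | MN (D (Nat.unpair N).1 x ∩ C' x) (Nat.unpair (Nat.unpair N).2).1
      (Nat.unpair (Nat.unpair N).2).2})
    (fun N => MN_opn (hDC _) (hne _) _ _)
  have hLC1' : ∀ i m' n', LC q1 fun x => MN (D i x ∩ C' x) m' n' := by
    intro i m' n'
    have := hLC1 (Nat.pair i (Nat.pair m' n'))
    simpa [Nat.unpair_pair] using this
  have hlarge : ∀ x ∈ q1.pts, Large (C' x) := by
    intro x hx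
    have hxq := pts_mono hq1 hx
    obtain ⟨i, hi, hL⟩ := (hQ x hxq).large.colour m (fun k => χ k x) (hm x hxq)
    refine (hL.beyond n).mono (fun c hc => (hQ x hxq).large.1 c hc.1) ?_
    rintro c ⟨⟨h1, h2⟩, h3⟩
    exact ⟨h1, h3, i, h2⟩
  obtain ⟨i, x1, hx1, F1, m1, hl1, hbig⟩ := exists_large_node (q := q1) (C := C') hlarge
    (ι := Fin m) (fun i => D i.1) (by
      intro x hx c hc
      obtain ⟨h1, h2, i, h3⟩ := hc
      obtain ⟨k, hk⟩ := (hQ x (pts_mono hq1 hx)).large.1 c h1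
      refine mem_iUnion.2 ⟨⟨i, ?_⟩, h3⟩
      rw [← h3 k hk]
      exact hm x (pts_mono hq1 hx) k)
    (fun i m' n' => hLC1' i.1 m' n')
  -- step (2)
  have hq2 : q1.at' x1 F1 m1 hl1 ≤ q := (at_le hl1).trans hq1
  rcases S1_step (n := n) (i := i.1) hcol (hq2.trans hq) (at_in hq1I hl1)
    (fun k => (hχ k).mono hq2) S with ⟨s0, hs0, q3, hq3, hq3I, hno⟩ | ⟨q3, hq3, hq3I, hyes⟩
  swap
  · exfalso
    obtain ⟨x, hx⟩ := pts_nonempty q3
    have hx2 := pts_mono hq3 hx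
    have hxq := pts_mono hq2 hx2
    have hL := hbig x hx2
    obtain ⟨c0, hc0, -, -⟩ := hL.2 1 0 (fun _ => 0) (fun _ => Nat.one_pos)
    choose! f hf using hyes
    refine hb x hxq (c0 ∪ S.biUnion f) ⟨?_, ⟨c0, hc0.2.1, Finset.subset_union_left⟩, ?_⟩ ?_ ⟨i.1, ?_⟩
    · exact (hL.1 c0 hc0).mono Finset.subset_union_left
    · intro s hs
      obtain ⟨h1, h2, h3, h4⟩ := hf s hs x hx
      exact ⟨f s, (Finset.subset_biUnion_of_mem f hs).trans Finset.subset_union_right, h1, h3, h4⟩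
    · intro k hk
      rcases Finset.mem_union.1 hk with hk | hk
      · exact hc0.2.2.1 k hk
      · obtain ⟨s, hs, hk⟩ := Finset.mem_biUnion.1 hk
        exact ((hf s hs x hx).2.1 k hk).1
    · intro k hk
      rcases Finset.mem_union.1 hk with hk | hk
      · exact hc0.1 k hk
      · obtain ⟨s, hs, hk⟩ := Finset.mem_biUnion.1 hk
        exact ((hf s hs x hx).2.1 k hk).2
  -- step (3)
  have hq3q : q3 ≤ q := hq3.trans hq2
  set R : Pt L → QC := fun x => ⟨{u | u ∈ (w.val β x).T ∧ EE s0 u ∧ ∀ k ∈ u, k ∉ s0 →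
    (n ≤ k ∧ χ k x = i.1)}, D i.1 x ∩ C' x⟩ with hRdef
  have hRC : CQ q3 R := by
    intro s
    refine ⟨?_, (hDC i.1 s).mono hq3q⟩
    refine S1_and ((hR s).1.mono hq3q) (S1_and (LC.const _ _) (S1_all _ fun k => ?_))
    exact ((hχ k).mono hq3q).comp fun a => (k ∉ s0 → (n ≤ k ∧ a = i.1))
  have hRQ : ∀ x ∈ q3.pts, IsQ (R x) := by
    intro x hx
    have hxq := pts_mono hq3q hx
    refine ⟨⟨s0, ⟨hS x hxq s0 hs0, EE.refl s0, fun k hk hk' => absurd hk hk'⟩,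
      fun t ht => ht.2.1⟩, hbig x (pts_mono hq3 hx), ?_⟩
    rintro u ⟨hu1, hu2, hu3⟩
    obtain ⟨N, hN⟩ := (hQ x hxq).cp u hu1
    refine ⟨N, fun c hc hcN => ?_⟩
    obtain ⟨f, hf, hf1, hf2⟩ := hN c hc.2.1 hcN
    refine ⟨f, hf, hf1, hf2, hu2.trans (EE.union hf1.2), fun k hk hk' => ?_⟩
    rcases Finset.mem_union.1 hk with hk | hk
    · exact hu3 k hk hk'
    · exact ⟨hc.2.2.1 k (hf hk), hc.1 k (hf hk)⟩
  obtain ⟨w', hw', hAt, hlt, hval⟩ := exists_val hw (hq3q.trans hq) hq3I R hRC hRQ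
    (fun x hx => ⟨fun t ht => ht.1, 0, fun c hc _ => ⟨c, hc.2.1, subset_rfl⟩⟩)
  have hpt : ∀ x ∈ w'.pts, x ∈ q3.pts := fun x hx => by
    rw [← hlt]
    exact mem_lt hx β
  refine ⟨a1, ha1, w', hw', hAt, s0, ?_, ?_⟩
  · intro x hx
    rw [hval x (hpt x hx)]
    exact ⟨⟨hS x (pts_mono hq3q (hpt x hx)) s0 hs0, EE.refl s0, fun k hk hk' => absurd hk hk'⟩,
      fun t ht => ht.2.1⟩
  · intro x hx S' hS'
    have hx3 := hpt x hx
    rw [hval x hx3] at hS' ⊢
    have hcolt : ∀ u ∈ (R x).T, u ≠ s0 → col u x = true := by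
      rintro u ⟨hu1, hu2, hu3⟩ hu
      by_contra hc
      rw [Bool.not_eq_true] at hc
      refine hno x hx3 ⟨u \ s0, ⟨?_, ?_⟩, ?_, ?_, ?_⟩
      · rw [Finset.sdiff_nonempty]
        intro h
        exact hu (Finset.Subset.antisymm h hu2.1)
      · intro j hj k hk
        rw [Finset.mem_sdiff] at hk
        exact hu2.2 j hj k hk.1 hk.2
      · intro k hk
        rw [Finset.mem_sdiff] at hk
        exact hu3 k hk.1 hk.2
      · rw [Finset.union_sdiff_of_subset hu2.1]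
        exact hu1
      · rw [Finset.union_sdiff_of_subset hu2.1]
        exact hc
    have hcp : ∀ s ∈ S', ∃ N, ∀ c ∈ (R x).C, (∀ k ∈ c, N ≤ k) → ∃ f ⊆ c, Above s f ∧
        s ∪ f ∈ (R x).T := fun s hs => (hRQ x hx3).cp s (hS' s hs).1
    choose! N hN using hcp
    refine (hRQ x hx3).large.almost (fun c hc => hc.1) ⟨S'.sup N, fun c hc hcN => ?_⟩
    refine ⟨(hRQ x hx3).large.1 c hc, ⟨c, hc, subset_rfl⟩, fun s hs => ?_⟩
    obtain ⟨f, hf, hf1, hf2⟩ := hN s hs c hc fun k hk => (Finset.le_sup hs).trans (hcN k hk)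
    refine ⟨f, hf, hf1, hf2, hcolt _ hf2 ?_⟩
    intro he
    obtain ⟨k, hk⟩ := hf1.1
    have h1 : k ∈ s0 := by
      rw [← he]
      exact Finset.mem_union_right _ hk
    have h2 : k ∈ s := ((hS' s hs).1).2.1.1 h1
    exact lt_irrefl _ (hf1.2 k h2 k hk)

/-- DICHOTOMY: for every colouring of the nodes there are a colour `i` and an extension for
which the selection fusion with the nodes of colour `i` is possible. -/
theorem homog_dichotomy {β : L} (hD : DCP 𝔸 (Iio β)) (a : 𝔸) {w : Cond L} (hw : At β w) {t : Fs}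
    (ht : Root β w t) (col : Fs → Pt L → Bool) (hcol : ∀ s, LC (w.lt β) (col s)) :
    ∃ a' ≤ a, ∃ w' ≤ w, At β w' ∧ ∃ t', Root β w' t' ∧ ∃ i : Bool,
      SelOK β w' t' fun s x => (col s x = i) := by
  classical
  have hR : CQ (w.lt β) (w.val β) := CQ_val_lt w β
  have hSel : ∀ S c, LC (w.lt β) fun x => (c ∈ Sel (w.val β x) (fun s => col s x = false) S) :=
    fun S c => S1_sel hR hcol S c
  obtain ⟨e, he⟩ : ∃ e : ℕ → (Finset Fs × ℕ × ℕ), Function.Surjective e :=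
    exists_surjective_nat _
  obtain ⟨a1, ha1, q1, hq1, hq1I, hLC1⟩ := clopen_of_dc hD a (lt_in w β)
    (fun N => {x | MN (Sel (w.val β x) (fun s => col s x = false) (e N).1) (e N).2.1 (e N).2.2})
    (fun N => MN_opn (hSel _) (fun x _ c hc => hc.1) _ _)
  have hLC1' : ∀ S m n, LC q1 fun x =>
      MN (Sel (w.val β x) (fun s => col s x = false) S) m n := by
    intro S m n
    obtain ⟨N, hN⟩ := he (S, m, n)
    have := hLC1 N
    rw [hN] at this
    exact this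
  obtain ⟨w1, hw1, hAt1, hlt1, hval1⟩ := exists_over hw hq1 hq1I
  by_cases hOK : SelOK β w1 t fun s x => (col s x = false)
  · exact ⟨a1, ha1, w1, hw1, hAt1, t, Root.over hw1 ht (fun x _ => hval1 x), false, hOK⟩
  · unfold SelOK at hOK
    push Not at hOK
    obtain ⟨x, hx, S, hS, hnl⟩ := hOK
    rw [hval1] at hS hnl
    obtain ⟨m, n, hmn⟩ := not_large (fun c hc => hc.1) hnl
    have hx1 : x ∈ q1.pts := by
      rw [← hlt1]
      exact mem_lt hx β
    obtain ⟨F0, m0, hl0, hc0⟩ := (S1_all (P := fun s y => (s ∈ (w.val β y).T)) S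
      fun s => (hR s).1.mono hq1) x hx1
    obtain ⟨F1, m1, hl1, hc1⟩ := hLC1' S m n x hx1
    obtain ⟨F, μ, hl, hle0, hle1⟩ := Meets.inter hx1 ⟨F0, m0, hl0, le_rfl⟩ ⟨F1, m1, hl1, le_rfl⟩
    have hq2 : q1.at' x F μ hl ≤ q1 := at_le hl
    have hST : ∀ y ∈ (q1.at' x F μ hl).pts, ∀ s ∈ S, s ∈ (w.val β y).T := by
      intro y hy
      exact (iff_of_eq (hc0 y (pts_mono hle0 hy))).2 fun s hs => (hS s hs).1
    have hnM : ∀ y ∈ (q1.at' x F μ hl).pts,
        ¬ MN (Sel (w.val β y) (fun s => col s y = false) S) m n := by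
      intro y hy h
      exact hmn ((iff_of_eq (hc1 y (pts_mono hle1 hy))).1 h)
    obtain ⟨a2, ha2, q3, hq3, hq3I, χ, hχ, hχ'⟩ := exists_colouring hD a1 (at_in hq1I hl)
      (A := fun y => Sel (w.val β y) (fun s => col s y = false) S)
      (fun c => (hSel S c).mono (hq2.trans hq1)) hnM
    obtain ⟨a', ha', w', hw', hAt', t', hr', hOK'⟩ := homog_tree hD a2 hw col hcol
      (hq3.trans (hq2.trans hq1)) hq3I (S := S) (fun y hy => hST y (pts_mono hq3 hy)) hχ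
      (fun y hy => (hχ' y hy).1) (fun y hy => (hχ' y hy).2)
    exact ⟨a', ha'.trans (ha2.trans ha1), w', hw', hAt', t', hr', true, hOK'⟩

end E8
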