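import Pool.Agent.Lib.MP_e8be47_lc.VSel

/-!
# bad colourings can be chosen continuously
-/

open Set Classical

set_option linter.unusedSectionVars false

namespace E8

variable {𝔸 : Type} [Tow 𝔸] {L : Type} [LinearOrder L] [WellFoundedLT L]

open Cond

private def VHExt (A : Set Fs) (m n : ℕ) (τ : List ℕ) : Prop :=
  ∃ χ : ℕ → ℕ, (List.range τ.length).map χ = τ ∧ (∀ k, χ k < m) ∧
    ∀ c ∈ A, (∀ k ∈ c, n ≤ k) → ¬ ∃ i, ∀ k ∈ c, χ k = i

private theorem VHExt.anti {A B : Set Fs} {m n : ℕ} {τ : List ℕ} (h : VHExt A m n τ) (hB : B ⊆ A) :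
    VHExt B m n τ := by
  obtain ⟨χ, h1, h2, h3⟩ := h
  exact ⟨χ, h1, h2, fun c hc => h3 c (hB hc)⟩

private theorem VHExt.compact {A : Set Fs} {m n : ℕ} {τ : List ℕ} (h : ¬ VHExt A m n τ) :
    ∃ E : Finset Fs, (∀ c ∈ E, c ∈ A) ∧ ¬ VHExt (E : Set Fs) m n τ := by
  by_contra hcon
  push Not at hcon
  let E : ℕ → Finset Fs := fun N => ((Finset.range N).powerset).filter (fun c => c ∈ A)
  have h1 : ∀ N, VHExt (E N : Set Fs) m n τ := fun N => hcon (E N) (fun c hc => (Finset.mem_filter.1 hc).2)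
  choose χ hχ0 hχ hbad using h1
  let U : Ultrafilter ℕ := Filter.hyperfilter ℕ
  have h2 : ∀ k, ∃ i, i < m ∧ ∀ᶠ N in (U : Filter ℕ), χ N k = i := by
    intro k
    obtain ⟨i, hi, hU⟩ := Ultrafilter.eq_pure_of_finite_mem (f := U.map (fun N => χ N k)) (s := {i | i < m})
      (Set.finite_lt_nat m) (by
        rw [Ultrafilter.mem_map]
        exact Filter.Eventually.of_forall (fun N => hχ N k))
    refine ⟨i, hi, ?_⟩
    have h3 : {j | j = i} ∈ U.map (fun N => χ N k) := by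
      rw [hU]
      exact rfl
    exact h3
  choose ψ hψ hev using h2
  apply h
  refine ⟨ψ, ?_, hψ, ?_⟩
  · have h3 : ∀ᶠ N in (U : Filter ℕ), ∀ k ∈ Finset.range τ.length, χ N k = ψ k :=
      (Filter.eventually_all_finset _).2 (fun k _ => hev k)
    obtain ⟨N, hN⟩ := h3.exists
    rw [← hχ0 N]
    simp only [List.length_map, List.length_range]
    rw [List.map_inj_left]
    intro k hk
    exact (hN k (Finset.mem_range.2 (List.mem_range.1 hk))).symm
  · rintro c hc hcn ⟨i, hi⟩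
    have h3 : ∀ᶠ N in (U : Filter ℕ), ∀ k ∈ c, χ N k = ψ k :=
      (Filter.eventually_all_finset c).2 (fun k _ => hev k)
    have h4 : ∀ᶠ N in (U : Filter ℕ), c.sup Nat.succ ≤ N :=
      Nat.hyperfilter_le_atTop (Filter.eventually_ge_atTop _)
    obtain ⟨N, hN1, hN2⟩ := (h3.and h4).exists
    have hcE : c ∈ E N := by
      refine Finset.mem_filter.2 ⟨Finset.mem_powerset.2 ?_, hc⟩
      intro k hk
      have := Finset.le_sup (f := Nat.succ) hk
      exact Finset.mem_range.2 (by omega)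
    exact hbad N c hcE hcn ⟨i, fun k hk => by rw [hN1 k hk, hi k hk]⟩

private theorem VHExt.next {A : Set Fs} {m n : ℕ} {τ : List ℕ} (h : VHExt A m n τ) :
    ∃ i < m, VHExt A m n (τ ++ [i]) := by
  obtain ⟨χ, h1, h2, h3⟩ := h
  refine ⟨χ τ.length, h2 _, χ, ?_, h2, h3⟩
  rw [List.length_append, List.length_singleton, List.range_succ, List.map_append, h1]
  rfl

/-- continuous choice of a bad colouring -/
theorem exists_colouring {Λ : Set L} (hD : DCP 𝔸 Λ) (a : 𝔸) {q : Cond L} (hq : q.In Λ)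
    {A : Pt L → Set Fs} (hA : ∀ c, LC q fun x => (c ∈ A x)) {m n : ℕ}
    (hn : ∀ x ∈ q.pts, ¬ MN (A x) m n) :
    ∃ a' ≤ a, ∃ q' ≤ q, q'.In Λ ∧ ∃ χ : ℕ → Pt L → ℕ, (∀ k, LC q' (χ k)) ∧
      ∀ x ∈ q'.pts, (∀ k, χ k x < m) ∧
        ∀ c ∈ A x, (∀ k ∈ c, n ≤ k) → ¬ ∃ i, ∀ k ∈ c, χ k x = i := by
  obtain ⟨dec, hdec⟩ := exists_surjective_nat (List ℕ)
  have hopen : ∀ τ : List ℕ, Opn q {x | ¬ VHExt (A x) m n τ} := by
    intro τ x hx hne
    obtain ⟨E, hEA, hE⟩ := VHExt.compact hne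
    obtain ⟨F, m', h, hc⟩ := LC.finite (fun (s : Fs) (x : Pt L) => (s ∈ A x)) hA E hx
    refine ⟨F, m', h, ?_⟩
    intro y hy hext
    apply hE
    refine hext.anti ?_
    intro c hcE
    have h1 : (c ∈ A y) = (c ∈ A x) := hc c hcE y hy
    rw [h1]
    exact hEA c hcE
  obtain ⟨a', ha', q', hq', hqI, hLC⟩ := clopen_of_dc hD a hq (fun i => {x | ¬ VHExt (A x) m n (dec i)})
    (fun i => hopen (dec i))
  have hNE : ∀ τ, LC q' (fun x => VHExt (A x) m n τ) := by
    intro τ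
    obtain ⟨i, rfl⟩ := hdec τ
    have h1 := (hLC i).comp Not
    have e : (fun x => VHExt (A x) m n (dec i)) = fun x => ¬ (x ∈ {x | ¬ VHExt (A x) m n (dec i)}) := by
      ext x
      exact (not_not (a := VHExt (A x) m n (dec i))).symm
    rw [e]
    exact h1
  let dig : List ℕ → Pt L → ℕ := fun τ x => sInf {i | i < m ∧ VHExt (A x) m n (τ ++ [i])}
  have hdig : ∀ τ, LC q' (dig τ) := by
    intro τ x hx
    obtain ⟨F, m', h, hc⟩ := LC.finite (fun (i : ℕ) (x : Pt L) => VHExt (A x) m n (τ ++ [i]))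
      (fun i => hNE (τ ++ [i])) (Finset.range m) hx
    refine ⟨F, m', h, ?_⟩
    intro y hy
    show sInf {i | i < m ∧ VHExt (A y) m n (τ ++ [i])} = sInf {i | i < m ∧ VHExt (A x) m n (τ ++ [i])}
    congr 1
    ext i
    constructor
    · rintro ⟨h1, h2⟩
      exact ⟨h1, by rw [← hc i (Finset.mem_range.2 h1) y hy]; exact h2⟩
    · rintro ⟨h1, h2⟩
      exact ⟨h1, by
        have h3 := hc i (Finset.mem_range.2 h1) y hy
        rw [h3]; exact h2⟩
  let T : ℕ → Pt L → List ℕ := fun k x => Nat.rec [] (fun _ τ => τ ++ [dig τ x]) k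
  have hT0 : ∀ x, T 0 x = [] := fun x => rfl
  have hTs : ∀ k x, T (k + 1) x = T k x ++ [dig (T k x) x] := fun k x => rfl
  have hTLC : ∀ k, LC q' (T k) := by
    intro k
    induction k with
    | zero => exact LC.const q' _
    | succ k ih => exact LC.bind ih (fun τ x => τ ++ [dig τ x]) (fun τ => (hdig τ).comp (fun d => τ ++ [d]))
  let χ : ℕ → Pt L → ℕ := fun k x => dig (T k x) x
  have hTχ : ∀ k x, T k x = (List.range k).map (fun j => χ j x) := by
    intro k x
    induction k with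
    | zero => rfl
    | succ k ih => rw [hTs, List.range_succ, List.map_append, ← ih]; rfl
  have hext : ∀ x ∈ q'.pts, ∀ k, VHExt (A x) m n (T k x) := by
    intro x hx k
    induction k with
    | zero =>
      have h1 := hn x (pts_mono hq' hx)
      unfold MN at h1
      push Not at h1
      obtain ⟨ψ, h2, h3⟩ := h1
      refine ⟨ψ, rfl, h2, ?_⟩
      rintro c hc hcn ⟨i, hi⟩
      obtain ⟨k, hk, h4⟩ := h3 c hc hcn i
      exact h4 (hi k hk)
    | succ k ih =>
      rw [hTs]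
      obtain ⟨i, hi, hE⟩ := ih.next
      exact (Nat.sInf_mem (s := {i | i < m ∧ VHExt (A x) m n (T k x ++ [i])}) ⟨i, hi, hE⟩).2
  refine ⟨a', ha', q', hq', hqI, χ, fun k => LC.bind (hTLC k) dig hdig, ?_⟩
  intro x hx
  constructor
  · intro k
    obtain ⟨i, hi, hE⟩ := (hext x hx k).next
    exact (Nat.sInf_mem (s := {i | i < m ∧ VHExt (A x) m n (T k x ++ [i])}) ⟨i, hi, hE⟩).1
  · rintro c hc hcn ⟨i, hi⟩
    obtain ⟨ψ, h1, h2, h3⟩ := hext x hx (c.sup Nat.succ)
    apply h3 c hc hcn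
    refine ⟨i, fun k hk => ?_⟩
    rw [← hi k hk]
    have hl : (T (c.sup Nat.succ) x).length = c.sup Nat.succ := by
      rw [hTχ, List.length_map, List.length_range]
    rw [hl, hTχ, List.map_inj_left] at h1
    apply h1
    have := Finset.le_sup (f := Nat.succ) hk
    exact List.mem_range.2 (by omega)

end E8
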