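import Pool.Agent.Lib.MP_e8be47_lc.VRank

/-!
# front property, pure decision, interpretation
-/

open Set Classical

set_option linter.unusedSectionVars false

namespace E8

variable {𝔸 : Type} [Tow 𝔸] {L : Type} [LinearOrder L] [WellFoundedLT L]

open Cond

private theorem R2_lc_dep {W : Type*} {β : L} {w : Cond L} {f : Pt L → W} (hf : LC (w.lt β) f)
    {x y : Pt L} (hx : x ∈ (w.lt β).pts) (hy : y ∈ (w.lt β).pts) (h : ∀ η < β, y η = x η) :
    f y = f x :=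
  hf.dep hx hy fun ξ hξ => h ξ (lt_in w β hξ)

private theorem R2_node {T : Set Fs} {z : Set ℕ} (hz : z ∈ br T) {M : ℕ}
    (hcl : ∀ s ∈ T, cutF s M ∈ T) : cut z M ∈ T := by
  obtain ⟨m, hm, hT⟩ := exists_cut_mem hz M
  have := hcl _ hT
  rwa [cutF_cut hm] at this

private theorem R2_cutF {s : Fs} {M : ℕ} (h : s.sup Nat.succ ≤ M) : cutF s M = s := by
  ext k
  rw [mem_cutF]
  exact ⟨fun h => h.1, fun hk => ⟨hk, (lt_sup hk).trans_le h⟩⟩

/-- the front property -/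
theorem front_of_dc {β : L} (hD : DCP 𝔸 (Iio β)) : FrontP 𝔸 β := by
  intro D hDO a w t hw ht
  obtain ⟨i, a', ha', w', hw', hA, hR, hF⟩ := rank_lemma hD (fun _ b v => Front D b v)
    (fun i a a' w w' ha hw h => h.mono hDO.opd ha hw)
    (fun i a w h => Front.of_local h hDO.opd) a hw ht (by
      intro a' ha' v hv hvA
      obtain ⟨a'', ha'', v'', hv'', hd⟩ := hDO.dns a' v
      exact ⟨true, a'', ha'', v''.le β, restr_le_of_le hv'' hvA.le,
        ⟨restr_in v'', ⟨hv''.1 hvA.mem, self_mem_Iic⟩⟩, Front.of_mem hDO.opd ((hDO.loc a'' v'').1 hd)⟩)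
  exact ⟨a', ha', w', hw', hA, hR, hF⟩

/-- pure decision of finitely many digits -/
theorem pure_decision {β : L} (hD : DCP 𝔸 (Iio β)) (a : 𝔸) {w : Cond L} (hw : At β w) {t : Fs}
    (ht : Root β w t) {Y : Pt L → Set ℕ} (hY : CR w Y) (k : ℕ) :
    ∃ a' ≤ a, ∃ w' ≤ w, At β w' ∧ Root β w' t ∧
      ∀ x ∈ w'.pts, ∀ y ∈ w'.pts, ∀ j < k, (j ∈ Y x ↔ j ∈ Y y) := by
  induction k with
  | zero => exact ⟨a, le_rfl, w, le_rfl, hw, ht, fun _ _ _ _ j hj => absurd hj (Nat.not_lt_zero j)⟩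
  | succ k ih =>
    obtain ⟨a1, ha1, w1, hw1, hA1, hR1, h1⟩ := ih
    obtain ⟨i, a2, ha2, w2, hw2, hA2, hR2, h2⟩ := rank_lemma hD
      (fun i _ v => ∀ x ∈ v.pts, (k ∈ Y x ↔ i = true))
      (fun i a a' w w' ha hw h x hx => h x (pts_mono hw hx))
      (fun i a w h x hx => by
        obtain ⟨F, m, hl, h'⟩ := h x hx
        exact h' x (self_mem_at hx hl)) a1 hA1 hR1 (by
        intro a' ha' v hv hvA
        obtain ⟨x, hx⟩ := pts_nonempty v
        obtain ⟨F, m, hl, hc⟩ := ((hY k).mono (hv.trans hw1)) x hx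
        refine ⟨decide (k ∈ Y x), a', le_rfl, v.at' x F m hl, at_le hl, ⟨at_in hvA.le hl, hvA.mem⟩, ?_⟩
        intro y hy
        rw [show (k ∈ Y y) = (k ∈ Y x) from hc y hy]
        simp)
    refine ⟨a2, ha2.trans ha1, w2, hw2.trans hw1, hA2, hR2, fun x hx y hy j hj => ?_⟩
    rcases Nat.lt_succ_iff_lt_or_eq.1 hj with hj | rfl
    · exact h1 x (pts_mono hw2 hx) y (pts_mono hw2 hy) j hj
    · rw [h2 x hx, h2 y hy]

/-- interpretation of a real at all nodes -/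
theorem int_lemma {β : L} (hD : DCP 𝔸 (Iio β)) (a : 𝔸) {w : Cond L} (hw : At β w) {t : Fs}
    (ht : Root β w t) {Y : Pt L → Set ℕ} (hY : CR w Y) :
    ∃ a' ≤ a, ∃ w' ≤ w, At β w' ∧ Root β w' t ∧ ∃ M : ℕ → Pt L → ℕ, ∃ Ys : Fs → Pt L → Set ℕ,
      (∀ k, LC (w'.lt β) (M k)) ∧ (∀ s, CR (w'.lt β) (Ys s)) ∧
      ∀ x ∈ w'.pts, StrictMono (fun k => M k x) ∧
        (∀ k, ∀ s ∈ (w'.val β x).T, cutF s (M k x) ∈ (w'.val β x).T) ∧
        ∀ k, ∀ j < k, (j ∈ Y x ↔ j ∈ Ys (cut (x β) (M k x)) x) := by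
  obtain ⟨a1, ha1, w1, hw1, hA1, hR1, M, hM, hMx⟩ := fusion_lemma hD
    (fun k _ v => ∀ x ∈ v.pts, ∀ y ∈ v.pts, ∀ j < k, (j ∈ Y x ↔ j ∈ Y y))
    (fun k a a' w w' t _ hw' _ _ _ _ h x hx y hy => h x (pts_mono hw' hx) y (pts_mono hw' hy))
    a hw ht (fun k a' _ v hv t hvA hvt => by
      obtain ⟨a'', ha'', v', hv', h1, h2, h3⟩ := pure_decision hD a' hvA hvt
        (fun j => (hY j).mono hv) k
      exact ⟨a'', ha'', v', hv', h1, h2, h3⟩)
  have hML : ∀ k, ∀ x ∈ w1.pts, k ≤ M k x := fun k x hx => (hMx x hx).1.le_apply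
  have hMd : ∀ k, ∀ x ∈ (w1.lt β).pts, ∀ y ∈ w1.pts, (∀ η < β, y η = x η) → M k y = M k x :=
    fun k x hx y hy h => R2_lc_dep (hM k) hx (mem_lt hy β) h
  -- points of a restriction at `x`
  have hpt : ∀ x ∈ w1.pts, ∀ (F : Finset L) (μ : L → ℕ) (h : w1.Leg x F μ) (y : Pt L), y ∈ w1.pts →
      (∀ ξ ∈ F, ξ < β → cut (y ξ) (μ ξ) = cut (x ξ) (μ ξ)) →
      cut (y β) (μ β) = cut (x β) (μ β) → y ∈ (w1.at' x F μ h).pts := by
    intro x _ F μ h y hy h1 h2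
    refine (mem_at h).2 ⟨hy, fun ξ hξ => ?_⟩
    rcases (show ξ ≤ β from hA1.le (h.sub hξ)).lt_or_eq with hlt | rfl
    · exact h1 ξ hξ hlt
    · exact h2
  let K : Fs → ℕ → ℕ := fun s j => max (j + 1) (s.sup Nat.succ)
  have hjK : ∀ s j, j < K s j := fun s j => Nat.lt_of_succ_le (le_max_left _ _)
  have hsK : ∀ s j, s.sup Nat.succ ≤ K s j := fun s j => le_max_right _ _
  let Ys : Fs → Pt L → Set ℕ := fun s x => {j | ∃ y ∈ w1.pts, (∀ η < β, y η = x η) ∧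
    cut (y β) (M (K s j) x) = s ∧ j ∈ Y y}
  -- candidates exist
  have hcand : ∀ s k, s.sup Nat.succ ≤ k → ∀ x ∈ (w1.lt β).pts, s ∈ (w1.val β x).T →
      ∃ y ∈ w1.pts, (∀ η < β, y η = x η) ∧ cut (y β) (M k x) = s := by
    intro s k hk x hx hs
    have hkM : k ≤ M k x := by
      obtain ⟨y, hy, hyx⟩ := exists_point hx
      rw [← hMd k x hx y hy hyx]
      exact hML k y hy
    obtain ⟨z, hz, hc⟩ := exists_branch (isQ_lt hx) hs (M k x) fun i hi =>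
      (lt_sup hi).trans_le (hk.trans hkM)
    obtain ⟨y, hy, hyx, rfl⟩ := exists_point' hx hz
    exact ⟨y, hy, hyx, hc⟩
  refine ⟨a1, ha1, w1, hw1, hA1, hR1, M, Ys, hM, ?_, fun x hx => ⟨(hMx x hx).1, (hMx x hx).2.1, ?_⟩⟩
  · intro s j x hx
    obtain ⟨F2, m2, h2, hc2⟩ := ((hM (K s j)).comp₂ (CQ_val_lt w1 β s).1 Prod.mk) x hx
    have hc2' : ∀ y ∈ ((w1.lt β).at' x F2 m2 h2).pts, M (K s j) y = M (K s j) x ∧
        ((s ∈ (w1.val β y).T) = (s ∈ (w1.val β x).T)) := fun y hy => by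
      have := hc2 y hy
      exact ⟨congrArg Prod.fst this, congrArg Prod.snd this⟩
    by_cases hs : s ∈ (w1.val β x).T
    · obtain ⟨y0, hy0, hy0x, hy0c⟩ := hcand s (K s j) (hsK s j) x hx hs
      obtain ⟨F, μ, h, hβ, hμ, hΦ⟩ := (hMx y0 hy0).2.2 (K s j)
      have hMy0 : M (K s j) y0 = M (K s j) x := hMd _ x hx y0 hy0 hy0x
      obtain ⟨h', -⟩ := leg_filter (β := β) h
      have h'' : (w1.lt β).Leg x (F.filter (· < β)) μ := by
        refine h'.congr fun ξ hξ => ?_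
        rw [hy0x ξ (Finset.mem_filter.1 hξ).2]
      obtain ⟨F3, m3, h3, h31, h32⟩ := Meets.inter hx ((Meets.self (w1.lt β) x).at hx h'')
        ((Meets.self (w1.lt β) x).at hx h2)
      have key : ∀ x' ∈ ((w1.lt β).at' x F3 m3 h3).pts, (j ∈ Ys s x' ↔ j ∈ Y y0) := by
        intro x' hx'
        have hx1 := (mem_at h'').1 (pts_mono h31 hx')
        have hx2 := hc2' x' (pts_mono h32 hx')
        have hx'w : x' ∈ (w1.lt β).pts := hx1.1
        have hy' : ∀ y' ∈ w1.pts, (∀ η < β, y' η = x' η) → cut (y' β) (M (K s j) x') = s →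
            (j ∈ Y y' ↔ j ∈ Y y0) := by
          intro y' hy' hyx' hyc'
          refine hΦ y' (hpt y0 hy0 F μ h y' hy' (fun ξ hξ hlt => ?_) ?_) y0 (self_mem_at hy0 h) j
            (hjK s j)
          · rw [hyx' ξ hlt, hx1.2 ξ (Finset.mem_filter.2 ⟨hξ, hlt⟩), hy0x ξ hlt]
          · rw [hμ, hMy0, hy0c, ← hx2.1, hyc']
        constructor
        · rintro ⟨y', hy'1, hy'2, hy'3, hy'4⟩
          exact (hy' y' hy'1 hy'2 hy'3).1 hy'4
        · intro hj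
          obtain ⟨y', hy'1, hy'2, hy'3⟩ := hcand s (K s j) (hsK s j) x' hx'w (by
            rw [hx2.2]
            exact hs)
          exact ⟨y', hy'1, hy'2, hy'3, (hy' y' hy'1 hy'2 hy'3).2 hj⟩
      exact ⟨F3, m3, h3, fun x' hx' => propext ((key x' hx').trans
        (key x (self_mem_at hx h3)).symm)⟩
    · have key : ∀ x' ∈ ((w1.lt β).at' x F2 m2 h2).pts, ¬ j ∈ Ys s x' := by
        rintro x' hx' ⟨y', hy'1, hy'2, hy'3, -⟩
        have hx2 := hc2' x' hx'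
        have hx'w : x' ∈ (w1.lt β).pts := pts_mono (at_le h2) hx'
        apply hs
        rw [← hx2.2, ← hy'3, ← hMd (K s j) x' hx'w y' hy'1 hy'2, ← val_congr hy'2]
        exact R2_node (hy'1 β) ((hMx y' hy'1).2.1 _)
      exact ⟨F2, m2, h2, fun x' hx' => propext ⟨fun h => absurd h (key x' hx'), fun h =>
        absurd h (key x (self_mem_at hx h2))⟩⟩
  · intro k j hj
    have hxl : x ∈ (w1.lt β).pts := mem_lt hx β
    obtain ⟨hmono, hcl, hΦ⟩ := hMx x hx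
    set s := cut (x β) (M k x) with hs
    have hsT : s ∈ (w1.val β x).T := R2_node (hx β) (hcl k)
    set k' := min (K s j) k with hk'
    have hjk' : j < k' := lt_min (hjK s j) hj
    obtain ⟨F, μ, h, hβ, hμ, hΦ'⟩ := hΦ k'
    have hxc : cut (x β) (M k' x) = cutF s (M k' x) := by
      rw [hs, cutF_cut (hmono.monotone (min_le_right _ _))]
    have hy' : ∀ y' ∈ w1.pts, (∀ η < β, y' η = x η) → cut (y' β) (M (K s j) x) = s →
        (j ∈ Y y' ↔ j ∈ Y x) := by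
      intro y' hy' hyx' hyc'
      refine hΦ' y' (hpt x hx F μ h y' hy' (fun ξ _ hlt => by rw [hyx' ξ hlt]) ?_) x
        (self_mem_at hx h) j hjk'
      rw [hμ, hxc]
      conv_rhs => rw [← hyc']
      rw [cutF_cut (hmono.monotone (min_le_left _ _))]
    constructor
    · intro hj'
      obtain ⟨y', hy'1, hy'2, hy'3⟩ := hcand s (K s j) (hsK s j) x hxl hsT
      exact ⟨y', hy'1, hy'2, hy'3, (hy' y' hy'1 hy'2 hy'3).2 hj'⟩
    · rintro ⟨y', hy'1, hy'2, hy'3, hy'4⟩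
      exact (hy' y' hy'1 hy'2 hy'3).1 hy'4

end E8
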