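import Pool.Agent.Lib.MP_e8be47_lc.VNext
import Pool.Agent.Lib.MP_e8be47_lc.DExt

/-!
# no splitting reals, limit step
-/

open Set Classical

set_option linter.unusedSectionVars false

namespace E8

variable {𝔸 : Type} [Tow 𝔸] {L : Type} [LinearOrder L] [WellFoundedLT L]

open Cond

/-- `Next` is monotone in `a` -/
private theorem L4_mono {Λ : Set L} {Y : Pt L → Set ℕ} {i : Bool} {β β' : L} {V : Set ℕ}
    {p : Cond L} {a a' : 𝔸} (ha : a' ≤ a) {v : Cond L} {PK : ℕ → Pt L → Cond L}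
    {VK : ℕ → Pt L → Set ℕ} (h : Next Λ Y i β β' V p a v PK VK) :
    Next Λ Y i β β' V p a' v PK VK where
  le := h.le
  vin := h.vin
  lcP := h.lcP
  lcV := h.lcV
  pk := h.pk
  inf := by
    intro x hx N
    obtain ⟨N0, hN0⟩ := (Tow.top_mono a a' ha).bddAbove
    obtain ⟨K, hK, h1⟩ := h.inf x hx (max N (N0 + 1))
    refine ⟨K, (le_max_left _ _).trans hK, fun j hj hKj => ?_⟩
    refine h1 j ?_ hKj
    by_contra hcon
    have h2 : j ≤ N0 := hN0 ⟨hj, hcon⟩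
    have h3 := (le_max_right N (N0 + 1)).trans hK
    omega

/-- the dense set of the state `(n, p, V)` -/
private def L4_D (Λ : Set L) (Y : Pt L → Set ℕ) (i : Bool) (b : ℕ → L) (a1 : 𝔸) (n : ℕ)
    (p : Cond L) (V : Set ℕ) : DSet 𝔸 L :=
  {d | (¬ ∃ c ≤ d.1, c ≤ a1) ∨ ¬ Cpt (d.2.lt (b n)) (p.lt (b n)) ∨
    ∃ z : Cond L × (ℕ → Pt L → Cond L) × (ℕ → Pt L → Set ℕ),
      Next Λ Y i (b n) (b (n + 1)) V p d.1 z.1 z.2.1 z.2.2 ∧ d.2.lt (b n) ≤ z.1}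

private theorem L4_DOL {Λ : Set L} (hΛ : IsLowerSet Λ) {Y : Pt L → Set ℕ} {i : Bool} {b : ℕ → L}
    (hbΛ : ∀ n, Iio (b n) ⊆ Λ) {n : ℕ}
    (hD : DCP 𝔸 (Iio (b n))) (hS : SSP (Iio (b n))) {a1 : 𝔸} {p1 : Cond L}
    (hg : Good Λ Y i b a1 p1) (hp1 : p1.In Λ) {p : Cond L} (hp : p ≤ p1)
    {V : Set ℕ} (hr : Rich Λ Y i (b n) V p) :
    DOL (Iio (b n)) (isLowerSet_Iio (b n)) (L4_D Λ Y i b a1 n p V) where
  dns := by
    intro a p'
    by_cases h1 : ∃ c ≤ a, c ≤ a1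
    · obtain ⟨c, hca, hc1⟩ := h1
      by_cases h2 : Cpt (p'.lt (b n)) (p.lt (b n))
      · obtain ⟨r, hr1, hr2⟩ := h2
        have u1 : r.lt (b n) ≤ p'.lt (b n) := restr_le_of_le hr1 (lt_in _ _)
        have u2 : r.lt (b n) ≤ p.lt (b n) := restr_le_of_le hr2 (lt_in _ _)
        obtain ⟨a', ha', v, hv, PK, VK, hN⟩ :=
          rich_next hΛ hbΛ hD hS hg hp1 hc1 hp hr u2 (lt_in r (b n))
        obtain ⟨p'', hp'', hp2, -⟩ := exists_amalg (isLowerSet_Iio (b n)) hN.vin (hv.trans u1)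
        refine ⟨a', ha'.trans hca, p'', hp'', Or.inr (Or.inr ⟨(v, PK, VK), hN, ?_⟩)⟩
        show p''.restr (Iio (b n)) (isLowerSet_Iio (b n)) ≤ v
        rw [hp2]
      · exact ⟨a, le_rfl, p', le_rfl, Or.inr (Or.inl h2)⟩
    · exact ⟨a, le_rfl, p', le_rfl, Or.inl h1⟩
  opd := by
    rintro a p' (h | h | ⟨z, hz, hle⟩) a' ha' p'' hp''
    · left
      rintro ⟨c, hc, hc1⟩
      exact h ⟨c, hc.trans ha', hc1⟩
    · right; left
      rintro ⟨r, hr1, hr2⟩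
      exact h ⟨r, hr1.trans (restr_mono hp''), hr2⟩
    · right; right
      exact ⟨z, L4_mono ha' hz, (restr_mono hp'').trans hle⟩
  loc := by
    intro a p'
    have e : (p'.restr (Iio (b n)) (isLowerSet_Iio (b n))).lt (b n) = p'.lt (b n) :=
      lt_lt le_rfl
    unfold L4_D
    simp only [mem_ofPred_eq, e]

/-- the states -/
private inductive L4_St (L : Type) [LinearOrder L] : Type
  | one (n : ℕ) (p : Cond L) (V : Set ℕ) : L4_St L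
  | two (n : ℕ) (z : Cond L × (ℕ → Pt L → Cond L) × (ℕ → Pt L → Set ℕ)) : L4_St L

private def L4_pc : L4_St L → Cond L
  | .one _ p _ => p
  | .two _ _ => Cond.one L

private def L4_vs : L4_St L → Set ℕ
  | .one _ _ V => V
  | .two _ _ => ∅

private noncomputable def L4_enum {α : Type} [Inhabited α] (T : Set α) (l : ℕ) : α :=
  if h : T.Countable ∧ T.Nonempty then (h.1.exists_eq_range h.2).choose l else default

private theorem L4_enum_spec {α : Type} [Inhabited α] {T : Set α} (hc : T.Countable) {t : α}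
    (ht : t ∈ T) : ∃ l, L4_enum T l = t := by
  have h : T.Countable ∧ T.Nonempty := ⟨hc, t, ht⟩
  have h1 := (h.1.exists_eq_range h.2).choose_spec
  have h2 : t ∈ range (h.1.exists_eq_range h.2).choose := by
    rw [← h1]
    exact ht
  obtain ⟨l, hl⟩ := h2
  refine ⟨l, ?_⟩
  unfold L4_enum
  rw [dif_pos h]
  exact hl

private noncomputable def L4_g (Λ : Set L) (Y : Pt L → Set ℕ) (i : Bool) (b : ℕ → L) :
    ℕ → L4_St L → 𝔸 → Cond L → L4_St L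
  | _, .one n p V, c, w =>
    if h : ∃ z : Cond L × (ℕ → Pt L → Cond L) × (ℕ → Pt L → Set ℕ),
      Next Λ Y i (b n) (b (n + 1)) V p c z.1 z.2.1 z.2.2 ∧ w.lt (b n) ≤ z.1 then .two n h.choose
    else .one n p V
  | m, .two n z, _, _ =>
    .one (n + 1)
      (L4_enum ((fun x => (z.2.1 (Nat.unpair m).1 x, z.2.2 (Nat.unpair m).1 x)) '' z.1.pts)
        (Nat.unpair m).2).1
      (L4_enum ((fun x => (z.2.1 (Nat.unpair m).1 x, z.2.2 (Nat.unpair m).1 x)) '' z.1.pts)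
        (Nat.unpair m).2).2

private def L4_d (Λ : Set L) (Y : Pt L → Set ℕ) (i : Bool) (b : ℕ → L) (a1 : 𝔸) :
    ℕ → L4_St L → DSet 𝔸 L
  | _, .one n p V => L4_D Λ Y i b a1 n p V
  | _, .two _ _ => univ

private theorem L4_seq {α : Type*} (I : ℕ → α → Prop) (R : ℕ → α → α → Prop) (z0 : α)
    (h0 : I 0 z0) (hs : ∀ n z, I n z → ∃ z', I (n + 1) z' ∧ R n z z') :
    ∃ Z : ℕ → α, Z 0 = z0 ∧ (∀ n, I n (Z n)) ∧ ∀ n, R n (Z n) (Z (n + 1)) := by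
  choose f hf using hs
  let Z : (n : ℕ) → {z // I n z} := fun n =>
    Nat.rec ⟨z0, h0⟩ (fun n z => ⟨f n z.1 z.2, (hf n z.1 z.2).1⟩) n
  exact ⟨fun n => (Z n).1, rfl, fun n => (Z n).2, fun n => (hf n (Z n).1 (Z n).2).2⟩

variable [OrderBot L]

private theorem L4_gen {𝔖 : Sys 𝔸 L} {Λ Λ' : Set L} {hΛ : IsLowerSet Λ} {hΛ' : IsLowerSet Λ'}
    (h : Λ = Λ') {q : Cond L} {x : Pt L} (hg : 𝔖.Gen Λ hΛ q x) : 𝔖.Gen Λ' hΛ' q x := by
  subst h
  exact hg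

private structure L4_Inv (𝔖 : Sys 𝔸 L) (NS : Set (L4_St L)) (Λ : Set L) (Y : Pt L → Set ℕ)
    (i : Bool) (b : ℕ → L) (A : Set ℕ) (p1 : Cond L) (n : ℕ)
    (z : Cond L × (Pt L → Cond L) × (Pt L → Set ℕ) × (Pt L → ℕ)) : Prop where
  qin : z.1.In (Iio (b n))
  gen : ∀ x ∈ z.1.pts, 𝔖.Gen (Iio (b n)) (isLowerSet_Iio (b n)) z.1 x
  lcP : LC z.1 z.2.1
  lcV : LC z.1 z.2.2.1
  lcK : LC z.1 z.2.2.2
  ns : ∀ x ∈ z.1.pts, L4_St.one n (z.2.1 x) (z.2.2.1 x) ∈ NS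
  le : ∀ x ∈ z.1.pts, z.2.1 x ≤ p1
  rich : ∀ x ∈ z.1.pts, Rich Λ Y i (b n) (z.2.2.1 x) (z.2.1 x)
  meets : ∀ x ∈ z.1.pts, Meets z.1 x ((z.2.1 x).lt (b n))
  top : ∀ x ∈ z.1.pts, ∀ j ∈ A, z.2.2.2 x ≤ j → j ∈ z.2.2.1 x

private structure L4_Rel (Y : Pt L → Set ℕ) (i : Bool) (b : ℕ → L) (n : ℕ)
    (z z' : Cond L × (Pt L → Cond L) × (Pt L → Set ℕ) × (Pt L → ℕ)) : Prop where
  lt : z'.1.lt (b n) = z.1
  val : ∀ x ∈ z'.1.pts, ∀ ξ, b n ≤ ξ →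
    QLe (z'.1.val ξ x) (((z'.2.1 x).lt (b (n + 1))).val ξ x)
  supp : ∀ x ∈ z.1.pts, ((z'.2.1 x).lt (b (n + 1))).supp \ Iio (b n) ⊆ z'.1.supp
  le : ∀ x ∈ z.1.pts, z'.2.1 x ≤ z.2.1 x
  K : ∀ x ∈ z.1.pts, z.2.2.2 x < z'.2.2.2 x
  dec : ∀ x ∈ z.1.pts, ∀ y ∈ (z'.2.1 x).pts, ∀ j ∈ z.2.2.1 x, j < z'.2.2.2 x →
    (j ∈ Y y ↔ i = true)

private theorem L4_step {γ : WithTop L} {b : ℕ → L} (hb : StrictMono b)
    (hbγ : ∀ n, (b n : WithTop L) < γ)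
    (hF : ∀ β : L, (β : WithTop L) < γ → FrontP 𝔸 β)
    (hD : ∀ n, DCP 𝔸 (Iio (b n))) (hS : ∀ n, SSP (L := L) (Iio (b n)))
    {Y : Pt L → Set ℕ} {i : Bool} {a1 : 𝔸} {p1 : Cond L} (hg : Good (Lam γ) Y i b a1 p1)
    (hp1 : p1.In (Lam γ)) {𝔖 : Sys 𝔸 L} {NS : Set (L4_St L)} (hNS : NS.Countable)
    (hB : range b ⊆ 𝔖.B)
    (hgN : ∀ n, ∀ s ∈ NS, ∀ a ∈ 𝔖.NA, ∀ v ∈ 𝔖.NP, L4_g (Lam γ) Y i b n s a v ∈ NS)
    (hdN : ∀ n, ∀ s ∈ NS, L4_d (Lam γ) Y i b a1 n s ∈ 𝔖.DD)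
    (hpN : ∀ s ∈ NS, L4_pc s ∈ 𝔖.NP) {ai : 𝔸} (hai : ∀ n, ai ≤ 𝔖.hs n) (hai1 : ai ≤ a1)
    (n : ℕ) (z : Cond L × (Pt L → Cond L) × (Pt L → Set ℕ) × (Pt L → ℕ))
    (hz : L4_Inv 𝔖 NS (Lam γ) Y i b (Tow.top ai) p1 n z) :
    ∃ z', L4_Inv 𝔖 NS (Lam γ) Y i b (Tow.top ai) p1 (n + 1) z' ∧ L4_Rel Y i b n z z' := by
  obtain ⟨q, P, V, K⟩ := z
  have hbΛ : ∀ n, Iio (b n) ⊆ Lam γ := fun n ξ hξ =>
    lt_trans (WithTop.coe_lt_coe.2 hξ) (hbγ n)
  have hqI : q.In (Iio (b n)) := hz.qin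
  -- the candidates
  let J := ↥NS × ℕ
  let O : J → Set (Pt L) := fun j => {x | j.1.1 = L4_St.one (n + 1) (L4_pc j.1.1) (L4_vs j.1.1) ∧
    K x < j.2 ∧ L4_pc j.1.1 ≤ P x ∧ Rich (Lam γ) Y i (b (n + 1)) (L4_vs j.1.1) (L4_pc j.1.1) ∧
    (∀ y ∈ (L4_pc j.1.1).pts, ∀ l ∈ V x, l < j.2 → (l ∈ Y y ↔ i = true)) ∧
    (∀ l ∈ Tow.top ai, j.2 ≤ l → l ∈ L4_vs j.1.1)} ∩ {x | Meets q x ((L4_pc j.1.1).lt (b n))}
  have hOo : ∀ j, Opn q (O j) := by
    intro j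
    refine Opn.inter ?_ (Meets.opn q _)
    exact LC.opn (LC.comp₂ hz.lcP (LC.comp₂ hz.lcV hz.lcK fun v k => (v, k)) fun p vk => (p, vk))
      {t : Cond L × Set ℕ × ℕ | j.1.1 = L4_St.one (n + 1) (L4_pc j.1.1) (L4_vs j.1.1) ∧
        t.2.2 < j.2 ∧ L4_pc j.1.1 ≤ t.1 ∧
        Rich (Lam γ) Y i (b (n + 1)) (L4_vs j.1.1) (L4_pc j.1.1) ∧
        (∀ y ∈ (L4_pc j.1.1).pts, ∀ l ∈ t.2.1, l < j.2 → (l ∈ Y y ↔ i = true)) ∧
        (∀ l ∈ Tow.top ai, j.2 ≤ l → l ∈ L4_vs j.1.1)}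
  have hOc : ∀ x ∈ q.pts, ∃ j, x ∈ O j := by
    intro x hx
    have hsN := hz.ns x hx
    have hdol := L4_DOL (Lam_lower γ) hbΛ (hD n) (hS n) hg hp1 (hz.le x hx) (hz.rich x hx)
    obtain ⟨m, w, hw, hmem, hmeet⟩ := hz.gen x hx _ (hdN 0 _ hsN) hdol
    have hmw : Meets q x (w.lt (b n)) := Meets_restr hmeet
    rcases hmem with h | h | h
    · exact absurd ⟨ai, hai m, hai1⟩ h
    · exact absurd (Meets.cpt hx hmw (hz.meets x hx)) h
    · obtain ⟨hN, hle⟩ := h.choose_spec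
      have ht : L4_St.two n h.choose ∈ NS := by
        have := hgN 0 _ hsN (𝔖.hs m) (𝔖.hsN m) w hw
        have e : L4_g (Lam γ) Y i b 0 (L4_St.one n (P x) (V x)) (𝔖.hs m) w =
            L4_St.two n h.choose := by
          unfold L4_g
          exact dif_pos h
        rw [e] at this
        exact this
      set t := h.choose with htdef
      have hmv : Meets q x t.1 := hmw.mono hle
      have hxv : x ∈ t.1.pts := hmv.mem hx
      obtain ⟨N0, hN0⟩ := (Tow.top_mono (𝔖.hs m) ai (hai m)).bddAbove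
      obtain ⟨K', hK', hinf⟩ := hN.inf x hxv (max (K x + 1) (N0 + 1))
      obtain ⟨k1, k2, k3, k4⟩ := hN.pk x hxv K'
      have hcount : ((fun x => (t.2.1 K' x, t.2.2 K' x)) '' t.1.pts).Countable :=
        LC.countable_range (LC.comp₂ (hN.lcP K') (hN.lcV K') fun p v => (p, v))
      obtain ⟨l, hl⟩ := L4_enum_spec hcount (mem_image_of_mem _ hxv)
      have ht' : L4_St.one (n + 1) (t.2.1 K' x) (t.2.2 K' x) ∈ NS := by
        have := hgN (Nat.pair K' l) _ ht (𝔖.hs 0) (𝔖.hsN 0) _ 𝔖.one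
        have e : L4_g (Lam γ) Y i b (Nat.pair K' l) (L4_St.two n t) (𝔖.hs 0) (Cond.one L) =
            L4_St.one (n + 1) (t.2.1 K' x) (t.2.2 K' x) := by
          unfold L4_g
          simp only [Nat.unpair_pair, hl]
        rw [e] at this
        exact this
      refine ⟨(⟨_, ht'⟩, K'), ⟨rfl, ?_, k1, k2, k4, ?_⟩, ?_⟩
      · have := (le_max_left (K x + 1) (N0 + 1)).trans hK'
        show K x < K'
        omega
      · intro j hj hjK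
        refine hinf j ?_ hjK
        by_contra hcon
        have h1 : j ≤ N0 := hN0 ⟨hj, hcon⟩
        have h2 := (le_max_right (K x + 1) (N0 + 1)).trans hK'
        omega
      · exact Meets.trans hx hmv k3
  have : Countable ↥NS := hNS.to_subtype
  have : Nonempty J := by
    obtain ⟨x, hx⟩ := pts_nonempty q
    exact ⟨(hOc x hx).choose⟩
  obtain ⟨f, hfLC, hf⟩ := selection q O hOo hOc
  set P' : Pt L → Cond L := fun x => L4_pc (f x).1.1 with hP'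
  set V' : Pt L → Set ℕ := fun x => L4_vs (f x).1.1 with hV'
  set K' : Pt L → ℕ := fun x => (f x).2 with hK'
  have hlcP : LC q P' := LC.comp hfLC fun j => L4_pc j.1.1
  have hlcV : LC q V' := LC.comp hfLC fun j => L4_vs j.1.1
  have hlcK : LC q K' := LC.comp hfLC fun j => j.2
  have hns : ∀ x ∈ q.pts, L4_St.one (n + 1) (P' x) (V' x) ∈ NS := by
    intro x hx
    have h1 := (hf x hx).1.1
    rw [← h1]
    exact (f x).1.2
  have hNP : ∀ x ∈ q.pts, P' x ∈ 𝔖.NP := fun x _ => hpN _ (f x).1.2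
  have hlt : b n ≤ b (n + 1) := (hb (Nat.lt_succ_self n)).le
  have hmq : ∀ x ∈ q.pts, Meets q x (((P' x).lt (b (n + 1))).lt (b n)) := by
    intro x hx
    rw [lt_lt hlt]
    exact (hf x hx).2
  have hext := ext 𝔖 (b (n + 1) : WithTop L) (Or.inr ⟨b (n + 1), hB ⟨_, rfl⟩, rfl⟩)
    (fun c _ hc => hF c (hc.trans (hbγ (n + 1)))) (hB ⟨n, rfl⟩) (WithTop.coe_le_coe.2 hlt)
  have hlcw : LC q fun x => (P' x).lt (b (n + 1)) := LC.comp hlcP fun p => p.lt (b (n + 1))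
  obtain ⟨r, hrI, hrl, hrg, hrv, hrs⟩ := hext q hqI hz.gen (fun x => (P' x).lt (b (n + 1))) hlcw
    (fun x hx => ⟨𝔖.lt _ (hNP x hx) _ (hB ⟨_, rfl⟩), by rw [Lam_coe]; exact lt_in _ _, hmq x hx⟩)
  have hrq : r ≤ q := by
    rw [← hrl]
    exact le_restr r
  have hpts : ∀ x ∈ r.pts, x ∈ q.pts := fun x hx => pts_mono hrq hx
  refine ⟨(r, P', V', K'), ?_, ?_⟩
  · refine ⟨?_, ?_, hlcP.mono hrq, hlcV.mono hrq, hlcK.mono hrq, ?_, ?_, ?_, ?_, ?_⟩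
    · rw [Lam_coe] at hrI
      exact hrI
    · exact fun x hx => L4_gen (Lam_coe _) (hrg x hx)
    · exact fun x hx => hns x (hpts x hx)
    · exact fun x hx => (hf x (hpts x hx)).1.2.2.1.trans (hz.le x (hpts x hx))
    · exact fun x hx => (hf x (hpts x hx)).1.2.2.2.1
    · exact fun x hx => meets_of_ext hrl hlcw hmq hrv hrs hx
    · exact fun x hx => (hf x (hpts x hx)).1.2.2.2.2.2
  · refine ⟨hrl, hrv, hrs, ?_, ?_, ?_⟩
    · exact fun x hx => (hf x hx).1.2.2.1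
    · exact fun x hx => (hf x hx).1.2.1
    · exact fun x hx => (hf x hx).1.2.2.2.2.1

/-- the limit step along a cofinal sequence `b` -/
theorem ssp_limit' {γ : WithTop L} {b : ℕ → L} (hb : StrictMono b)
    (hbγ : ∀ n, (b n : WithTop L) < γ) (hcof : ∀ ξ : L, (ξ : WithTop L) < γ → ∃ n, ξ < b n)
    (hF : ∀ β : L, (β : WithTop L) < γ → FrontP 𝔸 β)
    (hD : ∀ n, DCP 𝔸 (Iio (b n))) (hS : ∀ n, SSP (L := L) (Iio (b n))) :
    SSP (Lam γ) := by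
  intro u hu Y hY W hW
  have hbΛ : ∀ n, Iio (b n) ⊆ Lam γ := fun n ξ hξ =>
    lt_trans (WithTop.coe_lt_coe.2 hξ) (hbγ n)
  obtain ⟨a0, ha0⟩ := Tow.start (𝔸 := 𝔸) W hW
  obtain ⟨i, a1, ha1, p1, hp1, hp1I, hg⟩ := good_exists (Lam_lower γ) hb.monotone hbΛ hD hS a0 hu hY
  obtain ⟨a2, ha2, p2, hp2, V0, hV0, hR0⟩ := hg 0 a1 le_rfl p1 le_rfl hp1I
  obtain ⟨𝔖, NS, hNSc, hs0, hp2N, hB, hhs, hgN, hdN, hpN⟩ :=
    exists_sys (L4_g (𝔸 := 𝔸) (Lam γ) Y i b) (L4_d (Lam γ) Y i b a1) L4_pc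
      (L4_St.one 0 p2 V0) a2 p2 (range b) (countable_range b)
  obtain ⟨ai, hai⟩ := Tow.closed 𝔖.hs 𝔖.anti
  have hai2 : ai ≤ a2 := (hai 0).trans hhs
  have hai1 : ai ≤ a1 := hai2.trans ha2
  -- the first bound
  have hfin0 : (Tow.top ai \ V0).Finite := by
    refine ((Tow.top_mono a2 ai hai2).union hV0).subset ?_
    rintro j ⟨h1, h2⟩
    by_cases h3 : j ∈ Tow.top a2
    · exact Or.inr ⟨h3, h2⟩
    · exact Or.inl ⟨h1, h3⟩
  obtain ⟨N0, hN0⟩ := hfin0.bddAbove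
  set K0 := N0 + 1 with hK0
  have hK0V : ∀ j ∈ Tow.top ai, K0 ≤ j → j ∈ V0 := by
    intro j hj hjK
    by_contra hcon
    have : j ≤ N0 := hN0 ⟨hj, hcon⟩
    omega
  -- the first condition
  have hext := ext 𝔖 (b 0 : WithTop L) (Or.inr ⟨b 0, hB ⟨_, rfl⟩, rfl⟩)
    (fun c _ hc => hF c (hc.trans (hbγ 0))) 𝔖.bot (WithTop.coe_le_coe.2 bot_le)
  have hm0 : ∀ x ∈ (Cond.one L).pts, Meets (Cond.one L) x ((p2.lt (b 0)).lt ⊥) := by
    intro x _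
    refine Meets.of_le ⟨?_, ?_⟩
    · rintro ξ ⟨-, hξ⟩
      exact absurd hξ (not_lt_bot)
    · intro y _ ξ
      have : ((p2.lt (b 0)).lt ⊥).val ξ y = QC.one := restr_val_off _ (show ξ ∉ Iio (⊥ : L) from not_lt_bot) y
      rw [this]
      exact QLe.refl _
  obtain ⟨q0, hq0I, hq0l, hq0g, hq0v, hq0s⟩ := hext (Cond.one L) (by intro ξ hξ; exact absurd hξ (by simp [supp_one]))
    (fun x hx => gen_one 𝔖 x hx) (fun _ => p2.lt (b 0)) (LC.const _ _)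
    (fun x hx => ⟨𝔖.lt _ hp2N _ (hB ⟨_, rfl⟩), by rw [Lam_coe]; exact lt_in _ _, hm0 x hx⟩)
  rw [Lam_coe] at hq0I
  have hq0le : q0 ≤ p2.lt (b 0) := by
    obtain ⟨x0, hx0⟩ := pts_nonempty (Cond.one L)
    refine ⟨?_, fun x hx ξ => hq0v x hx ξ bot_le⟩
    intro ξ hξ
    exact hq0s x0 hx0 ⟨hξ, not_lt_bot⟩
  have hinv0 : L4_Inv 𝔖 NS (Lam γ) Y i b (Tow.top ai) p1 0
      (q0, (fun _ => p2), (fun _ => V0), fun _ => K0) := by
    refine ⟨hq0I, ?_, LC.const _ _, LC.const _ _, LC.const _ _, fun _ _ => hs0, fun _ _ => hp2,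
      fun _ _ => hR0, fun _ _ => Meets.of_le hq0le, fun _ _ => hK0V⟩
    exact fun x hx => L4_gen (Lam_coe _) (hq0g x hx)
  obtain ⟨Z, hZ0, hZI, hZR⟩ := L4_seq _ (L4_Rel Y i b) _ hinv0
    (L4_step hb hbγ hF hD hS hg hp1I hNSc hB hgN hdN hpN hai hai1)
  -- the limit
  obtain ⟨r, hrs, hrl⟩ := exists_limit hb.monotone (fun n => (Z n).1) (fun n => (hZI n).qin)
    (fun n => (hZR n).lt)
  have hrI : r.In (Lam γ) := by
    intro ξ hξ
    rw [hrs] at hξ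
    obtain ⟨n, hn⟩ := mem_iUnion.1 hξ
    exact hbΛ n ((hZI n).qin hn)
  have hpt : ∀ x ∈ r.pts, ∀ n, x ∈ (Z n).1.pts := by
    intro x hx n
    rw [← hrl n]
    exact mem_lt hx _
  have hmono : ∀ x ∈ r.pts, ∀ n k, (Z (n + k)).2.1 x ≤ (Z n).2.1 x := by
    intro x hx n k
    induction k with
    | zero => exact le_rfl
    | succ k ih => exact ((hZR (n + k)).le x (hpt x hx _)).trans ih
  -- find the interval of a coordinate
  have hfind : ∀ n, ∀ ξ : L, (ξ : WithTop L) < γ → b n ≤ ξ → ∃ k, b (n + k) ≤ ξ ∧ ξ < b (n + k + 1) := by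
    intro n ξ hξ hn
    obtain ⟨m, hm⟩ := hcof ξ hξ
    have hex : ∃ k, ξ < b (n + k) := ⟨m, hm.trans_le (hb.monotone (Nat.le_add_left m n))⟩
    have h1 := Nat.find_spec hex
    have h2 : Nat.find hex ≠ 0 := by
      intro h0
      rw [h0, Nat.add_zero] at h1
      exact absurd h1 (not_lt.2 hn)
    obtain ⟨k, hk⟩ := Nat.exists_eq_succ_of_ne_zero h2
    refine ⟨k, not_lt.1 (Nat.find_min hex (by omega)), ?_⟩
    rw [hk] at h1
    exact h1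
  have hval : ∀ n, ∀ x ∈ r.pts, ∀ ξ, b n ≤ ξ → QLe (r.val ξ x) (((Z n).2.1 x).val ξ x) := by
    intro n x hx ξ hξ
    by_cases hξγ : (ξ : WithTop L) < γ
    · obtain ⟨k, hk1, hk2⟩ := hfind n ξ hξγ hξ
      have h1 := (hZR (n + k)).val x (hpt x hx _) ξ hk1
      have e1 : (Z (n + k + 1)).1.val ξ x = r.val ξ x := by
        rw [← hrl (n + k + 1)]
        exact restr_val _ (show ξ ∈ Iio (b (n + k + 1)) from hk2) x
      have e2 : ((((Z (n + k + 1)).2.1 x).lt (b (n + k + 1))).val ξ x) =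
          ((Z (n + k + 1)).2.1 x).val ξ x :=
        restr_val _ (show ξ ∈ Iio (b (n + k + 1)) from hk2) x
      rw [e1, e2] at h1
      refine h1.trans (QLe_lt (hmono x hx n (k + 1)) ?_)
      have h2 := ((hZI (n + k + 1)).meets x (hpt x hx _)).mem (hpt x hx _)
      have h3 := mem_lt h2 ξ
      rw [lt_lt hk2.le] at h3
      exact h3
    · have hoff : ξ ∉ ((Z n).2.1 x).supp := fun h => hξγ (((hZI n).rich x (hpt x hx n)).1 h)
      rw [((Z n).2.1 x).off ξ hoff x]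
      exact (le_one r).2 x hx ξ
  have hsupp : ∀ n, ∀ x ∈ (Z n).1.pts, ((Z n).2.1 x).supp \ Iio (b n) ⊆ r.supp := by
    rintro n x hx ξ ⟨hξ, hξn⟩
    have hξγ : (ξ : WithTop L) < γ := ((hZI n).rich x hx).1 hξ
    obtain ⟨k, hk1, hk2⟩ := hfind n ξ hξγ (not_lt.1 hξn)
    have hx' : x ∈ (r.lt (b n)).pts := by
      rw [hrl n]
      exact hx
    obtain ⟨y, hy, hyx⟩ := exists_point hx'
    have e : (Z n).2.1 y = (Z n).2.1 x := LC.dep (hZI n).lcP hx (hpt y hy n)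
      fun η hη => hyx η ((hZI n).qin hη)
    have h1 : ξ ∈ ((Z (n + k + 1)).2.1 y).supp := by
      apply (hmono y hy n (k + 1)).1
      rw [e]
      exact hξ
    have h2 := (hZR (n + k)).supp y (hpt y hy _) ⟨⟨h1, hk2⟩, not_lt.2 hk1⟩
    rw [hrs]
    exact mem_iUnion.2 ⟨n + k + 1, h2⟩
  have hmeets : ∀ n, ∀ x ∈ r.pts, Meets r x ((Z n).2.1 x) := fun n x hx =>
    meets_of_ext (hrl n) (hZI n).lcP (hZI n).meets (hval n) (hsupp n) hx
  have hrp2 : r ≤ p2 := by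
    have hq : r.lt (b 0) ≤ p2.lt (b 0) := by
      rw [hrl 0, hZ0]
      exact hq0le
    have hP0 : ∀ x, (Z 0).2.1 x = p2 := fun x => by rw [hZ0]
    refine ⟨?_, ?_⟩
    · intro ξ hξ
      by_cases h : ξ < b 0
      · exact (hq.1 ⟨hξ, h⟩).1
      · obtain ⟨x, hx⟩ := pts_nonempty (Z 0).1
        apply hsupp 0 x hx
        rw [hP0]
        exact ⟨hξ, h⟩
    · intro x hx ξ
      by_cases h : ξ < b 0
      · have h1 := hq.2 x (mem_lt hx _) ξ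
        have e1 : (r.lt (b 0)).val ξ x = r.val ξ x := restr_val _ (show ξ ∈ Iio (b 0) from h) x
        have e2 : (p2.lt (b 0)).val ξ x = p2.val ξ x := restr_val _ (show ξ ∈ Iio (b 0) from h) x
        rw [e1, e2] at h1
        exact h1
      · have h1 := hval 0 x hx ξ (not_lt.1 h)
        rw [hP0] at h1
        exact h1
  refine ⟨r, hrp2.trans (hp2.trans hp1), hrI, {j | j ∈ Tow.top ai ∧ j ∈ W ∧ K0 ≤ j},
    fun j hj => hj.2.1, ?_, i, ?_⟩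
  · have hfinW : (Tow.top ai \ W).Finite := by
      refine ((Tow.top_mono a0 ai (hai1.trans ha1)).union ha0).subset ?_
      rintro j ⟨h1, h2⟩
      by_cases h3 : j ∈ Tow.top a0
      · exact Or.inr ⟨h3, h2⟩
      · exact Or.inl ⟨h1, h3⟩
    have hinf := (Tow.top_inf ai).sdiff (hfinW.union (finite_lt_nat K0))
    refine hinf.mono ?_
    rintro j ⟨hj, hj2⟩
    refine ⟨hj, ?_, ?_⟩
    · by_contra hcon
      exact hj2 (Or.inl ⟨hj, hcon⟩)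
    · by_contra hcon
      exact hj2 (Or.inr (not_le.1 hcon))
  · rintro x hx j ⟨hjA, -, hjK⟩
    -- the step with K n ≤ j < K (n + 1)
    have hKn : ∀ n, n ≤ (Z n).2.2.2 x := by
      intro n
      induction n with
      | zero => exact Nat.zero_le _
      | succ n ih => exact lt_of_le_of_lt ih ((hZR n).K x (hpt x hx n))
    have hex : ∃ n, j < (Z n).2.2.2 x := ⟨j + 1, hKn (j + 1)⟩
    have h1 := Nat.find_spec hex
    have h2 : Nat.find hex ≠ 0 := by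
      intro h0
      rw [h0, hZ0] at h1
      exact absurd h1 (not_lt.2 hjK)
    obtain ⟨n, hn⟩ := Nat.exists_eq_succ_of_ne_zero h2
    have h3 : (Z n).2.2.2 x ≤ j := not_lt.1 (Nat.find_min hex (by omega))
    rw [hn] at h1
    have h4 : j ∈ (Z n).2.2.1 x := (hZI n).top x (hpt x hx n) j hjA h3
    exact (hZR n).dec x (hpt x hx n) x ((hmeets (n + 1) x hx).mem hx) j h4 h1

end E8
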