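import Pool.Agent.Lib.MP_e8be47_lc.VRich

/-!
# the next rich conditions
-/

open Set Classical

set_option linter.unusedSectionVars false

namespace E8

variable {𝔸 : Type} [Tow 𝔸] {L : Type} [LinearOrder L] [WellFoundedLT L]

open Cond

/-- the data of the next step: over `v` (on `(-∞, β)`) rich conditions `PK K x` (for the next
level `β'`) with sets `VK K x`, one for every `K`, below the extensions of `p` which decide `Y` on
`V ∩ K`; and `top a \ K ⊆ VK K x` for infinitely many `K` -/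
structure Next (Λ : Set L) (Y : Pt L → Set ℕ) (i : Bool) (β β' : L) (V : Set ℕ) (p : Cond L)
    (a : 𝔸) (v : Cond L) (PK : ℕ → Pt L → Cond L) (VK : ℕ → Pt L → Set ℕ) : Prop where
  le : v ≤ p.lt β
  vin : v.In (Iio β)
  lcP : ∀ K, LC v (PK K)
  lcV : ∀ K, LC v (VK K)
  pk : ∀ x ∈ v.pts, ∀ K, PK K x ≤ p ∧ Rich Λ Y i β' (VK K x) (PK K x) ∧
    Meets v x ((PK K x).lt β) ∧ ∀ y ∈ (PK K x).pts, ∀ j ∈ V, j < K → (j ∈ Y y ↔ i = true)
  inf : ∀ x ∈ v.pts, ∀ N, ∃ K ≥ N, ∀ j ∈ Tow.top a, K ≤ j → j ∈ VK K x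

/-- the least bound beyond which `A` is contained in `V` -/
private noncomputable def l3_F (A V : Set ℕ) : ℕ :=
  if h : ∃ N, ∀ j ∈ A, N ≤ j → j ∈ V then Nat.find h else 0

private theorem l3_F_spec {A V : Set ℕ} (h : (A \ V).Finite) : ∀ j ∈ A, l3_F A V ≤ j → j ∈ V := by
  have hex : ∃ N, ∀ j ∈ A, N ≤ j → j ∈ V := by
    obtain ⟨M, hM⟩ := h.bddAbove
    refine ⟨M + 1, fun j hj hN => ?_⟩
    by_contra hV
    have := hM ⟨hj, hV⟩
    omega
  unfold l3_F
  rw [dif_pos hex]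
  exact Nat.find_spec hex

/-- the sequence `k_l` -/
private noncomputable def l3_k (A : Set ℕ) (VK : ℕ → Pt L → Set ℕ) : ℕ → Pt L → ℕ
  | 0, _ => 0
  | l + 1, x => max (l3_k A VK l x + 1) (l3_F A (VK (l3_k A VK l x) x))

private theorem l3_k_lc {v : Cond L} (A : Set ℕ) {VK : ℕ → Pt L → Set ℕ} (h : ∀ K, LC v (VK K)) (l : ℕ) :
    LC v (l3_k A VK l) := by
  induction l with
  | zero => exact LC.const v 0
  | succ l ih =>
    exact LC.bind ih (fun k x => max (k + 1) (l3_F A (VK k x))) (fun k =>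
      LC.comp (h k) (fun V => max (k + 1) (l3_F A V)))

private theorem l3_k_lt (A : Set ℕ) (VK : ℕ → Pt L → Set ℕ) (x : Pt L) (l : ℕ) :
    l3_k A VK l x < l3_k A VK (l + 1) x := by
  show _ < max (l3_k A VK l x + 1) _
  exact lt_of_lt_of_le (Nat.lt_succ_self _) (le_max_left _ _)

private theorem l3_k_mono (A : Set ℕ) (VK : ℕ → Pt L → Set ℕ) (x : Pt L) :
    StrictMono (fun l => l3_k A VK l x) :=
  strictMono_nat_of_lt_succ (l3_k_lt A VK x)

private theorem l3_k_le (A : Set ℕ) (VK : ℕ → Pt L → Set ℕ) (x : Pt L) (l : ℕ) :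
    l ≤ l3_k A VK l x := (l3_k_mono A VK x).id_le l

/-- the union of the intervals `[k_l, k_{l+1})` with `l` even -/
private def l3_X (k : ℕ → Pt L → ℕ) (x : Pt L) : Set ℕ :=
  {j | ∃ l, Even l ∧ k l x ≤ j ∧ j < k (l + 1) x}

private theorem l3_bdd {v : Cond L} {k : ℕ → Pt L → ℕ} (hk : ∀ l, LC v (k l)) (j n : ℕ) :
    LC v (fun x => ∃ l < n, Even l ∧ k l x ≤ j ∧ j < k (l + 1) x) := by
  induction n with
  | zero =>
    have : (fun x : Pt L => ∃ l < 0, Even l ∧ k l x ≤ j ∧ j < k (l + 1) x) = fun _ => False := by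
      funext x
      simp
    rw [this]
    exact LC.const v False
  | succ n ih =>
    have h1 : LC v (fun x => Even n ∧ k n x ≤ j ∧ j < k (n + 1) x) :=
      LC.comp₂ (hk n) (hk (n + 1)) (fun a b => Even n ∧ a ≤ j ∧ j < b)
    have h2 := LC.comp₂ ih h1 (fun a b => a ∨ b)
    have : (fun x : Pt L => ∃ l < n + 1, Even l ∧ k l x ≤ j ∧ j < k (l + 1) x) =
        fun x => (∃ l < n, Even l ∧ k l x ≤ j ∧ j < k (l + 1) x) ∨ (Even n ∧ k n x ≤ j ∧ j < k (n + 1) x) := by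
      funext x
      apply propext
      constructor
      · rintro ⟨l, hl, h⟩
        rcases Nat.lt_succ_iff_lt_or_eq.mp hl with h' | h'
        · exact Or.inl ⟨l, h', h⟩
        · subst h'
          exact Or.inr h
      · rintro (⟨l, hl, h⟩ | h)
        · exact ⟨l, Nat.lt_succ_of_lt hl, h⟩
        · exact ⟨n, Nat.lt_succ_self n, h⟩
    rw [this]
    exact h2

private theorem l3_X_cr {v : Cond L} {k : ℕ → Pt L → ℕ} (hk : ∀ l, LC v (k l))
    (hle : ∀ l x, l ≤ k l x) : CR v (l3_X k) := by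
  intro j
  have : (fun x : Pt L => (j ∈ l3_X k x)) = fun x => ∃ l < j + 1, Even l ∧ k l x ≤ j ∧ j < k (l + 1) x := by
    funext x
    apply propext
    constructor
    · rintro ⟨l, h1, h2, h3⟩
      exact ⟨l, Nat.lt_succ_of_le ((hle l x).trans h2), h1, h2, h3⟩
    · rintro ⟨l, -, h⟩
      exact ⟨l, h⟩
  show LC v (fun x => (j ∈ l3_X k x))
  rw [this]
  exact l3_bdd hk j (j + 1)

theorem rich_next {Λ : Set L} (hΛ : IsLowerSet Λ) {Y : Pt L → Set ℕ} {i : Bool} {b : ℕ → L}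
    (hbΛ : ∀ n, Iio (b n) ⊆ Λ) {n : ℕ}
    (hD : DCP 𝔸 (Iio (b n))) (hS : SSP (Iio (b n))) {a0 : 𝔸} {p0 : Cond L}
    (hg : Good Λ Y i b a0 p0) (hp0 : p0.In Λ) {a : 𝔸} (ha : a ≤ a0) {p : Cond L} (hp : p ≤ p0)
    {V : Set ℕ} (hr : Rich Λ Y i (b n) V p) {u : Cond L} (hu : u ≤ p.lt (b n))
    (huI : u.In (Iio (b n))) :
    ∃ a' ≤ a, ∃ v ≤ u, ∃ PK VK, Next Λ Y i (b n) (b (n + 1)) V p a' v PK VK := by
  classical
  set β := b n with hβ
  set β' := b (n + 1) with hβ'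
  obtain ⟨hpIn, hr2⟩ := hr
  choose r hrle hrIn hrlt hrY using hr2
  -- dependent choice
  let St : Type := {s : 𝔸 × Cond L × Cond L × Set ℕ // s.1 ≤ a ∧ s.2.1 ≤ u ∧ s.2.1.In (Iio β)}
  let R : ℕ → St → St → Prop := fun K _ s' => s'.1.2.2.1 ≤ r K ∧ Rich Λ Y i β' s'.1.2.2.2 s'.1.2.2.1 ∧
    (Tow.top s'.1.1 \ s'.1.2.2.2).Finite ∧ s'.1.2.1 ≤ s'.1.2.2.1.lt β
  have hsucc : ∀ (K : ℕ) (s : St), ∀ c1 ≤ s.1.1, ∀ u1 ≤ s.1.2.1, u1.In (Iio β) →
      ∃ s' : St, R K s s' ∧ s'.1.1 ≤ c1 ∧ s'.1.2.1 ≤ u1 := by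
    intro K s c1 hc1 u1 hu1 hu1I
    have h1 : u1 ≤ (r K).restr (Iio β) (isLowerSet_Iio β) := by
      have h2 : u1 ≤ p.lt β := (hu1.trans s.2.2.1).trans hu
      rw [← hrlt K] at h2
      exact h2
    obtain ⟨r', hr'le, hr'eq, hr'supp, -⟩ := exists_amalg (isLowerSet_Iio β) hu1I h1
    have hr'In : r'.In Λ := by
      show r'.supp ⊆ Λ
      rw [hr'supp]
      exact union_subset (subset_trans hu1I (hbΛ n)) (hrIn K)
    have hr'p : r' ≤ p0 := (hr'le.trans (hrle K)).trans hp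
    have hc1a : c1 ≤ a := hc1.trans s.2.1
    obtain ⟨c2, hc2, P', hP', V', hV', hRich⟩ := hg (n + 1) c1 (hc1a.trans ha) r' hr'p hr'In
    have hlt : P'.lt β ≤ u1 := by
      have h3 : P'.restr (Iio β) (isLowerSet_Iio β) ≤ r'.restr (Iio β) (isLowerSet_Iio β) := restr_mono hP'
      rw [hr'eq] at h3
      exact h3
    refine ⟨⟨(c2, P'.lt β, P', V'), hc2.trans hc1a, (hlt.trans hu1).trans s.2.2.1, lt_in P' β⟩, ?_, hc2, hlt⟩
    exact ⟨hP'.trans hr'le, hRich, hV', le_refl _⟩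
  obtain ⟨a1, ha1, v1, hv1, hv1I, σ, hσ0, hσL, hσ⟩ := hD St (fun s => s.1.1) (fun s => s.1.2.1) R
    (fun s => s.2.2.2) hsucc ⟨(a, u, u, univ), le_refl _, le_refl _, huI⟩ a (le_refl _) u (le_refl _) huI
  set PK : ℕ → Pt L → Cond L := fun K x => (σ (K + 1) x).1.2.2.1 with hPK
  set VK : ℕ → Pt L → Set ℕ := fun K x => (σ (K + 1) x).1.2.2.2 with hVK
  have hPKL : ∀ K, LC v1 (PK K) := fun K => LC.comp (hσL (K + 1)) (fun s => s.1.2.2.1)
  have hVKL : ∀ K, LC v1 (VK K) := fun K => LC.comp (hσL (K + 1)) (fun s => s.1.2.2.2)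
  have hfact : ∀ x ∈ v1.pts, ∀ K, PK K x ≤ r K ∧ Rich Λ Y i β' (VK K x) (PK K x) ∧
      (Tow.top a1 \ VK K x).Finite ∧ Meets v1 x ((PK K x).lt β) := by
    intro x hx K
    obtain ⟨⟨h1, h2, h3, h4⟩, -, -⟩ := hσ x hx K
    obtain ⟨-, h5, h6⟩ := hσ x hx (K + 1)
    refine ⟨h1, h2, ?_, h6.mono h4⟩
    refine ((Tow.top_mono _ _ h5).union h3).subset ?_
    rintro j ⟨hj1, hj2⟩
    by_cases hj3 : j ∈ Tow.top (σ (K + 1) x).1.1
    · exact Or.inr ⟨hj3, hj2⟩
    · exact Or.inl ⟨hj1, hj3⟩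
  set k : ℕ → Pt L → ℕ := l3_k (Tow.top a1) VK with hk
  have hkL : ∀ l, LC v1 (k l) := l3_k_lc (Tow.top a1) hVKL
  have hkle : ∀ l x, l ≤ k l x := fun l x => l3_k_le (Tow.top a1) VK x l
  obtain ⟨v, hv, hvI, A, hA, hAinf, ε, hε⟩ := hS v1 hv1I (l3_X k) (l3_X_cr hkL hkle) (Tow.top a1) (Tow.top_inf a1)
  obtain ⟨a', ha', hfin⟩ := Tow.shrink a1 A hA hAinf
  obtain ⟨N0, hN0⟩ : ∃ N0, ∀ j ∈ Tow.top a', N0 ≤ j → j ∈ A := by
    obtain ⟨M, hM⟩ := hfin.bddAbove
    refine ⟨M + 1, fun j hj hN => ?_⟩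
    by_contra hV
    have := hM ⟨hj, hV⟩
    omega
  refine ⟨a', ha'.trans ha1, v, hv.trans hv1, PK, VK, ?_⟩
  refine ⟨(hv.trans hv1).trans hu, hvI, fun K => (hPKL K).mono hv, fun K => (hVKL K).mono hv, ?_, ?_⟩
  · intro x hx K
    obtain ⟨h1, h2, -, h4⟩ := hfact x (pts_mono hv hx) K
    exact ⟨h1.trans (hrle K), h2, Meets.trans hx (Meets.of_le hv) h4, fun y hy j hj hjK =>
      hrY K y (pts_mono h1 hy) j hj hjK⟩
  · intro x hx N
    have hx1 := pts_mono hv hx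
    have hmono : StrictMono (fun l => k l x) := l3_k_mono (Tow.top a1) VK x
    -- choice of the parity
    obtain ⟨l, hl, hpar⟩ : ∃ l, max N N0 ≤ l ∧ (Even l ↔ ε = false) := by
      rcases Bool.eq_false_or_eq_true ε with h | h
      · refine ⟨2 * max N N0 + 1, by omega, ?_⟩
        rw [h]
        constructor
        · intro h'
          exact absurd h' (by simp [Nat.even_add_one, Nat.even_mul])
        · intro h'
          exact absurd h' (by decide)
      · refine ⟨2 * max N N0, by omega, ?_⟩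
        rw [h]
        exact ⟨fun _ => rfl, fun _ => even_two_mul _⟩
    have hlk : l ≤ k l x := hkle l x
    refine ⟨k l x, (le_trans (le_max_left N N0) hl).trans hlk, ?_⟩
    intro j hj hKj
    have hjA : j ∈ A := hN0 j hj (((le_trans (le_max_right N N0) hl).trans hlk).trans hKj)
    have hX := hε x hx j hjA
    have hnext : k (l + 1) x ≤ j := by
      by_contra hlt
      push Not at hlt
      by_cases hev : Even l
      · have h1 : ε = false := hpar.mp hev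
        have h2 : ε = true := hX.mp ⟨l, hev, hKj, hlt⟩
        rw [h1] at h2
        exact absurd h2 (by decide)
      · have h1 : ε = true := by
          cases hc : ε
          · exact absurd (hpar.mpr hc) hev
          · rfl
        obtain ⟨l', hl', h2, h3⟩ := hX.mpr h1
        have h4 : l' = l := by
          rcases lt_trichotomy l' l with h | h | h
          · have h5 : k (l' + 1) x ≤ k l x := hmono.monotone (Nat.succ_le_of_lt h)
            omega
          · exact h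
          · have h5 : k (l + 1) x ≤ k l' x := hmono.monotone (Nat.succ_le_of_lt h)
            omega
        rw [h4] at hl'
        exact hev hl'
    have hF : l3_F (Tow.top a1) (VK (k l x) x) ≤ j := by
      refine le_trans ?_ hnext
      exact le_max_right _ _
    exact l3_F_spec (hfact x hx1 (k l x)).2.2.1 j (hA hjA) hF

end E8
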