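import Pool.Agent.Lib.MP_e8be47_lc.VFus

/-!
# pieces
-/

open Set Classical

set_option linter.unusedSectionVars false

namespace E8

variable {𝔸 : Type} [Tow 𝔸] {L : Type} [LinearOrder L] [WellFoundedLT L]

open Cond

/-- some restriction of `w` whose `β`-part is the piece above `s` (cut at `M`) and whose part below
`β` contains `x`, has the property `P` -/
def PieceAt (β : L) (w : Cond L) (x : Pt L) (s : Fs) (M : ℕ) (P : Cond L → Prop) : Prop :=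
  ∃ F σ μ, ∃ h : Legal w F σ μ, β ∈ F ∧ σ β = s ∧ μ β = M ∧
    (∀ ξ ∈ F, ξ < β → cut (x ξ) (μ ξ) = σ ξ) ∧ P (w.node F σ μ h)

theorem PieceAt.opn {β : L} {w : Cond L} (hw : At β w) (s : Fs) (M : ℕ) (P : Cond L → Prop) :
    Opn (w.lt β) {x | PieceAt β w x s M P} := by
  rintro x hx ⟨F, σ, μ, h, hβ, hs, hM, hcut, hP⟩
  have hleg : (w.lt β).Leg x (F.filter (· < β)) μ := by
    refine ⟨?_, ?_, ?_⟩
    · intro ξ hξ
      rw [Finset.mem_coe, Finset.mem_filter] at hξ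
      exact ⟨h.sub hξ.1, hξ.2⟩
    · intro ξ _ k hk
      exact (mem_cut.1 hk).1
    · intro ξ hξ x' hx'
      rw [Finset.mem_filter] at hξ
      rw [show (w.lt β).val ξ x' = w.val ξ x' from restr_val w (mem_Iio.2 hξ.2) x']
      show cut (x ξ) (μ ξ) ∈ (w.val ξ x').T
      rw [hcut ξ hξ.1 hξ.2]
      refine h.mem ξ hξ.1 x' fun η hη => ?_
      have hηβ : η < β := hη.trans hξ.2
      obtain ⟨h1, h2⟩ := hx' η hη
      rw [show (w.lt β).val η x' = w.val η x' from restr_val w (mem_Iio.2 hηβ) x'] at h1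
      refine ⟨h1, fun hηF => ?_⟩
      rw [h2 (Finset.mem_filter.2 ⟨hηF, hηβ⟩)]
      exact hcut η hηF hηβ
  refine ⟨F.filter (· < β), μ, hleg, ?_⟩
  intro y hy
  obtain ⟨-, hy2⟩ := (mem_at hleg).1 hy
  refine ⟨F, σ, μ, h, hβ, hs, hM, fun ξ hξ hξβ => ?_, hP⟩
  rw [hy2 ξ (Finset.mem_filter.2 ⟨hξ, hξβ⟩)]
  exact hcut ξ hξ hξβ

/-- `PieceAt` in terms of points -/
theorem pieceAt_iff {β : L} {w : Cond L} (hw : At β w) {x : Pt L} (hx : x ∈ w.pts) {s : Fs} {M : ℕ}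
    (hs : cut (x β) M = s) {P : Cond L → Prop} :
    PieceAt β w x s M P ↔ ∃ F μ, ∃ h : w.Leg x F μ, β ∈ F ∧ μ β = M ∧ P (w.at' x F μ h) := by
  constructor
  · rintro ⟨F, σ, μ, h, hβ, hσ, hM, hcut, hP⟩
    have hall : ∀ ξ ∈ F, σ ξ = cut (x ξ) (μ ξ) := by
      intro ξ hξ
      rcases lt_or_eq_of_le (show ξ ≤ β from hw.le (h.sub hξ)) with h1 | h1
      · exact (hcut ξ hξ h1).symm
      · rw [h1, hσ, hM, hs]
    obtain ⟨h', he⟩ := node_congr h (s' := fun ξ => cut (x ξ) (μ ξ)) (m' := μ) hall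
      (fun _ _ => rfl)
    refine ⟨F, μ, h', hβ, hM, ?_⟩
    show P (w.node F (fun ξ => cut (x ξ) (μ ξ)) μ h')
    rw [he]
    exact hP
  · rintro ⟨F, μ, h, hβ, hM, hP⟩
    exact ⟨F, fun ξ => cut (x ξ) (μ ξ), μ, h, hβ, by show cut (x β) (μ β) = s; rw [hM, hs], hM,
      fun _ _ _ => rfl, hP⟩

/-- a common refinement of two pieces -/
theorem PieceAt.inter {β : L} {w : Cond L} (hw : At β w) {x : Pt L} (hx : x ∈ (w.lt β).pts) {s : Fs}
    {M M' : ℕ} (hM : M ≤ M') {P P' : Cond L → Prop} (h : PieceAt β w x s M P)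
    (h' : PieceAt β w x s M' P') (hP : ∀ v v', v' ≤ v → P v → P v')
    (hP' : ∀ v v', v' ≤ v → Root β v s → Root β v' s → P' v → P' v') :
    PieceAt β w x s M' fun v => P v ∧ P' v := by
  obtain ⟨F1, σ1, μ1, hl1, hβ1, hs1, hM1, hc1, hP1⟩ := h
  obtain ⟨F2, σ2, μ2, hl2, hβ2, hs2, hM2, hc2, hP2⟩ := h'
  have hsT : s ∈ (w.val β x).T := by
    rw [← hs2]
    refine hl2.mem β hβ2 x fun η hη => ⟨?_, fun hηF => hc2 η hηF hη⟩
    exact (pts_restr.1 hx).1 η hη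
  have hsM' : ∀ k ∈ s, k < M' := by
    rw [← hs2, ← hM2]
    exact hl2.lt β hβ2
  have hsM : ∀ k ∈ s, k < M := by
    rw [← hs1, ← hM1]
    exact hl1.lt β hβ1
  obtain ⟨z, hz, hzs⟩ := exists_branch (isQ_lt hx) hsT M' hsM'
  obtain ⟨y, hy, hyx, hyz⟩ := exists_point' hx hz
  have hyM' : cut (y β) M' = s := by rw [hyz, hzs]
  have hyM : cut (y β) M = s := by
    rw [hyz, ← cutF_cut hM, hzs]
    ext k
    rw [mem_cutF]
    exact ⟨fun h => h.1, fun h => ⟨h, hsM k h⟩⟩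
  have hleIic : ∀ ξ ∈ w.supp, ξ ≤ β := fun ξ hξ => hw.le hξ
  obtain ⟨F', m, hFF', hn, hβF', hmβ, hleg, hle⟩ := base' w hy β hw.mem M'
    (by rw [hyM', val_congr hyx]; exact hsT) ((F1 ∪ F2).erase β)
    (by
      intro ξ hξ
      rw [Finset.mem_coe, Finset.mem_erase, Finset.mem_union] at hξ
      have h1 : ξ ∈ w.supp := by
        rcases hξ.2 with h | h
        · exact hl1.sub h
        · exact hl2.sub h
      exact ⟨h1, lt_of_le_of_ne (hleIic ξ h1) hξ.1⟩)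
    (F1.sup μ1 ⊔ F2.sup μ2)
  have hat := at_root hw hleg hβF'
  have key : ∀ (F0 : Finset L) (σ0 : L → Fs) (μ0 : L → ℕ) (hl0 : Legal w F0 σ0 μ0), β ∈ F0 →
      σ0 β = s → cut (y β) (μ0 β) = s → μ0 β ≤ M' →
      (∀ ξ ∈ F0, ξ < β → cut (x ξ) (μ0 ξ) = σ0 ξ) → F0 ⊆ F1 ∪ F2 →
      (∀ ξ ∈ F0, μ0 ξ ≤ F1.sup μ1 ⊔ F2.sup μ2) →
      w.at' y F' m hleg ≤ w.node F0 σ0 μ0 hl0 ∧ Root β (w.node F0 σ0 μ0 hl0) s := by
    intro F0 σ0 μ0 hl0 hβ0 hσ0 hc0 hM0 hcut0 hF0 hμ0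
    have hall : ∀ ξ ∈ F0, σ0 ξ = cut (y ξ) (μ0 ξ) := by
      intro ξ hξ
      rcases lt_or_eq_of_le (hleIic ξ (hl0.sub hξ)) with h1 | h1
      · rw [hyx ξ h1]
        exact (hcut0 ξ hξ h1).symm
      · rw [h1, hσ0, hc0]
    obtain ⟨h', he⟩ := node_congr hl0 (s' := fun ξ => cut (y ξ) (μ0 ξ)) (m' := μ0) hall
      (fun _ _ => rfl)
    have h'' : w.Leg y F0 μ0 := h'
    have he' : w.at' y F0 μ0 h'' = w.node F0 σ0 μ0 hl0 := he
    rw [← he']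
    constructor
    · apply at_le_at h'' hleg
      · intro ξ hξ
        by_cases h1 : ξ = β
        · rw [h1]; exact hβF'
        · exact hFF' (Finset.mem_erase.2 ⟨h1, hF0 hξ⟩)
      · intro ξ hξ
        rcases lt_or_eq_of_le (hleIic ξ (hl0.sub hξ)) with h1 | h1
        · exact (hμ0 ξ hξ).trans (hn ξ (hFF' (Finset.mem_erase.2 ⟨h1.ne, hF0 hξ⟩)) h1)
        · rw [h1, hmβ]; exact hM0
    · have := (at_root hw h'' hβ0).2
      rwa [hc0] at this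
  obtain ⟨ha1, hr1⟩ := key F1 σ1 μ1 hl1 hβ1 hs1 (by rw [hM1, hyM]) (by rw [hM1]; exact hM) hc1
    Finset.subset_union_left (fun ξ hξ => (Finset.le_sup (f := μ1) hξ).trans le_sup_left)
  obtain ⟨ha2, hr2⟩ := key F2 σ2 μ2 hl2 hβ2 hs2 (by rw [hM2, hyM']) (by rw [hM2]) hc2
    Finset.subset_union_right (fun ξ hξ => (Finset.le_sup (f := μ2) hξ).trans le_sup_right)
  have hroot : Root β (w.at' y F' m hleg) s := by
    have := hat.2
    rwa [hmβ, hyM'] at this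
  refine ⟨F', fun ξ => cut (y ξ) (m ξ), m, hleg, hβF', ?_, hmβ, ?_, ?_, ?_⟩
  · show cut (y β) (m β) = s
    rw [hmβ, hyM']
  · intro ξ _ hξβ
    show cut (x ξ) (m ξ) = cut (y ξ) (m ξ)
    rw [hyx ξ hξβ]
  · exact hP _ _ ha1 hP1
  · exact hP' _ _ ha2 hr2 hroot hP2

end E8
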