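import Pool.Agent.Lib.MP_e8be47_lc.VRk0

/-!
# the case that the selection of bad nodes is possible
-/

open Set Classical

set_option linter.unusedSectionVars false

namespace E8

variable {𝔸 : Type} [Tow 𝔸] {L : Type} [LinearOrder L] [WellFoundedLT L]

open Cond

theorem rank_sel {β : L} {Ψ : Bool → 𝔸 → Cond L → Prop}
    (hmono : ∀ i a a' w w', a' ≤ a → w' ≤ w → Ψ i a w → Ψ i a' w')
    {a1 a2 : 𝔸} {w1 w2 : Cond L} {t : Fs} {Mx : Fs → Pt L → ℕ} {gd : Bool → Fs → Pt L → Prop}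
    {bd : Fs → Pt L → Prop} (h : RData β Ψ a1 a2 w1 w2 t Mx gd bd)
    (hdense : ∀ a' ≤ a1, ∀ v ≤ w1, At β v → ∃ i, ∃ a'' ≤ a', ∃ v' ≤ v, At β v' ∧ Ψ i a'' v')
    (hS : ∀ x ∈ w2.pts, ∀ S : Finset Fs, (∀ s ∈ S, s ∈ (w2.val β x).T ∧ (s = t ∨ bd s x)) →
      Large (Sel (w2.val β x) (fun s => bd s x) S)) : False := by
  obtain ⟨w3, hw3, at3, _, _, m, S, E, _, _, _, hout⟩ :=
    selection_fusion h.at2 h.root (fun s x => bd s x) h.lcb
      (fun _ _ => 0) (fun _ => LC.const _ _) (fun _ _ => fun _ _ _ => le_rfl)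
      (fun _ _ => 0) (fun _ => LC.const _ _) hS
  obtain ⟨i, a'', ha'', v', hv', atv', hΨ⟩ := hdense a2 h.a w3 (hw3.trans h.w) at3
  obtain ⟨x, hx⟩ := v'.pts_nonempty
  obtain ⟨s, hs⟩ := (v'.isQ' hx β).root
  have hx3 : x ∈ w3.pts := pts_mono hv' hx
  have hx2 : x ∈ w2.pts := pts_mono hw3 hx3
  have hs3 : s ∈ (w3.val β x).T := (hv'.2 x hx β).1 hs.1
  have hbd : bd s x := by
    by_cases hst : s = t
    · rw [hst]
      exact h.bt x (mem_lt hx2 β)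
    · exact (hout x hx3).allowed s hs3 hst
  exact bad_absurd hmono (ha''.trans h.a) h.at1 atv' (hv'.trans (hw3.trans h.w)) hΨ (mem_lt hx β) hs
    (h.b x (mem_lt hx2 β) s hbd)

end E8
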