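import Pool.Agent.Lib.MP_e8be47_lc.VRk0

/-!
# a bad node with many good extensions
-/

open Set Classical

set_option linter.unusedSectionVars false

namespace E8

variable {𝔸 : Type} [Tow 𝔸] {L : Type} [LinearOrder L] [WellFoundedLT L]

open Cond

/-- `MN` is monotone -/
private theorem R1d_MN_mono {C D : Set Fs} (h : C ⊆ D) {m n : ℕ} (hC : MN C m n) : MN D m n := by
  intro χ hχ
  obtain ⟨c, hc, h1, h2⟩ := hC χ hχ
  exact ⟨c, h hc, h1, h2⟩

theorem rank_find {β : L} {Ψ : Bool → 𝔸 → Cond L → Prop}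
    {a1 a2 : 𝔸} {w1 w2 : Cond L} {t : Fs} {Mx : Fs → Pt L → ℕ} {gd : Bool → Fs → Pt L → Prop}
    {bd : Fs → Pt L → Prop} (h : RData β Ψ a1 a2 w1 w2 t Mx gd bd) {x : Pt L}
    (hx : x ∈ (w2.lt β).pts) {S : Finset Fs} (hS : ∀ s ∈ S, s ∈ (w2.val β x).T ∧ bd s x)
    (hn : ¬ Large (Sel (w2.val β x) (fun s => bd s x) S)) :
    ∃ s i, ∃ x' ∈ (w2.lt β).pts, ∃ F m, ∃ h' : (w2.lt β).Leg x' F m,
      ∀ y ∈ ((w2.lt β).at' x' F m h').pts, s ∈ (w2.val β y).T ∧ bd s y ∧
        Large {c ∈ (w2.val β y).C | ∃ f ⊆ c, Above s f ∧ s ∪ f ∈ (w2.val β y).T ∧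
          gd i (s ∪ f) y} := by
  have hptsq : ∀ y ∈ (w2.lt β).pts, IsQ (w2.val β y) := fun y hy => isQ_lt hy
  have hSelne : ∀ c ∈ Sel (w2.val β x) (fun s => bd s x) S, c.Nonempty := fun c hc => hc.1
  obtain ⟨m, n, hmn⟩ := not_large hSelne hn
  -- step 1: a restriction where everything is constant
  let wf : Option (Bool × Fs) → Pt L → Prop := fun j y =>
    match j with
    | none => MN (Sel (w2.val β y) (fun s => bd s y) S) m n
    | some (true, s) => s ∈ (w2.val β y).T
    | some (false, s) => bd s y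
  have hwf : ∀ j, LC (w2.lt β) (wf j) := by
    intro j
    match j with
    | none => exact h.mn_sel S m n
    | some (true, s) => exact (CQ_val_lt w2 β s).1
    | some (false, s) => exact h.lcb s
  obtain ⟨F1, μ1, h1, hc1⟩ := LC.finite wf hwf
    (insert none (((Finset.univ : Finset Bool) ×ˢ S).image some)) hx
  have hle1 : (w2.lt β).at' x F1 μ1 h1 ≤ w2.lt β := at_le h1
  have hsub1 := pts_mono hle1
  have hT1 : ∀ y ∈ ((w2.lt β).at' x F1 μ1 h1).pts, ∀ s ∈ S, s ∈ (w2.val β y).T := by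
    intro y hy s hs
    have hh := hc1 (some (true, s)) (by simp [hs]) y hy
    have h2 : wf (some (true, s)) x := (hS s hs).1
    rw [← hh] at h2
    exact h2
  have hb1 : ∀ y ∈ ((w2.lt β).at' x F1 μ1 h1).pts, ∀ s ∈ S, bd s y := by
    intro y hy s hs
    have hh := hc1 (some (false, s)) (by simp [hs]) y hy
    have h2 : wf (some (false, s)) x := (hS s hs).2
    rw [← hh] at h2
    exact h2
  have hn1 : ∀ y ∈ ((w2.lt β).at' x F1 μ1 h1).pts,
      ¬ MN (Sel (w2.val β y) (fun s => bd s y) S) m n := by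
    intro y hy h2
    have hh := hc1 none (by simp) y hy
    have h3 : wf none y := h2
    rw [hh] at h3
    exact hmn h3
  generalize hq1 : (w2.lt β).at' x F1 μ1 h1 = q1 at *
  -- step 2: some `NB s` is large
  obtain ⟨j, x1, hx1, F2, μ2, h2, hL2⟩ := exists_large_node (q := q1)
    (C := fun y => (w2.val β y).C) (fun y hy => (hptsq y (hsub1 hy)).large)
    (ι := Option {s // s ∈ S})
    (fun j y => match j with
      | none => Sel (w2.val β y) (fun s => bd s y) S
      | some s => NB (w2.val β y) (fun s => bd s y) s.1)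
    (by
      intro y hy c hc
      by_cases hex : ∃ s ∈ S, c ∈ NB (w2.val β y) (fun s => bd s y) s
      · obtain ⟨s, hs, hcs⟩ := hex
        exact mem_iUnion.2 ⟨some ⟨s, hs⟩, hcs⟩
      · refine mem_iUnion.2 ⟨none, ?_⟩
        refine ⟨(hptsq y (hsub1 hy)).large.1 c hc, ⟨c, hc, subset_rfl⟩, ?_⟩
        intro s hs
        by_contra hcon
        exact hex ⟨s, hs, hc, hcon⟩)
    (by
      intro j m' n'
      match j with
      | none => exact (h.mn_selC S m' n').mono hle1
      | some s => exact (h.mn_nb s.1 m' n').mono hle1)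
  have hle2 : q1.at' x1 F2 μ2 h2 ≤ q1 := at_le h2
  have hsub2 := pts_mono hle2
  match j, hL2 with
  | none, hL2 =>
    exfalso
    have h3 := (hL2 x1 (self_mem_at hx1 h2)).2 m n
    exact hn1 x1 hx1 (R1d_MN_mono inter_subset_left h3)
  | some ⟨s, hs⟩, hL2 =>
    have hNB : ∀ y ∈ (q1.at' x1 F2 μ2 h2).pts, Large (NB (w2.val β y) (fun s => bd s y) s) := by
      intro y hy
      refine (hL2 y hy).mono (fun c hc => ?_) inter_subset_left
      exact (hptsq y (hsub1 (hsub2 hy))).large.1 c hc.1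
    have hmeet2 : ∀ y ∈ (q1.at' x1 F2 μ2 h2).pts, Meets q1 y (q1.at' x1 F2 μ2 h2) :=
      fun y hy => Meets.congr h2 hy (le_refl _)
    clear hL2
    generalize hq2 : q1.at' x1 F2 μ2 h2 = q2 at *
    -- step 3
    obtain ⟨i, x3, hx3, F3, μ3, h3, hL3⟩ := exists_large_node (q := q2)
      (C := fun y => NB (w2.val β y) (fun s => bd s y) s) hNB
      (ι := Option Bool)
      (fun j y => match j with
        | none => NN (w2.val β y) (fun s => bd s y) s
        | some i => GD (w2.val β y) (fun s => bd s y) (fun s => gd i s y) s)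
      (by
        intro y hy c hc
        by_cases hex : ∃ f ⊆ c, Above s f ∧ s ∪ f ∈ (w2.val β y).T
        · obtain ⟨f, hf, hab, hT⟩ := hex
          rcases h.cov y (hsub1 (hsub2 hy)) _ hT with hb | ⟨i, hi⟩
          · exact absurd ⟨f, hf, hab, hT, hb⟩ hc.2
          · exact mem_iUnion.2 ⟨some i, hc, f, hf, hab, hT, hi⟩
        · exact mem_iUnion.2 ⟨none, hc, hex⟩)
      (by
        intro j m' n'
        match j with
        | none => exact (h.mn_nn s m' n').mono (hle2.trans hle1)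
        | some i => exact (h.mn_gd i s m' n').mono (hle2.trans hle1))
    match i, hL3 with
    | none, hL3 =>
      exfalso
      have hx3q := hsub1 (hsub2 hx3)
      obtain ⟨n', hn'⟩ := (hptsq x3 hx3q).cp s (hT1 x3 (hsub2 hx3) s hs)
      obtain ⟨c, hc, hcn, -⟩ := (hL3 x3 (self_mem_at hx3 h3)).2 1 n' (fun _ => 0) (fun _ => one_pos)
      exact hc.1.2 (hn' c hc.1.1.1 hcn)
    | some i, hL3 =>
      have hx3q := hsub1 (hsub2 hx3)
      have e1 : Meets (w2.lt β) x3 q1 := by
        subst hq1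
        exact Meets.congr h1 (hsub2 hx3) (le_refl _)
      have e2 : Meets (w2.lt β) x3 q2 := Meets.trans hx3q e1 (hmeet2 x3 hx3)
      have e3 : Meets (w2.lt β) x3 (q2.at' x3 F3 μ3 h3) :=
        Meets.trans hx3q e2 ⟨F3, μ3, h3, le_refl _⟩
      obtain ⟨F, μ, hl, hle⟩ := e3
      refine ⟨s, i, x3, hx3q, F, μ, hl, fun y hy => ?_⟩
      have hy3 := pts_mono hle hy
      have hy2 : y ∈ q2.pts := pts_mono (at_le h3) hy3
      have hy1 := hsub2 hy2
      refine ⟨hT1 y hy1 s hs, hb1 y hy1 s hs, (hL3 y hy3).mono (fun c hc => ?_) ?_⟩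
      · exact (hptsq y (hsub1 hy1)).large.1 c hc.1
      · rintro c ⟨hc, -⟩
        exact ⟨hc.1.1, hc.2⟩

end E8
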