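import Pool.Agent.Lib.MP_e8be47_lc.VRk0

/-!
# the assembled good tree
-/

open Set Classical

set_option linter.unusedSectionVars false

namespace E8

variable {𝔸 : Type} [Tow 𝔸] {L : Type} [LinearOrder L] [WellFoundedLT L]

open Cond

theorem r1e_EE_or {v v' u : Fs} (h : EE v u) (h' : EE v' u) : EE v v' ∨ EE v' v := by
  by_cases h1 : v ⊆ v'
  · exact Or.inl ⟨h1, fun j hj k hk hkv => h.2 j hj k (h'.1 hk) hkv⟩
  · obtain ⟨j, hj, hjv⟩ := Finset.not_subset.1 h1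
    have h2 : v' ⊆ v := by
      by_contra h2
      obtain ⟨k, hk, hkv⟩ := Finset.not_subset.1 h2
      exact lt_asymm (h.2 j hj k (h'.1 hk) hkv) (h'.2 k hk j (h.1 hj) hjv)
    exact Or.inr ⟨h2, fun k hk j' hj' hjv' => h'.2 k hk j' (h.1 hj') hjv'⟩

theorem r1e_EE_cut {z : Set ℕ} {m n : ℕ} (h : m ≤ n) : EE (cut z m) (cut z n) := by
  refine ⟨fun k hk => ?_, fun j hj k hk hkm => ?_⟩
  · rw [mem_cut] at hk ⊢
    exact ⟨hk.1.trans_le h, hk.2⟩
  · rw [mem_cut] at hj hk hkm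
    by_contra hjk
    exact hkm ⟨(not_lt.1 hjk).trans_lt hj.1, hk.2⟩

/-- `v` is the first good initial part of `u` above `s` -/
def r1e_First (T : Set Fs) (g : Fs → Prop) (s v u : Fs) : Prop :=
  EE v u ∧ EE s v ∧ v ≠ s ∧ v ∈ T ∧ g v ∧
    ∀ v', EE v' v → v' ≠ v → EE s v' → v' ≠ s → v' ∈ T → ¬ g v'

theorem r1e_First.unique {T : Set Fs} {g : Fs → Prop} {s v v' u : Fs}
    (h : r1e_First T g s v u) (h' : r1e_First T g s v' u) : v = v' := by
  obtain ⟨a1, a2, a3, a4, a5, a6⟩ := h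
  obtain ⟨b1, b2, b3, b4, b5, b6⟩ := h'
  by_contra hne
  rcases r1e_EE_or a1 b1 with h | h
  · exact b6 v h hne a2 a3 a4 a5
  · exact a6 v' h (Ne.symm hne) b2 b3 b4 b5

theorem r1e_First.mono {T : Set Fs} {g : Fs → Prop} {s v u u' : Fs}
    (h : r1e_First T g s v u) (hu : EE v u') : r1e_First T g s v u' :=
  ⟨hu, h.2⟩

theorem r1e_exists_First {T : Set Fs} {g : Fs → Prop} {s u : Fs} (h1 : EE s u) (h2 : u ≠ s)
    (h3 : u ∈ T) (h4 : g u) : ∃ v, r1e_First T g s v u := by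
  have hne : (u.powerset.filter fun v => EE v u ∧ EE s v ∧ v ≠ s ∧ v ∈ T ∧ g v).Nonempty :=
    ⟨u, Finset.mem_filter.2 ⟨Finset.mem_powerset_self u, EE.refl u, h1, h2, h3, h4⟩⟩
  obtain ⟨v, hv, hmin⟩ := Finset.exists_min_image _ Finset.card hne
  obtain ⟨-, a1, a2, a3, a4, a5⟩ := Finset.mem_filter.1 hv
  refine ⟨v, a1, a2, a3, a4, a5, fun v' b1 b2 b3 b4 b5 b6 => ?_⟩
  have h5 : EE v' u := b1.trans a1
  have h6 := hmin v' (Finset.mem_filter.2 ⟨Finset.mem_powerset.2 h5.1, h5, b3, b4, b5, b6⟩)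
  exact b2 (Finset.eq_of_subset_of_card_le b1.1 h6)

/-- the value at `β` of the assembled tree -/
def r1e_R (V : QC) (g : Fs → Prop) (M : Fs → ℕ) (s : Fs) : QC :=
  ⟨{u | u = s ∨ (u ∈ V.T ∧ ∃ v, r1e_First V.T g s v u ∧ cutF u (M v) = v)},
    {c ∈ V.C | ∃ f ⊆ c, Above s f ∧ s ∪ f ∈ V.T ∧ g (s ∪ f)}⟩

theorem r1e_cutF_self {t : Fs} {m : ℕ} (h : ∀ k ∈ t, k < m) : cutF t m = t := by
  ext k
  rw [mem_cutF]
  exact ⟨fun h => h.1, fun hk => ⟨hk, h k hk⟩⟩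

theorem r1e_root (V : QC) (g : Fs → Prop) (M : Fs → ℕ) (s : Fs) :
    IsRoot (r1e_R V g M s).T s := by
  refine ⟨Or.inl rfl, fun t ht => ?_⟩
  rcases ht with rfl | ⟨-, v, hv, -⟩
  · exact EE.refl _
  · exact hv.2.1.trans hv.1

theorem r1e_isQ {V : QC} (hV : IsQ V) {g : Fs → Prop} {M : Fs → ℕ} {s : Fs}
    (hM : ∀ v, ∀ k ∈ v, k < M v)
    (hl : Large {c ∈ V.C | ∃ f ⊆ c, Above s f ∧ s ∪ f ∈ V.T ∧ g (s ∪ f)}) :
    IsQ (r1e_R V g M s) := by
  refine ⟨⟨s, r1e_root V g M s⟩, hl, ?_⟩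
  rintro u (rfl | ⟨hu, v, hv, hc⟩)
  · refine ⟨0, ?_⟩
    rintro c ⟨-, f, hf, hfa, hfT, hfg⟩ -
    have hne : u ∪ f ≠ u := by
      intro h
      obtain ⟨k, hk⟩ := hfa.1
      have h1 : k ∈ u := by
        rw [← h]
        exact Finset.mem_union_right _ hk
      exact lt_irrefl _ (hfa.2 k h1 k hk)
    obtain ⟨v, hv⟩ := r1e_exists_First (EE.union hfa.2) hne hfT hfg
    obtain ⟨a1, a2, a3, a4, a5, a6⟩ := hv
    have hvu : u ∪ v \ u = v := Finset.union_sdiff_of_subset a2.1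
    refine ⟨v \ u, fun k hk => hf ?_, ⟨?_, fun j hj k hk => ?_⟩, ?_⟩
    · rw [Finset.mem_sdiff] at hk
      rcases Finset.mem_union.1 (a1.1 hk.1) with h | h
      · exact absurd h hk.2
      · exact h
    · rw [Finset.nonempty_iff_ne_empty]
      intro h
      exact a3 (Finset.Subset.antisymm (Finset.sdiff_eq_empty_iff_subset.1 h) a2.1)
    · rw [Finset.mem_sdiff] at hk
      exact a2.2 j hj k hk.1 hk.2
    · rw [hvu]
      exact Or.inr ⟨a4, v, ⟨EE.refl v, a2, a3, a4, a5, a6⟩, r1e_cutF_self (hM v)⟩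
  · obtain ⟨n, hn⟩ := hV.cp u hu
    refine ⟨max n (M v), fun c hc' hcn => ?_⟩
    obtain ⟨f, hf, hfa, hfT⟩ := hn c hc'.1 fun k hk => (le_max_left _ _).trans (hcn k hk)
    refine ⟨f, hf, hfa, Or.inr ⟨hfT, v, hv.mono (hv.1.trans (EE.union hfa.2)), ?_⟩⟩
    ext k
    rw [mem_cutF, Finset.mem_union]
    constructor
    · rintro ⟨hk | hk, hk'⟩
      · rw [← hc, mem_cutF]
        exact ⟨hk, hk'⟩
      · exact absurd hk' (not_lt.2 ((le_max_right _ _).trans (hcn k (hf hk))))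
    · intro hk
      rw [← hc, mem_cutF] at hk
      exact ⟨Or.inl hk.1, hk.2⟩

theorem r1e_le {V : QC} {g : Fs → Prop} {M : Fs → ℕ} {s : Fs} (hs : s ∈ V.T) :
    QLe (r1e_R V g M s) V := by
  refine ⟨?_, 0, fun c hc _ => ⟨c, hc.1, Finset.Subset.refl c⟩⟩
  rintro u (rfl | ⟨hu, -⟩)
  · exact hs
  · exact hu

/-- the data of the nodes contained in `t` -/
def r1e_dat (V : QC) (g : Fs → Prop) (M : Fs → ℕ) (P : Finset Fs) (v : Fs) : Prop × Prop × ℕ :=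
  if v ∈ P then (v ∈ V.T, g v, M v) else (False, False, 0)

theorem r1e_T_iff (V : QC) (g : Fs → Prop) (M : Fs → ℕ) (s t : Fs) :
    t ∈ (r1e_R V g M s).T ↔ t = s ∨ ((r1e_dat V g M t.powerset t).1 ∧ ∃ v ∈ t.powerset, EE v t ∧
      EE s v ∧ v ≠ s ∧ (r1e_dat V g M t.powerset v).1 ∧ (r1e_dat V g M t.powerset v).2.1 ∧
      (∀ v' ∈ t.powerset, EE v' v → v' ≠ v → EE s v' → v' ≠ s →
        (r1e_dat V g M t.powerset v').1 → ¬ (r1e_dat V g M t.powerset v').2.1) ∧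
      cutF t (r1e_dat V g M t.powerset v).2.2 = v) := by
  have hd : ∀ v ∈ t.powerset, r1e_dat V g M t.powerset v = (v ∈ V.T, g v, M v) :=
    fun v hv => if_pos hv
  constructor
  · rintro (h | ⟨h, v, ⟨a1, a2, a3, a4, a5, a6⟩, hc⟩)
    · exact Or.inl h
    · have hv := Finset.mem_powerset.2 a1.1
      refine Or.inr ⟨?_, v, hv, a1, a2, a3, ?_, ?_, ?_, ?_⟩
      · rw [hd t (Finset.mem_powerset_self t)]
        exact h
      · rw [hd v hv]
        exact a4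
      · rw [hd v hv]
        exact a5
      · intro v' hv' b1 b2 b3 b4
        rw [hd v' hv']
        exact a6 v' b1 b2 b3 b4
      · rw [hd v hv]
        exact hc
  · rintro (h | ⟨h, v, hv, a1, a2, a3, a4, a5, a6, hc⟩)
    · exact Or.inl h
    · rw [hd t (Finset.mem_powerset_self t)] at h
      rw [hd v hv] at a4 a5 hc
      refine Or.inr ⟨h, v, ⟨a1, a2, a3, a4, a5, fun v' b1 b2 b3 b4 => ?_⟩, hc⟩
      have hv' : v' ∈ t.powerset := Finset.mem_powerset.2 (b1.1.trans a1.1)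
      have := a6 v' hv' b1 b2 b3 b4
      rw [hd v' hv'] at this
      exact this

theorem r1e_C_iff (V : QC) (g : Fs → Prop) (M : Fs → ℕ) (s t : Fs) :
    t ∈ (r1e_R V g M s).C ↔ t ∈ V.C ∧ ∃ f ∈ t.powerset, Above s f ∧
      (r1e_dat V g M (t.powerset.image fun f => s ∪ f) (s ∪ f)).1 ∧
      (r1e_dat V g M (t.powerset.image fun f => s ∪ f) (s ∪ f)).2.1 := by
  have hd : ∀ f ∈ t.powerset, r1e_dat V g M (t.powerset.image fun f => s ∪ f) (s ∪ f) =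
      (s ∪ f ∈ V.T, g (s ∪ f), M (s ∪ f)) := fun f hf => if_pos (Finset.mem_image_of_mem _ hf)
  constructor
  · rintro ⟨h, f, hf, a1, a2, a3⟩
    have hf' := Finset.mem_powerset.2 hf
    refine ⟨h, f, hf', a1, ?_, ?_⟩
    · rw [hd f hf']
      exact a2
    · rw [hd f hf']
      exact a3
  · rintro ⟨h, f, hf', a1, a2, a3⟩
    rw [hd f hf'] at a2 a3
    exact ⟨h, f, Finset.mem_powerset.1 hf', a1, a2, a3⟩

theorem r1e_dat_lc {q : Cond L} {V : Pt L → QC} (hV : CQ q V) {g : Fs → Pt L → Prop}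
    (hg : ∀ s, LC q (g s)) {M : Fs → Pt L → ℕ} (hM : ∀ s, LC q (M s)) (P : Finset Fs) :
    LC q fun y => r1e_dat (V y) (fun v => g v y) (fun v => M v y) P := by
  intro x hx
  have hw : ∀ v, LC q fun y => ((v ∈ (V y).T, g v y, M v y) : Prop × Prop × ℕ) := fun v =>
    LC.comp₂ (hV v).1 (LC.comp₂ (hg v) (hM v) fun a b => (a, b)) fun a b => (a, b)
  obtain ⟨F, m, h, hF⟩ := LC.finite _ hw P hx
  refine ⟨F, m, h, fun y hy => ?_⟩
  funext v
  show (if v ∈ P then (v ∈ (V y).T, g v y, M v y) else (False, False, 0)) =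
    (if v ∈ P then (v ∈ (V x).T, g v x, M v x) else (False, False, 0))
  by_cases hv : v ∈ P
  · rw [if_pos hv, if_pos hv]
    exact hF v hv y hy
  · rw [if_neg hv, if_neg hv]

theorem r1e_CQ {q : Cond L} {V : Pt L → QC} (hV : CQ q V) {g : Fs → Pt L → Prop}
    (hg : ∀ s, LC q (g s)) {M : Fs → Pt L → ℕ} (hM : ∀ s, LC q (M s)) (s : Fs) :
    CQ q fun y => r1e_R (V y) (fun v => g v y) (fun v => M v y) s := by
  intro t
  constructor
  · have h1 := LC.comp (r1e_dat_lc hV hg hM t.powerset) fun d : Fs → Prop × Prop × ℕ =>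
      t = s ∨ ((d t).1 ∧ ∃ v ∈ t.powerset, EE v t ∧
      EE s v ∧ v ≠ s ∧ (d v).1 ∧ (d v).2.1 ∧
      (∀ v' ∈ t.powerset, EE v' v → v' ≠ v → EE s v' → v' ≠ s →
        (d v').1 → ¬ (d v').2.1) ∧ cutF t (d v).2.2 = v)
    have h2 : (fun y => (t ∈ (r1e_R (V y) (fun v => g v y) (fun v => M v y) s).T)) = _ :=
      funext fun y => propext (r1e_T_iff (V y) (fun v => g v y) (fun v => M v y) s t)
    rw [h2]
    exact h1
  · have h1 := LC.comp₂ (hV t).2 (r1e_dat_lc hV hg hM (t.powerset.image fun f => s ∪ f))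
      fun (a : Prop) (d : Fs → Prop × Prop × ℕ) => a ∧ ∃ f ∈ t.powerset, Above s f ∧
      (d (s ∪ f)).1 ∧ (d (s ∪ f)).2.1
    have h2 : (fun y => (t ∈ (r1e_R (V y) (fun v => g v y) (fun v => M v y) s).C)) = _ :=
      funext fun y => propext (r1e_C_iff (V y) (fun v => g v y) (fun v => M v y) s t)
    rw [h2]
    exact h1

theorem rank_tree {β : L} {Ψ : Bool → 𝔸 → Cond L → Prop}
    (hmono : ∀ i a a' w w', a' ≤ a → w' ≤ w → Ψ i a w → Ψ i a' w')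
    (hloc : ∀ i a w, (∀ x ∈ w.pts, ∃ F m, ∃ h : w.Leg x F m, Ψ i a (w.at' x F m h)) → Ψ i a w)
    {a1 a2 : 𝔸} {w1 w2 : Cond L} {t : Fs} {Mx : Fs → Pt L → ℕ} {gd : Bool → Fs → Pt L → Prop}
    {bd : Fs → Pt L → Prop} (h : RData β Ψ a1 a2 w1 w2 t Mx gd bd) {q : Cond L}
    (hq : q ≤ w2.lt β) (hqI : q.In (Iio β)) {s : Fs} {i : Bool}
    (hs : ∀ y ∈ q.pts, s ∈ (w2.val β y).T ∧ bd s y ∧
      Large {c ∈ (w2.val β y).C | ∃ f ⊆ c, Above s f ∧ s ∪ f ∈ (w2.val β y).T ∧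
        gd i (s ∪ f) y}) : False := by
  have hsub : ∀ x ∈ q.pts, x ∈ (w2.lt β).pts := fun x hx => pts_mono hq hx
  have hQ : ∀ x ∈ q.pts, IsQ (r1e_R (w2.val β x) (fun v => gd i v x) (fun v => Mx v x) s) :=
    fun x hx => r1e_isQ (isQ_lt (hsub x hx)) (fun v => h.ltM v x (hsub x hx)) (hs x hx).2.2
  have hCQ : CQ q fun x => r1e_R (w2.val β x) (fun v => gd i v x) (fun v => Mx v x) s := by
    refine r1e_CQ ?_ (fun v => LC.mono hq (h.lcg i v)) (fun v => LC.mono hq (h.lcM v)) s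
    exact fun t => ⟨LC.mono hq (CQ_val_lt w2 β t).1, LC.mono hq (CQ_val_lt w2 β t).2⟩
  obtain ⟨w5, h5, hat, hlt, hval⟩ := exists_val h.at2 hq hqI _ hCQ hQ fun x hx =>
    r1e_le (hs x hx).1
  have h51 : w5 ≤ w1 := h5.trans h.w
  have hq5 : ∀ x ∈ w5.pts, x ∈ q.pts := fun x hx => by
    rw [← hlt]
    exact mem_lt hx β
  have key : Ψ i a2 w5 := by
    refine hloc i a2 w5 fun x hx => ?_
    have hxq := hq5 x hx
    have hx2 := hsub x hxq
    have hz : x β ∈ br (r1e_R (w2.val β x) (fun v => gd i v x) (fun v => Mx v x) s).T := by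
      rw [← hval x hxq]
      exact hx β
    obtain ⟨n1, hn1, k, hk, hks⟩ := hz (s.sup Nat.succ)
    have hks' : k ∉ s := fun h => absurd (lt_sup h) (not_lt.2 hks)
    rcases hn1 with hn1 | ⟨hu1, v, hv, -⟩
    · rw [hn1] at hk
      exact absurd hk hks'
    obtain ⟨n2, hn2, hT2⟩ := exists_cut_mem hz (max n1 (Mx v x))
    have h12 : n1 ≤ n2 := (le_max_left _ _).trans hn2
    have hcut : cut (x β) (Mx v x) = v := by
      rcases hT2 with hT2 | ⟨hu2, v2, hv2, hc2⟩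
      · have : k ∈ cut (x β) n2 := (r1e_EE_cut h12).1 hk
        rw [hT2] at this
        exact absurd this hks'
      · have hvv : v = v2 := (hv.mono (hv.1.trans (r1e_EE_cut h12))).unique hv2
        subst hvv
        rw [cutF_cut ((le_max_right _ _).trans hn2)] at hc2
        exact hc2
    obtain ⟨F0, σ, μ0, hL, hβ, hσ, hμ, hc, hΨ⟩ := h.g x hx2 i v hv.2.2.2.2.1
    have hvT : v ∈ (w5.val β x).T := by
      rw [hval x hxq]
      exact Or.inr ⟨hv.2.2.2.1, v, hv.mono (EE.refl v), r1e_cutF_self (h.ltM v x hx2)⟩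
    obtain ⟨F, μ, hl, -, -, hle⟩ := exists_at_node (k := Mx v x) hat h51 h.at1 hL hβ hx hc hμ.le
      (by rw [hσ]; exact hcut) (by rw [hσ]; exact hvT)
    exact ⟨F, μ, hl, hmono i a1 a2 _ _ h.a hle hΨ⟩
  obtain ⟨x, hx⟩ := pts_nonempty q
  refine bad_absurd hmono h.a h.at1 hat h51 key (x := x) (s := s) (M := Mx s x) ?_ ?_ ?_
  · rw [hlt]
    exact hx
  · rw [hval x hx]
    exact r1e_root _ _ _ s
  · exact h.b x (hsub x hx) s (hs x hx).2.1

end E8
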