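import Pool.Agent.Lib.MP_e8be47_lc.VRkA
import Pool.Agent.Lib.MP_e8be47_lc.VRkC
import Pool.Agent.Lib.MP_e8be47_lc.VRkD
import Pool.Agent.Lib.MP_e8be47_lc.VRkE

/-!
# the rank lemma
-/

open Set Classical

set_option linter.unusedSectionVars false

namespace E8

variable {𝔸 : Type} [Tow 𝔸] {L : Type} [LinearOrder L] [WellFoundedLT L]

open Cond

/-- RANK LEMMA: `Ψ i` is monotone and local; if one of `Ψ i` holds below every condition, then it
holds for an extension with the same root. -/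
theorem rank_lemma {β : L} (hD : DCP 𝔸 (Iio β)) (Ψ : Bool → 𝔸 → Cond L → Prop)
    (hmono : ∀ i a a' w w', a' ≤ a → w' ≤ w → Ψ i a w → Ψ i a' w')
    (hloc : ∀ i a w, (∀ x ∈ w.pts, ∃ F m, ∃ h : w.Leg x F m, Ψ i a (w.at' x F m h)) → Ψ i a w)
    (a : 𝔸) {w : Cond L} (hw : At β w) {t : Fs} (ht : Root β w t)
    (hdense : ∀ a' ≤ a, ∀ v ≤ w, At β v → ∃ i, ∃ a'' ≤ a', ∃ v' ≤ v, At β v' ∧ Ψ i a'' v') :
    ∃ i, ∃ a' ≤ a, ∃ w' ≤ w, At β w' ∧ Root β w' t ∧ Ψ i a' w' := by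
  by_contra hcon
  have hbad : Bad β Ψ a w := by
    intro s hs i a' ha' v hv hvA hvs hΨ
    obtain ⟨x, hx⟩ := pts_nonempty w
    have hst : s = t := (hs x hx).unique (ht x hx)
    subst hst
    exact hcon ⟨i, a', ha', v, hv, hvA, hvs, hΨ⟩
  obtain ⟨a1, a2, w1, w2, Mx, gd, bd, ha1, hw1, h⟩ := rank_data hD Ψ hmono a hw ht hbad
  by_cases hS : ∀ x ∈ w2.pts, ∀ S : Finset Fs,
      (∀ s ∈ S, s ∈ (w2.val β x).T ∧ (s = t ∨ bd s x)) →
      Large (Sel (w2.val β x) (fun s => bd s x) S)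
  · exact rank_sel hmono h (fun a' ha' v hv hvA =>
      hdense a' (ha'.trans ha1) v (hv.trans hw1) hvA) hS
  · push Not at hS
    obtain ⟨x, hx, S, hS, hn⟩ := hS
    have hx' : x ∈ (w2.lt β).pts := mem_lt hx β
    obtain ⟨s, i, x', hx'', F, m, h', hy⟩ := rank_find h hx' (S := S) (fun s hs =>
      ⟨(hS s hs).1, (hS s hs).2.elim (fun e => e ▸ h.bt x hx') id⟩) hn
    exact rank_tree hmono hloc h (at_le h') (at_in (lt_in w2 β) h') hy


end E8
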