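import Pool.Agent.Lib.MP_e8be47_lc.VClop

/-!
# rich conditions
-/

open Set Classical

set_option linter.unusedSectionVars false

namespace E8

variable {𝔸 : Type} [Tow 𝔸] {L : Type} [LinearOrder L] [WellFoundedLT L]

open Cond

/-- `(V, p)` is rich at `β`: for every `K` an extension of `p`, with the same part below `β`,
forces `j ∈ Y ↔ i` for all `j ∈ V`, `j < K` -/
def Rich (Λ : Set L) (Y : Pt L → Set ℕ) (i : Bool) (β : L) (V : Set ℕ) (p : Cond L) : Prop :=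
  p.In Λ ∧ ∀ K : ℕ, ∃ r ≤ p, r.In Λ ∧ r.lt β = p.lt β ∧
    ∀ x ∈ r.pts, ∀ j ∈ V, j < K → (j ∈ Y x ↔ i = true)

theorem Rich.mono {Λ : Set L} {Y : Pt L → Set ℕ} {i : Bool} {β β' : L} (h : β ≤ β') {V : Set ℕ}
    {p : Cond L} (hr : Rich Λ Y i β' V p) : Rich Λ Y i β V p := by
  refine ⟨hr.1, fun K => ?_⟩
  obtain ⟨r, hrp, hrΛ, hrβ, hx⟩ := hr.2 K
  exact ⟨r, hrp, hrΛ, by rw [← lt_lt h, hrβ, lt_lt h], hx⟩

/-- interpretation of `Y` in `V[G_β]` and `SSP` -/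
theorem rich_exists {Λ : Set L} (hΛ : IsLowerSet Λ) {β : L} (hβ : Iio β ⊆ Λ)
    (hD : DCP 𝔸 (Iio β)) (hS : SSP (Iio β)) (a : 𝔸) {p : Cond L} (hp : p.In Λ)
    {Y : Pt L → Set ℕ} (hY : CR p Y) :
    ∃ a' ≤ a, ∃ p' ≤ p, ∃ i V, (Tow.top a' \ V).Finite ∧ Rich Λ Y i β V p' := by
  obtain ⟨a1, ha1, q, hq, hqI, σ, -, hσ, hR⟩ := hD
    {s : 𝔸 × Cond L × Bool // s.2.1.In Λ ∧ s.2.1 ≤ p} (fun s => s.1.1) (fun s => s.1.2.1.lt β)
    (fun K s s' => s'.1.2.1 ≤ s.1.2.1 ∧ ∀ x ∈ s'.1.2.1.pts, (K ∈ Y x ↔ s'.1.2.2 = true))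
    (fun s => lt_in _ β)
    (by
      rintro K ⟨⟨b, v, τ⟩, hv, hvp⟩ c hc u hu huI
      dsimp only at hc hu hv hvp ⊢
      obtain ⟨r, hrv, hru, hrs, -⟩ := exists_amalg (isLowerSet_Iio β) huI hu
      have hrΛ : r.In Λ := by
        intro ξ hξ
        rw [hrs] at hξ
        exact hξ.elim (fun h => hβ (huI h)) fun h => hv h
      obtain ⟨x, hx⟩ := pts_nonempty r
      obtain ⟨F, m, hl, hcst⟩ := ((hY K).mono (hrv.trans hvp)) x hx
      refine ⟨⟨(c, r.at' x F m hl, decide (K ∈ Y x)), at_in hrΛ hl,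
        (at_le hl).trans (hrv.trans hvp)⟩, ⟨(at_le hl).trans hrv, fun y hy => ?_⟩, le_rfl, ?_⟩
      · dsimp only at hy ⊢
        rw [show (K ∈ Y y) = (K ∈ Y x) from hcst y hy]
        simp
      · dsimp only
        have : (r.at' x F m hl).lt β ≤ r.lt β := restr_mono (at_le hl)
        exact this.trans hru.le)
    ⟨(a, p, true), hp, le_rfl⟩ a le_rfl (p.lt β) le_rfl (lt_in p β)
  have hanti : ∀ x ∈ q.pts, ∀ n m, n ≤ m → (σ m x).1.2.1 ≤ (σ n x).1.2.1 := by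
    intro x hx n m hnm
    induction hnm with
    | refl => exact le_rfl
    | step _ ih => exact ((hR x hx _).1.1).trans ih
  obtain ⟨q', hq', hq'I, V, hVa, hV, i, hi⟩ := hS q hqI
    (fun x => {K | (σ (K + 1) x).1.2.2 = true})
    (fun K => (hσ (K + 1)).comp fun s => (s.1.2.2 = true)) (Tow.top a1) (Tow.top_inf a1)
  obtain ⟨a', ha', hfin⟩ := Tow.shrink a1 V hVa hV
  have hq'p : q' ≤ p.lt β := hq'.trans hq
  obtain ⟨p', hp'p, hp'q, hp's, hp'v⟩ := exists_amalg (isLowerSet_Iio β) hq'I hq'p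
  have hp'Λ : p'.In Λ := by
    intro ξ hξ
    rw [hp's] at hξ
    exact hξ.elim (fun h => hβ (hq'I h)) fun h => hp h
  refine ⟨a', ha'.trans ha1, p', hp'p, i, V, hfin, hp'Λ, fun K => ?_⟩
  have hqq : q'.pts ⊆ q.pts := pts_mono hq'
  obtain ⟨r, hrq, hrv, hrs, hrI, hrM⟩ := exists_glue (isLowerSet_Iio β) hq'I
    (fun x => (σ K x).1.2.1) (((hσ K).mono hq').comp fun s => s.1.2.1)
    (fun x hx => (Meets.of_le hq').trans hx (hR x (hqq hx) K).2.2)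
  have hrq' : ∀ x ∈ r.pts, x ∈ q'.pts := fun x hx => hrq ▸ pts_mono (le_restr r) hx
  have hrΛ : r.In Λ := hrI Λ hβ fun x _ => (σ K x).2.1
  refine ⟨r, ⟨?_, ?_⟩, hrΛ, ?_, ?_⟩
  · intro ξ hξ
    rw [hp's] at hξ
    have h1 : q'.supp ⊆ r.supp := by
      rw [← hrq]
      exact inter_subset_left
    rcases hξ with hξ | hξ
    · exact h1 hξ
    · by_cases hξβ : ξ ∈ Iio β
      · exact h1 (hq'p.1 ⟨hξ, hξβ⟩)
      · obtain ⟨x, hx⟩ := pts_nonempty q'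
        exact hrs x hx ⟨(σ K x).2.2.1 hξ, hξβ⟩
  · intro x hx ξ
    by_cases hξβ : ξ ∈ Iio β
    · have h1 : r.val ξ x = q'.val ξ x := by rw [← hrq, restr_val _ hξβ]
      have h2 : p'.val ξ x = q'.val ξ x := by rw [← hp'q, restr_val _ hξβ]
      rw [h1, h2]
      exact QLe.refl _
    · rw [hrv x hx ξ hξβ, hp'v ξ hξβ]
      exact (σ K x).2.2.2 x ((hrM x hx).mem hx) ξ
  · rw [Cond.lt, Cond.lt, hrq, hp'q]
  · intro x hx j hjV hjK
    have hxq' := hrq' x hx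
    have hxq := hqq hxq'
    have hxw : x ∈ (σ (j + 1) x).1.2.1.pts :=
      pts_mono (hanti x hxq (j + 1) K hjK) ((hrM x hx).mem hx)
    exact ((hR x hxq j).1.2 x hxw).trans (hi x hxq' j hjV)

/-- rich conditions of colour `i` are dense below `(a, p)` at all levels `b n` -/
def Good (Λ : Set L) (Y : Pt L → Set ℕ) (i : Bool) (b : ℕ → L) (a : 𝔸) (p : Cond L) : Prop :=
  ∀ n, ∀ a' ≤ a, ∀ p' ≤ p, p'.In Λ → ∃ a'' ≤ a', ∃ p'' ≤ p', ∃ V,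
    (Tow.top a'' \ V).Finite ∧ Rich Λ Y i (b n) V p''

theorem good_exists {Λ : Set L} (hΛ : IsLowerSet Λ) {b : ℕ → L} (hb : Monotone b)
    (hbΛ : ∀ n, Iio (b n) ⊆ Λ) (hD : ∀ n, DCP 𝔸 (Iio (b n))) (hS : ∀ n, SSP (L := L) (Iio (b n)))
    (a : 𝔸) {p : Cond L} (hp : p.In Λ) {Y : Pt L → Set ℕ} (hY : CR p Y) :
    ∃ i, ∃ a' ≤ a, ∃ p' ≤ p, p'.In Λ ∧ Good Λ Y i b a' p' := by
  by_cases hg : Good Λ Y true b a p
  · exact ⟨true, a, le_rfl, p, le_rfl, hp, hg⟩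
  · unfold Good at hg
    push Not at hg
    obtain ⟨n, a', ha', p', hp', hp'Λ, hno⟩ := hg
    refine ⟨false, a', ha', p', hp', hp'Λ, fun n' a1 ha1 p1 hp1 hp1Λ => ?_⟩
    obtain ⟨a2, ha2, p2, hp2, i, V, hV, hr⟩ := rich_exists hΛ (hbΛ (max n n')) (hD _) (hS _) a1
      hp1Λ (Y := Y) fun j => (hY j).mono (hp1.trans hp')
    cases i with
    | true =>
      exact absurd (hr.mono (hb (le_max_left n n')))
        (hno a2 (ha2.trans ha1) p2 (hp2.trans hp1) V hV)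
    | false => exact ⟨a2, ha2, p2, hp2, V, hV, hr.mono (hb (le_max_right n n'))⟩

end E8
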