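import Pool.Agent.Lib.MP_e8be47_lc.VPiece

/-!
# definitions for the rank lemma, `bad_absurd`
-/

open Set Classical

set_option linter.unusedSectionVars false

namespace E8

variable {𝔸 : Type} [Tow 𝔸] {L : Type} [LinearOrder L] [WellFoundedLT L]

open Cond

/-- no extension with the same root satisfies `Ψ` -/
def Bad (β : L) (Ψ : Bool → 𝔸 → Cond L → Prop) (a : 𝔸) (w : Cond L) : Prop :=
  ∀ s, Root β w s → ∀ i, ∀ a' ≤ a, ∀ v ≤ w, At β v → Root β v s → ¬ Ψ i a' v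

/-- members of `C` without bad extension of `s` -/
def NB (R : QC) (bd : Fs → Prop) (s : Fs) : Set Fs :=
  {c ∈ R.C | ¬ ∃ f ⊆ c, Above s f ∧ s ∪ f ∈ R.T ∧ bd (s ∪ f)}

/-- those which contain an extension of `s` with `gd` -/
def GD (R : QC) (bd gd : Fs → Prop) (s : Fs) : Set Fs :=
  {c ∈ NB R bd s | ∃ f ⊆ c, Above s f ∧ s ∪ f ∈ R.T ∧ gd (s ∪ f)}

/-- those which contain no extension of `s` -/
def NN (R : QC) (bd : Fs → Prop) (s : Fs) : Set Fs :=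
  {c ∈ NB R bd s | ¬ ∃ f ⊆ c, Above s f ∧ s ∪ f ∈ R.T}

/-- the data of the first half of the proof: `gd i s x`, `bd s x` say that the piece of `w1` above `s`
(cut at `Mx s x`) at `x` satisfies `Ψ i`, is bad. -/
structure RData (β : L) (Ψ : Bool → 𝔸 → Cond L → Prop) (a1 a2 : 𝔸) (w1 w2 : Cond L) (t : Fs)
    (Mx : Fs → Pt L → ℕ) (gd : Bool → Fs → Pt L → Prop) (bd : Fs → Pt L → Prop) : Prop where
  a : a2 ≤ a1
  w : w2 ≤ w1
  at1 : At β w1
  at2 : At β w2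
  root : Root β w2 t
  lcM : ∀ s, LC (w2.lt β) (Mx s)
  lcg : ∀ i s, LC (w2.lt β) (gd i s)
  lcb : ∀ s, LC (w2.lt β) (bd s)
  ltM : ∀ s, ∀ x ∈ (w2.lt β).pts, ∀ k ∈ s, k < Mx s x
  g : ∀ x ∈ (w2.lt β).pts, ∀ i s, gd i s x → PieceAt β w1 x s (Mx s x) (Ψ i a1)
  b : ∀ x ∈ (w2.lt β).pts, ∀ s, bd s x → PieceAt β w1 x s (Mx s x) (Bad β Ψ a1)
  cov : ∀ x ∈ (w2.lt β).pts, ∀ s ∈ (w2.val β x).T, bd s x ∨ ∃ i, gd i s x
  bt : ∀ x ∈ (w2.lt β).pts, bd t x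
  mn_sel : ∀ S m n, LC (w2.lt β) fun x => MN (Sel (w2.val β x) (fun s => bd s x) S) m n
  mn_selC : ∀ S m n, LC (w2.lt β) fun x =>
    MN (Sel (w2.val β x) (fun s => bd s x) S ∩ (w2.val β x).C) m n
  mn_nb : ∀ s m n, LC (w2.lt β) fun x =>
    MN (NB (w2.val β x) (fun s => bd s x) s ∩ (w2.val β x).C) m n
  mn_gd : ∀ i s m n, LC (w2.lt β) fun x =>
    MN (GD (w2.val β x) (fun s => bd s x) (fun s => gd i s x) s ∩
      NB (w2.val β x) (fun s => bd s x) s) m n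
  mn_nn : ∀ s m n, LC (w2.lt β) fun x =>
    MN (NN (w2.val β x) (fun s => bd s x) s ∩ NB (w2.val β x) (fun s => bd s x) s) m n

/-- `Bad` is monotone for equal roots -/
theorem Bad.mono {β : L} {Ψ : Bool → 𝔸 → Cond L → Prop} {a a' : 𝔸} (ha : a' ≤ a) {w w' : Cond L}
    (hw : w' ≤ w) {t : Fs} (ht : Root β w t) (ht' : Root β w' t) (h : Bad β Ψ a w) :
    Bad β Ψ a' w' := by
  intro s hs i a'' ha'' v hv hat hvs
  obtain ⟨x, hx⟩ := pts_nonempty w'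
  have hst : s = t := (hs x hx).unique (ht' x hx)
  subst hst
  exact h s ht i a'' (ha''.trans ha) v (hv.trans hw) hat hvs

/-- an extension of a bad piece with the right root does not satisfy `Ψ` -/
theorem bad_absurd {β : L} {Ψ : Bool → 𝔸 → Cond L → Prop}
    (hmono : ∀ i a a' w w', a' ≤ a → w' ≤ w → Ψ i a w → Ψ i a' w') {a1 a'' : 𝔸} (ha : a'' ≤ a1)
    {w1 v : Cond L} (hw1 : At β w1) (hv : At β v) (hvw : v ≤ w1) {i : Bool} (hΨ : Ψ i a'' v)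
    {x : Pt L} (hx : x ∈ (v.lt β).pts) {s : Fs} (hs : IsRoot (v.val β x).T s) {M : ℕ}
    (hp : PieceAt β w1 x s M (Bad β Ψ a1)) : False := by
  obtain ⟨F0, σ, μ0, h0, hβ, hσ, hμ, hcut, hbad⟩ := hp
  have hk : ∀ j ∈ s, j < max M (s.sup Nat.succ) := fun j hj => lt_max_of_lt_right (lt_sup hj)
  obtain ⟨z, hz, hzs⟩ := exists_branch (isQ_lt hx) hs.1 (max M (s.sup Nat.succ)) hk
  obtain ⟨y, hy, hyx, hyz⟩ := exists_point' hx hz
  have hval : v.val β y = v.val β x := val_congr hyx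
  obtain ⟨F, μ, h, hβF, hμk, hle⟩ := exists_at_node hv hvw hw1 h0 hβ hy
    (fun ξ hξ hlt => by rw [hyx ξ hlt]; exact hcut ξ hξ hlt)
    (k := max M (s.sup Nat.succ)) (by rw [hμ]; exact le_max_left _ _)
    (by rw [hyz, hzs, hσ]) (by rw [hσ, hval]; exact hs.1)
  obtain ⟨hat, hroot⟩ := at_root hv h hβF
  rw [hyz, hμk, hzs] at hroot
  have hu : Root β (w1.node F0 σ μ0 h0) s := by
    intro x' hx'
    obtain ⟨hx1, hx2⟩ := (mem_node h0).1 hx'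
    have hT : σ β ∈ (w1.val β x').T :=
      h0.mem β hβ x' fun η _ => ⟨hx1 η, fun hη => hx2 η hη⟩
    have := (isQ_sub (isQ' w1 hx1 β) hT (h0.lt β hβ)).2
    rw [node_val, if_pos hβ, ← hσ]
    exact this
  exact hbad s hu i a'' ha _ hle hat hroot (hmono i a'' a'' v _ le_rfl (at_le h) hΨ)

end E8
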