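import Pool.Agent.Lib.MP_e8be47_lc.VRk0

/-!
# the first half of the rank lemma
-/

open Set Classical

set_option linter.unusedSectionVars false

namespace E8

variable {𝔸 : Type} [Tow 𝔸] {L : Type} [LinearOrder L] [WellFoundedLT L]

open Cond

private theorem R1a_and {q : Cond L} {P Q : Pt L → Prop} (hP : LC q P) (hQ : LC q Q) :
    LC q fun x => P x ∧ Q x := hP.comp₂ hQ fun a b => a ∧ b

private theorem R1a_not {q : Cond L} {P : Pt L → Prop} (hP : LC q P) : LC q fun x => ¬ P x :=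
  hP.comp fun a => ¬ a

private theorem R1a_ex {ι : Type*} {q : Cond L} (I : Finset ι) {P : ι → Pt L → Prop}
    (hP : ∀ i, LC q (P i)) : LC q fun x => ∃ i ∈ I, P i x := by
  intro x hx
  obtain ⟨F, m, h, h1⟩ := LC.finite P hP I hx
  refine ⟨F, m, h, fun y hy => ?_⟩
  apply propext
  constructor
  · rintro ⟨i, hi, h2⟩
    exact ⟨i, hi, by rw [← h1 i hi y hy]; exact h2⟩
  · rintro ⟨i, hi, h2⟩
    exact ⟨i, hi, by rw [h1 i hi y hy]; exact h2⟩

private theorem R1a_all {ι : Type*} {q : Cond L} (I : Finset ι) {P : ι → Pt L → Prop}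
    (hP : ∀ i, LC q (P i)) : LC q fun x => ∀ i ∈ I, P i x := by
  intro x hx
  obtain ⟨F, m, h, h1⟩ := LC.finite P hP I hx
  refine ⟨F, m, h, fun y hy => ?_⟩
  apply propext
  constructor
  · intro h2 i hi
    rw [← h1 i hi y hy]
    exact h2 i hi
  · intro h2 i hi
    rw [h1 i hi y hy]
    exact h2 i hi

private theorem R1a_sub {q : Cond L} (c : Fs) {P : Fs → Pt L → Prop} (hP : ∀ f, LC q (P f)) :
    LC q fun x => ∃ f ⊆ c, P f x := by
  have h := R1a_ex c.powerset hP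
  simpa only [Finset.mem_powerset] using h

/-- a family of open sets at a locally constant parameter -/
private theorem R1a_opn {W : Type*} {q : Cond L} {g : Pt L → W} (hg : LC q g)
    (P : W → Pt L → Prop) (hP : ∀ M, Opn q {x | P M x}) : Opn q {x | P (g x) x} := by
  intro x hx hxP
  obtain ⟨F, m, h, h1⟩ := (hP (g x)).inter (hg.opn {g x}) x hx ⟨hxP, rfl⟩
  refine ⟨F, m, h, fun y hy => ?_⟩
  obtain ⟨h2, h3⟩ := h1 hy
  have h4 : g y = g x := h3
  change P (g y) y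
  rw [h4]
  exact h2

private theorem R1a_clopen {Λ : Set L} (hD : DCP 𝔸 Λ) (a : 𝔸) {p : Cond L} (hp : p.In Λ)
    {J : Type} [Countable J] [Nonempty J] (P : J → Pt L → Prop) (hP : ∀ j, Opn p {x | P j x}) :
    ∃ a' ≤ a, ∃ p' ≤ p, p'.In Λ ∧ ∀ j, LC p' (P j) := by
  obtain ⟨e, he⟩ := exists_surjective_nat J
  obtain ⟨a', ha', p', hp', hIn, hLC⟩ := clopen_of_dc hD a hp (fun n => {x | P (e n) x})
    (fun n => hP (e n))
  refine ⟨a', ha', p', hp', hIn, fun j => ?_⟩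
  obtain ⟨n, rfl⟩ := he j
  exact hLC n

private theorem R1a_piece {β : L} {w : Cond L} {x y : Pt L} (hxy : ∀ η < β, y η = x η) {s : Fs}
    {M : ℕ} {P : Cond L → Prop} (h : PieceAt β w y s M P) : PieceAt β w x s M P := by
  obtain ⟨F, σ, μ, hl, h1, h2, h3, h4, h5⟩ := h
  exact ⟨F, σ, μ, hl, h1, h2, h3, fun ξ hξ hlt => by rw [← hxy ξ hlt]; exact h4 ξ hξ hlt, h5⟩

private theorem R1a_node {β : L} {w : Cond L} (hw : At β w) {F : Finset L} {σ : L → Fs}
    {μ : L → ℕ} (h : Legal w F σ μ) (hβ : β ∈ F) :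
    At β (w.node F σ μ h) ∧ Root β (w.node F σ μ h) (σ β) := by
  refine ⟨⟨node_in hw.le h, hw.mem⟩, fun x hx => ?_⟩
  rw [node_val, if_pos hβ]
  obtain ⟨h1, h2⟩ := (mem_node h).1 hx
  exact (isQ_sub (isQ' w h1 β) (h.mem β hβ x fun η _ => ⟨h1 η, h2 η⟩) (h.lt β hβ)).2

/-- the index set of the families -/
private abbrev R1aJ : Type := (Finset Fs × ℕ × ℕ) ⊕ (Finset Fs × ℕ × ℕ) ⊕ (Fs × ℕ × ℕ) ⊕
  (Bool × Fs × ℕ × ℕ) ⊕ (Fs × ℕ × ℕ)

theorem rank_data {β : L} (hD : DCP 𝔸 (Iio β)) (Ψ : Bool → 𝔸 → Cond L → Prop)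
    (hmono : ∀ i a a' w w', a' ≤ a → w' ≤ w → Ψ i a w → Ψ i a' w')
    (a : 𝔸) {w : Cond L} (hw : At β w) {t : Fs} (ht : Root β w t) (hbad : Bad β Ψ a w) :
    ∃ a1 a2 w1 w2 Mx gd bd, a1 ≤ a ∧ w1 ≤ w ∧ RData β Ψ a1 a2 w1 w2 t Mx gd bd := by
  -- step 1: the fusion lemma
  obtain ⟨a1, ha1, w1, hw1w, hw1, ht1, m, hmLC, hm⟩ := fusion_lemma hD
    (fun _ b v => (∃ i, Ψ i b v) ∨ Bad β Ψ b v)
    (by
      rintro k b b' v v' s hb hv h1 h2 h3 h4 (⟨i, hi⟩ | hb')
      · exact Or.inl ⟨i, hmono i b b' v v' hb hv hi⟩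
      · exact Or.inr (hb'.mono hb hv h3 h4))
    a hw ht
    (by
      intro k b hb v hv s hvA hvR
      by_cases h : Bad β Ψ b v
      · exact ⟨b, le_rfl, v, le_rfl, hvA, hvR, Or.inr h⟩
      · unfold Bad at h
        push Not at h
        obtain ⟨s', hs', i, b', hb', v', hv', hA', hR', hΨ⟩ := h
        obtain ⟨x, hx⟩ := pts_nonempty v
        have hss : s' = s := (hs' x hx).unique (hvR x hx)
        subst hss
        exact ⟨b', hb', v', hv', hA', hR', Or.inl ⟨i, hΨ⟩⟩)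
  -- step 2
  have hmx : ∀ x ∈ (w1.lt β).pts, ∀ y ∈ w1.pts, (∀ η < β, y η = x η) → ∀ k, m k y = m k x := by
    intro x hx y hy hxy k
    exact (hmLC k).dep hx (mem_lt hy β) fun ξ hξ => hxy ξ (lt_in w1 β hξ)
  have hex : ∀ s : Fs, ∀ x ∈ (w1.lt β).pts, ∃ n, ∀ j ∈ s, j < m n x := by
    intro s x hx
    obtain ⟨y, hy, hxy⟩ := exists_point hx
    refine ⟨s.sup Nat.succ, fun j hj => ?_⟩
    rw [← hmx x hx y hy hxy]
    exact lt_of_lt_of_le (lt_sup hj) ((hm y hy).1.id_le _)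
  have hfind : ∀ s : Fs, ∃ f : Pt L → ℕ, LC (w1.lt β) f ∧
      ∀ x ∈ (w1.lt β).pts, ∀ j ∈ s, j < m (f x) x := by
    intro s
    obtain ⟨f, hf1, hf2, -⟩ := LC.find (q := w1.lt β) (fun n x => ∀ j ∈ s, j < m n x)
      (fun n => (hmLC n).comp fun k => ∀ j ∈ s, j < k) (hex s)
    exact ⟨f, hf1, hf2⟩
  choose f hfLC hf using hfind
  set Mx : Fs → Pt L → ℕ := fun s x => m (f s x) x with hMx
  have hMLC : ∀ s, LC (w1.lt β) (Mx s) := fun s => (hfLC s).bind (fun k x => m k x) hmLC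
  have hltM : ∀ s, ∀ x ∈ (w1.lt β).pts, ∀ k ∈ s, k < Mx s x := hf
  set gd : Bool → Fs → Pt L → Prop := fun i s x => PieceAt β w1 x s (Mx s x) (Ψ i a1) with hgd
  set bd : Fs → Pt L → Prop := fun s x => PieceAt β w1 x s (Mx s x) (Bad β Ψ a1) with hbd
  have hgO : ∀ i s, Opn (w1.lt β) {x | gd i s x} := fun i s =>
    R1a_opn (hMLC s) (fun M x => PieceAt β w1 x s M (Ψ i a1)) fun M => PieceAt.opn hw1 s M _
  have hbO : ∀ s, Opn (w1.lt β) {x | bd s x} := fun s =>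
    R1a_opn (hMLC s) (fun M x => PieceAt β w1 x s M (Bad β Ψ a1)) fun M => PieceAt.opn hw1 s M _
  have hcov : ∀ x ∈ (w1.lt β).pts, ∀ s ∈ (w1.val β x).T, bd s x ∨ ∃ i, gd i s x := by
    intro x hx s hs
    obtain ⟨z, hz, hzs⟩ := exists_branch (isQ_lt hx) hs (Mx s x) (hltM s x hx)
    obtain ⟨y, hy, hxy, hyz⟩ := exists_point' hx hz
    obtain ⟨F, μ, h, h1, h2, h3⟩ := (hm y hy).2.2 (f s x)
    have h4 : μ β = Mx s x := h2.trans (hmx x hx y hy hxy _)
    have h5 : cut (y β) (Mx s x) = s := by rw [hyz]; exact hzs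
    rcases h3 with ⟨i, hi⟩ | hb
    · right
      exact ⟨i, R1a_piece hxy ((pieceAt_iff hw1 hy h5).2 ⟨F, μ, h, h1, h4, hi⟩)⟩
    · left
      exact R1a_piece hxy ((pieceAt_iff hw1 hy h5).2 ⟨F, μ, h, h1, h4, hb⟩)
  -- step 3
  have hbt : ∀ x ∈ (w1.lt β).pts, bd t x := by
    intro x hx
    have htT : t ∈ (w1.val β x).T := by
      obtain ⟨y, hy, hxy⟩ := exists_point hx
      rw [← val_congr hxy]
      exact (ht1 y hy).1
    rcases hcov x hx t htT with h | ⟨i, F, σ, μ, hl, h1, h2, -, -, h5⟩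
    · exact h
    · exfalso
      obtain ⟨h6, h7⟩ := R1a_node hw1 hl h1
      rw [h2] at h7
      exact hbad t ht i a1 ha1 _ ((node_le hl).trans hw1w) h6 h7 h5
  -- step 4
  obtain ⟨b1, hb1, q1, hq1, hq1I, hq1LC⟩ := R1a_clopen hD a1 (lt_in w1 β)
    (J := (Bool × Fs) ⊕ Fs) (fun j => Sum.elim (fun p => gd p.1 p.2) bd j) (by
      rintro (⟨i, s⟩ | s)
      · exact hgO i s
      · exact hbO s)
  have hgLC : ∀ i s, LC q1 (gd i s) := fun i s => hq1LC (Sum.inl (i, s))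
  have hbLC : ∀ s, LC q1 (bd s) := fun s => hq1LC (Sum.inr s)
  -- step 5
  have hT : ∀ s, LC q1 fun x => s ∈ (w1.val β x).T := fun s => ((CQ_val_lt w1 β) s).1.mono hq1
  have hC : ∀ s, LC q1 fun x => s ∈ (w1.val β x).C := fun s => ((CQ_val_lt w1 β) s).2.mono hq1
  have hne : ∀ x ∈ q1.pts, ∀ c ∈ (w1.val β x).C, c.Nonempty := fun x hx c hc =>
    (isQ_lt (pts_mono hq1 hx)).large.1 c hc
  have hSel : ∀ S c, LC q1 fun x => c ∈ Sel (w1.val β x) (fun s => bd s x) S := by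
    intro S c
    exact R1a_and (LC.const _ _) (R1a_and
      (by
        have h := R1a_sub c (P := fun c0 x => c0 ∈ (w1.val β x).C) hC
        simpa only [and_comm] using h)
      (R1a_all S fun s => R1a_sub c fun f =>
        R1a_and (LC.const _ _) (R1a_and (hT (s ∪ f)) (hbLC (s ∪ f)))))
  have hNB : ∀ s c, LC q1 fun x => c ∈ NB (w1.val β x) (fun s => bd s x) s := by
    intro s c
    exact R1a_and (hC c) (R1a_not (R1a_sub c fun f =>
      R1a_and (LC.const _ _) (R1a_and (hT (s ∪ f)) (hbLC (s ∪ f)))))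
  have hGD : ∀ i s c, LC q1 fun x =>
      c ∈ GD (w1.val β x) (fun s => bd s x) (fun s => gd i s x) s := by
    intro i s c
    exact R1a_and (hNB s c) (R1a_sub c fun f =>
      R1a_and (LC.const _ _) (R1a_and (hT (s ∪ f)) (hgLC i (s ∪ f))))
  have hNN : ∀ s c, LC q1 fun x => c ∈ NN (w1.val β x) (fun s => bd s x) s := by
    intro s c
    exact R1a_and (hNB s c) (R1a_not (R1a_sub c fun f =>
      R1a_and (LC.const _ _) (hT (s ∪ f))))
  obtain ⟨a2, ha2, q2, hq2, hq2I, hq2LC⟩ := R1a_clopen hD b1 hq1I (J := R1aJ)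
    (fun j => Sum.elim
      (fun p x => MN (Sel (w1.val β x) (fun s => bd s x) p.1) p.2.1 p.2.2)
      (Sum.elim
        (fun p x => MN (Sel (w1.val β x) (fun s => bd s x) p.1 ∩ (w1.val β x).C) p.2.1 p.2.2)
        (Sum.elim
          (fun p x => MN (NB (w1.val β x) (fun s => bd s x) p.1 ∩ (w1.val β x).C) p.2.1 p.2.2)
          (Sum.elim
            (fun p x => MN (GD (w1.val β x) (fun s => bd s x) (fun s => gd p.1 s x) p.2.1 ∩
              NB (w1.val β x) (fun s => bd s x) p.2.1) p.2.2.1 p.2.2.2)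
            (fun p x => MN (NN (w1.val β x) (fun s => bd s x) p.1 ∩
              NB (w1.val β x) (fun s => bd s x) p.1) p.2.1 p.2.2)))) j) (by
      rintro (⟨S, m, n⟩ | ⟨S, m, n⟩ | ⟨s, m, n⟩ | ⟨i, s, m, n⟩ | ⟨s, m, n⟩)
      · exact MN_opn (hSel S) (fun x _ c hc => hc.1) m n
      · exact MN_opn (fun c => R1a_and (hSel S c) (hC c)) (fun x _ c hc => hc.1.1) m n
      · exact MN_opn (fun c => R1a_and (hNB s c) (hC c)) (fun x hx c hc => hne x hx c hc.2) m n
      · exact MN_opn (fun c => R1a_and (hGD i s c) (hNB s c))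
          (fun x hx c hc => hne x hx c hc.2.1) m n
      · exact MN_opn (fun c => R1a_and (hNN s c) (hNB s c))
          (fun x hx c hc => hne x hx c hc.2.1) m n)
  obtain ⟨w2, hw2, hw2A, hw2lt, hw2v⟩ := exists_over hw1 (hq2.trans hq1) hq2I
  have hq21 : q2 ≤ w1.lt β := hq2.trans hq1
  refine ⟨a1, a2, w1, w2, Mx, gd, bd, ha1, hw1w, ?_⟩
  exact
    { a := ha2.trans hb1
      w := hw2
      at1 := hw1
      at2 := hw2A
      root := ht1.over hw2 fun x _ => hw2v x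
      lcM := fun s => by rw [hw2lt]; exact (hMLC s).mono hq21
      lcg := fun i s => by rw [hw2lt]; exact (hgLC i s).mono hq2
      lcb := fun s => by rw [hw2lt]; exact (hbLC s).mono hq2
      ltM := fun s x hx => by rw [hw2lt] at hx; exact hltM s x (pts_mono hq21 hx)
      g := fun x _ i s h => h
      b := fun x _ s h => h
      cov := fun x hx s hs => by
        rw [hw2lt] at hx
        rw [hw2v] at hs
        exact hcov x (pts_mono hq21 hx) s hs
      bt := fun x hx => by rw [hw2lt] at hx; exact hbt x (pts_mono hq21 hx)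
      mn_sel := fun S m n => by
        simp only [hw2v, hw2lt]
        exact hq2LC (Sum.inl (S, m, n))
      mn_selC := fun S m n => by
        simp only [hw2v, hw2lt]
        exact hq2LC (Sum.inr (Sum.inl (S, m, n)))
      mn_nb := fun s m n => by
        simp only [hw2v, hw2lt]
        exact hq2LC (Sum.inr (Sum.inr (Sum.inl (s, m, n))))
      mn_gd := fun i s m n => by
        simp only [hw2v, hw2lt]
        exact hq2LC (Sum.inr (Sum.inr (Sum.inr (Sum.inl (i, s, m, n)))))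
      mn_nn := fun s m n => by
        simp only [hw2v, hw2lt]
        exact hq2LC (Sum.inr (Sum.inr (Sum.inr (Sum.inr (s, m, n))))) }

end E8
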