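import Pool.Agent.Lib.MP_e8be47_lc.VClop

/-!
# the selection fusion
-/

open Set Classical

set_option linter.unusedSectionVars false

namespace E8

variable {𝔸 : Type} [Tow 𝔸] {L : Type} [LinearOrder L] [WellFoundedLT L]

open Cond

/-- the sets that contain a member of `C` and in which every node of `S` has an extension
allowed by `G` -/
def Sel (R : QC) (G : Fs → Prop) (S : Finset Fs) : Set Fs :=
  {c | c.Nonempty ∧ (∃ c0 ∈ R.C, c0 ⊆ c) ∧ ∀ s ∈ S, ∃ f ⊆ c, Above s f ∧ s ∪ f ∈ R.T ∧ G (s ∪ f)}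

/-- the output of the selection fusion, at a point `x`: `R` is the old value, `R'` the new value -/
structure SelOut (R R' : QC) (t0 : Fs) (G : Fs → Prop) (nb : ℕ → ℕ) (g : Fs → ℕ) (m : ℕ → ℕ)
    (S E : ℕ → Finset Fs) : Prop where
  T : R'.T = ⋃ k, (S k : Set Fs)
  C : R'.C = ⋃ k, (E k : Set Fs)
  S0 : S 0 = {t0}
  mono : StrictMono m
  inv : ∀ k, Inv R'.T t0 (S k) (m k)
  allowed : ∀ s ∈ R'.T, s ≠ t0 → G s
  fl : ∀ k, FL k (E k)
  Em : ∀ k, ∀ c ∈ E k, ∀ j ∈ c, m k ≤ j ∧ j < m (k + 1)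
  ext : ∀ k, ∀ s ∈ S k, ∀ c ∈ E k, ∃ f ⊆ c, Above s f ∧ s ∪ f ∈ S (k + 1)
  born : ∀ k, ∀ t ∈ S (k + 1), t ∈ S k ∨ ∃ s ∈ S k, ∃ c ∈ E k, ∃ f ⊆ c, Above s f ∧ t = s ∪ f
  nb : ∀ z ∈ br R'.T, ∀ k, ∀ j ∈ z, m k ≤ j → nb (m k) ≤ j
  g : ∀ k, ∀ s ∈ S k, g s ≤ m k

/-- one step of the selection fusion at a point -/
private structure VSStep (R : QC) (G : Fs → Prop) (nb : ℕ → ℕ) (g : Fs → ℕ) (k : ℕ) (S : Finset Fs) (m : ℕ)
    (E S' : Finset Fs) (m' : ℕ) : Prop where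
  fl : FL k E
  em : ∀ c ∈ E, ∀ j ∈ c, m ≤ j ∧ j < m'
  en : ∀ c ∈ E, ∀ j ∈ c, nb m ≤ j
  ec : ∀ c ∈ E, ∃ c0 ∈ c.powerset, c0 ∈ R.C
  ss : S ⊆ S'
  born : ∀ t ∈ S', t ∈ S ∨ ((∃ s ∈ S, ∃ c ∈ E, ∃ f ⊆ c, Above s f ∧ t = s ∪ f) ∧ (t ∈ R.T ∧ G t))
  ext : ∀ s ∈ S, ∀ c ∈ E, ∃ f ⊆ c, Above s f ∧ s ∪ f ∈ S'
  lt : m < m'
  bd : ∀ t ∈ S', ∀ j ∈ t, j < m'
  gb : ∀ s ∈ S', g s ≤ m'

/-- validity of a state at a point -/
private structure VSVal (R : QC) (t0 : Fs) (G : Fs → Prop) (g : Fs → ℕ) (S : Finset Fs) (m : ℕ) : Prop where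
  rt : t0 ∈ S
  mem : ∀ s ∈ S, s ∈ R.T ∧ (s = t0 ∨ G s)
  bd : ∀ s ∈ S, ∀ j ∈ s, j < m
  gb : ∀ s ∈ S, g s ≤ m

private theorem VSStep.val {R : QC} {t0 : Fs} {G : Fs → Prop} {nb : ℕ → ℕ} {g : Fs → ℕ} {k : ℕ} {S : Finset Fs} {m : ℕ}
    {E S' : Finset Fs} {m' : ℕ} (h : VSStep R G nb g k S m E S' m') (hv : VSVal R t0 G g S m) :
    VSVal R t0 G g S' m' where
  rt := h.ss hv.rt
  mem := by
    intro s hs
    rcases h.born s hs with h1 | ⟨-, h1, h2⟩
    · exact hv.mem s h1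
    · exact ⟨h1, Or.inr h2⟩
  bd := h.bd
  gb := h.gb

private theorem VS_exists {R : QC} {G : Fs → Prop} {nb : ℕ → ℕ} {g : Fs → ℕ} {k : ℕ} {S : Finset Fs} {m : ℕ}
    (hL : Large (Sel R G S)) : ∃ E S' m', VSStep R G nb g k S m E S' m' := by
  obtain ⟨E, hE, hE2⟩ := hL.exists_finite k (max m (nb m))
  have hf : ∀ s c : Fs, ∃ f : Fs, (s ∈ S → c ∈ E → f ⊆ c ∧ Above s f ∧ s ∪ f ∈ R.T ∧ G (s ∪ f)) := by
    intro s c
    by_cases h : s ∈ S ∧ c ∈ E
    · obtain ⟨f, h1, h2, h3, h4⟩ := (hE2 c h.2).1.2.2 s h.1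
      exact ⟨f, fun _ _ => ⟨h1, h2, h3, h4⟩⟩
    · exact ⟨∅, fun h1 h2 => absurd ⟨h1, h2⟩ h⟩
  choose f hf using hf
  set S' : Finset Fs := S ∪ (S ×ˢ E).image (fun p => p.1 ∪ f p.1 p.2) with hS'
  set m' : ℕ := m + 1 + (E.sup fun c => c.sup Nat.succ) + (S'.sup fun c => c.sup Nat.succ) + S'.sup g with hm'
  have hmemS' : ∀ t ∈ S', t ∈ S ∨ ∃ s ∈ S, ∃ c ∈ E, t = s ∪ f s c := by
    intro t ht
    rw [hS', Finset.mem_union, Finset.mem_image] at ht
    rcases ht with ht | ⟨⟨s, c⟩, hsc, rfl⟩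
    · exact Or.inl ht
    · rw [Finset.mem_product] at hsc
      exact Or.inr ⟨s, hsc.1, c, hsc.2, rfl⟩
  have hin : ∀ s ∈ S, ∀ c ∈ E, s ∪ f s c ∈ S' := by
    intro s hs c hc
    rw [hS', Finset.mem_union, Finset.mem_image]
    exact Or.inr ⟨(s, c), Finset.mem_product.2 ⟨hs, hc⟩, rfl⟩
  refine ⟨E, S', m', ⟨hE, ?_, ?_, ?_, ?_, ?_, ?_, ?_, ?_, ?_⟩⟩
  · intro c hc j hj
    have h1 := (hE2 c hc).2 j hj
    have h2 : j < c.sup Nat.succ := lt_sup hj
    have h3 : c.sup Nat.succ ≤ E.sup fun c => c.sup Nat.succ := Finset.le_sup (f := fun c : Fs => c.sup Nat.succ) hc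
    exact ⟨(le_max_left _ _).trans h1, by omega⟩
  · intro c hc j hj
    exact (le_max_right _ _).trans ((hE2 c hc).2 j hj)
  · intro c hc
    obtain ⟨c0, h1, h2⟩ := (hE2 c hc).1.2.1
    exact ⟨c0, Finset.mem_powerset.2 h2, h1⟩
  · rw [hS']; exact Finset.subset_union_left
  · intro t ht
    rcases hmemS' t ht with h | ⟨s, hs, c, hc, rfl⟩
    · exact Or.inl h
    · obtain ⟨h1, h2, h3, h4⟩ := hf s c hs hc
      exact Or.inr ⟨⟨s, hs, c, hc, f s c, h1, h2, rfl⟩, h3, h4⟩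
  · intro s hs c hc
    obtain ⟨h1, h2, h3, h4⟩ := hf s c hs hc
    exact ⟨f s c, h1, h2, hin s hs c hc⟩
  · omega
  · intro t ht j hj
    have h2 : j < t.sup Nat.succ := lt_sup hj
    have h3 : t.sup Nat.succ ≤ S'.sup fun c => c.sup Nat.succ := Finset.le_sup (f := fun c : Fs => c.sup Nat.succ) ht
    omega
  · intro s hs
    have h3 : g s ≤ S'.sup g := Finset.le_sup hs
    omega

/-- the limit at a point -/
private theorem VS_limit {R : QC} {t0 : Fs} {G : Fs → Prop} {nb : ℕ → ℕ} {g : Fs → ℕ} (hnm : Monotone nb)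
    (hroot : IsRoot R.T t0) (m : ℕ → ℕ) (S E : ℕ → Finset Fs) (hS0 : S 0 = {t0})
    (hv : ∀ k, VSVal R t0 G g (S k) (m k))
    (hst : ∀ k, VSStep R G nb g k (S k) (m k) (E k) (S (k + 1)) (m (k + 1))) :
    SelOut R ⟨⋃ k, (S k : Set Fs), ⋃ k, (E k : Set Fs)⟩ t0 G nb g m S E ∧
    IsQ ⟨⋃ k, (S k : Set Fs), ⋃ k, (E k : Set Fs)⟩ ∧
    QLe ⟨⋃ k, (S k : Set Fs), ⋃ k, (E k : Set Fs)⟩ R ∧
    ∀ (s : Fs) (k : ℕ), (∀ j ∈ s, j < k) → ((s ∈ ⋃ k, (S k : Set Fs)) ↔ s ∈ S k) ∧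
      ((s ∈ ⋃ k, (E k : Set Fs)) ↔ ∃ i ∈ Finset.range k, s ∈ E i) := by
  have hmono : StrictMono m := strictMono_nat_of_lt_succ fun k => (hst k).lt
  have hkm : ∀ k, k ≤ m k := fun k => hmono.le_apply
  have hSS : ∀ k l, k ≤ l → S k ⊆ S l := by
    intro k l hkl
    induction l, hkl using Nat.le_induction with
    | base => exact Finset.Subset.refl _
    | succ l _ ih => exact ih.trans (hst l).ss
  have hborn : ∀ k, ∀ t ∈ S (k + 1), t ∈ S k ∨ ∃ s ∈ S k, ∃ c ∈ E k, ∃ f ⊆ c, Above s f ∧ t = s ∪ f := by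
    intro k t ht
    rcases (hst k).born t ht with h | ⟨h, -⟩
    · exact Or.inl h
    · exact Or.inr h
  have hback : ∀ k l, k ≤ l → ∀ t ∈ S l, (∀ j ∈ t, j < m k) → t ∈ S k := by
    intro k l hkl
    induction l, hkl using Nat.le_induction with
    | base => intro t ht _; exact ht
    | succ l hkl ih =>
      intro t ht hj
      rcases hborn l t ht with h | ⟨s, hs, c, hc, f, hf, hA, rfl⟩
      · exact ih t h hj
      · exfalso
        obtain ⟨j, hjf⟩ := hA.1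
        have h1 := ((hst l).em c hc j (hf hjf)).1
        have h2 := hj j (Finset.mem_union_right _ hjf)
        have h3 := hmono.monotone hkl
        omega
  have hcutle : ∀ k, ∀ t ∈ S k, cutF t (m k) = t := by
    intro k t ht
    ext j
    rw [mem_cutF]
    exact ⟨fun h => h.1, fun h => ⟨h, (hv k).bd t ht j h⟩⟩
  have hcut : ∀ k l, k ≤ l → ∀ t ∈ S l, cutF t (m k) ∈ S k := by
    intro k l hkl
    induction l, hkl using Nat.le_induction with
    | base => intro t ht; rw [hcutle k t ht]; exact ht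
    | succ l hkl ih =>
      intro t ht
      rcases hborn l t ht with h | ⟨s, hs, c, hc, f, hf, hA, rfl⟩
      · exact ih t h
      · have : cutF (s ∪ f) (m k) = cutF s (m k) := by
          ext j
          rw [mem_cutF, mem_cutF, Finset.mem_union]
          constructor
          · rintro ⟨h1 | h1, h2⟩
            · exact ⟨h1, h2⟩
            · exfalso
              have h3 := ((hst l).em c hc j (hf h1)).1
              have h4 := hmono.monotone hkl
              omega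
          · rintro ⟨h1, h2⟩
            exact ⟨Or.inl h1, h2⟩
        rw [this]
        exact ih s hs
  have hTR : ∀ k, ∀ t ∈ S k, t ∈ R.T := fun k t ht => ((hv k).mem t ht).1
  set R' : QC := ⟨⋃ k, (S k : Set Fs), ⋃ k, (E k : Set Fs)⟩ with hR'
  have hT' : ∀ t, t ∈ R'.T ↔ ∃ k, t ∈ S k := by
    intro t; simp [hR']
  have hC' : ∀ t, t ∈ R'.C ↔ ∃ k, t ∈ E k := by
    intro t; simp [hR']
  have hIroot : IsRoot R'.T t0 := by
    refine ⟨(hT' t0).2 ⟨0, by rw [hS0]; exact Finset.mem_singleton_self _⟩, ?_⟩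
    intro t ht
    obtain ⟨k, hk⟩ := (hT' t).1 ht
    exact hroot.2 t (hTR k t hk)
  have hinv : ∀ k, Inv R'.T t0 (S k) (m k) := by
    intro k
    refine ⟨hIroot, ?_, ?_⟩
    · intro t
      constructor
      · intro ht
        exact ⟨(hT' t).2 ⟨k, ht⟩, (hv k).bd t ht⟩
      · rintro ⟨ht, hj⟩
        obtain ⟨l, hl⟩ := (hT' t).1 ht
        rcases le_total k l with h | h
        · exact hback k l h t hl hj
        · exact hSS l k h hl
    · intro t ht
      obtain ⟨l, hl⟩ := (hT' t).1 ht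
      rcases le_total k l with h | h
      · exact hcut k l h t hl
      · have := hSS l k h hl
        rw [hcutle k t this]; exact this
  have hEl : ∀ k l, ∀ c ∈ E l, (∀ j ∈ c, m k ≤ j) → k ≤ l := by
    intro k l c hc hj
    by_contra hkl
    obtain ⟨j, hjc⟩ := (hst l).fl.1 c hc
    have h1 := ((hst l).em c hc j hjc).2
    have h2 := hj j hjc
    have h3 : m (l + 1) ≤ m k := hmono.monotone (by omega)
    omega
  have hQ : IsQ R' := by
    refine ⟨⟨t0, hIroot⟩, ?_, ?_⟩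
    · apply large_of_finite
      · intro c hc
        obtain ⟨k, hk⟩ := (hC' c).1 hc
        exact (hst k).fl.1 c hk
      · intro a n
        refine ⟨E (max a n), ((hst (max a n)).fl).mono (le_max_left _ _), ?_⟩
        intro c hc
        refine ⟨(hC' c).2 ⟨_, hc⟩, ?_⟩
        intro j hj
        have h1 := ((hst (max a n)).em c hc j hj).1
        have h2 := hkm (max a n)
        have h3 : n ≤ max a n := le_max_right _ _
        omega
    · intro s hs
      obtain ⟨k, hk⟩ := (hT' s).1 hs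
      refine ⟨m k, ?_⟩
      intro c hc hj
      obtain ⟨l, hl⟩ := (hC' c).1 hc
      have hkl := hEl k l c hl hj
      obtain ⟨f, h1, h2, h3⟩ := (hst l).ext s (hSS k l hkl hk) c hl
      exact ⟨f, h1, h2, (hT' _).2 ⟨l + 1, h3⟩⟩
  refine ⟨⟨rfl, rfl, hS0, hmono, hinv, ?_, fun k => (hst k).fl, fun k => (hst k).em, fun k => (hst k).ext, hborn,
    ?_, fun k => (hv k).gb⟩, hQ, ⟨?_, 0, ?_⟩, ?_⟩
  · intro s hs hne
    obtain ⟨k, hk⟩ := (hT' s).1 hs
    rcases ((hv k).mem s hk).2 with h | h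
    · exact absurd h hne
    · exact h
  · have key : ∀ k l, ∀ t ∈ S l, ∀ j ∈ t, m k ≤ j → nb (m k) ≤ j := by
      intro k l
      induction l with
      | zero =>
        intro t ht j hj hmj
        have h1 := (hv 0).bd t ht j hj
        have h2 := hmono.monotone (Nat.zero_le k)
        omega
      | succ l ih =>
        intro t ht j hj hmj
        rcases hborn l t ht with h | ⟨s, hs, c, hc, f, hf, hA, rfl⟩
        · exact ih t h j hj hmj
        · rcases Finset.mem_union.1 hj with h | h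
          · exact ih s hs j h hmj
          · have h1 := (hst l).en c hc j (hf h)
            have h2 := ((hst l).em c hc j (hf h)).2
            have h3 : m k < m (l + 1) := by omega
            have h4 : k < l + 1 := hmono.lt_iff_lt.1 h3
            have h5 : m k ≤ m l := hmono.monotone (by omega)
            exact (hnm h5).trans h1
    intro z hz k j hj hmj
    obtain ⟨M, hM, hcz⟩ := exists_cut_mem hz (j + 1)
    obtain ⟨l, hl⟩ := (hT' _).1 hcz
    exact key k l _ hl j (mem_cut.2 ⟨by omega, hj⟩) hmj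
  · intro t ht
    obtain ⟨k, hk⟩ := (hT' t).1 ht
    exact hTR k t hk
  · intro c hc _
    obtain ⟨k, hk⟩ := (hC' c).1 hc
    obtain ⟨c0, h1, h2⟩ := (hst k).ec c hk
    exact ⟨c0, h2, Finset.mem_powerset.1 h1⟩
  · intro s k hk
    constructor
    · constructor
      · intro h
        obtain ⟨l, hl⟩ := (hT' s).1 h
        exact ((hinv k).mem s).2 ⟨h, fun j hj => lt_of_lt_of_le (hk j hj) (hkm k)⟩
      · intro h
        exact (hT' s).2 ⟨k, h⟩
    · constructor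
      · intro h
        obtain ⟨l, hl⟩ := (hC' s).1 h
        refine ⟨l, ?_, hl⟩
        rw [Finset.mem_range]
        obtain ⟨j, hjc⟩ := (hst l).fl.1 s hl
        have h1 := ((hst l).em s hl j hjc).1
        have h2 := hk j hjc
        have h3 := hkm l
        omega
      · rintro ⟨i, -, hi⟩
        exact (hC' s).2 ⟨i, hi⟩

private theorem VS_and {q : Cond L} {P Q : Pt L → Prop} (hP : LC q P) (hQ : LC q Q) : LC q (fun x => P x ∧ Q x) :=
  hP.comp₂ hQ (fun a b => a ∧ b)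

private theorem VS_or {q : Cond L} {P Q : Pt L → Prop} (hP : LC q P) (hQ : LC q Q) : LC q (fun x => P x ∨ Q x) :=
  hP.comp₂ hQ (fun a b => a ∨ b)

private theorem VS_all {ι : Type} {q : Cond L} {P : ι → Pt L → Prop} (hP : ∀ i, LC q (P i)) (I : Finset ι) :
    LC q (fun x => ∀ i ∈ I, P i x) := by
  intro x hx
  obtain ⟨F, m, h, hc⟩ := LC.finite P hP I hx
  refine ⟨F, m, h, fun y hy => ?_⟩
  apply propext
  constructor
  · intro H i hi
    rw [← hc i hi y hy]; exact H i hi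
  · intro H i hi
    rw [hc i hi y hy]; exact H i hi

private theorem VS_ex {ι : Type} {q : Cond L} {P : ι → Pt L → Prop} (hP : ∀ i, LC q (P i)) (I : Finset ι) :
    LC q (fun x => ∃ i ∈ I, P i x) := by
  intro x hx
  obtain ⟨F, m, h, hc⟩ := LC.finite P hP I hx
  refine ⟨F, m, h, fun y hy => ?_⟩
  apply propext
  constructor
  · rintro ⟨i, hi, H⟩
    exact ⟨i, hi, by rw [← hc i hi y hy]; exact H⟩
  · rintro ⟨i, hi, H⟩
    exact ⟨i, hi, by rw [hc i hi y hy]; exact H⟩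

private theorem VS_lc {q : Cond L} {R : Pt L → QC} (hR : CQ q R) {G : Fs → Pt L → Prop} (hG : ∀ s, LC q (G s))
    {nb : ℕ → Pt L → ℕ} (hnb : ∀ n, LC q (nb n)) {g : Fs → Pt L → ℕ} (hg : ∀ s, LC q (g s))
    (k : ℕ) (S : Finset Fs) (m : ℕ) (E S' : Finset Fs) (m' : ℕ) :
    LC q (fun x => VSStep (R x) (fun s => G s x) (fun n => nb n x) (fun s => g s x) k S m E S' m') := by
  have h1 : LC q (fun _ : Pt L => FL k E ∧ (∀ c ∈ E, ∀ j ∈ c, m ≤ j ∧ j < m') ∧ S ⊆ S' ∧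
      (∀ s ∈ S, ∀ c ∈ E, ∃ f ⊆ c, Above s f ∧ s ∪ f ∈ S') ∧ m < m' ∧ (∀ t ∈ S', ∀ j ∈ t, j < m')) :=
    LC.const q _
  have h2 : LC q (fun x => ∀ c ∈ E, ∀ j ∈ c, nb m x ≤ j) :=
    VS_all (fun c => VS_all (fun j => (hnb m).comp (fun n => n ≤ j)) c) E
  have h3 : LC q (fun x => ∀ c ∈ E, ∃ c0 ∈ c.powerset, c0 ∈ (R x).C) :=
    VS_all (fun c => VS_ex (fun c0 => (hR c0).2) c.powerset) E
  have h4 : LC q (fun x => ∀ t ∈ S', t ∈ S ∨ ((∃ s ∈ S, ∃ c ∈ E, ∃ f ⊆ c, Above s f ∧ t = s ∪ f) ∧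
      (t ∈ (R x).T ∧ G t x))) :=
    VS_all (fun t => VS_or (LC.const q _) (VS_and (LC.const q _) (VS_and (hR t).1 (hG t)))) S'
  have h5 : LC q (fun x => ∀ s ∈ S', g s x ≤ m') :=
    VS_all (fun s => (hg s).comp (fun n => n ≤ m')) S'
  have h := VS_and h1 (VS_and h2 (VS_and h3 (VS_and h4 h5)))
  have e : (fun x => VSStep (R x) (fun s => G s x) (fun n => nb n x) (fun s => g s x) k S m E S' m') =
      fun x => (FL k E ∧ (∀ c ∈ E, ∀ j ∈ c, m ≤ j ∧ j < m') ∧ S ⊆ S' ∧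
      (∀ s ∈ S, ∀ c ∈ E, ∃ f ⊆ c, Above s f ∧ s ∪ f ∈ S') ∧ m < m' ∧ (∀ t ∈ S', ∀ j ∈ t, j < m')) ∧
      (∀ c ∈ E, ∀ j ∈ c, nb m x ≤ j) ∧ (∀ c ∈ E, ∃ c0 ∈ c.powerset, c0 ∈ (R x).C) ∧
      (∀ t ∈ S', t ∈ S ∨ ((∃ s ∈ S, ∃ c ∈ E, ∃ f ⊆ c, Above s f ∧ t = s ∪ f) ∧
      (t ∈ (R x).T ∧ G t x))) ∧ (∀ s ∈ S', g s x ≤ m') := by
    ext x
    constructor
    · intro H
      exact ⟨⟨H.fl, H.em, H.ss, H.ext, H.lt, H.bd⟩, H.en, H.ec, H.born, H.gb⟩
    · rintro ⟨⟨a1, a2, a3, a4, a5, a6⟩, a7, a8, a9, a10⟩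
      exact ⟨a1, a2, a7, a8, a3, a9, a4, a5, a6, a10⟩
  rw [e]
  exact h

/-- SELECTION FUSION: no extension of the part below `β` is needed; all choices are the first
possible ones in an enumeration, hence locally constant. -/
theorem selection_fusion {β : L} {w : Cond L} (hw : At β w) {t0 : Fs} (hr : Root β w t0)
    (G : Fs → Pt L → Prop) (hG : ∀ s, LC (w.lt β) (G s))
    (nb : ℕ → Pt L → ℕ) (hnb : ∀ n, LC (w.lt β) (nb n))
    (hnm : ∀ x ∈ w.pts, Monotone fun n => nb n x)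
    (g : Fs → Pt L → ℕ) (hg : ∀ s, LC (w.lt β) (g s))
    (hS : ∀ x ∈ w.pts, ∀ S : Finset Fs, (∀ s ∈ S, s ∈ (w.val β x).T ∧ (s = t0 ∨ G s x)) →
      Large (Sel (w.val β x) (fun s => G s x) S)) :
    ∃ w' ≤ w, At β w' ∧ Root β w' t0 ∧ w'.lt β = w.lt β ∧ ∃ m : ℕ → Pt L → ℕ,
      ∃ S E : ℕ → Pt L → Finset Fs, (∀ k, LC (w.lt β) (m k)) ∧ (∀ k, LC (w.lt β) (S k)) ∧
        (∀ k, LC (w.lt β) (E k)) ∧ ∀ x ∈ w'.pts, SelOut (w.val β x) (w'.val β x) t0
          (fun s => G s x) (fun n => nb n x) (fun s => g s x) (fun k => m k x)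
          (fun k => S k x) (fun k => E k x) := by
  set q := w.lt β with hq
  have hqI : q.In (Iio β) := lt_in w β
  -- transfer to points of `q`
  have htr : ∀ x ∈ q.pts, ∃ y ∈ w.pts, w.val β y = w.val β x ∧ (∀ s, G s y = G s x) ∧ (∀ n, nb n y = nb n x) := by
    intro x hx
    obtain ⟨y, hy, hyx⟩ := exists_point hx
    have hyq : y ∈ q.pts := mem_lt hy β
    have hs : ∀ ξ ∈ q.supp, y ξ = x ξ := fun ξ hξ => hyx ξ (hqI hξ)
    exact ⟨y, hy, val_congr hyx, fun s => (hG s).dep hx hyq hs, fun n => (hnb n).dep hx hyq hs⟩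
  have hrq : ∀ x ∈ q.pts, IsRoot (w.val β x).T t0 := by
    intro x hx
    obtain ⟨y, hy, h1, -, -⟩ := htr x hx
    rw [← h1]; exact hr y hy
  have hnmq : ∀ x ∈ q.pts, Monotone fun n => nb n x := by
    intro x hx
    obtain ⟨y, hy, -, -, h3⟩ := htr x hx
    have := hnm y hy
    simp only [h3] at this
    exact this
  have hSq : ∀ x ∈ q.pts, ∀ S : Finset Fs, (∀ s ∈ S, s ∈ (w.val β x).T ∧ (s = t0 ∨ G s x)) →
      Large (Sel (w.val β x) (fun s => G s x) S) := by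
    intro x hx
    obtain ⟨y, hy, h1, h2, -⟩ := htr x hx
    have := hS y hy
    simp only [h1, h2] at this
    exact this
  have hCQ : CQ q (w.val β) := CQ_val_lt w β
  -- one step
  have hstep : ∀ (k : ℕ) (σ : Pt L → Finset Fs × ℕ), (LC q σ ∧ ∀ x ∈ q.pts, VSVal (w.val β x) t0 (fun s => G s x)
      (fun s => g s x) (σ x).1 (σ x).2) → ∃ τ : Pt L → Finset Fs × Finset Fs × ℕ, LC q τ ∧
      (∀ x ∈ q.pts, VSStep (w.val β x) (fun s => G s x) (fun n => nb n x) (fun s => g s x) k (σ x).1 (σ x).2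
        (τ x).1 (τ x).2.1 (τ x).2.2) ∧
      (LC q (fun x => (τ x).2) ∧ ∀ x ∈ q.pts, VSVal (w.val β x) t0 (fun s => G s x)
      (fun s => g s x) (τ x).2.1 (τ x).2.2) := by
    rintro k σ ⟨hσ, hσv⟩
    obtain ⟨dec, hdec⟩ := exists_surjective_nat (Finset Fs × Finset Fs × ℕ)
    obtain ⟨f, hf1, hf2, -⟩ := LC.find (q := q)
      (fun n x => VSStep (w.val β x) (fun s => G s x) (fun n => nb n x) (fun s => g s x) k (σ x).1 (σ x).2
        (dec n).1 (dec n).2.1 (dec n).2.2)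
      (fun n => LC.bind hσ (fun a x => VSStep (w.val β x) (fun s => G s x) (fun n => nb n x) (fun s => g s x) k a.1 a.2
        (dec n).1 (dec n).2.1 (dec n).2.2) (fun a => VS_lc hCQ hG hnb hg k a.1 a.2 _ _ _))
      (by
        intro x hx
        have hL := hSq x hx (σ x).1 (hσv x hx).mem
        obtain ⟨E, S', m', h⟩ := VS_exists (nb := fun n => nb n x) (g := fun s => g s x) (k := k) (m := (σ x).2) hL
        obtain ⟨n, hn⟩ := hdec (E, S', m')
        exact ⟨n, by rw [hn]; exact h⟩)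
    refine ⟨fun x => dec (f x), hf1.comp dec, hf2, hf1.comp (fun n => (dec n).2), ?_⟩
    intro x hx
    exact (hf2 x hx).val (hσv x hx)
  choose T hT using hstep
  have h0 : LC q (fun x => (({t0} : Finset Fs), max (t0.sup Nat.succ) (g t0 x))) ∧ ∀ x ∈ q.pts,
      VSVal (w.val β x) t0 (fun s => G s x) (fun s => g s x) ({t0} : Finset Fs) (max (t0.sup Nat.succ) (g t0 x)) := by
    refine ⟨(hg t0).comp (fun n => (({t0} : Finset Fs), max (t0.sup Nat.succ) n)), ?_⟩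
    intro x hx
    refine ⟨Finset.mem_singleton_self _, ?_, ?_, ?_⟩
    · intro s hs
      rw [Finset.mem_singleton] at hs
      subst hs
      exact ⟨(hrq x hx).1, Or.inl rfl⟩
    · intro s hs j hj
      rw [Finset.mem_singleton] at hs
      subst hs
      exact lt_of_lt_of_le (lt_sup hj) (le_max_left _ _)
    · intro s hs
      rw [Finset.mem_singleton] at hs
      subst hs
      exact le_max_right _ _
  let P : (Pt L → Finset Fs × ℕ) → Prop := fun σ => LC q σ ∧ ∀ x ∈ q.pts, VSVal (w.val β x) t0 (fun s => G s x)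
      (fun s => g s x) (σ x).1 (σ x).2
  let seq : ℕ → {σ : Pt L → Finset Fs × ℕ // P σ} := fun n => Nat.rec
    (motive := fun _ => {σ : Pt L → Finset Fs × ℕ // P σ})
    ⟨fun x => (({t0} : Finset Fs), max (t0.sup Nat.succ) (g t0 x)), h0⟩
    (fun k s => ⟨fun x => (T k s.1 s.2 x).2, (hT k s.1 s.2).2.2⟩) n
  have hseq : ∀ k x, (seq (k + 1)).1 x = (T k (seq k).1 (seq k).2 x).2 := fun k x => rfl
  set m : ℕ → Pt L → ℕ := fun k x => ((seq k).1 x).2 with hm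
  set S : ℕ → Pt L → Finset Fs := fun k x => ((seq k).1 x).1 with hSd
  set E : ℕ → Pt L → Finset Fs := fun k x => (T k (seq k).1 (seq k).2 x).1 with hE
  have hmLC : ∀ k, LC q (m k) := fun k => ((seq k).2.1).comp Prod.snd
  have hSLC : ∀ k, LC q (S k) := fun k => ((seq k).2.1).comp Prod.fst
  have hELC : ∀ k, LC q (E k) := fun k => ((hT k (seq k).1 (seq k).2).1).comp Prod.fst
  have hlim : ∀ x ∈ q.pts, _ := fun x hx => VS_limit (hnmq x hx) (hrq x hx) (fun k => m k x) (fun k => S k x)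
    (fun k => E k x) rfl (fun k => (seq k).2.2 x hx) (fun k => (hT k (seq k).1 (seq k).2).2.1 x hx)
  set R : Pt L → QC := fun x => ⟨⋃ k, (S k x : Set Fs), ⋃ k, (E k x : Set Fs)⟩ with hR
  have hRCQ : CQ q R := by
    intro s
    have hb : ∀ j ∈ s, j < s.sup Nat.succ := fun j hj => lt_sup hj
    constructor
    · intro x hx
      obtain ⟨F, μ, hl, hc⟩ := ((hSLC (s.sup Nat.succ)).comp (fun A => s ∈ A)) x hx
      refine ⟨F, μ, hl, fun y hy => ?_⟩
      have hyq : y ∈ q.pts := pts_mono (at_le hl) hy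
      have e1 := propext ((hlim x hx).2.2.2 s _ hb).1
      have e2 := propext ((hlim y hyq).2.2.2 s _ hb).1
      show (s ∈ ⋃ k, (S k y : Set Fs)) = (s ∈ ⋃ k, (S k x : Set Fs))
      rw [e1, e2]
      exact hc y hy
    · intro x hx
      obtain ⟨F, μ, hl, hc⟩ := (VS_ex (q := q) (P := fun i x => s ∈ E i x)
        (fun i => (hELC i).comp (fun A => s ∈ A)) (Finset.range (s.sup Nat.succ))) x hx
      refine ⟨F, μ, hl, fun y hy => ?_⟩
      have hyq : y ∈ q.pts := pts_mono (at_le hl) hy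
      have e1 := propext ((hlim x hx).2.2.2 s _ hb).2
      have e2 := propext ((hlim y hyq).2.2.2 s _ hb).2
      show (s ∈ ⋃ k, (E k y : Set Fs)) = (s ∈ ⋃ k, (E k x : Set Fs))
      rw [e1, e2]
      exact hc y hy
  obtain ⟨w', hw'le, hAt, hlt, hval⟩ := exists_val hw (le_refl q) hqI R hRCQ (fun x hx => (hlim x hx).2.1)
    (fun x hx => (hlim x hx).2.2.1)
  have hpq : ∀ x ∈ w'.pts, x ∈ q.pts := by
    intro x hx
    have := mem_lt hx β
    rwa [hlt] at this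
  refine ⟨w', hw'le, hAt, ?_, hlt, m, S, E, hmLC, hSLC, hELC, ?_⟩
  · intro x hx
    rw [hval x (hpq x hx)]
    exact ((hlim x (hpq x hx)).1.inv 0).root
  · intro x hx
    rw [hval x (hpq x hx)]
    exact (hlim x (hpq x hx)).1

end E8
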