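import Pool.Agent.Lib.MP_e8be47_lc.VInt
import Pool.Agent.Lib.MP_e8be47_lc.VDec
import Pool.Agent.Lib.MP_e8be47_lc.VEnd

/-!
# no splitting reals, successor step
-/

open Set Classical

set_option linter.unusedSectionVars false

namespace E8

variable {𝔸 : Type} [Tow 𝔸] {L : Type} [LinearOrder L] [WellFoundedLT L]

open Cond

theorem ssp_succ {β : L} (hD : DCP 𝔸 (Iio β)) (hS : SSP (Iio β)) : SSP (Iic β) := by
  intro u hu Y hY W hW
  have hpA : At β (u.pad β) := by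
    refine ⟨?_, mem_insert _ _⟩
    rintro ξ (rfl | h)
    · exact le_refl _
    · exact hu h
  obtain ⟨x0, hx0⟩ := pts_nonempty ((u.pad β).lt β)
  obtain ⟨y, hy, hyx, F, μ, hl, t, hβF, hroot, -⟩ := exists_root hpA hx0
  have hwu : (u.pad β).at' y F μ hl ≤ u := (at_le hl).trans (pad_le u β)
  have hwA : At β ((u.pad β).at' y F μ hl) := ⟨at_in hpA.le hl, hpA.mem⟩
  obtain ⟨a, ha⟩ := Tow.start (𝔸 := 𝔸) W hW
  obtain ⟨a1, ha1, w1, hw1, hw1A, hw1r, M, Ys, hM, hYs, hI⟩ :=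
    int_lemma hD a hwA hroot (Y := Y) fun j => (hY j).mono hwu
  obtain ⟨e, he⟩ := exists_surjective_nat Fs
  obtain ⟨a2, ha2, q, hq, hqI, col, g, hcol, hg, hdec⟩ :=
    decide_all hD hS a1 (lt_in w1 β) (fun i => Ys (e i)) fun i => hYs (e i)
  choose r hr using he
  obtain ⟨w2, hw2, hw2A, hw2q, hw2v⟩ := exists_over hw1A hq hqI
  have hr2 : Root β w2 t := hw1r.over hw2 fun x _ => hw2v x
  obtain ⟨a3, ha3, w3, hw3, hw3A, t', hr3, i, hsel⟩ :=
    homog_dichotomy hD a2 hw2A hr2 (fun s => col (r s)) fun s => by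
      rw [hw2q]
      exact hcol (r s)
  have h3q : w3.lt β ≤ q := by
    rw [← hw2q]
    exact restr_mono hw3
  have h31 : w3.lt β ≤ w1.lt β := h3q.trans hq
  have h3w1 : w3 ≤ w1 := hw3.trans hw2
  have hV : (Tow.top a2 ∩ W).Infinite := by
    intro hf
    refine Tow.top_inf a2 ((hf.union ((Tow.top_mono a a2 (ha2.trans ha1)).union ha)).subset ?_)
    intro j hj
    by_cases h : j ∈ W
    · exact Or.inl ⟨hj, h⟩
    · by_cases h' : j ∈ Tow.top a
      · exact Or.inr (Or.inr ⟨h', h⟩)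
      · exact Or.inr (Or.inl ⟨hj, h'⟩)
  obtain ⟨w4, hw4, hw4A, V', hV', hV'i, h4⟩ := end_succ hS hw3A hr3 (Y := Y) (M := M) (Ys := Ys)
    (fun k => (hM k).mono h31) (fun x hx => (hI x (pts_mono h3w1 hx)).1)
    (fun x hx k j hj => (hI x (pts_mono h3w1 hx)).2.2 k j hj)
    (col := fun s => col (r s)) (fun s => (hcol (r s)).mono h3q)
    (g := fun s => g (r s)) (fun s => (hg (r s)).mono h3q) hV
    (fun x hx s _ j hj hgj => by
      have := hdec x (pts_mono h3q (mem_lt hx β)) (r s) j hj.1 hgj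
      rwa [hr s] at this)
    hsel
  exact ⟨w4, hw4.trans (h3w1.trans (hw1.trans hwu)), hw4A.le, V', fun j hj => (hV' hj).2, hV'i, i,
    h4⟩

end E8
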