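import Mathlib

/-!
# Abstract hypotheses on a notion of forcing `P` and a well-order `L` of type `(2^ℵ₀)⁺`
-/

open Set Classical Cardinal

namespace E8

/-- a name of a subset of `ℕ`: `N j p` says that `p` forces `j` into it -/
structure RName (P : Type) [Preorder P] where
  N : ℕ → P → Prop
  mono : ∀ j p q, q ≤ p → N j p → N j q

namespace RName

variable {P : Type} [Preorder P]

/-- `p` forces `j ∈ τ` -/
def In (τ : RName P) (j : ℕ) (p : P) : Prop := ∀ q ≤ p, ∃ r ≤ q, τ.N j r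

/-- `p` forces `j ∉ τ` -/
def Out (τ : RName P) (j : ℕ) (p : P) : Prop := ∀ q ≤ p, ¬ τ.N j q

theorem In.mono {τ : RName P} {j : ℕ} {p q : P} (h : τ.In j p) (hq : q ≤ p) : τ.In j q :=
  fun r hr => h r (hr.trans hq)

theorem Out.mono {τ : RName P} {j : ℕ} {p q : P} (h : τ.Out j p) (hq : q ≤ p) : τ.Out j q :=
  fun r hr => h r (hr.trans hq)

theorem In.of {τ : RName P} {j : ℕ} {p : P} (h : τ.N j p) : τ.In j p :=
  fun q hq => ⟨q, le_rfl, τ.mono j p q hq h⟩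

theorem In.not_out {τ : RName P} {j : ℕ} {p : P} (h : τ.In j p) (h' : τ.Out j p) : False := by
  obtain ⟨r, hr, h1⟩ := h p le_rfl
  exact h' r hr h1

/-- `p` decides `j ∈ τ` with value `ε` -/
def Is (τ : RName P) (j : ℕ) (ε : Bool) (p : P) : Prop :=
  (ε = true → τ.In j p) ∧ (ε = false → τ.Out j p)

theorem Is.mono {τ : RName P} {j : ℕ} {ε : Bool} {p q : P} (h : τ.Is j ε p) (hq : q ≤ p) :
    τ.Is j ε q := ⟨fun h' => (h.1 h').mono hq, fun h' => (h.2 h').mono hq⟩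

end RName

/-- the order `L`: a well-order of type `(2^ℵ₀)⁺` with the elements `ω` and `ω₁` marked -/
class Len (L : Type) [LinearOrder L] where
  bdd : ∀ A : Set L, #A ≤ 𝔠 → ∃ δ, ∀ a ∈ A, a < δ
  small : ∀ δ : L, #(Iio δ) ≤ 𝔠
  card : #L = Order.succ 𝔠
  nt : ℕ → L
  o0 : L
  o1 : L
  nt_mono : StrictMono nt
  nt_range : ∀ x, x < o0 ↔ ∃ n, x = nt n
  o1_card : #(Iio o1) = ℵ₁
  o1_small : ∀ x < o1, (Iio x).Countable

/-- what is needed of the forcing -/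
structure Hyp (P L : Type) [Preorder P] [LinearOrder L] : Prop where
  /-- countable covering -/
  cov : ∀ (X : Type) (D : ℕ → P → X → Prop), (∀ n p q x, q ≤ p → D n p x → D n q x) →
    (∀ n p, ∃ q ≤ p, ∃ x, D n q x) → ∀ p, ∃ q ≤ p, ∃ Xn : ℕ → Set X, (∀ n, (Xn n).Countable) ∧
      ∀ n, ∀ r ≤ q, ∃ r' ≤ r, ∃ x ∈ Xn n, D n r' x
  /-- chain condition -/
  chain : ∀ f : L → P, ∃ i j, i ≠ j ∧ ∃ r, r ≤ f i ∧ r ≤ f j
  /-- the continuum of the ground model is collapsed to `ℵ₁` -/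
  col : ∃ (O : Type) (cd : P → O → Set ℕ → Prop), #O ≤ ℵ₁ ∧
    (∀ p q α B, q ≤ p → cd p α B → cd q α B) ∧
    (∀ p α B B', cd p α B → cd p α B' → B = B') ∧ ∀ p B, ∃ q ≤ p, ∃ α, cd q α B
  /-- there are at most `#L` reals -/
  surj : ∃ ρ : L → RName P, ∀ (τ : RName P) p, ∃ q ≤ p, ∃ ξ, ∀ j, ∀ r ≤ q,
    ((ρ ξ).In j r ↔ τ.In j r)
  /-- there are at least `#L` reals -/
  inj : ∃ χ : L → RName P, ∀ ξ η, ξ ≠ η → ∀ p, ∃ q ≤ p, ∃ j, ∃ ε : Bool,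
    (χ ξ).Is j ε q ∧ (χ η).Is j (!ε) q
  /-- families of `ℵ₁` reals are not splitting -/
  uns : ∀ (I : Type), #I ≤ ℵ₁ → ∀ τ : I → RName P, ∃ β : RName P,
    (∀ m p, ∃ q ≤ p, ∃ j ≥ m, β.N j q) ∧
    ∀ i p, ∃ q ≤ p, ∃ m, ∃ ε : Bool, ∀ j ≥ m, ∀ r ≤ q, β.N j r → (τ i).Is j ε r
  /-- the reals of the ground model are a reaping family -/
  reap : ∀ (τ : RName P) p, ∃ q ≤ p, ∃ B : Set ℕ, B.Infinite ∧ ∃ ε : Bool, ∀ j ∈ B, τ.Is j ε q

end E8
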