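import Pool.Agent.Lib.MP_e8be47_lc.WCodes
import Pool.Agent.Lib.MP_e8be47_lc.XHyp

/-!
# the chain condition
-/

open Set Classical Cardinal

set_option linter.unusedSectionVars false

namespace E8

variable {𝔸 : Type} [Tow 𝔸] {L : Type} [LinearOrder L] [WellFoundedLT L]

open Cond

/-- one step: all conditions are represented below a bound -/
theorem W3_step [Len L] {Z : Type} (cA : 𝔸 → Z) (hZ : #Z ≤ 𝔠)
    (hcA : ∀ a b, cA a = cA b → a ≤ b) (f : L → 𝔸 × Cond L) (δ : L) :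
    ∃ δ', δ < δ' ∧ ∀ i, ∃ j, j < δ' ∧ (f j).2.In (Iio δ') ∧ (f j).1 ≤ (f i).1 ∧
      (f j).2.lt δ ≤ (f i).2.lt δ := by
  obtain ⟨Z', c, hZ', hc⟩ := codes (L := L) (Λ := Iio δ) (Len.small δ)
  let g : L → Z × Z' := fun i => (cA (f i).1, c ((f i).2.lt δ))
  have hg : #(range g) ≤ 𝔠 := by
    refine (mk_set_le _).trans ?_
    rw [mk_prod, lift_id, lift_id]
    exact (mul_le_mul' hZ hZ').trans (le_of_eq continuum_mul_self)
  have hsec : ∀ z : range g, ∃ j, g j = z.1 := fun z => z.2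
  choose sec hs using hsec
  let B : range g → Set L := fun z => insert δ (insert (sec z) (f (sec z)).2.supp)
  have hB : ∀ z, #(B z) ≤ ℵ₀ := fun z =>
    Set.Countable.le_aleph0 (((f (sec z)).2.csupp.insert _).insert _)
  have hA : #(⋃ z, B z) ≤ 𝔠 := by
    refine (mk_iUnion_le B).trans ?_
    refine (mul_le_mul' hg ((ciSup_le' hB).trans aleph0_le_continuum)).trans ?_
    exact le_of_eq continuum_mul_self
  obtain ⟨δ', hδ'⟩ := Len.bdd (⋃ z, B z) hA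
  refine ⟨δ', hδ' δ (mem_iUnion.2 ⟨⟨g δ, δ, rfl⟩, mem_insert _ _⟩), fun i => ?_⟩
  have hz : g (sec ⟨g i, i, rfl⟩) = g i := hs ⟨g i, i, rfl⟩
  refine ⟨sec ⟨g i, i, rfl⟩, hδ' _ (mem_iUnion.2 ⟨⟨g i, i, rfl⟩,
    mem_insert_of_mem _ (mem_insert _ _)⟩), fun ξ hξ => hδ' ξ (mem_iUnion.2 ⟨⟨g i, i, rfl⟩,
    mem_insert_of_mem _ (mem_insert_of_mem _ hξ)⟩), hcA _ _ (congrArg Prod.fst hz),
    hc _ _ (lt_in _ δ) (lt_in _ δ) (congrArg Prod.snd hz)⟩

/-- countable subsets of `Iio ω₁` are bounded -/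
theorem W3_bdd [Len L] (S : Set L) (hS : S.Countable) (h : ∀ x ∈ S, x < Len.o1) :
    ∃ y, y < (Len.o1 : L) ∧ ∀ x ∈ S, x < y := by
  by_contra hn
  have h1 : Iio (Len.o1 : L) ⊆ ⋃ x ∈ S, insert x (Iio x) := by
    intro y hy
    by_contra hy'
    refine hn ⟨y, hy, fun x hx => ?_⟩
    by_contra hxy
    refine hy' (mem_iUnion₂.2 ⟨x, hx, ?_⟩)
    rcases (not_lt.1 hxy).eq_or_lt with h2 | h2
    · exact Or.inl h2
    · exact Or.inr h2
  have h2 : (Iio (Len.o1 : L)).Countable :=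
    (hS.biUnion fun x hx => (Len.o1_small x (h x hx)).insert x).mono h1
  have h3 := h2.le_aleph0
  rw [Len.o1_card] at h3
  exact absurd h3 (not_le.2 aleph0_lt_aleph_one)

/-- the sequence of bounds -/
theorem W3_seq [Len L] (F : L → L) : ∃ d : L → L, ∀ x y, y < x → F (d y) < d x := by
  have hb : ∀ (x : L) (h : ∀ y, y < x → L), ∃ δ, ∀ (y : L) (hy : y < x), F (h y hy) < δ := by
    intro x h
    obtain ⟨δ, hδ⟩ := Len.bdd (range fun y : Iio x => F (h y.1 y.2))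
      (mk_range_le.trans (Len.small x))
    exact ⟨δ, fun y hy => hδ _ ⟨⟨y, hy⟩, rfl⟩⟩
  refine ⟨(wellFounded_lt (α := L)).fix (fun x h => Classical.choose (hb x h)), fun x y hy => ?_⟩
  rw [(wellFounded_lt (α := L)).fix_eq _ x]
  exact Classical.choose_spec (hb x fun y _ =>
    (wellFounded_lt (α := L)).fix (fun x h => Classical.choose (hb x h)) y) y hy

/-- a restriction does not change if there is no support between the bounds -/
theorem W3_lt_le {p : Cond L} {δ δ' : L} (h : δ ≤ δ') (hs : p.supp ∩ Iio δ' ⊆ Iio δ) :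
    p.lt δ ≤ p.lt δ' := by
  refine ⟨fun ξ hξ => ⟨hξ.1, hs hξ⟩, fun x _ ξ => ?_⟩
  have h1 : (p.lt δ).val ξ x = (p.lt δ').val ξ x := by
    unfold Cond.lt
    by_cases h2 : ξ < δ
    · rw [restr_val p (show ξ ∈ Iio δ from h2), restr_val p (show ξ ∈ Iio δ' from h2.trans_le h)]
    · rw [restr_val_off p (show ξ ∉ Iio δ from h2)]
      by_cases h3 : ξ < δ'
      · rw [restr_val p (show ξ ∈ Iio δ' from h3), p.off ξ fun h4 => h2 (hs ⟨h4, h3⟩)]
      · rw [restr_val_off p (show ξ ∉ Iio δ' from h3)]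
  rw [h1]
  exact QLe.refl _

/-- chain condition for `(2^ℵ₀)⁺` -/
theorem chain [Len L] {Z : Type} (cA : 𝔸 → Z) (hZ : #Z ≤ 𝔠) (hcA : ∀ a b, cA a = cA b → a ≤ b)
    (f : L → 𝔸 × Cond L) : ∃ i j, i ≠ j ∧ ∃ r, r ≤ f i ∧ r ≤ f j := by
  choose F hF hrep using W3_step cA hZ hcA f
  obtain ⟨d, hd⟩ := W3_seq F
  have hdm : ∀ x y, y < x → d y < d x := fun x y hy => (hF (d y)).trans (hd x y hy)
  have hne : {δ : L | ∀ x, x < (Len.o1 : L) → d x < δ}.Nonempty :=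
    ⟨d Len.o1, fun x hx => hdm _ x hx⟩
  obtain ⟨δs, h1, h2⟩ : ∃ δs : L, (∀ x, x < (Len.o1 : L) → d x < δs) ∧
      ∀ ξ, ξ < δs → ∃ x, x < (Len.o1 : L) ∧ ξ ≤ d x := by
    refine ⟨(wellFounded_lt (α := L)).min _ hne, (wellFounded_lt (α := L)).min_mem _ hne, ?_⟩
    intro ξ hξ
    by_contra h3
    refine (wellFounded_lt (α := L)).not_lt_min _ (x := ξ) ?_ hξ
    intro x hx
    by_contra h4
    exact h3 ⟨x, hx, not_lt.1 h4⟩
  -- the part of the support of `f δs` below `δs` is bounded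
  have hcnt : ((f δs).2.supp ∩ Iio δs).Countable := (f δs).2.csupp.mono inter_subset_left
  obtain ⟨y, hy, hys⟩ : ∃ y, y < (Len.o1 : L) ∧ (f δs).2.supp ∩ Iio δs ⊆ Iio (d y) := by
    have h3 : ∀ ξ : ↥((f δs).2.supp ∩ Iio δs), ∃ x, x < (Len.o1 : L) ∧ ξ.1 ≤ d x :=
      fun ξ => h2 ξ.1 ξ.2.2
    choose X hX hX' using h3
    have := hcnt.to_subtype
    obtain ⟨y, hy, hy'⟩ := W3_bdd (range X) (countable_range X) (by
      rintro _ ⟨ξ, rfl⟩
      exact hX ξ)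
    refine ⟨y, hy, fun ξ hξ => ?_⟩
    exact (hX' ⟨ξ, hξ⟩).trans_lt (hdm y _ (hy' _ ⟨⟨ξ, hξ⟩, rfl⟩))
  obtain ⟨y', hy', hyy⟩ := W3_bdd {y} (countable_singleton y) (by
    rintro x rfl
    exact hy)
  have hyy' : y < y' := hyy y rfl
  have hFδ : F (d y) < δs := (hd y' y hyy').trans (h1 y' hy')
  obtain ⟨j, hj, hjI, hja, hjp⟩ := hrep (d y) δs
  have hu : (f j).2.In (Iio δs) := fun ξ hξ => lt_trans (hjI hξ) hFδ
  have hle : (f j).2 ≤ (f δs).2.restr (Iio δs) (isLowerSet_Iio δs) := by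
    refine (le_restr (Λ := Iio (d y)) (hΛ := isLowerSet_Iio (d y)) _).trans ?_
    exact le_trans hjp (W3_lt_le (h1 y hy).le hys)
  obtain ⟨r, hr, hru, -, -⟩ := exists_amalg (isLowerSet_Iio δs) hu hle
  refine ⟨δs, j, (hj.trans hFδ).ne', ((f j).1, r), ⟨hja, hr⟩, ⟨le_rfl, ?_⟩⟩
  have h5 : r ≤ r.restr (Iio δs) (isLowerSet_Iio δs) := le_restr r
  rw [hru] at h5
  exact h5

end E8
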