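import Pool.Agent.Lib.MP_e8be47_lc.DUtil

/-!
# codes for conditions
-/

open Set Classical Cardinal

set_option linter.unusedSectionVars false

namespace E8

variable {L : Type} [LinearOrder L] [WellFoundedLT L]

open Cond

/-- cylinder conditions -/
def W2_cyl (Q : Finset (L × ℕ × Fs)) (y : Pt L) : Prop := ∀ e ∈ Q, cut (y e.1) e.2.1 = e.2.2

/-- type of the tuples -/
abbrev W2_T (L : Type) : Type := ℕ × Option L × Fs × Finset (L × ℕ × Fs)

/-- tuples with coordinates in `A` -/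
def W2_S (A : Set L) : Set (W2_T L) :=
  {τ | (∀ ξ, τ.2.1 = some ξ → ξ ∈ A) ∧ ∀ e ∈ τ.2.2.2, e.1 ∈ A}

/-- the code as a set of tuples -/
def W2_cd (p : Cond L) (Y : Pt L → Set ℕ) : Set (W2_T L) :=
  {τ | (∃ ξ ∈ p.supp, τ = (0, some ξ, ∅, ∅)) ∨
    (∃ ξ ∈ p.supp, ∃ t Q, τ = (1, some ξ, t, Q) ∧ (∀ e ∈ Q, e.1 ∈ p.supp) ∧
      ∀ y ∈ p.pts, W2_cyl Q y → t ∈ (p.val ξ y).T) ∨
    (∃ ξ ∈ p.supp, ∃ t Q, τ = (2, some ξ, t, Q) ∧ (∀ e ∈ Q, e.1 ∈ p.supp) ∧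
      ∀ y ∈ p.pts, W2_cyl Q y → t ∈ (p.val ξ y).C) ∨
    (∃ j Q, τ = (3 + j, none, ∅, Q) ∧ (∀ e ∈ Q, e.1 ∈ p.supp) ∧
      ∀ y ∈ p.pts, W2_cyl Q y → j ∈ Y y)}

theorem W2_mono {A B : Set L} (h : A ⊆ B) : W2_S A ⊆ W2_S B :=
  fun _ hτ => ⟨fun ξ hξ => h (hτ.1 ξ hξ), fun e he => h (hτ.2 e he)⟩

theorem W2_cd_sub (p : Cond L) (Y : Pt L → Set ℕ) : W2_cd p Y ⊆ W2_S p.supp := by
  rintro τ (⟨ξ, hξ, rfl⟩ | ⟨ξ, hξ, t, Q, rfl, hQ, -⟩ | ⟨ξ, hξ, t, Q, rfl, hQ, -⟩ | ⟨j, Q, rfl, hQ, -⟩)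
  · refine ⟨fun η hη => ?_, fun e he => ?_⟩
    · simp at hη; exact hη ▸ hξ
    · simp at he
  · refine ⟨fun η hη => ?_, hQ⟩
    simp at hη; exact hη ▸ hξ
  · refine ⟨fun η hη => ?_, hQ⟩
    simp at hη; exact hη ▸ hξ
  · refine ⟨fun η hη => ?_, hQ⟩
    simp at hη

/-- parametrisation of `W2_S` -/
noncomputable def W2_phi (A : Set L) (a : ℕ × Option A × Fs × List (A × ℕ × Fs)) : W2_T L :=
  (a.1, a.2.1.map Subtype.val, a.2.2.1, (a.2.2.2.map fun e => (e.1.1, e.2)).toFinset)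

theorem W2_range (A : Set L) : W2_S A ⊆ range (W2_phi A) := by
  rintro ⟨i, o, s, Q⟩ ⟨h1, h2⟩
  have ho : ∃ o' : Option A, o'.map Subtype.val = o := by
    cases o with
    | none => exact ⟨none, rfl⟩
    | some ξ => exact ⟨some ⟨ξ, h1 ξ rfl⟩, rfl⟩
  obtain ⟨o', ho'⟩ := ho
  refine ⟨(i, o', s, Q.attach.toList.map fun e => (⟨e.1.1, h2 e.1 e.2⟩, e.1.2)), ?_⟩
  unfold W2_phi
  simp only [ho', Prod.mk.injEq, true_and]
  ext e
  simp only [List.map_map, List.mem_toFinset, List.mem_map, Finset.mem_toList, Finset.mem_attach,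
    Function.comp, true_and, Subtype.exists, Prod.mk.eta, exists_prop, exists_eq_right]

theorem W2_count {A : Set L} (hA : A.Countable) : #(W2_S A) ≤ ℵ₀ := by
  have : Countable A := hA.to_subtype
  have h : (W2_S A).Countable := (countable_range (W2_phi A)).mono (W2_range A)
  exact Cardinal.le_aleph0_iff_set_countable.mpr h

theorem W2_card {A : Set L} (hA : #A ≤ 𝔠) : #(W2_S A) ≤ 𝔠 := by
  refine (mk_le_mk_of_subset (W2_range A)).trans (mk_range_le.trans ?_)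
  have hc : ℵ₀ ≤ 𝔠 := aleph0_le_continuum
  have mulc : ∀ {a b : Cardinal.{0}}, a ≤ 𝔠 → b ≤ 𝔠 → a * b ≤ 𝔠 := fun ha hb =>
    (mul_le_mul' ha hb).trans (by rw [continuum_mul_self])
  have hFs : #Fs ≤ 𝔠 := (mk_le_aleph0).trans hc
  have hN : #ℕ ≤ 𝔠 := (mk_le_aleph0).trans hc
  have hO : #(Option A) ≤ 𝔠 := by
    rw [mk_option]
    exact (add_le_add hA (one_le_aleph0.trans hc)).trans (by rw [continuum_add_self])
  have hP : #(A × ℕ × Fs) ≤ 𝔠 := by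
    simp only [mk_prod, lift_id]
    exact mulc hA (mulc hN hFs)
  have hL : #(List (A × ℕ × Fs)) ≤ 𝔠 := (mk_list_le_max _).trans (max_le hc hP)
  simp only [mk_prod, lift_id]
  exact mulc hN (mulc hO (mulc hFs hL))

/-- the values agree below -/
theorem W2_step {p q : Cond L} {Y Y' : Pt L → Set ℕ} (h : W2_cd p Y ⊆ W2_cd q Y') {ξ : L} {x : Pt L}
    (hξ : ξ ∈ p.supp) (hp : ∀ η < ξ, x η ∈ br (p.val η x).T) (hq : ∀ η < ξ, x η ∈ br (q.val η x).T)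
    (t : Fs) :
    (t ∈ (p.val ξ x).T → t ∈ (q.val ξ x).T) ∧ (t ∈ (p.val ξ x).C → t ∈ (q.val ξ x).C) := by
  obtain ⟨y, hy, hyx⟩ := exists_pts p ξ x hp
  obtain ⟨z, hz, hzx⟩ := exists_pts q ξ x hq
  have ep : p.val ξ y = p.val ξ x := p.dep ξ y x fun η _ hη => hyx η hη
  have eq : q.val ξ z = q.val ξ x := q.dep ξ z x fun η _ hη => hzx η hη
  obtain ⟨F, n, hF, hc⟩ := cont' p hy ξ t
  set Q : Finset (L × ℕ × Fs) := F.image fun η => (η, n, cut (y η) n) with hQ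
  have hQs : ∀ e ∈ Q, e.1 ∈ p.supp := by
    intro e he
    rw [hQ, Finset.mem_image] at he
    obtain ⟨η, hη, rfl⟩ := he
    exact (hF hη).1
  have hnear : ∀ y', W2_cyl Q y' → Near F n y y' := by
    intro y' hy' η hη k hk
    have h1 := hy' (η, n, cut (y η) n) (by rw [hQ, Finset.mem_image]; exact ⟨η, hη, rfl⟩)
    simp only at h1
    have h2 : k ∈ cut (y' η) n ↔ k ∈ cut (y η) n := by rw [h1]
    rw [mem_cut, mem_cut] at h2
    constructor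
    · intro h3; exact (h2.mpr ⟨hk, h3⟩).2
    · intro h3; exact (h2.mp ⟨hk, h3⟩).2
  have hcz : W2_cyl Q z := by
    intro e he
    rw [hQ, Finset.mem_image] at he
    obtain ⟨η, hη, rfl⟩ := he
    have hηξ : η < ξ := (hF hη).2
    simp only
    rw [hzx η hηξ, hyx η hηξ]
  constructor
  · intro ht
    have hm : ((1 : ℕ), some ξ, t, Q) ∈ W2_cd p Y := by
      right; left
      refine ⟨ξ, hξ, t, Q, rfl, hQs, fun y' hy' hcy => ?_⟩
      rw [(hc y' hy' (hnear y' hcy)).1, ep]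
      exact ht
    rcases h hm with ⟨ξ', _, he⟩ | ⟨ξ', _, t', Q', he, _, hv⟩ | ⟨ξ', _, t', Q', he, _, hv⟩ | ⟨j, Q', he, _, hv⟩
    · simp at he
    · simp only [Prod.mk.injEq, Option.some.injEq, true_and] at he
      obtain ⟨rfl, rfl, rfl⟩ := he
      rw [← eq]
      exact hv z hz hcz
    · simp at he
    · simp at he
  · intro ht
    have hm : ((2 : ℕ), some ξ, t, Q) ∈ W2_cd p Y := by
      right; right; left
      refine ⟨ξ, hξ, t, Q, rfl, hQs, fun y' hy' hcy => ?_⟩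
      rw [(hc y' hy' (hnear y' hcy)).2, ep]
      exact ht
    rcases h hm with ⟨ξ', _, he⟩ | ⟨ξ', _, t', Q', he, _, hv⟩ | ⟨ξ', _, t', Q', he, _, hv⟩ | ⟨j, Q', he, _, hv⟩
    · simp at he
    · simp at he
    · simp only [Prod.mk.injEq, Option.some.injEq, true_and] at he
      obtain ⟨rfl, rfl, rfl⟩ := he
      rw [← eq]
      exact hv z hz hcz
    · simp at he

theorem W2_supp {p q : Cond L} {Y Y' : Pt L → Set ℕ} (h : W2_cd p Y ⊆ W2_cd q Y') :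
    p.supp ⊆ q.supp := by
  intro ξ hξ
  have hm : ((0 : ℕ), some ξ, (∅ : Fs), (∅ : Finset (L × ℕ × Fs))) ∈ W2_cd p Y := Or.inl ⟨ξ, hξ, rfl⟩
  rcases h hm with ⟨ξ', h', he⟩ | ⟨ξ', _, t', Q', he, _, hv⟩ | ⟨ξ', _, t', Q', he, _, hv⟩ | ⟨j, Q', he, _, hv⟩
  · simp only [Prod.mk.injEq, Option.some.injEq, true_and, and_true] at he
    exact he ▸ h'
  · simp at he
  · simp at he
  · simp at he

theorem W2_val {p q : Cond L} {Y Y' : Pt L → Set ℕ} (h : W2_cd p Y = W2_cd q Y') (ξ : L) :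
    ∀ x : Pt L, (∀ η < ξ, x η ∈ br (p.val η x).T) → p.val ξ x = q.val ξ x := by
  induction ξ using WellFoundedLT.induction with
  | _ ξ ih =>
    intro x hx
    have hq : ∀ η < ξ, x η ∈ br (q.val η x).T := by
      intro η hη
      rw [← ih η hη x fun ζ hζ => hx ζ (hζ.trans hη)]
      exact hx η hη
    by_cases hξ : ξ ∈ p.supp
    · have hξ' : ξ ∈ q.supp := W2_supp h.subset hξ
      apply QC.ext
      · ext t
        exact ⟨(W2_step h.subset hξ hx hq t).1, (W2_step h.symm.subset hξ' hq hx t).1⟩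
      · ext t
        exact ⟨(W2_step h.subset hξ hx hq t).2, (W2_step h.symm.subset hξ' hq hx t).2⟩
    · have hξ' : ξ ∉ q.supp := fun h' => hξ (W2_supp h.symm.subset h')
      rw [p.off ξ hξ x, q.off ξ hξ' x]

theorem W2_pts {p q : Cond L} {Y Y' : Pt L → Set ℕ} (h : W2_cd p Y = W2_cd q Y') {x : Pt L}
    (hx : x ∈ p.pts) : x ∈ q.pts := fun ξ => by
  rw [← W2_val h ξ x fun η _ => hx η]
  exact hx ξ

theorem W2_le {p q : Cond L} {Y Y' : Pt L → Set ℕ} (h : W2_cd p Y = W2_cd q Y') : p ≤ q := by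
  refine ⟨W2_supp h.symm.subset, fun x hx ξ => ?_⟩
  rw [W2_val h ξ x fun η _ => hx η]
  exact QLe.refl _

theorem W2_Y {p q : Cond L} {Y Y' : Pt L → Set ℕ} (hY : CR p Y) (h : W2_cd p Y ⊆ W2_cd q Y') {x : Pt L}
    (hx : x ∈ p.pts) (hx' : x ∈ q.pts) : Y x ⊆ Y' x := by
  intro j hj
  obtain ⟨F, m, hl, hc⟩ := hY j x hx
  set Q : Finset (L × ℕ × Fs) := F.image fun η => (η, m η, cut (x η) (m η)) with hQ
  have hm : (3 + j, (none : Option L), (∅ : Fs), Q) ∈ W2_cd p Y := by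
    right; right; right
    refine ⟨j, Q, rfl, ?_, fun y hy hcy => ?_⟩
    · intro e he
      rw [hQ, Finset.mem_image] at he
      obtain ⟨η, hη, rfl⟩ := he
      exact hl.sub hη
    · have hy' : y ∈ (p.at' x F m hl).pts := by
        rw [mem_at]
        refine ⟨hy, fun ξ hξ => ?_⟩
        have := hcy (ξ, m ξ, cut (x ξ) (m ξ)) (by rw [hQ, Finset.mem_image]; exact ⟨ξ, hξ, rfl⟩)
        simpa using this
      have := hc y hy'
      simp only [eq_iff_iff] at this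
      exact this.mpr hj
  rcases h hm with ⟨ξ', _, he⟩ | ⟨ξ', _, t', Q', he, _, hv⟩ | ⟨ξ', _, t', Q', he, _, hv⟩ | ⟨j', Q', he, _, hv⟩
  · simp at he
  · simp at he
  · simp at he
  · simp only [Prod.mk.injEq, true_and, Nat.add_left_cancel_iff] at he
    obtain ⟨rfl, rfl⟩ := he
    refine hv x hx' fun e he => ?_
    rw [hQ, Finset.mem_image] at he
    obtain ⟨η, _, rfl⟩ := he
    rfl

/-- and also the pairs `(p, Y)` with `Y` continuous on `p.pts` -/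
theorem codes' {Λ : Set L} (hΛ : #Λ ≤ 𝔠) :
    ∃ (Z : Type) (c : Cond L → (Pt L → Set ℕ) → Z), #Z ≤ 𝔠 ∧
      ∀ (p q : Cond L) (Y Y' : Pt L → Set ℕ), p.In Λ → q.In Λ → CR p Y → CR q Y' →
        c p Y = c q Y' → p ≤ q ∧ ∀ x ∈ p.pts, Y x = Y' x := by
  refine ⟨{t : Set (W2_T L) // t ⊆ W2_S Λ ∧ #t ≤ ℵ₀},
    fun p Y => if h : p.In Λ then
      ⟨W2_cd p Y, (W2_cd_sub p Y).trans (W2_mono h),
        (mk_le_mk_of_subset (W2_cd_sub p Y)).trans (W2_count p.csupp)⟩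
      else ⟨∅, empty_subset _, by simp⟩, ?_, ?_⟩
  · refine (mk_bounded_subset_le _ _).trans ?_
    calc max #(W2_S Λ) ℵ₀ ^ ℵ₀ ≤ 𝔠 ^ ℵ₀ :=
          power_le_power_right (max_le (W2_card hΛ) aleph0_le_continuum)
      _ = 𝔠 := continuum_power_aleph0
  · intro p q Y Y' hp hq hY hY' hc
    simp only [dif_pos hp, dif_pos hq, Subtype.mk.injEq] at hc
    refine ⟨W2_le hc, fun x hx => ?_⟩
    have hx' := W2_pts hc hx
    exact Subset.antisymm (W2_Y hY hc.subset hx hx') (W2_Y hY' hc.symm.subset hx' hx)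

/-- the conditions on `Λ` have at most `2^ℵ₀` codes if `|Λ| ≤ 2^ℵ₀` -/
theorem codes {Λ : Set L} (hΛ : #Λ ≤ 𝔠) :
    ∃ (Z : Type) (c : Cond L → Z), #Z ≤ 𝔠 ∧ ∀ p q : Cond L, p.In Λ → q.In Λ → c p = c q → p ≤ q := by
  obtain ⟨Z, c, hZ, hc⟩ := codes' (L := L) hΛ
  have hcr : ∀ p : Cond L, CR p fun _ => ∅ := by
    intro p j x _
    exact ⟨∅, fun _ => 0, legal_empty p _ _, fun _ _ => rfl⟩
  exact ⟨Z, fun p => c p fun _ => ∅, hZ, fun p q hp hq h => (hc p q _ _ hp hq (hcr p) (hcr q) h).1⟩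

end E8
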