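import Pool.Agent.Lib.MP_e8be47_lc.WMain
import Pool.Agent.Lib.MP_e8be47_lc.XHyp

/-!
# countable covering, reading of names
-/

open Set Classical Cardinal

set_option linter.unusedSectionVars false

namespace E8

variable {𝔸 : Type} [Tow 𝔸] {L : Type} [LinearOrder L] [WellFoundedLT L] [OrderBot L]

open Cond

private theorem W1ext {v p' w : Cond L} (hv : v ≤ p') {y : Pt L} (hy : y ∈ v.pts)
    (h : Meets p' y w) : ∃ v' ≤ v, v' ≤ w := by
  obtain ⟨F, m, hl, hle⟩ := Meets.trans hy (Meets.of_le hv) h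
  exact ⟨_, at_le hl, hle⟩

/-- countable covering (hence `ω₁` is preserved, and every countable set of ordinals is covered
by a countable set of the ground model) -/
theorem cov {X : Type} (D : ℕ → 𝔸 × Cond L → X → Prop)
    (hmono : ∀ n p q x, q ≤ p → D n p x → D n q x) (hdense : ∀ n p, ∃ q ≤ p, ∃ x, D n q x)
    (p : 𝔸 × Cond L) :
    ∃ q ≤ p, ∃ Xn : ℕ → Set X, (∀ n, (Xn n).Countable) ∧
      ∀ n, ∀ r ≤ q, ∃ r' ≤ r, ∃ x ∈ Xn n, D n r' x := by
  obtain ⟨a0, p0⟩ := p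
  obtain ⟨a', ha', p', hp', -, σ, -, hLC, hσ⟩ := dcp_all 𝔸 (⊤ : WithTop L)
    ((𝔸 × Cond L) × Option X) (fun s => s.1.1) (fun s => s.1.2)
    (fun n _ s' => ∃ x, s'.2 = some x ∧ D n s'.1 x)
    (fun s => by rw [Lam_top]; exact subset_univ _)
    (fun n s a _ p _ _ => by
      obtain ⟨q, hq, x, hx⟩ := hdense n (a, p)
      exact ⟨(q, some x), ⟨x, rfl, hx⟩, hq.1, hq.2⟩)
    ((a0, p0), none) a0 le_rfl p0 le_rfl (by rw [Lam_top]; exact subset_univ _)
  refine ⟨(a', p'), ⟨ha', hp'⟩, fun n => {x | ∃ y ∈ p'.pts, (σ (n + 1) y).2 = some x},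
    fun n => ?_, fun n r hr => ?_⟩
  · have h1 := LC.countable_range (LC.comp (hLC (n + 1)) Prod.snd)
    have h2 := h1.preimage (Option.some_injective X)
    refine h2.mono ?_
    rintro x ⟨y, hy, hyx⟩
    exact ⟨y, hy, hyx⟩
  · obtain ⟨y, hy⟩ := pts_nonempty r.2
    have hy' := pts_mono hr.2 hy
    obtain ⟨x, hx, hD⟩ := (hσ y hy' n).1
    obtain ⟨-, h2, h3⟩ := hσ y hy' (n + 1)
    obtain ⟨v', hv', hv''⟩ := W1ext hr.2 hy h3
    exact ⟨(r.1, v'), ⟨le_rfl, hv'⟩, x, ⟨y, hy', hx⟩,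
      hmono n _ _ x ⟨hr.1.trans h2, hv''⟩ hD⟩

/-- `d` forces the real named by `τ` to be `Y(x)`, `x` the generic point -/
def Reads (τ : RName (𝔸 × Cond L)) (d : 𝔸 × Cond L) (Y : Pt L → Set ℕ) : Prop :=
  CR d.2 Y ∧ ∀ e ≤ d, ∀ j, ((∀ x ∈ e.2.pts, j ∈ Y x) → τ.In j e) ∧
    ((∀ x ∈ e.2.pts, j ∉ Y x) → τ.Out j e)

/-- every real is read continuously -/
theorem read (τ : RName (𝔸 × Cond L)) (d : 𝔸 × Cond L) : ∃ e ≤ d, ∃ Y, Reads τ e Y := by
  obtain ⟨a0, p0⟩ := d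
  obtain ⟨a', ha', p', hp', -, σ, -, hLC, hσ⟩ := dcp_all 𝔸 (⊤ : WithTop L)
    ((𝔸 × Cond L) × Bool) (fun s => s.1.1) (fun s => s.1.2)
    (fun n _ s' => (s'.2 = true ∧ τ.In n s'.1) ∨ (s'.2 = false ∧ τ.Out n s'.1))
    (fun s => by rw [Lam_top]; exact subset_univ _)
    (fun n s a _ p _ _ => by
      by_cases h : τ.Out n (a, p)
      · exact ⟨((a, p), false), Or.inr ⟨rfl, h⟩, le_rfl, le_rfl⟩
      · simp only [RName.Out, not_forall, not_not] at h
        obtain ⟨q, hq, hN⟩ := h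
        exact ⟨(q, true), Or.inl ⟨rfl, RName.In.of hN⟩, hq.1, hq.2⟩)
    ((a0, p0), true) a0 le_rfl p0 le_rfl (by rw [Lam_top]; exact subset_univ _)
  refine ⟨(a', p'), ⟨ha', hp'⟩, fun x => {n | (σ (n + 1) x).2 = true}, ?_, fun e he j => ?_⟩
  · intro j
    exact LC.comp (hLC (j + 1)) (fun s => s.2 = true)
  · have key : ∀ e' ≤ e, ∃ x ∈ e.2.pts, ∃ e'' ≤ e',
        ((σ (j + 1) x).2 = true → τ.In j e'') ∧ ((σ (j + 1) x).2 = false → τ.Out j e'') := by
      intro e' he'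
      obtain ⟨y, hy⟩ := pts_nonempty e'.2
      have hye := pts_mono he'.2 hy
      have hy' := pts_mono he.2 hye
      have h1 := (hσ y hy' j).1
      obtain ⟨-, h2, h3⟩ := hσ y hy' (j + 1)
      obtain ⟨v', hv', hv''⟩ := W1ext (he'.2.trans he.2) hy h3
      have hle : (e'.1, v') ≤ (σ (j + 1) y).1 := ⟨(he'.1.trans he.1).trans h2, hv''⟩
      refine ⟨y, hye, (e'.1, v'), ⟨le_rfl, hv'⟩, fun ht => ?_, fun hf => ?_⟩
      · rcases h1 with h | h
        · exact h.2.mono hle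
        · rw [ht] at h
          exact absurd h.1 (by simp)
      · rcases h1 with h | h
        · rw [hf] at h
          exact absurd h.1 (by simp)
        · exact h.2.mono hle
    constructor
    · intro hY e' he'
      obtain ⟨x, hx, e'', he'', h, -⟩ := key e' he'
      obtain ⟨r, hr, hN⟩ := h (hY x hx) e'' le_rfl
      exact ⟨r, hr.trans he'', hN⟩
    · intro hY e' he' hN
      obtain ⟨x, hx, e'', he'', -, h⟩ := key e' he'
      refine h ?_ e'' le_rfl (τ.mono j _ _ he'' hN)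
      have := hY x hx
      simpa using this

/-- a name of the `δ`-th coordinate of the generic point -/
def coord (𝔸 : Type) [Tow 𝔸] {L : Type} [LinearOrder L] (δ : L) : RName (𝔸 × Cond L) :=
  ⟨fun j d => ∀ x ∈ d.2.pts, j ∈ x δ, fun _ _ _ h hd x hx => hd x (Cond.pts_mono h.2 hx)⟩

end E8
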