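import Pool.Agent.Lib.MP_e8be47_lc.WUns

/-!
# reaping, coordinates
-/

open Set Classical Cardinal

set_option linter.unusedSectionVars false

namespace E8

variable {𝔸 : Type} [Tow 𝔸] {L : Type} [LinearOrder L] [WellFoundedLT L] [OrderBot L]

open Cond

/-- the tower of `𝔸` reaps every real: densely `top a` is decided -/
theorem reap' (τ : RName (𝔸 × Cond L)) (d : 𝔸 × Cond L) :
    ∃ e ≤ d, ∃ B : Set ℕ, B.Infinite ∧ ∃ ε : Bool, ∀ j ∈ B, τ.Is j ε e := by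
  obtain ⟨e, hed, Y, hY, hr⟩ := read τ d
  have hu : e.2.In (Lam (⊤ : WithTop L)) := by
    intro ξ _
    rw [Lam_top]
    exact mem_univ ξ
  obtain ⟨u', hu', _, W', hW', hinf, ε, hε⟩ := ssp_all (⊤ : WithTop L) e.2 hu Y hY
    (Tow.top e.1) (Tow.top_inf e.1)
  have hle : ((e.1, u') : 𝔸 × Cond L) ≤ e := ⟨le_rfl, hu'⟩
  refine ⟨(e.1, u'), hle.trans hed, W', hinf, ε, fun j hj => ⟨fun h => ?_, fun h => ?_⟩⟩
  · exact (hr _ hle j).1 fun x hx => (hε x hx j hj).2 h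
  · refine (hr _ hle j).2 fun x hx hx' => ?_
    have := (hε x hx j hj).1 hx'
    rw [h] at this
    exact absurd this (by decide)

private theorem W5_is {δ : L} {j : ℕ} {ε : Bool} {e : 𝔸 × Cond L}
    (h : ∀ x ∈ e.2.pts, (j ∈ x δ ↔ ε = true)) : (coord 𝔸 δ).Is j ε e := by
  refine ⟨fun hε => RName.In.of fun x hx => (h x hx).2 hε, fun hε q hq hN => ?_⟩
  obtain ⟨x, hx⟩ := Cond.pts_nonempty q.2
  have h1 : j ∈ x δ := hN x hx
  have h2 := (h x (Cond.pts_mono hq.2 hx)).1 h1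
  rw [hε] at h2
  exact absurd h2 (by decide)

/-- the coordinates are infinite and pairwise different -/
theorem coord_infinite (δ : L) (m : ℕ) (d : 𝔸 × Cond L) : ∃ e ≤ d, ∃ j ≥ m, (coord 𝔸 δ).N j e := by
  have hδ : δ ∈ (d.2.pad δ).supp := mem_insert _ _
  obtain ⟨x, hx⟩ := Cond.pts_nonempty (d.2.pad δ)
  obtain ⟨j, hj, hmj⟩ := (br_infinite (hx δ)).exists_gt m
  obtain ⟨k, hk, hkT⟩ := exists_cut_mem (hx δ) (j + 1)
  obtain ⟨F, μ, _, _, hF, hμ, hleg, _⟩ := Cond.base' (d.2.pad δ) hx δ hδ k hkT ∅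
    (by simp) 0
  refine ⟨(d.1, (d.2.pad δ).at' x F μ hleg), ⟨le_rfl, (at_le hleg).trans (pad_le _ _)⟩, j,
    hmj.le, fun y hy => ?_⟩
  have h1 := ((mem_at hleg).1 hy).2 δ hF
  have h2 : j ∈ cut (x δ) (μ δ) := mem_cut.2 ⟨by omega, hj⟩
  rw [← h1] at h2
  exact (mem_cut.1 h2).2

private theorem W5_lt {δ δ' : L} (h : δ < δ') (d : 𝔸 × Cond L) :
    ∃ e ≤ d, ∃ j, ∃ ε : Bool, (coord 𝔸 δ).Is j ε e ∧ (coord 𝔸 δ').Is j (!ε) e := by
  set p : Cond L := (d.2.pad δ).pad δ' with hp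
  have hpd : p ≤ d.2 := (pad_le _ _).trans (pad_le _ _)
  have hδ : δ ∈ p.supp := mem_insert_of_mem _ (mem_insert _ _)
  have hδ' : δ' ∈ p.supp := mem_insert _ _
  obtain ⟨y, hy, hne⟩ : ∃ y ∈ p.pts, y δ ≠ y δ' := by
    obtain ⟨x, hx⟩ := Cond.pts_nonempty p
    by_cases hxx : x δ = x δ'
    · have hQ := Cond.isQ' p hx δ'
      obtain ⟨s, hs⟩ := hQ.root
      have hinf := br_infinite (hx δ')
      obtain ⟨i, hi, hsi⟩ := hinf.exists_gt (s.sup Nat.succ)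
      have his : i ∉ s := fun h' => absurd (lt_sup h') (by omega)
      obtain ⟨z, hz, hzc⟩ := exists_branch hQ hs.1 (i + 1)
        (fun k hk => by have := lt_sup hk; omega)
      have hiz : i ∉ z := by
        intro h'
        have : i ∈ cut z (i + 1) := mem_cut.2 ⟨by omega, h'⟩
        rw [hzc] at this
        exact his this
      obtain ⟨y, hy, hylt, hyz⟩ := Cond.exists_pts_update p hx δ' hz
      refine ⟨y, hy, fun h' => hiz ?_⟩
      rw [← hyz, ← h', hylt δ h, hxx]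
      exact hi
    · exact ⟨x, hx, hxx⟩
  obtain ⟨j, hj⟩ : ∃ j, ¬ (j ∈ y δ ↔ j ∈ y δ') := by
    by_contra hcon
    push Not at hcon
    exact hne (Set.ext hcon)
  have hsub : (↑({δ, δ'} : Finset L) : Set L) ⊆ p.supp := by
    intro ξ hξ
    simp only [Finset.coe_insert, Finset.coe_singleton, mem_insert_iff, mem_singleton_iff] at hξ
    rcases hξ with rfl | rfl
    · exact hδ
    · exact hδ'
  obtain ⟨F, μ, hF, hμ, hleg, _⟩ := Cond.base p hy {δ, δ'} hsub (j + 1)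
  have h1 : δ ∈ F := hF (by simp)
  have h2 : δ' ∈ F := hF (by simp)
  have key : ∀ ξ ∈ F, ∀ x ∈ (p.at' y F μ hleg).pts, (j ∈ x ξ ↔ j ∈ y ξ) := by
    intro ξ hξ x hx
    have e1 := ((mem_at hleg).1 hx).2 ξ hξ
    have e2 := hμ ξ hξ
    have e3 : j ∈ cut (x ξ) (μ ξ) ↔ j ∈ cut (y ξ) (μ ξ) := by rw [e1]
    rw [mem_cut, mem_cut] at e3
    constructor
    · intro h'
      exact (e3.1 ⟨by omega, h'⟩).2
    · intro h'
      exact (e3.2 ⟨by omega, h'⟩).2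
  refine ⟨(d.1, p.at' y F μ hleg), ⟨le_rfl, (at_le hleg).trans hpd⟩, j, decide (j ∈ y δ),
    W5_is fun x hx => ?_, W5_is fun x hx => ?_⟩
  · rw [key δ h1 x hx]
    simp
  · rw [key δ' h2 x hx]
    by_cases h3 : j ∈ y δ
    · have h4 : j ∉ y δ' := fun h5 => hj ⟨fun _ => h5, fun _ => h3⟩
      simp [h3, h4]
    · have h4 : j ∈ y δ' := by
        by_contra h5
        exact hj ⟨fun h6 => absurd h6 h3, fun h6 => absurd h6 h5⟩
      simp [h3, h4]

theorem distinct {δ δ' : L} (h : δ ≠ δ') (d : 𝔸 × Cond L) :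
    ∃ e ≤ d, ∃ j, ∃ ε : Bool, (coord 𝔸 δ).Is j ε e ∧ (coord 𝔸 δ').Is j (!ε) e := by
  rcases lt_or_gt_of_ne h with h' | h'
  · exact W5_lt h' d
  · obtain ⟨e, he, j, ε, h1, h2⟩ := W5_lt h' d
    exact ⟨e, he, j, !ε, h2, by rw [Bool.not_not]; exact h1⟩

end E8
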