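import Pool.Agent.Lib.MP_e8be47_lc.DDef

/-!
# The concrete tower forcing `Col` and the concrete order `L`
-/

open Set Classical Cardinal

set_option linter.unusedSectionVars false

namespace E8

/-- `ω₁` -/
abbrev Om1 : Type := (ℵ₁ : Cardinal.{0}).ord.ToType

/-- conditions: towers of length `ht + 1` together with subsets `y β` of `ℕ`; the values above
`ht` are irrelevant -/
structure Col where
  ht : Om1
  y : Om1 → Set ℕ
  W : Om1 → Set ℕ
  inf : ∀ β ≤ ht, (W β).Infinite
  dec : ∀ β γ, β ≤ γ → γ ≤ ht → (W γ \ W β).Finite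

namespace Col

instance : LE Col :=
  ⟨fun a' a => a.ht ≤ a'.ht ∧ ∀ β ≤ a.ht, a'.y β = a.y β ∧ a'.W β = a.W β⟩

theorem le_def {a' a : Col} :
    a' ≤ a ↔ a.ht ≤ a'.ht ∧ ∀ β ≤ a.ht, a'.y β = a.y β ∧ a'.W β = a.W β := Iff.rfl

instance : Preorder Col where
  le_refl a := ⟨le_rfl, fun _ _ => ⟨rfl, rfl⟩⟩
  le_trans a b c h h' := ⟨h'.1.trans h.1, fun β hβ =>
    ⟨(h.2 β (hβ.trans h'.1)).1.trans (h'.2 β hβ).1,
      (h.2 β (hβ.trans h'.1)).2.trans (h'.2 β hβ).2⟩⟩

theorem COL_countable (δ : Om1) : (Iio δ).Countable := by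
  rw [countable_iff_lt_aleph_one]
  have h := Cardinal.mk_Iio_lt δ (by simp)
  rwa [Cardinal.mk_ord_toType] at h

/-- countable subsets of `ω₁` are bounded -/
theorem om1_bdd {A : Set Om1} (hA : A.Countable) : ∃ δ, ∀ a ∈ A, a < δ := by
  by_contra hcon
  push Not at hcon
  have h1 : (⋃ a ∈ A, Iic a) = (univ : Set Om1) := by
    rw [eq_univ_iff_forall]
    intro δ
    obtain ⟨a, ha, h⟩ := hcon δ
    exact mem_biUnion ha h
  have h2 : (⋃ a ∈ A, Iic a).Countable := by
    refine hA.biUnion fun a _ => ?_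
    have h3 : Iic a = insert a (Iio a) := by
      ext x
      simp only [mem_Iic, mem_insert_iff, mem_Iio]
      exact le_iff_eq_or_lt
    rw [h3]
    exact (COL_countable a).insert a
  rw [h1, countable_iff_lt_aleph_one, mk_univ, mk_ord_toType] at h2
  exact lt_irrefl _ h2

theorem om1_countable (δ : Om1) : (Iio δ).Countable := COL_countable δ

theorem COL_fin_trans {A B C : Set ℕ} (h : (A \ B).Finite) (h' : (B \ C).Finite) :
    (A \ C).Finite := by
  refine (h.union h').subset fun x hx => ?_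
  by_cases hB : x ∈ B
  · exact Or.inr ⟨hB, hx.2⟩
  · exact Or.inl ⟨hx.1, hB⟩

/-- a countable directed (mod finite) family of infinite sets has a pseudo-intersection -/
theorem exists_pseudo {I : Type*} [Countable I] [Nonempty I] (W : I → Set ℕ)
    (h : ∀ i, (W i).Infinite)
    (hd : ∀ i j, ∃ k, (W k \ W i).Finite ∧ (W k \ W j).Finite) :
    ∃ V : Set ℕ, V.Infinite ∧ ∀ i, (V \ W i).Finite := by
  obtain ⟨e, he⟩ := exists_surjective_nat I
  choose K hK1 hK2 using hd
  let k : ℕ → I := fun n => Nat.rec (e 0) (fun n i => K i (e (n + 1))) n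
  have hk1 : ∀ n, (W (k (n + 1)) \ W (k n)).Finite := fun n => hK1 (k n) (e (n + 1))
  have hk2 : ∀ n, (W (k n) \ W (e n)).Finite := by
    intro n
    cases n with
    | zero =>
      have h0 : k 0 = e 0 := rfl
      rw [h0, diff_self]
      exact finite_empty
    | succ n => exact hK2 (k n) (e (n + 1))
  have hk3 : ∀ n i, i ≤ n → (W (k n) \ W (e i)).Finite := by
    intro n
    induction n with
    | zero =>
      intro i hi
      have : i = 0 := by omega
      subst this
      exact hk2 0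
    | succ n ih =>
      intro i hi
      rcases Nat.lt_or_ge i (n + 1) with h1 | h1
      · exact COL_fin_trans (hk1 n) (ih i (by omega))
      · have : i = n + 1 := by omega
        subst this
        exact hk2 (n + 1)
  have hx : ∀ n, ∃ x, n ≤ x ∧ ∀ i ≤ n, x ∈ W (e i) := by
    intro n
    have h1 : (⋃ i ∈ Finset.range (n + 1), (W (k n) \ W (e i))).Finite :=
      Finite.biUnion (Finset.finite_toSet _) fun i hi =>
        hk3 n i (by have := Finset.mem_range.1 (Finset.mem_coe.1 hi); omega)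
    have h2 := (h (k n)).diff (h1.union (finite_lt_nat n))
    obtain ⟨x, hx, hx'⟩ := h2.nonempty
    rw [mem_union, not_or] at hx'
    refine ⟨x, by simpa using hx'.2, fun i hi => ?_⟩
    by_contra hc
    exact hx'.1 (mem_biUnion (Finset.mem_coe.2 (Finset.mem_range.2 (by omega))) ⟨hx, hc⟩)
  choose x hx1 hx2 using hx
  refine ⟨range x, ?_, fun i => ?_⟩
  · refine infinite_of_forall_exists_gt fun n => ?_
    exact ⟨x (n + 1), mem_range_self _, hx1 (n + 1)⟩
  · obtain ⟨j, rfl⟩ := he i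
    refine ((finite_lt_nat j).image x).subset ?_
    rintro _ ⟨⟨n, rfl⟩, hn⟩
    refine ⟨n, ?_, rfl⟩
    by_contra hc
    exact hn (hx2 n j (not_lt.1 hc))

theorem COL_gt (δ : Om1) : ∃ γ, δ < γ := by
  obtain ⟨γ, hγ⟩ := om1_bdd (countable_singleton δ)
  exact ⟨γ, hγ δ (mem_singleton δ)⟩

/-- extension by one constant set -/
theorem COL_ext (a : Col) (W : Set ℕ) (B : Set ℕ) (hW : W ⊆ a.W a.ht) (hi : W.Infinite) :
    ∃ a' : Col, a' ≤ a ∧ a.ht < a'.ht ∧ a'.W a'.ht = W ∧ a'.y a'.ht = B := by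
  obtain ⟨γ, hγ⟩ := COL_gt a.ht
  have hWd : ∀ β ≤ a.ht, (W \ a.W β).Finite := fun β hβ =>
    (a.dec β a.ht hβ le_rfl).subset (diff_subset_diff_left hW)
  refine ⟨⟨γ, fun β => if β ≤ a.ht then a.y β else B, fun β => if β ≤ a.ht then a.W β else W,
    ?_, ?_⟩, ⟨hγ.le, fun β hβ => ⟨if_pos hβ, if_pos hβ⟩⟩, hγ, if_neg (not_le.2 hγ),
    if_neg (not_le.2 hγ)⟩
  · intro β _
    by_cases h : β ≤ a.ht
    · simp only [if_pos h]
      exact a.inf β h
    · simp only [if_neg h]
      exact hi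
  · intro β δ hβδ _
    by_cases h : δ ≤ a.ht
    · simp only [if_pos h, if_pos (hβδ.trans h)]
      exact a.dec β δ hβδ h
    · by_cases h' : β ≤ a.ht
      · simp only [if_pos h', if_neg h]
        exact hWd β h'
      · simp only [if_neg h', if_neg h, diff_self]
        exact finite_empty

theorem COL_closed (f : ℕ → Col) (hf : Antitone f) : ∃ a : Col, ∀ n, a ≤ f n := by
  obtain ⟨γ, hγ⟩ := om1_bdd (countable_range fun n => (f n).ht)
  have hγ' : ∀ n, (f n).ht < γ := fun n => hγ _ (mem_range_self n)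
  -- coherence
  have coh : ∀ n m β, β ≤ (f n).ht → β ≤ (f m).ht →
      (f n).y β = (f m).y β ∧ (f n).W β = (f m).W β := by
    intro n m β hn hm
    rcases le_total n m with h | h
    · have h1 := (hf h).2 β hn
      exact ⟨h1.1.symm, h1.2.symm⟩
    · exact (hf h).2 β hm
  set yy : Om1 → Set ℕ := fun β => if h : ∃ n, β ≤ (f n).ht then (f h.choose).y β else ∅ with hyy
  set ww : Om1 → Set ℕ := fun β => if h : ∃ n, β ≤ (f n).ht then (f h.choose).W β else ∅ with hww
  have hy : ∀ n β, β ≤ (f n).ht → yy β = (f n).y β := by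
    intro n β hβ
    have h : ∃ n, β ≤ (f n).ht := ⟨n, hβ⟩
    simp only [hyy]
    rw [dif_pos h]
    exact (coh _ _ β h.choose_spec hβ).1
  have hw : ∀ n β, β ≤ (f n).ht → ww β = (f n).W β := by
    intro n β hβ
    have h : ∃ n, β ≤ (f n).ht := ⟨n, hβ⟩
    simp only [hww]
    rw [dif_pos h]
    exact (coh _ _ β h.choose_spec hβ).2
  -- the pseudo-intersection
  have hc : {β : Om1 | ∃ n, β ≤ (f n).ht}.Countable := by
    have h1 : {β : Om1 | ∃ n, β ≤ (f n).ht} ⊆ Iio γ := by
      rintro β ⟨n, hn⟩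
      exact lt_of_le_of_lt hn (hγ' n)
    exact (om1_countable γ).mono h1
  have : Countable {β : Om1 | ∃ n, β ≤ (f n).ht} := hc.to_subtype
  have : Nonempty {β : Om1 | ∃ n, β ≤ (f n).ht} := ⟨⟨(f 0).ht, 0, le_rfl⟩⟩
  obtain ⟨V, hV, hV'⟩ := exists_pseudo (fun i : {β : Om1 | ∃ n, β ≤ (f n).ht} => ww i.1)
    (by
      rintro ⟨β, n, hn⟩
      simp only [hw n β hn]
      exact (f n).inf β hn)
    (by
      rintro ⟨β, n, hn⟩ ⟨δ, m, hm⟩
      rcases le_total β δ with h | h
      · refine ⟨⟨δ, m, hm⟩, ?_, ?_⟩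
        · simp only [hw m β (h.trans hm), hw m δ hm]
          exact (f m).dec β δ h hm
        · simp only [diff_self]
          exact finite_empty
      · refine ⟨⟨β, n, hn⟩, ?_, ?_⟩
        · simp only [diff_self]
          exact finite_empty
        · simp only [hw n β hn, hw n δ (h.trans hn)]
          exact (f n).dec δ β h hn)
  refine ⟨⟨γ, yy, fun β => if ∃ n, β ≤ (f n).ht then ww β else V, ?_, ?_⟩, fun n =>
    ⟨(hγ' n).le, fun β hβ => ⟨hy n β hβ, ?_⟩⟩⟩
  · intro β _
    by_cases h : ∃ n, β ≤ (f n).ht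
    · simp only [if_pos h]
      obtain ⟨n, hn⟩ := h
      rw [hw n β hn]
      exact (f n).inf β hn
    · simp only [if_neg h]
      exact hV
  · intro β δ hβδ _
    by_cases h : ∃ n, δ ≤ (f n).ht
    · obtain ⟨n, hn⟩ := h
      have h1 : ∃ n, δ ≤ (f n).ht := ⟨n, hn⟩
      have h2 : ∃ n, β ≤ (f n).ht := ⟨n, hβδ.trans hn⟩
      simp only [if_pos h1, if_pos h2]
      rw [hw n δ hn, hw n β (hβδ.trans hn)]
      exact (f n).dec β δ hβδ hn
    · by_cases h' : ∃ n, β ≤ (f n).ht
      · simp only [if_pos h', if_neg h]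
        exact hV' ⟨β, h'⟩
      · simp only [if_neg h', if_neg h, diff_self]
        exact finite_empty
  · have h : ∃ n, β ≤ (f n).ht := ⟨n, hβ⟩
    simp only [if_pos h]
    exact hw n β hβ

noncomputable instance : Tow Col where
  top a := a.W a.ht
  top_inf a := a.inf _ le_rfl
  top_mono a a' h := by
    have h1 := (h.2 a.ht le_rfl).2
    have h2 := a'.dec a.ht a'.ht h.1 le_rfl
    rw [h1] at h2
    exact h2
  shrink a W hW hi := by
    obtain ⟨a', h1, _, h2, _⟩ := COL_ext a W ∅ hW hi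
    refine ⟨a', h1, ?_⟩
    change (a'.W a'.ht \ W).Finite
    rw [h2, diff_self]
    exact finite_empty
  closed f hf := COL_closed f hf
  start W hW := by
    obtain ⟨γ, _⟩ := om1_bdd (countable_empty (α := Om1))
    refine ⟨⟨γ, fun _ => ∅, fun _ => W, fun _ _ => hW, fun _ _ _ _ => ?_⟩, ?_⟩
    · rw [diff_self]
      exact finite_empty
    · change (W \ W).Finite
      rw [diff_self]
      exact finite_empty

theorem top_def (a : Col) : Tow.top a = a.W a.ht := rfl

/-- `a` decides the `α`-th real to be `B` -/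
def cd (a : Col) (α : Om1) (B : Set ℕ) : Prop := α ≤ a.ht ∧ a.y α = B

theorem cd_mono {a a' : Col} (h : a' ≤ a) {α : Om1} {B : Set ℕ} (hc : a.cd α B) : a'.cd α B :=
  ⟨hc.1.trans h.1, (h.2 α hc.1).1.trans hc.2⟩

theorem cd_fun {a : Col} {α : Om1} {B B' : Set ℕ} (h : a.cd α B) (h' : a.cd α B') : B = B' :=
  h.2.symm.trans h'.2

theorem cd_dense (a : Col) (B : Set ℕ) : ∃ a' ≤ a, ∃ α, a'.cd α B := by
  obtain ⟨a', h1, _, _, h2⟩ := COL_ext a (a.W a.ht) B Subset.rfl (a.inf _ le_rfl)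
  exact ⟨a', h1, a'.ht, le_rfl, h2⟩

/-- `Col` has at most `2^ℵ₀` codes -/
theorem codes : ∃ (Z : Type) (c : Col → Z), #Z ≤ 𝔠 ∧ ∀ a b, c a = c b → a ≤ b := by
  refine ⟨Σ δ : Om1, ({β // β ≤ δ} → Set ℕ × Set ℕ), fun a => ⟨a.ht, fun β => (a.y β, a.W β)⟩,
    ?_, ?_⟩
  · rw [mk_sigma]
    have h1 : ∀ δ : Om1, #({β // β ≤ δ} → Set ℕ × Set ℕ) ≤ 𝔠 := by
      intro δ
      have h2 : #{β // β ≤ δ} ≤ ℵ₀ := by
        have h3 : (Iic δ).Countable := by
          have h4 : Iic δ = insert δ (Iio δ) := by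
            ext x
            simp only [mem_Iic, mem_insert_iff, mem_Iio]
            exact le_iff_eq_or_lt
          rw [h4]
          exact (om1_countable δ).insert δ
        exact le_aleph0_iff_set_countable.2 h3
      have h5 : #(Set ℕ × Set ℕ) = 𝔠 := by
        rw [mk_prod, mk_set_nat, lift_id, continuum_mul_self]
      rw [← power_def, h5]
      exact (power_le_power_left continuum_ne_zero h2).trans continuum_power_aleph0.le
    refine (sum_le_sum _ (fun _ => 𝔠) h1).trans ?_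
    rw [sum_const', mk_ord_toType]
    calc ℵ₁ * 𝔠 ≤ 𝔠 * 𝔠 := mul_le_mul_left aleph_one_le_continuum _
      _ = 𝔠 := continuum_mul_self
  · rintro ⟨ha, ya, Wa, _, _⟩ ⟨hb, yb, Wb, _, _⟩ h
    simp only [Sigma.mk.injEq] at h
    obtain ⟨rfl, h2⟩ := h
    rw [heq_eq_eq] at h2
    refine ⟨le_rfl, fun β hβ => ?_⟩
    have h3 := congrFun h2 ⟨β, hβ⟩
    simp only [Prod.mk.injEq] at h3
    exact h3

end Col

end E8
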