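import Pool.Agent.Lib.MP_e8be47_lc.VSucc
import Pool.Agent.Lib.MP_e8be47_lc.VLimit
import Pool.Agent.Lib.MP_e8be47_lc.DDcp
import Pool.Agent.Lib.MP_e8be47_lc.XCol

/-!
# Assembly of the two inductions
-/

open Set Classical

set_option linter.unusedSectionVars false

namespace E8

variable {𝔸 : Type} [Tow 𝔸] {L : Type} [LinearOrder L] [WellFoundedLT L] [OrderBot L]

open Cond

variable (𝔸) in
theorem frontP_all (β : L) : FrontP 𝔸 β := by
  induction β using WellFoundedLT.induction with
  | ind β ih =>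
    have h := dcp_of_front (𝔸 := 𝔸) (β : WithTop L) fun b hb => ih b (WithTop.coe_lt_coe.1 hb)
    rw [Lam_coe] at h
    exact front_of_dc h

variable (𝔸) in
theorem dcp_all (γ : WithTop L) : DCP 𝔸 (Lam γ) := dcp_of_front γ fun b _ => frontP_all 𝔸 b

/-- no splitting reals -/
theorem ssp_all (γ : WithTop L) : SSP (Lam γ) := by
  induction γ using WellFoundedLT.induction with
  | ind γ ih =>
    intro u hu Y hY W hW
    by_cases h0 : ∃ δ : L, (δ : WithTop L) < γ ∧ u.In (Iio δ)
    · obtain ⟨δ, hδ, huδ⟩ := h0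
      have hs := ih δ hδ
      rw [Lam_coe] at hs
      obtain ⟨u', hu', hI, W', hW', hi, i, h⟩ := hs u huδ Y hY W hW
      exact ⟨u', hu', fun ξ hξ => lt_trans (WithTop.coe_lt_coe.2 (hI hξ)) hδ, W', hW', hi, i, h⟩
    by_cases h1 : ∃ δ : L, (δ : WithTop L) < γ ∧ u.In (Iic δ)
    · obtain ⟨δ, hδ, huδ⟩ := h1
      have hs := ih δ hδ
      have hd := dcp_all Col (δ : WithTop L)
      rw [Lam_coe] at hs hd
      obtain ⟨u', hu', hI, W', hW', hi, i, h⟩ := ssp_succ (𝔸 := Col) hd hs u huδ Y hY W hW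
      exact ⟨u', hu', fun ξ hξ => lt_of_le_of_lt (WithTop.coe_le_coe.2 (hI hξ)) hδ,
        W', hW', hi, i, h⟩
    rcases (u.supp).eq_empty_or_nonempty with hemp | hne
    · obtain ⟨x0, hx0⟩ := pts_nonempty u
      have hc : ∀ x ∈ u.pts, ∀ j, (j ∈ Y x ↔ j ∈ Y x0) := by
        intro x hx j
        obtain ⟨F, m, h, hF⟩ := hY j x0 hx0
        have hF0 : F = ∅ := by
          rw [Finset.eq_empty_iff_forall_notMem]
          intro ξ hξ
          have := h.sub hξ
          rw [hemp] at this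
          exact this
        subst hF0
        exact iff_of_eq (hF x ((mem_at h).2 ⟨hx, fun ξ hξ => absurd hξ (Finset.notMem_empty ξ)⟩))
      have hu' : u.In (Lam γ) := hu
      by_cases hfin : (W ∩ Y x0).Infinite
      · refine ⟨u, le_rfl, hu', W ∩ Y x0, inter_subset_left, hfin, true, fun x hx j hj => ?_⟩
        rw [hc x hx j]
        simp [hj.2]
      · have hinf : (W \ Y x0).Infinite := by
          intro hf
          rw [Set.not_infinite] at hfin
          refine hW ((hfin.union hf).subset fun j hj => ?_)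
          by_cases h : j ∈ Y x0
          · exact Or.inl ⟨hj, h⟩
          · exact Or.inr ⟨hj, h⟩
        refine ⟨u, le_rfl, hu', W \ Y x0, sdiff_subset, hinf, false, fun x hx j hj => ?_⟩
        rw [hc x hx j]
        simp [hj.2]
    · have hcof : ∀ δ : L, (δ : WithTop L) < γ → ∃ ξ ∈ u.supp, δ < ξ := by
        intro δ hδ
        by_contra hcon
        push Not at hcon
        exact h1 ⟨δ, hδ, fun ξ hξ => hcon ξ hξ⟩
      obtain ⟨e, he⟩ := u.csupp.exists_eq_range hne
      have hemem : ∀ n, e n ∈ u.supp := fun n => he ▸ mem_range_self n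
      have hlt : ∀ ξ ∈ u.supp, (ξ : WithTop L) < γ := fun ξ hξ => hu hξ
      have hstep : ∀ (n : ℕ) (ξ : {ξ : L // ξ ∈ u.supp}), ∃ ξ' : {ξ : L // ξ ∈ u.supp},
          ξ.1 < ξ'.1 ∧ e n < ξ'.1 := by
        intro n ξ
        have h3 : ((max ξ.1 (e n) : L) : WithTop L) < γ := by
          rcases max_choice ξ.1 (e n) with h | h <;> rw [h]
          · exact hlt _ ξ.2
          · exact hlt _ (hemem n)
        obtain ⟨ξ', hξ', h4⟩ := hcof _ h3
        exact ⟨⟨ξ', hξ'⟩, lt_of_le_of_lt (le_max_left _ _) h4, lt_of_le_of_lt (le_max_right _ _) h4⟩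
      choose nx hnx using hstep
      let b' : ℕ → {ξ : L // ξ ∈ u.supp} := fun n => Nat.rec ⟨e 0, hemem 0⟩ (fun k ξ => nx k ξ) n
      let b : ℕ → L := fun n => (b' n).1
      have hb : StrictMono b := strictMono_nat_of_lt_succ fun n => (hnx n (b' n)).1
      have hbγ : ∀ n, (b n : WithTop L) < γ := fun n => hlt _ (b' n).2
      have hc : ∀ ξ : L, (ξ : WithTop L) < γ → ∃ n, ξ < b n := by
        intro ξ hξ
        obtain ⟨ξ', hξ', h3⟩ := hcof ξ hξ
        rw [he] at hξ'
        obtain ⟨m, rfl⟩ := hξ'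
        exact ⟨m + 1, h3.trans (hnx m (b' m)).2⟩
      have hD : ∀ n, DCP Col (Iio (b n)) := fun n => by
        have := dcp_all Col (b n : WithTop L)
        rwa [Lam_coe] at this
      have hS : ∀ n, SSP (L := L) (Iio (b n)) := fun n => by
        have := ih (b n) (hbγ n)
        rwa [Lam_coe] at this
      exact ssp_limit' (𝔸 := Col) hb hbγ hc (fun β _ => frontP_all Col β) hD hS u hu Y hY W hW

end E8
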