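import Pool.Agent.Lib.MP_e8be47_lc.WCov
import Pool.Agent.Lib.MP_e8be47_lc.WChain

/-!
# unsplit families
-/

open Set Classical Cardinal

set_option linter.unusedSectionVars false

namespace E8

variable {𝔸 : Type} [Tow 𝔸] {L : Type} [LinearOrder L] [WellFoundedLT L] [OrderBot L]

open Cond

/-! ### Antichains -/

/-- a maximal antichain of `S` of size `≤ 𝔠` -/
private theorem W4_antichain {P : Type} [Preorder P] [hL : Len L]
    (hch : ∀ f : L → P, ∃ i j, i ≠ j ∧ ∃ r, r ≤ f i ∧ r ≤ f j) (S : Set P)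
    (hS : ∀ d, ∃ e ≤ d, e ∈ S) :
    ∃ A : Set P, A ⊆ S ∧ #A ≤ 𝔠 ∧ ∀ d, ∃ e0 ∈ A, ∃ d1, d1 ≤ d ∧ d1 ≤ e0 := by
  let anti : Set P → Prop := fun A => A ⊆ S ∧ ∀ x ∈ A, ∀ y ∈ A, x ≠ y → ¬ ∃ r, r ≤ x ∧ r ≤ y
  obtain ⟨A, hA⟩ : ∃ A, Maximal anti A := by
    apply zorn_subset
    intro c hc hchain
    refine ⟨⋃₀ c, ⟨?_, ?_⟩, fun s hs => subset_sUnion_of_mem hs⟩
    · exact sUnion_subset fun s hs => (hc hs).1
    · rintro x ⟨s, hs, hxs⟩ y ⟨t, ht, hyt⟩ hxy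
      rcases hchain.total hs ht with h | h
      · exact (hc ht).2 x (h hxs) y hyt hxy
      · exact (hc hs).2 x hxs y (h hyt) hxy
  refine ⟨A, hA.1.1, ?_, ?_⟩
  · by_contra hcon
    have h1 : Order.succ 𝔠 ≤ #A := Order.succ_le_of_lt (not_le.1 hcon)
    rw [← hL.card] at h1
    obtain ⟨f⟩ := Cardinal.le_def L A |>.1 h1
    obtain ⟨i, j, hij, r, hr1, hr2⟩ := hch fun i => (f i : P)
    exact hA.1.2 _ (f i).2 _ (f j).2
      (fun h => hij (f.injective (Subtype.ext h))) ⟨r, hr1, hr2⟩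
  · intro d
    obtain ⟨e, hed, heS⟩ := hS d
    by_contra hcon
    push Not at hcon
    have h1 : ∀ e0 ∈ A, ¬ ∃ r, r ≤ e ∧ r ≤ e0 := by
      rintro e0 he0 ⟨r, hr1, hr2⟩
      exact hcon e0 he0 r (hr1.trans hed) hr2
    have h2 : e ∉ A := fun h => h1 e h ⟨e, le_rfl, le_rfl⟩
    have h3 : anti (insert e A) := by
      refine ⟨insert_subset heS hA.1.1, ?_⟩
      rintro x (rfl | hx) y (rfl | hy) hxy
      · exact absurd rfl hxy
      · exact h1 y hy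
      · rintro ⟨r, hr1, hr2⟩
        exact h1 x hx ⟨r, hr2, hr1⟩
      · exact hA.1.2 x hx y hy hxy
    exact h2 (hA.2 h3 (subset_insert e A) (mem_insert e A))

/-- a bound for the supports -/
private theorem W4_bdd [hL : Len L] {I : Type} (hI : #I ≤ 𝔠) (A : I → Set (𝔸 × Cond L))
    (hA : ∀ i, #(A i) ≤ 𝔠) : ∃ δ : L, ∀ i, ∀ e ∈ A i, e.2.In (Iio δ) := by
  have hc : ℵ₀ ≤ 𝔠 := Cardinal.aleph0_le_continuum
  let B : Set L := ⋃ i : I, ⋃ e : A i, e.1.2.supp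
  have hB : #B ≤ 𝔠 := by
    have h1 : ∀ i, #(⋃ e : A i, e.1.2.supp : Set L) ≤ 𝔠 := by
      intro i
      calc #(⋃ e : A i, e.1.2.supp : Set L) ≤ Cardinal.sum fun e : A i => #(e.1.2.supp) :=
            Cardinal.mk_iUnion_le_sum_mk
        _ ≤ Cardinal.sum fun _ : A i => (𝔠 : Cardinal.{0}) :=
            Cardinal.sum_le_sum _ _ fun e => (Cardinal.le_aleph0_iff_set_countable.2
              e.1.2.csupp).trans hc
        _ = #(A i) * 𝔠 := by rw [Cardinal.sum_const']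
        _ ≤ 𝔠 * 𝔠 := mul_le_mul_left (hA i) _
        _ = 𝔠 := Cardinal.continuum_mul_self
    calc #B ≤ Cardinal.sum fun i : I => #(⋃ e : A i, e.1.2.supp : Set L) :=
          Cardinal.mk_iUnion_le_sum_mk
      _ ≤ Cardinal.sum fun _ : I => (𝔠 : Cardinal.{0}) := Cardinal.sum_le_sum _ _ h1
      _ = #I * 𝔠 := by rw [Cardinal.sum_const']
      _ ≤ 𝔠 * 𝔠 := mul_le_mul_left hI _
      _ = 𝔠 := Cardinal.continuum_mul_self
  obtain ⟨δ, hδ⟩ := hL.bdd B hB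
  refine ⟨δ, fun i e he x hx => hδ x ?_⟩
  exact mem_iUnion.2 ⟨i, mem_iUnion.2 ⟨⟨e, he⟩, hx⟩⟩

/-! ### Local constancy of finite conditions -/

private theorem W4_lc_forall {q : Cond L} {Y : Pt L → Set ℕ} (hY : CR q Y) (s : Fs) (ε : Bool) :
    LC q fun x => (∀ k ∈ s, (k ∈ Y x ↔ ε = true)) := by
  intro x hx
  obtain ⟨F, m, h, hF⟩ := LC.finite (fun (k : ℕ) x => (k ∈ Y x)) hY s hx
  refine ⟨F, m, h, fun y hy => ?_⟩
  apply propext
  constructor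
  · intro h1 k hk
    have : (k ∈ Y y) = (k ∈ Y x) := hF k hk y hy
    rw [← this]
    exact h1 k hk
  · intro h1 k hk
    have : (k ∈ Y y) = (k ∈ Y x) := hF k hk y hy
    rw [this]
    exact h1 k hk

private theorem W4_lc_and {q : Cond L} {φ ψ : Pt L → Prop} (h : LC q φ) (h' : LC q ψ) :
    LC q fun x => (φ x ∧ ψ x) := LC.comp₂ h h' fun a b => (a ∧ b)

private theorem W4_lc_or {q : Cond L} {φ ψ : Pt L → Prop} (h : LC q φ) (h' : LC q ψ) :
    LC q fun x => (φ x ∨ ψ x) := LC.comp₂ h h' fun a b => (a ∨ b)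

/-! ### The main step -/

private theorem W4_key {δ : L} {τ : RName (𝔸 × Cond L)} {e0 : 𝔸 × Cond L} {Y : Pt L → Set ℕ}
    (hR : Reads τ e0 Y) (h0 : e0.2.In (Iio δ)) {a1 : 𝔸} {p1 : Cond L} (hd : (a1, p1) ≤ e0)
    (hδ : δ ∈ p1.supp) :
    ∃ e ≤ (a1, p1), ∃ (m : ℕ) (ε : Bool), ∀ j, m ≤ j → ∀ e' ≤ e,
      (coord 𝔸 δ).N j e' → τ.Is j ε e' := by
  obtain ⟨hCR, hrd⟩ := hR
  have hp1 : p1 ≤ e0.2 := hd.2
  -- the part up to `δ`
  set w : Cond L := p1.le δ with hw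
  have hAt : At δ w := ⟨restr_in _, ⟨hδ, le_refl δ⟩⟩
  have hwlt : w.lt δ = p1.lt δ := restr_restr (fun x hx => le_of_lt hx) p1
  have hq0 : w.lt δ ≤ e0.2 := by
    rw [hwlt]
    exact restr_le_of_le hp1 h0
  have hYq : CR (w.lt δ) Y := fun j => LC.mono hq0 (hCR j)
  have hCQ : CQ (w.lt δ) (w.val δ) := CQ_val_lt w δ
  have hIsQ : ∀ x ∈ (w.lt δ).pts, IsQ (w.val δ x) := fun x hx => isQ_lt hx
  -- the families
  let D : Bool → Pt L → Set Fs := fun ε x => {c | ∀ k ∈ c, (k ∈ Y x ↔ ε = true)}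
  let C' : Pt L → Set Fs := fun x => {c | c ∈ (w.val δ x).C ∧ (c ∈ D true x ∨ c ∈ D false x)}
  have hC'L : ∀ x ∈ (w.lt δ).pts, Large (C' x) := by
    intro x hx
    have hL := (hIsQ x hx).large
    obtain ⟨i, hi, hLi⟩ := hL.colour 2 (fun k => if k ∈ Y x then 1 else 0)
      (fun k => by by_cases hk : k ∈ Y x <;> simp [hk])
    refine hLi.mono (fun c hc => hL.1 c hc.1) ?_
    rintro c ⟨hc, hci⟩
    refine ⟨hc, ?_⟩
    have hi2 : i = 0 ∨ i = 1 := by omega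
    rcases hi2 with rfl | rfl
    · right
      intro k hk
      have := hci k hk
      by_cases hkY : k ∈ Y x
      · simp [hkY] at this
      · simp [hkY]
    · left
      intro k hk
      have := hci k hk
      by_cases hkY : k ∈ Y x
      · simp [hkY]
      · simp [hkY] at this
  have hDlc : ∀ (q : Cond L), q ≤ w.lt δ → ∀ ε s, LC q fun x => (s ∈ D ε x) := by
    intro q hq ε s
    exact W4_lc_forall (fun j => LC.mono hq (hYq j)) s ε
  have hC'lc : ∀ (q : Cond L), q ≤ w.lt δ → ∀ s, LC q fun x => (s ∈ C' x) := by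
    intro q hq s
    exact W4_lc_and (LC.mono hq (hCQ s).2) (W4_lc_or (hDlc q hq true s) (hDlc q hq false s))
  have hDC : ∀ (q : Cond L), q ≤ w.lt δ → ∀ ε s, LC q fun x => (s ∈ D ε x ∩ C' x) := by
    intro q hq ε s
    exact W4_lc_and (hDlc q hq ε s) (hC'lc q hq s)
  -- decide largeness
  have hdc : DCP 𝔸 (Iio δ) := by
    have := dcp_all 𝔸 (δ : WithTop L)
    rwa [Lam_coe] at this
  obtain ⟨a2, ha2, q2, hq2, hq2I, hLC⟩ := clopen_of_dc hdc a1 (lt_in w δ)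
    (fun k => match Encodable.decode (α := Bool × ℕ × ℕ) k with
      | some t => {x | MN (D t.1 x ∩ C' x) t.2.1 t.2.2}
      | none => ∅)
    (by
      intro k
      rcases Encodable.decode (α := Bool × ℕ × ℕ) k with _ | ⟨ε, m, n⟩
      · intro x _ hx
        exact absurd hx (notMem_empty x)
      · exact MN_opn (hDC _ le_rfl ε) (fun x hx c hc => (hIsQ x hx).large.1 c hc.2.1) m n)
  have hMN : ∀ ε m n, LC q2 fun x => MN (D ε x ∩ C' x) m n := by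
    intro ε m n
    have := hLC (Encodable.encode (ε, m, n))
    rw [Encodable.encodek] at this
    exact this
  obtain ⟨ε, x0, hx0, F, m, hleg, hlarge⟩ := exists_large_node (q := q2) (C := C')
    (fun x hx => hC'L x (pts_mono hq2 hx)) D
    (fun x hx c hc => by
      rcases hc.2 with h | h
      · exact mem_iUnion.2 ⟨true, h⟩
      · exact mem_iUnion.2 ⟨false, h⟩)
    hMN
  -- the root
  have hx3 : x0 ∈ (q2.at' x0 F m hleg).pts := self_mem_at hx0 hleg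
  have hq3 : q2.at' x0 F m hleg ≤ w.lt δ := (at_le hleg).trans hq2
  obtain ⟨s0, hs0⟩ := (hIsQ x0 (pts_mono hq3 hx3)).root
  obtain ⟨F4, m4, hleg4, hF4⟩ := (LC.mono hq3 (hCQ s0).1) x0 hx3
  set q4 : Cond L := (q2.at' x0 F m hleg).at' x0 F4 m4 hleg4 with hq4
  have hq43 : q4 ≤ q2.at' x0 F m hleg := at_le hleg4
  have hq4w : q4 ≤ w.lt δ := hq43.trans hq3
  have hq4I : q4.In (Iio δ) := at_in (at_in hq2I hleg) hleg4
  have hs04 : ∀ x ∈ q4.pts, s0 ∈ (w.val δ x).T := by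
    intro x hx
    have : (s0 ∈ (w.val δ x).T) = (s0 ∈ (w.val δ x0).T) := hF4 x hx
    rw [this]
    exact hs0.1
  -- the new value at `δ`
  let R : Pt L → QC := fun x =>
    ⟨{u | u ∈ (w.val δ x).T ∧ EE s0 u ∧ ∀ k ∈ u \ s0, (k ∈ Y x ↔ ε = true)}, D ε x ∩ C' x⟩
  have hRCQ : CQ q4 R := by
    intro s
    refine ⟨?_, hDC q4 hq4w ε s⟩
    exact W4_lc_and (LC.mono hq4w (hCQ s).1) (W4_lc_and (LC.const q4 (EE s0 s))
      (W4_lc_forall (fun j => LC.mono hq4w (hYq j)) (s \ s0) ε))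
  have hRQ : ∀ x ∈ q4.pts, IsQ (R x) := by
    intro x hx
    have hQ := hIsQ x (pts_mono hq4w hx)
    refine ⟨⟨s0, ⟨hs04 x hx, EE.refl s0, ?_⟩, fun t ht => ht.2.1⟩,
      hlarge x (pts_mono hq43 hx), ?_⟩
    · intro k hk
      simp at hk
    · rintro u ⟨huT, hEE, huY⟩
      obtain ⟨n, hn⟩ := hQ.cp u huT
      refine ⟨n, ?_⟩
      rintro c ⟨hcD, hcC⟩ hcn
      obtain ⟨f, hfc, hab, huf⟩ := hn c hcC.1 hcn
      refine ⟨f, hfc, hab, huf, hEE.trans (EE.union hab.2), ?_⟩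
      intro k hk
      rw [Finset.mem_sdiff, Finset.mem_union] at hk
      rcases hk.1 with h | h
      · exact huY k (Finset.mem_sdiff.2 ⟨h, hk.2⟩)
      · exact hcD k (hfc h)
  have hRle : ∀ x ∈ q4.pts, QLe (R x) (w.val δ x) := by
    intro x _
    exact ⟨fun u hu => hu.1, 0, fun c hc _ => ⟨c, hc.2.1, subset_rfl⟩⟩
  obtain ⟨w', hw'w, hAt', hw'lt, hw'v⟩ := exists_val hAt hq4w hq4I R hRCQ hRQ hRle
  obtain ⟨r, hr, hrr, -, -⟩ := exists_amalg (isLowerSet_Iic δ) hAt'.le (p := p1) hw'w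
  have hrw' : r ≤ w' := by
    rw [← hrr]
    exact le_restr r
  refine ⟨(a2, r), ⟨ha2, hr⟩, s0.sup Nat.succ, ε, ?_⟩
  intro j hj e' he' hN
  have hej : ∀ x ∈ e'.2.pts, (j ∈ Y x ↔ ε = true) := by
    intro x hx
    have hxr : x ∈ r.pts := pts_mono he'.2 hx
    have hxw' : x ∈ w'.pts := pts_mono hrw' hxr
    have hx4 : x ∈ q4.pts := by
      rw [← hw'lt]
      exact mem_lt hxw' δ
    have hbr : x δ ∈ br (R x).T := by
      rw [← hw'v x hx4]
      exact hxw' δ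
    obtain ⟨m', hm', hcut⟩ := exists_cut_mem hbr (j + 1)
    have hjc : j ∈ cut (x δ) m' := mem_cut.2 ⟨by omega, hN x hx⟩
    have hjs : j ∉ s0 := fun h => by
      have := lt_sup h
      omega
    exact hcut.2.2 j (Finset.mem_sdiff.2 ⟨hjc, hjs⟩)
  have he0 : e' ≤ e0 := he'.trans (le_trans ⟨ha2, hr⟩ hd)
  constructor
  · intro hε
    exact (hrd e' he0 j).1 fun x hx => (hej x hx).2 hε
  · intro hε
    refine (hrd e' he0 j).2 fun x hx h => ?_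
    have := (hej x hx).1 h
    rw [hε] at this
    exact absurd this (by decide)

/-- every family of at most `2^ℵ₀` reals is unsplit by some coordinate -/
theorem unsplit [Len L] {Z : Type} (cA : 𝔸 → Z) (hZ : #Z ≤ 𝔠) (hcA : ∀ a b, cA a = cA b → a ≤ b)
    {I : Type} (hI : #I ≤ 𝔠) (τ : I → RName (𝔸 × Cond L)) :
    ∃ δ : L, ∀ i, ∀ d : 𝔸 × Cond L, ∃ e ≤ d, ∃ (m : ℕ) (ε : Bool), ∀ j, m ≤ j → ∀ e' ≤ e,
      (coord 𝔸 δ).N j e' → (τ i).Is j ε e' := by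
  have hch := chain (L := L) cA hZ hcA
  have hA : ∀ i : I, ∃ A : Set (𝔸 × Cond L), A ⊆ {e | ∃ Y, Reads (τ i) e Y} ∧ #A ≤ 𝔠 ∧
      ∀ d, ∃ e0 ∈ A, ∃ d1, d1 ≤ d ∧ d1 ≤ e0 := fun i =>
    W4_antichain hch _ fun d => read (τ i) d
  choose A hAS hAc hAd using hA
  obtain ⟨δ, hδ⟩ := W4_bdd hI A hAc
  refine ⟨δ, fun i d => ?_⟩
  obtain ⟨e0, he0, d1, hd1d, hd1e⟩ := hAd i d
  obtain ⟨Y, hY⟩ := hAS i he0
  have hle : (d1.1, d1.2.pad δ) ≤ d1 := ⟨le_rfl, pad_le d1.2 δ⟩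
  obtain ⟨e, he, m, ε, h⟩ := W4_key hY (hδ i e0 he0) (hle.trans hd1e)
    (mem_insert δ d1.2.supp)
  exact ⟨e, he.trans (hle.trans hd1d), m, ε, h⟩

end E8
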