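import Pool.Agent.Lib.MP_e8be47_lc.XDefs

/-!
# no barely independent family
-/

open Set Cardinal

namespace E8

open MP9708F

variable {P : Type} [Preorder P]

/-! ### Names of relations between the elements of a name and the natural numbers -/

section rel

variable {L : Type} [LinearOrder L] [WellFoundedLT L] [Len L]

variable (L) in
/-- the numeral `j` -/
private noncomputable abbrev nu (P : Type) [Preorder P] (j : ℕ) : Nam P := on P (Len.nt j : L)

private theorem nu_inj {i j : ℕ} {p : P} (h : feq (nu L P i) (nu L P j) p) : i = j :=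
  Len.nt_mono.injective (on_inj.1 h)

private theorem nu_mem (j : ℕ) (p : P) : fmem (nu L P j) (on P (Len.o0 : L)) p :=
  fmem_on_of_lt ((Len.nt_range _).2 ⟨j, rfl⟩) p

private theorem mem_o0 {z : Nam P} {p : P} (h : fmem z (on P (Len.o0 : L)) p) :
    ∀ q ≤ p, ∃ r ≤ q, ∃ j, feq z (nu L P j) r := by
  intro q hq
  rw [on_eq, fmem_chk] at h
  obtain ⟨r, hr, x, hx, hx'⟩ := h q hq
  obtain ⟨j, rfl⟩ := (Len.nt_range x).1 hx
  exact ⟨r, hr, j, hx'⟩

variable (L) in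
/-- `{(a, j) | a ∈ X, R j a}` -/
private noncomputable def pr (X : Nam P) (R : ℕ → Nam P → P → Prop)
    (hR : ∀ j a p q, q ≤ p → R j a p → R j a q) : Nam P :=
  ⟨X.idx × ℕ, fun i => ⟨{r | r ∈ X.wt i.1 ∧ R i.2 (X.el i.1) r}, fun _ _ h h' =>
    ⟨(X.wt i.1).lower h h'.1, hR _ _ _ _ h h'.2⟩⟩, fun i => opN (X.el i.1) (nu L P i.2)⟩

variable (L) in
/-- `{(j, a) | a ∈ X, R j a}` -/
private noncomputable def pr' (X : Nam P) (R : ℕ → Nam P → P → Prop)
    (hR : ∀ j a p q, q ≤ p → R j a p → R j a q) : Nam P :=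
  ⟨X.idx × ℕ, fun i => ⟨{r | r ∈ X.wt i.1 ∧ R i.2 (X.el i.1) r}, fun _ _ h h' =>
    ⟨(X.wt i.1).lower h h'.1, hR _ _ _ _ h h'.2⟩⟩, fun i => opN (nu L P i.2) (X.el i.1)⟩

variable {X : Nam P} {R : ℕ → Nam P → P → Prop} {hR : ∀ j a p q, q ≤ p → R j a p → R j a q}

private theorem mem_pr {z : Nam P} {p : P} (h : fmem z (pr L X R hR) p) :
    ∀ q ≤ p, ∃ r ≤ q, ∃ a j, feq z (opN a (nu L P j)) r ∧ fmem a X r ∧ R j a r := by
  intro q hq
  obtain ⟨r, hr, ⟨i, j⟩, h1, h2⟩ := h q hq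
  exact ⟨r, hr, X.el i, j, h2, fmem_of_wt h1.1, h1.2⟩

private theorem mem_pr' {z : Nam P} {p : P} (h : fmem z (pr' L X R hR) p) :
    ∀ q ≤ p, ∃ r ≤ q, ∃ a j, feq z (opN (nu L P j) a) r ∧ fmem a X r ∧ R j a r := by
  intro q hq
  obtain ⟨r, hr, ⟨i, j⟩, h1, h2⟩ := h q hq
  exact ⟨r, hr, X.el i, j, h2, fmem_of_wt h1.1, h1.2⟩

private theorem pair_pr (he : ∀ j a a' p, feq a a' p → R j a p → R j a' p) {a : Nam P} {j : ℕ}
    {p : P} (h1 : fmem a X p) (h2 : R j a p) : fmem (opN a (nu L P j)) (pr L X R hR) p := by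
  intro q hq
  obtain ⟨r, hr, i, h3, h4⟩ := h1 q hq
  exact ⟨r, hr, ⟨i, j⟩, ⟨h3, he _ _ _ _ h4 (hR _ _ _ _ (hr.trans hq) h2)⟩,
    opN_congr h4 (feq_refl _ _)⟩

private theorem pair_pr' (he : ∀ j a a' p, feq a a' p → R j a p → R j a' p) {a : Nam P} {j : ℕ}
    {p : P} (h1 : fmem a X p) (h2 : R j a p) : fmem (opN (nu L P j) a) (pr' L X R hR) p := by
  intro q hq
  obtain ⟨r, hr, i, h3, h4⟩ := h1 q hq
  exact ⟨r, hr, ⟨i, j⟩, ⟨h3, he _ _ _ _ h4 (hR _ _ _ _ (hr.trans hq) h2)⟩,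
    opN_congr (feq_refl _ _) h4⟩

private theorem of_pair {a b : Nam P} (he : ∀ j a a' p, feq a a' p → R j a p → R j a' p) {p : P}
    (h : fmem (opN a b) (pr L X R hR) p) :
    ∀ q ≤ p, ∃ r ≤ q, ∃ j, feq b (nu L P j) r ∧ R j a r := by
  intro q hq
  obtain ⟨r, hr, a', j, h1, -, h3⟩ := mem_pr h q hq
  obtain ⟨h4, h5⟩ := opN_inj.1 h1
  exact ⟨r, hr, j, h5, he _ _ _ _ (feq_symm h4) h3⟩

private theorem of_pair' {a b : Nam P} (he : ∀ j a a' p, feq a a' p → R j a p → R j a' p) {p : P}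
    (h : fmem (opN b a) (pr' L X R hR) p) :
    ∀ q ≤ p, ∃ r ≤ q, ∃ j, feq b (nu L P j) r ∧ R j a r := by
  intro q hq
  obtain ⟨r, hr, a', j, h1, -, h3⟩ := mem_pr' h q hq
  obtain ⟨h4, h5⟩ := opN_inj.1 h1
  exact ⟨r, hr, j, h4, he _ _ _ _ (feq_symm h5) h3⟩

private theorem inj_pr (he : ∀ j a a' p, feq a a' p → R j a p → R j a' p) {p : P}
    (htot : ∀ a, ∀ q ≤ p, fmem a X q → ∃ s ≤ q, ∃ j, R j a s)
    (hfunc : ∀ a j j', ∀ q ≤ p, R j a q → R j' a q → j = j')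
    (hinj : ∀ a a' j, ∀ q ≤ p, R j a q → R j a' q → feq a a' q) :
    FInj (pr L X R hR) X (on P (Len.o0 : L)) p := by
  refine ⟨⟨fun z q hq hz r hr => ?_, fun a q hq ha r hr => ?_, fun a b b' q hq h1 h2 => ?_⟩,
    fun a a' b q hq h1 h2 => ?_⟩
  · obtain ⟨s, hs, a, j, h1, h2, -⟩ := mem_pr hz r hr
    exact ⟨s, hs, a, nu L P j, h2, nu_mem j s, h1⟩
  · obtain ⟨s, hs, j, hj⟩ := htot a r (hr.trans hq) (fmem_mono hr ha)
    exact ⟨s, hs, nu L P j, pair_pr he (fmem_mono (hs.trans hr) ha) hj⟩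
  · refine feq_reg fun r hr => ?_
    obtain ⟨s, hs, j, h3, h4⟩ := of_pair he h1 r hr
    obtain ⟨t, ht, j', h5, h6⟩ := of_pair he h2 s (hs.trans hr)
    obtain rfl : j = j' := hfunc a j j' t ((ht.trans hs).trans (hr.trans hq))
      (hR _ _ _ _ ht h4) h6
    exact ⟨t, ht.trans hs, feq_trans (feq_mono ht h3) (feq_symm h5)⟩
  · refine feq_reg fun r hr => ?_
    obtain ⟨s, hs, j, h3, h4⟩ := of_pair he h1 r hr
    obtain ⟨t, ht, j', h5, h6⟩ := of_pair he h2 s (hs.trans hr)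
    obtain rfl : j = j' := nu_inj (L := L) (feq_trans (feq_symm (feq_mono ht h3)) h5)
    exact ⟨t, ht.trans hs, hinj a a' j t ((ht.trans hs).trans (hr.trans hq))
      (hR _ _ _ _ ht h4) h6⟩

private theorem inj_pr' (he : ∀ j a a' p, feq a a' p → R j a p → R j a' p) {p : P}
    (htot : ∀ j, ∀ q ≤ p, ∃ s ≤ q, ∃ a, fmem a X s ∧ R j a s)
    (hfunc : ∀ a j j', ∀ q ≤ p, R j a q → R j' a q → j = j')
    (hinj : ∀ a a' j, ∀ q ≤ p, R j a q → R j a' q → feq a a' q) :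
    FInj (pr' L X R hR) (on P (Len.o0 : L)) X p := by
  refine ⟨⟨fun z q hq hz r hr => ?_, fun a q hq ha r hr => ?_, fun b a a' q hq h1 h2 => ?_⟩,
    fun b b' a q hq h1 h2 => ?_⟩
  · obtain ⟨s, hs, a, j, h1, h2, -⟩ := mem_pr' hz r hr
    exact ⟨s, hs, nu L P j, a, nu_mem j s, h2, h1⟩
  · obtain ⟨s, hs, j, hj⟩ := mem_o0 (L := L) ha r hr
    obtain ⟨t, ht, b, h1, h2⟩ := htot j s (hs.trans (hr.trans hq))
    exact ⟨t, ht.trans hs, b, fmem_congr_left (opN_congr (feq_symm (feq_mono ht hj))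
      (feq_refl _ _)) (pair_pr' he h1 h2)⟩
  · refine feq_reg fun r hr => ?_
    obtain ⟨s, hs, j, h3, h4⟩ := of_pair' he h1 r hr
    obtain ⟨t, ht, j', h5, h6⟩ := of_pair' he h2 s (hs.trans hr)
    obtain rfl : j = j' := nu_inj (L := L) (feq_trans (feq_symm (feq_mono ht h3)) h5)
    exact ⟨t, ht.trans hs, hinj a a' j t ((ht.trans hs).trans (hr.trans hq))
      (hR _ _ _ _ ht h4) h6⟩
  · refine feq_reg fun r hr => ?_
    obtain ⟨s, hs, j, h3, h4⟩ := of_pair' he h1 r hr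
    obtain ⟨t, ht, j', h5, h6⟩ := of_pair' he h2 s (hs.trans hr)
    obtain rfl : j = j' := hfunc a j j' t ((ht.trans hs).trans (hr.trans hq))
      (hR _ _ _ _ ht h4) h6
    exact ⟨t, ht.trans hs, feq_trans (feq_mono ht h3) (feq_symm h5)⟩

end rel

/-! ### The set `B` of indices -/

section ind

variable {L : Type} [LinearOrder L] [WellFoundedLT L] [Len L]

/-- `p` forces `B` infinite -/
private def InfB (L : Type) [LinearOrder L] [WellFoundedLT L] [Len L] (B : Nam P) (p : P) : Prop :=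
  ∀ m, ∀ r ≤ p, ∃ r' ≤ r, ∃ j ≥ m, fmem (nu L P j) B r'

/-- `p` forces that unboundedly many `α ∈ K` are homogeneous for the `e(j)`, `j ∈ B` -/
private def Hom (K : Set L) (e : Nam P) (ε : Bool) (B : Nam P) (p : P) : Prop :=
  ∀ ξ ∈ K, ∀ r ≤ p, ∃ r' ≤ r, ∃ α ∈ K, ξ ≤ α ∧ ∀ j, ∀ r'' ≤ r', fmem (nu L P j) B r'' →
    ∀ b, fmem (opN (nu L P j) b) e r'' →
      (ε = true → fmem (on P α) b r'') ∧ (ε = false → ∀ q ≤ r'', ¬ fmem (on P α) b q)

private def Good (K : Set L) (e : Nam P) (ε : Bool) (B : Nam P) (p : P) : Prop :=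
  InfB L B p ∧ Hom K e ε B p

private theorem good_reg (K : Set L) (e : Nam P) (ε : Bool) (B : Nam P) :
    Reg (Good K e ε B) :=
  (Reg.all fun _ => Reg.dense).and (Reg.all fun _ => Reg.all fun _ => Reg.dense)

private theorem good_ext (K : Set L) (e : Nam P) (ε : Bool) : Ext' (Good K e ε) := by
  intro B B' p h hB
  refine ⟨fun m r hr => ?_, fun ξ hξ r hr => ?_⟩
  · obtain ⟨r', hr', j, hj, hj'⟩ := hB.1 m r hr
    exact ⟨r', hr', j, hj, fmem_congr_right (feq_mono (hr'.trans hr) h) hj'⟩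
  · obtain ⟨r', hr', α, hα, hξα, h1⟩ := hB.2 ξ hξ r hr
    exact ⟨r', hr', α, hα, hξα, fun j r'' hr'' hj => h1 j r'' hr''
      (fmem_congr_right (feq_symm (feq_mono (hr''.trans (hr'.trans hr)) h)) hj)⟩

private theorem good_dense {K : Set L} (hUB : UB P K) {e X Y : Nam P} {p : P}
    (he : FInj e X Y p) : ∀ q ≤ p, ∃ r ≤ q, ∃ ε B, Good K e ε B r := by
  intro q0 hq0
  let τ : L → RName P := fun α => ⟨fun j p => ∃ b, fmem (opN (nu L P j) b) e p ∧
    fmem (on P α) b p, fun j p q hq ⟨b, h1, h2⟩ => ⟨b, fmem_mono hq h1, fmem_mono hq h2⟩⟩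
  obtain ⟨q, hq, β, ε, h1, h2⟩ := hUB τ q0
  let f : L → LowerSet P := fun x => ⟨{p | ∀ q ≤ p, ∃ r ≤ q, ∃ j, x = Len.nt j ∧ β.N j r},
    fun _ _ h h' q hq => h' q (hq.trans h)⟩
  have hf : RegF f := fun x => Reg.dense
  have hB : ∀ j p, fmem (nu L P j) (nn f) p ↔ ∀ q ≤ p, ∃ r ≤ q, β.N j r := by
    intro j p
    rw [fmem_on_nn hf]
    constructor
    · intro h q hq
      obtain ⟨r, hr, j', hj', h'⟩ := h q hq
      obtain rfl : j = j' := Len.nt_mono.injective hj'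
      exact ⟨r, hr, h'⟩
    · intro h q hq
      obtain ⟨r, hr, h'⟩ := h q hq
      exact ⟨r, hr, j, rfl, h'⟩
  refine ⟨q, hq, ε, nn f, fun m r hr => ?_, fun ξ hξ r hr => ?_⟩
  · obtain ⟨r', hr', j, hj, hj'⟩ := h1 m r hr
    exact ⟨r', hr', j, hj, (hB j r').2 fun s hs => ⟨s, le_rfl, β.mono _ _ _ hs hj'⟩⟩
  · obtain ⟨r', hr', α, hα, hξα, h3⟩ := h2 ξ hξ r hr
    refine ⟨r', hr', α, hα, hξα, fun j r'' hr'' hj b hb => ⟨fun hε => ?_, fun hε s hs hs' => ?_⟩⟩
    · refine fmem_reg fun s hs => ?_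
      obtain ⟨t, ht, h4⟩ := (hB j r'').1 hj s hs
      obtain ⟨u, hu, b', h5, h6⟩ := (h3 j t ((ht.trans hs).trans hr'') h4).1 hε t le_rfl
      have hur : u ≤ r'' := (hu.trans ht).trans hs
      have hup : u ≤ p := hur.trans (hr''.trans (hr'.trans (hr.trans (hq.trans hq0))))
      exact ⟨u, hu.trans ht, fmem_congr_right (he.func _ _ _ u hup h5 (fmem_mono hur hb)) h6⟩
    · obtain ⟨t, ht, h4⟩ := (hB j r'').1 hj s hs
      exact (h3 j t ((ht.trans hs).trans hr'') h4).2 hε t le_rfl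
        ⟨b, fmem_mono (ht.trans hs) hb, fmem_mono ht hs'⟩

private theorem next_el {B : Nam P} {p : P} (h : InfB L B p) (m : ℕ) : ∀ r ≤ p, ∃ r' ≤ r, ∃ j ≥ m,
    fmem (nu L P j) B r' ∧ ∀ i, m ≤ i → i < j → ∀ q ≤ r', ¬ fmem (nu L P i) B q := by
  classical
  intro r hr
  have hex : ∃ j, m ≤ j ∧ ∃ r' ≤ r, fmem (nu L P j) B r' := by
    obtain ⟨r', hr', j, hj, hj'⟩ := h m r hr
    exact ⟨j, hj, r', hr', hj'⟩
  obtain ⟨h1, r', hr', h2⟩ := Nat.find_spec hex
  refine ⟨r', hr', Nat.find hex, h1, h2, fun i hi hij q hq hiq => ?_⟩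
  exact Nat.find_min hex hij ⟨hi, q, hq.trans hr', hiq⟩

/-- `p` forces `j ∈ B` and `B ∩ j = s` -/
private def Dec (L : Type) [LinearOrder L] [WellFoundedLT L] [Len L] (B : Nam P) (j : ℕ)
    (s : Finset ℕ) (p : P) : Prop :=
  fmem (nu L P j) B p ∧ (∀ i ∈ s, i < j) ∧ ∀ i < j, (i ∈ s → fmem (nu L P i) B p) ∧
    (i ∉ s → ∀ q ≤ p, ¬ fmem (nu L P i) B q)

private theorem Dec.mono {B : Nam P} {j : ℕ} {s : Finset ℕ} {p q : P} (hq : q ≤ p)
    (h : Dec L B j s p) : Dec L B j s q :=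
  ⟨fmem_mono hq h.1, h.2.1, fun i hi => ⟨fun h' => fmem_mono hq ((h.2.2 i hi).1 h'),
    fun h' r hr => (h.2.2 i hi).2 h' r (hr.trans hq)⟩⟩

private theorem Dec.sub {B : Nam P} {j j' : ℕ} {s s' : Finset ℕ} {p : P}
    (h : Dec L B j s p) (h' : Dec L B j' s' p) (hj : j ≤ j') : s ⊆ s' := by
  intro i hi
  by_contra hc
  have h1 := h.2.1 i hi
  exact (h'.2.2 i (h1.trans_le hj)).2 hc p le_rfl ((h.2.2 i h1).1 hi)

private theorem Dec.card_lt {B : Nam P} {j j' : ℕ} {s s' : Finset ℕ} {p : P}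
    (h : Dec L B j s p) (h' : Dec L B j' s' p) (hj : j < j') : s.card < s'.card := by
  refine Finset.card_lt_card ⟨h.sub h' hj.le, fun hss => ?_⟩
  have h1 : j ∈ s' := by
    by_contra hc
    exact (h'.2.2 j hj).2 hc p le_rfl h.1
  exact lt_irrefl j (h.2.1 j (hss h1))

private theorem Dec.eq_set {B : Nam P} {j : ℕ} {s s' : Finset ℕ} {p : P}
    (h : Dec L B j s p) (h' : Dec L B j s' p) : s = s' :=
  Finset.Subset.antisymm (h.sub h' le_rfl) (h'.sub h le_rfl)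

private theorem Dec.eq_ind {B : Nam P} {j j' : ℕ} {s s' : Finset ℕ} {p : P}
    (h : Dec L B j s p) (h' : Dec L B j' s' p) (hc : s.card = s'.card) : j = j' := by
  rcases lt_trichotomy j j' with h1 | h1 | h1
  · exact absurd hc (h.card_lt h' h1).ne
  · exact h1
  · exact absurd hc.symm (h'.card_lt h h1).ne

private theorem exists_dec {B : Nam P} {p : P} (h : InfB L B p) (n : ℕ) :
    ∀ r ≤ p, ∃ r' ≤ r, ∃ j s, s.card = n ∧ Dec L B j s r' := by
  classical
  induction n with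
  | zero =>
    intro r hr
    obtain ⟨r', hr', j, -, h1, h2⟩ := next_el h 0 r hr
    refine ⟨r', hr', j, ∅, rfl, h1, fun i hi => absurd hi (Finset.notMem_empty i),
      fun i hi => ⟨fun h' => absurd h' (Finset.notMem_empty i), fun _ => h2 i (Nat.zero_le i) hi⟩⟩
  | succ n ih =>
    intro r hr
    obtain ⟨r1, hr1, j, s, hs, hd⟩ := ih r hr
    obtain ⟨r2, hr2, j', hj', h1, h2⟩ := next_el h (j + 1) r1 (hr1.trans hr)
    have hjs : j ∉ s := fun hj => lt_irrefl j (hd.2.1 j hj)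
    refine ⟨r2, hr2.trans hr1, j', insert j s, by rw [Finset.card_insert_of_notMem hjs, hs], h1,
      fun i hi => ?_, fun i hi => ⟨fun h' => ?_, fun h' => ?_⟩⟩
    · rcases Finset.mem_insert.1 hi with rfl | hi
      · omega
      · have := hd.2.1 i hi
        omega
    · rcases Finset.mem_insert.1 h' with rfl | h'
      · exact fmem_mono hr2 hd.1
      · exact fmem_mono hr2 ((hd.2.2 i (hd.2.1 i h')).1 h')
    · rw [Finset.mem_insert, not_or] at h'
      rcases Nat.lt_or_ge i j with hij | hij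
      · exact fun q hq => (hd.2.2 i hij).2 h'.2 q (hq.trans hr2)
      · exact h2 i (by omega) hi

end ind

/-! ### The countable subfamily and the combination -/

section comb

variable {L : Type} [LinearOrder L] [WellFoundedLT L] [Len L]

/-- `z = e(j)` for some `j ∈ B` -/
private def PhA (L : Type) [LinearOrder L] [WellFoundedLT L] [Len L] (e B z : Nam P) (p : P) :
    Prop := ∀ q ≤ p, ∃ r ≤ q, ∃ j, fmem (nu L P j) B r ∧ fmem (opN (nu L P j) z) e r

private theorem phA_reg (e B z : Nam P) : Reg (PhA L e B z) := Reg.dense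

private theorem phA_ext (e B : Nam P) : Ext' (PhA L e B) := by
  intro x y p h hx q hq
  obtain ⟨r, hr, j, h1, h2⟩ := hx q hq
  exact ⟨r, hr, j, h1, fmem_congr_left (opN_congr (feq_refl _ _) (feq_mono (hr.trans hq) h)) h2⟩

private def PhJ (ε : Bool) (A z : Nam P) (p : P) : Prop :=
  (ε = true → ∀ a, ∀ q ≤ p, fmem a A q → fmem z a q) ∧
    (ε = false → ∀ a, ∀ q ≤ p, fmem a A q → ∀ r ≤ q, ¬ fmem z a r)

private theorem reg_imp {S T : P → Prop} (hS : ∀ {p q}, q ≤ p → S p → S q) (hT : Reg T) :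
    Reg (fun p => ∀ q ≤ p, S q → T q) := by
  refine ⟨fun hq h r hr => h r (hr.trans hq), fun {p} h q hq hSq => hT.reg fun r hr => ?_⟩
  obtain ⟨s, hs, h'⟩ := h r (hr.trans hq)
  exact ⟨s, hs, h' s le_rfl (hS (hs.trans hr) hSq)⟩

private theorem phJ_reg (ε : Bool) (A z : Nam P) : Reg (PhJ ε A z) :=
  (Reg.all fun _ => Reg.all fun a => reg_imp (S := fun p => fmem a A p)
      (fun h h' => fmem_mono h h') (fmemReg z a)).and
    (Reg.all fun _ => Reg.all fun a => reg_imp (S := fun p => fmem a A p)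
      (fun h h' => fmem_mono h h') (Reg.neg (S := fun p => fmem z a p)
        fun h h' => fmem_mono h h'))

private theorem phJ_ext (ε : Bool) (A : Nam P) : Ext' (PhJ ε A) := by
  intro x y p h hx
  refine ⟨fun hε a q hq ha => ?_, fun hε a q hq ha r hr hy => ?_⟩
  · exact fmem_congr_left (feq_mono hq h) (hx.1 hε a q hq ha)
  · exact hx.2 hε a q hq ha r hr (fmem_congr_left (feq_symm (feq_mono (hr.trans hq) h)) hy)

variable (L) in
private noncomputable def AN (e B I : Nam P) : Nam P := Nam.sep I (PhA L e B) (phA_reg e B)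

private noncomputable def JN (K : Set L) (ε : Bool) (A : Nam P) : Nam P :=
  Nam.sep (chk P K) (PhJ ε A) (phJ_reg ε A)

private theorem mem_AN {e B I z : Nam P} {p : P} :
    fmem z (AN L e B I) p ↔ fmem z I p ∧ PhA L e B z p := fmem_sep (phA_ext e B)

omit [Len L] in
private theorem mem_JN {K : Set L} {ε : Bool} {A z : Nam P} {p : P} :
    fmem z (JN K ε A) p ↔ fmem z (chk P K) p ∧ PhJ ε A z p := fmem_sep (phJ_ext ε A)

private theorem unbd_JN {K : Set L} {e B I : Nam P} {ε : Bool} {p : P} (h : Hom K e ε B p) :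
    Unbd K (JN K ε (AN L e B I)) p := by
  intro ξ hξ q hq
  obtain ⟨r, hr, α, hα, hξα, h1⟩ := h ξ hξ q hq
  refine ⟨r, hr, α, hα, hξα, mem_JN.2 ⟨fmem_on_chk.2 hα, fun hε a s hs ha => ?_,
    fun hε a s hs ha t ht hat => ?_⟩⟩
  · refine fmem_reg fun t ht => ?_
    obtain ⟨u, hu, j, h2, h3⟩ := (mem_AN.1 ha).2 t ht
    exact ⟨u, hu, (h1 j u (hu.trans (ht.trans hs)) h2 a h3).1 hε⟩
  · obtain ⟨u, hu, j, h2, h3⟩ := (mem_AN.1 ha).2 t ht
    exact (h1 j u (hu.trans (ht.trans hs)) h2 a h3).2 hε u le_rfl (fmem_mono hu hat)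

private theorem range_mem {e I b : Nam P} {j : ℕ} {p : P} (he : FInj e (on P (Len.o0 : L)) I p)
    (h : fmem (opN (nu L P j) b) e p) : fmem b I p := by
  refine fmem_reg fun q hq => ?_
  obtain ⟨r, hr, a, b', -, h2, h3⟩ := he.pairs _ p le_rfl h q hq
  exact ⟨r, hr, fmem_congr_left (feq_symm (opN_inj.1 h3).2) h2⟩

private def R1 (L : Type) [LinearOrder L] [WellFoundedLT L] [Len L] (e B : Nam P) (j : ℕ)
    (a : Nam P) (p : P) : Prop := fmem (nu L P j) B p ∧ fmem (opN (nu L P j) a) e p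

private theorem R1_mono (e B : Nam P) (j : ℕ) (a : Nam P) (p q : P) (hq : q ≤ p)
    (h : R1 L e B j a p) : R1 L e B j a q := ⟨fmem_mono hq h.1, fmem_mono hq h.2⟩

private theorem inj1 {e B I : Nam P} {p : P} (he : FInj e (on P (Len.o0 : L)) I p) :
    FInj (pr L (AN L e B I) (R1 L e B) (R1_mono e B)) (AN L e B I) (on P (Len.o0 : L)) p := by
  refine inj_pr (fun j a a' p h h' => ⟨h'.1, fmem_congr_left (opN_congr (feq_refl _ _) h) h'.2⟩)
    (fun a q hq ha => ?_) (fun a j j' q hq h1 h2 => ?_) (fun a a' j q hq h1 h2 => ?_)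
  · obtain ⟨r, hr, j, h1, h2⟩ := (mem_AN.1 ha).2 q le_rfl
    exact ⟨r, hr, j, h1, h2⟩
  · exact nu_inj (L := L) (he.inj _ _ _ q hq h1.2 h2.2)
  · exact he.func _ _ _ q hq h1.2 h2.2

private def R2 (L : Type) [LinearOrder L] [WellFoundedLT L] [Len L] (e B : Nam P) (n : ℕ)
    (a : Nam P) (p : P) : Prop :=
  ∃ j s, s.card = n ∧ Dec L B j s p ∧ fmem (opN (nu L P j) a) e p

private theorem R2_mono (e B : Nam P) (n : ℕ) (a : Nam P) (p q : P) (hq : q ≤ p)
    (h : R2 L e B n a p) : R2 L e B n a q := by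
  obtain ⟨j, s, h1, h2, h3⟩ := h
  exact ⟨j, s, h1, h2.mono hq, fmem_mono hq h3⟩

private theorem inj2 {e B I : Nam P} {p : P} (he : FInj e (on P (Len.o0 : L)) I p)
    (hB : InfB L B p) :
    FInj (pr' L (AN L e B I) (R2 L e B) (R2_mono e B)) (on P (Len.o0 : L)) (AN L e B I) p := by
  refine inj_pr' (fun n a a' p h ⟨j, s, h1, h2, h3⟩ =>
    ⟨j, s, h1, h2, fmem_congr_left (opN_congr (feq_refl _ _) h) h3⟩)
    (fun n q hq => ?_) (fun a n n' q hq h1 h2 => ?_) (fun a a' n q hq h1 h2 => ?_)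
  · obtain ⟨r, hr, j, s, h1, h2⟩ := exists_dec hB n q hq
    obtain ⟨t, ht, b, h3⟩ := he.total _ r (hr.trans hq) (nu_mem j r) r le_rfl
    have htp : t ≤ p := ht.trans (hr.trans hq)
    refine ⟨t, ht.trans hr, b, mem_AN.2 ⟨range_mem ((FInj.reg' _ _ _).mono htp he) h3,
      fun u hu => ⟨u, le_rfl, j, fmem_mono (hu.trans ht) h2.1, fmem_mono hu h3⟩⟩,
      j, s, h1, h2.mono ht, h3⟩
  · obtain ⟨j, s, h3, h4, h5⟩ := h1
    obtain ⟨j', s', h3', h4', h5'⟩ := h2
    obtain rfl : j = j' := nu_inj (L := L) (he.inj _ _ _ q hq h5 h5')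
    rw [← h3, ← h3', h4.eq_set h4']
  · obtain ⟨j, s, h3, h4, h5⟩ := h1
    obtain ⟨j', s', h3', h4', h5'⟩ := h2
    obtain rfl : j = j' := h4.eq_ind h4' (h3.trans h3'.symm)
    exact he.func _ _ _ q hq h5 h5'

variable [Nonempty P]

private theorem not_ME_empty (z : MP9708F.Mod P) : ¬ ME z (cls Nam.empty) := by
  obtain ⟨z, rfl⟩ := cls_surj z
  intro h
  exact not_ev_false ((ME_cls.1 h).mono fun p hp => not_fmem_empty z p hp)

omit [Len L] in
private theorem ME_JN {K : Set L} {ε : Bool} {A z : Nam P} :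
    ME (cls z) (cls (JN K ε A)) ↔ ME (cls z) (cls (chk P K)) ∧
      (ε = true → ∀ a, ME a (cls A) → ME (cls z) a) ∧
      (ε = false → ∀ a, ME a (cls A) → ¬ ME (cls z) a) := by
  have h1 : ME (cls z) (cls (JN K ε A)) ↔ ME (cls z) (cls (chk P K)) ∧
      ∀ᶠ p in (genU P : Filter P), PhJ ε A z p := by
    rw [ME_cls, ME_cls, ← Filter.eventually_and]
    exact Filter.eventually_congr (Filter.Eventually.of_forall fun p => mem_JN)
  rw [h1]
  refine and_congr_right fun _ => ?_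
  cases ε with
  | true =>
    have h2 : (∀ᶠ p in (genU P : Filter P), PhJ true A z p) ↔
        ∀ᶠ p in (genU P : Filter P), ∀ a, ∀ q ≤ p, fmem a A q → fmem z a q :=
      Filter.eventually_congr (Filter.Eventually.of_forall fun p =>
        ⟨fun h => h.1 rfl, fun h => ⟨fun _ => h, fun h' => absurd h' (by simp)⟩⟩)
    rw [h2, ← sem_all_imp (S := fun a p => fmem a A p) (T := fun a p => fmem z a p)
      (fun a => fmemReg _ _) (fun a => fmemReg _ _) (fun a a' p h h' => fmem_congr_left h h')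
      (fun a a' p h h' => fmem_congr_right h h')]
    constructor
    · intro h
      refine ⟨fun _ a ha => ?_, fun h' => absurd h' (by simp)⟩
      obtain ⟨a, rfl⟩ := cls_surj a
      exact h a ha
    · intro h a ha
      exact h.1 rfl (cls a) ha
  | false =>
    have h2 : (∀ᶠ p in (genU P : Filter P), PhJ false A z p) ↔
        ∀ᶠ p in (genU P : Filter P), ∀ a, ∀ q ≤ p, fmem a A q → ∀ r ≤ q, ¬ fmem z a r :=
      Filter.eventually_congr (Filter.Eventually.of_forall fun p =>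
        ⟨fun h => h.2 rfl, fun h => ⟨fun h' => absurd h' (by simp), fun _ => h⟩⟩)
    rw [h2, ← sem_all_imp (S := fun a p => fmem a A p)
      (T := fun a p => ∀ r ≤ p, ¬ fmem z a r)
      (fun a => fmemReg _ _) (fun a => Reg.neg fun h h' => fmem_mono h h')
      (fun a a' p h h' => fmem_congr_left h h')
      (fun a a' p h h' r hr hr' => h' r hr (fmem_congr_right (feq_symm (feq_mono hr h)) hr'))]
    constructor
    · intro h
      refine ⟨fun h' => absurd h' (by simp), fun _ a ha => ?_⟩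
      obtain ⟨a, rfl⟩ := cls_surj a
      have h3 := h a ha
      rw [gen_not fun p hp q hq => fmem_mono hq hp] at h3
      exact h3
    · intro h a ha
      rw [gen_not fun p hp q hq => fmem_mono hq hp]
      exact h.2 rfl (cls a) ha

end comb

variable [Nonempty P] {L : Type} [LinearOrder L] [WellFoundedLT L] [Len L]

set_option linter.unusedVariables false in
theorem no_bif {K : Set L} (hK : IsLowerSet K) (hRG : RG P K) (hUB : UB P K) :
    ¬ ∃ I, IsBIF ME (cls (on P (Len.o0 : L))) (cls (chk P K)) I := by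
  rintro ⟨I, hI⟩
  obtain ⟨I, rfl⟩ := cls_surj I
  obtain ⟨e, he⟩ := hI.inf
  obtain ⟨e, rfl⟩ := cls_surj e
  rw [isInj_cls] at he
  -- the set `B` and the bit `ε`
  have h1 : ∀ᶠ p in (genU P : Filter P), ∃ ε B, Good K e ε B p := by
    refine (gen_reg (A := fun p => ∃ ε B, Good K e ε B p)
      fun p ⟨ε, B, h⟩ q hq => ⟨ε, B, (good_reg K e ε B).mono hq h⟩).1 ?_
    filter_upwards [he] with p hp using good_dense hUB hp
  have h2 : (∀ᶠ p in (genU P : Filter P), ∃ B, Good K e true B p) ∨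
      ∀ᶠ p in (genU P : Filter P), ∃ B, Good K e false B p := by
    rw [← Ultrafilter.eventually_or]
    filter_upwards [h1] with p ⟨ε, B, hp⟩
    cases ε with
    | true => exact Or.inl ⟨B, hp⟩
    | false => exact Or.inr ⟨B, hp⟩
  obtain ⟨ε, h3⟩ : ∃ ε, ∀ᶠ p in (genU P : Filter P), ∃ B, Good K e ε B p := by
    rcases h2 with h2 | h2
    · exact ⟨true, h2⟩
    · exact ⟨false, h2⟩
  obtain ⟨B, hB⟩ := (sem_ex (S := Good K e ε) (good_reg K e ε) (good_ext K e ε)).2 (by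
    filter_upwards [h3] with p ⟨B, hp⟩ q hq
    exact ⟨q, le_rfl, B, (good_reg K e ε B).mono hq hp⟩)
  -- the combination
  set A : Nam P := AN L e B I with hA
  set J : Nam P := JN K ε A with hJ
  have hsub : Sub ME (cls A) (cls I) :=
    los_sub.2 (Filter.Eventually.of_forall fun p z q _ hz => (mem_AN.1 hz).1)
  have hcard : HasCard ME (cls A) (cls (on P (Len.o0 : L))) := by
    constructor
    · rw [cardLe_cls]
      filter_upwards [he] with p hp q hq
      exact ⟨q, le_rfl, _, inj1 ((FInj.reg' _ _ _).mono hq hp)⟩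
    · rw [cardLe_cls]
      filter_upwards [he, hB] with p hp hBp q hq
      exact ⟨q, le_rfl, _, inj2 ((FInj.reg' _ _ _).mono hq hp)
        ((good_reg K e ε B).mono hq hBp).1⟩
  have hlt : CardLt ME (cls J) (cls (chk P K)) := by
    cases ε with
    | true =>
      refine hI.ctbl (cls A) (cls A) (cls Nam.empty) (cls J) hsub hcard
        ⟨fun z => ⟨Or.inl, fun h => h.resolve_right (not_ME_empty z)⟩,
          fun z h => not_ME_empty z h.2⟩ fun x => ?_
      obtain ⟨x, rfl⟩ := cls_surj x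
      rw [hJ, ME_JN]
      exact ⟨fun h => ⟨h.1, h.2.1 rfl, fun a ha => absurd ha (not_ME_empty a)⟩,
        fun h => ⟨h.1, fun _ => h.2.1, fun h' => absurd h' (by simp)⟩⟩
    | false =>
      refine hI.ctbl (cls A) (cls Nam.empty) (cls A) (cls J) hsub hcard
        ⟨fun z => ⟨Or.inr, fun h => h.resolve_left (not_ME_empty z)⟩,
          fun z h => not_ME_empty z h.1⟩ fun x => ?_
      obtain ⟨x, rfl⟩ := cls_surj x
      rw [hJ, ME_JN]
      exact ⟨fun h => ⟨h.1, fun a ha => absurd ha (not_ME_empty a), h.2.2 rfl⟩,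
        fun h => ⟨h.1, fun h' => absurd h' (by simp), fun _ => h.2.2⟩⟩
  obtain ⟨μ, -, hμ, ⟨f, hf⟩, -⟩ := hlt
  obtain ⟨μ, rfl⟩ := cls_surj μ
  obtain ⟨f, rfl⟩ := cls_surj f
  rw [isInj_cls] at hf
  rw [ME_chk] at hμ
  refine not_ev_false (P := P) ?_
  filter_upwards [hμ, hf, hB] with p ⟨x, hx, hx'⟩ hfp hBp
  exact hRG f J x p hx (hfp.congr (feq_refl _ _) (feq_refl _ _) hx') (unbd_JN hBp.2)

end E8
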