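import Pool.Agent.Lib.MP_e8be47_lc.XReg

/-!
# the cardinals of the model
-/

open Set Cardinal

namespace E8

open MP9708F

variable {P : Type} [Preorder P] [Nonempty P] {L : Type} [LinearOrder L] [WellFoundedLT L] [Len L]

omit [Nonempty P] [Len L] in
private theorem M3_trans_chk {a : Set L} (ha : ∀ x ∈ a, ∀ y < x, y ∈ a) {z w : Nam P} {p : P}
    (h1 : fmem z (chk P a) p) (h2 : fmem w z p) : fmem w (chk P a) p := by
  rw [fmem_chk] at h1 ⊢
  intro q hq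
  obtain ⟨r, hr, x, hx, hx'⟩ := h1 q hq
  have h3 : fmem w (chk P (Iio x)) r := by
    rw [← on_eq]
    exact fmem_congr_right hx' (fmem_mono (hr.trans hq) h2)
  rw [fmem_chk] at h3
  obtain ⟨s, hs, y, hy, hy'⟩ := h3 r le_rfl
  exact ⟨s, hs.trans hr, y, ha x hx y hy, hy'⟩

omit [Len L] in
/-- (as in `ECard`) -/
theorem isOrd_chk' {a : Set L} (ha : IsLowerSet a) : IsOrd ME (cls (chk P a)) := by
  have ha' : ∀ x ∈ a, ∀ y < x, y ∈ a := fun x hx y hy => ha hy.le hx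
  constructor
  · intro z hz w hw
    obtain ⟨z, rfl⟩ := cls_surj z
    obtain ⟨w, rfl⟩ := cls_surj w
    rw [ME_cls] at hz hw ⊢
    filter_upwards [hz, hw] with p h1 h2 using M3_trans_chk ha' h1 h2
  · intro y hy z hz w hw
    obtain ⟨y, rfl⟩ := cls_surj y
    obtain ⟨z, rfl⟩ := cls_surj z
    obtain ⟨w, rfl⟩ := cls_surj w
    rw [ME_chk] at hy
    rw [ME_cls] at hz hw ⊢
    filter_upwards [hy, hz, hw] with p ⟨x, hx, hx'⟩ h1 h2
    have hx2 : feq y (chk P (Iio x)) p := by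
      rw [← on_eq]
      exact hx'
    refine fmem_congr_right (feq_symm hx2) (M3_trans_chk (z := z) ?_ ?_ h2)
    · intro u hu v hv
      exact lt_trans hv hu
    · exact fmem_congr_right hx2 h1

theorem isOmega_o0 : IsOmega ME (cls (on P (Len.o0 : L))) := by
  have hnt : ∀ n : ℕ, Len.nt n < (Len.o0 : L) := fun n => (Len.nt_range _).2 ⟨n, rfl⟩
  refine ⟨?_, ⟨⟨cls (on P (Len.nt 0 : L)), ?_⟩, ?_⟩, ?_⟩
  · rw [on_eq]
    exact isOrd_chk' (isLowerSet_Iio _)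
  · rw [ME_cls]
    exact Filter.Eventually.of_forall fun p => fmem_on_of_lt (hnt 0) p
  · intro y hy
    obtain ⟨y, rfl⟩ := cls_surj y
    rw [on_eq, ME_chk] at hy
    have h1 : ∃ z : Nam P, ∀ᶠ p in (genU P : Filter P),
        fmem z (on P (Len.o0 : L)) p ∧ fmem y z p := by
      refine (sem_ex (S := fun z p => fmem z (on P (Len.o0 : L)) p ∧ fmem y z p)
        (fun z => (fmemReg _ _).and (fmemReg _ _)) ?_).2 ?_
      · intro z z' p hz h
        exact ⟨fmem_congr_left hz h.1, fmem_congr_right hz h.2⟩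
      · filter_upwards [hy] with p ⟨x, hx, hx'⟩ q hq
        obtain ⟨n, rfl⟩ := (Len.nt_range x).1 hx
        refine ⟨q, le_rfl, on P (Len.nt (n + 1)), fmem_on_of_lt (hnt _) q, ?_⟩
        refine fmem_congr_left (feq_symm (feq_mono hq hx')) ?_
        exact fmem_on_of_lt (Len.nt_mono (Nat.lt_succ_self n)) q
    obtain ⟨z, hz⟩ := h1
    refine ⟨cls z, ?_, ?_⟩
    · rw [ME_cls]
      exact hz.mono fun p hp => hp.1
    · rw [ME_cls]
      exact hz.mono fun p hp => hp.2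
  · intro y hy hlim
    obtain ⟨y, rfl⟩ := cls_surj y
    rw [on_eq, ME_chk] at hy
    obtain ⟨⟨z0, hz0⟩, hl⟩ := hlim
    obtain ⟨z0, rfl⟩ := cls_surj z0
    rw [ME_cls] at hz0
    have h1 : ∀ z : Nam P, (∀ᶠ p in (genU P : Filter P), fmem z y p) →
        ∀ᶠ p in (genU P : Filter P), ∀ r ≤ p, ∃ s ≤ r, ∃ w, fmem w y s ∧ fmem z w s := by
      intro z hz
      obtain ⟨w, hw1, hw2⟩ := hl (cls z) (ME_cls.2 hz)
      obtain ⟨w, rfl⟩ := cls_surj w
      rw [ME_cls] at hw1 hw2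
      filter_upwards [hw1, hw2] with p h1 h2 r hr
      exact ⟨r, le_rfl, w, fmem_mono hr h1, fmem_mono hr h2⟩
    rw [sem_all_imp (S := fun z p => fmem z y p)
      (T := fun z p => ∀ r ≤ p, ∃ s ≤ r, ∃ w, fmem w y s ∧ fmem z w s)
      (fun z => fmemReg _ _) (fun z => Reg.dense) (fun z z' p hz h => fmem_congr_left hz h)
      (fun z z' p hz h q hq => by
        obtain ⟨r, hr, w, h1, h2⟩ := h q hq
        exact ⟨r, hr, w, h1, fmem_congr_left (feq_mono (hr.trans hq) hz) h2⟩)] at h1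
    refine not_ev_false (P := P) ?_
    filter_upwards [hy, hz0, h1] with p ⟨x, hx, hx'⟩ h2 h3
    obtain ⟨n, rfl⟩ := (Len.nt_range x).1 hx
    have key : ∀ (w : Nam P) (q : P), q ≤ p → fmem w y q → ∃ r ≤ q, ∃ k, k < n ∧
        feq w (on P (Len.nt k : L)) r := by
      intro w q hq hw
      have h4 : fmem w (chk P (Iio (Len.nt n : L))) q := by
        rw [← on_eq]
        exact fmem_congr_right (feq_mono hq hx') hw
      obtain ⟨r, hr, x, hx1, hx2⟩ := fmem_chk.1 h4 q le_rfl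
      obtain ⟨k, rfl⟩ := (Len.nt_range x).1 (lt_trans hx1 (hnt n))
      exact ⟨r, hr, k, Len.nt_mono.lt_iff_lt.1 hx1, hx2⟩
    cases n with
    | zero =>
      obtain ⟨r, -, k, hk, -⟩ := key z0 p le_rfl h2
      exact absurd hk (Nat.not_lt_zero k)
    | succ m =>
      have h5 : fmem (on P (Len.nt m : L)) y p :=
        fmem_congr_right (feq_symm hx') (fmem_on_of_lt (Len.nt_mono (Nat.lt_succ_self m)) p)
      obtain ⟨s, hs, w, hw1, hw2⟩ := h3 _ p le_rfl h5 p le_rfl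
      obtain ⟨r, hr, k, hk, hk'⟩ := key w s hs hw1
      have h6 : fmem (on P (Len.nt m : L)) (chk P (Iio (Len.nt k : L))) r := by
        rw [← on_eq]
        exact fmem_congr_right hk' (fmem_mono hr hw2)
      rw [fmem_on_chk] at h6
      have h7 : m < k := Len.nt_mono.lt_iff_lt.1 h6
      omega

omit [Len L] in
theorem isCard_of_rg {K : Set L} (hK : IsLowerSet K) (hmax : ∀ x ∈ K, ∃ y ∈ K, x < y)
    (h : RG P K) : IsCard ME (cls (chk P K)) := by
  refine ⟨isOrd_chk' hK, fun y hy hle => ?_⟩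
  obtain ⟨y, rfl⟩ := cls_surj y
  rw [ME_chk] at hy
  rw [cardLe_cls] at hle
  refine not_ev_false (P := P) ?_
  filter_upwards [hy, hle] with p ⟨β, hβ, hβ'⟩ hp
  obtain ⟨r, hr, e, he⟩ := hp p le_rfl
  refine h e (chk P K) β r hβ (FInj.congr (feq_refl e r) (feq_refl _ r) (feq_mono hr hβ') he) ?_
  intro ξ hξ q hq
  exact ⟨q, le_rfl, ξ, hξ, le_rfl, fmem_on_chk.2 hξ⟩

omit [Nonempty P] [Len L] in
private theorem M3_fInj_on {x y : L} (h : #(Iio x) ≤ #(Iio y)) (p : P) :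
    ∃ e, FInj e (on P x) (on P y) p := by
  obtain ⟨i⟩ : Nonempty (Iio x ↪ Iio y) := h
  obtain ⟨g, hg⟩ : ∃ g : L → L, ∀ z : Iio x, g z.1 = (i z).1 := by
    classical
    refine ⟨fun z => if hz : z ∈ Iio x then (i ⟨z, hz⟩).1 else z, fun z => dif_pos z.2⟩
  have h1 : ∀ z ∈ Iio x, g z ∈ Iio y := fun z hz => by
    rw [hg ⟨z, hz⟩]
    exact (i ⟨z, hz⟩).2
  have h2 : InjOn g (Iio x) := by
    intro z hz w hw hzw
    rw [hg ⟨z, hz⟩, hg ⟨w, hw⟩] at hzw
    exact congrArg Subtype.val (i.injective (Subtype.ext hzw))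
  refine ⟨gr P (Iio x) g, ?_⟩
  rw [on_eq, on_eq]
  exact gr_inj h1 h2 p

omit [Len L] in
private theorem M3_cardLe {z : Nam P} {K : Set L} {w : L}
    (hz : ∀ᶠ p in (genU P : Filter P), ∃ x ∈ K, feq z (on P x) p)
    (hK : ∀ x ∈ K, ∀ p : P, ∃ e, FInj e (on P x) (on P w) p) :
    CardLe ME (cls z) (cls (on P w)) := by
  rw [cardLe_cls]
  filter_upwards [hz] with p ⟨x, hx, hx'⟩ q hq
  obtain ⟨e, he⟩ := hK x hx q
  exact ⟨q, le_rfl, e, FInj.congr (feq_refl e q) (feq_symm (feq_mono hq hx')) (feq_refl _ q) he⟩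

omit [Len L] in
theorem cardLe_on {x y : L} (h : #(Iio x) ≤ #(Iio y)) :
    CardLe ME (cls (on P x)) (cls (on P y)) := by
  rw [cardLe_cls]
  refine Filter.Eventually.of_forall fun p q _ => ?_
  obtain ⟨e, he⟩ := M3_fInj_on (P := P) h q
  exact ⟨q, le_rfl, e, he⟩

omit [Nonempty P] in
private theorem M3_fInj_col (h : Hyp P L) (x : L) (p : P) :
    ∃ e, FInj e (on P x) (on P (Len.o1 : L)) p := by
  obtain ⟨O, cd, hO, hmono, hfun, hden⟩ := h.col
  obtain ⟨B⟩ : Nonempty (Iio x ↪ Set ℕ) := by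
    have h1 : #(Iio x) ≤ #(Set ℕ) := by
      rw [mk_set, mk_nat, two_power_aleph0]
      exact Len.small x
    exact h1
  obtain ⟨ι⟩ : Nonempty (O ↪ Iio (Len.o1 : L)) := by
    have h1 : #O ≤ #(Iio (Len.o1 : L)) := by
      rw [Len.o1_card]
      exact hO
    exact h1
  let e : Nam P := ⟨Iio x × O, fun j => ⟨{p | cd p j.2 (B j.1) ∧
    ∀ o', (ι o').1 < (ι j.2).1 → ∀ q ≤ p, ¬ cd q o' (B j.1)}, fun a b hba ha =>
      ⟨hmono _ _ _ _ hba ha.1, fun o' ho' q hq => ha.2 o' ho' q (hq.trans hba)⟩⟩,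
    fun j => opN (on P j.1.1) (on P (ι j.2).1)⟩
  have hmem : ∀ (z : Nam P) (q : P), fmem z e q ↔ ∀ r ≤ q, ∃ s ≤ r, ∃ (y : Iio x) (o : O),
      (cd s o (B y) ∧ ∀ o', (ι o').1 < (ι o).1 → ∀ t ≤ s, ¬ cd t o' (B y)) ∧
      feq z (opN (on P y.1) (on P (ι o).1)) s := by
    intro z q
    constructor
    · intro h r hr
      obtain ⟨s, hs, j, hj, hj'⟩ := h r hr
      exact ⟨s, hs, j.1, j.2, hj, hj'⟩
    · intro h r hr
      obtain ⟨s, hs, y, o, hj, hj'⟩ := h r hr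
      exact ⟨s, hs, (y, o), hj, hj'⟩
  have hmin : ∀ (y : Iio x) (o o' : O) (t : P),
      (cd t o (B y) ∧ ∀ o'', (ι o'').1 < (ι o).1 → ∀ u ≤ t, ¬ cd u o'' (B y)) →
      (cd t o' (B y) ∧ ∀ o'', (ι o'').1 < (ι o').1 → ∀ u ≤ t, ¬ cd u o'' (B y)) → o = o' := by
    intro y o o' t h1 h2
    rcases lt_trichotomy (ι o).1 (ι o').1 with h3 | h3 | h3
    · exact absurd h1.1 (h2.2 o h3 t le_rfl)
    · exact ι.injective (Subtype.ext h3)
    · exact absurd h2.1 (h1.2 o' h3 t le_rfl)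
  refine ⟨e, ⟨?_, ?_, ?_⟩, ?_⟩
  · -- pairs
    intro z q _ hz r hr
    obtain ⟨s, hs, y, o, -, hzy⟩ := (hmem z q).1 hz r hr
    exact ⟨s, hs, on P y.1, on P (ι o).1, fmem_on_of_lt y.2 s, fmem_on_of_lt (ι o).2 s, hzy⟩
  · -- total
    intro a q _ ha r hr
    rw [on_eq, fmem_chk] at ha
    obtain ⟨s1, hs1, y, hy, hay⟩ := ha r hr
    let A : Set L := {l | ∃ o, (ι o).1 = l ∧ ∃ t ≤ s1, cd t o (B ⟨y, hy⟩)}
    have hA : A.Nonempty := by
      obtain ⟨t, ht, o, ho⟩ := hden s1 (B ⟨y, hy⟩)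
      exact ⟨(ι o).1, o, rfl, t, ht, ho⟩
    obtain ⟨l, ⟨o, rfl, t, ht, ho⟩, hlmin⟩ := (wellFounded_lt (α := L)).has_min A hA
    have hw : cd t o (B ⟨y, hy⟩) ∧ ∀ o', (ι o').1 < (ι o).1 → ∀ u ≤ t, ¬ cd u o' (B ⟨y, hy⟩) :=
      ⟨ho, fun o' ho' u hu hcd => hlmin _ ⟨o', rfl, u, hu.trans ht, hcd⟩ ho'⟩
    refine ⟨t, ht.trans hs1, on P (ι o).1, ?_⟩
    rw [hmem]
    intro u hu
    refine ⟨u, le_rfl, ⟨y, hy⟩, o, ⟨hmono _ _ _ _ hu hw.1, fun o' ho' v hv =>
      hw.2 o' ho' v (hv.trans hu)⟩, ?_⟩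
    exact opN_congr (feq_mono (hu.trans ht) hay) (feq_refl _ u)
  · -- functional
    intro a b b' q _ hb hb'
    refine feq_reg fun r hr => ?_
    obtain ⟨s, hs, y, o, hw, he⟩ := (hmem _ q).1 hb r hr
    obtain ⟨t, ht, y', o', hw', he'⟩ := (hmem _ q).1 hb' s (hs.trans hr)
    obtain ⟨h1, h2⟩ := opN_inj.1 (feq_mono ht he)
    obtain ⟨h3, h4⟩ := opN_inj.1 he'
    have hyy : y = y' := Subtype.ext (on_inj.1 (feq_trans (feq_symm h1) h3))
    subst hyy
    have hoo : o = o' := hmin y o o' t ⟨hmono _ _ _ _ ht hw.1, fun o'' ho'' u hu =>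
      hw.2 o'' ho'' u (hu.trans ht)⟩ hw'
    subst hoo
    exact ⟨t, ht.trans hs, feq_trans h2 (feq_symm h4)⟩
  · -- injective
    intro a a' b q _ hb hb'
    refine feq_reg fun r hr => ?_
    obtain ⟨s, hs, y, o, hw, he⟩ := (hmem _ q).1 hb r hr
    obtain ⟨t, ht, y', o', hw', he'⟩ := (hmem _ q).1 hb' s (hs.trans hr)
    obtain ⟨h1, h2⟩ := opN_inj.1 (feq_mono ht he)
    obtain ⟨h3, h4⟩ := opN_inj.1 he'
    have hoo : o = o' := ι.injective (Subtype.ext (on_inj.1 (feq_trans (feq_symm h2) h4)))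
    subst hoo
    have hyy : y = y' := B.injective (hfun t o _ _ (hmono _ _ _ _ ht hw.1) hw'.1)
    subst hyy
    exact ⟨t, ht.trans hs, feq_trans h1 (feq_symm h3)⟩

/-- all elements of `L` have cardinality at most `ω₁` in the model -/
theorem cardLe_col (h : Hyp P L) (x : L) : CardLe ME (cls (on P x)) (cls (on P (Len.o1 : L))) := by
  rw [cardLe_cls]
  refine Filter.Eventually.of_forall fun p q _ => ?_
  obtain ⟨e, he⟩ := M3_fInj_col h x q
  exact ⟨q, le_rfl, e, he⟩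

theorem next_o1 (h : Hyp P L) : IsNext ME (cls (on P (Len.o0 : L))) (cls (on P (Len.o1 : L))) := by
  have hal : ℵ₀ ≤ #(Iio (Len.o0 : L)) := by
    rw [← mk_nat]
    refine mk_le_of_injective (f := fun n : ℕ => (⟨Len.nt n, (Len.nt_range _).2 ⟨n, rfl⟩⟩ :
      Iio (Len.o0 : L))) fun m n hmn => ?_
    exact Len.nt_mono.injective (congrArg Subtype.val hmn)
  have hlt : (Len.o0 : L) < Len.o1 := by
    by_contra hcon
    push Not at hcon
    have h1 : Iio (Len.o1 : L) ⊆ range (Len.nt : ℕ → L) := by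
      intro y hy
      obtain ⟨n, hn⟩ := (Len.nt_range y).1 (lt_of_lt_of_le hy hcon)
      exact ⟨n, hn.symm⟩
    have h2 : (Iio (Len.o1 : L)).Countable := (countable_range _).mono h1
    have h3 := h2.le_aleph0
    rw [Len.o1_card] at h3
    exact absurd h3 (aleph0_lt_aleph_one).not_ge
  refine ⟨?_, ?_, ?_⟩
  · rw [on_eq (Len.o1 : L)]
    refine isCard_of_rg (isLowerSet_Iio _) ?_ (rg_o1 h)
    intro x hx
    obtain ⟨δ, hδ, hδ'⟩ := o1_bdd (countable_singleton x) (fun a ha => by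
      rw [mem_singleton_iff] at ha
      rw [ha]; exact hx)
    exact ⟨δ, hδ, hδ' x rfl⟩
  · rw [ME_cls]
    exact Filter.Eventually.of_forall fun p => fmem_on_of_lt hlt p
  · intro z hz hoz hzo
    obtain ⟨z, rfl⟩ := cls_surj z
    rw [on_eq (Len.o1 : L), ME_chk] at hzo
    refine hz.2 _ hoz (M3_cardLe hzo fun x hx p => M3_fInj_on ?_ p)
    exact ((Len.o1_small x hx).le_aleph0).trans hal

theorem next_univ (h : Hyp P L) :
    IsNext ME (cls (on P (Len.o1 : L))) (cls (chk P (univ : Set L))) := by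
  refine ⟨?_, ?_, ?_⟩
  · refine isCard_of_rg isLowerSet_univ ?_ (rg_univ h)
    intro x _
    obtain ⟨δ, hδ⟩ := Len.bdd ({x} : Set L) (by
      rw [mk_singleton]
      exact one_le_aleph0.trans aleph0_le_continuum)
    exact ⟨δ, mem_univ _, hδ x rfl⟩
  · rw [ME_cls]
    exact Filter.Eventually.of_forall fun p => fmem_on_chk.2 (mem_univ _)
  · intro z hz hoz hzo
    obtain ⟨z, rfl⟩ := cls_surj z
    rw [ME_chk] at hzo
    exact hz.2 _ hoz (M3_cardLe hzo fun x _ p => M3_fInj_col h x p)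

end E8
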