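import Pool.Agent.Lib.MP_9708fd_lc.EStmt

/-!
# Barely independent families inside a model of set theory

`M` is a type with a binary relation `E` (read `E x y` as `x ∈ y`).  Everything below is first
order over `(M, E)`.  `CardLe`, `HasCard`, `IsOrd`, `IsCard`, `Sub` are from `EStmt`.
-/

namespace E8

open MP9708F

variable {M : Type 1} (E : M → M → Prop)

/-- `x` is nonempty and has no `∈`-maximal element (for ordinals: `x` is a nonzero limit) -/
def IsLim (x : M) : Prop := (∃ y, E y x) ∧ ∀ y, E y x → ∃ z, E z x ∧ E y z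

/-- `w = ω`: the least nonzero limit ordinal -/
def IsOmega (w : M) : Prop := IsOrd E w ∧ IsLim E w ∧ ∀ y, E y w → ¬ IsLim E y

/-- `y = x⁺`: `y` is a cardinal, `x ∈ y`, and there is no cardinal strictly between -/
def IsNext (x y : M) : Prop := IsCard E y ∧ E x y ∧ ∀ z, IsCard E z → E x z → ¬ E z y

/-- `|X| < κ` (`κ` a cardinal): the cardinality of `X` is an element of `κ` -/
def CardLt (X κ : M) : Prop := ∃ μ, IsCard E μ ∧ E μ κ ∧ HasCard E X μ

/-- `R` is the power set of `x` -/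
def IsPower (R x : M) : Prop := ∀ z, E z R ↔ Sub E z x

/-- `A` is finite: it has the cardinality of an element of `w = ω` -/
def IsFin (w A : M) : Prop := ∃ n, E n w ∧ HasCard E A n

/-- `U = A ∪ B` and `A ∩ B = ∅` -/
def IsDisjUnion (U A B : M) : Prop := (∀ z, E z U ↔ E z A ∨ E z B) ∧ ∀ z, ¬ (E z A ∧ E z B)

/-- `J = ⋂ 𝒜^h = {x ∈ l | x ∈ A for all A ∈ 𝒜₀ and x ∉ A for all A ∈ 𝒜₁}`, where `𝒜 = 𝒜₀ ∪ 𝒜₁` and
`h : 𝒜 → 2` is the function with `h⁻¹(0) = 𝒜₀` and `h⁻¹(1) = 𝒜₁` -/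
def IsComb (l A0 A1 J : M) : Prop :=
  ∀ x, E x J ↔ E x l ∧ (∀ A, E A A0 → E x A) ∧ ∀ A, E A A1 → ¬ E x A

/-- `I` is a barely independent family over `l` (`w = ω`): `I` is a family of subsets of `l`, each of
cardinality `l`, `|I| ≥ ω`; for all finite `𝒜 ⊆ I` and all `h : 𝒜 → 2`, `|⋂ 𝒜^h| = l`; for all
`𝒜 ⊆ I` with `|𝒜| = ω` and all `h : 𝒜 → 2`, `|⋂ 𝒜^h| < l`. -/
structure IsBIF (w l I : M) : Prop where
  mem : ∀ A, E A I → Sub E A l ∧ HasCard E A l
  inf : CardLe E w I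
  fin : ∀ A A0 A1 J, Sub E A I → IsFin E w A → IsDisjUnion E A A0 A1 → IsComb E l A0 A1 J →
    HasCard E J l
  ctbl : ∀ A A0 A1 J, Sub E A I → HasCard E A w → IsDisjUnion E A A0 A1 → IsComb E l A0 A1 J →
    CardLt E J l

end E8
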