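import Pool.Agent.Lib.MP_9708fd_lc.ESem
import Pool.Agent.Lib.MP_e8be47_lc.XStmt
import Pool.Agent.Lib.MP_e8be47_lc.XHyp

/-!
# Evaluation of the statement: definitions
-/

open Set Cardinal

namespace E8

open MP9708F

variable {P : Type} [Preorder P] {L : Type} [LinearOrder L] [WellFoundedLT L]

/-- `p` forces `J` to be unbounded in `K` -/
def Unbd (K : Set L) (J : Nam P) (p : P) : Prop :=
  ∀ ξ ∈ K, ∀ q ≤ p, ∃ r ≤ q, ∃ α ∈ K, ξ ≤ α ∧ fmem (on P α) J r

/-- `K` is forced to be regular: no unbounded subset of `K` injects into an element of `K` -/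
def RG (P : Type) [Preorder P] (K : Set L) : Prop :=
  ∀ (e J : Nam P) (μ : L) (p : P), μ ∈ K → FInj e J (on P μ) p → Unbd K J p → False

/-- for every family `τ` of reals indexed by `K` there are (densely) an infinite `β` and `ε` such that
unboundedly many `τ α` have the value `ε` on `β` -/
def UB (P : Type) [Preorder P] (K : Set L) : Prop :=
  ∀ (τ : L → RName P) (p : P), ∃ q ≤ p, ∃ (β : RName P) (ε : Bool),
    (∀ m, ∀ r ≤ q, ∃ r' ≤ r, ∃ j ≥ m, β.N j r') ∧
    ∀ ξ ∈ K, ∀ r ≤ q, ∃ r' ≤ r, ∃ α ∈ K, ξ ≤ α ∧ ∀ j, ∀ r'' ≤ r', β.N j r'' → (τ α).Is j ε r''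

/-- the name in the model of a real -/
noncomputable def rn [Len L] (τ : RName P) : Nam P :=
  nn fun x : L => ⟨{p | ∃ j, x = Len.nt j ∧ τ.In j p}, fun _ _ hq ⟨j, hj, h⟩ =>
    ⟨j, hj, h.mono hq⟩⟩

variable (P L) in
/-- the set of all reals -/
noncomputable def RR [Len L] : Nam P := ⟨RName P, fun _ => ⊤, rn (L := L)⟩

end E8
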