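import Pool.Agent.Lib.MP_e8be47_lc.XLen
import Pool.Agent.Lib.MP_e8be47_lc.XCol
import Pool.Agent.Lib.MP_e8be47_lc.WForce

/-!
# the hypotheses for `Col × Cond LL`
-/

open Set Classical Cardinal

set_option linter.unusedSectionVars false

namespace E8

theorem hyp_cov (X : Type) (D : ℕ → Col × Cond LL → X → Prop)
    (hmono : ∀ n p q x, q ≤ p → D n p x → D n q x) (hdense : ∀ n p, ∃ q ≤ p, ∃ x, D n q x)
    (p : Col × Cond LL) :
    ∃ q ≤ p, ∃ Xn : ℕ → Set X, (∀ n, (Xn n).Countable) ∧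
      ∀ n, ∀ r ≤ q, ∃ r' ≤ r, ∃ x ∈ Xn n, D n r' x := cov D hmono hdense p

/-- the name given by `(q, Y)` -/
private noncomputable def hypName (q : Cond LL) (Y : Pt LL → Set ℕ) : RName (Col × Cond LL) :=
  ⟨fun j d => d.2 ≤ q ∧ ∀ x ∈ d.2.pts, j ∈ Y x, fun _ _ _ h hd =>
    ⟨h.2.trans hd.1, fun x hx => hd.2 x (Cond.pts_mono h.2 hx)⟩⟩

private theorem hypName_iff {τ : RName (Col × Cond LL)} {q0 : Col × Cond LL}
    {Y0 : Pt LL → Set ℕ} (hR : Reads τ q0 Y0) {q : Cond LL} {Y : Pt LL → Set ℕ} (hq : q0.2 ≤ q)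
    (hY : ∀ x ∈ q0.2.pts, Y0 x = Y x) (j : ℕ) (r : Col × Cond LL) (hr : r ≤ q0) :
    (hypName q Y).In j r ↔ τ.In j r := by
  constructor
  · intro h r1 hr1
    obtain ⟨r2, hr2, -, h2⟩ := h r1 hr1
    have h20 : r2 ≤ q0 := hr2.trans (hr1.trans hr)
    have h3 : τ.In j r2 := (hR.2 r2 h20 j).1 fun x hx => by
      rw [hY x (Cond.pts_mono h20.2 hx)]
      exact h2 x hx
    obtain ⟨r3, hr3, h4⟩ := h3 r2 le_rfl
    exact ⟨r3, hr3.trans hr2, h4⟩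
  · intro h r1 hr1
    have h10 : r1 ≤ q0 := hr1.trans hr
    obtain ⟨x, hx⟩ := Cond.pts_nonempty r1.2
    obtain ⟨F, m, hl, hc⟩ := ((hR.1 j).mono h10.2) x hx
    have hv : r1.2.at' x F m hl ≤ r1.2 := Cond.at_le hl
    have h21 : ((r1.1, r1.2.at' x F m hl) : Col × Cond LL) ≤ r1 := ⟨le_rfl, hv⟩
    by_cases hj : j ∈ Y0 x
    · refine ⟨(r1.1, r1.2.at' x F m hl), h21, hv.trans (h10.2.trans hq), fun y hy => ?_⟩
      rw [← hY y (Cond.pts_mono (hv.trans h10.2) hy)]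
      have : (j ∈ Y0 y) = (j ∈ Y0 x) := hc y hy
      rw [this]
      exact hj
    · exfalso
      have h3 : τ.Out j (r1.1, r1.2.at' x F m hl) := (hR.2 _ (h21.trans h10) j).2 fun y hy => by
        have : (j ∈ Y0 y) = (j ∈ Y0 x) := hc y hy
        rw [this]
        exact hj
      exact ((h.mono hr1).mono h21).not_out h3

theorem hyp_surj : ∃ ρ : LL → RName (Col × Cond LL), ∀ (τ : RName (Col × Cond LL)) p,
    ∃ q ≤ p, ∃ ξ, ∀ j, ∀ r ≤ q, ((ρ ξ).In j r ↔ τ.In j r) := by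
  choose Z c hZ hc using fun δ : LL => codes' (Λ := Iio δ) (Len.small δ)
  let Pz : (Σ δ : LL, Z δ) → (Cond LL × (Pt LL → Set ℕ)) → Prop := fun z w =>
    w.1.In (Iio z.1) ∧ CR w.1 w.2 ∧ c z.1 w.1 w.2 = z.2
  let ρ' : (Σ δ : LL, Z δ) → RName (Col × Cond LL) := fun z =>
    if h : ∃ w, Pz z w then hypName h.choose.1 h.choose.2 else ⟨fun _ _ => False, fun _ _ _ _ h => h⟩
  have hcard : #(Σ δ : LL, Z δ) ≤ #LL := by
    rw [mk_sigma]
    refine (sum_le_sum _ (fun _ => 𝔠) hZ).trans ?_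
    rw [sum_const']
    have h1 : 𝔠 ≤ #LL := by
      rw [Len.card (L := LL)]
      exact Order.le_succ _
    refine (mul_le_mul' le_rfl h1).trans ?_
    rw [mul_eq_self (aleph0_le_continuum.trans h1)]
  obtain ⟨emb⟩ : Nonempty ((Σ δ : LL, Z δ) ↪ LL) := hcard
  have hne : Nonempty (Σ δ : LL, Z δ) := ⟨⟨⊥, c ⊥ (Cond.one LL) fun _ => ∅⟩⟩
  have hsurj := Function.invFun_surjective emb.injective
  refine ⟨fun ξ => ρ' (Function.invFun emb ξ), fun τ p => ?_⟩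
  obtain ⟨q0, hq0, Y0, hR⟩ := read τ p
  obtain ⟨δ, hδ⟩ := Len.bdd q0.2.supp (q0.2.csupp.le_aleph0.trans aleph0_le_continuum)
  obtain ⟨ξ, hξ⟩ := hsurj ⟨δ, c δ q0.2 Y0⟩
  have hex : ∃ w, Pz ⟨δ, c δ q0.2 Y0⟩ w := ⟨(q0.2, Y0), hδ, hR.1, rfl⟩
  obtain ⟨h1, h2, h3⟩ := hex.choose_spec
  obtain ⟨h4, h5⟩ := hc δ q0.2 hex.choose.1 Y0 hex.choose.2 hδ h1 hR.1 h2 h3.symm
  refine ⟨q0, hq0, ξ, fun j r hr => ?_⟩
  have h6 : ρ' (Function.invFun emb ξ) = hypName hex.choose.1 hex.choose.2 := by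
    rw [hξ]
    exact dif_pos hex
  show (ρ' (Function.invFun emb ξ)).In j r ↔ _
  rw [h6]
  exact hypName_iff hR h4 h5 j r hr

theorem hyp_all : Hyp (Col × Cond LL) LL where
  cov X D h1 h2 p := hyp_cov X D h1 h2 p
  chain f := by
    obtain ⟨Z, c, hZ, hc⟩ := Col.codes
    exact chain c hZ hc f
  col := by
    refine ⟨Om1, fun p α B => p.1.cd α B, ?_, ?_, ?_, ?_⟩
    · rw [mk_ord_toType]
    · intro p q α B hq h
      exact Col.cd_mono hq.1 h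
    · intro p α B B' h h'
      exact Col.cd_fun h h'
    · intro p B
      obtain ⟨a', ha', α, h⟩ := Col.cd_dense p.1 B
      exact ⟨(a', p.2), ⟨ha', le_rfl⟩, α, h⟩
  surj := hyp_surj
  inj := ⟨fun ξ => coord Col ξ, fun ξ η h p => distinct h p⟩
  uns I hI τ := by
    obtain ⟨Z, c, hZ, hc⟩ := Col.codes
    have h1 : #I ≤ 𝔠 := hI.trans aleph_one_le_continuum
    obtain ⟨δ, hδ⟩ := unsplit c hZ hc h1 τ
    refine ⟨coord Col δ, fun m p => coord_infinite δ m p, fun i p => ?_⟩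
    obtain ⟨e, he, m, ε, h⟩ := hδ i p
    exact ⟨e, he, m, ε, fun j hj r hr hN => h j hj r hr hN⟩
  reap τ p := reap' τ p

end E8
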