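import Pool.Agent.Lib.MP_e8be47_lc.XHyp

/-!
# the concrete order
-/

open Set Classical Cardinal

set_option linter.unusedSectionVars false

namespace E8

/-- the concrete index set -/
abbrev LL : Type := (Order.succ (𝔠 : Cardinal.{0})).ord.ToType

private theorem LEN_card {o : Ordinal.{0}} (x : Set.Iio o) :
    #(Iio (Ordinal.ToType.mk x)) = (x : Ordinal).card := by
  have h1 := Ordinal.card_typein (r := ((· < ·) : o.ToType → o.ToType → Prop)) (Ordinal.ToType.mk x)
  have h2 : Ordinal.typein ((· < ·) : o.ToType → o.ToType → Prop) (Ordinal.ToType.mk x) = (x : Ordinal) :=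
    Ordinal.typein_enum _ _
  rw [h2] at h1
  rw [h1]
  rfl

private theorem LEN_om : Ordinal.omega0 < (Order.succ (𝔠 : Cardinal.{0})).ord := by
  rw [Cardinal.lt_ord, Ordinal.card_omega0]
  exact Cardinal.aleph0_lt_continuum.trans (Order.lt_succ _)

private theorem LEN_nat (n : ℕ) : (n : Ordinal.{0}) < (Order.succ (𝔠 : Cardinal.{0})).ord :=
  (Ordinal.natCast_lt_omega0 n).trans LEN_om

private theorem LEN_om1 : (ℵ₁ : Cardinal.{0}).ord < (Order.succ (𝔠 : Cardinal.{0})).ord := by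
  rw [Cardinal.ord_lt_ord]
  exact lt_of_le_of_lt Cardinal.aleph_one_le_continuum (Order.lt_succ _)

private theorem LEN_bdd (A : Set LL) (hA : #A ≤ 𝔠) : ∃ δ, ∀ a ∈ A, a < δ := by
  have hreg : (Order.succ (𝔠 : Cardinal.{0})).IsRegular := isRegular_succ Cardinal.aleph0_le_continuum
  have h1 : ⨆ a : A, ((Ordinal.ToType.toOrd a.1 : Ordinal) + 1) < (Order.succ (𝔠 : Cardinal.{0})).ord := by
    apply Ordinal.iSup_add_one_lt_of_lt_cof
    · rw [hreg.cof_ord]
      exact Order.lt_succ_of_le hA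
    · intro a
      exact (Ordinal.ToType.toOrd a.1).2
  refine ⟨Ordinal.ToType.mk ⟨_, h1⟩, fun a ha => ?_⟩
  have h2 : Ordinal.ToType.mk (Ordinal.ToType.toOrd a) = a := Ordinal.ToType.mk.apply_symm_apply a
  rw [← h2, OrderIso.lt_iff_lt]
  have h3 : ((Ordinal.ToType.toOrd a : Ordinal) + 1) ≤
      ⨆ a : A, ((Ordinal.ToType.toOrd a.1 : Ordinal) + 1) :=
    Ordinal.le_iSup (fun a : A => ((Ordinal.ToType.toOrd a.1 : Ordinal) + 1)) ⟨a, ha⟩
  have h4 : (Ordinal.ToType.toOrd a : Ordinal) < (Ordinal.ToType.toOrd a : Ordinal) + 1 :=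
    Order.lt_add_one_iff.mpr le_rfl
  have h5 := lt_of_lt_of_le h4 h3
  exact h5

noncomputable instance : Len LL where
  bdd := LEN_bdd
  small := fun δ => Order.lt_succ_iff.mp (by
    have h := mk_Iio_lt δ (by rw [mk_ord_toType, Ordinal.type_toType])
    rwa [mk_ord_toType] at h)
  card := mk_ord_toType _
  nt := fun n => Ordinal.ToType.mk ⟨n, LEN_nat n⟩
  o0 := Ordinal.ToType.mk ⟨Ordinal.omega0, LEN_om⟩
  o1 := Ordinal.ToType.mk ⟨(ℵ₁ : Cardinal.{0}).ord, LEN_om1⟩
  nt_mono := by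
    intro a b hab
    rw [OrderIso.lt_iff_lt]
    have h1 : (a : Ordinal.{0}) < (b : Ordinal.{0}) := by exact_mod_cast hab
    exact h1
  nt_range := by
    intro x
    obtain ⟨y, rfl⟩ := Ordinal.ToType.mk.surjective x
    rw [OrderIso.lt_iff_lt]
    constructor
    · intro h
      obtain ⟨n, hn⟩ := Ordinal.lt_omega0.mp (show (y : Ordinal) < Ordinal.omega0 from h)
      exact ⟨n, by congr 1; exact Subtype.ext hn⟩
    · rintro ⟨n, hn⟩
      rw [Ordinal.ToType.mk.injective hn]
      exact Ordinal.natCast_lt_omega0 n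
  o1_card := by
    rw [LEN_card]
    exact card_ord _
  o1_small := by
    intro x hx
    obtain ⟨y, rfl⟩ := Ordinal.ToType.mk.surjective x
    rw [OrderIso.lt_iff_lt] at hx
    have h1 : (y : Ordinal) < (ℵ₁ : Cardinal.{0}).ord := hx
    rw [Cardinal.lt_ord] at h1
    rw [← Cardinal.le_aleph0_iff_set_countable, LEN_card]
    rw [← Cardinal.succ_aleph0] at h1
    exact Order.lt_succ_iff.mp h1

instance : Nonempty LL := ⟨Ordinal.ToType.mk ⟨Ordinal.omega0, LEN_om⟩⟩

noncomputable instance : OrderBot LL := WellFoundedLT.toOrderBot LL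

end E8
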