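import Pool.Agent.Lib.MP_e8be47_lc.XDefs

/-!
# the reals of the model
-/

open Set Cardinal

namespace E8

open MP9708F

variable {P : Type} [Preorder P] {L : Type} [LinearOrder L] [WellFoundedLT L] [Len L]

private theorem reg_rn (τ : RName P) : RegF (L := L) (fun x : L =>
    (⟨{p | ∃ j, x = Len.nt j ∧ τ.In j p}, fun _ _ hq ⟨j, hj, h⟩ =>
      ⟨j, hj, h.mono hq⟩⟩ : LowerSet P)) := by
  intro x
  refine ⟨fun hq h => ?_, fun {p} h => ?_⟩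
  · obtain ⟨j, hj, h1⟩ := h
    exact ⟨j, hj, h1.mono hq⟩
  · obtain ⟨r, _, j, hj, _⟩ := h p le_rfl
    refine ⟨j, hj, fun q hq => ?_⟩
    obtain ⟨s, hs, j', hj', h2⟩ := h q hq
    have hjj : j' = j := Len.nt_mono.injective (hj'.symm.trans hj)
    subst hjj
    obtain ⟨t, ht, h3⟩ := h2 s le_rfl
    exact ⟨t, ht.trans hs, h3⟩

theorem fmem_rn {τ : RName P} {j : ℕ} {p : P} :
    fmem (on P (Len.nt j : L)) (rn (L := L) τ) p ↔ τ.In j p := by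
  unfold rn
  rw [fmem_on_nn (reg_rn τ)]
  constructor
  · rintro ⟨j', hj', h⟩
    obtain rfl : j = j' := Len.nt_mono.injective hj'
    exact h
  · intro h
    exact ⟨j, rfl, h⟩

/-- equality of names of reals -/
theorem feq_rn {τ τ' : RName P} {p : P} :
    feq (rn (L := L) τ) (rn (L := L) τ') p ↔ ∀ j, ∀ q ≤ p, (τ.In j q ↔ τ'.In j q) := by
  constructor
  · intro h j q hq
    rw [← fmem_rn (L := L), ← fmem_rn (L := L)]
    exact fmem_congr_iff (feq_refl _ q) (feq_mono hq h)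
  · intro h
    unfold rn
    rw [feq_nn (reg_rn τ) (reg_rn τ')]
    intro x q hq
    constructor
    · rintro ⟨j, hj, h1⟩
      exact ⟨j, hj, (h j q hq).1 h1⟩
    · rintro ⟨j, hj, h1⟩
      exact ⟨j, hj, (h j q hq).2 h1⟩

private theorem fmem_RR {x : Nam P} {p : P} :
    fmem x (RR P L) p ↔ ∀ q ≤ p, ∃ r ≤ q, ∃ τ : RName P, feq x (rn (L := L) τ) r := by
  constructor
  · intro h q hq
    obtain ⟨r, hr, τ, _, h1⟩ := h q hq
    exact ⟨r, hr, τ, h1⟩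
  · intro h q hq
    obtain ⟨r, hr, τ, h1⟩ := h q hq
    exact ⟨r, hr, τ, trivial, h1⟩

variable [Nonempty P]

theorem isPower_RR : IsPower ME (cls (RR P L)) (cls (on P (Len.o0 : L))) := by
  intro x
  obtain ⟨x, rfl⟩ := cls_surj x
  constructor
  · intro h
    rw [ME_wt] at h
    refine los_sub.2 ?_
    filter_upwards [h] with p hp z q hq hz
    obtain ⟨τ, _, hτ⟩ := hp
    have hτ' : feq x (rn (L := L) τ) p := hτ
    have h1 : fmem z (rn (L := L) τ) q := fmem_congr_right (feq_mono hq hτ') hz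
    rw [on_eq, fmem_chk]
    intro r hr
    obtain ⟨s, hs, y, hy, hy'⟩ := fmem_nn.1 h1 r hr
    obtain ⟨j, hj, _⟩ := hy
    exact ⟨s, hs, y, (Len.nt_range y).2 ⟨j, hj⟩, hy'⟩
  · intro h
    have h1 := los_sub.1 h
    rw [ME_wt]
    filter_upwards [h1] with p hp
    let τ : RName P := ⟨fun j q => fmem (on P (Len.nt j : L)) x q, fun j p q hq h => fmem_mono hq h⟩
    have hτ : ∀ j q, τ.In j q ↔ fmem (on P (Len.nt j : L)) x q := fun j q =>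
      ⟨fun h => fmem_reg h, fun h r hr => ⟨r, le_rfl, fmem_mono hr h⟩⟩
    refine ⟨τ, trivial, ?_⟩
    show feq x (rn (L := L) τ) p
    refine feq_of_fmem fun z q hq => ⟨fun hz => ?_, fun hz => ?_⟩
    · have h2 := hp z q hq hz
      rw [on_eq, fmem_chk] at h2
      refine fmem_nn.2 fun r hr => ?_
      obtain ⟨s, hs, y, hy, hy'⟩ := h2 r hr
      obtain ⟨j, hj⟩ := (Len.nt_range y).1 hy
      refine ⟨s, hs, y, ⟨j, hj, ?_⟩, hy'⟩
      rw [hτ, ← hj]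
      exact fmem_congr_left hy' (fmem_mono (hs.trans hr) hz)
    · refine fmem_reg fun r hr => ?_
      obtain ⟨s, hs, y, ⟨j, hj, h3⟩, hy'⟩ := fmem_nn.1 hz r hr
      rw [hτ, ← hj] at h3
      exact ⟨s, hs, fmem_congr_left (feq_symm hy') h3⟩

theorem cardLe_RR (h : Hyp P L) : CardLe ME (cls (RR P L)) (cls (chk P (univ : Set L))) := by
  obtain ⟨ρ, hρ⟩ := h.surj
  let w : L → LowerSet P := fun ξ =>
    ⟨{p | ∀ η < ξ, ∀ q ≤ p, ¬ feq (rn (L := L) (ρ η)) (rn (L := L) (ρ ξ)) q},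
      fun _ _ hq h η hη r hr => h η hη r (hr.trans hq)⟩
  let e : Nam P := ⟨L, w, fun ξ => opN (rn (L := L) (ρ ξ)) (on P ξ)⟩
  have he : ∀ (z : Nam P) (p : P), fmem z e p ↔ ∀ q ≤ p, ∃ r ≤ q, ∃ ξ : L, r ∈ w ξ ∧
      feq z (opN (rn (L := L) (ρ ξ)) (on P ξ)) r := fun z p => Iff.rfl
  have hw : ∀ ξ η p, p ∈ w ξ → p ∈ w η →
      feq (rn (L := L) (ρ ξ)) (rn (L := L) (ρ η)) p → ξ = η := by
    intro ξ η p h1 h2 h3
    rcases lt_trichotomy ξ η with h4 | h4 | h4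
    · exact absurd h3 (h2 ξ h4 p le_rfl)
    · exact h4
    · exact absurd (feq_symm h3) (h1 η h4 p le_rfl)
  refine cardLe_cls.2 (Filter.Eventually.of_forall fun p q hq => ⟨q, le_rfl, e, ?_⟩)
  refine ⟨⟨?_, ?_, ?_⟩, ?_⟩
  · intro z q' _ hz r hr
    obtain ⟨s, hs, ξ, _, h1⟩ := (he z q').1 hz r hr
    refine ⟨s, hs, rn (L := L) (ρ ξ), on P ξ, ?_, fmem_on_chk.2 (mem_univ ξ), h1⟩
    exact fmem_RR.2 fun t ht => ⟨t, le_rfl, ρ ξ, feq_refl _ _⟩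
  · intro a q' _ ha r hr
    obtain ⟨s, hs, τ, hτ⟩ := fmem_RR.1 ha r hr
    obtain ⟨t, ht, ξ₀, h0⟩ := hρ τ s
    have hne : {ξ : L | ∃ u ≤ s, feq (rn (L := L) (ρ ξ)) (rn (L := L) τ) u}.Nonempty :=
      ⟨ξ₀, t, ht, feq_rn.2 h0⟩
    obtain ⟨ξ, ⟨u, hu, hξ⟩, hmin⟩ := WellFounded.has_min (wellFounded_lt (α := L)) _ hne
    refine ⟨u, hu.trans hs, on P ξ, ?_⟩
    have hwu : u ∈ w ξ := by
      intro η hη v hv h4
      exact hmin η ⟨v, hv.trans hu, feq_trans h4 (feq_mono hv hξ)⟩ hη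
    refine (he _ u).2 fun v hv => ⟨v, le_rfl, ξ, (w ξ).lower hv hwu, ?_⟩
    refine opN_congr ?_ (feq_refl _ _)
    exact feq_trans (feq_mono (hv.trans hu) hτ) (feq_symm (feq_mono hv hξ))
  · intro a b b' q' _ h1 h2
    refine feq_reg fun r hr => ?_
    obtain ⟨s, hs, ξ, hξ, h3⟩ := (he _ _).1 h1 r hr
    obtain ⟨t, ht, η, hη, h4⟩ := (he _ _).1 h2 s (hs.trans hr)
    obtain ⟨h5, h6⟩ := opN_inj.1 (feq_mono ht h3)
    obtain ⟨h7, h8⟩ := opN_inj.1 h4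
    obtain rfl : ξ = η := hw ξ η t ((w ξ).lower ht hξ) hη (feq_trans (feq_symm h5) h7)
    exact ⟨t, ht.trans hs, feq_trans h6 (feq_symm h8)⟩
  · intro a a' b q' _ h1 h2
    refine feq_reg fun r hr => ?_
    obtain ⟨s, hs, ξ, hξ, h3⟩ := (he _ _).1 h1 r hr
    obtain ⟨t, ht, η, hη, h4⟩ := (he _ _).1 h2 s (hs.trans hr)
    obtain ⟨h5, h6⟩ := opN_inj.1 (feq_mono ht h3)
    obtain ⟨h7, h8⟩ := opN_inj.1 h4
    obtain rfl : ξ = η := on_inj.1 (feq_trans (feq_symm h6) h8)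
    exact ⟨t, ht.trans hs, feq_trans h5 (feq_symm h7)⟩

theorem cardGe_RR (h : Hyp P L) : CardLe ME (cls (chk P (univ : Set L))) (cls (RR P L)) := by
  obtain ⟨χ, hχ⟩ := h.inj
  let e : Nam P := ⟨L, fun _ => ⊤, fun ξ => opN (on P ξ) (rn (L := L) (χ ξ))⟩
  have he : ∀ (z : Nam P) (p : P), fmem z e p ↔ ∀ q ≤ p, ∃ r ≤ q, ∃ ξ : L,
      feq z (opN (on P ξ) (rn (L := L) (χ ξ))) r := fun z p =>
    ⟨fun h q hq => by
      obtain ⟨r, hr, ξ, _, h1⟩ := h q hq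
      exact ⟨r, hr, ξ, h1⟩, fun h q hq => by
      obtain ⟨r, hr, ξ, h1⟩ := h q hq
      exact ⟨r, hr, ξ, trivial, h1⟩⟩
  have hx : ∀ ξ η p, feq (rn (L := L) (χ ξ)) (rn (L := L) (χ η)) p → ξ = η := by
    intro ξ η p h1
    by_contra hne
    obtain ⟨q, hq, j, ε, h2, h3⟩ := hχ ξ η hne p
    have h4 := feq_rn.1 h1 j q hq
    cases ε with
    | true => exact (h4.1 (h2.1 rfl)).not_out (h3.2 rfl)
    | false => exact (h4.2 (h3.1 rfl)).not_out (h2.2 rfl)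
  refine cardLe_cls.2 (Filter.Eventually.of_forall fun p q hq => ⟨q, le_rfl, e, ?_⟩)
  refine ⟨⟨?_, ?_, ?_⟩, ?_⟩
  · intro z q' _ hz r hr
    obtain ⟨s, hs, ξ, h1⟩ := (he z q').1 hz r hr
    refine ⟨s, hs, on P ξ, rn (L := L) (χ ξ), fmem_on_chk.2 (mem_univ ξ), ?_, h1⟩
    exact fmem_RR.2 fun t ht => ⟨t, le_rfl, χ ξ, feq_refl _ _⟩
  · intro a q' _ ha r hr
    obtain ⟨s, hs, ξ, _, hξ⟩ := fmem_chk.1 ha r hr
    refine ⟨s, hs, rn (L := L) (χ ξ), (he _ s).2 fun v hv => ⟨v, le_rfl, ξ, ?_⟩⟩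
    exact opN_congr (feq_mono hv hξ) (feq_refl _ _)
  · intro a b b' q' _ h1 h2
    refine feq_reg fun r hr => ?_
    obtain ⟨s, hs, ξ, h3⟩ := (he _ _).1 h1 r hr
    obtain ⟨t, ht, η, h4⟩ := (he _ _).1 h2 s (hs.trans hr)
    obtain ⟨h5, h6⟩ := opN_inj.1 (feq_mono ht h3)
    obtain ⟨h7, h8⟩ := opN_inj.1 h4
    obtain rfl : ξ = η := on_inj.1 (feq_trans (feq_symm h5) h7)
    exact ⟨t, ht.trans hs, feq_trans h6 (feq_symm h8)⟩
  · intro a a' b q' _ h1 h2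
    refine feq_reg fun r hr => ?_
    obtain ⟨s, hs, ξ, h3⟩ := (he _ _).1 h1 r hr
    obtain ⟨t, ht, η, h4⟩ := (he _ _).1 h2 s (hs.trans hr)
    obtain ⟨h5, h6⟩ := opN_inj.1 (feq_mono ht h3)
    obtain ⟨h7, h8⟩ := opN_inj.1 h4
    obtain rfl : ξ = η := hx ξ η t (feq_trans (feq_symm h6) h8)
    exact ⟨t, ht.trans hs, feq_trans h5 (feq_symm h7)⟩

end E8
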