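import Pool.Agent.Lib.MP_e8be47_lc.XReg

/-!
# unsplit and reaping families in the model
-/

open Set Cardinal

set_option linter.unusedSectionVars false

namespace E8

open MP9708F

variable {P : Type} [Preorder P] {L : Type} [LinearOrder L] [WellFoundedLT L] [Len L]

theorem ub_o1 (h : Hyp P L) : UB P (Iio (Len.o1 : L)) := by
  intro τ p
  obtain ⟨β', hβ1, hβ2⟩ := h.uns (Iio (Len.o1 : L)) (le_of_eq Len.o1_card) (fun α => τ α.1)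
  by_contra hno
  -- the failure for every `m, ε`
  have hfail : ∀ (m : ℕ) (ε : Bool), ∀ q ≤ p, ∃ r ≤ q, ∃ ξ < (Len.o1 : L), ∀ r' ≤ r, ∀ α < (Len.o1 : L),
      ξ ≤ α → ¬ ∀ j ≥ m, ∀ r'' ≤ r', β'.N j r'' → (τ α).Is j ε r'' := by
    intro m ε q hq
    by_contra hc
    apply hno
    refine ⟨q, hq, ⟨fun j r => m ≤ j ∧ β'.N j r, fun j p q hqp hN => ⟨hN.1, β'.mono j p q hqp hN.2⟩⟩, ε, ?_, ?_⟩
    · intro m' r _
      obtain ⟨r', hr', j, hj, hN⟩ := hβ1 (max m m') r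
      exact ⟨r', hr', j, (le_max_right m m').trans hj, (le_max_left m m').trans hj, hN⟩
    · intro ξ hξ r hr
      by_contra hc2
      apply hc
      refine ⟨r, hr, ξ, hξ, ?_⟩
      intro r' hr' α hα hξα hG
      apply hc2
      exact ⟨r', hr', α, hα, hξα, fun j r'' hr'' hN => hG j hN.1 r'' hr'' hN.2⟩
  -- covering
  let en : ℕ → ℕ × Bool := fun n => (n / 2, decide (n % 2 = 1))
  have hen : ∀ m ε, ∃ n, en n = (m, ε) := by
    intro m ε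
    cases ε with
    | false => exact ⟨2 * m, by simp [en]⟩
    | true => exact ⟨2 * m + 1, by simp [en]; omega⟩
  obtain ⟨q, hq, Xn, hX, hcov⟩ := h.cov L
    (fun n r ξ => (∀ r' ≤ r, ¬ r' ≤ p) ∨ (ξ < (Len.o1 : L) ∧ ∀ r' ≤ r, ∀ α < (Len.o1 : L), ξ ≤ α →
      ¬ ∀ j ≥ (en n).1, ∀ r'' ≤ r', β'.N j r'' → (τ α).Is j (en n).2 r''))
    (fun n a b ξ hba hD => by
      rcases hD with hD | ⟨h1, h2⟩
      · exact Or.inl (fun r' hr' => hD r' (hr'.trans hba))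
      · exact Or.inr ⟨h1, fun r' hr' => h2 r' (hr'.trans hba)⟩)
    (fun n a => by
      by_cases hc : ∃ r ≤ a, r ≤ p
      · obtain ⟨r, hra, hrp⟩ := hc
        obtain ⟨r1, hr1, ξ, hξ, h1⟩ := hfail (en n).1 (en n).2 r hrp
        exact ⟨r1, hr1.trans hra, ξ, Or.inr ⟨hξ, h1⟩⟩
      · exact ⟨a, le_rfl, Len.o0, Or.inl (fun r' hr' hp => hc ⟨r', hr', hp⟩)⟩)
    p
  obtain ⟨δ, hδ, hδ2⟩ := o1_bdd (L := L) (A := (⋃ n, Xn n) ∩ Iio (Len.o1 : L))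
    ((Set.countable_iUnion hX).mono Set.inter_subset_left) (fun a ha => ha.2)
  obtain ⟨r, hr, m, ε, hG⟩ := hβ2 ⟨δ, hδ⟩ q
  obtain ⟨n, hn⟩ := hen m ε
  obtain ⟨r', hr', ξ, hξ, hD⟩ := hcov n r hr
  rcases hD with hD | ⟨h1, h2⟩
  · exact hD r' le_rfl (hr'.trans (hr.trans hq))
  · apply h2 r' le_rfl δ hδ (hδ2 ξ ⟨Set.mem_iUnion.mpr ⟨n, hξ⟩, h1⟩).le
    rw [hn]
    intro j hj r'' hr'' hN
    exact hG j hj r'' (hr''.trans hr') hN

theorem ub_univ (h : Hyp P L) : UB P (univ : Set L) := by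
  intro τ p
  by_contra hno
  have hfail : ∀ (B : Set ℕ) (ε : Bool), B.Infinite → ∀ q ≤ p, ∃ r ≤ q, ∃ ξ : L, ∀ r' ≤ r, ∀ α, ξ ≤ α →
      ¬ ∀ j ∈ B, (τ α).Is j ε r' := by
    intro B ε hB q hq
    by_contra hc
    apply hno
    refine ⟨q, hq, ⟨fun j r => j ∈ B, fun j p q _ hN => hN⟩, ε, ?_, ?_⟩
    · intro m r _
      obtain ⟨j, hj, hmj⟩ := hB.exists_gt m
      exact ⟨r, le_rfl, j, hmj.le, hj⟩
    · intro ξ _ r hr
      by_contra hc2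
      apply hc
      refine ⟨r, hr, ξ, ?_⟩
      intro r' hr' α hξα hG
      apply hc2
      exact ⟨r', hr', α, trivial, hξα, fun j r'' hr'' hN => (hG j hN).mono hr''⟩
  let D : Set ℕ × Bool → Set P := fun b => {r | ∃ ξ : L, ∀ r' ≤ r, ∀ α, ξ ≤ α → ¬ ∀ j ∈ b.1, (τ α).Is j b.2 r'}
  choose C hCD hCa hCm using fun b => exists_maximal_antichain (D b)
  have hξ : ∀ s : (Σ b : Set ℕ × Bool, C b), ∃ ξ : L, ∀ r' ≤ s.2.1, ∀ α, ξ ≤ α → ¬ ∀ j ∈ s.1.1, (τ α).Is j s.1.2 r' :=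
    fun s => hCD s.1 s.2.2
  choose g hg using hξ
  have hcard : #(Set.range g) ≤ 𝔠 := by
    refine Cardinal.mk_range_le.trans ?_
    rw [Cardinal.mk_sigma]
    calc Cardinal.sum (fun b : Set ℕ × Bool => #(C b)) ≤ Cardinal.sum (fun _ : Set ℕ × Bool => 𝔠) :=
          Cardinal.sum_le_sum _ _ (fun b => antichain_card h (hCa b))
      _ = #(Set ℕ × Bool) * 𝔠 := by
          rw [Cardinal.sum_const']
      _ ≤ 𝔠 * 𝔠 := by
          apply mul_le_mul_left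
          rw [Cardinal.mk_prod, Cardinal.mk_set]
          simp
      _ = 𝔠 := Cardinal.continuum_mul_self
  obtain ⟨δ, hδ⟩ := Len.bdd (Set.range g) hcard
  obtain ⟨q, hq, B, hB, ε, hG⟩ := h.reap (τ δ) p
  obtain ⟨r, hr, ξ, hr2⟩ := hfail B ε hB q hq
  obtain ⟨a, ha, t, hta, htr⟩ := hCm (B, ε) r ⟨ξ, hr2⟩
  have h1 := hg ⟨(B, ε), ⟨a, ha⟩⟩ t hta δ (hδ _ ⟨_, rfl⟩).le
  exact h1 (fun j hj => (hG j hj).mono (htr.trans hr))

end E8
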