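import Pool.Agent.Lib.MP_e8be47_lc.XForce
import Pool.Agent.Lib.MP_e8be47_lc.XCard
import Pool.Agent.Lib.MP_e8be47_lc.XUb
import Pool.Agent.Lib.MP_e8be47_lc.XReal
import Pool.Agent.Lib.MP_e8be47_lc.XBif

/-!
# The model
-/

open Set Cardinal

namespace E8

open MP9708F

theorem model_of_hyp {P : Type} [Preorder P] [Nonempty P] {L : Type} [LinearOrder L]
    [WellFoundedLT L] [Len L] (h : Hyp P L) :
    ∃ (M : Type 1) (E : M → M → Prop), ModelsZFC E ∧ ∃ w w1 w2 R : M,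
      IsOmega E w ∧ IsNext E w w1 ∧ IsNext E w1 w2 ∧ IsPower E R w ∧ HasCard E R w2 ∧
      (¬ ∃ I, IsBIF E w w1 I) ∧ ¬ ∃ I, IsBIF E w w2 I := by
  refine ⟨Mod P, ME, models_zfc, cls (on P (Len.o0 : L)), cls (on P (Len.o1 : L)),
    cls (chk P (univ : Set L)), cls (RR P L), isOmega_o0, next_o1 h, next_univ h, isPower_RR,
    ⟨cardLe_RR h, cardGe_RR h⟩, ?_, ?_⟩
  · have := no_bif (isLowerSet_Iio _) (rg_o1 h) (ub_o1 h)
    rwa [← on_eq] at this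
  · exact no_bif isLowerSet_univ (rg_univ h) (ub_univ h)

/-- **Main theorem.** -/
theorem main : ∃ (M : Type 1) (E : M → M → Prop), ModelsZFC E ∧ ∃ w w1 w2 R : M,
    IsOmega E w ∧ IsNext E w w1 ∧ IsNext E w1 w2 ∧ IsPower E R w ∧ HasCard E R w2 ∧
    (¬ ∃ I, IsBIF E w w1 I) ∧ ¬ ∃ I, IsBIF E w w2 I := by
  have : Nonempty (Col × Cond LL) := by
    obtain ⟨a, -⟩ := Tow.start (𝔸 := Col) univ infinite_univ
    exact ⟨a, Cond.one LL⟩
  exact model_of_hyp hyp_all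

end E8
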