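import Pool.Agent.Lib.MP_e8be47_lc.XDefs

/-!
# regularity
-/

open Set Cardinal

set_option linter.unusedSectionVars false

namespace E8

open MP9708F

variable {P : Type} [Preorder P] {L : Type} [LinearOrder L] [WellFoundedLT L] [Len L]

/-- countable subsets of `Iio o1` are bounded below `o1` -/
theorem o1_bdd {A : Set L} (hA : A.Countable) (h : ∀ a ∈ A, a < (Len.o1 : L)) :
    ∃ δ < (Len.o1 : L), ∀ a ∈ A, a < δ := by
  by_contra hc
  push Not at hc
  have h1 : (Iio (Len.o1 : L)).Countable := by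
    refine (hA.biUnion (t := fun a _ => Iic a) fun a ha => ?_).mono ?_
    · rw [← Iio_insert]
      exact (Len.o1_small a (h a ha)).insert a
    · intro x hx
      obtain ⟨a, ha, hxa⟩ := hc x hx
      exact mem_biUnion ha hxa
  have h2 := h1.le_aleph0
  rw [Len.o1_card] at h2
  exact absurd h2 (not_le.2 aleph0_lt_aleph_one)

/-- antichains have size at most `2^ℵ₀` -/
theorem antichain_card (h : Hyp P L) {C : Set P} (hC : Antichain' C) : #C ≤ 𝔠 := by
  by_contra hc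
  rw [not_le] at hc
  have h1 : #L ≤ #C := by
    rw [Len.card]
    exact Order.succ_le_of_lt hc
  rw [Cardinal.le_def] at h1
  obtain ⟨f⟩ := h1
  obtain ⟨i, j, hij, r, hi, hj⟩ := h.chain fun x => (f x : P)
  exact hij (f.injective (Subtype.ext (hC _ (f i).2 _ (f j).2 r hi hj)))

/-- the value at `α ∈ J` of a name of an injection of `J` into `μ` -/
theorem m1_value {e J : Nam P} {μ : L} {p : P} (he : FInj e J (on P μ) p) {α : L} {r : P}
    (hr : r ≤ p) (hα : fmem (on P α) J r) :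
    ∃ u ≤ r, ∃ x < μ, fmem (opN (on P α) (on P x)) e u := by
  obtain ⟨s, hs, b, hb⟩ := he.total _ r hr hα r le_rfl
  obtain ⟨t, ht, a', b', -, hb', hab⟩ := he.pairs _ s (hs.trans hr) hb s le_rfl
  obtain ⟨-, hbb⟩ := opN_inj.1 hab
  rw [on_eq, fmem_chk] at hb'
  obtain ⟨u, hu, x, hx, hbx⟩ := hb' t le_rfl
  exact ⟨u, hu.trans (ht.trans hs), x, hx,
    fmem_congr_left (opN_congr (feq_refl _ u) (feq_trans (feq_mono hu hbb) hbx))
      (fmem_mono (hu.trans ht) hb)⟩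

theorem rg_o1 (h : Hyp P L) : RG P (Iio (Len.o1 : L)) := by
  intro e J μ p hμ he hU
  have hc : (Iio μ).Countable := Len.o1_small μ hμ
  rcases (Iio μ).eq_empty_or_nonempty with h0 | hne
  · obtain ⟨r, hr, α, hα, -, hαJ⟩ := hU μ hμ p le_rfl
    obtain ⟨u, hu, x, hx, -⟩ := m1_value he hr hαJ
    have h1 : x ∈ Iio μ := hx
    rw [h0] at h1
    exact h1
  · obtain ⟨γ, hγ⟩ := hc.exists_eq_range hne
    obtain ⟨q, hq, Xn, hXn, hD⟩ := h.cov L (fun n r x =>
      fmem (opN (on P x) (on P (γ n))) e r ∨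
        (x = Len.o0 ∧ ∀ x' : L, ∀ r' ≤ r, ¬ fmem (opN (on P x') (on P (γ n))) e r')) (by
      rintro n p' q x hq (h1 | ⟨h1, h2⟩)
      · exact Or.inl (fmem_mono hq h1)
      · exact Or.inr ⟨h1, fun x' r' hr' => h2 x' r' (hr'.trans hq)⟩) (by
      intro n p'
      by_cases h1 : ∃ x' : L, ∃ r' ≤ p', fmem (opN (on P x') (on P (γ n))) e r'
      · obtain ⟨x', r', hr', h1⟩ := h1
        exact ⟨r', hr', x', Or.inl h1⟩
      · push Not at h1
        exact ⟨p', le_rfl, Len.o0, Or.inr ⟨rfl, h1⟩⟩) p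
    obtain ⟨δ, hδ, hδA⟩ := o1_bdd (A := (⋃ n, Xn n) ∩ Iio (Len.o1 : L))
      ((countable_iUnion hXn).mono inter_subset_left) (fun a ha => ha.2)
    obtain ⟨r, hr, α, hα, hδα, hαJ⟩ := hU δ hδ q hq
    obtain ⟨u, hu, x, hx, h1⟩ := m1_value he (hr.trans hq) hαJ
    have hx' : x ∈ Iio μ := hx
    rw [hγ] at hx'
    obtain ⟨n, rfl⟩ := hx'
    obtain ⟨v, hv, y, hy, hDy⟩ := hD n u (hu.trans hr)
    rcases hDy with hDy | ⟨-, hDy⟩
    · have h2 := he.inj _ _ _ v (hv.trans (hu.trans (hr.trans hq))) hDy (fmem_mono hv h1)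
      rw [on_inj] at h2
      subst h2
      exact absurd (hδA y ⟨mem_iUnion.2 ⟨n, hy⟩, hα⟩) (not_lt.2 hδα)
    · exact hDy α v le_rfl (fmem_mono hv h1)

theorem rg_univ (h : Hyp P L) : RG P (univ : Set L) := by
  intro e J μ p _ he hU
  have hA : ∀ γ : L, #({x : L | ∃ q ≤ p, fmem (opN (on P x) (on P γ)) e q} : Set L) ≤ 𝔠 := by
    intro γ
    choose q hq using fun x : ({x : L | ∃ q ≤ p, fmem (opN (on P x) (on P γ)) e q} : Set L) => x.2
    have hinj : Function.Injective q := by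
      intro x y hxy
      have h1 := (hq y).2
      rw [← hxy] at h1
      exact Subtype.ext (on_inj.1 (he.inj _ _ _ (q x) (hq x).1 (hq x).2 h1))
    have hanti : Antichain' (range q) := by
      rintro _ ⟨x, rfl⟩ _ ⟨y, rfl⟩ r hx hy
      have h1 : (x : L) = y := on_inj.1 (he.inj _ _ _ r (hx.trans (hq x).1)
        (fmem_mono hx (hq x).2) (fmem_mono hy (hq y).2))
      rw [Subtype.ext h1]
    rw [← mk_range_eq q hinj]
    exact antichain_card h hanti
  have hU' : #(⋃ γ : Iio μ, {x : L | ∃ q ≤ p, fmem (opN (on P x) (on P γ.1)) e q} : Set L) ≤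
      𝔠 := by
    have h1 : (⨆ γ : Iio μ, #({x : L | ∃ q ≤ p, fmem (opN (on P x) (on P γ.1)) e q} : Set L)) ≤
        𝔠 := ciSup_le' fun i => hA i.1
    have h2 : #(Iio μ) ≤ 𝔠 := Len.small μ
    refine (mk_iUnion_le _).trans ?_
    calc _ ≤ 𝔠 * 𝔠 := by gcongr
      _ = 𝔠 := continuum_mul_self
  obtain ⟨δ, hδ⟩ := Len.bdd _ hU'
  obtain ⟨r, hr, α, -, hα, hαJ⟩ := hU δ (mem_univ _) p le_rfl
  obtain ⟨u, hu, x, hx, h1⟩ := m1_value he hr hαJ
  exact absurd (hδ α (mem_iUnion.2 ⟨⟨x, hx⟩, u, hu.trans hr, h1⟩)) (not_lt.2 hα)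

end E8
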